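import Pool.Agent.Y303.LV.Pert

/-!
Perturbations of a strong solution by a large oscillating field: algebraic preliminaries.
-/

set_option autoImplicit false
set_option linter.unusedSectionVars false

open MeasureTheory Set Filter Topology
open scoped InnerProductSpace

namespace Pool.Agent.J4H18.DN

open Pool.Agent.Y303.RA Pool.Agent.Y303.NF
open Pool.Agent.W795.TQ
open Pool.Agent.W918.ES (gronL1)
open H772R2.NSR (Frame prim_cont memLp_ii ae_deriv_of_prim)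
open H772R2.NSG (St ii_of_int int_inner norm_m_le mem_cont)
open Pool.Agent.W790.TQ (toSt sq_prim)

variable {H K : Type} [NormedAddCommGroup H] [InnerProductSpace ℝ H] [CompleteSpace H]
  [NormedAddCommGroup K] [InnerProductSpace ℝ K] [CompleteSpace K]
  {W : Submodule ℝ (H × K)} {m : H → K} {C c ν T τ : ℝ}

/-- the polar form of `m` -/
def Sb (m : H → K) (x y : H) : K := m (x + y) - m x - m y

theorem Sb_comm (x y : H) : Sb m x y = Sb m y x := by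
  unfold Sb
  rw [add_comm x y]
  abel

/-- `m` is quadratic -/
structure Quad (W : Submodule ℝ (H × K)) (m : H → K) : Prop where
  add : ∀ p ∈ W, ∀ q ∈ W, ∀ r ∈ W, Sb m (p.1 + q.1) r.1 = Sb m p.1 r.1 + Sb m q.1 r.1
  smul : ∀ a : ℝ, ∀ p ∈ W, ∀ q ∈ W, Sb m (a • p.1) q.1 = a • Sb m p.1 q.1

theorem Quad.add_right (Q : Quad W m) {p q r : H × K} (hp : p ∈ W) (hq : q ∈ W) (hr : r ∈ W) :
    Sb m r.1 (p.1 + q.1) = Sb m r.1 p.1 + Sb m r.1 q.1 := by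
  rw [Sb_comm, Q.add p hp q hq r hr, Sb_comm p.1, Sb_comm q.1]

theorem Quad.sub_left (Q : Quad W m) {p q r : H × K} (hp : p ∈ W) (hq : q ∈ W) (hr : r ∈ W) :
    Sb m (p.1 - q.1) r.1 = Sb m p.1 r.1 - Sb m q.1 r.1 := by
  have h := Q.add (p - q) (W.sub_mem hp hq) q hq r hr
  simp only [Prod.fst_sub, sub_add_cancel] at h
  rw [h]
  abel

/-- the orthogonality relation for the polar form -/
theorem Sb_anti (Fr : Frame W m C) {p q : H × K} (hp : p ∈ W) (hq : q ∈ W) :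
    ⟪Sb m q.1 p.1, p.2⟫_ℝ = -⟪m p.1, q.2⟫_ℝ := by
  have h := Fr.anti (q + p) (W.add_mem hq hp) q hq
  simp only [Prod.fst_add, Prod.snd_add, add_sub_cancel_left] at h
  have h2 := Fr.ortho p hp
  unfold Sb
  rw [inner_sub_left, h, h2, sub_zero]

/-- the expansion of the second difference -/
theorem Quad.expand (Q : Quad W m) {V δ w ω : H × K} (hV : V ∈ W) (hδ : δ ∈ W) (hw : w ∈ W)
    (hω : ω ∈ W) :
    m (V.1 + δ.1 + (w.1 + ω.1)) - m (V.1 + δ.1) - (m (V.1 + w.1) - m V.1)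
      = Sb m δ.1 w.1 + Sb m (V.1 + δ.1) ω.1 + Sb m w.1 ω.1 + m ω.1 := by
  have h1 := Q.add V hV δ hδ w hw
  have h2 := Q.add_right hw hω (W.add_mem hV hδ)
  simp only [Prod.fst_add] at h2
  have e1 : m (V.1 + δ.1 + (w.1 + ω.1)) = m (V.1 + δ.1) + m (w.1 + ω.1)
      + Sb m (V.1 + δ.1) (w.1 + ω.1) := by unfold Sb; abel
  have e2 : m (w.1 + ω.1) = m w.1 + m ω.1 + Sb m w.1 ω.1 := by unfold Sb; abel
  have e3 : m (V.1 + w.1) = m V.1 + m w.1 + Sb m V.1 w.1 := by unfold Sb; abel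
  rw [e1, e2, e3, h2, h1]
  abel

/-- the bound of the polar form -/
theorem Quad.bound (Q : Quad W m) (Fr : Frame W m C) {p q : H × K} (hp : p ∈ W) (hq : q ∈ W) :
    ‖Sb m p.1 q.1‖ ≤ 2 * √(√(C * (‖q.1‖ * ‖q.2‖ ^ 3))) * ‖p.2‖ := by
  have hC := Fr.C0
  set D : ℝ := √(√(C * (‖q.1‖ * ‖q.2‖ ^ 3))) with hD
  have hD0 : 0 ≤ D := Real.sqrt_nonneg _
  have hD4 : D ^ 4 = C * (‖q.1‖ * ‖q.2‖ ^ 3) := by
    have h1 : D ^ 2 = √(C * (‖q.1‖ * ‖q.2‖ ^ 3)) := Real.sq_sqrt (Real.sqrt_nonneg _)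
    calc D ^ 4 = (D ^ 2) ^ 2 := by ring
      _ = _ := by rw [h1, Real.sq_sqrt (by positivity)]
  have key : ∀ l : ℝ, 0 < l → l * ‖Sb m p.1 q.1‖ ≤ l * (2 * D * ‖p.2‖) + (D * ‖q.2‖ + ‖m q.1‖) := by
    intro l hl
    have hlp : l • p ∈ W := W.smul_mem l hp
    have h1 := Q.smul l p hp q hq
    have h2 : ‖Sb m (l • p.1) q.1‖ = l * ‖Sb m p.1 q.1‖ := by
      rw [h1, norm_smul, Real.norm_eq_abs, abs_of_pos hl]
    have h3 := Fr.lips (l • p + q) (W.add_mem hlp hq) (l • p) hlp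
    simp only [Prod.fst_add, Prod.snd_add, Prod.smul_fst, Prod.smul_snd, add_sub_cancel_left] at h3
    have h4 : ‖l • p.2 + q.2‖ + ‖l • p.2‖ ≤ 2 * l * ‖p.2‖ + ‖q.2‖ := by
      have := norm_add_le (l • p.2) q.2
      rw [norm_smul, Real.norm_eq_abs, abs_of_pos hl] at this ⊢
      linarith
    have h5 : ‖m (l • p.1 + q.1) - m (l • p.1)‖ ^ 4 ≤ (D * (2 * l * ‖p.2‖ + ‖q.2‖)) ^ 4 := by
      refine h3.trans ?_
      rw [mul_pow, hD4]
      have : (‖l • p.2 + q.2‖ + ‖l • p.2‖) ^ 4 ≤ (2 * l * ‖p.2‖ + ‖q.2‖) ^ 4 :=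
        pow_le_pow_left₀ (by positivity) h4 4
      calc C * (‖q.1‖ * ‖q.2‖ ^ 3 * (‖l • p.2 + q.2‖ + ‖l • p.2‖) ^ 4)
          ≤ C * (‖q.1‖ * ‖q.2‖ ^ 3 * (2 * l * ‖p.2‖ + ‖q.2‖) ^ 4) := by gcongr
        _ = _ := by ring
    have h6 : ‖m (l • p.1 + q.1) - m (l • p.1)‖ ≤ D * (2 * l * ‖p.2‖ + ‖q.2‖) :=
      (pow_le_pow_iff_left₀ (norm_nonneg _) (by positivity) (by norm_num)).mp h5
    have h7 : ‖Sb m (l • p.1) q.1‖ ≤ ‖m (l • p.1 + q.1) - m (l • p.1)‖ + ‖m q.1‖ := by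
      unfold Sb
      exact norm_sub_le _ _
    rw [h2] at h7
    nlinarith
  refine le_of_forall_pos_le_add fun ε hε => ?_
  set B : ℝ := D * ‖q.2‖ + ‖m q.1‖ with hB
  have hB0 : 0 ≤ B := by positivity
  have h8 := key ((B + 1) / ε) (by positivity)
  have hl : 0 < (B + 1) / ε := by positivity
  have h9 : B ≤ (B + 1) / ε * ε := by
    rw [div_mul_cancel₀ _ hε.ne']
    linarith
  have h10 : (B + 1) / ε * ‖Sb m p.1 q.1‖ ≤ (B + 1) / ε * (2 * D * ‖p.2‖ + ε) := by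
    rw [mul_add]
    linarith
  exact le_of_mul_le_mul_left h10 hl

/-- Young's inequality -/
theorem young4 {a b s : ℝ} (ha : 0 ≤ a) (hb : 0 ≤ b) (hs : 0 < s) :
    a * b ^ 3 ≤ s * b ^ 4 + 27 / (256 * s ^ 3) * a ^ 4 := by
  have h : 0 ≤ (4 * s * b - 3 * a) ^ 2 * ((4 * s * b) ^ 2 + 2 * a * (4 * s * b) + 3 * a ^ 2) := by
    positivity
  have e : s * b ^ 4 + 27 / (256 * s ^ 3) * a ^ 4 - a * b ^ 3
      = ((4 * s * b - 3 * a) ^ 2 * ((4 * s * b) ^ 2 + 2 * a * (4 * s * b) + 3 * a ^ 2))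
        / (256 * s ^ 3) := by
    field_simp
    ring
  have h2 : 0 ≤ s * b ^ 4 + 27 / (256 * s ^ 3) * a ^ 4 - a * b ^ 3 := by
    rw [e]; positivity
  linarith

theorem m_young' (Un : Univ W m c) {Z η : ℝ} (hZ : 0 ≤ Z) (hη : 0 < η) :
    ∃ C1 : ℝ, 0 ≤ C1 ∧ ∀ p ∈ W, ‖m p.1‖ * Z ≤ η * ‖p.2‖ ^ 2 + C1 * ‖p.1‖ ^ 2 := by
  have hc := Un.c0
  set A : ℝ := c * Z + 1 with hA
  have hA0 : 0 < A := by positivity
  refine ⟨A * (27 / (256 * (η / A) ^ 3)), by positivity, fun p hp => ?_⟩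
  have h1 := Un.quart p hp
  have h2 := young4 (Real.sqrt_nonneg ‖p.1‖) (Real.sqrt_nonneg ‖p.2‖) (div_pos hη hA0)
  have e1 : √‖p.1‖ ^ 4 = ‖p.1‖ ^ 2 := by
    calc √‖p.1‖ ^ 4 = (√‖p.1‖ ^ 2) ^ 2 := by ring
      _ = _ := by rw [Real.sq_sqrt (norm_nonneg _)]
  have e2 : √‖p.2‖ ^ 4 = ‖p.2‖ ^ 2 := by
    calc √‖p.2‖ ^ 4 = (√‖p.2‖ ^ 2) ^ 2 := by ring
      _ = _ := by rw [Real.sq_sqrt (norm_nonneg _)]
  rw [e1, e2] at h2
  have h3 : 0 ≤ √‖p.1‖ * √‖p.2‖ ^ 3 := by positivity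
  calc ‖m p.1‖ * Z ≤ c * (√‖p.1‖ * √‖p.2‖ ^ 3) * Z := by gcongr
    _ ≤ A * (√‖p.1‖ * √‖p.2‖ ^ 3) := by rw [hA]; nlinarith
    _ ≤ A * (η / A * ‖p.2‖ ^ 2 + 27 / (256 * (η / A) ^ 3) * ‖p.1‖ ^ 2) := by gcongr
    _ = _ := by field_simp

/-- Gronwall's lemma for the square of the norm -/
theorem gron_sq {Y : Type} [NormedAddCommGroup Y] [InnerProductSpace ℝ Y] [CompleteSpace Y]
    {g g1 : ℝ → Y} (h1 : MemLp g1 2 (volume.restrict (Ioc 0 T)))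
    (hg : ∀ a b, 0 ≤ a → a ≤ b → b ≤ T → g b - g a = ∫ s in a..b, g1 s)
    {β γ κ : ℝ → ℝ} (hβ : ContinuousOn β (Icc 0 T)) (hγ : ContinuousOn γ (Icc 0 T))
    (hκ : ContinuousOn κ (Icc 0 T)) (hβ0 : ∀ s ∈ Icc 0 T, 0 ≤ β s)
    (hγ0 : ∀ s ∈ Icc 0 T, 0 ≤ γ s) (hκ0 : ∀ s ∈ Icc 0 T, 0 ≤ κ s) {B Γ Kp : ℝ}
    (hB : ∫ s in (0 : ℝ)..T, β s ≤ B) (hΓ : ∫ s in (0 : ℝ)..T, γ s ≤ Γ) (hΓ0 : 0 < Γ)
    (hK : ∫ s in (0 : ℝ)..T, κ s ≤ Kp)
    (h : ∀ᵐ s ∂(volume.restrict (Ioc 0 T)),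
      2 * ⟪g1 s, g s⟫_ℝ ≤ β s * ‖g s‖ ^ 2 + 2 * (γ s * ‖g s‖) + κ s) :
    ∀ t ∈ Icc 0 T, ‖g t‖ ^ 2 ≤ (‖g 0‖ ^ 2 + Γ ^ 2 + Kp) * Real.exp (B + 1) := by
  intro t ht
  have hT : 0 ≤ T := ht.1.trans ht.2
  have hsub : Icc 0 t ⊆ Icc 0 T := Icc_subset_Icc_right ht.2
  have hgc : ContinuousOn g (Icc 0 T) := prim_cont h1 hg
  have mono : ∀ {f : ℝ → ℝ}, ContinuousOn f (Icc 0 T) → (∀ s ∈ Icc 0 T, 0 ≤ f s) →
      ∀ r ∈ Icc 0 T, ∫ s in (0 : ℝ)..r, f s ≤ ∫ s in (0 : ℝ)..T, f s := by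
    intro f hf hf0 r hr
    have i1 : IntervalIntegrable f volume 0 r := by
      refine ContinuousOn.intervalIntegrable ?_
      rw [uIcc_of_le hr.1]
      exact hf.mono (Icc_subset_Icc_right hr.2)
    have i2 : IntervalIntegrable f volume r T := by
      refine ContinuousOn.intervalIntegrable ?_
      rw [uIcc_of_le hr.2]
      exact hf.mono (Icc_subset_Icc_left hr.1)
    have h2 := intervalIntegral.integral_add_adjacent_intervals i1 i2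
    have h3 : 0 ≤ ∫ s in r..T, f s :=
      intervalIntegral.integral_nonneg hr.2 fun s hs => hf0 s ⟨hr.1.trans hs.1, hs.2⟩
    linarith
  set β' : ℝ → ℝ := fun s => |β s| + 1 / Γ * |γ s| with hβ'
  have hβ'c : ContinuousOn β' (Icc 0 T) := hβ.abs.add (continuousOn_const.mul hγ.abs)
  have hyc : ContinuousOn (fun s => ‖g s‖ ^ 2) (Icc 0 T) := hgc.norm.pow 2
  have ii : ∀ {f : ℝ → ℝ}, ContinuousOn f (Icc 0 T) → ∀ r ∈ Icc 0 T,
      IntervalIntegrable f volume 0 r := by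
    intro f hf r hr
    refine ContinuousOn.intervalIntegrable ?_
    rw [uIcc_of_le hr.1]
    exact hf.mono (Icc_subset_Icc_right hr.2)
  have habs : ∀ {f : ℝ → ℝ}, (∀ s ∈ Icc 0 T, 0 ≤ f s) → ∀ r ∈ Icc 0 T,
      ∫ s in (0 : ℝ)..r, |f s| = ∫ s in (0 : ℝ)..r, f s := by
    intro f hf r hr
    refine intervalIntegral.integral_congr fun s hs => ?_
    rw [uIcc_of_le hr.1] at hs
    exact abs_of_nonneg (hf s ⟨hs.1, hs.2.trans hr.2⟩)
  have hkey := gronL1 (y := fun s => ‖g s‖ ^ 2) (β := β') (k := ‖g 0‖ ^ 2 + Γ ^ 2 + Kp) ht.1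
    (hyc.mono hsub) (ii hβ'c t ht) (fun s => by positivity) (by
      intro r hr
      have hrT : r ∈ Icc 0 T := hsub hr
      have hsr : Icc 0 r ⊆ Icc 0 T := Icc_subset_Icc_right hrT.2
      have e1 := sq_prim h1 hg le_rfl hr.1 hrT.2
      have i1 : IntegrableOn (fun s => 2 * ⟪g1 s, g s⟫_ℝ) (Ioc 0 r) := by
        have k1 : MemLp g1 2 (volume.restrict (Ioc 0 r)) :=
          h1.mono_measure (Measure.restrict_mono (Ioc_subset_Ioc_right hrT.2) le_rfl)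
        exact (int_inner k1 (mem_cont (hgc.mono hsr))).const_mul 2
      have i2 : IntegrableOn (fun s => β' s * ‖g s‖ ^ 2 + (Γ * |γ s| + κ s)) (Ioc 0 r) := by
        have : ContinuousOn (fun s => β' s * ‖g s‖ ^ 2 + (Γ * |γ s| + κ s)) (Icc 0 r) :=
          ((hβ'c.mul hyc).add ((continuousOn_const.mul hγ.abs).add hκ)).mono hsr
        exact this.integrableOn_Icc.mono_set Ioc_subset_Icc_self
      have h3 : ∫ s in (0 : ℝ)..r, 2 * ⟪g1 s, g s⟫_ℝ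
          ≤ ∫ s in (0 : ℝ)..r, (β' s * ‖g s‖ ^ 2 + (Γ * |γ s| + κ s)) := by
        rw [intervalIntegral.integral_of_le hr.1, intervalIntegral.integral_of_le hr.1]
        refine integral_mono_ae i1 i2 ?_
        filter_upwards [ae_mono (Measure.restrict_mono (Ioc_subset_Ioc_right hrT.2) le_rfl) h,
          ae_restrict_mem measurableSet_Ioc] with s k1 k2
        have hsT : s ∈ Icc 0 T := ⟨k2.1.le, k2.2.trans hrT.2⟩
        have k3 := hβ0 s hsT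
        have k4 := hγ0 s hsT
        have k5 : 2 * (γ s * ‖g s‖) ≤ 1 / Γ * γ s * ‖g s‖ ^ 2 + Γ * γ s := by
          have : 0 ≤ γ s * (‖g s‖ - Γ) ^ 2 / Γ := by positivity
          have e : γ s * (‖g s‖ - Γ) ^ 2 / Γ
              = 1 / Γ * γ s * ‖g s‖ ^ 2 + Γ * γ s - 2 * (γ s * ‖g s‖) := by
            field_simp
            ring
          linarith
        simp only [hβ']
        rw [abs_of_nonneg k3, abs_of_nonneg k4]
        have e : (β s + 1 / Γ * γ s) * ‖g s‖ ^ 2 + (Γ * γ s + κ s)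
            = β s * ‖g s‖ ^ 2 + (1 / Γ * γ s * ‖g s‖ ^ 2 + Γ * γ s) + κ s := by ring
        rw [e]
        linarith
      have q1 : IntervalIntegrable (fun s => β' s * ‖g s‖ ^ 2) volume 0 r :=
        ii (hβ'c.mul hyc) r hrT
      have q2 : IntervalIntegrable (fun s => Γ * |γ s|) volume 0 r :=
        (ii hγ.abs r hrT).const_mul _
      rw [intervalIntegral.integral_add q1 (q2.add (ii hκ r hrT)),
        intervalIntegral.integral_add q2 (ii hκ r hrT)] at h3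
      have q3 : ∫ s in (0 : ℝ)..r, Γ * |γ s| = Γ * ∫ s in (0 : ℝ)..r, γ s := by
        rw [intervalIntegral.integral_const_mul, habs hγ0 r hrT]
      rw [q3] at h3
      have h4 := mono hγ hγ0 r hrT
      have h5 := mono hκ hκ0 r hrT
      have h6 : Γ * (∫ s in (0 : ℝ)..r, γ s) ≤ Γ ^ 2 := by
        calc Γ * (∫ s in (0 : ℝ)..r, γ s) ≤ Γ * Γ := by gcongr; linarith
          _ = Γ ^ 2 := by ring
      linarith)
  have hβL : ∫ s in (0 : ℝ)..t, β' s ≤ B + 1 := by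
    simp only [hβ']
    rw [intervalIntegral.integral_add (ii hβ.abs t ht) ((ii hγ.abs t ht).const_mul _),
      intervalIntegral.integral_const_mul, habs hβ0 t ht, habs hγ0 t ht]
    have h2 := mono hβ hβ0 t ht
    have h3 := mono hγ hγ0 t ht
    have h4 : 1 / Γ * (∫ s in (0 : ℝ)..t, γ s) ≤ 1 := by
      rw [one_div, inv_mul_le_iff₀ hΓ0, mul_one]
      linarith
    linarith
  have hK0 : 0 ≤ Kp := by
    have : 0 ≤ ∫ s in (0 : ℝ)..T, κ s := intervalIntegral.integral_nonneg hT hκ0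
    linarith
  refine hkey.trans ?_
  gcongr

end Pool.Agent.J4H18.DN
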