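import Pool.Agent.J4H18.DN.A1

/-!
Perturbations of a strong solution by a large oscillating field: the differential inequalities for
the error and for its difference quotients in time.
-/

set_option autoImplicit false
set_option linter.unusedSectionVars false

open MeasureTheory Set Filter Topology
open scoped InnerProductSpace

namespace Pool.Agent.J4H18.DN

open Pool.Agent.Y303.RA Pool.Agent.Y303.NF
open Pool.Agent.W795.TQ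
open H772R2.NSR (Frame prim_cont memLp_ii ae_deriv_of_prim)
open H772R2.NSG (St ii_of_int int_inner norm_m_le mem_cont)
open Pool.Agent.W790.TQ (toSt sq_prim)

variable {H K : Type} [NormedAddCommGroup H] [InnerProductSpace ℝ H] [CompleteSpace H]
  [NormedAddCommGroup K] [InnerProductSpace ℝ K] [CompleteSpace K]
  {W : Submodule ℝ (H × K)} {m : H → K} {C c ν T τ a δ N : ℝ}

/-- the exponential envelope -/
noncomputable def ev (δ N t : ℝ) : ℝ := Real.exp (-(δ * N ^ 2 * t))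

theorem ev_pos (t : ℝ) : 0 < ev δ N t := Real.exp_pos _

theorem ev_anti (hδ : 0 ≤ δ) {s t : ℝ} (h : s ≤ t) : ev δ N t ≤ ev δ N s := by
  unfold ev
  refine Real.exp_le_exp.2 ?_
  have : δ * N ^ 2 * s ≤ δ * N ^ 2 * t := by gcongr
  linarith

theorem ev_le_one (hδ : 0 ≤ δ) {t : ℝ} (ht : 0 ≤ t) : ev δ N t ≤ 1 := by
  unfold ev
  refine Real.exp_le_one_iff.2 ?_
  have : 0 ≤ δ * N ^ 2 * t := by positivity
  linarith

theorem ev_cont : Continuous (ev δ N) := by unfold ev; fun_prop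

/-- An oscillating field of size `a N` which decays like `exp (-δ N² t)`, and which is with
`v₀` an approximate solution, up to a residual of the same size. -/
structure Osc (W : Submodule ℝ (H × K)) (m : H → K) (ν T a δ N : ℝ) (v0 : H)
    (X X1 g : ℝ → H) (DX : ℝ → K) : Prop where
  mem : ∀ t ∈ Icc 0 T, (X t, DX t) ∈ W
  X1m : MemLp X1 2 (volume.restrict (Ioc 0 T))
  pX : ∀ a b, 0 ≤ a → a ≤ b → b ≤ T → X b - X a = ∫ s in a..b, X1 s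
  dc : ContinuousOn DX (Icc 0 T)
  eqn : ∀ t ∈ Icc 0 T, ∀ p ∈ W,
    ⟪X1 t, p.1⟫_ℝ = ⟪m (v0 + X t) - m v0 - ν • DX t, p.2⟫_ℝ + ⟪g t, p.1⟫_ℝ
  cr : ∀ t ∈ Icc 0 T, ∀ p ∈ W, ∀ q ∈ W,
    |⟪Sb m p.1 (X t), q.2⟫_ℝ| ≤ a * N * ev δ N t * (‖p.1‖ * ‖q.2‖)
  cr1 : ∀ s ∈ Icc 0 T, ∀ t ∈ Icc 0 T, s ≤ t → ∀ p ∈ W, ∀ q ∈ W,
    |⟪Sb m p.1 (X t - X s), q.2⟫_ℝ| ≤ a * N ^ 3 * (t - s) * ev δ N s * (‖p.1‖ * ‖q.2‖)
  gb : ∀ t ∈ Icc 0 T, ‖g t‖ ≤ a * N * ev δ N t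
  g1 : ∀ s ∈ Icc 0 T, ∀ t ∈ Icc 0 T, s ≤ t → ‖g t - g s‖ ≤ a * N ^ 3 * (t - s) * ev δ N s

variable {F F1 : ℝ → K} {u u1 v v1 X X1 g : ℝ → H} {z z1 y y1 DX : ℝ → K}

theorem Osc.mono (O : Osc W m ν T a δ N (v 0) X X1 g DX) (h : τ ≤ T) :
    Osc W m ν τ a δ N (v 0) X X1 g DX where
  mem := fun t ht => O.mem t ⟨ht.1, ht.2.trans h⟩
  X1m := O.X1m.mono_measure (Measure.restrict_mono (Ioc_subset_Ioc_right h) le_rfl)
  pX := fun a b h1 h2 h3 => O.pX a b h1 h2 (h3.trans h)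
  dc := O.dc.mono (Icc_subset_Icc_right h)
  eqn := fun t ht => O.eqn t ⟨ht.1, ht.2.trans h⟩
  cr := fun t ht => O.cr t ⟨ht.1, ht.2.trans h⟩
  cr1 := fun s hs t ht => O.cr1 s ⟨hs.1, hs.2.trans h⟩ t ⟨ht.1, ht.2.trans h⟩
  gb := fun t ht => O.gb t ⟨ht.1, ht.2.trans h⟩
  g1 := fun s hs t ht => O.g1 s ⟨hs.1, hs.2.trans h⟩ t ⟨ht.1, ht.2.trans h⟩

/-- `2 A B ≤ η A² + B²/η` -/
theorem two_mul_le' {A B η : ℝ} (hη : 0 < η) : 2 * (A * B) ≤ η * A ^ 2 + 1 / η * B ^ 2 := by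
  have h : 0 ≤ (η * A - B) ^ 2 / η := by positivity
  have e : (η * A - B) ^ 2 / η = η * A ^ 2 + 1 / η * B ^ 2 - 2 * (A * B) := by
    field_simp
    ring
  linarith

/-- the pairing of `m p` with the gradient of the oscillating field -/
theorem Osc.tri (Fr : Frame W m C) (O : Osc W m ν T a δ N (v 0) X X1 g DX) {t : ℝ}
    (ht : t ∈ Icc 0 T) {p : H × K} (hp : p ∈ W) :
    |⟪m p.1, DX t⟫_ℝ| ≤ a * N * ev δ N t * (‖p.1‖ * ‖p.2‖) := by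
  have h1 := Sb_anti Fr hp (O.mem t ht)
  have h2 := O.cr t ht p hp p hp
  rw [Sb_comm] at h1
  simp only at h1
  rw [h1, abs_neg] at h2
  exact h2

/-- the equation of the error -/
theorem err_eq (Fr : Frame W m C) (Q : Quad W m) (hτ : 0 < τ) (hF : FH τ F F1)
    (S : Str W m ν τ F u u1 z z1) (Sv : Str W m ν τ F v v1 y y1)
    (O : Osc W m ν τ a δ N (v 0) X X1 g DX) :
    ∀ᵐ s ∂(volume.restrict (Ioc 0 τ)), ∀ p ∈ W,
      ⟪u1 s - v1 s - X1 s, p.1⟫_ℝ = ⟪m (u s) - m (v s + X s) + Sb m (v s - v 0) (X s)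
        - ν • (z s - y s - DX s), p.2⟫_ℝ - ⟪g s, p.1⟫_ℝ := by
  obtain ⟨Z, St1⟩ := toSt hF S
  obtain ⟨Z', St2⟩ := toSt hF Sv
  filter_upwards [St1.deriv_weak Fr hτ, St2.deriv_weak Fr hτ, ae_restrict_mem measurableSet_Ioc]
    with s h1 h2 hs p hp
  have hsI := Ioc_subset_Icc_self hs
  have h0I : (0 : ℝ) ∈ Icc 0 τ := ⟨le_rfl, hτ.le⟩
  have e1 := h1 p hp
  have e2 := h2 p hp
  have e3 := O.eqn s hsI p hp
  have e4 := Q.sub_left (Sv.mem s hsI) (Sv.mem 0 h0I) (O.mem s hsI)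
  simp only at e4
  rw [inner_sub_left, inner_sub_left, e1, e2, e3, e4]
  have e5 : F s - ν • z s + m (u s) - (F s - ν • y s + m (v s))
      - (m (v 0 + X s) - m (v 0) - ν • DX s)
      = m (u s) - m (v s + X s) + (Sb m (v s) (X s) - Sb m (v 0) (X s))
        - ν • (z s - y s - DX s) := by
    unfold Sb
    simp only [smul_sub]
    abel
  rw [← e5]
  simp only [inner_sub_left, inner_add_left]
  ring

/-- the differential inequality for the error -/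
theorem pt1 (Fr : Frame W m C) (Q : Quad W m) (hν : 0 < ν) (hτ : 0 < τ)
    (hF : FH τ F F1) (S : Str W m ν τ F u u1 z z1) (Sv : Str W m ν τ F v v1 y y1)
    (ha : 0 ≤ a) (hN : 0 ≤ N) (O : Osc W m ν τ a δ N (v 0) X X1 g DX) {Zv Yv C1 : ℝ}
    (hZ : ∀ t ∈ Icc 0 τ, ‖y t‖ ≤ Zv) (hY : ∀ t ∈ Icc 0 τ, ‖v t - v 0‖ ≤ Yv * t)
    (hC1 : ∀ p ∈ W, ‖m p.1‖ * Zv ≤ ν / 8 * ‖p.2‖ ^ 2 + C1 * ‖p.1‖ ^ 2) :
    ∀ᵐ s ∂(volume.restrict (Ioc 0 τ)),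
      2 * ⟪u1 s - v1 s - X1 s, u s - v s - X s⟫_ℝ + ν * ‖z s - y s - DX s‖ ^ 2
        ≤ (2 * C1 + 4 / ν * (a * N * ev δ N s) ^ 2) * ‖u s - v s - X s‖ ^ 2
          + 2 * (a * N * ev δ N s * ‖u s - v s - X s‖)
          + 4 / ν * (a * N * ev δ N s * (Yv * s)) ^ 2 := by
  filter_upwards [err_eq Fr Q hτ hF S Sv O, ae_restrict_mem measurableSet_Ioc] with s h1 hs
  have hsI := Ioc_subset_Icc_self hs
  have h0I : (0 : ℝ) ∈ Icc 0 τ := ⟨le_rfl, hτ.le⟩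
  have hV : (v s + X s, y s + DX s) ∈ W := W.add_mem (Sv.mem s hsI) (O.mem s hsI)
  have hw : (u s - v s - X s, z s - y s - DX s) ∈ W :=
    W.sub_mem (W.sub_mem (S.mem s hsI) (Sv.mem s hsI)) (O.mem s hsI)
  have hvv : (v s - v 0, y s - y 0) ∈ W := W.sub_mem (Sv.mem s hsI) (Sv.mem 0 h0I)
  have e1 := h1 _ hw
  simp only at e1
  have e2 := Fr.anti _ (S.mem s hsI) _ hV
  simp only at e2
  have ew : u s - (v s + X s) = u s - v s - X s := by abel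
  have ez : z s - (y s + DX s) = z s - y s - DX s := by abel
  rw [ew, ez] at e2
  set w := u s - v s - X s with hwdef
  set E := z s - y s - DX s with hEdef
  set n := a * N * ev δ N s with hn
  have hn0 : 0 ≤ n := by have := ev_pos (δ := δ) (N := N) s; positivity
  have e3 : ⟪u1 s - v1 s - X1 s, w⟫_ℝ = -⟪m w, y s⟫_ℝ - ⟪m w, DX s⟫_ℝ
      + ⟪Sb m (v s - v 0) (X s), E⟫_ℝ - ν * ‖E‖ ^ 2 - ⟪g s, w⟫_ℝ := by
    rw [e1, inner_sub_left, inner_add_left, e2, inner_smul_left, real_inner_self_eq_norm_sq,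
      inner_add_right]
    simp
    ring
  have k1 : -⟪m w, y s⟫_ℝ ≤ ν / 8 * ‖E‖ ^ 2 + C1 * ‖w‖ ^ 2 := by
    have b1 := abs_real_inner_le_norm (m w) (y s)
    have b2 := neg_abs_le ⟪m w, y s⟫_ℝ
    have b3 : ‖m w‖ * ‖y s‖ ≤ ‖m w‖ * Zv := mul_le_mul_of_nonneg_left (hZ s hsI) (norm_nonneg _)
    have b4 := hC1 _ hw
    simp only at b4
    linarith
  have k2 : -⟪m w, DX s⟫_ℝ ≤ n * (‖w‖ * ‖E‖) := by
    have b1 := O.tri Fr hsI hw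
    simp only at b1
    have b2 := neg_abs_le ⟪m w, DX s⟫_ℝ
    linarith
  have k3 : ⟪Sb m (v s - v 0) (X s), E⟫_ℝ ≤ n * (Yv * s * ‖E‖) := by
    have b1 := O.cr s hsI _ hvv _ hw
    simp only at b1
    have b2 := le_abs_self ⟪Sb m (v s - v 0) (X s), E⟫_ℝ
    have b3 : n * (‖v s - v 0‖ * ‖E‖) ≤ n * (Yv * s * ‖E‖) := by
      have := hY s hsI
      gcongr
    linarith
  have k4 : -⟪g s, w⟫_ℝ ≤ n * ‖w‖ := by
    have b1 := abs_real_inner_le_norm (g s) w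
    have b2 := neg_abs_le ⟪g s, w⟫_ℝ
    have b3 := mul_le_mul_of_nonneg_right (O.gb s hsI) (norm_nonneg w)
    linarith
  have k5 : 2 * (‖E‖ * (n * ‖w‖)) ≤ ν / 4 * ‖E‖ ^ 2 + 1 / (ν / 4) * (n * ‖w‖) ^ 2 :=
    two_mul_le' (by positivity)
  have k6 : 2 * (‖E‖ * (n * (Yv * s))) ≤ ν / 4 * ‖E‖ ^ 2 + 1 / (ν / 4) * (n * (Yv * s)) ^ 2 :=
    two_mul_le' (by positivity)
  have e4 : 1 / (ν / 4) = 4 / ν := by field_simp
  rw [e4] at k5 k6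
  have e5 : 0 ≤ ν * ‖E‖ ^ 2 := by positivity
  rw [e3]
  have e6 : n * (‖w‖ * ‖E‖) = ‖E‖ * (n * ‖w‖) := by ring
  have e7 : n * (Yv * s * ‖E‖) = ‖E‖ * (n * (Yv * s)) := by ring
  have e8 : 4 / ν * (n * ‖w‖) ^ 2 = 4 / ν * n ^ 2 * ‖w‖ ^ 2 := by ring
  rw [e6] at k2
  rw [e7] at k3
  rw [e8] at k5
  linarith

/-- the differential inequality for the differences of the error -/
theorem pt2 (Fr : Frame W m C) (Un : Univ W m c) (Q : Quad W m) (hν : 0 < ν) (hτ : 0 < τ)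
    (hF : FH τ F F1) (S : Str W m ν τ F u u1 z z1) (Sv : Str W m ν τ F v v1 y y1)
    (ha : 0 ≤ a) (hδ : 0 ≤ δ) (hN : 0 ≤ N) (O : Osc W m ν τ a δ N (v 0) X X1 g DX)
    {Zv Yv C2 K0 D0 h : ℝ} (hh : 0 < h)
    (hZ : ∀ t ∈ Icc 0 τ, ‖y t‖ ≤ Zv) (hYv0 : 0 ≤ Yv)
    (hY : ∀ s ∈ Icc 0 τ, ∀ t ∈ Icc 0 τ, s ≤ t → ‖v t - v s‖ ≤ Yv * (t - s))
    (hC2 : ∀ p ∈ W, ‖m p.1‖ * Zv ≤ ν / 16 * ‖p.2‖ ^ 2 + C2 * ‖p.1‖ ^ 2)
    (hK0 : ∀ t ∈ Icc 0 τ, ‖u t - v t - X t‖ ≤ K0)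
    (hBS : ∀ t ∈ Icc 0 τ, c * (√‖u t - v t - X t‖ * √‖z t - y t - DX t‖) ≤ ν / 16)
    (hD0 : ∀ t ∈ Icc 0 τ,
      2 * √(√(C * (‖u t - v t - X t‖ * ‖z t - y t - DX t‖ ^ 3))) ≤ D0) :
    ∀ᵐ s ∂(volume.restrict (Ioc 0 (τ - h))),
      2 * ⟪(u1 (s + h) - v1 (s + h) - X1 (s + h)) - (u1 s - v1 s - X1 s),
        (u (s + h) - v (s + h) - X (s + h)) - (u s - v s - X s)⟫_ℝ
        ≤ (2 * C2 + 8 / ν * (a * N * ev δ N s) ^ 2)
            * ‖(u (s + h) - v (s + h) - X (s + h)) - (u s - v s - X s)‖ ^ 2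
          + 2 * (a * N ^ 3 * h * ev δ N s
            * ‖(u (s + h) - v (s + h) - X (s + h)) - (u s - v s - X s)‖)
          + 8 / ν * ((D0 * ‖y (s + h) - y s‖) ^ 2 + (a * N ^ 3 * h * ev δ N s * K0) ^ 2
            + (a * N * ev δ N s * (Yv * h)) ^ 2 + (a * N ^ 3 * h * ev δ N s * (Yv * s)) ^ 2) := by
  have hw1 := err_eq Fr Q hτ hF S Sv O
  rw [ae_restrict_iff' measurableSet_Ioc] at hw1 ⊢
  have hw2 := (quasiMeasurePreserving_add_right volume h).ae hw1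
  filter_upwards [hw1, hw2] with s k1 k2 hs
  have hs1 : s ∈ Ioc 0 τ := ⟨hs.1, by linarith [hs.2]⟩
  have hs2 : s + h ∈ Ioc 0 τ := ⟨by linarith [hs.1], by linarith [hs.2]⟩
  have hsI := Ioc_subset_Icc_self hs1
  have hsI2 := Ioc_subset_Icc_self hs2
  have h0I : (0 : ℝ) ∈ Icc 0 τ := ⟨le_rfl, hτ.le⟩
  have hsh : s ≤ s + h := by linarith
  -- the elements of `W`
  have hV : (v s + X s, y s + DX s) ∈ W := W.add_mem (Sv.mem s hsI) (O.mem s hsI)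
  have hV2 : (v (s + h) + X (s + h), y (s + h) + DX (s + h)) ∈ W :=
    W.add_mem (Sv.mem _ hsI2) (O.mem _ hsI2)
  have hwm : (u s - v s - X s, z s - y s - DX s) ∈ W :=
    W.sub_mem (W.sub_mem (S.mem s hsI) (Sv.mem s hsI)) (O.mem s hsI)
  have hwm2 : (u (s + h) - v (s + h) - X (s + h), z (s + h) - y (s + h) - DX (s + h)) ∈ W :=
    W.sub_mem (W.sub_mem (S.mem _ hsI2) (Sv.mem _ hsI2)) (O.mem _ hsI2)
  have hvv : (v s - v 0, y s - y 0) ∈ W := W.sub_mem (Sv.mem s hsI) (Sv.mem 0 h0I)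
  have hdv : (v (s + h) - v s, y (s + h) - y s) ∈ W := W.sub_mem (Sv.mem _ hsI2) (Sv.mem s hsI)
  have hdX : (X (s + h) - X s, DX (s + h) - DX s) ∈ W := W.sub_mem (O.mem _ hsI2) (O.mem s hsI)
  have hω := W.sub_mem hwm2 hwm
  have e1 := k1 hs1 _ hω
  have e2 := k2 hs2 _ hω
  simp only [Prod.mk_sub_mk] at e1 e2
  set w := u s - v s - X s with hwdef
  set E := z s - y s - DX s with hEdef
  set w' := u (s + h) - v (s + h) - X (s + h) with hw'def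
  set E' := z (s + h) - y (s + h) - DX (s + h) with hE'def
  set ω := w' - w with hωdef
  set Eω := E' - E with hEωdef
  have hω' : (ω, Eω) ∈ W := hω
  -- the expansion of the quadratic terms
  have hx := Q.expand hV (W.add_mem hdv hdX) hwm hω'
  simp only [Prod.fst_add] at hx
  have eu : v s + X s + (v (s + h) - v s + (X (s + h) - X s)) + (w + ω) = u (s + h) := by
    rw [hωdef, hw'def]; abel
  have ev' : v s + X s + (v (s + h) - v s + (X (s + h) - X s)) = v (s + h) + X (s + h) := by abel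
  have eu0 : v s + X s + w = u s := by rw [hwdef]; abel
  rw [eu, ev', eu0] at hx
  have hs1' := Q.add _ hdv _ hdX _ hwm
  simp only at hs1'
  -- the second term
  have ht1 : Sb m (v (s + h) - v 0) (X (s + h)) - Sb m (v s - v 0) (X s)
      = Sb m (v (s + h) - v s) (X (s + h)) + Sb m (v s - v 0) (X (s + h) - X s) := by
    have q1 := Q.add _ hdv _ hvv _ (O.mem _ hsI2)
    have q2 := Q.add_right hdX (O.mem s hsI) hvv
    simp only [sub_add_sub_cancel, sub_add_cancel] at q1 q2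
    rw [q1, q2]
    abel
  have e3 : ⟪(u1 (s + h) - v1 (s + h) - X1 (s + h)) - (u1 s - v1 s - X1 s), ω⟫_ℝ
      = ⟪Sb m (v (s + h) - v s) w, Eω⟫_ℝ + ⟪Sb m (X (s + h) - X s) w, Eω⟫_ℝ
        - ⟪m ω, y (s + h)⟫_ℝ - ⟪m ω, DX (s + h)⟫_ℝ - ⟪m ω, E⟫_ℝ
        + ⟪Sb m (v (s + h) - v s) (X (s + h)), Eω⟫_ℝ
        + ⟪Sb m (v s - v 0) (X (s + h) - X s), Eω⟫_ℝ
        - ν * ‖Eω‖ ^ 2 - ⟪g (s + h) - g s, ω⟫_ℝ := by
    rw [inner_sub_left, e1, e2]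
    have q1 := Sb_anti Fr hω' hV2
    have q2 := Sb_anti Fr hω' hwm
    have q3 := Fr.ortho _ hω'
    simp only at q1 q2 q3
    have q4 : (m (u (s + h)) - m (v (s + h) + X (s + h)) + Sb m (v (s + h) - v 0) (X (s + h))
        - ν • E') - (m (u s) - m (v s + X s) + Sb m (v s - v 0) (X s) - ν • E)
        = (m (u (s + h)) - m (v (s + h) + X (s + h)) - (m (u s) - m (v s + X s)))
          + (Sb m (v (s + h) - v 0) (X (s + h)) - Sb m (v s - v 0) (X s)) - ν • Eω := by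
      have q6 : ν • Eω = ν • E' - ν • E := smul_sub ν E' E
      rw [q6]
      abel
    have q5 : ∀ A B A' B' : ℝ, A - A' - (B - B') = (A - B) - (A' - B') := by intros; ring
    rw [q5, ← inner_sub_left, ← inner_sub_left, q4, hx, ht1, hs1']
    simp only [inner_sub_left, inner_add_left, inner_smul_left, real_inner_self_eq_norm_sq, q1, q2,
      q3, inner_add_right]
    simp
    ring
  set n := a * N * ev δ N s with hn
  set d := a * N ^ 3 * h * ev δ N s with hd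
  have hevs := ev_pos (δ := δ) (N := N) s
  have hn0 : 0 ≤ n := by positivity
  have hd0 : 0 ≤ d := by positivity
  have hn' : a * N * ev δ N (s + h) ≤ n := by
    rw [hn]
    have := ev_anti (N := N) hδ hsh
    gcongr
  have hsub : s + h - s = h := by ring
  have hEn := norm_nonneg Eω
  have hωn := norm_nonneg ω
  have c1 : ⟪Sb m (v (s + h) - v s) w, Eω⟫_ℝ ≤ D0 * ‖y (s + h) - y s‖ * ‖Eω‖ := by
    have b1 := real_inner_le_norm (Sb m (v (s + h) - v s) w) Eω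
    have b2 := Q.bound Fr hdv hwm
    simp only at b2
    have b3 : ‖Sb m (v (s + h) - v s) w‖ ≤ D0 * ‖y (s + h) - y s‖ :=
      b2.trans (mul_le_mul_of_nonneg_right (hD0 s hsI) (norm_nonneg _))
    exact b1.trans (mul_le_mul_of_nonneg_right b3 hEn)
  have c2 : ⟪Sb m (X (s + h) - X s) w, Eω⟫_ℝ ≤ d * (K0 * ‖Eω‖) := by
    have b1 := O.cr1 s hsI (s + h) hsI2 hsh _ hwm _ hω'
    simp only at b1
    rw [Sb_comm, hsub] at b1
    have b2 := le_abs_self ⟪Sb m (X (s + h) - X s) w, Eω⟫_ℝ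
    have b3 : d * (‖w‖ * ‖Eω‖) ≤ d * (K0 * ‖Eω‖) := by
      have := hK0 s hsI
      gcongr
    linarith
  have c3 : -⟪m ω, y (s + h)⟫_ℝ ≤ ν / 16 * ‖Eω‖ ^ 2 + C2 * ‖ω‖ ^ 2 := by
    have b1 := abs_real_inner_le_norm (m ω) (y (s + h))
    have b2 := neg_abs_le ⟪m ω, y (s + h)⟫_ℝ
    have b3 : ‖m ω‖ * ‖y (s + h)‖ ≤ ‖m ω‖ * Zv :=
      mul_le_mul_of_nonneg_left (hZ _ hsI2) (norm_nonneg _)
    have b4 := hC2 _ hω'
    simp only at b4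
    linarith
  have c4 : -⟪m ω, DX (s + h)⟫_ℝ ≤ n * (‖ω‖ * ‖Eω‖) := by
    have b1 := O.tri Fr hsI2 hω'
    simp only at b1
    have b2 := neg_abs_le ⟪m ω, DX (s + h)⟫_ℝ
    have b3 : a * N * ev δ N (s + h) * (‖ω‖ * ‖Eω‖) ≤ n * (‖ω‖ * ‖Eω‖) := by gcongr
    linarith
  have c5 : -⟪m ω, E⟫_ℝ ≤ ν / 16 * ‖Eω‖ ^ 2 := by
    have b1 := Un.tri _ hω' _ hwm
    simp only at b1
    have b2 := neg_abs_le ⟪m ω, E⟫_ℝ
    have b3 := mul_le_mul_of_nonneg_right (hBS s hsI) (sq_nonneg ‖Eω‖)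
    have e : c * (‖Eω‖ ^ 2 * (√‖w‖ * √‖E‖)) = c * (√‖w‖ * √‖E‖) * ‖Eω‖ ^ 2 := by ring
    rw [e] at b1
    linarith
  have c6 : ⟪Sb m (v (s + h) - v s) (X (s + h)), Eω⟫_ℝ ≤ n * (Yv * h * ‖Eω‖) := by
    have b1 := O.cr (s + h) hsI2 _ hdv _ hω'
    simp only at b1
    have b2 := le_abs_self ⟪Sb m (v (s + h) - v s) (X (s + h)), Eω⟫_ℝ
    have b4 := hY s hsI (s + h) hsI2 hsh
    rw [hsub] at b4
    have b3 : a * N * ev δ N (s + h) * (‖v (s + h) - v s‖ * ‖Eω‖) ≤ n * (Yv * h * ‖Eω‖) := by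
      gcongr
    linarith
  have c7 : ⟪Sb m (v s - v 0) (X (s + h) - X s), Eω⟫_ℝ ≤ d * (Yv * s * ‖Eω‖) := by
    have b1 := O.cr1 s hsI (s + h) hsI2 hsh _ hvv _ hω'
    simp only at b1
    rw [hsub] at b1
    have b2 := le_abs_self ⟪Sb m (v s - v 0) (X (s + h) - X s), Eω⟫_ℝ
    have b4 := hY 0 h0I s hsI hs.1.le
    rw [sub_zero] at b4
    have b3 : d * (‖v s - v 0‖ * ‖Eω‖) ≤ d * (Yv * s * ‖Eω‖) := by gcongr
    linarith
  have c8 : -⟪g (s + h) - g s, ω⟫_ℝ ≤ d * ‖ω‖ := by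
    have b1 := abs_real_inner_le_norm (g (s + h) - g s) ω
    have b2 := neg_abs_le ⟪g (s + h) - g s, ω⟫_ℝ
    have b3 := O.g1 s hsI (s + h) hsI2 hsh
    rw [hsub] at b3
    have b4 := mul_le_mul_of_nonneg_right b3 hωn
    linarith
  have hν8 : (0 : ℝ) < ν / 8 := by positivity
  have y1' : 2 * (‖Eω‖ * (D0 * ‖y (s + h) - y s‖)) ≤ ν / 8 * ‖Eω‖ ^ 2
      + 1 / (ν / 8) * (D0 * ‖y (s + h) - y s‖) ^ 2 := two_mul_le' hν8
  have y2' : 2 * (‖Eω‖ * (d * K0)) ≤ ν / 8 * ‖Eω‖ ^ 2 + 1 / (ν / 8) * (d * K0) ^ 2 :=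
    two_mul_le' hν8
  have y3' : 2 * (‖Eω‖ * (n * ‖ω‖)) ≤ ν / 8 * ‖Eω‖ ^ 2 + 1 / (ν / 8) * (n * ‖ω‖) ^ 2 :=
    two_mul_le' hν8
  have y4' : 2 * (‖Eω‖ * (n * (Yv * h))) ≤ ν / 8 * ‖Eω‖ ^ 2 + 1 / (ν / 8) * (n * (Yv * h)) ^ 2 :=
    two_mul_le' hν8
  have y5' : 2 * (‖Eω‖ * (d * (Yv * s))) ≤ ν / 8 * ‖Eω‖ ^ 2 + 1 / (ν / 8) * (d * (Yv * s)) ^ 2 :=
    two_mul_le' hν8
  have e4 : 1 / (ν / 8) = 8 / ν := by field_simp
  rw [e4] at y1' y2' y3' y4' y5'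
  have e5 : 0 ≤ ν * ‖Eω‖ ^ 2 := by positivity
  have e6 : 8 / ν * (n * ‖ω‖) ^ 2 = 8 / ν * n ^ 2 * ‖ω‖ ^ 2 := by ring
  rw [e6] at y3'
  rw [e3]
  nlinarith [c1, c2, c3, c4, c5, c6, c7, c8, y1', y2', y3', y4', y5', e5]

end Pool.Agent.J4H18.DN
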