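import Pool.Agent.J4H18.DN.A2

/-!
Perturbations of a strong solution by a large oscillating field: the bounds.
-/

set_option autoImplicit false
set_option linter.unusedSectionVars false

open MeasureTheory Set Filter Topology
open scoped InnerProductSpace

namespace Pool.Agent.J4H18.DN

open Pool.Agent.Y303.RA Pool.Agent.Y303.NF
open Pool.Agent.W795.TQ
open H772R2.NSR (Frame prim_cont memLp_ii ae_deriv_of_prim)
open H772R2.NSG (St ii_of_int int_inner norm_m_le mem_cont)
open Pool.Agent.W790.TQ (toSt sq_prim)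

variable {H K : Type} [NormedAddCommGroup H] [InnerProductSpace ℝ H] [CompleteSpace H]
  [NormedAddCommGroup K] [InnerProductSpace ℝ K] [CompleteSpace K]
  {W : Submodule ℝ (H × K)} {m : H → K} {C c ν T τ a δ N : ℝ}
  {F F1 : ℝ → K} {u u1 v v1 X X1 g : ℝ → H} {z z1 y y1 DX : ℝ → K}

theorem int_ev (hδ : 0 < δ) (hN : 0 < N) (t : ℝ) :
    ∫ s in (0 : ℝ)..t, ev δ N s ≤ 1 / (δ * N ^ 2) := by
  have hk : 0 < δ * N ^ 2 := by positivity
  have h1 : ∀ s ∈ uIcc 0 t, HasDerivAt (fun s => -(1 / (δ * N ^ 2)) * ev δ N s) (ev δ N s) s := by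
    intro s _
    have h2 : HasDerivAt (fun s : ℝ => -(δ * N ^ 2 * s)) (-(δ * N ^ 2)) s := by
      have h21 : HasDerivAt (fun s : ℝ => δ * N ^ 2 * s) (δ * N ^ 2 * 1) s :=
        (hasDerivAt_id' s).const_mul _
      rw [mul_one] at h21
      exact h21.neg
    have h3 := (h2.exp).const_mul (-(1 / (δ * N ^ 2)))
    have e : -(1 / (δ * N ^ 2)) * (Real.exp (-(δ * N ^ 2 * s)) * -(δ * N ^ 2)) = ev δ N s := by
      unfold ev
      field_simp
    rw [e] at h3
    exact h3
  rw [intervalIntegral.integral_eq_sub_of_hasDerivAt h1 (ev_cont.intervalIntegrable _ _)]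
  have h4 : ev δ N 0 = 1 := by unfold ev; simp
  have h5 := ev_pos (δ := δ) (N := N) t
  rw [h4]
  have : 0 ≤ 1 / (δ * N ^ 2) * ev δ N t := by positivity
  linarith

theorem mul_ev_le (hδ : 0 < δ) (hN : 0 < N) {s : ℝ} (hs : 0 ≤ s) :
    s * ev δ N s ≤ 1 / (δ * N ^ 2) := by
  have hk : 0 < δ * N ^ 2 := by positivity
  have h1 : δ * N ^ 2 * s ≤ Real.exp (δ * N ^ 2 * s) := by
    have := Real.add_one_le_exp (δ * N ^ 2 * s)
    linarith
  have h2 : ev δ N s * Real.exp (δ * N ^ 2 * s) = 1 := by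
    unfold ev
    rw [← Real.exp_add]
    simp
  have h3 := ev_pos (δ := δ) (N := N) s
  rw [le_div_iff₀ hk]
  calc s * ev δ N s * (δ * N ^ 2) = ev δ N s * (δ * N ^ 2 * s) := by ring
    _ ≤ ev δ N s * Real.exp (δ * N ^ 2 * s) := by gcongr
    _ = 1 := h2

/-- integral of a function below `A ev` -/
theorem int_le_ev (hδ : 0 < δ) (hN : 0 < N) {f : ℝ → ℝ} {A t : ℝ} (ht : 0 ≤ t) (hA : 0 ≤ A)
    (hf : ContinuousOn f (Icc 0 t)) (h : ∀ s ∈ Icc 0 t, f s ≤ A * ev δ N s) :
    ∫ s in (0 : ℝ)..t, f s ≤ A / (δ * N ^ 2) := by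
  have i1 : IntervalIntegrable f volume 0 t := by
    refine ContinuousOn.intervalIntegrable ?_
    rwa [uIcc_of_le ht]
  have h1 := intervalIntegral.integral_mono_on ht i1
    ((ev_cont (δ := δ) (N := N)).intervalIntegrable 0 t |>.const_mul A) h
  rw [intervalIntegral.integral_const_mul] at h1
  have h2 := int_ev hδ hN t
  calc _ ≤ A * ∫ s in (0 : ℝ)..t, ev δ N s := h1
    _ ≤ A * (1 / (δ * N ^ 2)) := by gcongr
    _ = _ := by ring

/-- integral of a bounded function -/
theorem int_le_const {f : ℝ → ℝ} {A t : ℝ} (ht : 0 ≤ t)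
    (hf : ContinuousOn f (Icc 0 t)) (h : ∀ s ∈ Icc 0 t, f s ≤ A) :
    ∫ s in (0 : ℝ)..t, f s ≤ t * A := by
  have i1 : IntervalIntegrable f volume 0 t := by
    refine ContinuousOn.intervalIntegrable ?_
    rwa [uIcc_of_le ht]
  have h1 := intervalIntegral.integral_mono_on ht i1 (intervalIntegrable_const) h
  simpa using h1

section err

variable (Fr : Frame W m C) (Q : Quad W m) (hν : 0 < ν) (hτ : 0 < τ) (hτT : τ ≤ T)
    (hF : FH T F F1) (S : Str W m ν τ F u u1 z z1) (Sv : Str W m ν T F v v1 y y1)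
    (ha : 0 < a) (hδ : 0 < δ) (hN : 1 ≤ N) (O : Osc W m ν T a δ N (v 0) X X1 g DX)
    (hu0 : u 0 = v 0 + X 0) {Zv Yv C1 : ℝ} (hC10 : 0 ≤ C1) (hYv0 : 0 ≤ Yv)
    (hZ : ∀ t ∈ Icc 0 T, ‖y t‖ ≤ Zv)
    (hY : ∀ s ∈ Icc 0 T, ∀ t ∈ Icc 0 T, s ≤ t → ‖v t - v s‖ ≤ Yv * (t - s))
    (hC1 : ∀ p ∈ W, ‖m p.1‖ * Zv ≤ ν / 8 * ‖p.2‖ ^ 2 + C1 * ‖p.1‖ ^ 2)

include Fr Q hν hτ hτT hF S Sv ha hδ hN O hu0 hC10 hYv0 hZ hY hC1

/-- the general form of the bound of the error -/
theorem err_gen {t Γ Kp : ℝ} (ht : t ∈ Ioc 0 τ) (hΓ0 : 0 < Γ)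
    (hΓ : ∫ s in (0 : ℝ)..t, a * N * ev δ N s ≤ Γ)
    (hK : ∫ s in (0 : ℝ)..t, 4 / ν * (a * N * ev δ N s * (Yv * s)) ^ 2 ≤ Kp) :
    ‖u t - v t - X t‖ ^ 2
      ≤ (Γ ^ 2 + Kp) * Real.exp (2 * C1 * T + 4 * a ^ 2 / (ν * δ) + 1) := by
  have hN0 : 0 < N := by linarith
  have htT : t ≤ T := ht.2.trans hτT
  have FHm : ∀ T' ≤ T, FH T' F F1 := fun T' hT' =>
    ⟨hF.memLp.mono_measure (Measure.restrict_mono (Ioc_subset_Ioc_right hT') le_rfl),
      fun a b ha hab hb => hF.prim a b ha hab (hb.trans hT')⟩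
  have St := S.mono ht.2
  have Svt := Sv.mono htT
  have Ot := O.mono htT
  have hg1 : MemLp (fun s => u1 s - v1 s - X1 s) 2 (volume.restrict (Ioc 0 t)) :=
    (St.u1m.sub Svt.u1m).sub Ot.X1m
  have hgp : ∀ b1 b2, 0 ≤ b1 → b1 ≤ b2 → b2 ≤ t →
      (u b2 - v b2 - X b2) - (u b1 - v b1 - X b1) = ∫ s in b1..b2, (u1 s - v1 s - X1 s) := by
    intro b1 b2 h1 h2 h3
    have i1 : IntervalIntegrable u1 volume b1 b2 :=
      ii_of_int (St.u1m.integrable (by norm_num)) h1 h2 h3
    have i2 : IntervalIntegrable v1 volume b1 b2 :=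
      ii_of_int (Svt.u1m.integrable (by norm_num)) h1 h2 h3
    have i3 : IntervalIntegrable X1 volume b1 b2 :=
      ii_of_int (Ot.X1m.integrable (by norm_num)) h1 h2 h3
    rw [intervalIntegral.integral_sub (i1.sub i2) i3, intervalIntegral.integral_sub i1 i2,
      ← St.pu b1 b2 h1 h2 h3, ← Svt.pu b1 b2 h1 h2 h3, ← Ot.pX b1 b2 h1 h2 h3]
    abel
  have hB : ∫ s in (0 : ℝ)..t, (2 * C1 + 4 / ν * (a * N * ev δ N s) ^ 2)
      ≤ 2 * C1 * T + 4 * a ^ 2 / (ν * δ) := by
    have hc : Continuous (fun s => 4 / ν * (a * N * ev δ N s) ^ 2) := by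
      have := ev_cont (δ := δ) (N := N)
      fun_prop
    rw [intervalIntegral.integral_add intervalIntegrable_const (hc.intervalIntegrable _ _)]
    have h1 : ∫ s in (0 : ℝ)..t, 2 * C1 = 2 * C1 * t := by simp; ring
    have h2 : ∫ s in (0 : ℝ)..t, 4 / ν * (a * N * ev δ N s) ^ 2
        ≤ (4 / ν * (a * N) ^ 2) / (δ * N ^ 2) := by
      refine int_le_ev hδ hN0 ht.1.le (by positivity) hc.continuousOn fun s hs => ?_
      have k1 := ev_le_one (N := N) hδ.le hs.1
      have k2 := ev_pos (δ := δ) (N := N) s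
      calc 4 / ν * (a * N * ev δ N s) ^ 2 = 4 / ν * (a * N) ^ 2 * (ev δ N s * ev δ N s) := by ring
        _ ≤ 4 / ν * (a * N) ^ 2 * (ev δ N s * 1) := by gcongr
        _ = _ := by ring
    have h3 : (4 / ν * (a * N) ^ 2) / (δ * N ^ 2) = 4 * a ^ 2 / (ν * δ) := by
      field_simp
    rw [h1]
    rw [h3] at h2
    have h4 : 2 * C1 * t ≤ 2 * C1 * T := by gcongr
    linarith
  have hcev := ev_cont (δ := δ) (N := N)
  have key := gron_sq (g := fun s => u s - v s - X s) hg1 hgp
    (β := fun s => 2 * C1 + 4 / ν * (a * N * ev δ N s) ^ 2) (γ := fun s => a * N * ev δ N s)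
    (κ := fun s => 4 / ν * (a * N * ev δ N s * (Yv * s)) ^ 2)
    (by fun_prop) (by fun_prop) (by fun_prop)
    (fun s _ => by positivity) (fun s _ => by have := ev_pos (δ := δ) (N := N) s; positivity)
    (fun s _ => by positivity) hB hΓ hΓ0 hK (by
      have hpt := pt1 Fr Q hν ht.1 (FHm t htT) St Svt ha.le hN0.le Ot
        (fun r hr => hZ r ⟨hr.1, hr.2.trans htT⟩)
        (fun r hr => by
          have := hY 0 ⟨le_rfl, ht.1.le.trans htT⟩ r ⟨hr.1, hr.2.trans htT⟩ hr.1
          rwa [sub_zero] at this) hC1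
      filter_upwards [hpt] with s hs
      have : 0 ≤ ν * ‖z s - y s - DX s‖ ^ 2 := by positivity
      linarith)
  have h0 : ‖u 0 - v 0 - X 0‖ ^ 2 = 0 := by
    rw [hu0]
    have : v 0 + X 0 - v 0 - X 0 = 0 := by abel
    rw [this]
    simp
  have := key t ⟨ht.1.le, le_rfl⟩
  rw [h0, zero_add] at this
  exact this

/-- the constant of the bound of the error, squared -/
theorem err_bd : ∀ t ∈ Icc 0 τ, ‖u t - v t - X t‖ ^ 2
    ≤ (a / δ) ^ 2 * (1 + 4 * T * Yv ^ 2 / ν)
      * Real.exp (2 * C1 * T + 4 * a ^ 2 / (ν * δ) + 1) / N ^ 2 := by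
  intro t ht
  have hN0 : 0 < N := by linarith
  have hT : 0 < T := hτ.trans_le hτT
  rcases eq_or_lt_of_le ht.1 with h | h
  · rw [← h, hu0]
    have : v 0 + X 0 - v 0 - X 0 = 0 := by abel
    rw [this, norm_zero]
    have : (0 : ℝ) ^ 2 = 0 := by norm_num
    rw [this]
    positivity
  · have hcev := ev_cont (δ := δ) (N := N)
    have h1 := err_gen Fr Q hν hτ hτT hF S Sv ha hδ hN O hu0 hC10 hYv0 hZ hY hC1
      (t := t) (Γ := a / (δ * N)) (Kp := T * (4 / ν * (a * Yv / (δ * N)) ^ 2)) ⟨h, ht.2⟩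
      (by positivity) (by
        have := int_le_ev (A := a * N) (f := fun s => a * N * ev δ N s) hδ hN0 h.le (by positivity)
          (by fun_prop) fun s _ => le_rfl
        refine this.trans (le_of_eq ?_)
        field_simp) (by
        refine (int_le_const (A := 4 / ν * (a * Yv / (δ * N)) ^ 2) h.le (by fun_prop)
          fun s hs => ?_).trans ?_
        · have k1 := mul_ev_le hδ hN0 hs.1
          have k2 := ev_pos (δ := δ) (N := N) s
          have k3 : 0 ≤ s * ev δ N s := mul_nonneg hs.1 k2.le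
          have k4 : a * N * ev δ N s * (Yv * s) ≤ a * Yv / (δ * N) := by
            calc a * N * ev δ N s * (Yv * s) = a * N * Yv * (s * ev δ N s) := by ring
              _ ≤ a * N * Yv * (1 / (δ * N ^ 2)) := by gcongr
              _ = _ := by field_simp
          have k5 : 0 ≤ a * N * ev δ N s * (Yv * s) := by
            have := hs.1
            positivity
          gcongr
        · have := ht.2.trans hτT
          gcongr)
    refine h1.trans (le_of_eq ?_)
    field_simp

/-- the bound of the error at small times -/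
theorem err_short {h : ℝ} (hh : h ∈ Ioc 0 τ) : ‖u h - v h - X h‖ ^ 2
    ≤ a ^ 2 * (1 + 4 * T * Yv ^ 2 / ν)
      * Real.exp (2 * C1 * T + 4 * a ^ 2 / (ν * δ) + 1) * (N * h) ^ 2 := by
  have hN0 : 0 < N := by linarith
  have hT : 0 < T := hτ.trans_le hτT
  have hcev := ev_cont (δ := δ) (N := N)
  have hh0 := hh.1
  have h1 := err_gen Fr Q hν hτ hτT hF S Sv ha hδ hN O hu0 hC10 hYv0 hZ hY hC1
    (t := h) (Γ := a * N * h) (Kp := T * (4 / ν * (a * N * Yv * h) ^ 2)) hh
    (by positivity) (by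
      refine (int_le_const (A := a * N) hh0.le (by fun_prop) fun s hs => ?_).trans
        (le_of_eq (by ring))
      have k1 := ev_le_one (N := N) hδ.le hs.1
      calc a * N * ev δ N s ≤ a * N * 1 := by gcongr
        _ = _ := by ring) (by
      refine (int_le_const (A := 4 / ν * (a * N * Yv * h) ^ 2) hh0.le (by fun_prop)
        fun s hs => ?_).trans ?_
      · have k0 := hs.1
        have k1 := ev_le_one (N := N) hδ.le hs.1
        have k2 := ev_pos (δ := δ) (N := N) s
        have k4 : a * N * ev δ N s * (Yv * s) ≤ a * N * Yv * h := by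
          calc a * N * ev δ N s * (Yv * s) ≤ a * N * 1 * (Yv * h) := by
                have := hs.2
                gcongr
            _ = _ := by ring
        have k5 : 0 ≤ a * N * ev δ N s * (Yv * s) := by
          have := hs.1
          positivity
        gcongr
      · have := hh.2.trans hτT
        gcongr)
  refine h1.trans (le_of_eq ?_)
  ring

end err

/-- the integral of the square of the difference -/
theorem diff_sq_int {Y : Type} [NormedAddCommGroup Y] [InnerProductSpace ℝ Y] [CompleteSpace Y]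
    {f f1 : ℝ → Y} (h1 : MemLp f1 2 (volume.restrict (Ioc 0 T)))
    (hf : ∀ a b, 0 ≤ a → a ≤ b → b ≤ T → f b - f a = ∫ s in a..b, f1 s) {h t : ℝ} (hh : 0 < h)
    (ht : 0 ≤ t) (htT : t + h ≤ T) :
    ∫ s in (0 : ℝ)..t, ‖f (s + h) - f s‖ ^ 2 ≤ h ^ 2 * ∫ s in (0 : ℝ)..T, ‖f1 s‖ ^ 2 := by
  have hT : 0 ≤ T := by linarith
  have h2 : Integrable (fun s => ‖f1 s‖ ^ 2) (volume.restrict (Ioc 0 T)) :=
    (memLp_two_iff_integrable_sq_norm h1.aestronglyMeasurable).mp h1
  set k : ℝ → ℝ := (Ioc 0 T).indicator (fun s => ‖f1 s‖ ^ 2) with hk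
  have hki : Integrable k volume := (integrable_indicator_iff measurableSet_Ioc).mpr h2
  have hk0 : ∀ s, 0 ≤ k s := fun s => indicator_nonneg (fun _ _ => by positivity) s
  have hkii : ∀ x y, IntervalIntegrable k volume x y := fun x y => hki.intervalIntegrable
  set P : ℝ → ℝ := fun x => ∫ s in (0 : ℝ)..x, k s with hP
  have hPc : Continuous P := intervalIntegral.continuous_primitive hkii 0
  have hPd : ∀ x y, P y - P x = ∫ s in x..y, k s := fun x y =>
    intervalIntegral.integral_interval_sub_left (hkii _ _) (hkii _ _)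
  have hPm : Monotone P := by
    intro x y hxy
    have h3 : 0 ≤ ∫ s in x..y, k s := intervalIntegral.integral_nonneg hxy fun s _ => hk0 s
    have := hPd x y
    linarith
  have hfc : ContinuousOn f (Icc 0 T) := prim_cont h1 hf
  have key : ∀ s ∈ Icc 0 t, ‖f (s + h) - f s‖ ^ 2 ≤ h * (P (s + h) - P s) := by
    intro s hs
    have hsT : s + h ≤ T := by linarith [hs.2]
    have e1 := norm_int_sq_le h1 hs.1 (by linarith : s < s + h) hsT
    rw [← hf s (s + h) hs.1 (by linarith) hsT, add_sub_cancel_left] at e1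
    refine e1.trans (le_of_eq ?_)
    rw [hPd]
    congr 1
    rw [intervalIntegral.integral_of_le (by linarith), intervalIntegral.integral_of_le (by linarith)]
    refine setIntegral_congr_fun measurableSet_Ioc fun x hx => ?_
    simp only [hk]
    rw [indicator_of_mem (Ioc_subset_Ioc hs.1 hsT hx)]
  have i1 : IntervalIntegrable (fun s => ‖f (s + h) - f s‖ ^ 2) volume 0 t := by
    refine ContinuousOn.intervalIntegrable ?_
    rw [uIcc_of_le ht]
    refine ContinuousOn.pow (ContinuousOn.norm (ContinuousOn.sub ?_ ?_)) 2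
    · exact hfc.comp (by fun_prop) fun s hs => ⟨by linarith [hs.1], by linarith [hs.2]⟩
    · exact hfc.mono (Icc_subset_Icc_right (by linarith))
  have i2 : IntervalIntegrable (fun s => h * (P (s + h) - P s)) volume 0 t := by
    refine Continuous.intervalIntegrable ?_ _ _
    exact continuous_const.mul ((hPc.comp (by fun_prop)).sub hPc)
  have h3 := intervalIntegral.integral_mono_on ht i1 i2 key
  have i3 : ∀ x y, IntervalIntegrable P volume x y := fun x y => hPc.intervalIntegrable _ _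
  have i4 : IntervalIntegrable (fun s => P (s + h)) volume 0 t :=
    (hPc.comp (by fun_prop : Continuous fun s : ℝ => s + h)).intervalIntegrable _ _
  have h4 : ∫ s in (0 : ℝ)..t, (P (s + h) - P s) ≤ h * P T := by
    rw [intervalIntegral.integral_sub i4 (i3 _ _),
      intervalIntegral.integral_comp_add_right (fun s => P s) h, zero_add]
    have h5 := intervalIntegral.integral_add_adjacent_intervals (i3 0 t) (i3 t (t + h))
    have h6 := intervalIntegral.integral_add_adjacent_intervals (i3 0 h) (i3 h (t + h))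
    have h7 : 0 ≤ ∫ s in (0 : ℝ)..h, P s := intervalIntegral.integral_nonneg hh.le fun s hs => by
      have := hPm hs.1
      have e : P 0 = 0 := by simp [hP]
      linarith
    have h8 : ∫ s in t..(t + h), P s ≤ ∫ s in t..(t + h), P T :=
      intervalIntegral.integral_mono_on (by linarith) (i3 _ _) intervalIntegrable_const
        fun s hs => hPm (by linarith [hs.2])
    have h9 : ∫ s in t..(t + h), P T = h * P T := by simp
    linarith
  have h10 : P T = ∫ s in (0 : ℝ)..T, ‖f1 s‖ ^ 2 := by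
    simp only [hP]
    rw [intervalIntegral.integral_of_le hT, intervalIntegral.integral_of_le hT]
    refine setIntegral_congr_fun measurableSet_Ioc fun x hx => ?_
    simp only [hk]
    rw [indicator_of_mem hx]
  rw [intervalIntegral.integral_const_mul] at h3
  rw [← h10]
  calc _ ≤ h * ∫ s in (0 : ℝ)..t, (P (s + h) - P s) := h3
    _ ≤ h * (h * P T) := by gcongr
    _ = _ := by ring

end Pool.Agent.J4H18.DN
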