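import Pool.Agent.J4H18.DN.A3
import Pool.Agent.W795.TQ.DFin

/-!
Perturbations of a strong solution by a large oscillating field: the time derivative of the error.
-/

set_option autoImplicit false
set_option linter.unusedSectionVars false

open MeasureTheory Set Filter Topology
open scoped InnerProductSpace

namespace Pool.Agent.J4H18.DN

open Pool.Agent.Y303.RA Pool.Agent.Y303.NF
open Pool.Agent.W795.TQ
open H772R2.NSR (Frame prim_cont memLp_ii ae_deriv_of_prim)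
open H772R2.NSG (St ii_of_int int_inner norm_m_le mem_cont)
open Pool.Agent.W790.TQ (toSt sq_prim)

variable {H K : Type} [NormedAddCommGroup H] [InnerProductSpace ℝ H] [CompleteSpace H]
  [NormedAddCommGroup K] [InnerProductSpace ℝ K] [CompleteSpace K]
  {W : Submodule ℝ (H × K)} {m : H → K} {C c ν T τ a δ N : ℝ}
  {F F1 : ℝ → K} {u u1 v v1 X X1 g : ℝ → H} {z z1 y y1 DX : ℝ → K}

theorem memLp_shift {Y : Type*} [NormedAddCommGroup Y] {f : ℝ → Y} {a S : ℝ}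
    (hf : MemLp f 2 (volume.restrict (Ioc a (a + S)))) :
    MemLp (fun s => f (a + s)) 2 (volume.restrict (Ioc 0 S)) := by
  have h1 : MeasurePreserving (fun s : ℝ => a + s) (volume.restrict (Ioc 0 S))
      (volume.restrict (Ioc a (a + S))) := by
    have := (measurePreserving_add_left (volume : Measure ℝ) a).restrict_preimage
      (measurableSet_Ioc (a := a) (b := a + S))
    have e : (fun s : ℝ => a + s) ⁻¹' Ioc a (a + S) = Ioc 0 S := by
      ext s; simp only [mem_preimage, mem_Ioc]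
      constructor <;> intro h <;> constructor <;> linarith [h.1, h.2]
    rwa [e] at this
  exact hf.comp_measurePreserving h1

section err

variable (Fr : Frame W m C) (Un : Univ W m c) (Q : Quad W m) (hν : 0 < ν) (hτ : 0 < τ)
    (hτT : τ ≤ T)
    (hF : FH T F F1) (S : Str W m ν τ F u u1 z z1) (Sv : Str W m ν T F v v1 y y1)
    (ha : 0 < a) (hδ : 0 < δ) (hN : 1 ≤ N) (O : Osc W m ν T a δ N (v 0) X X1 g DX)
    (hu0 : u 0 = v 0 + X 0) {Zv Yv C1 C2 K0 Ks J : ℝ} (hC10 : 0 ≤ C1) (hC20 : 0 ≤ C2)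
    (hYv0 : 0 ≤ Yv)
    (hZ : ∀ t ∈ Icc 0 T, ‖y t‖ ≤ Zv)
    (hY : ∀ s ∈ Icc 0 T, ∀ t ∈ Icc 0 T, s ≤ t → ‖v t - v s‖ ≤ Yv * (t - s))
    (hC1 : ∀ p ∈ W, ‖m p.1‖ * Zv ≤ ν / 8 * ‖p.2‖ ^ 2 + C1 * ‖p.1‖ ^ 2)
    (hC2 : ∀ p ∈ W, ‖m p.1‖ * Zv ≤ ν / 16 * ‖p.2‖ ^ 2 + C2 * ‖p.1‖ ^ 2)
    (hK00 : 0 ≤ K0)
    (hK0 : ∀ t ∈ Icc 0 τ, ‖u t - v t - X t‖ ≤ K0 / N)
    (hKs : ∀ h ∈ Ioc 0 τ, ‖u h - v h - X h‖ ^ 2 ≤ Ks * (N * h) ^ 2)
    (hJ : ∫ s in (0 : ℝ)..T, ‖y1 s‖ ^ 2 ≤ J)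
    (hBS : ∀ t ∈ Icc 0 τ, c * (√‖u t - v t - X t‖ * √‖z t - y t - DX t‖) ≤ ν / 16)
    (hD0 : ∀ t ∈ Icc 0 τ,
      2 * √(√(C * (‖u t - v t - X t‖ * ‖z t - y t - DX t‖ ^ 3))) ≤ 1)

include Fr Un Q hν hτ hτT hF S Sv ha hδ hN O hu0 hC20 hYv0 hZ hY hC2 hK00 hK0 hKs hJ hBS hD0

/-- the differences of the error -/
theorem dq_bd {h : ℝ} (hh : 0 < h) (hhτ : h < τ) : ∀ t ∈ Icc 0 (τ - h),
    ‖(u (t + h) - v (t + h) - X (t + h)) - (u t - v t - X t)‖ ^ 2
      ≤ (Ks + (a / δ) ^ 2 + 8 / ν * (J + a ^ 2 * K0 ^ 2 / δ + T * (a * Yv) ^ 2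
          + T * (a * Yv / δ) ^ 2)) * Real.exp (2 * C2 * T + 8 * a ^ 2 / (ν * δ) + 1)
        * (N * h) ^ 2 := by
  intro t ht
  have hN0 : 0 < N := by linarith
  have hT : 0 < T := hτ.trans_le hτT
  have hcev := ev_cont (δ := δ) (N := N)
  have hτh : 0 < τ - h := by linarith
  have FHm : FH τ F F1 :=
    ⟨hF.memLp.mono_measure (Measure.restrict_mono (Ioc_subset_Ioc_right hτT) le_rfl),
      fun a b ha hab hb => hF.prim a b ha hab (hb.trans hτT)⟩
  have Svt := Sv.mono hτT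
  have Ot := O.mono hτT
  have hyc : ContinuousOn y (Icc 0 T) := prim_cont Sv.z1m Sv.pz
  -- the difference and its derivative
  have hw1 : MemLp (fun s => u1 s - v1 s - X1 s) 2 (volume.restrict (Ioc 0 τ)) :=
    (S.u1m.sub Svt.u1m).sub Ot.X1m
  have hwp : ∀ b1 b2, 0 ≤ b1 → b1 ≤ b2 → b2 ≤ τ →
      (u b2 - v b2 - X b2) - (u b1 - v b1 - X b1) = ∫ s in b1..b2, (u1 s - v1 s - X1 s) := by
    intro b1 b2 h1 h2 h3
    have i1 : IntervalIntegrable u1 volume b1 b2 :=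
      ii_of_int (S.u1m.integrable (by norm_num)) h1 h2 h3
    have i2 : IntervalIntegrable v1 volume b1 b2 :=
      ii_of_int (Svt.u1m.integrable (by norm_num)) h1 h2 h3
    have i3 : IntervalIntegrable X1 volume b1 b2 :=
      ii_of_int (Ot.X1m.integrable (by norm_num)) h1 h2 h3
    rw [intervalIntegral.integral_sub (i1.sub i2) i3, intervalIntegral.integral_sub i1 i2,
      ← S.pu b1 b2 h1 h2 h3, ← Svt.pu b1 b2 h1 h2 h3, ← Ot.pX b1 b2 h1 h2 h3]
    abel
  set w : ℝ → H := fun s => u s - v s - X s with hw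
  set w1 : ℝ → H := fun s => u1 s - v1 s - X1 s with hw1d
  have hsh : MemLp (fun s => w1 (s + h)) 2 (volume.restrict (Ioc 0 (τ - h))) := by
    have k1 : MemLp w1 2 (volume.restrict (Ioc h (h + (τ - h)))) :=
      hw1.mono_measure (Measure.restrict_mono (Ioc_subset_Ioc hh.le (by linarith)) le_rfl)
    have k2 := memLp_shift k1
    have e : (fun s => w1 (h + s)) = fun s => w1 (s + h) := by
      funext s
      rw [add_comm]
    rwa [e] at k2
  have hg1 : MemLp (fun s => w1 (s + h) - w1 s) 2 (volume.restrict (Ioc 0 (τ - h))) :=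
    hsh.sub (hw1.mono_measure (Measure.restrict_mono (Ioc_subset_Ioc_right (by linarith)) le_rfl))
  have hgp : ∀ b1 b2, 0 ≤ b1 → b1 ≤ b2 → b2 ≤ τ - h →
      (w (b2 + h) - w b2) - (w (b1 + h) - w b1) = ∫ s in b1..b2, (w1 (s + h) - w1 s) := by
    intro b1 b2 h1 h2 h3
    have i1 : IntervalIntegrable (fun s => w1 (s + h)) volume b1 b2 :=
      ii_of_int (hsh.integrable (by norm_num)) h1 h2 h3
    have i2 : IntervalIntegrable w1 volume b1 b2 :=
      ii_of_int (hw1.integrable (by norm_num)) h1 h2 (by linarith)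
    rw [intervalIntegral.integral_sub i1 i2,
      intervalIntegral.integral_comp_add_right (fun s => w1 s),
      ← hwp b1 b2 h1 h2 (by linarith), ← hwp (b1 + h) (b2 + h) (by linarith) (by linarith)
        (by linarith)]
    simp only [hw]
    abel
  have hτhT : τ - h ≤ T := by linarith
  have hB : ∫ s in (0 : ℝ)..(τ - h), (2 * C2 + 8 / ν * (a * N * ev δ N s) ^ 2)
      ≤ 2 * C2 * T + 8 * a ^ 2 / (ν * δ) := by
    have hc : Continuous (fun s => 8 / ν * (a * N * ev δ N s) ^ 2) := by fun_prop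
    rw [intervalIntegral.integral_add intervalIntegrable_const (hc.intervalIntegrable _ _)]
    have h1 : ∫ s in (0 : ℝ)..(τ - h), 2 * C2 = 2 * C2 * (τ - h) := by simp; ring
    have h2 : ∫ s in (0 : ℝ)..(τ - h), 8 / ν * (a * N * ev δ N s) ^ 2
        ≤ (8 / ν * (a * N) ^ 2) / (δ * N ^ 2) := by
      refine int_le_ev hδ hN0 hτh.le (by positivity) hc.continuousOn fun s hs => ?_
      have k1 := ev_le_one (N := N) hδ.le hs.1
      have k2 := ev_pos (δ := δ) (N := N) s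
      calc 8 / ν * (a * N * ev δ N s) ^ 2 = 8 / ν * (a * N) ^ 2 * (ev δ N s * ev δ N s) := by ring
        _ ≤ 8 / ν * (a * N) ^ 2 * (ev δ N s * 1) := by gcongr
        _ = _ := by ring
    have h3 : (8 / ν * (a * N) ^ 2) / (δ * N ^ 2) = 8 * a ^ 2 / (ν * δ) := by
      field_simp
    rw [h1]
    rw [h3] at h2
    have h4 : 2 * C2 * (τ - h) ≤ 2 * C2 * T := by gcongr
    linarith
  have hΓ : ∫ s in (0 : ℝ)..(τ - h), a * N ^ 3 * h * ev δ N s ≤ a / δ * (N * h) := by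
    have := int_le_ev (A := a * N ^ 3 * h) (f := fun s => a * N ^ 3 * h * ev δ N s) hδ hN0 hτh.le
      (by positivity) (by fun_prop) fun s _ => le_rfl
    refine this.trans (le_of_eq ?_)
    field_simp
  have hyi : ContinuousOn (fun s => ‖y (s + h) - y s‖ ^ 2) (Icc 0 (τ - h)) := by
    refine ContinuousOn.pow (ContinuousOn.norm (ContinuousOn.sub ?_ ?_)) 2
    · exact hyc.comp (by fun_prop) fun s hs => ⟨by linarith [hs.1], by linarith [hs.2]⟩
    · exact hyc.mono (Icc_subset_Icc_right hτhT)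
  have hκc : ContinuousOn (fun s => 8 / ν * ((1 * ‖y (s + h) - y s‖) ^ 2
      + (a * N ^ 3 * h * ev δ N s * (K0 / N)) ^ 2 + (a * N * ev δ N s * (Yv * h)) ^ 2
      + (a * N ^ 3 * h * ev δ N s * (Yv * s)) ^ 2)) (Icc 0 (τ - h)) := by
    have k1 : ContinuousOn (fun s => (1 * ‖y (s + h) - y s‖) ^ 2) (Icc 0 (τ - h)) := by
      simpa only [one_mul] using hyi
    have k2 : Continuous (fun s => (a * N ^ 3 * h * ev δ N s * (K0 / N)) ^ 2) := by fun_prop
    have k3 : Continuous (fun s => (a * N * ev δ N s * (Yv * h)) ^ 2) := by fun_prop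
    have k4 : Continuous (fun s => (a * N ^ 3 * h * ev δ N s * (Yv * s)) ^ 2) := by fun_prop
    exact continuousOn_const.mul (((k1.add k2.continuousOn).add k3.continuousOn).add
      k4.continuousOn)
  have hK : ∫ s in (0 : ℝ)..(τ - h), 8 / ν * ((1 * ‖y (s + h) - y s‖) ^ 2
      + (a * N ^ 3 * h * ev δ N s * (K0 / N)) ^ 2 + (a * N * ev δ N s * (Yv * h)) ^ 2
      + (a * N ^ 3 * h * ev δ N s * (Yv * s)) ^ 2)
      ≤ 8 / ν * (J + a ^ 2 * K0 ^ 2 / δ + T * (a * Yv) ^ 2 + T * (a * Yv / δ) ^ 2)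
        * (N * h) ^ 2 := by
    have k1 : ContinuousOn (fun s => (1 * ‖y (s + h) - y s‖) ^ 2) (Icc 0 (τ - h)) := by
      simpa only [one_mul] using hyi
    have c2 : Continuous (fun s => (a * N ^ 3 * h * ev δ N s * (K0 / N)) ^ 2) := by fun_prop
    have c3 : Continuous (fun s => (a * N * ev δ N s * (Yv * h)) ^ 2) := by fun_prop
    have c4 : Continuous (fun s => (a * N ^ 3 * h * ev δ N s * (Yv * s)) ^ 2) := by fun_prop
    have i1 : IntervalIntegrable (fun s => (1 * ‖y (s + h) - y s‖) ^ 2) volume 0 (τ - h) := by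
      refine ContinuousOn.intervalIntegrable ?_
      rwa [uIcc_of_le hτh.le]
    have i2 := c2.intervalIntegrable (μ := volume) 0 (τ - h)
    have i3 := c3.intervalIntegrable (μ := volume) 0 (τ - h)
    have i4 := c4.intervalIntegrable (μ := volume) 0 (τ - h)
    rw [intervalIntegral.integral_const_mul, intervalIntegral.integral_add ((i1.add i2).add i3) i4,
      intervalIntegral.integral_add (i1.add i2) i3, intervalIntegral.integral_add i1 i2]
    have j1 : ∫ s in (0 : ℝ)..(τ - h), (1 * ‖y (s + h) - y s‖) ^ 2 ≤ J * (N * h) ^ 2 := by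
      have q1 := diff_sq_int Sv.z1m Sv.pz hh hτh.le (t := τ - h) (by linarith)
      simp only [one_mul]
      refine q1.trans ?_
      have hJ0 : 0 ≤ J := le_trans (intervalIntegral.integral_nonneg hT.le fun s _ => by positivity) hJ
      calc h ^ 2 * ∫ s in (0 : ℝ)..T, ‖y1 s‖ ^ 2 ≤ h ^ 2 * J := by gcongr
        _ = J * (1 * h) ^ 2 := by ring
        _ ≤ J * (N * h) ^ 2 := by gcongr
    have j2 : ∫ s in (0 : ℝ)..(τ - h), (a * N ^ 3 * h * ev δ N s * (K0 / N)) ^ 2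
        ≤ a ^ 2 * K0 ^ 2 / δ * (N * h) ^ 2 := by
      have q1 := int_le_ev (A := (a * N ^ 3 * h * (K0 / N)) ^ 2) hδ hN0 hτh.le (by positivity)
        c2.continuousOn fun s hs => by
          have k1 := ev_le_one (N := N) hδ.le hs.1
          have k2 := ev_pos (δ := δ) (N := N) s
          calc (a * N ^ 3 * h * ev δ N s * (K0 / N)) ^ 2
              = (a * N ^ 3 * h * (K0 / N)) ^ 2 * (ev δ N s * ev δ N s) := by ring
            _ ≤ (a * N ^ 3 * h * (K0 / N)) ^ 2 * (ev δ N s * 1) := by gcongr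
            _ = _ := by ring
      refine q1.trans (le_of_eq ?_)
      field_simp
    have j3 : ∫ s in (0 : ℝ)..(τ - h), (a * N * ev δ N s * (Yv * h)) ^ 2
        ≤ T * (a * Yv) ^ 2 * (N * h) ^ 2 := by
      have q1 := int_le_const (A := (a * N * (Yv * h)) ^ 2) hτh.le
        c3.continuousOn fun s hs => by
          have k1 := ev_le_one (N := N) hδ.le hs.1
          have k2 := ev_pos (δ := δ) (N := N) s
          have k3 : a * N * ev δ N s * (Yv * h) ≤ a * N * (Yv * h) := by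
            calc a * N * ev δ N s * (Yv * h) ≤ a * N * 1 * (Yv * h) := by gcongr
              _ = _ := by ring
          gcongr
      refine q1.trans ?_
      calc (τ - h) * (a * N * (Yv * h)) ^ 2 ≤ T * (a * N * (Yv * h)) ^ 2 := by gcongr
        _ = _ := by ring
    have j4 : ∫ s in (0 : ℝ)..(τ - h), (a * N ^ 3 * h * ev δ N s * (Yv * s)) ^ 2
        ≤ T * (a * Yv / δ) ^ 2 * (N * h) ^ 2 := by
      have q1 := int_le_const (A := (a * Yv / δ * (N * h)) ^ 2) hτh.le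
        c4.continuousOn fun s hs => by
          have k0 := hs.1
          have k1 := mul_ev_le hδ hN0 hs.1
          have k2 := ev_pos (δ := δ) (N := N) s
          have k3 : 0 ≤ s * ev δ N s := mul_nonneg hs.1 k2.le
          have k4 : a * N ^ 3 * h * ev δ N s * (Yv * s) ≤ a * Yv / δ * (N * h) := by
            calc a * N ^ 3 * h * ev δ N s * (Yv * s) = a * N ^ 3 * h * Yv * (s * ev δ N s) := by
                  ring
              _ ≤ a * N ^ 3 * h * Yv * (1 / (δ * N ^ 2)) := by gcongr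
              _ = _ := by field_simp
          gcongr
      refine q1.trans ?_
      calc (τ - h) * (a * Yv / δ * (N * h)) ^ 2 ≤ T * (a * Yv / δ * (N * h)) ^ 2 := by gcongr
        _ = _ := by ring
    calc 8 / ν * (_ + _ + _ + _)
        ≤ 8 / ν * (J * (N * h) ^ 2 + a ^ 2 * K0 ^ 2 / δ * (N * h) ^ 2
            + T * (a * Yv) ^ 2 * (N * h) ^ 2 + T * (a * Yv / δ) ^ 2 * (N * h) ^ 2) := by
          gcongr
      _ = _ := by ring
  have hpt := pt2 Fr Un Q hν hτ FHm S Svt ha.le hδ.le hN0.le Ot (h := h) hh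
    (fun r hr => hZ r ⟨hr.1, hr.2.trans hτT⟩) hYv0
    (fun r hr s hs => hY r ⟨hr.1, hr.2.trans hτT⟩ s ⟨hs.1, hs.2.trans hτT⟩) hC2 hK0 hBS hD0
  have key := gron_sq (g := fun s => w (s + h) - w s) hg1 hgp
    (β := fun s => 2 * C2 + 8 / ν * (a * N * ev δ N s) ^ 2)
    (γ := fun s => a * N ^ 3 * h * ev δ N s)
    (κ := fun s => 8 / ν * ((1 * ‖y (s + h) - y s‖) ^ 2
      + (a * N ^ 3 * h * ev δ N s * (K0 / N)) ^ 2 + (a * N * ev δ N s * (Yv * h)) ^ 2
      + (a * N ^ 3 * h * ev δ N s * (Yv * s)) ^ 2))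
    (by fun_prop) (by fun_prop) hκc
    (fun s _ => by positivity) (fun s _ => by have := ev_pos (δ := δ) (N := N) s; positivity)
    (fun s _ => by positivity) hB hΓ (by positivity) hK (by
      filter_upwards [hpt] with s hs
      simp only [hw1d, hw]
      have e : a * N ^ 3 * h * ev δ N s * ‖u (s + h) - v (s + h) - X (s + h) - (u s - v s - X s)‖
          = a * N ^ 3 * h * ev δ N s
            * ‖u (s + h) - v (s + h) - X (s + h) - (u s - v s - X s)‖ := rfl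
      linarith)
  have k0 : w 0 = 0 := by
    rw [hw]
    simp only
    rw [hu0]
    abel
  have k1 := key t ht
  simp only [zero_add, k0, sub_zero] at k1
  refine k1.trans ?_
  have k2 := hKs h ⟨hh, hhτ.le⟩
  calc (‖w h‖ ^ 2 + (a / δ * (N * h)) ^ 2 + 8 / ν * (J + a ^ 2 * K0 ^ 2 / δ + T * (a * Yv) ^ 2
          + T * (a * Yv / δ) ^ 2) * (N * h) ^ 2)
        * Real.exp (2 * C2 * T + 8 * a ^ 2 / (ν * δ) + 1)
      ≤ (Ks * (N * h) ^ 2 + (a / δ * (N * h)) ^ 2 + 8 / ν * (J + a ^ 2 * K0 ^ 2 / δ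
          + T * (a * Yv) ^ 2 + T * (a * Yv / δ) ^ 2) * (N * h) ^ 2)
        * Real.exp (2 * C2 * T + 8 * a ^ 2 / (ν * δ) + 1) := by gcongr
    _ = _ := by ring

include hC10 hC1 in
/-- the gradient of the error -/
theorem grad_err {Cw : ℝ} (hCw0 : 0 ≤ Cw)
    (hCw : (Ks + (a / δ) ^ 2 + 8 / ν * (J + a ^ 2 * K0 ^ 2 / δ + T * (a * Yv) ^ 2
          + T * (a * Yv / δ) ^ 2)) * Real.exp (2 * C2 * T + 8 * a ^ 2 / (ν * δ) + 1) ≤ Cw ^ 2) :
    ∀ t ∈ Icc 0 τ, ν * ‖z t - y t - DX t‖ ^ 2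
      ≤ 2 * C1 * K0 ^ 2 + 4 / ν * a ^ 2 * K0 ^ 2 + 2 * a * K0 + 4 / ν * (a * Yv / δ) ^ 2
        + 2 * Cw * K0 := by
  have hN0 : 0 < N := by linarith
  have hT : 0 < T := hτ.trans_le hτT
  have FHm : FH τ F F1 :=
    ⟨hF.memLp.mono_measure (Measure.restrict_mono (Ioc_subset_Ioc_right hτT) le_rfl),
      fun a b ha hab hb => hF.prim a b ha hab (hb.trans hτT)⟩
  have Svt := Sv.mono hτT
  have Ot := O.mono hτT
  have hzc : ContinuousOn z (Icc 0 τ) := prim_cont S.z1m S.pz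
  have hyc : ContinuousOn y (Icc 0 τ) := prim_cont Svt.z1m Svt.pz
  have hw1 : MemLp (fun s => u1 s - v1 s - X1 s) 2 (volume.restrict (Ioc 0 τ)) :=
    (S.u1m.sub Svt.u1m).sub Ot.X1m
  have hwp : ∀ b1 b2, 0 ≤ b1 → b1 ≤ b2 → b2 ≤ τ →
      (u b2 - v b2 - X b2) - (u b1 - v b1 - X b1) = ∫ s in b1..b2, (u1 s - v1 s - X1 s) := by
    intro b1 b2 h1 h2 h3
    have i1 : IntervalIntegrable u1 volume b1 b2 :=
      ii_of_int (S.u1m.integrable (by norm_num)) h1 h2 h3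
    have i2 : IntervalIntegrable v1 volume b1 b2 :=
      ii_of_int (Svt.u1m.integrable (by norm_num)) h1 h2 h3
    have i3 : IntervalIntegrable X1 volume b1 b2 :=
      ii_of_int (Ot.X1m.integrable (by norm_num)) h1 h2 h3
    rw [intervalIntegral.integral_sub (i1.sub i2) i3, intervalIntegral.integral_sub i1 i2,
      ← S.pu b1 b2 h1 h2 h3, ← Svt.pu b1 b2 h1 h2 h3, ← Ot.pX b1 b2 h1 h2 h3]
    abel
  have hii : IntervalIntegrable (fun s => u1 s - v1 s - X1 s) volume 0 τ :=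
    ii_of_int (hw1.integrable (by norm_num)) le_rfl hτ.le le_rfl
  have hd := ae_deriv_of_prim (g := fun s => u s - v s - X s) hτ hii hwp
  -- the Lipschitz bound
  have hlip : ∀ s ∈ Icc 0 τ, ∀ t ∈ Icc 0 τ, s < t → t - s < τ →
      ‖(u t - v t - X t) - (u s - v s - X s)‖ ≤ Cw * N * (t - s) := by
    intro s hs t ht hst hτ'
    have h1 := dq_bd Fr Un Q hν hτ hτT hF S Sv ha hδ hN O hu0 hC20 hYv0 hZ hY hC2 hK00 hK0 hKs hJ
      hBS hD0 (h := t - s) (by linarith) hτ' s ⟨hs.1, by linarith [ht.2]⟩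
    have e : s + (t - s) = t := by ring
    rw [e] at h1
    have h2 : ‖(u t - v t - X t) - (u s - v s - X s)‖ ^ 2 ≤ (Cw * N * (t - s)) ^ 2 := by
      refine h1.trans ?_
      calc _ ≤ Cw ^ 2 * (N * (t - s)) ^ 2 := by gcongr
        _ = _ := by ring
    have h3 : 0 ≤ Cw * N * (t - s) := by
      have : 0 ≤ t - s := by linarith
      positivity
    exact (pow_le_pow_iff_left₀ (norm_nonneg _) h3 (by norm_num)).mp h2
  have hwd : ∀ᵐ s ∂(volume.restrict (Ioc 0 τ)), ‖u1 s - v1 s - X1 s‖ ≤ Cw * N := by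
    have hne : ∀ᵐ s ∂(volume.restrict (Ioc 0 τ)), s ≠ τ := by
      refine ae_restrict_of_ae ?_
      simp [ae_iff, measure_singleton]
    filter_upwards [hd, hne, ae_restrict_mem measurableSet_Ioc] with s h1 h2 h3
    have hs : s ∈ Ioo 0 τ := ⟨h3.1, lt_of_le_of_ne h3.2 h2⟩
    have h4 := h1.hasDerivWithinAt (s := Ioi s)
    have h5 := (hasDerivWithinAt_iff_tendsto_slope' (by simp)).1 h4
    refine le_of_tendsto h5.norm ?_
    have h6 : Ioo s τ ∈ 𝓝[>] s := Ioo_mem_nhdsGT hs.2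
    filter_upwards [h6] with t ht
    rw [slope_def_module, norm_smul]
    have h7 := hlip s ⟨hs.1.le, hs.2.le⟩ t ⟨hs.1.le.trans ht.1.le, ht.2.le⟩ ht.1
      (by linarith [hs.1, ht.2])
    have h8 : 0 < t - s := by linarith [ht.1]
    rw [norm_inv, Real.norm_eq_abs, abs_of_pos h8, inv_mul_le_iff₀ h8]
    linarith
  -- the estimate
  have hpt := pt1 Fr Q hν hτ FHm S Svt ha.le hN0.le Ot
    (fun r hr => hZ r ⟨hr.1, hr.2.trans hτT⟩)
    (fun r hr => by
      have := hY 0 ⟨le_rfl, hT.le⟩ r ⟨hr.1, hr.2.trans hτT⟩ hr.1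
      rwa [sub_zero] at this) hC1
  have hae : ∀ᵐ s ∂(volume.restrict (Ioc 0 τ)), ν * ‖z s - y s - DX s‖ ^ 2
      ≤ 2 * C1 * K0 ^ 2 + 4 / ν * a ^ 2 * K0 ^ 2 + 2 * a * K0 + 4 / ν * (a * Yv / δ) ^ 2
        + 2 * Cw * K0 := by
    filter_upwards [hpt, hwd, ae_restrict_mem measurableSet_Ioc] with s h1 h2 h3
    have hs0 : 0 ≤ s := h3.1.le
    have k1 := ev_le_one (N := N) hδ.le hs0
    have k2 := ev_pos (δ := δ) (N := N) s
    have k3 := hK0 s ⟨hs0, h3.2⟩
    have k4 := mul_ev_le hδ hN0 hs0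
    have k5 : 0 ≤ s * ev δ N s := mul_nonneg hs0 k2.le
    have hKN : K0 / N ≤ K0 := div_le_self hK00 hN
    have q1 : (2 * C1 + 4 / ν * (a * N * ev δ N s) ^ 2) * ‖u s - v s - X s‖ ^ 2
        ≤ 2 * C1 * K0 ^ 2 + 4 / ν * a ^ 2 * K0 ^ 2 := by
      have a1 : 2 * C1 * ‖u s - v s - X s‖ ^ 2 ≤ 2 * C1 * K0 ^ 2 := by
        have := k3.trans hKN
        gcongr
      have a2 : 4 / ν * (a * N * ev δ N s) ^ 2 * ‖u s - v s - X s‖ ^ 2
          ≤ 4 / ν * (a * N * 1) ^ 2 * (K0 / N) ^ 2 := by gcongr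
      have a3 : 4 / ν * (a * N * 1) ^ 2 * (K0 / N) ^ 2 = 4 / ν * a ^ 2 * K0 ^ 2 := by
        field_simp
      rw [a3] at a2
      rw [add_mul]
      linarith
    have q2 : 2 * (a * N * ev δ N s * ‖u s - v s - X s‖) ≤ 2 * a * K0 := by
      have a1 : 2 * (a * N * ev δ N s * ‖u s - v s - X s‖) ≤ 2 * (a * N * 1 * (K0 / N)) := by
        gcongr
      refine a1.trans (le_of_eq ?_)
      field_simp
    have q3 : 4 / ν * (a * N * ev δ N s * (Yv * s)) ^ 2 ≤ 4 / ν * (a * Yv / δ) ^ 2 := by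
      have a1 : a * N * ev δ N s * (Yv * s) ≤ a * Yv / δ := by
        calc a * N * ev δ N s * (Yv * s) = a * N * Yv * (s * ev δ N s) := by ring
          _ ≤ a * N * Yv * (1 / (δ * N ^ 2)) := by gcongr
          _ = a * Yv / δ / N := by field_simp
          _ ≤ a * Yv / δ := div_le_self (by positivity) hN
      have a2 : 0 ≤ a * N * ev δ N s * (Yv * s) := by positivity
      gcongr
    have q4 : -(2 * ⟪u1 s - v1 s - X1 s, u s - v s - X s⟫_ℝ) ≤ 2 * Cw * K0 := by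
      have a1 := abs_real_inner_le_norm (u1 s - v1 s - X1 s) (u s - v s - X s)
      have a2 := neg_abs_le ⟪u1 s - v1 s - X1 s, u s - v s - X s⟫_ℝ
      have a3 : ‖u1 s - v1 s - X1 s‖ * ‖u s - v s - X s‖ ≤ Cw * N * (K0 / N) := by gcongr
      have a4 : Cw * N * (K0 / N) = Cw * K0 := by field_simp
      rw [a4] at a3
      linarith
    linarith
  -- continuity
  have hcont : ContinuousOn (fun t => ν * ‖z t - y t - DX t‖ ^ 2) (Icc 0 τ) :=
    continuousOn_const.mul (((hzc.sub hyc).sub Ot.dc).norm.pow 2)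
  set Bd : ℝ := 2 * C1 * K0 ^ 2 + 4 / ν * a ^ 2 * K0 ^ 2 + 2 * a * K0 + 4 / ν * (a * Yv / δ) ^ 2
        + 2 * Cw * K0 with hBd
  intro t ht
  by_contra hcon
  rw [not_le] at hcon
  have h1 : ∀ᶠ s in 𝓝[Icc 0 τ] t, Bd < ν * ‖z s - y s - DX s‖ ^ 2 :=
    (hcont t ht).eventually (lt_mem_nhds hcon)
  have h2 : ∃ U, IsOpen U ∧ t ∈ U ∧ U ∩ Icc 0 τ ⊆ {s | Bd < ν * ‖z s - y s - DX s‖ ^ 2} :=
    mem_nhdsWithin.1 h1
  obtain ⟨U, hU, htU, hUs⟩ := h2
  have h3 : (U ∩ Ioo 0 τ).Nonempty := by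
    have h4 : t ∈ closure (Ioo 0 τ) := by
      rw [closure_Ioo hτ.ne]
      exact ht
    exact mem_closure_iff.1 h4 U hU htU
  have h5 : 0 < volume (U ∩ Ioo 0 τ) := (hU.inter isOpen_Ioo).measure_pos volume h3
  have h6 : volume (U ∩ Ioo 0 τ) = 0 := by
    rw [ae_restrict_iff' measurableSet_Ioc] at hae
    refine measure_mono_null ?_ hae
    intro s hs
    simp only [mem_compl_iff, mem_setOf_eq, not_forall]
    refine ⟨⟨hs.2.1, hs.2.2.le⟩, ?_⟩
    rw [not_le]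
    exact hUs ⟨hs.1, hs.2.1.le, hs.2.2.le⟩
  exact h5.ne' h6

end err

end Pool.Agent.J4H18.DN
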