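import Pool.Agent.J4H18.DN.A4

/-!
Perturbations of a strong solution by a large oscillating field: existence of the perturbed
solution.
-/

set_option autoImplicit false
set_option linter.unusedSectionVars false

open MeasureTheory Set Filter Topology
open scoped InnerProductSpace

namespace Pool.Agent.J4H18.DN

open Pool.Agent.Y303.RA Pool.Agent.Y303.NF
open Pool.Agent.W795.TQ
open H772R2.NSR (Frame prim_cont memLp_ii ae_deriv_of_prim)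
open H772R2.NSG (St ii_of_int int_inner norm_m_le mem_cont)
open Pool.Agent.W790.TQ (toSt sq_prim)

variable {H K : Type} [NormedAddCommGroup H] [InnerProductSpace ℝ H] [CompleteSpace H]
  [NormedAddCommGroup K] [InnerProductSpace ℝ K] [CompleteSpace K]
  {W : Submodule ℝ (H × K)} {m : H → K} {C c ν T τ a δ N : ℝ}
  {F F1 : ℝ → K} {u u1 v v1 X X1 g : ℝ → H} {z z1 y y1 DX : ℝ → K}

/-- A strong solution is Lipschitz continuous. -/
theorem Str.lip (hT : 0 < T) (Sv : Str W m ν T F v v1 y y1) : ∃ Yv : ℝ, 0 ≤ Yv ∧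
    ∀ s ∈ Icc 0 T, ∀ t ∈ Icc 0 T, s ≤ t → ‖v t - v s‖ ≤ Yv * (t - s) := by
  obtain ⟨c, hc⟩ := Sv.bd
  refine ⟨max c 0, le_max_right _ _, fun s hs t ht hst => ?_⟩
  rw [Sv.pu s t hs.1 hst ht.2]
  have h1 := intervalIntegral.norm_integral_le_of_norm_le_const_ae (a := s) (b := t) (f := v1)
    (C := max c 0) (by
      rw [ae_restrict_iff' measurableSet_Ioc] at hc
      filter_upwards [hc] with r hr hrs
      rw [uIoc_of_le hst] at hrs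
      exact (hr ⟨hs.1.trans_lt hrs.1, hrs.2.trans ht.2⟩).trans (le_max_left _ _))
  rwa [abs_of_nonneg (by linarith)] at h1

theorem quad_C {C N K0 Eb : ℝ} (hC : 0 < C) (hN : 1 ≤ N) (hK0 : 0 ≤ K0) (hE0 : 0 ≤ Eb)
    (hN2 : 16 * C * K0 * Eb ^ 3 ≤ N) {x e : ℝ} (hx0 : 0 ≤ x) (he0 : 0 ≤ e) (hx : x ≤ K0 / N)
    (he : e ≤ Eb) : 2 * √(√(C * (x * e ^ 3))) ≤ 1 := by
  have hN0 : 0 < N := by linarith
  have h1 : C * (x * e ^ 3) ≤ 1 / 16 := by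
    calc C * (x * e ^ 3) ≤ C * (K0 / N * Eb ^ 3) := by gcongr
      _ = (16 * C * K0 * Eb ^ 3) / (16 * N) := by field_simp
      _ ≤ N / (16 * N) := by gcongr
      _ = 1 / 16 := by field_simp
  have h2 : √(C * (x * e ^ 3)) ≤ 1 / 4 := by
    have : √(C * (x * e ^ 3)) ≤ √(1 / 16) := Real.sqrt_le_sqrt h1
    have e1 : √(1 / 16 : ℝ) = 1 / 4 := by
      rw [show (1 / 16 : ℝ) = (1 / 4) ^ 2 by norm_num, Real.sqrt_sq (by norm_num)]
    rwa [e1] at this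
  have h3 : √(√(C * (x * e ^ 3))) ≤ 1 / 2 := by
    have : √(√(C * (x * e ^ 3))) ≤ √(1 / 4) := Real.sqrt_le_sqrt h2
    have e1 : √(1 / 4 : ℝ) = 1 / 2 := by
      rw [show (1 / 4 : ℝ) = (1 / 2) ^ 2 by norm_num, Real.sqrt_sq (by norm_num)]
    rwa [e1] at this
  linarith

theorem bs_C {c ν N K0 Eb : ℝ} (hc : 0 < c) (hν : 0 < ν) (hN : 1 ≤ N) (hK0 : 0 ≤ K0)
    (hE0 : 0 ≤ Eb) (hN2 : (16 * c / ν) ^ 2 * K0 * Eb ≤ N) {x e : ℝ} (hx0 : 0 ≤ x) (he0 : 0 ≤ e)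
    (hx : x ≤ K0 / N) (he : e ≤ Eb) : c * (√x * √e) ≤ ν / 16 := by
  have hN0 : 0 < N := by linarith
  have h1 : x * e ≤ (ν / (16 * c)) ^ 2 := by
    calc x * e ≤ K0 / N * Eb := by gcongr
      _ = (ν / (16 * c)) ^ 2 * ((16 * c / ν) ^ 2 * K0 * Eb) / N := by field_simp
      _ ≤ (ν / (16 * c)) ^ 2 * N / N := by gcongr
      _ = _ := by field_simp
  have h2 : √x * √e ≤ ν / (16 * c) := by
    rw [← Real.sqrt_mul hx0]
    calc √(x * e) ≤ √((ν / (16 * c)) ^ 2) := Real.sqrt_le_sqrt h1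
      _ = _ := Real.sqrt_sq (by positivity)
  calc c * (√x * √e) ≤ c * (ν / (16 * c)) := by gcongr
    _ = ν / 16 := by field_simp

/-- **Perturbation of a strong solution by a large oscillating field.** -/
theorem pertX (hloc : S_loc) (Fr : Frame W m C) (Un : Univ W m c) (Q : Quad W m)
    (hcomp : ∀ R : ℝ, TotallyBounded {v : H | ∃ z, (v, z) ∈ W ∧ ‖z‖ ≤ R})
    (hν : 0 < ν) (hT : 0 < T) (hF : FH T F F1) (Sv : Str W m ν T F v v1 y y1) {g0 : H}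
    (hg0 : ∀ p ∈ W, ⟪F 0 - ν • y 0 + m (v 0), p.2⟫_ℝ = ⟪g0, p.1⟫_ℝ)
    (ha : 0 < a) (hδ : 0 < δ) :
    ∃ K0 N0 : ℝ, 0 ≤ K0 ∧ 1 ≤ N0 ∧ ∀ N : ℝ, N0 ≤ N → ∀ (X X1 g : ℝ → H) (DX : ℝ → K),
      Osc W m ν T a δ N (v 0) X X1 g DX →
      ∃ (u u1 : ℝ → H) (z z1 : ℝ → K) (g0' : H), Str W m ν T F u u1 z z1 ∧ u 0 = v 0 + X 0 ∧
        (∀ p ∈ W, ⟪F 0 - ν • z 0 + m (u 0), p.2⟫_ℝ = ⟪g0', p.1⟫_ℝ) ∧
        ∀ t ∈ Icc 0 T, ‖u t - v t - X t‖ ≤ K0 / N := by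
  have hc := Un.c0
  have hC := Fr.C0
  have h0T : (0 : ℝ) ∈ Icc 0 T := ⟨le_rfl, hT.le⟩
  obtain ⟨Yv, hYv0, hY⟩ := Str.lip hT Sv
  have hyc : ContinuousOn y (Icc 0 T) := prim_cont Sv.z1m Sv.pz
  obtain ⟨Zv, hZ⟩ := isCompact_Icc.exists_bound_of_continuousOn hyc
  have hZ0 : 0 ≤ Zv := (norm_nonneg _).trans (hZ 0 h0T)
  obtain ⟨C1, hC10, hC1⟩ := m_young' Un hZ0 (η := ν / 8) (by positivity)
  obtain ⟨C2, hC20, hC2⟩ := m_young' Un hZ0 (η := ν / 16) (by positivity)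
  set Ks : ℝ := a ^ 2 * (1 + 4 * T * Yv ^ 2 / ν)
      * Real.exp (2 * C1 * T + 4 * a ^ 2 / (ν * δ) + 1) with hKs
  have hKs0 : 0 ≤ Ks := by positivity
  set K0 : ℝ := √((a / δ) ^ 2 * (1 + 4 * T * Yv ^ 2 / ν)
      * Real.exp (2 * C1 * T + 4 * a ^ 2 / (ν * δ) + 1)) with hK0
  have hK00 : 0 ≤ K0 := Real.sqrt_nonneg _
  have hK0sq : K0 ^ 2 = (a / δ) ^ 2 * (1 + 4 * T * Yv ^ 2 / ν)
      * Real.exp (2 * C1 * T + 4 * a ^ 2 / (ν * δ) + 1) := Real.sq_sqrt (by positivity)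
  set J : ℝ := ∫ s in (0 : ℝ)..T, ‖y1 s‖ ^ 2 with hJ
  have hJ0 : 0 ≤ J := intervalIntegral.integral_nonneg hT.le fun s _ => by positivity
  set Cw : ℝ := √((Ks + (a / δ) ^ 2 + 8 / ν * (J + a ^ 2 * K0 ^ 2 / δ + T * (a * Yv) ^ 2
          + T * (a * Yv / δ) ^ 2)) * Real.exp (2 * C2 * T + 8 * a ^ 2 / (ν * δ) + 1)) with hCw
  have hCw0 : 0 ≤ Cw := Real.sqrt_nonneg _
  have hCwsq : Cw ^ 2 = (Ks + (a / δ) ^ 2 + 8 / ν * (J + a ^ 2 * K0 ^ 2 / δ + T * (a * Yv) ^ 2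
          + T * (a * Yv / δ) ^ 2)) * Real.exp (2 * C2 * T + 8 * a ^ 2 / (ν * δ) + 1) :=
    Real.sq_sqrt (by positivity)
  set Ec : ℝ := √((2 * C1 * K0 ^ 2 + 4 / ν * a ^ 2 * K0 ^ 2 + 2 * a * K0 + 4 / ν * (a * Yv / δ) ^ 2
        + 2 * Cw * K0) / ν) with hEc
  have hEc0 : 0 ≤ Ec := Real.sqrt_nonneg _
  have hEcsq : ν * Ec ^ 2 = 2 * C1 * K0 ^ 2 + 4 / ν * a ^ 2 * K0 ^ 2 + 2 * a * K0
      + 4 / ν * (a * Yv / δ) ^ 2 + 2 * Cw * K0 := by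
    rw [hEc, Real.sq_sqrt (by positivity)]
    field_simp
  set Eb : ℝ := Ec + 1 with hEb
  have hEb0 : 0 ≤ Eb := by positivity
  set N0 : ℝ := 1 + 16 * C * K0 * Eb ^ 3 + (16 * c / ν) ^ 2 * K0 * Eb with hN0
  have hp1 : 0 ≤ 16 * C * K0 * Eb ^ 3 := by positivity
  have hp2 : 0 ≤ (16 * c / ν) ^ 2 * K0 * Eb := by positivity
  refine ⟨K0, N0, hK00, by linarith, fun N hN X X1 g DX O => ?_⟩
  have hN1 : 1 ≤ N := by linarith
  have hNpos : 0 < N := by linarith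
  have hNa : 16 * C * K0 * Eb ^ 3 ≤ N := by linarith
  have hNb : (16 * c / ν) ^ 2 * K0 * Eb ≤ N := by linarith
  -- the level for the local existence
  have hzb : ContinuousOn (fun t => y t + DX t) (Icc 0 T) := hyc.add O.dc
  obtain ⟨Zb, hZb⟩ := isCompact_Icc.exists_bound_of_continuousOn hzb
  have hZb0 : 0 ≤ Zb := (norm_nonneg _).trans (hZb 0 h0T)
  have hmem0 : (v 0 + X 0, y 0 + DX 0) ∈ W := W.add_mem (Sv.mem 0 h0T) (O.mem 0 h0T)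
  have hcompat : ∀ p ∈ W, ⟪F 0 - ν • (y 0 + DX 0) + m (v 0 + X 0), p.2⟫_ℝ
      = ⟪g0 + (X1 0 - g 0), p.1⟫_ℝ := by
    intro p hp
    have h1 := hg0 p hp
    have h2 := O.eqn 0 h0T p hp
    have e : F 0 - ν • (y 0 + DX 0) + m (v 0 + X 0)
        = (F 0 - ν • y 0 + m (v 0)) + (m (v 0 + X 0) - m (v 0) - ν • DX 0) := by
      rw [smul_add]
      abel
    rw [e, inner_add_left, h1, inner_add_left, inner_sub_left (X1 0), h2]
    ring
  obtain ⟨τ, u, u1, z, z1, hτ, hτT, S, hu0, hend⟩ :=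
    hloc H K W m C ν T F F1 (v 0 + X 0) (g0 + (X1 0 - g 0)) (y 0 + DX 0) (Zb + Eb + 1) Fr hcomp
      hν hT hF hmem0 hcompat (by
        have := hZb 0 h0T
        linarith)
  have h0τ : (0 : ℝ) ∈ Icc 0 τ := ⟨le_rfl, hτ.le⟩
  have hz0 : z 0 = y 0 + DX 0 := by
    have h1 : (u 0, z 0) ∈ W := S.mem 0 h0τ
    rw [hu0] at h1
    have h2 := W.sub_mem h1 hmem0
    have h3 := Fr.uniq _ h2 (by simp)
    simpa [sub_eq_zero] using h3
  have hwK : ∀ t ∈ Icc 0 τ, ‖u t - v t - X t‖ ≤ K0 / N := by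
    intro t ht
    have h1 := err_bd Fr Q hν hτ hτT hF S Sv ha hδ hN1 O hu0 hC10 hYv0 hZ hY hC1 t ht
    rw [← hK0sq, ← div_pow] at h1
    exact (pow_le_pow_iff_left₀ (norm_nonneg _) (by positivity) (by norm_num)).mp h1
  -- the bound of the gradient, given the rough bound
  have hstep : ∀ t, 0 < t → t ≤ τ → (∀ s ∈ Icc 0 t, ‖z s - y s - DX s‖ ≤ Eb) →
      ∀ s ∈ Icc 0 t, ‖z s - y s - DX s‖ ≤ Ec := by
    intro t ht htτ hE s hs
    have htT := htτ.trans hτT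
    have St := S.mono htτ
    have hws : ∀ r ∈ Icc 0 t, ‖u r - v r - X r‖ ≤ K0 / N := fun r hr =>
      hwK r ⟨hr.1, hr.2.trans htτ⟩
    have hshort : ∀ h ∈ Ioc 0 t, ‖u h - v h - X h‖ ^ 2 ≤ Ks * (N * h) ^ 2 := fun h hh =>
      err_short Fr Q hν ht htT hF St Sv ha hδ hN1 O hu0 hC10 hYv0 hZ hY hC1 hh
    have h1 := grad_err Fr Un Q hν ht htT hF St Sv ha hδ hN1 O hu0 hC10 hC20 hYv0 hZ hY hC1 hC2
      hK00 hws hshort le_rfl
      (fun r hr => bs_C hc hν hN1 hK00 hEb0 hNb (norm_nonneg _) (norm_nonneg _) (hws r hr)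
        (hE r hr))
      (fun r hr => quad_C hC hN1 hK00 hEb0 hNa (norm_nonneg _) (norm_nonneg _) (hws r hr)
        (hE r hr))
      hCw0 (le_of_eq hCwsq.symm) s hs
    rw [← hEcsq] at h1
    have h2 : ‖z s - y s - DX s‖ ^ 2 ≤ Ec ^ 2 := le_of_mul_le_mul_left h1 hν
    exact (pow_le_pow_iff_left₀ (norm_nonneg _) hEc0 (by norm_num)).mp h2
  have hzc : ContinuousOn z (Icc 0 τ) := prim_cont S.z1m S.pz
  have hfc : ContinuousOn (fun t => ‖z t - y t - DX t‖) (Icc 0 τ) :=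
    ((hzc.sub (hyc.mono (Icc_subset_Icc_right hτT))).sub
      (O.dc.mono (Icc_subset_Icc_right hτT))).norm
  have hf0 : ‖z 0 - y 0 - DX 0‖ = 0 := by
    rw [hz0]
    have : y 0 + DX 0 - y 0 - DX 0 = 0 := by abel
    rw [this, norm_zero]
  -- the rough bound
  have hrough : ∀ t ∈ Icc 0 τ, ‖z t - y t - DX t‖ < Eb := by
    by_contra hcon
    push_neg at hcon
    obtain ⟨t1, ht1, ht1'⟩ := hcon
    set A : Set ℝ := {t | t ∈ Icc 0 τ ∧ Eb ≤ ‖z t - y t - DX t‖} with hA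
    have hAc : IsCompact A := by
      have h1 : IsClosed (Icc 0 τ ∩ (fun t => ‖z t - y t - DX t‖) ⁻¹' (Ici Eb)) :=
        hfc.preimage_isClosed_of_isClosed isClosed_Icc isClosed_Ici
      have h2 : A = Icc 0 τ ∩ (fun t => ‖z t - y t - DX t‖) ⁻¹' (Ici Eb) := by
        ext t
        simp [hA]
      rw [h2]
      exact isCompact_Icc.of_isClosed_subset h1 inter_subset_left
    obtain ⟨t0, ht0, hleast⟩ := hAc.exists_isLeast ⟨t1, ht1, ht1'⟩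
    have ht0pos : 0 < t0 := by
      rcases eq_or_lt_of_le ht0.1.1 with h | h
      · exfalso
        have h1 := ht0.2
        rw [← h, hf0] at h1
        linarith
      · exact h
    have hlt : ∀ t ∈ Ico 0 t0, ‖z t - y t - DX t‖ < Eb := by
      intro t ht
      by_contra h
      rw [not_lt] at h
      have h1 := hleast ⟨⟨ht.1, ht.2.le.trans ht0.1.2⟩, h⟩
      linarith [ht.2]
    have h2 : ∀ t ∈ Ioo 0 t0, ‖z t - y t - DX t‖ ≤ Ec := fun t ht =>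
      hstep t ht.1 (ht.2.le.trans ht0.1.2) (fun s hs => (hlt s ⟨hs.1, hs.2.trans_lt ht.2⟩).le) t
        ⟨ht.1.le, le_rfl⟩
    have h3 : ‖z t0 - y t0 - DX t0‖ ≤ Ec := by
      have h4 : ContinuousWithinAt (fun t => ‖z t - y t - DX t‖) (Ioo 0 t0) t0 :=
        (hfc t0 ht0.1).mono fun s hs => ⟨hs.1.le, hs.2.le.trans ht0.1.2⟩
      have h5 : t0 ∈ closure (Ioo 0 t0) := by
        rw [closure_Ioo ht0pos.ne]
        exact ⟨ht0pos.le, le_rfl⟩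
      exact ContinuousWithinAt.closure_le h5 h4 continuousWithinAt_const h2
    have h6 := ht0.2
    linarith
  rcases hend with h1 | h1
  · subst h1
    refine ⟨u, u1, z, z1, g0 + (X1 0 - g 0), S, hu0, ?_, hwK⟩
    intro p hp
    rw [hu0, hz0]
    exact hcompat p hp
  · exfalso
    have h2 := hrough τ ⟨hτ.le, le_rfl⟩
    have h3 := hZb τ ⟨hτ.le, hτT⟩
    have h4 : ‖z τ‖ ≤ ‖z τ - y τ - DX τ‖ + ‖y τ + DX τ‖ := by
      have e : z τ = (z τ - y τ - DX τ) + (y τ + DX τ) := by abel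
      calc ‖z τ‖ = ‖(z τ - y τ - DX τ) + (y τ + DX τ)‖ := by rw [← e]
        _ ≤ _ := norm_add_le _ _
    linarith

end Pool.Agent.J4H18.DN
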