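import Pool.Agent.J4H18.DN.A2
import Pool.Agent.Y303.LV.Field

/-!
The class of oscillating functions `N^k p(N² t) a(x) trig (N φ(x))`.
-/

set_option autoImplicit false
set_option linter.unusedSectionVars false

open MeasureTheory Set Filter Topology
open scoped InnerProductSpace ENNReal ContDiff NNReal

namespace Pool.Agent.J4H18.DN

open H772R2.NS
open Pool.Agent.Y303.LV (PD)


/-- functions of the frequency, the time and the position -/
abbrev Fun3 := ℝ → ℝ → E3 → ℝ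

/-- amplitudes -/
structure Amp (K : Set E3) (a : E3 → ℝ) : Prop where
  smooth : ContDiff ℝ ∞ a
  off : ∀ x, x ∉ K → a x = 0

/-- partial derivative in space -/
noncomputable def dx (j : Fin 3) (f : Fun3) : Fun3 := fun N t x => fderiv ℝ (f N t) x (H772R2.NS.ev j)

/-- derivative in time -/
noncomputable def dt (f : Fun3) : Fun3 := fun N t x => deriv (fun s => f N s x) t

/-- partial derivative of a static function -/
noncomputable def pd (j : Fin 3) (a : E3 → ℝ) : E3 → ℝ := fun x => fderiv ℝ a x (H772R2.NS.ev j)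

/-- the oscillating functions of order one -/
inductive Cl (ν : ℝ) (φ : E3 → ℝ) (K : Set E3) : Fun3 → Prop
  | base {a : E3 → ℝ} (ha : Amp K a) : Cl ν φ K (fun N t x => Real.exp (-(ν * (N ^ 2 * t))) * a x)
  | mtau {f : Fun3} (hf : Cl ν φ K f) : Cl ν φ K (fun N t x => N ^ 2 * t * f N t x)
  | mexp (μ : ℝ) (hμ : 0 ≤ μ) {f : Fun3} (hf : Cl ν φ K f) :
      Cl ν φ K (fun N t x => Real.exp (-(μ * (N ^ 2 * t))) * f N t x)
  | mcos (k : ℝ) {f : Fun3} (hf : Cl ν φ K f) :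
      Cl ν φ K (fun N t x => Real.cos (k * (N * φ x)) * f N t x)
  | msin (k : ℝ) {f : Fun3} (hf : Cl ν φ K f) :
      Cl ν φ K (fun N t x => Real.sin (k * (N * φ x)) * f N t x)
  | minv {f : Fun3} (hf : Cl ν φ K f) : Cl ν φ K (fun N t x => N⁻¹ * f N t x)
  | add {f g : Fun3} (hf : Cl ν φ K f) (hg : Cl ν φ K g) :
      Cl ν φ K (fun N t x => f N t x + g N t x)

variable {ν : ℝ} {φ : E3 → ℝ} {K : Set E3} {f g : Fun3} {a b : E3 → ℝ}

theorem Amp.stat (ha : Amp K a) (hb : ContDiff ℝ ∞ b) : Amp K (fun x => b x * a x) :=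
  ⟨hb.mul ha.smooth, fun x hx => by rw [ha.off x hx, mul_zero]⟩

theorem Amp.add (ha : Amp K a) (hb : Amp K b) : Amp K (fun x => a x + b x) :=
  ⟨ha.smooth.add hb.smooth, fun x hx => by rw [ha.off x hx, hb.off x hx, add_zero]⟩

theorem Amp.zero : Amp K (fun _ => 0) := ⟨contDiff_const, fun _ _ => rfl⟩

theorem Amp.neg (ha : Amp K a) : Amp K (fun x => -a x) :=
  ⟨ha.smooth.neg, fun x hx => by rw [ha.off x hx, neg_zero]⟩

theorem Amp.mono {K' : Set E3} (ha : Amp K a) (h : K ⊆ K') : Amp K' a :=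
  ⟨ha.smooth, fun x hx => ha.off x fun h' => hx (h h')⟩

theorem cd_pd (ha : ContDiff ℝ ∞ a) (j : Fin 3) : ContDiff ℝ ∞ (pd j a) :=
  (ha.fderiv_right (m := ∞) (by simp)).clm_apply contDiff_const

theorem Amp.pd (hK : IsClosed K) (ha : Amp K a) (j : Fin 3) : Amp K (pd j a) := by
  refine ⟨cd_pd ha.smooth j, fun x hx => ?_⟩
  have h1 : a =ᶠ[𝓝 x] fun _ => (0 : ℝ) := by
    filter_upwards [hK.isOpen_compl.mem_nhds hx] with y hy using ha.off y hy
  unfold DN.pd
  rw [h1.fderiv_eq]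
  simp

theorem Cl.congr (h : Cl ν φ K f) (e : ∀ N t x, g N t x = f N t x) : Cl ν φ K g := by
  have : g = f := by
    funext N t x
    exact e N t x
  rwa [this]

theorem Cl.zero : Cl ν φ K (fun _ _ _ => 0) :=
  (Cl.base (Amp.zero (K := K))).congr fun N t x => by simp

theorem Cl.stat (hb : ContDiff ℝ ∞ b) (h : Cl ν φ K f) : Cl ν φ K (fun N t x => b x * f N t x) := by
  induction h with
  | base ha => exact (Cl.base (ha.stat hb)).congr fun N t x => by ring
  | mtau _ ih => exact ih.mtau.congr fun N t x => by ring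
  | mexp μ hμ _ ih => exact (ih.mexp μ hμ).congr fun N t x => by ring
  | mcos k _ ih => exact (ih.mcos k).congr fun N t x => by ring
  | msin k _ ih => exact (ih.msin k).congr fun N t x => by ring
  | minv _ ih => exact ih.minv.congr fun N t x => by ring
  | add _ _ ih1 ih2 => exact (ih1.add ih2).congr fun N t x => by ring

theorem Cl.smul (c : ℝ) (h : Cl ν φ K f) : Cl ν φ K (fun N t x => c * f N t x) :=
  h.stat contDiff_const

theorem Cl.neg (h : Cl ν φ K f) : Cl ν φ K (fun N t x => -f N t x) :=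
  (h.smul (-1)).congr fun N t x => by ring

theorem Cl.sub (h : Cl ν φ K f) (k : Cl ν φ K g) : Cl ν φ K (fun N t x => f N t x - g N t x) :=
  (h.add k.neg).congr fun N t x => by ring

theorem Cl.mul (hν : 0 ≤ ν) (h : Cl ν φ K f) (k : Cl ν φ K g) :
    Cl ν φ K (fun N t x => f N t x * g N t x) := by
  induction k with
  | base ha => exact ((h.mexp ν hν).stat ha.smooth).congr fun N t x => by ring
  | mtau _ ih => exact ih.mtau.congr fun N t x => by ring
  | mexp μ hμ _ ih => exact (ih.mexp μ hμ).congr fun N t x => by ring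
  | mcos k _ ih => exact (ih.mcos k).congr fun N t x => by ring
  | msin k _ ih => exact (ih.msin k).congr fun N t x => by ring
  | minv _ ih => exact ih.minv.congr fun N t x => by ring
  | add _ _ ih1 ih2 => exact (ih1.add ih2).congr fun N t x => by ring

theorem Cl.smooth (hφ : ContDiff ℝ ∞ φ) (h : Cl ν φ K f) (N : ℝ) :
    ContDiff ℝ ∞ (fun p : ℝ × E3 => f N p.1 p.2) := by
  have hφ2 : ContDiff ℝ ∞ (fun p : ℝ × E3 => φ p.2) := hφ.comp contDiff_snd
  have h1 : ContDiff ℝ ∞ (fun p : ℝ × E3 => p.1) := contDiff_fst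
  induction h with
  | base ha =>
    exact (Real.contDiff_exp.comp (contDiff_const.mul (contDiff_const.mul h1)).neg).mul
      (ha.smooth.comp contDiff_snd)
  | mtau _ ih => exact (contDiff_const.mul h1).mul ih
  | mexp μ hμ _ ih =>
    exact (Real.contDiff_exp.comp (contDiff_const.mul (contDiff_const.mul h1)).neg).mul ih
  | mcos k _ ih => exact (Real.contDiff_cos.comp (contDiff_const.mul (contDiff_const.mul hφ2))).mul ih
  | msin k _ ih => exact (Real.contDiff_sin.comp (contDiff_const.mul (contDiff_const.mul hφ2))).mul ih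
  | minv _ ih => exact contDiff_const.mul ih
  | add _ _ ih1 ih2 => exact ih1.add ih2

theorem Cl.cdx (hφ : ContDiff ℝ ∞ φ) (h : Cl ν φ K f) (N t : ℝ) : ContDiff ℝ ∞ (f N t) :=
  (h.smooth hφ N).comp (f := fun x : E3 => ((t, x) : ℝ × E3)) (contDiff_const.prodMk contDiff_id)

theorem Cl.cdt (hφ : ContDiff ℝ ∞ φ) (h : Cl ν φ K f) (N : ℝ) (x : E3) :
    ContDiff ℝ ∞ (fun t => f N t x) :=
  (h.smooth hφ N).comp (f := fun t : ℝ => ((t, x) : ℝ × E3)) (contDiff_id.prodMk contDiff_const)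

theorem Cl.off (h : Cl ν φ K f) (N t : ℝ) {x : E3} (hx : x ∉ K) : f N t x = 0 := by
  induction h with
  | base ha => simp only [ha.off x hx, mul_zero]
  | mtau _ ih => simp only [ih, mul_zero]
  | mexp μ hμ _ ih => simp only [ih, mul_zero]
  | mcos k _ ih => simp only [ih, mul_zero]
  | msin k _ ih => simp only [ih, mul_zero]
  | minv _ ih => simp only [ih, mul_zero]
  | add _ _ ih1 ih2 => simp only [ih1, ih2, add_zero]

theorem Cl.bound0 (hK : IsCompact K) (h : Cl ν φ K f) : ∃ (C : ℝ) (m : ℕ), 0 ≤ C ∧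
    ∀ N, 1 ≤ N → ∀ t, 0 ≤ t → ∀ x, |f N t x|
      ≤ C * (1 + N ^ 2 * t) ^ m * Real.exp (-(ν * (N ^ 2 * t))) := by
  induction h with
  | @base a ha =>
    obtain ⟨C, hC⟩ := hK.exists_bound_of_continuousOn ha.smooth.continuous.continuousOn
    refine ⟨max C 0, 0, le_max_right _ _, fun N _ t _ x => ?_⟩
    rw [abs_mul, abs_of_pos (Real.exp_pos _), pow_zero, mul_one, mul_comm]
    refine mul_le_mul_of_nonneg_right ?_ (Real.exp_pos _).le
    by_cases hx : x ∈ K
    · exact (hC x hx).trans (le_max_left _ _)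
    · rw [ha.off x hx, abs_zero]
      exact le_max_right _ _
  | mtau _ ih =>
    obtain ⟨C, m, hC, h⟩ := ih
    refine ⟨C, m + 1, hC, fun N hN t ht x => ?_⟩
    have h1 := h N hN t ht x
    have h2 : 0 ≤ N ^ 2 * t := by positivity
    rw [abs_mul, abs_of_nonneg h2]
    calc N ^ 2 * t * |_| ≤ (1 + N ^ 2 * t) * (C * (1 + N ^ 2 * t) ^ m
          * Real.exp (-(ν * (N ^ 2 * t)))) := by
          gcongr
          linarith
      _ = _ := by ring
  | mexp μ hμ _ ih =>
    obtain ⟨C, m, hC, h⟩ := ih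
    refine ⟨C, m, hC, fun N hN t ht x => ?_⟩
    have h1 := h N hN t ht x
    have h2 : 0 ≤ μ * (N ^ 2 * t) := by positivity
    have h3 : Real.exp (-(μ * (N ^ 2 * t))) ≤ 1 := Real.exp_le_one_iff.2 (by linarith)
    rw [abs_mul, abs_of_pos (Real.exp_pos _)]
    calc Real.exp (-(μ * (N ^ 2 * t))) * |_| ≤ 1 * |_| := by gcongr
      _ = |_| := one_mul _
      _ ≤ _ := h1
  | mcos k _ ih =>
    obtain ⟨C, m, hC, h⟩ := ih
    refine ⟨C, m, hC, fun N hN t ht x => ?_⟩
    have h1 := h N hN t ht x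
    rw [abs_mul]
    calc |Real.cos (k * (N * φ x))| * |_| ≤ 1 * |_| := by
          gcongr
          exact Real.abs_cos_le_one _
      _ = |_| := one_mul _
      _ ≤ _ := h1
  | msin k _ ih =>
    obtain ⟨C, m, hC, h⟩ := ih
    refine ⟨C, m, hC, fun N hN t ht x => ?_⟩
    have h1 := h N hN t ht x
    rw [abs_mul]
    calc |Real.sin (k * (N * φ x))| * |_| ≤ 1 * |_| := by
          gcongr
          exact Real.abs_sin_le_one _
      _ = |_| := one_mul _
      _ ≤ _ := h1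
  | minv _ ih =>
    obtain ⟨C, m, hC, h⟩ := ih
    refine ⟨C, m, hC, fun N hN t ht x => ?_⟩
    have h1 := h N hN t ht x
    have h2 : N⁻¹ ≤ 1 := inv_le_one_of_one_le₀ hN
    have h3 : 0 ≤ N⁻¹ := by positivity
    rw [abs_mul, abs_of_nonneg h3]
    calc N⁻¹ * |_| ≤ 1 * |_| := by gcongr
      _ = |_| := one_mul _
      _ ≤ _ := h1
  | add _ _ ih1 ih2 =>
    obtain ⟨C1, m1, hC1, h1⟩ := ih1
    obtain ⟨C2, m2, hC2, h2⟩ := ih2
    refine ⟨C1 + C2, m1 + m2, by positivity, fun N hN t ht x => ?_⟩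
    have k1 := h1 N hN t ht x
    have k2 := h2 N hN t ht x
    have h3 : 1 ≤ 1 + N ^ 2 * t := by
      have : 0 ≤ N ^ 2 * t := by positivity
      linarith
    have h4 : (1 + N ^ 2 * t) ^ m1 ≤ (1 + N ^ 2 * t) ^ (m1 + m2) :=
      pow_le_pow_right₀ h3 (by omega)
    have h5 : (1 + N ^ 2 * t) ^ m2 ≤ (1 + N ^ 2 * t) ^ (m1 + m2) :=
      pow_le_pow_right₀ h3 (by omega)
    refine (abs_add_le _ _).trans ?_
    calc |_| + |_| ≤ C1 * (1 + N ^ 2 * t) ^ m1 * Real.exp (-(ν * (N ^ 2 * t)))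
          + C2 * (1 + N ^ 2 * t) ^ m2 * Real.exp (-(ν * (N ^ 2 * t))) := add_le_add k1 k2
      _ ≤ C1 * (1 + N ^ 2 * t) ^ (m1 + m2) * Real.exp (-(ν * (N ^ 2 * t)))
          + C2 * (1 + N ^ 2 * t) ^ (m1 + m2) * Real.exp (-(ν * (N ^ 2 * t))) := by gcongr
      _ = _ := by ring

theorem Cl.bound (hν : 0 < ν) (hK : IsCompact K) (h : Cl ν φ K f) : ∃ C : ℝ, 0 ≤ C ∧
    ∀ N, 1 ≤ N → ∀ t, 0 ≤ t → ∀ x, |f N t x| ≤ C * ev (ν / 2) N t := by
  obtain ⟨C, m, hC, h⟩ := h.bound0 hK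
  set c : ℝ := 1 + 2 * m / ν with hc
  have hc1 : 1 ≤ c := by
    have : 0 ≤ 2 * m / ν := by positivity
    linarith
  have hc0 : 0 < c := by linarith
  refine ⟨C * c ^ m, by positivity, fun N hN t ht x => ?_⟩
  have hτ : 0 ≤ N ^ 2 * t := by positivity
  refine (h N hN t ht x).trans ?_
  have h1 : (1 + N ^ 2 * t) ≤ c * Real.exp (N ^ 2 * t / c) := by
    have h2 := Real.add_one_le_exp (N ^ 2 * t / c)
    calc 1 + N ^ 2 * t ≤ c + N ^ 2 * t := by linarith
      _ = c * (N ^ 2 * t / c + 1) := by field_simp; ring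
      _ ≤ _ := by gcongr
  have h3 : (1 + N ^ 2 * t) ^ m ≤ c ^ m * Real.exp (ν / 2 * (N ^ 2 * t)) := by
    calc (1 + N ^ 2 * t) ^ m ≤ (c * Real.exp (N ^ 2 * t / c)) ^ m := by gcongr
      _ = c ^ m * Real.exp (m * (N ^ 2 * t / c)) := by
          rw [mul_pow, ← Real.exp_nat_mul]
      _ ≤ c ^ m * Real.exp (ν / 2 * (N ^ 2 * t)) := by
          have h4 : (m : ℝ) * (N ^ 2 * t / c) ≤ ν / 2 * (N ^ 2 * t) := by
            have h5 : (m : ℝ) / c ≤ ν / 2 := by
              rw [div_le_iff₀ hc0, hc]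
              have : ν / 2 * (1 + 2 * m / ν) = ν / 2 + m := by field_simp
              rw [this]
              linarith
            calc (m : ℝ) * (N ^ 2 * t / c) = m / c * (N ^ 2 * t) := by ring
              _ ≤ _ := by gcongr
          gcongr
  calc C * (1 + N ^ 2 * t) ^ m * Real.exp (-(ν * (N ^ 2 * t)))
      ≤ C * (c ^ m * Real.exp (ν / 2 * (N ^ 2 * t))) * Real.exp (-(ν * (N ^ 2 * t))) := by gcongr
    _ = C * c ^ m * (Real.exp (ν / 2 * (N ^ 2 * t)) * Real.exp (-(ν * (N ^ 2 * t)))) := by ring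
    _ = C * c ^ m * ev (ν / 2) N t := by
        rw [← Real.exp_add]
        unfold ev
        congr 2
        ring

/-- the partial derivatives of a product -/
theorem fderiv_mul_ev {u v : E3 → ℝ} {x : E3} (hu : DifferentiableAt ℝ u x)
    (hv : DifferentiableAt ℝ v x) (j : Fin 3) :
    fderiv ℝ (fun y => u y * v y) x (H772R2.NS.ev j) = fderiv ℝ u x (H772R2.NS.ev j) * v x
      + u x * fderiv ℝ v x (H772R2.NS.ev j) := by
  rw [fderiv_fun_mul hu hv]
  simp only [add_apply, smul_apply, smul_eq_mul]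
  ring

theorem fderiv_cos (hφ : ContDiff ℝ ∞ φ) (k N : ℝ) (x : E3) (j : Fin 3) :
    fderiv ℝ (fun y => Real.cos (k * (N * φ y))) x (H772R2.NS.ev j)
      = -(k * (N * (Real.sin (k * (N * φ x)) * pd j φ x))) := by
  have h1 : HasFDerivAt φ (fderiv ℝ φ x) x := ((hφ.differentiable (by simp)) x).hasFDerivAt
  have h2 : HasFDerivAt (fun y => k * (N * φ y)) (k • (N • fderiv ℝ φ x)) x :=
    (h1.const_mul N).const_mul k
  have h3 := (h2.cos).fderiv
  rw [h3]
  simp only [smul_apply, smul_eq_mul, pd]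
  ring

theorem fderiv_sin (hφ : ContDiff ℝ ∞ φ) (k N : ℝ) (x : E3) (j : Fin 3) :
    fderiv ℝ (fun y => Real.sin (k * (N * φ y))) x (H772R2.NS.ev j)
      = k * (N * (Real.cos (k * (N * φ x)) * pd j φ x)) := by
  have h1 : HasFDerivAt φ (fderiv ℝ φ x) x := ((hφ.differentiable (by simp)) x).hasFDerivAt
  have h2 : HasFDerivAt (fun y => k * (N * φ y)) (k • (N • fderiv ℝ φ x)) x :=
    (h1.const_mul N).const_mul k
  have h3 := (h2.sin).fderiv
  rw [h3]
  simp only [smul_apply, smul_eq_mul, pd]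
  ring

theorem da_cos (hφ : ContDiff ℝ ∞ φ) (k N : ℝ) (x : E3) :
    DifferentiableAt ℝ (fun y => Real.cos (k * (N * φ y))) x :=
  ((Real.contDiff_cos.comp (contDiff_const.mul (contDiff_const.mul hφ)) : ContDiff ℝ ∞
    (fun y => Real.cos (k * (N * φ y)))).differentiable (by simp)) x

theorem da_sin (hφ : ContDiff ℝ ∞ φ) (k N : ℝ) (x : E3) :
    DifferentiableAt ℝ (fun y => Real.sin (k * (N * φ y))) x :=
  ((Real.contDiff_sin.comp (contDiff_const.mul (contDiff_const.mul hφ)) : ContDiff ℝ ∞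
    (fun y => Real.sin (k * (N * φ y)))).differentiable (by simp)) x

theorem Cl.dfx (hφ : ContDiff ℝ ∞ φ) (h : Cl ν φ K f) (N t : ℝ) (x : E3) :
    DifferentiableAt ℝ (f N t) x := ((h.cdx hφ N t).differentiable (by simp)) x

theorem Cl.dft (hφ : ContDiff ℝ ∞ φ) (h : Cl ν φ K f) (N t : ℝ) (x : E3) :
    DifferentiableAt ℝ (fun s => f N s x) t := ((h.cdt hφ N x).differentiable (by simp)) t

/-- the space derivative -/
theorem Cl.dx (hφ : ContDiff ℝ ∞ φ) (hK : IsClosed K) (h : Cl ν φ K f) (j : Fin 3) :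
    ∃ f', Cl ν φ K f' ∧ ∀ N, N ≠ 0 → ∀ t x, dx j f N t x = N * f' N t x := by
  induction h with
  | @base a ha =>
    refine ⟨_, (Cl.base (ha.pd hK j)).minv, fun N hN t x => ?_⟩
    unfold DN.dx
    rw [fderiv_const_mul ((ha.smooth.differentiable (by simp)) x)]
    simp only [smul_apply, smul_eq_mul, DN.pd]
    field_simp
  | @mtau f hf ih =>
    obtain ⟨f', h1, h2⟩ := ih
    refine ⟨_, h1.mtau, fun N hN t x => ?_⟩
    have h3 := h2 N hN t x
    unfold DN.dx at h3 ⊢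
    rw [fderiv_const_mul (hf.dfx hφ N t x)]
    simp only [smul_apply, smul_eq_mul]
    rw [h3]
    ring
  | @mexp μ hμ f hf ih =>
    obtain ⟨f', h1, h2⟩ := ih
    refine ⟨_, h1.mexp μ hμ, fun N hN t x => ?_⟩
    have h3 := h2 N hN t x
    unfold DN.dx at h3 ⊢
    rw [fderiv_const_mul (hf.dfx hφ N t x)]
    simp only [smul_apply, smul_eq_mul]
    rw [h3]
    ring
  | @mcos k f hf ih =>
    obtain ⟨f', h1, h2⟩ := ih
    refine ⟨_, (h1.mcos k).sub (((hf.msin k).stat (cd_pd hφ j)).smul k), fun N hN t x => ?_⟩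
    have h3 := h2 N hN t x
    unfold DN.dx at h3 ⊢
    rw [fderiv_mul_ev (da_cos hφ k N x) (hf.dfx hφ N t x), fderiv_cos hφ, h3]
    ring
  | @msin k f hf ih =>
    obtain ⟨f', h1, h2⟩ := ih
    refine ⟨_, (h1.msin k).add (((hf.mcos k).stat (cd_pd hφ j)).smul k), fun N hN t x => ?_⟩
    have h3 := h2 N hN t x
    unfold DN.dx at h3 ⊢
    rw [fderiv_mul_ev (da_sin hφ k N x) (hf.dfx hφ N t x), fderiv_sin hφ, h3]
    ring
  | @minv f hf ih =>
    obtain ⟨f', h1, h2⟩ := ih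
    refine ⟨_, h1.minv, fun N hN t x => ?_⟩
    have h3 := h2 N hN t x
    unfold DN.dx at h3 ⊢
    rw [fderiv_const_mul (hf.dfx hφ N t x)]
    simp only [smul_apply, smul_eq_mul]
    rw [h3]
    ring
  | @add f g hf hg ih1 ih2 =>
    obtain ⟨f', h1, h2⟩ := ih1
    obtain ⟨g', k1, k2⟩ := ih2
    refine ⟨_, h1.add k1, fun N hN t x => ?_⟩
    have h3 := h2 N hN t x
    have k3 := k2 N hN t x
    unfold DN.dx at h3 k3 ⊢
    rw [fderiv_fun_add (hf.dfx hφ N t x) (hg.dfx hφ N t x)]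
    simp only [add_apply]
    rw [h3, k3]
    ring

theorem deriv_ex (μ N t : ℝ) : HasDerivAt (fun s => Real.exp (-(μ * (N ^ 2 * s))))
    (-(μ * N ^ 2) * Real.exp (-(μ * (N ^ 2 * t)))) t := by
  have h1 : HasDerivAt (fun s : ℝ => μ * (N ^ 2 * s)) (μ * (N ^ 2 * 1)) t :=
    ((hasDerivAt_id' t).const_mul _).const_mul _
  have h2 : HasDerivAt (fun s : ℝ => -(μ * (N ^ 2 * s))) (-(μ * (N ^ 2 * 1))) t := h1.neg
  refine h2.exp.congr_deriv ?_
  ring

/-- the time derivative -/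
theorem Cl.dt (hφ : ContDiff ℝ ∞ φ) (h : Cl ν φ K f) :
    ∃ f', Cl ν φ K f' ∧ ∀ N t x, dt f N t x = N ^ 2 * f' N t x := by
  induction h with
  | @base a ha =>
    refine ⟨_, (Cl.base ha).smul (-ν), fun N t x => ?_⟩
    unfold DN.dt
    rw [((deriv_ex ν N t).mul_const (a x)).deriv]
    ring
  | @mtau f hf ih =>
    obtain ⟨f', h1, h2⟩ := ih
    refine ⟨_, hf.add h1.mtau, fun N t x => ?_⟩
    have h3 := h2 N t x
    unfold DN.dt at h3 ⊢
    have h4 : HasDerivAt (fun s : ℝ => N ^ 2 * s) (N ^ 2 * 1) t := (hasDerivAt_id' t).const_mul _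
    have h5 : HasDerivAt (fun s : ℝ => N ^ 2 * s * f N s x) _ t :=
      h4.mul (hf.dft hφ N t x).hasDerivAt
    refine h5.deriv.trans ?_
    rw [h3]
    ring
  | @mexp μ hμ f hf ih =>
    obtain ⟨f', h1, h2⟩ := ih
    refine ⟨_, (h1.mexp μ hμ).sub ((hf.mexp μ hμ).smul μ), fun N t x => ?_⟩
    have h3 := h2 N t x
    unfold DN.dt at h3 ⊢
    have h5 : HasDerivAt (fun s : ℝ => Real.exp (-(μ * (N ^ 2 * s))) * f N s x) _ t :=
      (deriv_ex μ N t).mul (hf.dft hφ N t x).hasDerivAt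
    refine h5.deriv.trans ?_
    rw [h3]
    ring
  | @mcos k f hf ih =>
    obtain ⟨f', h1, h2⟩ := ih
    refine ⟨_, h1.mcos k, fun N t x => ?_⟩
    have h3 := h2 N t x
    unfold DN.dt at h3 ⊢
    rw [((hf.dft hφ N t x).hasDerivAt.const_mul _).deriv, h3]
    ring
  | @msin k f hf ih =>
    obtain ⟨f', h1, h2⟩ := ih
    refine ⟨_, h1.msin k, fun N t x => ?_⟩
    have h3 := h2 N t x
    unfold DN.dt at h3 ⊢
    rw [((hf.dft hφ N t x).hasDerivAt.const_mul _).deriv, h3]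
    ring
  | @minv f hf ih =>
    obtain ⟨f', h1, h2⟩ := ih
    refine ⟨_, h1.minv, fun N t x => ?_⟩
    have h3 := h2 N t x
    unfold DN.dt at h3 ⊢
    rw [((hf.dft hφ N t x).hasDerivAt.const_mul _).deriv, h3]
    ring
  | @add f g hf hg ih1 ih2 =>
    obtain ⟨f', h1, h2⟩ := ih1
    obtain ⟨g', k1, k2⟩ := ih2
    refine ⟨_, h1.add k1, fun N t x => ?_⟩
    have h3 := h2 N t x
    have k3 := k2 N t x
    unfold DN.dt at h3 k3 ⊢
    have h5 : HasDerivAt (fun s : ℝ => f N s x + g N s x) _ t :=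
      (hf.dft hφ N t x).hasDerivAt.add (hg.dft hφ N t x).hasDerivAt
    refine h5.deriv.trans ?_
    rw [h3, k3]
    ring

end Pool.Agent.J4H18.DN
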