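import Pool.Agent.J4H18.DN.B1

/-!
The class of oscillating functions: orders of magnitude.
-/

set_option autoImplicit false
set_option linter.unusedSectionVars false

open MeasureTheory Set Filter Topology
open scoped InnerProductSpace ENNReal ContDiff NNReal

namespace Pool.Agent.J4H18.DN

open H772R2.NS


/-- `f` is of order `N ^ k` -/
def BO (ν : ℝ) (φ : E3 → ℝ) (K : Set E3) (k : ℤ) (f : Fun3) : Prop :=
  ∃ r, Cl ν φ K r ∧ ∀ N, 1 ≤ N → ∀ t x, f N t x = N ^ k * r N t x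

variable {ν : ℝ} {φ : E3 → ℝ} {K : Set E3} {f g : Fun3} {a b : E3 → ℝ} {k l : ℤ}

theorem BO.congr (h : BO ν φ K k f) (e : ∀ N, 1 ≤ N → ∀ t x, g N t x = f N t x) :
    BO ν φ K k g := by
  obtain ⟨r, h1, h2⟩ := h
  exact ⟨r, h1, fun N hN t x => by rw [e N hN t x, h2 N hN t x]⟩

theorem Cl.bo (h : Cl ν φ K f) : BO ν φ K 0 f := ⟨f, h, fun N _ t x => by simp⟩

theorem BO.zero : BO ν φ K k (fun _ _ _ => 0) := ⟨_, Cl.zero, fun N _ t x => by simp⟩

theorem BO.add (h : BO ν φ K k f) (h' : BO ν φ K k g) :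
    BO ν φ K k (fun N t x => f N t x + g N t x) := by
  obtain ⟨r, h1, h2⟩ := h
  obtain ⟨s, k1, k2⟩ := h'
  exact ⟨_, h1.add k1, fun N hN t x => by simp only [h2 N hN t x, k2 N hN t x]; ring⟩

theorem BO.stat (h : BO ν φ K k f) (hb : ContDiff ℝ ∞ b) :
    BO ν φ K k (fun N t x => b x * f N t x) := by
  obtain ⟨r, h1, h2⟩ := h
  exact ⟨_, h1.stat hb, fun N hN t x => by simp only [h2 N hN t x]; ring⟩

theorem BO.smul (h : BO ν φ K k f) (c : ℝ) : BO ν φ K k (fun N t x => c * f N t x) :=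
  h.stat contDiff_const

theorem BO.neg (h : BO ν φ K k f) : BO ν φ K k (fun N t x => -f N t x) :=
  (h.smul (-1)).congr fun N _ t x => by ring

theorem BO.sub (h : BO ν φ K k f) (h' : BO ν φ K k g) :
    BO ν φ K k (fun N t x => f N t x - g N t x) :=
  (h.add h'.neg).congr fun N _ t x => by ring

theorem BO.up (h : BO ν φ K k f) : BO ν φ K (k + 1) f := by
  obtain ⟨r, h1, h2⟩ := h
  refine ⟨_, h1.minv, fun N hN t x => ?_⟩
  have hN0 : N ≠ 0 := by linarith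
  rw [h2 N hN t x, zpow_add₀ hN0, zpow_one]
  field_simp

theorem BO.ups (h : BO ν φ K k f) (n : ℕ) : BO ν φ K (k + n) f := by
  induction n with
  | zero => simpa using h
  | succ n ih =>
    have := ih.up
    have e : k + (n : ℤ) + 1 = k + ((n + 1 : ℕ) : ℤ) := by push_cast; ring
    rwa [e] at this

theorem BO.mono (h : BO ν φ K k f) (hkl : k ≤ l) : BO ν φ K l f := by
  have := h.ups (l - k).toNat
  have e : k + ((l - k).toNat : ℤ) = l := by omega
  rwa [e] at this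

theorem BO.mulN (h : BO ν φ K k f) (n : ℕ) : BO ν φ K (k + n) (fun N t x => N ^ n * f N t x) := by
  obtain ⟨r, h1, h2⟩ := h
  refine ⟨_, h1, fun N hN t x => ?_⟩
  have hN0 : N ≠ 0 := by linarith
  simp only [h2 N hN t x]
  rw [zpow_add₀ hN0, zpow_natCast]
  ring

theorem BO.mulN' (h : BO ν φ K k f) (n : ℕ) (hl : k + n ≤ l) :
    BO ν φ K l (fun N t x => N ^ n * f N t x) := (h.mulN n).mono hl

theorem BO.invN (h : BO ν φ K k f) : BO ν φ K (k - 1) (fun N t x => N⁻¹ * f N t x) := by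
  obtain ⟨r, h1, h2⟩ := h
  refine ⟨_, h1, fun N hN t x => ?_⟩
  have hN0 : N ≠ 0 := by linarith
  simp only [h2 N hN t x]
  rw [zpow_sub₀ hN0, zpow_one]
  field_simp

theorem BO.mul (hν : 0 ≤ ν) (h : BO ν φ K k f) (h' : BO ν φ K l g) :
    BO ν φ K (k + l) (fun N t x => f N t x * g N t x) := by
  obtain ⟨r, h1, h2⟩ := h
  obtain ⟨s, k1, k2⟩ := h'
  refine ⟨_, h1.mul hν k1, fun N hN t x => ?_⟩
  have hN0 : N ≠ 0 := by linarith
  simp only [h2 N hN t x, k2 N hN t x]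
  rw [zpow_add₀ hN0]
  ring

theorem BO.mul' (hν : 0 ≤ ν) (h : BO ν φ K k f) (h' : BO ν φ K l g) {n : ℤ} (hn : k + l ≤ n) :
    BO ν φ K n (fun N t x => f N t x * g N t x) := (h.mul hν h').mono hn

theorem BO.sum {ι : Type} (s : Finset ι) {F : ι → Fun3} (h : ∀ i ∈ s, BO ν φ K k (F i)) :
    BO ν φ K k (fun N t x => ∑ i ∈ s, F i N t x) := by
  classical
  induction s using Finset.induction_on with
  | empty => exact BO.zero.congr fun N _ t x => by simp
  | insert i s hi ih =>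
    refine ((h i (Finset.mem_insert_self i s)).add
      (ih fun j hj => h j (Finset.mem_insert_of_mem hj))).congr fun N _ t x => ?_
    rw [Finset.sum_insert hi]

theorem BO.cd (hφ : ContDiff ℝ ∞ φ) (h : BO ν φ K k f) {N : ℝ} (hN : 1 ≤ N) :
    ContDiff ℝ ∞ (fun p : ℝ × E3 => f N p.1 p.2) := by
  obtain ⟨r, h1, h2⟩ := h
  have e : (fun p : ℝ × E3 => f N p.1 p.2) = fun p => N ^ k * r N p.1 p.2 := by
    funext p
    exact h2 N hN _ _
  rw [e]
  exact contDiff_const.mul (h1.smooth hφ N)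

theorem BO.cdx (hφ : ContDiff ℝ ∞ φ) (h : BO ν φ K k f) {N : ℝ} (hN : 1 ≤ N) (t : ℝ) :
    ContDiff ℝ ∞ (f N t) :=
  (h.cd hφ hN).comp (f := fun x : E3 => ((t, x) : ℝ × E3)) (contDiff_const.prodMk contDiff_id)

theorem BO.cdt (hφ : ContDiff ℝ ∞ φ) (h : BO ν φ K k f) {N : ℝ} (hN : 1 ≤ N) (x : E3) :
    ContDiff ℝ ∞ (fun t => f N t x) :=
  (h.cd hφ hN).comp (f := fun t : ℝ => ((t, x) : ℝ × E3)) (contDiff_id.prodMk contDiff_const)

theorem BO.dfx (hφ : ContDiff ℝ ∞ φ) (h : BO ν φ K k f) {N : ℝ} (hN : 1 ≤ N) (t : ℝ) (x : E3) :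
    DifferentiableAt ℝ (f N t) x := ((h.cdx hφ hN t).differentiable (by simp)) x

theorem BO.dft (hφ : ContDiff ℝ ∞ φ) (h : BO ν φ K k f) {N : ℝ} (hN : 1 ≤ N) (t : ℝ) (x : E3) :
    DifferentiableAt ℝ (fun s => f N s x) t := ((h.cdt hφ hN x).differentiable (by simp)) t

theorem BO.off (h : BO ν φ K k f) {N : ℝ} (hN : 1 ≤ N) (t : ℝ) {x : E3} (hx : x ∉ K) :
    f N t x = 0 := by
  obtain ⟨r, h1, h2⟩ := h
  rw [h2 N hN t x, h1.off N t hx, mul_zero]

theorem BO.dx (hφ : ContDiff ℝ ∞ φ) (hK : IsClosed K) (h : BO ν φ K k f) (j : Fin 3) :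
    BO ν φ K (k + 1) (dx j f) := by
  obtain ⟨r, h1, h2⟩ := h
  obtain ⟨r', k1, k2⟩ := h1.dx hφ hK j
  refine ⟨r', k1, fun N hN t x => ?_⟩
  have hN0 : N ≠ 0 := by linarith
  have e : f N t = fun y => N ^ k * r N t y := by
    funext y
    exact h2 N hN t y
  have e2 := k2 N hN0 t x
  unfold DN.dx at e2 ⊢
  rw [e, fderiv_const_mul (h1.dfx hφ N t x)]
  simp only [smul_apply, smul_eq_mul]
  rw [e2, zpow_add₀ hN0, zpow_one]
  ring

theorem BO.dt (hφ : ContDiff ℝ ∞ φ) (h : BO ν φ K k f) : BO ν φ K (k + 2) (dt f) := by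
  obtain ⟨r, h1, h2⟩ := h
  obtain ⟨r', k1, k2⟩ := h1.dt hφ
  refine ⟨r', k1, fun N hN t x => ?_⟩
  have hN0 : N ≠ 0 := by linarith
  have e : (fun s => f N s x) = fun s => N ^ k * r N s x := by
    funext s
    exact h2 N hN s x
  have e2 := k2 N t x
  unfold DN.dt at e2 ⊢
  rw [e, ((h1.dft hφ N t x).hasDerivAt.const_mul _).deriv, e2, zpow_add₀ hN0]
  norm_cast
  ring

theorem BO.bound (hν : 0 < ν) (hK : IsCompact K) (h : BO ν φ K k f) : ∃ C : ℝ, 0 ≤ C ∧
    ∀ N, 1 ≤ N → ∀ t, 0 ≤ t → ∀ x, |f N t x| ≤ C * N ^ k * ev (ν / 2) N t := by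
  obtain ⟨r, h1, h2⟩ := h
  obtain ⟨C, hC, h3⟩ := h1.bound hν hK
  refine ⟨C, hC, fun N hN t ht x => ?_⟩
  have hN0 : 0 < N := by linarith
  have hNk : 0 < N ^ k := zpow_pos hN0 k
  rw [h2 N hN t x, abs_mul, abs_of_pos hNk]
  calc N ^ k * |r N t x| ≤ N ^ k * (C * ev (ν / 2) N t) := by
        have := h3 N hN t ht x
        gcongr
    _ = _ := by ring

theorem BO.lip (hφ : ContDiff ℝ ∞ φ) (hν : 0 < ν) (hK : IsCompact K) (h : BO ν φ K k f) :
    ∃ C : ℝ, 0 ≤ C ∧ ∀ N, 1 ≤ N → ∀ s, 0 ≤ s → ∀ t, s ≤ t → ∀ x,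
      |f N t x - f N s x| ≤ C * N ^ (k + 2) * (t - s) * ev (ν / 2) N s := by
  obtain ⟨C, hC, h3⟩ := (h.dt hφ).bound hν hK
  refine ⟨C, hC, fun N hN s hs t hst x => ?_⟩
  have hN0 : 0 < N := by linarith
  have h1 : ∀ r ∈ Icc s t, HasDerivWithinAt (fun r => f N r x) (DN.dt f N r x) (Icc s t) r :=
    fun r _ => (h.dft hφ hN r x).hasDerivAt.hasDerivWithinAt
  have h2 : ∀ r ∈ Ico s t, ‖DN.dt f N r x‖ ≤ C * N ^ (k + 2) * ev (ν / 2) N s := by
    intro r hr
    refine (h3 N hN r (hs.trans hr.1) x).trans ?_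
    have := ev_anti (N := N) (δ := ν / 2) (by positivity) hr.1
    gcongr
  have h4 := norm_image_sub_le_of_norm_deriv_le_segment' h1 h2 t ⟨hst, le_rfl⟩
  rw [Real.norm_eq_abs] at h4
  refine h4.trans (le_of_eq ?_)
  ring

/-! ### rules -/

theorem dx_add {N : ℝ} {t : ℝ} {x : E3} (j : Fin 3) (hf : DifferentiableAt ℝ (f N t) x)
    (hg : DifferentiableAt ℝ (g N t) x) :
    dx j (fun N t x => f N t x + g N t x) N t x = dx j f N t x + dx j g N t x := by
  unfold dx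
  rw [fderiv_fun_add hf hg]
  simp only [add_apply]

theorem dx_sub {N : ℝ} {t : ℝ} {x : E3} (j : Fin 3) (hf : DifferentiableAt ℝ (f N t) x)
    (hg : DifferentiableAt ℝ (g N t) x) :
    dx j (fun N t x => f N t x - g N t x) N t x = dx j f N t x - dx j g N t x := by
  unfold dx
  rw [fderiv_fun_sub hf hg]
  simp only [sub_apply]

theorem dx_mul {N : ℝ} {t : ℝ} {x : E3} (j : Fin 3) (hf : DifferentiableAt ℝ (f N t) x)
    (hg : DifferentiableAt ℝ (g N t) x) :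
    dx j (fun N t x => f N t x * g N t x) N t x
      = dx j f N t x * g N t x + f N t x * dx j g N t x := by
  unfold dx
  exact fderiv_mul_ev hf hg j

theorem dx_stat {N : ℝ} {t : ℝ} {x : E3} (j : Fin 3) (hb : ContDiff ℝ ∞ b)
    (hg : DifferentiableAt ℝ (g N t) x) :
    dx j (fun N t x => b x * g N t x) N t x = pd j b x * g N t x + b x * dx j g N t x := by
  unfold dx
  exact fderiv_mul_ev ((hb.differentiable (by simp)) x) hg j

theorem dx_cN {N : ℝ} {t : ℝ} {x : E3} (j : Fin 3) (c : ℝ → ℝ)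
    (hg : DifferentiableAt ℝ (g N t) x) :
    dx j (fun N t x => c N * g N t x) N t x = c N * dx j g N t x := by
  unfold dx
  rw [fderiv_const_mul hg]
  simp only [smul_apply, smul_eq_mul]

theorem dt_add {N : ℝ} {t : ℝ} {x : E3} (hf : DifferentiableAt ℝ (fun s => f N s x) t)
    (hg : DifferentiableAt ℝ (fun s => g N s x) t) :
    dt (fun N t x => f N t x + g N t x) N t x = dt f N t x + dt g N t x := by
  have h : HasDerivAt (fun s => f N s x + g N s x) (dt f N t x + dt g N t x) t :=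
    hf.hasDerivAt.add hg.hasDerivAt
  exact h.deriv

theorem dt_sub {N : ℝ} {t : ℝ} {x : E3} (hf : DifferentiableAt ℝ (fun s => f N s x) t)
    (hg : DifferentiableAt ℝ (fun s => g N s x) t) :
    dt (fun N t x => f N t x - g N t x) N t x = dt f N t x - dt g N t x := by
  have h : HasDerivAt (fun s => f N s x - g N s x) (dt f N t x - dt g N t x) t :=
    hf.hasDerivAt.sub hg.hasDerivAt
  exact h.deriv

theorem dt_cN {N : ℝ} {t : ℝ} {x : E3} (c : ℝ → ℝ) (hg : DifferentiableAt ℝ (fun s => g N s x) t) :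
    dt (fun N t x => c N * g N t x) N t x = c N * dt g N t x :=
  (hg.hasDerivAt.const_mul _).deriv

theorem dt_stat {N : ℝ} {t : ℝ} {x : E3} (hg : DifferentiableAt ℝ (fun s => g N s x) t) :
    dt (fun N t x => b x * g N t x) N t x = b x * dt g N t x :=
  (hg.hasDerivAt.const_mul _).deriv

end Pool.Agent.J4H18.DN
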