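import Pool.Agent.J4H18.DN.B2

/-!
Harmonic terms: profiles times `f cos (k N φ) + g sin (k N φ)`.
-/

set_option autoImplicit false
set_option linter.unusedSectionVars false

open MeasureTheory Set Filter Topology
open scoped InnerProductSpace ENNReal ContDiff NNReal

namespace Pool.Agent.J4H18.DN

open H772R2.NS


variable {ν : ℝ} {φ : E3 → ℝ} {K S : Set E3} {a b f g : E3 → ℝ} {p p' : ℝ → ℝ} {k : ℝ}

theorem pd_mul (ha : ContDiff ℝ ∞ a) (hb : ContDiff ℝ ∞ b) (j : Fin 3) (x : E3) :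
    pd j (fun x => a x * b x) x = pd j a x * b x + a x * pd j b x :=
  fderiv_mul_ev ((ha.differentiable (by simp)) x) ((hb.differentiable (by simp)) x) j

theorem pd_add (ha : ContDiff ℝ ∞ a) (hb : ContDiff ℝ ∞ b) (j : Fin 3) (x : E3) :
    pd j (fun x => a x + b x) x = pd j a x + pd j b x := by
  unfold pd
  rw [fderiv_fun_add ((ha.differentiable (by simp)) x) ((hb.differentiable (by simp)) x)]
  simp only [add_apply]

theorem pd_neg (j : Fin 3) (x : E3) : pd j (fun x => -a x) x = -pd j a x := by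
  unfold pd
  rw [fderiv_fun_neg]
  simp only [neg_apply]

theorem pd_sub (ha : ContDiff ℝ ∞ a) (hb : ContDiff ℝ ∞ b) (j : Fin 3) (x : E3) :
    pd j (fun x => a x - b x) x = pd j a x - pd j b x := by
  unfold pd
  rw [fderiv_fun_sub ((ha.differentiable (by simp)) x) ((hb.differentiable (by simp)) x)]
  simp only [sub_apply]

theorem pd_smul (ha : ContDiff ℝ ∞ a) (c : ℝ) (j : Fin 3) (x : E3) :
    pd j (fun x => c * a x) x = c * pd j a x := by
  unfold pd
  rw [fderiv_const_mul ((ha.differentiable (by simp)) x)]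
  simp only [smul_apply, smul_eq_mul]

theorem pd_sum {ι : Type} (s : Finset ι) {F : ι → E3 → ℝ} (h : ∀ i ∈ s, ContDiff ℝ ∞ (F i))
    (j : Fin 3) (x : E3) : pd j (fun x => ∑ i ∈ s, F i x) x = ∑ i ∈ s, pd j (F i) x := by
  unfold pd
  rw [fderiv_fun_sum fun i hi => ((h i hi).differentiable (by simp)) x]
  simp only [sum_apply]

theorem pd_comm (ha : ContDiff ℝ ∞ a) (i j : Fin 3) (x : E3) :
    pd i (pd j a) x = pd j (pd i a) x := by
  have h1 : ∀ (u v : E3), fderiv ℝ (fun y => fderiv ℝ a y u) x v = fderiv ℝ (fderiv ℝ a) x v u := by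
    intro u v
    have h2 : DifferentiableAt ℝ (fderiv ℝ a) x :=
      ((ha.fderiv_right (m := ∞) (by simp)).differentiable (by simp)) x
    rw [fderiv_clm_apply h2 (differentiableAt_const u)]
    simp
  unfold pd
  rw [h1, h1]
  have h3 : ContDiffAt ℝ 2 a x := by
    have := contDiff_infty.1 ha 2
    exact this.contDiffAt
  exact (h3.isSymmSndFDerivAt (by simp)).eq _ _

theorem Amp.sub (ha : Amp K a) (hb : Amp K b) : Amp K (fun x => a x - b x) :=
  ⟨ha.smooth.sub hb.smooth, fun x hx => by rw [ha.off x hx, hb.off x hx, sub_zero]⟩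

theorem Amp.smul (ha : Amp K a) (c : ℝ) : Amp K (fun x => c * a x) := ha.stat contDiff_const

theorem Amp.sum {ι : Type} (s : Finset ι) {F : ι → E3 → ℝ} (h : ∀ i ∈ s, Amp K (F i)) :
    Amp K (fun x => ∑ i ∈ s, F i x) :=
  ⟨ContDiff.sum fun i hi => (h i hi).smooth, fun x hx => Finset.sum_eq_zero fun i hi =>
    (h i hi).off x hx⟩

theorem Amp.mulr (ha : Amp K a) (hb : ContDiff ℝ ∞ b) : Amp K (fun x => a x * b x) :=
  ⟨ha.smooth.mul hb, fun x hx => by rw [ha.off x hx, zero_mul]⟩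

/-- time profiles -/
structure Pf (ν : ℝ) (p p' : ℝ → ℝ) : Prop where
  der : ∀ τ, HasDerivAt p (p' τ) τ
  cl : ∀ (φ : E3 → ℝ) (K : Set E3) (a : E3 → ℝ), Amp K a →
    Cl ν φ K (fun N t x => p (N ^ 2 * t) * a x)

/-- harmonic terms -/
noncomputable def Tm (φ : E3 → ℝ) (p : ℝ → ℝ) (k : ℝ) (f g : E3 → ℝ) : Fun3 := fun N t x =>
  p (N ^ 2 * t) * (f x * Real.cos (k * (N * φ x)) + g x * Real.sin (k * (N * φ x)))

theorem Tm_cl (hp : Pf ν p p') (hf : Amp K f) (hg : Amp K g) : Cl ν φ K (Tm φ p k f g) :=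
  (((hp.cl φ K f hf).mcos k).add ((hp.cl φ K g hg).msin k)).congr fun N t x => by
    unfold Tm
    ring

theorem Tm_dt (hp : ∀ τ, HasDerivAt p (p' τ) τ) (N t : ℝ) (x : E3) :
    dt (Tm φ p k f g) N t x = N ^ 2 * Tm φ p' k f g N t x := by
  have h1 : HasDerivAt (fun s : ℝ => N ^ 2 * s) (N ^ 2 * 1) t := (hasDerivAt_id' t).const_mul _
  have h2 : HasDerivAt (fun s : ℝ => p (N ^ 2 * s)) (p' (N ^ 2 * t) * (N ^ 2 * 1)) t :=
    (hp (N ^ 2 * t)).comp t h1
  have h3 := (h2.mul_const (f x * Real.cos (k * (N * φ x)) + g x * Real.sin (k * (N * φ x)))).deriv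
  unfold dt Tm
  rw [h3]
  ring

theorem Tm_cdx (hφ : ContDiff ℝ ∞ φ) (hf : ContDiff ℝ ∞ f) (hg : ContDiff ℝ ∞ g) (N t : ℝ) :
    ContDiff ℝ ∞ (Tm φ p k f g N t) := by
  have h1 : ContDiff ℝ ∞ (fun x => k * (N * φ x)) := contDiff_const.mul (contDiff_const.mul hφ)
  exact contDiff_const.mul ((hf.mul (Real.contDiff_cos.comp h1)).add
    (hg.mul (Real.contDiff_sin.comp h1)))

theorem Tm_df (hφ : ContDiff ℝ ∞ φ) (hf : ContDiff ℝ ∞ f) (hg : ContDiff ℝ ∞ g) (N t : ℝ)
    (x : E3) : DifferentiableAt ℝ (Tm φ p k f g N t) x :=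
  ((Tm_cdx hφ hf hg N t).differentiable (by simp)) x

theorem Tm_dx (hφ : ContDiff ℝ ∞ φ) (hf : ContDiff ℝ ∞ f) (hg : ContDiff ℝ ∞ g) (j : Fin 3)
    (N t : ℝ) (x : E3) :
    dx j (Tm φ p k f g) N t x = Tm φ p k (pd j f) (pd j g) N t x
      + k * N * Tm φ p k (fun x => pd j φ x * g x) (fun x => -(pd j φ x * f x)) N t x := by
  have dfx : DifferentiableAt ℝ f x := (hf.differentiable (by simp)) x
  have dgx : DifferentiableAt ℝ g x := (hg.differentiable (by simp)) x
  have hc := da_cos hφ k N x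
  have hs := da_sin hφ k N x
  have e1 : fderiv ℝ (fun y => f y * Real.cos (k * (N * φ y)) + g y * Real.sin (k * (N * φ y))) x
      (H772R2.NS.ev j) = (fderiv ℝ f x (H772R2.NS.ev j) * Real.cos (k * (N * φ x))
        + f x * -(k * (N * (Real.sin (k * (N * φ x)) * pd j φ x))))
        + (fderiv ℝ g x (H772R2.NS.ev j) * Real.sin (k * (N * φ x))
        + g x * (k * (N * (Real.cos (k * (N * φ x)) * pd j φ x)))) := by
    rw [fderiv_fun_add (dfx.fun_mul hc) (dgx.fun_mul hs)]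
    simp only [add_apply]
    rw [fderiv_mul_ev dfx hc, fderiv_mul_ev dgx hs, fderiv_cos hφ, fderiv_sin hφ]
  unfold dx Tm
  rw [fderiv_const_mul ((dfx.fun_mul hc).fun_add (dgx.fun_mul hs))]
  simp only [smul_apply, smul_eq_mul]
  rw [e1]
  simp only [pd]
  ring

/-- the transport operator along the phase -/
noncomputable def Lo (φ f : E3 → ℝ) : E3 → ℝ := fun x =>
  2 * (∑ j, pd j φ x * pd j f x) + (∑ j, pd j (pd j φ) x) * f x

theorem Lo_cd (hφ : ContDiff ℝ ∞ φ) (hf : ContDiff ℝ ∞ f) : ContDiff ℝ ∞ (Lo φ f) := by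
  unfold Lo
  refine (contDiff_const.mul (ContDiff.sum fun j _ => (cd_pd hφ j).mul (cd_pd hf j))).add
    ((ContDiff.sum fun j _ => cd_pd (cd_pd hφ j) j).mul hf)

theorem Lo_amp (hφ : ContDiff ℝ ∞ φ) (hS : IsClosed S) (hf : Amp S f) : Amp S (Lo φ f) := by
  refine ⟨Lo_cd hφ hf.smooth, fun x hx => ?_⟩
  unfold Lo
  rw [hf.off x hx, mul_zero, add_zero]
  have : ∀ j, pd j f x = 0 := fun j => (hf.pd hS j).off x hx
  simp [this]

/-- the Laplace operator of functions of three variables -/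
noncomputable def lp (f : Fun3) : Fun3 := fun N t x => ∑ j, dx j (dx j f) N t x

theorem Tm_lp (hφ : ContDiff ℝ ∞ φ) (hf : ContDiff ℝ ∞ f) (hg : ContDiff ℝ ∞ g) (N t : ℝ) (x : E3)
    (h1 : (∑ j, pd j φ x * pd j φ x) * f x = f x) (h2 : (∑ j, pd j φ x * pd j φ x) * g x = g x) :
    lp (Tm φ p k f g) N t x = -(k ^ 2 * N ^ 2) * Tm φ p k f g N t x
      + k * N * Tm φ p k (Lo φ g) (fun x => -Lo φ f x) N t x
      + Tm φ p k (fun x => ∑ j, pd j (pd j f) x) (fun x => ∑ j, pd j (pd j g) x) N t x := by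
  have key : ∀ j : Fin 3, dx j (dx j (Tm φ p k f g)) N t x
      = Tm φ p k (pd j (pd j f)) (pd j (pd j g)) N t x
        + k * N * Tm φ p k (fun x => pd j φ x * pd j g x) (fun x => -(pd j φ x * pd j f x)) N t x
        + k * N * (Tm φ p k (fun x => pd j (pd j φ) x * g x + pd j φ x * pd j g x)
            (fun x => -(pd j (pd j φ) x * f x + pd j φ x * pd j f x)) N t x
          + k * N * Tm φ p k (fun x => pd j φ x * -(pd j φ x * f x))
              (fun x => -(pd j φ x * (pd j φ x * g x))) N t x) := by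
    intro j
    have e : dx j (Tm φ p k f g) = fun N t x => Tm φ p k (pd j f) (pd j g) N t x
        + k * N * Tm φ p k (fun x => pd j φ x * g x) (fun x => -(pd j φ x * f x)) N t x := by
      funext N t x
      exact Tm_dx hφ hf hg j N t x
    have c1 : ContDiff ℝ ∞ (fun x => pd j φ x * g x) := (cd_pd hφ j).mul hg
    have c2 : ContDiff ℝ ∞ (fun x => -(pd j φ x * f x)) := ((cd_pd hφ j).mul hf).neg
    have d1 := Tm_df (p := p) (k := k) hφ (cd_pd hf j) (cd_pd hg j) N t x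
    have d2 := Tm_df (p := p) (k := k) hφ c1 c2 N t x
    rw [e]
    have q1 := dx_add (f := Tm φ p k (pd j f) (pd j g)) (g := fun N t x => k * N
      * Tm φ p k (fun x => pd j φ x * g x) (fun x => -(pd j φ x * f x)) N t x) (N := N) (t := t)
      (x := x) j d1 (d2.const_mul _)
    have q2 := dx_cN (g := Tm φ p k (fun x => pd j φ x * g x) (fun x => -(pd j φ x * f x)))
      (N := N) (t := t) (x := x) j (fun N => k * N) d2
    rw [q1, q2, Tm_dx hφ (cd_pd hf j) (cd_pd hg j), Tm_dx hφ c1 c2]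
    have r1 : pd j (fun x => pd j φ x * g x) = fun x => pd j (pd j φ) x * g x
        + pd j φ x * pd j g x := by
      funext y
      exact pd_mul (cd_pd hφ j) hg j y
    have r2 : pd j (fun x => -(pd j φ x * f x)) = fun x => -(pd j (pd j φ) x * f x
        + pd j φ x * pd j f x) := by
      funext y
      rw [pd_neg, pd_mul (cd_pd hφ j) hf j y]
    rw [r1, r2]
  unfold lp
  rw [Finset.sum_congr rfl fun j _ => key j]
  simp only [Fin.sum_univ_three] at h1 h2 ⊢
  simp only [Tm, Lo, Fin.sum_univ_three]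
  linear_combination (-(k * N * (k * N) * p (N ^ 2 * t) * Real.cos (k * (N * φ x)))) * h1
    + (-(k * N * (k * N) * p (N ^ 2 * t) * Real.sin (k * (N * φ x)))) * h2

end Pool.Agent.J4H18.DN
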