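import Pool.Agent.J4H18.DN.B3

/-!
The data of the oscillating field.
-/

set_option autoImplicit false
set_option linter.unusedSectionVars false

open MeasureTheory Set Filter Topology
open scoped InnerProductSpace ENNReal ContDiff NNReal

namespace Pool.Agent.J4H18.DN

open H772R2.NS


/-- The data: a phase `φ` with `|∇φ| = 1` near `S`, tangential amplitudes `A`, `B` supported in `S`,
whose mean stress is the sum of a multiple of a divergence free field `h` supported in `S` and of a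
compactly supported pressure. -/
structure Dat (ν : ℝ) (φ : E3 → ℝ) (A B h : Fin 3 → E3 → ℝ) (P : E3 → ℝ) (S K : Set E3) :
    Prop where
  φs : ContDiff ℝ ∞ φ
  Sc : IsClosed S
  Kc : IsCompact K
  SK : S ⊆ K
  unit : ∃ O, IsOpen O ∧ S ⊆ O ∧ ∀ x ∈ O, ∑ j, pd j φ x * pd j φ x = 1
  Aa : ∀ i, Amp S (A i)
  Ba : ∀ i, Amp S (B i)
  tA : ∀ x, ∑ i, pd i φ x * A i x = 0
  tB : ∀ x, ∑ i, pd i φ x * B i x = 0
  ha : ∀ i, Amp S (h i)
  hd : ∀ x, ∑ i, pd i (h i) x = 0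
  Pa : Amp K P
  mean : ∀ i x, (1 / 2) * ((∑ j, (A j x * pd j (A i) x + pd j (A j) x * A i x))
    + ∑ j, (B j x * pd j (B i) x + pd j (B j) x * B i x)) = 2 * ν * h i x + pd i P x

/-- tangential families of amplitudes -/
structure Tan (φ : E3 → ℝ) (S : Set E3) (A : Fin 3 → E3 → ℝ) : Prop where
  a : ∀ i, Amp S (A i)
  t : ∀ x, ∑ i, pd i φ x * A i x = 0

/-- the phase -/
structure Ph (φ : E3 → ℝ) (S : Set E3) : Prop where
  φs : ContDiff ℝ ∞ φ
  Sc : IsClosed S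
  unit : ∃ O, IsOpen O ∧ S ⊆ O ∧ ∀ x ∈ O, ∑ j, pd j φ x * pd j φ x = 1

variable {ν : ℝ} {φ : E3 → ℝ} {A B h : Fin 3 → E3 → ℝ} {P : E3 → ℝ} {S K : Set E3}
  {f g : E3 → ℝ} {F G : Fin 3 → E3 → ℝ}

theorem Dat.ph (D : Dat ν φ A B h P S K) : Ph φ S := ⟨D.φs, D.Sc, D.unit⟩

theorem Dat.TA (D : Dat ν φ A B h P S K) : Tan φ S A := ⟨D.Aa, D.tA⟩

theorem Dat.TB (D : Dat ν φ A B h P S K) : Tan φ S B := ⟨D.Ba, D.tB⟩

theorem Ph.u1 (D : Ph φ S) {x : E3} (hx : x ∈ S) : ∑ j, pd j φ x * pd j φ x = 1 := by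
  obtain ⟨O, _, h2, h3⟩ := D.unit
  exact h3 x (h2 hx)

theorem Ph.u2 (D : Ph φ S) {x : E3} (hx : x ∈ S) (i : Fin 3) :
    ∑ j, pd j φ x * pd j (pd i φ) x = 0 := by
  obtain ⟨O, h1, h2, h3⟩ := D.unit
  have e1 : (fun x => ∑ j, pd j φ x * pd j φ x) =ᶠ[𝓝 x] fun _ => (1 : ℝ) := by
    filter_upwards [h1.mem_nhds (h2 hx)] with y hy using h3 y hy
  have e2 : pd i (fun x => ∑ j, pd j φ x * pd j φ x) x = 0 := by
    unfold pd at e1 ⊢
    rw [e1.fderiv_eq]
    simp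
  rw [pd_sum _ fun j _ => (cd_pd D.φs j).mul (cd_pd D.φs j)] at e2
  have e3 : ∀ j, pd i (fun x => pd j φ x * pd j φ x) x = 2 * (pd j φ x * pd j (pd i φ) x) := by
    intro j
    rw [pd_mul (cd_pd D.φs j) (cd_pd D.φs j), pd_comm D.φs i j]
    ring
  rw [Finset.sum_congr rfl fun j _ => e3 j, ← Finset.mul_sum] at e2
  linarith

theorem Ph.f1 (D : Ph φ S) (hf : Amp S f) (x : E3) : (∑ j, pd j φ x * pd j φ x) * f x = f x := by
  by_cases hx : x ∈ S
  · rw [D.u1 hx, one_mul]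
  · rw [hf.off x hx, mul_zero]

theorem Ph.f2 (D : Ph φ S) (hf : Amp S f) (i : Fin 3) (x : E3) :
    (∑ j, pd j φ x * pd j (pd i φ) x) * f x = 0 := by
  by_cases hx : x ∈ S
  · rw [D.u2 hx, zero_mul]
  · rw [hf.off x hx, mul_zero]

theorem Tan.d (D : Ph φ S) (T : Tan φ S F) (i : Fin 3) (x : E3) :
    ∑ j, (pd i (pd j φ) x * F j x + pd j φ x * pd i (F j) x) = 0 := by
  have e1 : (fun x => ∑ j, pd j φ x * F j x) = fun _ => 0 := funext T.t
  have e2 : pd i (fun x => ∑ j, pd j φ x * F j x) x = 0 := by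
    rw [e1]
    unfold pd
    simp
  rw [pd_sum _ fun j _ => (cd_pd D.φs j).mul (T.a j).smooth] at e2
  rw [← e2]
  refine Finset.sum_congr rfl fun j _ => ?_
  rw [pd_mul (cd_pd D.φs j) (T.a j).smooth]

/-- the first order part of the divergence of the potential -/
noncomputable def dd (φ : E3 → ℝ) (F : Fin 3 → E3 → ℝ) (i : Fin 3) : E3 → ℝ := fun x =>
  ∑ j, (pd j (pd j φ) x * F i x + pd j φ x * pd j (F i) x
    - (pd j (pd i φ) x * F j x + pd i φ x * pd j (F j) x))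

theorem dd_amp (D : Ph φ S) (T : Tan φ S F) (i : Fin 3) : Amp S (dd φ F i) := by
  have hφ := D.φs
  have hc : ∀ j, ContDiff ℝ ∞ (pd j φ) := fun j => cd_pd hφ j
  have := fun j : Fin 3 => (((T.a i).stat (cd_pd (hc j) j)).add (((T.a i).pd D.Sc j).stat (hc j))).sub
    (((T.a j).stat (cd_pd (hc i) j)).add (((T.a j).pd D.Sc j).stat (hc i)))
  exact Amp.sum _ fun j _ => this j

theorem dd_n (D : Ph φ S) (T : Tan φ S F) (x : E3) :
    ∑ i, pd i φ x * dd φ F i x = -∑ j, pd j (F j) x := by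
  by_cases hx : x ∈ S
  · have u1 := D.u1 hx
    have u2 := fun i => D.u2 hx i
    have d1 := fun i => T.d D i x
    have t1 := T.t x
    have s1 : pd 1 (pd 0 φ) x = pd 0 (pd 1 φ) x := pd_comm D.φs 1 0 x
    have s2 : pd 2 (pd 0 φ) x = pd 0 (pd 2 φ) x := pd_comm D.φs 2 0 x
    have s3 : pd 2 (pd 1 φ) x = pd 1 (pd 2 φ) x := pd_comm D.φs 2 1 x
    have a0 := u2 0
    have a1 := u2 1
    have a2 := u2 2
    have b0 := d1 0
    have b1 := d1 1
    have b2 := d1 2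
    simp only [dd, Fin.sum_univ_three] at u1 a0 a1 a2 b0 b1 b2 t1 ⊢
    simp only [s1, s2, s3] at a0 a1 a2 b0 b1 b2 ⊢
    linear_combination (-(pd 0 (F 0) x + pd 1 (F 1) x + pd 2 (F 2) x)) * u1
      + pd 0 φ x * b0 + pd 1 φ x * b1 + pd 2 φ x * b2
      + (pd 0 (pd 0 φ) x + pd 1 (pd 1 φ) x + pd 2 (pd 2 φ) x) * t1
      - 2 * (F 0 x * a0 + F 1 x * a1 + F 2 x * a2)
  · have e1 : ∀ i, dd φ F i x = 0 := fun i => (dd_amp D T i).off x hx
    have e2 : ∀ j, pd j (F j) x = 0 := fun j => ((T.a j).pd D.Sc j).off x hx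
    simp [e1, e2]

theorem Lo_n (D : Ph φ S) (T : Tan φ S F) (x : E3) : ∑ i, pd i φ x * Lo φ (F i) x = 0 := by
  by_cases hx : x ∈ S
  · have u2 := fun i => D.u2 hx i
    have d1 := fun i => T.d D i x
    have t1 := T.t x
    have s1 : pd 1 (pd 0 φ) x = pd 0 (pd 1 φ) x := pd_comm D.φs 1 0 x
    have s2 : pd 2 (pd 0 φ) x = pd 0 (pd 2 φ) x := pd_comm D.φs 2 0 x
    have s3 : pd 2 (pd 1 φ) x = pd 1 (pd 2 φ) x := pd_comm D.φs 2 1 x
    have a0 := u2 0
    have a1 := u2 1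
    have a2 := u2 2
    have b0 := d1 0
    have b1 := d1 1
    have b2 := d1 2
    simp only [Lo, Fin.sum_univ_three] at a0 a1 a2 b0 b1 b2 t1 ⊢
    simp only [s1, s2, s3] at a0 a1 a2 b0 b1 b2 ⊢
    linear_combination 2 * (pd 0 φ x * b0 + pd 1 φ x * b1 + pd 2 φ x * b2)
      + (pd 0 (pd 0 φ) x + pd 1 (pd 1 φ) x + pd 2 (pd 2 φ) x) * t1
      - 2 * (F 0 x * a0 + F 1 x * a1 + F 2 x * a2)
  · have e1 : ∀ i, Lo φ (F i) x = 0 := fun i => (Lo_amp D.φs D.Sc (T.a i)).off x hx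
    simp [e1]

/-- the antisymmetric potential -/
noncomputable def Ps (φ : E3 → ℝ) (p : ℝ → ℝ) (k : ℝ) (F G : Fin 3 → E3 → ℝ) (i j : Fin 3) : Fun3 :=
  Tm φ p k (fun x => -(pd j φ x * G i x - pd i φ x * G j x))
    (fun x => pd j φ x * F i x - pd i φ x * F j x)

theorem Ps_anti (p : ℝ → ℝ) (k : ℝ) (i j : Fin 3) (N t : ℝ) (x : E3) :
    Ps φ p k F G i j N t x = -Ps φ p k F G j i N t x := by
  unfold Ps Tm
  ring

theorem Ps_cl {p p' : ℝ → ℝ} (hp : Pf ν p p') (D : Ph φ S) (TF : Tan φ S F) (TG : Tan φ S G)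
    (k : ℝ) (i j : Fin 3) : Cl ν φ S (Ps φ p k F G i j) :=
  Tm_cl hp (((TG.a i).stat (cd_pd D.φs j)).sub ((TG.a j).stat (cd_pd D.φs i))).neg
    (((TF.a i).stat (cd_pd D.φs j)).sub ((TF.a j).stat (cd_pd D.φs i)))

/-- the divergence of the potential -/
theorem blk_T (D : Ph φ S) (TF : Tan φ S F) (TG : Tan φ S G) (p : ℝ → ℝ) (k : ℝ) (i : Fin 3)
    (N t : ℝ) (x : E3) :
    ∑ j, dx j (Ps φ p k F G i j) N t x = k * N * Tm φ p k (F i) (G i) N t x
      + Tm φ p k (fun x => -dd φ G i x) (dd φ F i) N t x := by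
  have hφ := D.φs
  have hn : ∀ j, ContDiff ℝ ∞ (pd j φ) := fun j => cd_pd hφ j
  have cF : ∀ j, ContDiff ℝ ∞ (F j) := fun j => (TF.a j).smooth
  have cG : ∀ j, ContDiff ℝ ∞ (G j) := fun j => (TG.a j).smooth
  have e : ∀ j, dx j (Ps φ p k F G i j) N t x
      = Tm φ p k (fun x => -(pd j (pd j φ) x * G i x + pd j φ x * pd j (G i) x
          - (pd j (pd i φ) x * G j x + pd i φ x * pd j (G j) x)))
          (fun x => pd j (pd j φ) x * F i x + pd j φ x * pd j (F i) x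
          - (pd j (pd i φ) x * F j x + pd i φ x * pd j (F j) x)) N t x
        + k * N * Tm φ p k (fun x => pd j φ x * (pd j φ x * F i x - pd i φ x * F j x))
          (fun x => -(pd j φ x * -(pd j φ x * G i x - pd i φ x * G j x))) N t x := by
    intro j
    have c1 : ∀ H : Fin 3 → E3 → ℝ, (∀ j, ContDiff ℝ ∞ (H j)) →
        ContDiff ℝ ∞ (fun x => pd j φ x * H i x - pd i φ x * H j x) := fun H hH =>
      ((hn j).mul (hH i)).sub ((hn i).mul (hH j))
    have r1 : ∀ H : Fin 3 → E3 → ℝ, (∀ j, ContDiff ℝ ∞ (H j)) →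
        pd j (fun x => pd j φ x * H i x - pd i φ x * H j x)
          = fun x => pd j (pd j φ) x * H i x + pd j φ x * pd j (H i) x
          - (pd j (pd i φ) x * H j x + pd i φ x * pd j (H j) x) := by
      intro H hH
      funext y
      rw [pd_sub ((hn j).mul (hH i)) ((hn i).mul (hH j)), pd_mul (hn j) (hH i),
        pd_mul (hn i) (hH j)]
    have r2 : pd j (fun x => -(pd j φ x * G i x - pd i φ x * G j x))
          = fun x => -(pd j (pd j φ) x * G i x + pd j φ x * pd j (G i) x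
          - (pd j (pd i φ) x * G j x + pd i φ x * pd j (G j) x)) := by
      funext y
      rw [pd_neg, r1 G cG]
    unfold Ps
    rw [Tm_dx hφ (c1 G cG).neg (c1 F cF), r1 F cF, r2]
  rw [Finset.sum_congr rfl fun j _ => e j]
  have q1 := D.f1 (TF.a i) x
  have q2 := D.f1 (TG.a i) x
  have q3 := TF.t x
  have q4 := TG.t x
  simp only [Fin.sum_univ_three] at q1 q2 q3 q4 ⊢
  simp only [Tm, dd, Fin.sum_univ_three]
  linear_combination k * N * p (N ^ 2 * t) * Real.cos (k * (N * φ x)) * q1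
    + k * N * p (N ^ 2 * t) * Real.sin (k * (N * φ x)) * q2
    - k * N * p (N ^ 2 * t) * Real.cos (k * (N * φ x)) * pd i φ x * q3
    - k * N * p (N ^ 2 * t) * Real.sin (k * (N * φ x)) * pd i φ x * q4

end Pool.Agent.J4H18.DN
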