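import Pool.Agent.J4H18.DN.B4

/-!
The oscillating field.
-/

set_option autoImplicit false
set_option linter.unusedSectionVars false

open MeasureTheory Set Filter Topology
open scoped InnerProductSpace ENNReal ContDiff NNReal

namespace Pool.Agent.J4H18.DN

open H772R2.NS


/-! ### profiles -/

noncomputable def ex (ν τ : ℝ) : ℝ := Real.exp (-(ν * τ))

theorem ex_der (ν τ : ℝ) : HasDerivAt (ex ν) (-(ν * ex ν τ)) τ := by
  have h1 : HasDerivAt (fun s : ℝ => ν * s) (ν * 1) τ := (hasDerivAt_id' τ).const_mul _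
  have h2 : HasDerivAt (fun s : ℝ => -(ν * s)) (-(ν * 1)) τ := h1.neg
  refine h2.exp.congr_deriv ?_
  unfold ex
  ring

theorem ex_pow_der (ν τ : ℝ) (n : ℕ) :
    HasDerivAt (fun τ => ex ν τ ^ n) (-(n * ν * ex ν τ ^ n)) τ := by
  have h := (ex_der ν τ).pow n
  refine h.congr_deriv ?_
  rcases n with _ | n
  · simp
  · simp only [Nat.add_sub_cancel]
    ring

variable {ν : ℝ} {φ : E3 → ℝ} {A B h : Fin 3 → E3 → ℝ} {P : E3 → ℝ} {S K : Set E3}
  {f g : E3 → ℝ} {F G : Fin 3 → E3 → ℝ} {v : Fin 3 → E3 → ℝ}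

theorem ex_pow_cl (hν : 0 ≤ ν) (n : ℕ) {a : E3 → ℝ} (ha : Amp K a) :
    Cl ν φ K (fun N t x => ex ν (N ^ 2 * t) ^ (n + 1) * a x) := by
  refine ((Cl.base ha).mexp (n * ν) (by positivity)).congr fun N t x => ?_
  have : ex ν (N ^ 2 * t) ^ (n + 1) = Real.exp (-(n * ν * (N ^ 2 * t)))
      * Real.exp (-(ν * (N ^ 2 * t))) := by
    unfold ex
    rw [← Real.exp_nat_mul, ← Real.exp_add]
    congr 1
    push_cast
    ring
  rw [this]
  ring

noncomputable def q1 (ν τ : ℝ) : ℝ := ex ν τ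
noncomputable def q1' (ν τ : ℝ) : ℝ := -(ν * ex ν τ)
noncomputable def q2 (ν τ : ℝ) : ℝ := τ * ex ν τ
noncomputable def q2' (ν τ : ℝ) : ℝ := ex ν τ - ν * (τ * ex ν τ)
noncomputable def q3 (ν τ : ℝ) : ℝ := (ex ν τ - ex ν τ ^ 3) / (2 * ν)
noncomputable def q3' (ν τ : ℝ) : ℝ := (-ex ν τ + 3 * ex ν τ ^ 3) / 2
noncomputable def q4 (ν τ : ℝ) : ℝ := (ex ν τ ^ 2 - ex ν τ ^ 4) / (2 * ν)
noncomputable def q4' (ν τ : ℝ) : ℝ := -ex ν τ ^ 2 + 2 * ex ν τ ^ 4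
noncomputable def q5 (ν τ : ℝ) : ℝ := ex ν τ ^ 2
noncomputable def q5' (ν τ : ℝ) : ℝ := -(2 * ν * ex ν τ ^ 2)

theorem pf1 (hν : 0 < ν) : Pf ν (q1 ν) (q1' ν) where
  der := fun τ => ex_der ν τ
  cl := fun φ K a ha => (ex_pow_cl hν.le 0 ha).congr fun N t x => by simp [q1]

theorem pf2 (hν : 0 < ν) : Pf ν (q2 ν) (q2' ν) where
  der := fun τ => by
    refine ((hasDerivAt_id' τ).mul (ex_der ν τ)).congr_deriv ?_
    unfold q2'
    ring
  cl := fun φ K a ha => (ex_pow_cl hν.le 0 ha).mtau.congr fun N t x => by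
    simp only [q2]
    ring

theorem pf3 (hν : 0 < ν) : Pf ν (q3 ν) (q3' ν) where
  der := fun τ => by
    have h := (((ex_pow_der ν τ 1).sub (ex_pow_der ν τ 3)).div_const (2 * ν))
    have e : (fun τ => (ex ν τ ^ 1 - ex ν τ ^ 3) / (2 * ν)) = q3 ν := by
      funext τ
      simp [q3]
    have h' : HasDerivAt (fun τ => (ex ν τ ^ 1 - ex ν τ ^ 3) / (2 * ν)) _ τ := h
    rw [e] at h'
    refine h'.congr_deriv ?_
    unfold q3'
    field_simp
    push_cast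
    ring
  cl := fun φ K a ha => (((ex_pow_cl hν.le 0 ha).sub (ex_pow_cl hν.le 2 ha)).smul
    (1 / (2 * ν))).congr fun N t x => by
    simp only [q3]
    ring

theorem pf4 (hν : 0 < ν) : Pf ν (q4 ν) (q4' ν) where
  der := fun τ => by
    have h := (((ex_pow_der ν τ 2).sub (ex_pow_der ν τ 4)).div_const (2 * ν))
    have h' : HasDerivAt (q4 ν) _ τ := h
    refine h'.congr_deriv ?_
    unfold q4'
    field_simp
    push_cast
    ring
  cl := fun φ K a ha => (((ex_pow_cl hν.le 1 ha).sub (ex_pow_cl hν.le 3 ha)).smul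
    (1 / (2 * ν))).congr fun N t x => by
    simp only [q4]
    ring

theorem pf5 (hν : 0 < ν) : Pf ν (q5 ν) (q5' ν) where
  der := fun τ => by
    have h := ex_pow_der ν τ 2
    have h' : HasDerivAt (q5 ν) _ τ := h
    refine h'.congr_deriv ?_
    unfold q5'
    push_cast
    ring
  cl := fun φ K a ha => (ex_pow_cl hν.le 1 ha).congr fun N t x => by
    simp only [q5]

/-! ### amplitudes -/

noncomputable def nn (φ : E3 → ℝ) (v : Fin 3 → E3 → ℝ) : E3 → ℝ := fun x => ∑ j, v j x * pd j φ x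

noncomputable def f1 (ν : ℝ) (φ : E3 → ℝ) (v B : Fin 3 → E3 → ℝ) (i : Fin 3) : E3 → ℝ := fun x =>
  -(ν * Lo φ (B i) x) + nn φ v x * B i x

noncomputable def f2 (φ : E3 → ℝ) (h B : Fin 3 → E3 → ℝ) (i : Fin 3) : E3 → ℝ := fun x =>
  nn φ h x * B i x

noncomputable def Gr (A B : Fin 3 → E3 → ℝ) (i : Fin 3) : E3 → ℝ := fun x =>
  (∑ j, (A j x * pd j (A i) x - pd j (A j) x * A i x))
    - ∑ j, (B j x * pd j (B i) x - pd j (B j) x * B i x)

noncomputable def Gi (A B : Fin 3 → E3 → ℝ) (i : Fin 3) : E3 → ℝ := fun x =>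
  ∑ j, (A j x * pd j (B i) x + B j x * pd j (A i) x - pd j (A j) x * B i x - pd j (B j) x * A i x)

noncomputable def f3 (φ : E3 → ℝ) (A B : Fin 3 → E3 → ℝ) (i : Fin 3) : E3 → ℝ := fun x =>
  -(1 / 2) * (Gr A B i x - nn φ (Gr A B) x * pd i φ x)

noncomputable def g3 (φ : E3 → ℝ) (A B : Fin 3 → E3 → ℝ) (i : Fin 3) : E3 → ℝ := fun x =>
  (1 / 2) * (Gi A B i x - nn φ (Gi A B) x * pd i φ x)

theorem nn_cd (hφ : ContDiff ℝ ∞ φ) (hv : ∀ j, ContDiff ℝ ∞ (v j)) : ContDiff ℝ ∞ (nn φ v) :=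
  ContDiff.sum fun j _ => (hv j).mul (cd_pd hφ j)

theorem nn_amp (hφ : ContDiff ℝ ∞ φ) (hF : ∀ j, Amp S (F j)) : Amp S (nn φ F) :=
  Amp.sum _ fun j _ => (hF j).mulr (cd_pd hφ j)

theorem tan_f1 (D : Ph φ S) (hv : ∀ j, ContDiff ℝ ∞ (v j)) (T : Tan φ S F) :
    Tan φ S (f1 ν φ v F) where
  a := fun i => ((Lo_amp D.φs D.Sc (T.a i)).smul ν).neg.add ((T.a i).stat (nn_cd D.φs hv))
  t := fun x => by
    have h1 := Lo_n D T x
    have h2 := T.t x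
    simp only [f1, Fin.sum_univ_three] at h1 h2 ⊢
    linear_combination -ν * h1 + nn φ v x * h2

theorem tan_f2 (D : Ph φ S) (hh : ∀ j, Amp S (h j)) (T : Tan φ S F) : Tan φ S (f2 φ h F) where
  a := fun i => (T.a i).stat (nn_cd D.φs fun j => (hh j).smooth)
  t := fun x => by
    have h2 := T.t x
    simp only [f2, Fin.sum_univ_three] at h2 ⊢
    linear_combination nn φ h x * h2

theorem Gr_amp (D : Ph φ S) (TA : Tan φ S A) (TB : Tan φ S B) (i : Fin 3) : Amp S (Gr A B i) :=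
  (Amp.sum _ fun j _ => ((TA.a j).mulr (cd_pd (TA.a i).smooth j)).sub
    ((TA.a i).stat (cd_pd (TA.a j).smooth j))).sub
  (Amp.sum _ fun j _ => ((TB.a j).mulr (cd_pd (TB.a i).smooth j)).sub
    ((TB.a i).stat (cd_pd (TB.a j).smooth j)))

theorem Gi_amp (D : Ph φ S) (TA : Tan φ S A) (TB : Tan φ S B) (i : Fin 3) : Amp S (Gi A B i) :=
  Amp.sum _ fun j _ => ((((TA.a j).mulr (cd_pd (TB.a i).smooth j)).add
    ((TB.a j).mulr (cd_pd (TA.a i).smooth j))).sub ((TB.a i).stat (cd_pd (TA.a j).smooth j))).sub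
    ((TA.a i).stat (cd_pd (TB.a j).smooth j))

theorem proj_n (D : Ph φ S) (hG : ∀ j, Amp S (G j)) (x : E3) :
    ∑ i, pd i φ x * (G i x - nn φ G x * pd i φ x) = 0 := by
  have h1 := D.f1 (nn_amp D.φs hG) x
  simp only [nn, Fin.sum_univ_three] at h1 ⊢
  linear_combination -h1

theorem tan_f3 (D : Ph φ S) (TA : Tan φ S A) (TB : Tan φ S B) : Tan φ S (f3 φ A B) where
  a := fun i => ((Gr_amp D TA TB i).sub ((nn_amp D.φs (Gr_amp D TA TB)).mulr
    (cd_pd D.φs i))).smul _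
  t := fun x => by
    have h1 := proj_n D (Gr_amp D TA TB) x
    simp only [f3, Fin.sum_univ_three] at h1 ⊢
    linear_combination -(1 / 2) * h1

theorem tan_g3 (D : Ph φ S) (TA : Tan φ S A) (TB : Tan φ S B) : Tan φ S (g3 φ A B) where
  a := fun i => ((Gi_amp D TA TB i).sub ((nn_amp D.φs (Gi_amp D TA TB)).mulr
    (cd_pd D.φs i))).smul _
  t := fun x => by
    have h1 := proj_n D (Gi_amp D TA TB) x
    simp only [g3, Fin.sum_univ_three] at h1 ⊢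
    linear_combination (1 / 2) * h1

theorem tan_neg (T : Tan φ S F) : Tan φ S (fun i x => -F i x) where
  a := fun i => (T.a i).neg
  t := fun x => by
    have h1 := T.t x
    simp only [Fin.sum_univ_three] at h1 ⊢
    linear_combination -h1

theorem dd_neg (i : Fin 3) (x : E3) : dd φ (fun i x => -F i x) i x = -dd φ F i x := by
  unfold dd
  rw [← Finset.sum_neg_distrib]
  refine Finset.sum_congr rfl fun j _ => ?_
  rw [pd_neg, pd_neg]
  ring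

/-! ### the field -/

section field

variable (ν φ A B h v)

noncomputable def af (i : Fin 3) : Fun3 := Tm φ (q1 ν) 1 (A i) (fun x => -B i x)

noncomputable def bf (i : Fin 3) : Fun3 := fun N t x =>
  Tm φ (q1 ν) 1 (dd φ B i) (dd φ A i) N t x + Tm φ (q2 ν) 1 (f1 ν φ v B i) (f1 ν φ v A i) N t x
    + Tm φ (q3 ν) 1 (f2 φ h B i) (f2 φ h A i) N t x
    + Tm φ (q4 ν) 2 (f3 φ A B i) (g3 φ A B i) N t x
    + Tm φ (q5 ν) 0 (h i) (fun _ => 0) N t x

noncomputable def rf (i : Fin 3) : Fun3 := fun N t x =>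
  Tm φ (q2 ν) 1 (fun x => -dd φ (f1 ν φ v A) i x) (dd φ (f1 ν φ v B) i) N t x
    + Tm φ (q3 ν) 1 (fun x => -dd φ (f2 φ h A) i x) (dd φ (f2 φ h B) i) N t x
    + 1 / 2 * Tm φ (q4 ν) 2 (fun x => -dd φ (g3 φ A B) i x) (dd φ (f3 φ A B) i) N t x

noncomputable def Psi (i j : Fin 3) : Fun3 := fun N t x =>
  Ps φ (q1 ν) 1 A (fun i x => -B i x) i j N t x
    + N⁻¹ * (Ps φ (q2 ν) 1 (f1 ν φ v B) (f1 ν φ v A) i j N t x
      + Ps φ (q3 ν) 1 (f2 φ h B) (f2 φ h A) i j N t x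
      + 1 / 2 * Ps φ (q4 ν) 2 (f3 φ A B) (g3 φ A B) i j N t x)

noncomputable def Xf (i : Fin 3) : Fun3 := fun N t x =>
  (∑ j, dx j (Psi ν φ A B h v i j) N t x) + Tm φ (q5 ν) 0 (h i) (fun _ => 0) N t x

end field

variable (hν : 0 < ν) (D : Dat ν φ A B h P S K) (hv : ∀ j, ContDiff ℝ ∞ (v j))

include hν D in
theorem af_cl (i : Fin 3) : Cl ν φ S (af ν φ A B i) := Tm_cl (pf1 hν) (D.Aa i) (D.Ba i).neg

include hν D hv in
theorem bf_cl (i : Fin 3) : Cl ν φ S (bf ν φ A B h v i) := by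
  have Ph := D.ph
  have TA := D.TA
  have TB := D.TB
  exact ((((Tm_cl (pf1 hν) (dd_amp Ph TB i) (dd_amp Ph TA i)).add
    (Tm_cl (pf2 hν) ((tan_f1 Ph hv TB).a i) ((tan_f1 Ph hv TA).a i))).add
    (Tm_cl (pf3 hν) ((tan_f2 Ph D.ha TB).a i) ((tan_f2 Ph D.ha TA).a i))).add
    (Tm_cl (pf4 hν) ((tan_f3 Ph TA TB).a i) ((tan_g3 Ph TA TB).a i))).add
    (Tm_cl (pf5 hν) (D.ha i) Amp.zero)

include hν D hv in
theorem rf_cl (i : Fin 3) : Cl ν φ S (rf ν φ A B h v i) := by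
  have Ph := D.ph
  have TA := D.TA
  have TB := D.TB
  exact ((Tm_cl (pf2 hν) (dd_amp Ph (tan_f1 Ph hv TA) i).neg (dd_amp Ph (tan_f1 Ph hv TB) i)).add
    (Tm_cl (pf3 hν) (dd_amp Ph (tan_f2 Ph D.ha TA) i).neg (dd_amp Ph (tan_f2 Ph D.ha TB) i))).add
    ((Tm_cl (pf4 hν) (dd_amp Ph (tan_g3 Ph TA TB) i).neg (dd_amp Ph (tan_f3 Ph TA TB) i)).smul _)

include hν D hv in
theorem Psi_cl (i j : Fin 3) : Cl ν φ S (Psi ν φ A B h v i j) := by
  have Ph := D.ph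
  have TA := D.TA
  have TB := D.TB
  exact (Ps_cl (pf1 hν) Ph TA (tan_neg TB) 1 i j).add
    (((Ps_cl (pf2 hν) Ph (tan_f1 Ph hv TB) (tan_f1 Ph hv TA) 1 i j).add
    (Ps_cl (pf3 hν) Ph (tan_f2 Ph D.ha TB) (tan_f2 Ph D.ha TA) 1 i j)).add
    ((Ps_cl (pf4 hν) Ph (tan_f3 Ph TA TB) (tan_g3 Ph TA TB) 2 i j).smul _)).minv

theorem Psi_anti (i j : Fin 3) (N t : ℝ) (x : E3) :
    Psi ν φ A B h v i j N t x = -Psi ν φ A B h v j i N t x := by
  unfold Psi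
  rw [Ps_anti (q1 ν) 1 i j, Ps_anti (q2 ν) 1 i j, Ps_anti (q3 ν) 1 i j, Ps_anti (q4 ν) 2 i j]
  ring

include hν D hv in
/-- the expansion of the field -/
theorem Xf_eq (i : Fin 3) {N : ℝ} (hN : 1 ≤ N) (t : ℝ) (x : E3) :
    Xf ν φ A B h v i N t x = N * af ν φ A B i N t x + bf ν φ A B h v i N t x
      + N⁻¹ * rf ν φ A B h v i N t x := by
  have Ph := D.ph
  have TA := D.TA
  have TB := D.TB
  have hφ := D.φs
  have hN0 : N ≠ 0 := by linarith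
  have e : ∀ j, dx j (Psi ν φ A B h v i j) N t x
      = dx j (Ps φ (q1 ν) 1 A (fun i x => -B i x) i j) N t x
        + N⁻¹ * (dx j (Ps φ (q2 ν) 1 (f1 ν φ v B) (f1 ν φ v A) i j) N t x
        + dx j (Ps φ (q3 ν) 1 (f2 φ h B) (f2 φ h A) i j) N t x
        + 1 / 2 * dx j (Ps φ (q4 ν) 2 (f3 φ A B) (g3 φ A B) i j) N t x) := by
    intro j
    have c1 := Ps_cl (pf1 hν) Ph TA (tan_neg TB) 1 i j
    have c2 := Ps_cl (pf2 hν) Ph (tan_f1 (ν := ν) Ph hv TB) (tan_f1 (ν := ν) Ph hv TA) 1 i j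
    have c3 := Ps_cl (pf3 hν) Ph (tan_f2 Ph D.ha TB) (tan_f2 Ph D.ha TA) 1 i j
    have c4 := Ps_cl (pf4 hν) Ph (tan_f3 Ph TA TB) (tan_g3 Ph TA TB) 2 i j
    unfold Psi
    rw [dx_add j (c1.dfx hφ N t x) ((((c2.add c3).add (c4.smul (1 / 2))).minv).dfx hφ N t x),
      dx_cN j (fun N => N⁻¹) (((c2.add c3).add (c4.smul (1 / 2))).dfx hφ N t x),
      dx_add j ((c2.add c3).dfx hφ N t x) ((c4.smul (1 / 2)).dfx hφ N t x),
      dx_add j (c2.dfx hφ N t x) (c3.dfx hφ N t x),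
      dx_cN j (fun _ => 1 / 2) (c4.dfx hφ N t x)]
  unfold Xf
  rw [Finset.sum_congr rfl fun j _ => e j, Finset.sum_add_distrib, ← Finset.mul_sum,
    Finset.sum_add_distrib, Finset.sum_add_distrib, ← Finset.mul_sum,
    blk_T Ph TA (tan_neg TB), blk_T Ph (tan_f1 Ph hv TB) (tan_f1 Ph hv TA),
    blk_T Ph (tan_f2 Ph D.ha TB) (tan_f2 Ph D.ha TA), blk_T Ph (tan_f3 Ph TA TB) (tan_g3 Ph TA TB)]
  have e2 : (fun x => -dd φ (fun i x => -B i x) i x) = dd φ B i := by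
    funext y
    rw [dd_neg, neg_neg]
  rw [e2]
  unfold af bf rf
  field_simp
  ring

end Pool.Agent.J4H18.DN
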