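import Pool.Agent.J4H18.DN.B5

/-!
The residual of the oscillating field.
-/

set_option autoImplicit false
set_option linter.unusedSectionVars false

open MeasureTheory Set Filter Topology
open scoped InnerProductSpace ENNReal ContDiff NNReal

namespace Pool.Agent.J4H18.DN

open H772R2.NS


variable {ν : ℝ} {φ : E3 → ℝ} {A B h : Fin 3 → E3 → ℝ} {P : E3 → ℝ} {S K : Set E3}
  {f g : E3 → ℝ} {F G : Fin 3 → E3 → ℝ} {v : Fin 3 → E3 → ℝ}

theorem Cl.monoK {u : Fun3} (h : Cl ν φ S u) (hSK : S ⊆ K) : Cl ν φ K u := by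
  induction h with
  | base ha => exact Cl.base (ha.mono hSK)
  | mtau _ ih => exact ih.mtau
  | mexp μ hμ _ ih => exact ih.mexp μ hμ
  | mcos k _ ih => exact ih.mcos k
  | msin k _ ih => exact ih.msin k
  | minv _ ih => exact ih.minv
  | add _ _ ih1 ih2 => exact ih1.add ih2

theorem dx_congr {u w : Fun3} {N : ℝ} (h : ∀ t x, u N t x = w N t x) (j : Fin 3) (t : ℝ) (x : E3) :
    dx j u N t x = dx j w N t x := by
  have : u N t = w N t := funext (h t)
  unfold dx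
  rw [this]

theorem lp_congr {u w : Fun3} {N : ℝ} (h : ∀ t x, u N t x = w N t x) (t : ℝ) (x : E3) :
    lp u N t x = lp w N t x :=
  Finset.sum_congr rfl fun j _ => dx_congr (fun t x => dx_congr h j t x) j t x

theorem dt_congr {u w : Fun3} {N : ℝ} (h : ∀ t x, u N t x = w N t x) (t : ℝ) (x : E3) :
    dt u N t x = dt w N t x := by
  have : (fun s => u N s x) = fun s => w N s x := funext fun s => h s x
  unfold dt
  rw [this]

theorem dx_lin {a b c : Fun3} {N t : ℝ} (ha : ContDiff ℝ ∞ (a N t)) (hb : ContDiff ℝ ∞ (b N t))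
    (hc : ContDiff ℝ ∞ (c N t)) (j : Fin 3) (x : E3) :
    dx j (fun N t x => N * a N t x + b N t x + N⁻¹ * c N t x) N t x
      = N * dx j a N t x + dx j b N t x + N⁻¹ * dx j c N t x := by
  have h1 : pd j (fun x => N * a N t x + b N t x + N⁻¹ * c N t x) x
      = N * pd j (a N t) x + pd j (b N t) x + N⁻¹ * pd j (c N t) x := by
    rw [pd_add ((contDiff_const.mul ha).add hb) (contDiff_const.mul hc),
      pd_add (contDiff_const.mul ha) hb, pd_smul ha, pd_smul hc]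
  exact h1

theorem lp_lin {a b c : Fun3} {N t : ℝ} (ha : ContDiff ℝ ∞ (a N t)) (hb : ContDiff ℝ ∞ (b N t))
    (hc : ContDiff ℝ ∞ (c N t)) (x : E3) :
    lp (fun N t x => N * a N t x + b N t x + N⁻¹ * c N t x) N t x
      = N * lp a N t x + lp b N t x + N⁻¹ * lp c N t x := by
  have h1 : ∀ j, pd j (pd j (fun x => N * a N t x + b N t x + N⁻¹ * c N t x)) x
      = N * pd j (pd j (a N t)) x + pd j (pd j (b N t)) x + N⁻¹ * pd j (pd j (c N t)) x := by
    intro j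
    have e : pd j (fun x => N * a N t x + b N t x + N⁻¹ * c N t x)
        = fun x => N * pd j (a N t) x + pd j (b N t) x + N⁻¹ * pd j (c N t) x := by
      funext y
      rw [pd_add ((contDiff_const.mul ha).add hb) (contDiff_const.mul hc),
        pd_add (contDiff_const.mul ha) hb, pd_smul ha, pd_smul hc]
    have da := cd_pd ha j
    have db := cd_pd hb j
    have dc := cd_pd hc j
    rw [e, pd_add ((contDiff_const.mul da).add db) (contDiff_const.mul dc),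
      pd_add (contDiff_const.mul da) db, pd_smul da, pd_smul dc]
  have h2 : lp (fun N t x => N * a N t x + b N t x + N⁻¹ * c N t x) N t x
      = ∑ j, (N * pd j (pd j (a N t)) x + pd j (pd j (b N t)) x
        + N⁻¹ * pd j (pd j (c N t)) x) := Finset.sum_congr rfl fun j _ => h1 j
  rw [h2, Finset.sum_add_distrib, Finset.sum_add_distrib, ← Finset.mul_sum, ← Finset.mul_sum]
  rfl

theorem dt_lin {a b c : Fun3} {N t : ℝ} {x : E3} (ha : DifferentiableAt ℝ (fun s => a N s x) t)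
    (hb : DifferentiableAt ℝ (fun s => b N s x) t) (hc : DifferentiableAt ℝ (fun s => c N s x) t) :
    dt (fun N t x => N * a N t x + b N t x + N⁻¹ * c N t x) N t x
      = N * dt a N t x + dt b N t x + N⁻¹ * dt c N t x := by
  have h : HasDerivAt (fun s => N * a N s x + b N s x + N⁻¹ * c N s x)
      (N * dt a N t x + dt b N t x + N⁻¹ * dt c N t x) t :=
    ((ha.hasDerivAt.const_mul N).add hb.hasDerivAt).add (hc.hasDerivAt.const_mul N⁻¹)
  exact h.deriv

section names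

variable (ν φ A B h v P)

noncomputable def at' (i : Fin 3) : Fun3 := Tm φ (q1 ν) 1 (fun x => -B i x) (fun x => -A i x)
noncomputable def al (i j : Fin 3) : Fun3 :=
  Tm φ (q1 ν) 1 (pd j (A i)) (pd j (fun x => -B i x))
noncomputable def a1 (i : Fin 3) : Fun3 :=
  Tm φ (q1 ν) 1 (Lo φ (fun x => -B i x)) (fun x => -Lo φ (A i) x)
noncomputable def a2 (i : Fin 3) : Fun3 :=
  Tm φ (q1 ν) 1 (fun x => ∑ j, pd j (pd j (A i)) x) (fun x => ∑ j, pd j (pd j (fun x => -B i x)) x)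

noncomputable def bT (i : Fin 3) : Fun3 := fun N t x =>
  Tm φ (q1' ν) 1 (dd φ B i) (dd φ A i) N t x + Tm φ (q2' ν) 1 (f1 ν φ v B i) (f1 ν φ v A i) N t x
    + Tm φ (q3' ν) 1 (f2 φ h B i) (f2 φ h A i) N t x
    + Tm φ (q4' ν) 2 (f3 φ A B i) (g3 φ A B i) N t x
    + Tm φ (q5' ν) 0 (h i) (fun _ => 0) N t x

noncomputable def bt (i : Fin 3) : Fun3 := fun N t x =>
  Tm φ (q1 ν) 1 (dd φ A i) (fun x => -dd φ B i x) N t x
    + Tm φ (q2 ν) 1 (f1 ν φ v A i) (fun x => -f1 ν φ v B i x) N t x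
    + Tm φ (q3 ν) 1 (f2 φ h A i) (fun x => -f2 φ h B i x) N t x
    + 2 * Tm φ (q4 ν) 2 (g3 φ A B i) (fun x => -f3 φ A B i x) N t x

noncomputable def btt (i : Fin 3) : Fun3 := fun N t x =>
  -(Tm φ (q1 ν) 1 (dd φ B i) (dd φ A i) N t x
    + Tm φ (q2 ν) 1 (f1 ν φ v B i) (f1 ν φ v A i) N t x
    + Tm φ (q3 ν) 1 (f2 φ h B i) (f2 φ h A i) N t x
    + 4 * Tm φ (q4 ν) 2 (f3 φ A B i) (g3 φ A B i) N t x)

noncomputable def be (i j : Fin 3) : Fun3 := fun N t x =>
  Tm φ (q1 ν) 1 (pd j (dd φ B i)) (pd j (dd φ A i)) N t x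
    + Tm φ (q2 ν) 1 (pd j (f1 ν φ v B i)) (pd j (f1 ν φ v A i)) N t x
    + Tm φ (q3 ν) 1 (pd j (f2 φ h B i)) (pd j (f2 φ h A i)) N t x
    + Tm φ (q4 ν) 2 (pd j (f3 φ A B i)) (pd j (g3 φ A B i)) N t x
    + Tm φ (q5 ν) 0 (pd j (h i)) (pd j (fun _ => 0)) N t x

noncomputable def P1 : E3 → ℝ := fun x => 1 / 4 * nn φ (Gi A B) x
noncomputable def P2 : E3 → ℝ := fun x => 1 / 4 * nn φ (Gr A B) x

/-- the pressure -/
noncomputable def Pr : Fun3 := fun N t x =>
  N ^ 2 * Tm φ (q5 ν) 0 P (fun _ => 0) N t x + N ^ 1 * Tm φ (q5 ν) 2 (P1 φ A B) (P2 φ A B) N t x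

end names

variable (hν : 0 < ν) (D : Dat ν φ A B h P S K) (hv : ∀ j, ContDiff ℝ ∞ (v j))

theorem Tm_n (p : ℝ → ℝ) (k : ℝ) (f g : E3 → ℝ) (j : Fin 3) (N t : ℝ) (x : E3) :
    Tm φ p k (fun x => pd j φ x * g x) (fun x => -(pd j φ x * f x)) N t x
      = pd j φ x * Tm φ p k g (fun x => -f x) N t x := by
  unfold Tm
  ring

include D in
theorem dx_af (i j : Fin 3) (N t : ℝ) (x : E3) : dx j (af ν φ A B i) N t x
    = al ν φ A B i j N t x + N * (pd j φ x * at' ν φ A B i N t x) := by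
  unfold af
  rw [Tm_dx D.φs (D.Aa i).smooth (D.Ba i).smooth.neg, Tm_n]
  unfold al at'
  ring

include D hv in
theorem dx_bf (i j : Fin 3) (N t : ℝ) (x : E3) : dx j (bf ν φ A B h v i) N t x
    = be ν φ A B h v i j N t x + N * (pd j φ x * bt ν φ A B h v i N t x) := by
  have Ph := D.ph
  have TA := D.TA
  have TB := D.TB
  have hφ := D.φs
  have c1 := (dd_amp Ph TB i).smooth
  have c1' := (dd_amp Ph TA i).smooth
  have c2 := ((tan_f1 (ν := ν) Ph hv TB).a i).smooth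
  have c2' := ((tan_f1 (ν := ν) Ph hv TA).a i).smooth
  have c3 := ((tan_f2 Ph D.ha TB).a i).smooth
  have c3' := ((tan_f2 Ph D.ha TA).a i).smooth
  have c4 := ((tan_f3 Ph TA TB).a i).smooth
  have c4' := ((tan_g3 Ph TA TB).a i).smooth
  have c5 := (D.ha i).smooth
  have c5' : ContDiff ℝ ∞ (fun _ : E3 => (0 : ℝ)) := contDiff_const
  have d1 := Tm_df (p := q1 ν) (k := 1) hφ c1 c1' N t x
  have d2 := Tm_df (p := q2 ν) (k := 1) hφ c2 c2' N t x
  have d3 := Tm_df (p := q3 ν) (k := 1) hφ c3 c3' N t x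
  have d4 := Tm_df (p := q4 ν) (k := 2) hφ c4 c4' N t x
  have d5 := Tm_df (p := q5 ν) (k := 0) hφ c5 c5' N t x
  unfold bf
  rw [dx_add j (((d1.fun_add d2).fun_add d3).fun_add d4) d5,
    dx_add j ((d1.fun_add d2).fun_add d3) d4,
    dx_add j (d1.fun_add d2) d3, dx_add j d1 d2,
    Tm_dx hφ c1 c1', Tm_dx hφ c2 c2', Tm_dx hφ c3 c3', Tm_dx hφ c4 c4', Tm_dx hφ c5 c5',
    Tm_n, Tm_n, Tm_n, Tm_n, Tm_n]
  unfold be bt
  ring

include D in
theorem lp_af (i : Fin 3) (N t : ℝ) (x : E3) : lp (af ν φ A B i) N t x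
    = -(N ^ 2) * af ν φ A B i N t x + N * a1 ν φ A B i N t x + a2 ν φ A B i N t x := by
  have Ph := D.ph
  unfold af
  rw [Tm_lp D.φs (D.Aa i).smooth (D.Ba i).smooth.neg N t x (Ph.f1 (D.Aa i) x)
    (Ph.f1 (D.Ba i).neg x)]
  unfold a1 a2
  ring

theorem lp_add {u w : Fun3} {N t : ℝ} (hu : ContDiff ℝ ∞ (u N t)) (hw : ContDiff ℝ ∞ (w N t))
    (x : E3) : lp (fun N t x => u N t x + w N t x) N t x = lp u N t x + lp w N t x := by
  have h1 : ∀ j, pd j (pd j (fun x => u N t x + w N t x)) x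
      = pd j (pd j (u N t)) x + pd j (pd j (w N t)) x := by
    intro j
    have e : pd j (fun x => u N t x + w N t x) = fun x => pd j (u N t) x + pd j (w N t) x := by
      funext y
      exact pd_add hu hw j y
    rw [e, pd_add (cd_pd hu j) (cd_pd hw j)]
  have h2 : lp (fun N t x => u N t x + w N t x) N t x
      = ∑ j, (pd j (pd j (u N t)) x + pd j (pd j (w N t)) x) :=
    Finset.sum_congr rfl fun j _ => h1 j
  rw [h2, Finset.sum_add_distrib]
  rfl

/-- the leading part of the Laplacian of a harmonic term -/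
theorem Tm_lp_BO (Ph : Ph φ S) {p p' : ℝ → ℝ} (hp : Pf ν p p') (hf : Amp S f) (hg : Amp S g)
    (k : ℝ) : BO ν φ S 1 (fun N t x => lp (Tm φ p k f g) N t x
      - N ^ 2 * (-(k ^ 2) * Tm φ p k f g N t x)) := by
  have c1 : Cl ν φ S (Tm φ p k (Lo φ g) (fun x => -Lo φ f x)) :=
    Tm_cl hp (Lo_amp Ph.φs Ph.Sc hg) (Lo_amp Ph.φs Ph.Sc hf).neg
  have c2 : Cl ν φ S (Tm φ p k (fun x => ∑ j, pd j (pd j f) x) (fun x => ∑ j, pd j (pd j g) x)) :=
    Tm_cl hp (Amp.sum _ fun j _ => (hf.pd Ph.Sc j).pd Ph.Sc j)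
      (Amp.sum _ fun j _ => (hg.pd Ph.Sc j).pd Ph.Sc j)
  refine (((c1.bo.mulN 1).smul k).add c2.bo.up).congr fun N hN t x => ?_
  rw [Tm_lp Ph.φs hf.smooth hg.smooth N t x (Ph.f1 hf x) (Ph.f1 hg x)]
  ring

include hν D hv in
theorem lp_bf (i : Fin 3) : BO ν φ S 1 (fun N t x => lp (bf ν φ A B h v i) N t x
    - N ^ 2 * btt ν φ A B h v i N t x) := by
  have Ph := D.ph
  have TA := D.TA
  have TB := D.TB
  have hφ := D.φs
  have c1 := dd_amp Ph TB i
  have c1' := dd_amp Ph TA i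
  have c2 := (tan_f1 (ν := ν) Ph hv TB).a i
  have c2' := (tan_f1 (ν := ν) Ph hv TA).a i
  have c3 := (tan_f2 Ph D.ha TB).a i
  have c3' := (tan_f2 Ph D.ha TA).a i
  have c4 := (tan_f3 Ph TA TB).a i
  have c4' := (tan_g3 Ph TA TB).a i
  have c5 := D.ha i
  have c5' : Amp S (fun _ : E3 => (0 : ℝ)) := Amp.zero
  refine (((((Tm_lp_BO Ph (pf1 hν) c1 c1' 1).add (Tm_lp_BO Ph (pf2 hν) c2 c2' 1)).add
    (Tm_lp_BO Ph (pf3 hν) c3 c3' 1)).add (Tm_lp_BO Ph (pf4 hν) c4 c4' 2)).add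
    (Tm_lp_BO Ph (pf5 hν) c5 c5' 0)).congr fun N hN t x => ?_
  have d1 := Tm_cdx (p := q1 ν) (k := 1) hφ c1.smooth c1'.smooth N t
  have d2 := Tm_cdx (p := q2 ν) (k := 1) hφ c2.smooth c2'.smooth N t
  have d3 := Tm_cdx (p := q3 ν) (k := 1) hφ c3.smooth c3'.smooth N t
  have d4 := Tm_cdx (p := q4 ν) (k := 2) hφ c4.smooth c4'.smooth N t
  have d5 := Tm_cdx (p := q5 ν) (k := 0) hφ c5.smooth c5'.smooth N t
  unfold bf
  rw [lp_add (((d1.add d2).add d3).add d4) d5, lp_add ((d1.add d2).add d3) d4,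
    lp_add (d1.add d2) d3, lp_add d1 d2]
  unfold btt
  ring

include hν D in
theorem dt_af (i : Fin 3) (N t : ℝ) (x : E3) :
    dt (af ν φ A B i) N t x = N ^ 2 * (-ν * af ν φ A B i N t x) := by
  unfold af
  rw [Tm_dt (pf1 hν).der]
  unfold Tm q1' q1
  ring

theorem Tm_dft {p p' : ℝ → ℝ} (hp : ∀ τ, HasDerivAt p (p' τ) τ) (k : ℝ) (f g : E3 → ℝ)
    (N t : ℝ) (x : E3) : DifferentiableAt ℝ (fun s => Tm φ p k f g N s x) t := by
  have h1 : HasDerivAt (fun s : ℝ => N ^ 2 * s) (N ^ 2 * 1) t := (hasDerivAt_id' t).const_mul _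
  have h2 : HasDerivAt (fun s : ℝ => p (N ^ 2 * s)) (p' (N ^ 2 * t) * (N ^ 2 * 1)) t :=
    (hp (N ^ 2 * t)).comp t h1
  exact (h2.mul_const (f x * Real.cos (k * (N * φ x))
    + g x * Real.sin (k * (N * φ x)))).differentiableAt

include hν in
theorem dt_bf (i : Fin 3) (N t : ℝ) (x : E3) :
    dt (bf ν φ A B h v i) N t x = N ^ 2 * bT ν φ A B h v i N t x := by
  have d1 := Tm_dft (φ := φ) (pf1 hν).der 1 (dd φ B i) (dd φ A i) N t x
  have d2 := Tm_dft (φ := φ) (pf2 hν).der 1 (f1 ν φ v B i) (f1 ν φ v A i) N t x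
  have d3 := Tm_dft (φ := φ) (pf3 hν).der 1 (f2 φ h B i) (f2 φ h A i) N t x
  have d4 := Tm_dft (φ := φ) (pf4 hν).der 2 (f3 φ A B i) (g3 φ A B i) N t x
  have d5 := Tm_dft (φ := φ) (pf5 hν).der 0 (h i) (fun _ => 0) N t x
  unfold bf
  rw [dt_add (((d1.fun_add d2).fun_add d3).fun_add d4) d5,
    dt_add ((d1.fun_add d2).fun_add d3) d4, dt_add (d1.fun_add d2) d3, dt_add d1 d2,
    Tm_dt (pf1 hν).der, Tm_dt (pf2 hν).der, Tm_dt (pf3 hν).der, Tm_dt (pf4 hν).der,
    Tm_dt (pf5 hν).der]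
  unfold bT
  ring

/-! ### the algebraic identities -/

include D in
theorem id1 (N t : ℝ) (x : E3) : ∑ j, af ν φ A B j N t x * pd j φ x = 0 := by
  have t1 := D.tA x
  have t2 := D.tB x
  simp only [af, Tm, Fin.sum_univ_three] at t1 t2 ⊢
  linear_combination q1 ν (N ^ 2 * t) * Real.cos (1 * (N * φ x)) * t1
    - q1 ν (N ^ 2 * t) * Real.sin (1 * (N * φ x)) * t2

include D hv in
theorem id2 (N t : ℝ) (x : E3) : ∑ j, (bf ν φ A B h v j N t x + v j x) * pd j φ x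
    = -(q1 ν (N ^ 2 * t) * ((∑ j, pd j (B j) x) * Real.cos (N * φ x)
      + (∑ j, pd j (A j) x) * Real.sin (N * φ x))) + q5 ν (N ^ 2 * t) * nn φ h x + nn φ v x := by
  have Ph := D.ph
  have TA := D.TA
  have TB := D.TB
  have t1 := dd_n Ph TA x
  have t2 := dd_n Ph TB x
  have t3 := (tan_f1 (ν := ν) Ph hv TA).t x
  have t4 := (tan_f1 (ν := ν) Ph hv TB).t x
  have t5 := (tan_f2 Ph D.ha TA).t x
  have t6 := (tan_f2 Ph D.ha TB).t x
  have t7 := (tan_f3 Ph TA TB).t x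
  have t8 := (tan_g3 Ph TA TB).t x
  simp only [Fin.sum_univ_three] at t1 t2 t3 t4 t5 t6 t7 t8 ⊢
  simp only [bf, Tm, nn, Fin.sum_univ_three, one_mul, zero_mul, Real.cos_zero, Real.sin_zero,
    mul_one, mul_zero, add_zero]
  linear_combination q1 ν (N ^ 2 * t) * Real.sin (N * φ x) * t1
    + q1 ν (N ^ 2 * t) * Real.cos (N * φ x) * t2
    + q2 ν (N ^ 2 * t) * Real.sin (N * φ x) * t3 + q2 ν (N ^ 2 * t) * Real.cos (N * φ x) * t4
    + q3 ν (N ^ 2 * t) * Real.sin (N * φ x) * t5 + q3 ν (N ^ 2 * t) * Real.cos (N * φ x) * t6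
    + q4 ν (N ^ 2 * t) * Real.cos (2 * (N * φ x)) * t7
    + q4 ν (N ^ 2 * t) * Real.sin (2 * (N * φ x)) * t8

/-- the directional derivative of a component -/
noncomputable def ad (F G : Fin 3 → E3 → ℝ) (i : Fin 3) : E3 → ℝ := fun x =>
  ∑ j, F j x * pd j (G i) x

/-- the divergence -/
noncomputable def dv (F : Fin 3 → E3 → ℝ) : E3 → ℝ := fun x => ∑ j, pd j (F j) x

theorem id3 (i : Fin 3) (N t : ℝ) (x : E3) :
    ∑ j, af ν φ A B j N t x * al ν φ A B i j N t x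
      = q1 ν (N ^ 2 * t) ^ 2 * (ad A A i x * Real.cos (N * φ x) ^ 2
        - (ad A B i x + ad B A i x) * (Real.cos (N * φ x) * Real.sin (N * φ x))
        + ad B B i x * Real.sin (N * φ x) ^ 2) := by
  simp only [af, al, Tm, ad, Fin.sum_univ_three, one_mul, pd_neg]
  ring

/-- the terms of order `N²` cancel -/
theorem id4 (hν : 0 < ν) (D : Dat ν φ A B h P S K) (i : Fin 3) (N t : ℝ) (x : E3) :
    bT ν φ A B h v i N t x - ν * btt ν φ A B h v i N t x - ν * a1 ν φ A B i N t x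
      + q1 ν (N ^ 2 * t) ^ 2 * (ad A A i x * Real.cos (N * φ x) ^ 2
        - (ad A B i x + ad B A i x) * (Real.cos (N * φ x) * Real.sin (N * φ x))
        + ad B B i x * Real.sin (N * φ x) ^ 2)
      + (-(q1 ν (N ^ 2 * t) * (dv B x * Real.cos (N * φ x)
      + dv A x * Real.sin (N * φ x))) + q5 ν (N ^ 2 * t) * nn φ h x + nn φ v x)
        * at' ν φ A B i N t x
      - Tm φ (q5 ν) 0 (pd i P) (fun _ => 0) N t x
      - 2 * (pd i φ x * Tm φ (q5 ν) 2 (P2 φ A B) (fun x => -P1 φ A B x) N t x) = 0 := by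
  have m := D.mean i x
  have e1 : (∑ j, (A j x * pd j (A i) x + pd j (A j) x * A i x)) = ad A A i x + dv A x * A i x := by
    rw [Finset.sum_add_distrib, ← Finset.sum_mul]
    rfl
  have e2 : (∑ j, (B j x * pd j (B i) x + pd j (B j) x * B i x)) = ad B B i x + dv B x * B i x := by
    rw [Finset.sum_add_distrib, ← Finset.sum_mul]
    rfl
  rw [e1, e2] at m
  have g1 : Gr A B i x = (ad A A i x - dv A x * A i x) - (ad B B i x - dv B x * B i x) := by
    unfold Gr ad dv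
    rw [Finset.sum_sub_distrib, Finset.sum_sub_distrib, ← Finset.sum_mul, ← Finset.sum_mul]
  have g2 : Gi A B i x = ad A B i x + ad B A i x - dv A x * B i x - dv B x * A i x := by
    unfold Gi ad dv
    rw [Finset.sum_sub_distrib, Finset.sum_sub_distrib, Finset.sum_add_distrib, ← Finset.sum_mul,
      ← Finset.sum_mul]
  have l1 : Lo φ (fun x => -B i x) x = -Lo φ (B i) x := by
    unfold Lo
    simp only [pd_neg, mul_neg, Finset.sum_neg_distrib]
    ring
  have hc2 : Real.cos (2 * (N * φ x)) = Real.cos (N * φ x) ^ 2 - Real.sin (N * φ x) ^ 2 :=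
    Real.cos_two_mul' _
  have hs2 : Real.sin (2 * (N * φ x)) = 2 * Real.sin (N * φ x) * Real.cos (N * φ x) :=
    Real.sin_two_mul _
  have hcs : Real.cos (N * φ x) ^ 2 + Real.sin (N * φ x) ^ 2 = 1 := by
    rw [add_comm]
    exact Real.sin_sq_add_cos_sq _
  simp only [bT, btt, a1, at', Tm, one_mul, zero_mul, Real.cos_zero, Real.sin_zero, mul_one,
    mul_zero, add_zero, hc2, hs2, l1, f1, f2, f3, g3, P1, P2, g1, g2, q1, q1', q2, q2', q3, q3',
    q4, q4', q5, q5']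
  have hq3 : 2 * ν * ((ex ν (N ^ 2 * t) - ex ν (N ^ 2 * t) ^ 3) / (2 * ν))
      = ex ν (N ^ 2 * t) - ex ν (N ^ 2 * t) ^ 3 := by field_simp
  have hq4 : 2 * ν * ((ex ν (N ^ 2 * t) ^ 2 - ex ν (N ^ 2 * t) ^ 4) / (2 * ν))
      = ex ν (N ^ 2 * t) ^ 2 - ex ν (N ^ 2 * t) ^ 4 := by field_simp
  generalize (ex ν (N ^ 2 * t) - ex ν (N ^ 2 * t) ^ 3) / (2 * ν) = Q3 at *
  generalize (ex ν (N ^ 2 * t) ^ 2 - ex ν (N ^ 2 * t) ^ 4) / (2 * ν) = Q4 at *
  generalize Real.cos (N * φ x) = c at *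
  generalize Real.sin (N * φ x) = s at *
  generalize ex ν (N ^ 2 * t) = E at *
  generalize N ^ 2 * t = τ at *
  generalize nn φ (Gr A B) x = grn at *
  generalize nn φ (Gi A B) x = gin at *
  generalize nn φ v x = vn at *
  generalize nn φ h x = hn at *
  generalize dd φ A i x = dA at *
  generalize dd φ B i x = dB at *
  generalize Lo φ (A i) x = LA at *
  generalize Lo φ (B i) x = LB at *
  generalize ad A A i x = sAA at *
  generalize ad A B i x = sAB at *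
  generalize ad B A i x = sBA at *
  generalize ad B B i x = sBB at *
  generalize dv A x = vA at *
  generalize dv B x = vB at *
  generalize pd i P x = Pi at *
  generalize pd i φ x = ni at *
  generalize h i x = hi at *
  generalize A i x = Ai at *
  generalize B i x = Bi at *
  linear_combination E ^ 2 * (c ^ 2 + s ^ 2) * m + E ^ 2 * (2 * ν * hi + Pi) * hcs
    + 1 / 2 * (hn * Bi * c + hn * Ai * s) * hq3
    + 2 * (-(1 / 2) * (sAA - vA * Ai - (sBB - vB * Bi) - grn * ni) * (c ^ 2 - s ^ 2)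
      + 1 / 2 * (sAB + sBA - vA * Bi - vB * Ai - gin * ni) * (2 * s * c)) * hq4

end Pool.Agent.J4H18.DN
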