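import Pool.Agent.J4H18.DN.B6

/-!
The residual of the oscillating field is of order `N`.
-/

set_option autoImplicit false
set_option linter.unusedSectionVars false

open MeasureTheory Set Filter Topology
open scoped InnerProductSpace ENNReal ContDiff NNReal

namespace Pool.Agent.J4H18.DN

open H772R2.NS


variable {ν : ℝ} {φ : E3 → ℝ} {A B h : Fin 3 → E3 → ℝ} {P : E3 → ℝ} {S K : Set E3}
  {f g : E3 → ℝ} {F G : Fin 3 → E3 → ℝ} {v : Fin 3 → E3 → ℝ}

section names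

variable (ν φ A B h v P)

/-- the residual -/
noncomputable def Rf (i : Fin 3) : Fun3 := fun N t x =>
  dt (Xf ν φ A B h v i) N t x - ν * lp (Xf ν φ A B h v i) N t x
    + (∑ j, (v j x + Xf ν φ A B h v j N t x) * dx j (Xf ν φ A B h v i) N t x)
    + (∑ j, Xf ν φ A B h v j N t x * pd j (v i) x)
    - dx i (Pr ν φ A B P) N t x

end names

variable (hν : 0 < ν) (D : Dat ν φ A B h P S K) (hv : ∀ j, ContDiff ℝ ∞ (v j))

include hν D hv in
theorem Xf_BO (i : Fin 3) : BO ν φ S 1 (Xf ν φ A B h v i) := by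
  refine ((((af_cl hν D i).bo.mulN 1).add (bf_cl hν D hv i).bo.up).add
    ((rf_cl hν D hv i).bo.invN.mono (by norm_num))).congr fun N hN t x => ?_
  rw [Xf_eq hν D hv i hN t x]
  ring

include hν D in
theorem at_cl (i : Fin 3) : Cl ν φ S (at' ν φ A B i) := Tm_cl (pf1 hν) (D.Ba i).neg (D.Aa i).neg

include hν D in
theorem al_cl (i j : Fin 3) : Cl ν φ S (al ν φ A B i j) :=
  Tm_cl (pf1 hν) ((D.Aa i).pd D.Sc j) ((D.Ba i).neg.pd D.Sc j)

include hν D in
theorem a1_cl (i : Fin 3) : Cl ν φ S (a1 ν φ A B i) :=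
  Tm_cl (pf1 hν) (Lo_amp D.φs D.Sc (D.Ba i).neg) (Lo_amp D.φs D.Sc (D.Aa i)).neg

include hν D in
theorem a2_cl (i : Fin 3) : Cl ν φ S (a2 ν φ A B i) :=
  Tm_cl (pf1 hν) (Amp.sum _ fun j _ => ((D.Aa i).pd D.Sc j).pd D.Sc j)
    (Amp.sum _ fun j _ => ((D.Ba i).neg.pd D.Sc j).pd D.Sc j)

include hν D hv in
theorem bt_cl (i : Fin 3) : Cl ν φ S (bt ν φ A B h v i) := by
  have Ph := D.ph
  have TA := D.TA
  have TB := D.TB
  exact (((Tm_cl (pf1 hν) (dd_amp Ph TA i) (dd_amp Ph TB i).neg).add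
    (Tm_cl (pf2 hν) ((tan_f1 Ph hv TA).a i) ((tan_f1 Ph hv TB).a i).neg)).add
    (Tm_cl (pf3 hν) ((tan_f2 Ph D.ha TA).a i) ((tan_f2 Ph D.ha TB).a i).neg)).add
    ((Tm_cl (pf4 hν) ((tan_g3 Ph TA TB).a i) ((tan_f3 Ph TA TB).a i).neg).smul _)

include hν D hv in
theorem be_cl (i j : Fin 3) : Cl ν φ S (be ν φ A B h v i j) := by
  have Ph := D.ph
  have TA := D.TA
  have TB := D.TB
  have hS := D.Sc
  exact ((((Tm_cl (pf1 hν) ((dd_amp Ph TB i).pd hS j) ((dd_amp Ph TA i).pd hS j)).add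
    (Tm_cl (pf2 hν) (((tan_f1 Ph hv TB).a i).pd hS j) (((tan_f1 Ph hv TA).a i).pd hS j))).add
    (Tm_cl (pf3 hν) (((tan_f2 Ph D.ha TB).a i).pd hS j) (((tan_f2 Ph D.ha TA).a i).pd hS j))).add
    (Tm_cl (pf4 hν) (((tan_f3 Ph TA TB).a i).pd hS j) (((tan_g3 Ph TA TB).a i).pd hS j))).add
    (Tm_cl (pf5 hν) ((D.ha i).pd hS j) (Amp.zero.pd hS j))

include hν D hv in
theorem dx_Xf (i j : Fin 3) {N : ℝ} (hN : 1 ≤ N) (t : ℝ) (x : E3) :
    dx j (Xf ν φ A B h v i) N t x = N ^ 2 * (pd j φ x * at' ν φ A B i N t x)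
      + N * (al ν φ A B i j N t x + pd j φ x * bt ν φ A B h v i N t x)
      + (be ν φ A B h v i j N t x + N⁻¹ * dx j (rf ν φ A B h v i) N t x) := by
  have hφ := D.φs
  rw [dx_congr (w := fun N t x => N * af ν φ A B i N t x + bf ν φ A B h v i N t x
      + N⁻¹ * rf ν φ A B h v i N t x) (fun t x => Xf_eq hν D hv i hN t x) j t x,
    dx_lin ((af_cl hν D i).cdx hφ N t) ((bf_cl hν D hv i).cdx hφ N t)
      ((rf_cl hν D hv i).cdx hφ N t), dx_af D, dx_bf D hv]
  ring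

include hν D hv in
theorem lp_Xf (i : Fin 3) {N : ℝ} (hN : 1 ≤ N) (t : ℝ) (x : E3) :
    lp (Xf ν φ A B h v i) N t x = N * (-(N ^ 2) * af ν φ A B i N t x + N * a1 ν φ A B i N t x
        + a2 ν φ A B i N t x) + lp (bf ν φ A B h v i) N t x
      + N⁻¹ * lp (rf ν φ A B h v i) N t x := by
  have hφ := D.φs
  rw [lp_congr (w := fun N t x => N * af ν φ A B i N t x + bf ν φ A B h v i N t x
      + N⁻¹ * rf ν φ A B h v i N t x) (fun t x => Xf_eq hν D hv i hN t x) t x,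
    lp_lin ((af_cl hν D i).cdx hφ N t) ((bf_cl hν D hv i).cdx hφ N t)
      ((rf_cl hν D hv i).cdx hφ N t), lp_af D]

include hν D hv in
theorem dt_Xf (i : Fin 3) {N : ℝ} (hN : 1 ≤ N) (t : ℝ) (x : E3) :
    dt (Xf ν φ A B h v i) N t x = N * (N ^ 2 * (-ν * af ν φ A B i N t x))
      + N ^ 2 * bT ν φ A B h v i N t x + N⁻¹ * dt (rf ν φ A B h v i) N t x := by
  have hφ := D.φs
  rw [dt_congr (w := fun N t x => N * af ν φ A B i N t x + bf ν φ A B h v i N t x
      + N⁻¹ * rf ν φ A B h v i N t x) (fun t x => Xf_eq hν D hv i hN t x) t x,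
    dt_lin ((af_cl hν D i).dft hφ N t x) ((bf_cl hν D hv i).dft hφ N t x)
      ((rf_cl hν D hv i).dft hφ N t x), dt_af hν D, dt_bf hν]

include D in
theorem P1_amp : Amp S (P1 φ A B) := (nn_amp D.φs (Gi_amp D.ph D.TA D.TB)).smul _

include D in
theorem P2_amp : Amp S (P2 φ A B) := (nn_amp D.φs (Gr_amp D.ph D.TA D.TB)).smul _

include D in
theorem dx_Pr (i : Fin 3) (N t : ℝ) (x : E3) :
    dx i (Pr ν φ A B P) N t x = N ^ 2 * Tm φ (q5 ν) 0 (pd i P) (fun _ => 0) N t x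
      + N ^ 2 * (2 * (pd i φ x * Tm φ (q5 ν) 2 (P2 φ A B) (fun x => -P1 φ A B x) N t x))
      + N * Tm φ (q5 ν) 2 (pd i (P1 φ A B)) (pd i (P2 φ A B)) N t x := by
  have hφ := D.φs
  have c1 := D.Pa.smooth
  have c2 : ContDiff ℝ ∞ (fun _ : E3 => (0 : ℝ)) := contDiff_const
  have c3 := (P1_amp D).smooth
  have c4 := (P2_amp D).smooth
  have d1 := Tm_df (p := q5 ν) (k := 0) hφ c1 c2 N t x
  have d2 := Tm_df (p := q5 ν) (k := 2) hφ c3 c4 N t x
  unfold Pr
  rw [dx_add i (d1.const_mul _) (d2.const_mul _), dx_cN i (fun N => N ^ 2) d1,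
    dx_cN i (fun N => N ^ 1) d2, Tm_dx hφ c1 c2, Tm_dx hφ c3 c4, Tm_n, Tm_n]
  have e : Tm φ (q5 ν) 0 (pd i P) (pd i (fun _ => 0)) N t x
      = Tm φ (q5 ν) 0 (pd i P) (fun _ => 0) N t x := by
    unfold Tm
    simp
  rw [e]
  ring

include hν D hv in
/-- **The residual is of order `N`.** -/
theorem Rf_BO (i : Fin 3) : BO ν φ K 1 (Rf ν φ A B h P v i) := by
  have hφ := D.φs
  have hS := D.Sc
  have cv : ∀ j, ContDiff ℝ ∞ (pd j (v i)) := fun j => cd_pd (hv i) j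
  have hn : ∀ j, ContDiff ℝ ∞ (pd j φ) := fun j => cd_pd hφ j
  have ca := fun j => (af_cl hν D j).bo
  have cb := fun j => (bf_cl hν D hv j).bo
  have cr := fun j => (rf_cl hν D hv j).bo
  have cal := fun j => (al_cl hν D i j).bo
  have cbt := (bt_cl hν D hv i).bo
  have cbe := fun j => (be_cl hν D hv i j).bo
  -- the remainder
  have b1 : BO ν φ S 1 (fun N t x => N⁻¹ * dt (rf ν φ A B h v i) N t x) :=
    ((cr i).dt hφ).invN
  have b2 : BO ν φ S 1 (fun N t x => ν * (N ^ 1 * a2 ν φ A B i N t x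
      + (lp (bf ν φ A B h v i) N t x - N ^ 2 * btt ν φ A B h v i N t x)
      + N⁻¹ * lp (rf ν φ A B h v i) N t x)) := by
    have l1 : BO ν φ S 2 (lp (rf ν φ A B h v i)) :=
      BO.sum _ fun j _ => ((cr i).dx hφ hS j).dx hφ hS j
    exact ((((a2_cl hν D i).bo.mulN 1).add (lp_bf hν D hv i)).add l1.invN).smul ν
  have cc : ∀ j, BO ν φ S 0 (fun N t x => al ν φ A B i j N t x
      + pd j φ x * bt ν φ A B h v i N t x) := fun j => (cal j).add (cbt.stat (hn j))
  have cδ : ∀ j, BO ν φ S 0 (fun N t x => be ν φ A B h v i j N t x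
      + N⁻¹ * dx j (rf ν φ A B h v i) N t x) := fun j =>
    (cbe j).add ((cr i).dx hφ hS j).invN
  have cX : ∀ j, BO ν φ S 2 (dx j (Xf ν φ A B h v i)) := fun j => (Xf_BO hν D hv i).dx hφ hS j
  have b3 : BO ν φ S 1 (fun N t x => ∑ j,
      (N ^ 1 * (af ν φ A B j N t x * (be ν φ A B h v i j N t x
          + N⁻¹ * dx j (rf ν φ A B h v i) N t x))
        + N ^ 1 * (v j x * (al ν φ A B i j N t x + pd j φ x * bt ν φ A B h v i N t x))
        + N ^ 1 * (bf ν φ A B h v j N t x * (al ν φ A B i j N t x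
          + pd j φ x * bt ν φ A B h v i N t x))
        + (v j x * (be ν φ A B h v i j N t x + N⁻¹ * dx j (rf ν φ A B h v i) N t x)
        + bf ν φ A B h v j N t x * (be ν φ A B h v i j N t x
          + N⁻¹ * dx j (rf ν φ A B h v i) N t x))
        + N⁻¹ * (rf ν φ A B h v j N t x * dx j (Xf ν φ A B h v i) N t x))) := by
    refine BO.sum _ fun j _ => ?_
    have k1 := ((ca j).mul hν.le (cδ j)).mulN 1
    have k2 := ((cc j).stat (hv j)).mulN 1
    have k3 := ((cb j).mul hν.le (cc j)).mulN 1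
    have k4 := ((cδ j).stat (hv j)).up
    have k5 := ((cb j).mul hν.le (cδ j)).up
    have k6 := ((cr j).mul hν.le (cX j)).invN
    exact ((((k1.add k2).add k3).add (k4.add k5)).add k6)
  have b4 : BO ν φ S 1 (fun N t x => ∑ j, Xf ν φ A B h v j N t x * pd j (v i) x) :=
    BO.sum _ fun j _ => ((Xf_BO hν D hv j).stat (cv j)).congr fun N _ t x => by ring
  have b5 : BO ν φ S 1 (fun N t x => N ^ 1
      * Tm φ (q5 ν) 2 (pd i (P1 φ A B)) (pd i (P2 φ A B)) N t x) :=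
    (Tm_cl (pf5 hν) ((P1_amp D).pd hS i) ((P2_amp D).pd hS i)).bo.mulN 1
  have toK : ∀ {u : Fun3}, BO ν φ S 1 u → BO ν φ K 1 u := by
    rintro u ⟨r, h1, h2⟩
    exact ⟨r, h1.monoK D.SK, h2⟩
  refine toK (((((b1.sub b2).add b3).add b4).sub b5).congr fun N hN t x => ?_)
  have i1 := id1 D N t x (ν := ν)
  have i2 := id2 D hv N t x (ν := ν)
  have i3 := id3 (ν := ν) (φ := φ) (A := A) (B := B) i N t x
  have i4 := id4 (v := v) hν D i N t x
  have hN0 : N ≠ 0 := by linarith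
  have X := fun j => Xf_eq hν D hv j hN t x
  have dX := fun j => dx_Xf hν D hv i j hN t x
  unfold Rf
  have e1 : (∑ j, (v j x + Xf ν φ A B h v j N t x) * dx j (Xf ν φ A B h v i) N t x)
      = (∑ j, (N ^ 1 * (af ν φ A B j N t x * (be ν φ A B h v i j N t x
          + N⁻¹ * dx j (rf ν φ A B h v i) N t x))
        + N ^ 1 * (v j x * (al ν φ A B i j N t x + pd j φ x * bt ν φ A B h v i N t x))
        + N ^ 1 * (bf ν φ A B h v j N t x * (al ν φ A B i j N t x
          + pd j φ x * bt ν φ A B h v i N t x))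
        + (v j x * (be ν φ A B h v i j N t x + N⁻¹ * dx j (rf ν φ A B h v i) N t x)
        + bf ν φ A B h v j N t x * (be ν φ A B h v i j N t x
          + N⁻¹ * dx j (rf ν φ A B h v i) N t x))
        + N⁻¹ * (rf ν φ A B h v j N t x * dx j (Xf ν φ A B h v i) N t x)))
        + (N ^ 3 * at' ν φ A B i N t x + N ^ 2 * bt ν φ A B h v i N t x)
          * (∑ j, af ν φ A B j N t x * pd j φ x)
        + N ^ 2 * (∑ j, af ν φ A B j N t x * al ν φ A B i j N t x)
        + N ^ 2 * at' ν φ A B i N t x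
          * (∑ j, (bf ν φ A B h v j N t x + v j x) * pd j φ x) := by
    rw [Finset.mul_sum, Finset.mul_sum, Finset.mul_sum, ← Finset.sum_add_distrib,
      ← Finset.sum_add_distrib, ← Finset.sum_add_distrib]
    refine Finset.sum_congr rfl fun j _ => ?_
    have x1 := X j
    have x2 := dX j
    have x3 : (v j x + Xf ν φ A B h v j N t x) * dx j (Xf ν φ A B h v i) N t x
        = (v j x + N * af ν φ A B j N t x + bf ν φ A B h v j N t x)
            * dx j (Xf ν φ A B h v i) N t x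
          + N⁻¹ * (rf ν φ A B h v j N t x * dx j (Xf ν φ A B h v i) N t x) := by
      rw [x1]
      ring
    rw [x3]
    generalize N⁻¹ * (rf ν φ A B h v j N t x * dx j (Xf ν φ A B h v i) N t x) = Z
    rw [x2]
    generalize N⁻¹ * dx j (rf ν φ A B h v i) N t x = Z2
    ring
  rw [dt_Xf hν D hv i hN t x, lp_Xf hν D hv i hN t x, e1, i1, i2, i3, dx_Pr D]
  simp only [dv] at i4
  linear_combination N ^ 2 * i4

end Pool.Agent.J4H18.DN
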