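import Pool.Agent.J4H18.DN.B7
import Pool.Agent.Y303.LV.Fin

/-!
Classes of compactly supported fields, the polar form of the tensor square.
-/

set_option autoImplicit false
set_option linter.unusedSectionVars false

open MeasureTheory Set Filter Topology
open scoped InnerProductSpace ENNReal ContDiff NNReal

namespace Pool.Agent.J4H18.DN

open H772R2.NS
open Pool.Agent.W52.TQ (ibp tns norm_tns graphW_le)
open Pool.Agent.Y303.LV (cl clj clj_coe Adm lap R2 R2_eq jac_off test_off integral_restrict_of_off)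


variable {Ω K : Set E3} {F G : Fin 3 → E3 → ℝ}

/-- vector fields -/
noncomputable def vec (F : Fin 3 → E3 → ℝ) : E3 → E3 := fun x => WithLp.toLp 2 fun i => F i x

theorem vec_apply (x : E3) (i : Fin 3) : vec F x i = F i x := rfl

theorem vec_cd (hF : ∀ i, ContDiff ℝ ∞ (F i)) : ContDiff ℝ ∞ (vec F) := by
  rw [contDiff_euclidean]
  exact hF

theorem jac_vec (hF : ∀ i, ContDiff ℝ ∞ (F i)) (i j : Fin 3) (x : E3) :
    jac (vec F) x (i, j) = pd j (F i) x := by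
  rw [jac_apply, ← fderiv_coord (vec_cd hF)]
  rfl

theorem vec_cont (hF : ∀ i, Continuous (F i)) : Continuous (vec F) :=
  (PiLp.continuous_toLp 2 _).comp (continuous_pi hF)

theorem norm_vec_le {M : ℝ} {x : E3} (h : ∀ i, |F i x| ≤ M) : ‖vec F x‖ ≤ 2 * M := by
  have hM : 0 ≤ M := (abs_nonneg _).trans (h 0)
  have h1 : ‖vec F x‖ ^ 2 ≤ (2 * M) ^ 2 := by
    rw [norm_sq_E3]
    have h2 : ∀ i, vec F x i ^ 2 ≤ M ^ 2 := by
      intro i
      rw [vec_apply, ← sq_abs]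
      exact pow_le_pow_left₀ (abs_nonneg _) (h i) 2
    calc ∑ i, vec F x i ^ 2 ≤ ∑ _i : Fin 3, M ^ 2 := Finset.sum_le_sum fun i _ => h2 i
      _ = 3 * M ^ 2 := by simp
      _ ≤ (2 * M) ^ 2 := by nlinarith [sq_nonneg M]
  exact (pow_le_pow_iff_left₀ (norm_nonneg _) (by positivity) (by norm_num)).1 h1

theorem norm_M3_le {M : ℝ} {m : M3} (h : ∀ i j, |m (i, j)| ≤ M) : ‖m‖ ≤ 3 * M := by
  have hM : 0 ≤ M := (abs_nonneg _).trans (h 0 0)
  have h1 : ‖m‖ ^ 2 ≤ (3 * M) ^ 2 := by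
    rw [norm_sq_M3]
    have h2 : ∀ i j, m (i, j) ^ 2 ≤ M ^ 2 := by
      intro i j
      rw [← sq_abs]
      exact pow_le_pow_left₀ (abs_nonneg _) (h i j) 2
    calc ∑ i, ∑ j, m (i, j) ^ 2 ≤ ∑ _i : Fin 3, ∑ _j : Fin 3, M ^ 2 :=
          Finset.sum_le_sum fun i _ => Finset.sum_le_sum fun j _ => h2 i j
      _ = 9 * M ^ 2 := by simp; ring
      _ = (3 * M) ^ 2 := by ring
  exact (pow_le_pow_iff_left₀ (norm_nonneg _) (by positivity) (by norm_num)).1 h1

/-- the root of the volume -/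
noncomputable def vK (K : Set E3) : ℝ := (volume K).toReal ^ (1 / 2 : ℝ)

theorem vK_nonneg : 0 ≤ vK K := by unfold vK; positivity

/-- bound of the norm of a class by the supremum -/
theorem Lp_norm_le {E : Type} [NormedAddCommGroup E] {f : Lp E 2 (volume.restrict Ω)} {F : E3 → E}
    (h : f =ᵐ[volume.restrict Ω] F) {M : ℝ} (hM : ∀ x, ‖F x‖ ≤ M) (h0 : ∀ x, x ∉ K → F x = 0)
    (hK : IsCompact K) : ‖f‖ ≤ M * vK K := by
  have hM0 : 0 ≤ M := (norm_nonneg _).trans (hM 0)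
  have h1 : eLpNorm F 2 (volume.restrict Ω) ≤ ENNReal.ofReal M * volume K ^ (1 / 2 : ℝ) := by
    calc eLpNorm F 2 (volume.restrict Ω)
        ≤ eLpNorm (K.indicator fun _ => M) 2 (volume.restrict Ω) := by
          refine eLpNorm_mono fun x => ?_
          by_cases hx : x ∈ K
          · rw [indicator_of_mem hx, Real.norm_of_nonneg hM0]
            exact hM x
          · rw [h0 x hx, norm_zero]
            exact norm_nonneg _
      _ ≤ eLpNorm (K.indicator fun _ => M) 2 volume := eLpNorm_mono_measure _ Measure.restrict_le_self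
      _ = ENNReal.ofReal M * volume K ^ (1 / 2 : ℝ) := by
          rw [eLpNorm_indicator_const hK.measurableSet (by norm_num) (by norm_num)]
          simp [Real.enorm_of_nonneg hM0]
  rw [Lp.norm_def, eLpNorm_congr_ae h]
  have hfin : ENNReal.ofReal M * volume K ^ (1 / 2 : ℝ) ≠ ⊤ := by
    refine ENNReal.mul_ne_top ENNReal.ofReal_ne_top ?_
    exact ENNReal.rpow_ne_top_of_nonneg (by norm_num) hK.measure_lt_top.ne
  refine (ENNReal.toReal_mono hfin h1).trans (le_of_eq ?_)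
  rw [ENNReal.toReal_mul, ENNReal.toReal_ofReal hM0, ← ENNReal.toReal_rpow]
  rfl

/-- admissible fields: continuous, vanishing off `K` -/
structure CK (K : Set E3) (F : E3 → E3) : Prop where
  c : Continuous F
  off : ∀ x, x ∉ K → F x = 0

theorem CK.compact {F : E3 → E3} (hK : IsCompact K) (hF : CK K F) : HasCompactSupport F :=
  HasCompactSupport.of_support_subset_isCompact hK fun x hx => by
    by_contra h
    exact hx (hF.off x h)

theorem CK.coe {F : E3 → E3} (hK : IsCompact K) (hF : CK K F) :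
    (cl Ω F : E3 → E3) =ᵐ[volume.restrict Ω] F := by
  have h : MemLp F 2 (volume.restrict Ω) :=
    (hF.c.memLp_of_hasCompactSupport (hF.compact hK)).restrict _
  unfold cl
  rw [dif_pos h]
  exact MemLp.coeFn_toLp _

theorem CK.sub {F G : E3 → E3} (hF : CK K F) (hG : CK K G) : CK K (fun x => F x - G x) :=
  ⟨hF.c.sub hG.c, fun x hx => by rw [hF.off x hx, hG.off x hx, sub_zero]⟩

theorem CK.norm_le {F : E3 → E3} (hK : IsCompact K) (hF : CK K F) {M : ℝ} (hM : ∀ x, ‖F x‖ ≤ M) :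
    ‖cl Ω F‖ ≤ M * vK K := Lp_norm_le (hF.coe hK) hM hF.off hK

theorem CK.cl_sub {F G : E3 → E3} (hK : IsCompact K) (hF : CK K F) (hG : CK K G) :
    cl Ω (fun x => F x - G x) = cl Ω F - cl Ω G := by
  apply Lp.ext
  filter_upwards [hF.coe (Ω := Ω) hK, hG.coe (Ω := Ω) hK, (hF.sub hG).coe (Ω := Ω) hK,
    Lp.coeFn_sub (cl Ω F) (cl Ω G)] with x h1 h2 h3 h4
  rw [h3, h4, Pi.sub_apply, h1, h2]

/-- inner product with a test field -/
theorem CK.inner {F ψ : E3 → E3} {p : L2V Ω} (hK : IsCompact K) (hF : CK K F)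
    (hm : MeasurableSet Ω) (hKΩ : K ⊆ Ω) (hp : p =ᵐ[volume.restrict Ω] ψ) :
    ⟪cl Ω F, p⟫_ℝ = ∫ x, ∑ i, F x i * ψ x i := by
  rw [L2.inner_def, ← integral_restrict_of_off hm (f := fun x => ∑ i, F x i * ψ x i)
    (fun x hx => by
      rw [hF.off x fun h => hx (hKΩ h)]
      simp)]
  refine integral_congr_ae ?_
  filter_upwards [hF.coe (Ω := Ω) hK, hp] with x h1 h2
  rw [h1, h2, inner_E3]

/-- a large ball -/
theorem exists_adm (hK : IsCompact K) : ∃ ρ : ℝ, 0 < ρ ∧ ∀ F : E3 → E3, CK K F → Adm 0 ρ F := by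
  obtain ⟨R, hR⟩ := hK.isBounded.exists_norm_le
  refine ⟨2 * (|R| + 1), by positivity, fun F hF => ⟨hF.c, fun x hx => ?_⟩⟩
  refine hF.off x fun h => ?_
  have h1 := hR x h
  rw [R2_eq, sub_zero] at hx
  have h2 : ‖x‖ ≤ |R| := h1.trans (le_abs_self R)
  have h3 : ‖x‖ ^ 2 ≤ |R| ^ 2 := pow_le_pow_left₀ (norm_nonneg _) h2 2
  have h4 := abs_nonneg R
  nlinarith

theorem CK.test {V : E3 → E3} (hV : IsTest Ω V) : CK (tsupport V) V :=
  ⟨hV.smooth.continuous, fun _ hx => image_eq_zero_of_notMem_tsupport hx⟩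

/-- the pair of a test field -/
theorem test_mem {V : E3 → E3} (hV : IsTest Ω V) : (cl Ω V, clj Ω V) ∈ graphW Ω :=
  Submodule.le_topologicalClosure _ ⟨V, hV, (CK.test hV).coe hV.compact, clj_coe hV⟩

/-! ### the polar form -/

theorem Sb_coe (hΩ : MeasurableSet Ω) {p q : L2V Ω × L2M Ω} (hp : p ∈ graphW Ω)
    (hq : q ∈ graphW Ω) : ((Sb (tensL (Ω := Ω)) p.1 q.1 : L2M Ω) : E3 → M3) =ᵐ[volume.restrict Ω]
      fun x => tns (p.1 x) (q.1 x) + tns (q.1 x) (p.1 x) := by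
  have h := (graphW Ω).add_mem hp hq
  filter_upwards [tensL_coe hΩ hp, tensL_coe hΩ hq, tensL_coe hΩ h, Lp.coeFn_add p.1 q.1,
    Lp.coeFn_sub (tensL (p.1 + q.1) - tensL p.1) (tensL q.1),
    Lp.coeFn_sub (tensL (p.1 + q.1)) (tensL p.1)] with x h1 h2 h3 h4 h5 h6
  unfold Sb
  rw [h5, Pi.sub_apply, h6, Pi.sub_apply, h1, h2]
  have h3' : tensL (p.1 + q.1) x = tens ((p.1 + q.1 : L2V Ω) x) := h3
  rw [h3', h4]
  ext r
  simp only [PiLp.sub_apply, PiLp.add_apply, tens_apply, tns, Pi.add_apply]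
  ring

theorem quad_tensL (hΩ : MeasurableSet Ω) : Quad (graphW Ω) (tensL (Ω := Ω)) where
  add := fun p hp q hq r hr => by
    apply Lp.ext
    filter_upwards [Sb_coe hΩ ((graphW Ω).add_mem hp hq) hr, Sb_coe hΩ hp hr, Sb_coe hΩ hq hr,
      Lp.coeFn_add (Sb tensL p.1 r.1) (Sb tensL q.1 r.1), Lp.coeFn_add p.1 q.1]
      with x h1 h2 h3 h4 h5
    have h1' : Sb tensL (p.1 + q.1) r.1 x = tns ((p.1 + q.1 : L2V Ω) x) (r.1 x)
      + tns (r.1 x) ((p.1 + q.1 : L2V Ω) x) := h1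
    rw [h1', h4, Pi.add_apply, h2, h3, h5]
    ext s
    simp only [PiLp.add_apply, tns, Pi.add_apply]
    ring
  smul := fun a p hp q hq => by
    apply Lp.ext
    filter_upwards [Sb_coe hΩ ((graphW Ω).smul_mem a hp) hq, Sb_coe hΩ hp hq,
      Lp.coeFn_smul a (Sb tensL p.1 q.1), Lp.coeFn_smul a p.1] with x h1 h2 h3 h4
    have h1' : Sb tensL (a • p.1) q.1 x = tns ((a • p.1 : L2V Ω) x) (q.1 x)
      + tns (q.1 x) ((a • p.1 : L2V Ω) x) := h1
    rw [h1', h3, Pi.smul_apply, h2, h4]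
    ext s
    simp only [PiLp.add_apply, PiLp.smul_apply, tns, Pi.smul_apply, smul_eq_mul]
    ring

/-- the bound of the polar form with a bounded field -/
theorem Sb_le (hΩ : MeasurableSet Ω) {p q : L2V Ω × L2M Ω} (hp : p ∈ graphW Ω)
    (hq : q ∈ graphW Ω) {V : E3 → E3} (hV : q.1 =ᵐ[volume.restrict Ω] V) {M : ℝ}
    (hM : ∀ x, ‖V x‖ ≤ M) : ‖Sb tensL p.1 q.1‖ ≤ 2 * M * ‖p.1‖ := by
  refine Lp.norm_le_mul_norm_of_ae_le_mul ?_
  filter_upwards [Sb_coe hΩ hp hq, hV] with x h1 h2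
  rw [h1, h2]
  refine (norm_add_le _ _).trans ?_
  rw [norm_tns, norm_tns]
  have := hM x
  nlinarith [norm_nonneg (p.1 x)]

end Pool.Agent.J4H18.DN
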