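import Pool.Agent.J4H18.DN.C1

/-!
The oscillating field in the function spaces.
-/

set_option autoImplicit false
set_option linter.unusedSectionVars false

open MeasureTheory Set Filter Topology
open scoped InnerProductSpace ENNReal ContDiff NNReal

namespace Pool.Agent.J4H18.DN

open H772R2.NS
open H772R2.NSR (compat_ext)
open H772R2.NSG (mem_cont)
open Pool.Agent.W52.TQ (ibp tns norm_tns graphW_le)
open Pool.Agent.Y303.LV (cl clj clj_coe Adm lap R2 R2_eq jac_off test_off integral_restrict_of_off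
  hasDerivAt_cl ibp_grad ibp_lap)


variable {ν : ℝ} {φ : E3 → ℝ} {A B h : Fin 3 → E3 → ℝ} {P : E3 → ℝ} {S K Ω : Set E3}
  {F : Fin 3 → E3 → ℝ} {v : Fin 3 → E3 → ℝ} {k : ℤ} {U : Fin 3 → Fun3}

theorem test_of (hK : IsCompact K) (hKΩ : K ⊆ Ω) (hF : ∀ i, ContDiff ℝ ∞ (F i))
    (h0 : ∀ i x, x ∉ K → F i x = 0) (hd : ∀ x, ∑ i, pd i (F i) x = 0) : IsTest Ω (vec F) := by
  have hs : Function.support (vec F) ⊆ K := by
    intro x hx
    by_contra h
    refine hx ?_
    ext i
    exact h0 i x h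
  have ht : tsupport (vec F) ⊆ K := closure_minimal hs hK.isClosed
  refine ⟨vec_cd hF, HasCompactSupport.of_support_subset_isCompact hK hs, ht.trans hKΩ, fun x => ?_⟩
  rw [← hd x]
  exact Finset.sum_congr rfl fun i _ => jac_vec hF i i x

theorem CK_vec {K : Set E3} (hF : ∀ i, Continuous (F i)) (h0 : ∀ i x, x ∉ K → F i x = 0) :
    CK K (vec F) := ⟨vec_cont hF, fun x hx => by
      ext i
      exact h0 i x hx⟩

theorem BO_CK (hφ : ContDiff ℝ ∞ φ) (hU : ∀ i, BO ν φ K k (U i)) {N : ℝ} (hN : 1 ≤ N) (t : ℝ) :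
    CK K (vec fun i => U i N t) :=
  CK_vec (fun i => ((hU i).cdx hφ hN t).continuous) fun i _ hx => (hU i).off hN t hx

theorem BO_loc (hφ : ContDiff ℝ ∞ φ) (hK : IsCompact K) {f : Fun3} (hf : BO ν φ K k f) {N : ℝ}
    (hN : 1 ≤ N) (t₀ : ℝ) : ∃ C, 0 ≤ C ∧ ∀ t ∈ Metric.ball t₀ 1, ∀ x, |f N t x| ≤ C := by
  have h1 := (hf.cd hφ hN).continuous
  obtain ⟨C, hC⟩ := ((isCompact_closedBall t₀ 1).prod hK).exists_bound_of_continuousOn
    h1.continuousOn
  refine ⟨max C 0, le_max_right _ _, fun t ht x => ?_⟩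
  by_cases hx : x ∈ K
  · exact (hC (t, x) ⟨Metric.ball_subset_closedBall ht, hx⟩).trans (le_max_left _ _)
  · rw [hf.off hN t hx, abs_zero]
    exact le_max_right _ _

/-- the time derivative of the class -/
theorem BO_deriv (hφ : ContDiff ℝ ∞ φ) (hK : IsCompact K) (hU : ∀ i, BO ν φ K k (U i)) {N : ℝ}
    (hN : 1 ≤ N) (t₀ : ℝ) : HasDerivAt (fun t => cl Ω (vec fun i => U i N t))
      (cl Ω (vec fun i => dt (U i) N t₀)) t₀ := by
  obtain ⟨ρ, hρ, hadm⟩ := exists_adm hK
  have hU1 : ∀ i, BO ν φ K (k + 2) (dt (U i)) := fun i => (hU i).dt hφ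
  obtain ⟨C0, _, h0⟩ := BO_loc hφ hK (hU1 0) hN t₀
  obtain ⟨C1, _, h1⟩ := BO_loc hφ hK (hU1 1) hN t₀
  obtain ⟨C2, _, h2⟩ := BO_loc hφ hK (hU1 2) hN t₀
  refine hasDerivAt_cl (f := fun t => vec fun i => U i N t)
    (f1 := fun t => vec fun i => dt (U i) N t) (C := 2 * max C0 (max C1 C2)) hρ one_pos
    (fun t _ => hadm _ (BO_CK hφ hU hN t)) (hadm _ (BO_CK hφ hU1 hN t₀)) (fun t ht x => ?_)
    (fun t _ x => ?_)
  · refine norm_vec_le fun i => ?_
    fin_cases i
    · exact (h0 t ht x).trans (le_max_left _ _)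
    · exact (h1 t ht x).trans ((le_max_left _ _).trans (le_max_right _ _))
    · exact (h2 t ht x).trans ((le_max_right _ _).trans (le_max_right _ _))
  · have h3 : HasDerivAt (fun t => fun i : Fin 3 => U i N t x) (fun i => dt (U i) N t x) t :=
      hasDerivAt_pi.2 fun i => ((hU i).dft hφ hN t x).hasDerivAt
    exact ((PiLp.continuousLinearEquiv 2 ℝ (fun _ : Fin 3 => ℝ)).symm
      : (Fin 3 → ℝ) →L[ℝ] E3).hasFDerivAt.comp_hasDerivAt t h3

variable (hν : 0 < ν) (D : Dat ν φ A B h P S K) (hv : ∀ j, ContDiff ℝ ∞ (v j)) (hKΩ : K ⊆ Ω)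

theorem BO.toK {S : Set E3} {f : Fun3} (hf : BO ν φ S k f) (h : S ⊆ K) : BO ν φ K k f := by
  obtain ⟨r, h1, h2⟩ := hf
  exact ⟨r, h1.monoK h, h2⟩

include hν D hv in
theorem Xf_K (i : Fin 3) : BO ν φ K 1 (Xf ν φ A B h v i) := (Xf_BO hν D hv i).toK D.SK

include hν D hv in
/-- the field is divergence free -/
theorem Xf_div {N : ℝ} (t : ℝ) (x : E3) :
    ∑ i, pd i (Xf ν φ A B h v i N t) x = 0 := by
  have hφ := D.φs
  have hc : ∀ i j, ContDiff ℝ ∞ (Psi ν φ A B h v i j N t) := fun i j =>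
    (Psi_cl hν D hv i j).cdx hφ N t
  have e : ∀ i, pd i (Xf ν φ A B h v i N t) x = (∑ j, pd i (pd j (Psi ν φ A B h v i j N t)) x)
      + q5 ν (N ^ 2 * t) * pd i (h i) x := by
    intro i
    have e1 : Xf ν φ A B h v i N t = fun y => (∑ j, pd j (Psi ν φ A B h v i j N t) y)
        + q5 ν (N ^ 2 * t) * h i y := by
      funext y
      unfold Xf Tm
      simp
      rfl
    rw [e1, pd_add (ContDiff.sum fun j _ => cd_pd (hc i j) j)
      (contDiff_const.mul (D.ha i).smooth), pd_sum _ fun j _ => cd_pd (hc i j) j,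
      pd_smul (D.ha i).smooth]
  rw [Finset.sum_congr rfl fun i _ => e i, Finset.sum_add_distrib, ← Finset.mul_sum, D.hd x,
    mul_zero, add_zero]
  have h1 : ∀ i j, pd i (pd j (Psi ν φ A B h v i j N t)) x
      = -pd j (pd i (Psi ν φ A B h v j i N t)) x := by
    intro i j
    have e2 : Psi ν φ A B h v i j N t = fun y => -Psi ν φ A B h v j i N t y := by
      funext y
      exact Psi_anti i j N t y
    have e3 : pd i (fun y => -Psi ν φ A B h v j i N t y)
        = fun y => -pd i (Psi ν φ A B h v j i N t) y := by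
      funext y
      exact pd_neg i y
    rw [pd_comm (hc i j) i j, e2, e3, pd_neg]
  simp only [Fin.sum_univ_three]
  have a00 := h1 0 0
  have a11 := h1 1 1
  have a22 := h1 2 2
  have a01 := h1 0 1
  have a02 := h1 0 2
  have a12 := h1 1 2
  linarith

include hν D hv hKΩ in
theorem Xf_test {N : ℝ} (hN : 1 ≤ N) (t : ℝ) :
    IsTest Ω (vec fun i => Xf ν φ A B h v i N t) :=
  test_of D.Kc hKΩ (fun i => (Xf_K hν D hv i).cdx D.φs hN t)
    (fun i _ hx => (Xf_K hν D hv i).off hN t hx) (Xf_div hν D hv t)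

/-- the equation tested with a test field -/
theorem eqn_test (hν : 0 < ν) {v0 : E3 → E3} (hv0 : IsTest Ω v0)
    (D : Dat ν φ A B h P S K) (hKΩ : K ⊆ Ω) {N : ℝ} (hN : 1 ≤ N) (t : ℝ) {ψ : E3 → E3}
    (hψ : IsTest Ω ψ) :
    ∫ x, ∑ i, (dt (Xf ν φ A B h (fun j x => v0 x j) i) N t x
        - Rf ν φ A B h P (fun j x => v0 x j) i N t x) * ψ x i
      = (∫ x, ⟪tens (v0 x + vec (fun i => Xf ν φ A B h (fun j x => v0 x j) i N t) x), jac ψ x⟫_ℝ)
        - (∫ x, ⟪tens (v0 x), jac ψ x⟫_ℝ)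
        - ν * ∫ x, ⟪jac (vec fun i => Xf ν φ A B h (fun j x => v0 x j) i N t) x, jac ψ x⟫_ℝ := by
  have hφ := D.φs
  have hKc := D.Kc
  set v : Fin 3 → E3 → ℝ := fun j x => v0 x j with hvdef
  have hv : ∀ j, ContDiff ℝ ∞ (v j) := fun j => contDiff_coord hv0.smooth j
  set X : Fin 3 → E3 → ℝ := fun i => Xf ν φ A B h v i N t with hX
  have cX : ∀ i, ContDiff ℝ ∞ (X i) := fun i => (Xf_K hν D hv i).cdx hφ hN t
  have oX : ∀ i x, x ∉ K → X i x = 0 := fun i x hx => (Xf_K hν D hv i).off hN t hx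
  have hXt : IsTest Ω (vec X) := Xf_test hν D hv hKΩ hN t
  have hS : IsTest Ω (fun x => v0 x + vec X x) := hv0.add hXt
  have hψc : ∀ j, Continuous (fun x => ψ x j) := fun j => (contDiff_coord hψ.smooth j).continuous
  have hψs : ∀ j, HasCompactSupport (fun x => ψ x j) := fun j =>
    hasCompactSupport_coord hψ.compact j
  have cpd : ∀ {f : E3 → ℝ} (_ : ContDiff ℝ ∞ f) (j : Fin 3), Continuous (pd j f) := fun hf j =>
    (cd_pd hf j).continuous
  -- the quadratic terms
  have jv : ∀ x i j, jac v0 x (i, j) = pd j (v i) x := by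
    intro x i j
    rw [jac_apply, ← fderiv_coord hv0.smooth]
    rfl
  have jS : ∀ x i j, jac (fun x => v0 x + vec X x) x (i, j) = pd j (v i) x + pd j (X i) x := by
    intro x i j
    rw [← jac_vec cX i j x, ← jv x i j]
    have e1 : fderiv ℝ (fun x => v0 x + vec X x) x = fderiv ℝ v0 x + fderiv ℝ (vec X) x :=
      fderiv_fun_add ((hv0.smooth.differentiable (by simp)) x)
        ((hXt.smooth.differentiable (by simp)) x)
    simp only [jac_apply]
    rw [e1]
    rfl
  have t1 : ∫ x, ⟪tens (v0 x + vec X x), jac ψ x⟫_ℝ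
      = -∫ x, ∑ i, (∑ j, (v j x + X j x) * (pd j (v i) x + pd j (X i) x)) * ψ x i := by
    rw [ibp hS hψ]
    congr 1
    refine integral_congr_ae (Eventually.of_forall fun x => ?_)
    simp only
    rw [inner_M3]
    refine Finset.sum_congr rfl fun i _ => ?_
    rw [Finset.sum_mul]
    refine Finset.sum_congr rfl fun j _ => ?_
    rw [jS]
    simp only [tns, PiLp.add_apply, vec_apply]
    ring
  have t2 : ∫ x, ⟪tens (v0 x), jac ψ x⟫_ℝ
      = -∫ x, ∑ i, (∑ j, v j x * pd j (v i) x) * ψ x i := by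
    rw [ibp hv0 hψ]
    congr 1
    refine integral_congr_ae (Eventually.of_forall fun x => ?_)
    simp only
    rw [inner_M3]
    refine Finset.sum_congr rfl fun i _ => ?_
    rw [Finset.sum_mul]
    refine Finset.sum_congr rfl fun j _ => ?_
    rw [jv]
    simp only [tns, hvdef]
    ring
  have t3 : ∫ x, ⟪jac (vec X) x, jac ψ x⟫_ℝ = -∫ x, ∑ i, lp (Xf ν φ A B h v i) N t x * ψ x i := by
    rw [ibp_lap hXt hψ]
    congr 1
    refine integral_congr_ae (Eventually.of_forall fun x => ?_)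
    simp only
    refine Finset.sum_congr rfl fun i _ => ?_
    congr 1
    unfold lap lp
    refine Finset.sum_congr rfl fun j _ => ?_
    have : (fun y => jac (vec X) y (i, j)) = pd j (X i) := by
      funext y
      exact jac_vec cX i j y
    rw [this]
    rfl
  have cPr : ContDiff ℝ ∞ (Pr ν φ A B P N t) :=
    (contDiff_const.mul (Tm_cdx hφ D.Pa.smooth contDiff_const N t)).add
      (contDiff_const.mul (Tm_cdx hφ (P1_amp D).smooth (P2_amp D).smooth N t))
  have oPr : HasCompactSupport (Pr ν φ A B P N t) := by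
    refine HasCompactSupport.of_support_subset_isCompact hKc fun x hx => ?_
    by_contra hcon
    refine hx ?_
    unfold Pr Tm
    rw [D.Pa.off x hcon, (P1_amp D).off x fun h => hcon (D.SK h),
      (P2_amp D).off x fun h => hcon (D.SK h)]
    simp
  have t4 : ∫ x, ∑ i, dx i (Pr ν φ A B P) N t x * ψ x i = 0 := ibp_grad cPr oPr hψ
  -- the integrability
  have iint : ∀ {f : Fin 3 → E3 → ℝ} (_ : ∀ i, Continuous (f i)),
      Integrable (fun x => ∑ i, f i x * ψ x i) := fun hf =>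
    integrable_finsetSum _ fun i _ => ((hf i).mul (hψc i)).integrable_of_hasCompactSupport
      (hψs i).mul_left
  have clp : ∀ i, Continuous (lp (Xf ν φ A B h v i) N t) := fun i =>
    continuous_finsetSum _ fun j _ => (cd_pd (cd_pd (cX i) j) j).continuous
  have cPr' : ∀ i, Continuous (dx i (Pr ν φ A B P) N t) := fun i => (cd_pd cPr i).continuous
  have cv : ∀ i, Continuous (v i) := fun i => (hv i).continuous
  have cX' : ∀ i, Continuous (X i) := fun i => (cX i).continuous
  have c1 : ∀ i, Continuous (fun x => ∑ j, (v j x + X j x) * (pd j (v i) x + pd j (X i) x)) :=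
    fun i => continuous_finsetSum _ fun j _ => ((cv j).add (cX' j)).mul
      ((cpd (hv i) j).add (cpd (cX i) j))
  have c2 : ∀ i, Continuous (fun x => ∑ j, v j x * pd j (v i) x) :=
    fun i => continuous_finsetSum _ fun j _ => (cv j).mul (cpd (hv i) j)
  have key : (fun x => ∑ i, (dt (Xf ν φ A B h v i) N t x - Rf ν φ A B h P v i N t x) * ψ x i)
      = fun x => -(∑ i, (∑ j, (v j x + X j x) * (pd j (v i) x + pd j (X i) x)) * ψ x i)
        + (∑ i, (∑ j, v j x * pd j (v i) x) * ψ x i)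
        + ν * (∑ i, lp (Xf ν φ A B h v i) N t x * ψ x i)
        + ∑ i, dx i (Pr ν φ A B P) N t x * ψ x i := by
    funext x
    rw [Finset.mul_sum, ← Finset.sum_neg_distrib, ← Finset.sum_add_distrib,
      ← Finset.sum_add_distrib, ← Finset.sum_add_distrib]
    refine Finset.sum_congr rfl fun i _ => ?_
    unfold Rf
    have e1 : (∑ j, (v j x + X j x) * (pd j (v i) x + pd j (X i) x))
        = (∑ j, v j x * pd j (v i) x)
          + (∑ j, (v j x + Xf ν φ A B h v j N t x) * dx j (Xf ν φ A B h v i) N t x)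
          + (∑ j, Xf ν φ A B h v j N t x * pd j (v i) x) := by
      rw [← Finset.sum_add_distrib, ← Finset.sum_add_distrib]
      refine Finset.sum_congr rfl fun j _ => ?_
      have e2 : dx j (Xf ν φ A B h v i) N t x = pd j (X i) x := rfl
      rw [e2]
      simp only [hX]
      ring
    rw [e1]
    ring
  have j1 := iint c1
  have j2 := iint c2
  have j3 := iint clp
  have j4 := iint cPr'
  have hfin : ∀ {I1 I2 I3 I4 : E3 → ℝ}, Integrable I1 → Integrable I2 → Integrable I3 →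
      Integrable I4 → ∫ x, (-I1 x + I2 x + ν * I3 x + I4 x)
        = -(∫ x, I1 x) + (∫ x, I2 x) + ν * (∫ x, I3 x) + ∫ x, I4 x := by
    intro I1 I2 I3 I4 k1 k2 k3 k4
    have l1 : Integrable (fun x => -I1 x) := k1.neg
    have l2 : Integrable (fun x => -I1 x + I2 x) := l1.add k2
    have l3 : Integrable (fun x => ν * I3 x) := k3.const_mul ν
    have l4 : Integrable (fun x => -I1 x + I2 x + ν * I3 x) := l2.add l3
    rw [integral_add l4 k4, integral_add l2 l3, integral_add l1 k2, integral_neg,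
      integral_const_mul]
  rw [key, hfin j1 j2 j3 j4, t4, t1, t2, t3]
  ring

end Pool.Agent.J4H18.DN
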