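import Pool.Agent.J4H18.DN.C2
import Pool.Agent.J4H18.DN.A5

/-!
The oscillating field satisfies the hypotheses of the perturbation theorem.
-/

set_option autoImplicit false
set_option linter.unusedSectionVars false

open MeasureTheory Set Filter Topology
open scoped InnerProductSpace ENNReal ContDiff NNReal

namespace Pool.Agent.J4H18.DN

open H772R2.NS
open H772R2.NSR (compat_ext)
open H772R2.NSG (mem_cont)
open Pool.Agent.W52.TQ (ibp tns norm_tns graphW_le)
open Pool.Agent.Y303.LV (cl clj clj_coe Adm lap R2 R2_eq jac_off test_off integral_restrict_of_off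
  hasDerivAt_cl ibp_grad ibp_lap)


variable {ν : ℝ} {φ : E3 → ℝ} {A B h : Fin 3 → E3 → ℝ} {P : E3 → ℝ} {S K Ω : Set E3}
  {F : Fin 3 → E3 → ℝ} {v : Fin 3 → E3 → ℝ} {k : ℤ} {U : Fin 3 → Fun3}

theorem max3 {f : Fin 3 → ℝ} : ∃ C, 0 ≤ C ∧ ∀ i, f i ≤ C := by
  refine ⟨|f 0| + |f 1| + |f 2|, by positivity, fun i => ?_⟩
  fin_cases i
  · have := le_abs_self (f 0)
    have := abs_nonneg (f 1)
    have := abs_nonneg (f 2)
    simp only [Fin.zero_eta]
    linarith
  · have := le_abs_self (f 1)
    have := abs_nonneg (f 0)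
    have := abs_nonneg (f 2)
    simp only [Fin.mk_one]
    linarith
  · have := le_abs_self (f 2)
    have := abs_nonneg (f 0)
    have := abs_nonneg (f 1)
    simp only [Fin.reduceFinMk]
    linarith

/-- uniform bounds of a family -/
theorem BO_fam (hφ : ContDiff ℝ ∞ φ) (hν : 0 < ν) (hK : IsCompact K)
    (hU : ∀ i, BO ν φ K k (U i)) : ∃ C : ℝ, 0 ≤ C ∧
    (∀ N, 1 ≤ N → ∀ t, 0 ≤ t → ∀ x, ‖vec (fun i => U i N t) x‖ ≤ C * N ^ k * ev (ν / 2) N t) ∧
    ∀ N, 1 ≤ N → ∀ s, 0 ≤ s → ∀ t, s ≤ t → ∀ x,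
      ‖vec (fun i => U i N t) x - vec (fun i => U i N s) x‖
        ≤ C * N ^ (k + 2) * (t - s) * ev (ν / 2) N s := by
  choose C1 hC1 h1 using fun i => (hU i).bound hν hK
  choose C2 hC2 h2 using fun i => (hU i).lip hφ hν hK
  obtain ⟨M1, hM1, m1⟩ := max3 (f := C1)
  obtain ⟨M2, hM2, m2⟩ := max3 (f := C2)
  refine ⟨2 * (M1 + M2), by positivity, fun N hN t ht x => ?_, fun N hN s hs t hst x => ?_⟩
  · have hN0 : 0 < N := by linarith
    have hNk : 0 < N ^ k := zpow_pos hN0 k
    have he := ev_pos (δ := ν / 2) (N := N) t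
    calc ‖vec (fun i => U i N t) x‖ ≤ 2 * (M1 * N ^ k * ev (ν / 2) N t) := by
          refine norm_vec_le fun i => (h1 i N hN t ht x).trans ?_
          have := m1 i
          gcongr
      _ ≤ 2 * ((M1 + M2) * N ^ k * ev (ν / 2) N t) := by
          gcongr
          linarith
      _ = _ := by ring
  · have hN0 : 0 < N := by linarith
    have hNk : 0 < N ^ (k + 2) := zpow_pos hN0 _
    have he := ev_pos (δ := ν / 2) (N := N) s
    have hts : 0 ≤ t - s := by linarith
    have e : vec (fun i => U i N t) x - vec (fun i => U i N s) x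
        = vec (fun i x => U i N t x - U i N s x) x := by
      ext i
      rfl
    rw [e]
    calc ‖vec (fun i x => U i N t x - U i N s x) x‖
        ≤ 2 * (M2 * N ^ (k + 2) * (t - s) * ev (ν / 2) N s) := by
          refine norm_vec_le fun i => (h2 i N hN s hs t hst x).trans ?_
          have := m2 i
          gcongr
      _ ≤ 2 * ((M1 + M2) * N ^ (k + 2) * (t - s) * ev (ν / 2) N s) := by
          gcongr
          linarith
      _ = _ := by ring

theorem cl_lip (hK : IsCompact K) {V W : E3 → E3} (hV : CK K V) (hW : CK K W) {M : ℝ}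
    (hM : ∀ x, ‖V x - W x‖ ≤ M) : ‖cl Ω V - cl Ω W‖ ≤ M * vK K := by
  rw [← CK.cl_sub hK hV hW]
  exact (hV.sub hW).norm_le hK hM

theorem jac_offK {V : E3 → E3} (hK : IsClosed K) (h0 : ∀ x, x ∉ K → V x = 0) {x : E3}
    (hx : x ∉ K) : jac V x = 0 := by
  have h1 : V =ᶠ[𝓝 x] fun _ => (0 : E3) := by
    filter_upwards [hK.isOpen_compl.mem_nhds hx] with y hy using h0 y hy
  ext p
  rw [jac_apply, h1.fderiv_eq]
  simp

theorem clj_lip (hK : IsCompact K) {V W : E3 → E3} (hV : IsTest Ω V) (hW : IsTest Ω W)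
    (oV : ∀ x, x ∉ K → V x = 0) (oW : ∀ x, x ∉ K → W x = 0) {M : ℝ}
    (hM : ∀ x, ‖jac V x - jac W x‖ ≤ M) : ‖clj Ω V - clj Ω W‖ ≤ M * vK K := by
  refine Lp_norm_le (F := fun x => jac V x - jac W x) ?_ hM ?_ hK
  · filter_upwards [clj_coe hV, clj_coe hW, Lp.coeFn_sub (clj Ω V) (clj Ω W)] with x h1 h2 h3
    rw [h3, Pi.sub_apply, h1, h2]
  · intro x hx
    rw [jac_offK hK.isClosed oV hx, jac_offK hK.isClosed oW hx, sub_zero]

theorem cl_add' {V W : E3 → E3} (hV : IsTest Ω V) (hW : IsTest Ω W) :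
    cl Ω (fun x => V x + W x) = cl Ω V + cl Ω W := by
  have hS : IsTest Ω (fun x => V x + W x) := hV.add hW
  apply Lp.ext
  filter_upwards [(CK.test hV).coe (Ω := Ω) hV.compact, (CK.test hW).coe (Ω := Ω) hW.compact,
    (CK.test hS).coe (Ω := Ω) hS.compact, Lp.coeFn_add (cl Ω V) (cl Ω W)] with x h1 h2 h3 h4
  rw [h3, h4, Pi.add_apply, h1, h2]

/-- pairings in the function spaces -/
theorem pair_tens (hm : MeasurableSet Ω) {V ψ : E3 → E3} (hV : IsTest Ω V) (hψ : IsTest Ω ψ)
    {p : L2V Ω × L2M Ω} (hp : p.2 =ᵐ[volume.restrict Ω] jac ψ) :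
    ⟪tensL (cl Ω V), p.2⟫_ℝ = ∫ x, ⟪tens (V x), jac ψ x⟫_ℝ := by
  rw [L2.inner_def, ← integral_restrict_of_off hm (f := fun x => ⟪tens (V x), jac ψ x⟫_ℝ)
    (fun x hx => by rw [jac_off hψ hx, inner_zero_right])]
  refine integral_congr_ae ?_
  filter_upwards [tensL_coe hm (test_mem hV), hp, (CK.test hV).coe (Ω := Ω) hV.compact]
    with x c1 c2 c3
  rw [c1, c2, c3]

theorem pair_jac (hm : MeasurableSet Ω) {V ψ : E3 → E3} (hV : IsTest Ω V) (hψ : IsTest Ω ψ)
    {p : L2V Ω × L2M Ω} (hp : p.2 =ᵐ[volume.restrict Ω] jac ψ) :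
    ⟪clj Ω V, p.2⟫_ℝ = ∫ x, ⟪jac V x, jac ψ x⟫_ℝ := by
  rw [L2.inner_def, ← integral_restrict_of_off hm (f := fun x => ⟪jac V x, jac ψ x⟫_ℝ)
    (fun x hx => by rw [jac_off hψ hx, inner_zero_right])]
  refine integral_congr_ae ?_
  filter_upwards [clj_coe hV, hp] with x c1 c2
  rw [c1, c2]

/-- **The oscillating field.** -/
theorem exists_osc (hΩ : IsOpen Ω) (hν : 0 < ν) {v0 : E3 → E3} (hv0 : IsTest Ω v0)
    (D : Dat ν φ A B h P S K) (hKΩ : K ⊆ Ω) (T : ℝ) : ∃ a : ℝ, 0 < a ∧ ∀ N, 1 ≤ N →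
    Osc (graphW Ω) (tensL (Ω := Ω)) ν T a (ν / 2) N (cl Ω v0)
      (fun t => cl Ω (vec fun i => Xf ν φ A B h (fun j x => v0 x j) i N t))
      (fun t => cl Ω (vec fun i => dt (Xf ν φ A B h (fun j x => v0 x j) i) N t))
      (fun t => cl Ω (vec fun i => Rf ν φ A B h P (fun j x => v0 x j) i N t))
      (fun t => clj Ω (vec fun i => Xf ν φ A B h (fun j x => v0 x j) i N t)) := by
  have hφ := D.φs
  have hKc := D.Kc
  have hm := hΩ.measurableSet
  set v : Fin 3 → E3 → ℝ := fun j x => v0 x j with hvdef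
  have hv : ∀ j, ContDiff ℝ ∞ (v j) := fun j => contDiff_coord hv0.smooth j
  have bX : ∀ i, BO ν φ K 1 (Xf ν φ A B h v i) := Xf_K hν D hv
  have bX1 : ∀ i, BO ν φ K (1 + 2) (dt (Xf ν φ A B h v i)) := fun i => (bX i).dt hφ
  have bR : ∀ i, BO ν φ K 1 (Rf ν φ A B h P v i) := Rf_BO hν D hv
  obtain ⟨Ca, hCa, a1, a2⟩ := BO_fam hφ hν hKc bX
  obtain ⟨Cb, hCb, b1, b2⟩ := BO_fam hφ hν hKc bR
  have hvK : 0 ≤ vK K := vK_nonneg
  set a : ℝ := 2 * Ca + Cb * vK K + 1 with ha
  have ha0 : 0 < a := by positivity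
  refine ⟨a, ha0, fun N hN => ?_⟩
  have hN0 : 0 < N := by linarith
  have test : ∀ t, IsTest Ω (vec fun i => Xf ν φ A B h v i N t) := fun t =>
    Xf_test hν D hv hKΩ hN t
  have ckX : ∀ t, CK K (vec fun i => Xf ν φ A B h v i N t) := BO_CK hφ bX hN
  have ckR : ∀ t, CK K (vec fun i => Rf ν φ A B h P v i N t) := BO_CK hφ bR hN
  have z1 : N ^ (1 : ℤ) = N := zpow_one N
  have z3 : N ^ ((1 : ℤ) + 2) = N ^ 3 := by
    rw [show (1 : ℤ) + 2 = ((3 : ℕ) : ℤ) by norm_num, zpow_natCast]
  have dX1 : ∀ t, HasDerivAt (fun t => cl Ω (vec fun i => dt (Xf ν φ A B h v i) N t))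
      (cl Ω (vec fun i => dt (dt (Xf ν φ A B h v i)) N t)) t := BO_deriv hφ hKc bX1 hN
  have cX1 : Continuous (fun t => cl Ω (vec fun i => dt (Xf ν φ A B h v i) N t)) :=
    continuous_iff_continuousAt.2 fun t => (dX1 t).continuousAt
  exact
    { mem := fun t _ => test_mem (test t)
      X1m := mem_cont cX1.continuousOn
      pX := fun x y hx hxy hy => by
        symm
        refine intervalIntegral.integral_eq_sub_of_hasDerivAt
          (f := fun t => cl Ω (vec fun i => Xf ν φ A B h v i N t))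
          (fun t _ => BO_deriv hφ hKc bX hN t) (cX1.intervalIntegrable _ _)
      dc := by
        -- Lipschitz continuity of the gradient
        have hb : ∀ i j, BO ν φ K (1 + 1) (dx j (Xf ν φ A B h v i)) := fun i j =>
          (bX i).dx hφ hKc.isClosed j
        choose C hC hL using fun (p : Fin 3 × Fin 3) => (hb p.1 p.2).lip hφ hν hKc
        obtain ⟨M, hM⟩ : ∃ M, ∀ p, C p ≤ M := ⟨∑ p, |C p|, fun p => (le_abs_self _).trans
          (Finset.single_le_sum (f := fun p => |C p|) (fun _ _ => abs_nonneg _)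
            (Finset.mem_univ p))⟩
        have hM0 : 0 ≤ M := (hC (0, 0)).trans (hM _)
        set Z : ℝ := M * N ^ ((1 : ℤ) + 1 + 2) with hZ
        have hZ0 : 0 ≤ Z := by positivity
        have hlip : ∀ s ∈ Icc 0 T, ∀ t ∈ Icc 0 T, s ≤ t →
            ‖clj Ω (vec fun i => Xf ν φ A B h v i N t) - clj Ω (vec fun i => Xf ν φ A B h v i N s)‖
              ≤ 3 * (Z * (t - s)) * vK K := by
          intro s hs t ht hst
          have hts : 0 ≤ t - s := by linarith
          refine clj_lip hKc (test t) (test s) (ckX t).off (ckX s).off fun x => ?_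
          refine norm_M3_le fun i j => ?_
          rw [PiLp.sub_apply, jac_vec (fun i => (bX i).cdx hφ hN t),
            jac_vec (fun i => (bX i).cdx hφ hN s)]
          refine (hL (i, j) N hN s hs.1 t hst x).trans ?_
          have e1 := ev_le_one (δ := ν / 2) (N := N) (by positivity) hs.1
          have e2 := ev_pos (δ := ν / 2) (N := N) s
          have e3 := hM (i, j)
          calc C (i, j) * N ^ ((1 : ℤ) + 1 + 2) * (t - s) * ev (ν / 2) N s
              ≤ M * N ^ ((1 : ℤ) + 1 + 2) * (t - s) * 1 := by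
                have := hC (i, j)
                gcongr
            _ = Z * (t - s) := by rw [hZ]; ring
        have hlip' : LipschitzOnWith (Real.toNNReal (3 * Z * vK K))
            (fun t => clj Ω (vec fun i => Xf ν φ A B h v i N t)) (Icc 0 T) := by
          refine LipschitzOnWith.of_dist_le_mul fun s hs t ht => ?_
          rw [Real.coe_toNNReal _ (by positivity), dist_eq_norm, Real.dist_eq]
          rcases le_total s t with hst | hst
          · rw [norm_sub_rev, abs_sub_comm, abs_of_nonneg (by linarith)]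
            refine (hlip s hs t ht hst).trans (le_of_eq (by ring))
          · rw [abs_of_nonneg (by linarith)]
            refine (hlip t ht s hs hst).trans (le_of_eq (by ring))
        exact hlip'.continuousOn
      eqn := fun t _ => by
        have key : ∀ p ∈ graphW Ω, ⟪tensL (cl Ω v0 + cl Ω (vec fun i => Xf ν φ A B h v i N t))
            - tensL (cl Ω v0) - ν • clj Ω (vec fun i => Xf ν φ A B h v i N t), p.2⟫_ℝ
            = ⟪cl Ω (vec fun i => dt (Xf ν φ A B h v i) N t)
              - cl Ω (vec fun i => Rf ν φ A B h P v i N t), p.1⟫_ℝ := by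
          refine compat_ext ?_
          rintro p ⟨ψ, k1, k2, k3⟩
          have hS : IsTest Ω (fun x => v0 x + vec (fun i => Xf ν φ A B h v i N t) x) :=
            hv0.add (test t)
          have ck1 := BO_CK hφ bX1 hN t
          have e1 := CK.cl_sub (Ω := Ω) hKc ck1 (ckR t)
          rw [← e1, (ck1.sub (ckR t)).inner hKc hm hKΩ k2, ← cl_add' hv0 (test t), inner_sub_left,
            inner_sub_left, real_inner_smul_left, pair_tens hm hS k1 k3, pair_tens hm hv0 k1 k3,
            pair_jac hm (test t) k1 k3]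
          exact (eqn_test hν hv0 D hKΩ hN t k1).symm
        intro p hp
        have h3 := key p hp
        rw [inner_sub_left (𝕜 := ℝ) (cl Ω (vec fun i => dt (Xf ν φ A B h v i) N t))] at h3
        linarith
      cr := fun t ht p hp q hq => by
        have h1 := Sb_le hm hp (test_mem (test t)) ((ckX t).coe hKc) (a1 N hN t ht.1)
        have h2 := abs_real_inner_le_norm
          (Sb tensL p.1 (cl Ω (vec fun i => Xf ν φ A B h v i N t))) q.2
        have he := ev_pos (δ := ν / 2) (N := N) t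
        refine h2.trans ?_
        calc _ ≤ 2 * (Ca * N ^ (1 : ℤ) * ev (ν / 2) N t) * ‖p.1‖ * ‖q.2‖ := by gcongr
          _ = 2 * Ca * N * ev (ν / 2) N t * (‖p.1‖ * ‖q.2‖) := by rw [z1]; ring
          _ ≤ a * N * ev (ν / 2) N t * (‖p.1‖ * ‖q.2‖) := by
              have : 2 * Ca ≤ a := by
                have : 0 ≤ Cb * vK K := by positivity
                linarith
              gcongr
      cr1 := fun s hs t ht hst p hp q hq => by
        have hts : 0 ≤ t - s := by linarith
        have hd := (graphW Ω).sub_mem (test_mem (test t)) (test_mem (test s))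
        have hc : (cl Ω (vec fun i => Xf ν φ A B h v i N t)
            - cl Ω (vec fun i => Xf ν φ A B h v i N s) : L2V Ω) =ᵐ[volume.restrict Ω]
            fun x => vec (fun i => Xf ν φ A B h v i N t) x
              - vec (fun i => Xf ν φ A B h v i N s) x := by
          rw [← CK.cl_sub hKc (ckX t) (ckX s)]
          exact ((ckX t).sub (ckX s)).coe hKc
        have h1 := Sb_le hm hp hd hc (a2 N hN s hs.1 t hst)
        have h2 := abs_real_inner_le_norm
          (Sb tensL p.1 (cl Ω (vec fun i => Xf ν φ A B h v i N t)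
            - cl Ω (vec fun i => Xf ν φ A B h v i N s))) q.2
        have he := ev_pos (δ := ν / 2) (N := N) s
        refine h2.trans ?_
        calc _ ≤ 2 * (Ca * N ^ ((1 : ℤ) + 2) * (t - s) * ev (ν / 2) N s) * ‖p.1‖ * ‖q.2‖ := by
              gcongr
              exact h1
          _ = 2 * Ca * N ^ 3 * (t - s) * ev (ν / 2) N s * (‖p.1‖ * ‖q.2‖) := by rw [z3]; ring
          _ ≤ a * N ^ 3 * (t - s) * ev (ν / 2) N s * (‖p.1‖ * ‖q.2‖) := by
              have : 2 * Ca ≤ a := by
                have : 0 ≤ Cb * vK K := by positivity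
                linarith
              gcongr
      gb := fun t ht => by
        have h1 := (ckR t).norm_le (Ω := Ω) hKc (b1 N hN t ht.1)
        have he := ev_pos (δ := ν / 2) (N := N) t
        refine h1.trans ?_
        calc Cb * N ^ (1 : ℤ) * ev (ν / 2) N t * vK K = Cb * vK K * N * ev (ν / 2) N t := by
              rw [z1]; ring
          _ ≤ a * N * ev (ν / 2) N t := by
              have : Cb * vK K ≤ a := by linarith
              gcongr
      g1 := fun s hs t ht hst => by
        have hts : 0 ≤ t - s := by linarith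
        have h1 := cl_lip (Ω := Ω) hKc (ckR t) (ckR s) (b2 N hN s hs.1 t hst)
        have he := ev_pos (δ := ν / 2) (N := N) s
        refine h1.trans ?_
        calc Cb * N ^ ((1 : ℤ) + 2) * (t - s) * ev (ν / 2) N s * vK K
            = Cb * vK K * N ^ 3 * (t - s) * ev (ν / 2) N s := by
              rw [z3]; ring
          _ ≤ a * N ^ 3 * (t - s) * ev (ν / 2) N s := by
              have : Cb * vK K ≤ a := by linarith
              gcongr }

end Pool.Agent.J4H18.DN
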