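import Pool.Agent.J4H18.DN.C3

/-!
The initial value of the oscillating field is close to `h` in a weak sense.
-/

set_option autoImplicit false
set_option linter.unusedSectionVars false

open MeasureTheory Set Filter Topology
open scoped InnerProductSpace ENNReal ContDiff NNReal

namespace Pool.Agent.J4H18.DN

open H772R2.NS
open Pool.Agent.Y303.LV (cl clj clj_coe)


variable {ν : ℝ} {φ : E3 → ℝ} {A B h : Fin 3 → E3 → ℝ} {P : E3 → ℝ} {S K Ω : Set E3}
  {F : Fin 3 → E3 → ℝ} {v : Fin 3 → E3 → ℝ} {f g : E3 → ℝ}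

/-- the norm in `L²` of a scalar function -/
noncomputable def n2 (g : E3 → ℝ) : ℝ := √(∫ x, g x ^ 2)

/-- the norm in `L²` of the gradient -/
noncomputable def G1 (ψ : E3 → E3) : ℝ := √(∫ x, ‖jac ψ x‖ ^ 2)

/-- the norm in `L²` of the second derivatives -/
noncomputable def G2 (ψ : E3 → E3) : ℝ := √(∫ x, ∑ l, ‖fderiv ℝ (jac ψ) x (H772R2.NS.ev l)‖ ^ 2)

theorem n2_nonneg : 0 ≤ n2 g := Real.sqrt_nonneg _

theorem cs (hf : Continuous f) (hfc : HasCompactSupport f) (hg : Continuous g)
    (hgc : HasCompactSupport g) : |∫ x, f x * g x| ≤ n2 f * n2 g := by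
  have mf : MemLp f 2 volume := hf.memLp_of_hasCompactSupport hfc
  have mg : MemLp g 2 volume := hg.memLp_of_hasCompactSupport hgc
  have h1 := abs_real_inner_le_norm (mf.toLp f) (mg.toLp g)
  have h2 : ⟪mf.toLp f, mg.toLp g⟫_ℝ = ∫ x, f x * g x := by
    rw [L2.inner_def]
    refine integral_congr_ae ?_
    filter_upwards [mf.coeFn_toLp, mg.coeFn_toLp] with x a b
    rw [a, b]
    simp [mul_comm]
  have h3 : ∀ {u : E3 → ℝ} (mu : MemLp u 2 volume), ‖mu.toLp u‖ = n2 u := by
    intro u mu
    unfold n2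
    rw [← Real.sqrt_sq (norm_nonneg (mu.toLp u)), ← real_inner_self_eq_norm_sq, L2.inner_def]
    congr 1
    refine integral_congr_ae ?_
    filter_upwards [mu.coeFn_toLp] with x a
    rw [a]
    simp [sq]
  rw [h2, h3, h3] at h1
  exact h1

theorem n2_le (hf : Continuous f) (hK : IsCompact K) (h0 : ∀ x, x ∉ K → f x = 0) {M : ℝ}
    (hM : ∀ x, |f x| ≤ M) : n2 f ≤ M * vK K := by
  have hs : HasCompactSupport f := HasCompactSupport.of_support_subset_isCompact hK fun x hx => by
    by_contra h
    exact hx (h0 x h)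
  have mf : MemLp f 2 (volume.restrict univ) :=
    (hf.memLp_of_hasCompactSupport hs).restrict _
  have h1 := Lp_norm_le (Ω := univ) (K := K) mf.coeFn_toLp hM h0 hK
  refine le_trans (le_of_eq ?_) h1
  unfold n2
  rw [← Real.sqrt_sq (norm_nonneg (mf.toLp f)), ← real_inner_self_eq_norm_sq, L2.inner_def]
  congr 1
  rw [← setIntegral_univ]
  refine integral_congr_ae ?_
  filter_upwards [mf.coeFn_toLp] with x a
  rw [a]
  simp [sq]

/-- integration by parts for scalar functions -/
theorem ibp_s (hf : ContDiff ℝ ∞ f) (hg : ContDiff ℝ ∞ g) (hgc : HasCompactSupport g) (j : Fin 3) :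
    ∫ x, pd j f x * g x = -∫ x, f x * pd j g x := by
  have cf : Continuous (pd j f) := (cd_pd hf j).continuous
  have cg : Continuous (pd j g) := (cd_pd hg j).continuous
  have hgc' : HasCompactSupport (pd j g) := hgc.fderiv_apply ℝ _
  have := integral_mul_fderiv_eq_neg_fderiv_mul_of_integrable (μ := volume) (v := H772R2.NS.ev j)
    (f := f) (g := g) ((cf.mul hg.continuous).integrable_of_hasCompactSupport hgc.mul_left)
    ((hf.continuous.mul cg).integrable_of_hasCompactSupport hgc'.mul_left)
    ((hf.continuous.mul hg.continuous).integrable_of_hasCompactSupport hgc.mul_left)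
    (fun x _ => (hf.differentiable (by simp)) x) (fun x _ => (hg.differentiable (by simp)) x)
  unfold pd
  linarith

theorem amp_compact {a : E3 → ℝ} (hK : IsCompact K) (ha : Amp K a) : HasCompactSupport a :=
  HasCompactSupport.of_support_subset_isCompact hK fun x hx => by
    by_contra h
    exact hx (ha.off x h)

theorem amp_bound {a : E3 → ℝ} (hK : IsCompact K) (ha : Amp K a) : ∃ M, 0 ≤ M ∧ ∀ x, |a x| ≤ M := by
  obtain ⟨C, hC⟩ := hK.exists_bound_of_continuousOn ha.smooth.continuous.continuousOn
  refine ⟨max C 0, le_max_right _ _, fun x => ?_⟩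
  by_cases hx : x ∈ K
  · exact (hC x hx).trans (le_max_left _ _)
  · rw [ha.off x hx, abs_zero]
    exact le_max_right _ _

theorem osc_amp {a b : E3 → ℝ} (hφ : ContDiff ℝ ∞ φ) (ha : Amp K a) (hb : Amp K b) (N : ℝ) :
    Amp K (fun x => a x * Real.cos (N * φ x) + b x * Real.sin (N * φ x)) :=
  (ha.mulr (Real.contDiff_cos.comp (contDiff_const.mul hφ))).add
    (hb.mulr (Real.contDiff_sin.comp (contDiff_const.mul hφ)))

theorem osc_bound {a b : E3 → ℝ} {Ma Mb : ℝ} (ha : ∀ x, |a x| ≤ Ma) (hb : ∀ x, |b x| ≤ Mb)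
    (N : ℝ) (x : E3) : |a x * Real.cos (N * φ x) + b x * Real.sin (N * φ x)| ≤ Ma + Mb := by
  refine (abs_add_le _ _).trans ?_
  rw [abs_mul, abs_mul]
  have h1 := Real.abs_cos_le_one (N * φ x)
  have h2 := Real.abs_sin_le_one (N * φ x)
  have h3 := ha x
  have h4 := hb x
  have h5 := abs_nonneg (a x)
  have h6 := abs_nonneg (b x)
  nlinarith

/-- the oscillation lemma -/
theorem osc_int (D : Ph φ S) (hK : IsCompact K) (hSK : S ⊆ K) {a b : E3 → ℝ} (ha : Amp S a)
    (hb : Amp S b) : ∃ C, 0 ≤ C ∧ ∀ N, 1 ≤ N → ∀ g : E3 → ℝ, ContDiff ℝ ∞ g →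
      HasCompactSupport g →
      |∫ x, (a x * Real.cos (N * φ x) + b x * Real.sin (N * φ x)) * g x| ≤ C * n2 g ∧
      |∫ x, (a x * Real.cos (N * φ x) + b x * Real.sin (N * φ x)) * g x|
        ≤ C / N * (n2 g + ∑ l, n2 (pd l g)) := by
  have hφ := D.φs
  have hS := D.Sc
  have hn : ∀ j, ContDiff ℝ ∞ (pd j φ) := fun j => cd_pd hφ j
  have hSc : IsCompact S := hK.of_isClosed_subset hS hSK
  obtain ⟨Ma, hMa, ma⟩ := amp_bound hSc ha
  obtain ⟨Mb, hMb, mb⟩ := amp_bound hSc hb
  -- the remainder amplitudes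
  have hra : Amp S (fun x => ∑ l, pd l φ x * pd l a x) :=
    Amp.sum _ fun l _ => (ha.pd hS l).stat (hn l)
  have hrb : Amp S (fun x => ∑ l, pd l φ x * pd l b x) :=
    Amp.sum _ fun l _ => (hb.pd hS l).stat (hn l)
  have hda : Amp S (fun x => (∑ l, pd l (pd l φ) x) * a x) :=
    ha.stat (ContDiff.sum fun l _ => cd_pd (hn l) l)
  have hdb : Amp S (fun x => (∑ l, pd l (pd l φ) x) * b x) :=
    hb.stat (ContDiff.sum fun l _ => cd_pd (hn l) l)
  have e1a := hra.add hda
  have e1b := hrb.add hdb
  obtain ⟨Mc, hMc, mc⟩ := amp_bound hSc e1a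
  obtain ⟨Md, hMd, md⟩ := amp_bound hSc e1b
  have hna : ∀ l, Amp S (fun x => pd l φ x * a x) := fun l => ha.stat (hn l)
  have hnb : ∀ l, Amp S (fun x => pd l φ x * b x) := fun l => hb.stat (hn l)
  choose Me hMe me using fun l => amp_bound hSc (hna l)
  choose Mf hMf mf using fun l => amp_bound hSc (hnb l)
  obtain ⟨Mg, hMg, mg⟩ := max3 (f := fun l => Me l + Mf l)
  have hv : 0 ≤ vK S := vK_nonneg
  refine ⟨(Ma + Mb + (Mc + Md) + Mg) * vK S, by positivity, fun N hN g hg hgc => ?_⟩
  have hN0 : 0 < N := by linarith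
  have hg2 := n2_nonneg (g := g)
  refine ⟨?_, ?_⟩
  · have h1 := osc_amp hφ ha hb N
    refine (cs h1.smooth.continuous (amp_compact hSc h1) hg.continuous hgc).trans ?_
    have h2 := n2_le h1.smooth.continuous hSc h1.off (osc_bound (φ := φ) ma mb N)
    calc _ ≤ (Ma + Mb) * vK S * n2 g := by gcongr
      _ ≤ (Ma + Mb + (Mc + Md) + Mg) * vK S * n2 g :=
          mul_le_mul_of_nonneg_right (mul_le_mul_of_nonneg_right (by linarith) hv) hg2
  · -- the antiderivative
    set Θ : E3 → ℝ := fun x => a x * Real.sin (N * φ x) - b x * Real.cos (N * φ x) with hΘ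
    have hc1 : ContDiff ℝ ∞ (fun x => Real.cos (N * φ x)) :=
      Real.contDiff_cos.comp (contDiff_const.mul hφ)
    have hs1 : ContDiff ℝ ∞ (fun x => Real.sin (N * φ x)) :=
      Real.contDiff_sin.comp (contDiff_const.mul hφ)
    have cΘ : ContDiff ℝ ∞ Θ := (ha.smooth.mul hs1).sub (hb.smooth.mul hc1)
    have dcos : ∀ l x, pd l (fun x => Real.cos (N * φ x)) x
        = -(N * (Real.sin (N * φ x) * pd l φ x)) := by
      intro l x
      have := fderiv_cos hφ 1 N x l
      simp only [one_mul] at this
      exact this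
    have dsin : ∀ l x, pd l (fun x => Real.sin (N * φ x)) x
        = N * (Real.cos (N * φ x) * pd l φ x) := by
      intro l x
      have := fderiv_sin hφ 1 N x l
      simp only [one_mul] at this
      exact this
    have dΘ : ∀ l x, pd l Θ x = pd l a x * Real.sin (N * φ x) - pd l b x * Real.cos (N * φ x)
        + N * pd l φ x * (a x * Real.cos (N * φ x) + b x * Real.sin (N * φ x)) := by
      intro l x
      rw [hΘ, pd_sub (ha.smooth.mul hs1) (hb.smooth.mul hc1), pd_mul ha.smooth hs1,
        pd_mul hb.smooth hc1, dcos, dsin]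
      ring
    have hsum : ∀ x, N * (a x * Real.cos (N * φ x) + b x * Real.sin (N * φ x))
        = (∑ l, pd l φ x * pd l Θ x) - ((∑ l, pd l φ x * pd l a x) * Real.sin (N * φ x)
          - (∑ l, pd l φ x * pd l b x) * Real.cos (N * φ x)) := by
      intro x
      have k1 := D.f1 ha x
      have k2 := D.f1 hb x
      simp only [dΘ, Fin.sum_univ_three] at k1 k2 ⊢
      linear_combination -(N * Real.cos (N * φ x)) * k1 - (N * Real.sin (N * φ x)) * k2
    -- integration by parts
    have hgn : ∀ l, ContDiff ℝ ∞ (fun x => pd l φ x * g x) := fun l => (hn l).mul hg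
    have hgnc : ∀ l, HasCompactSupport (fun x => pd l φ x * g x) := fun l => hgc.mul_left
    have hib : ∀ l, ∫ x, pd l φ x * pd l Θ x * g x = -∫ x, Θ x * pd l (fun x => pd l φ x * g x) x := by
      intro l
      rw [← ibp_s cΘ (hgn l) (hgnc l) l]
      refine integral_congr_ae (Eventually.of_forall fun x => ?_)
      simp only
      ring
    have hpg : ∀ l, HasCompactSupport (pd l g) := fun l => hgc.fderiv_apply ℝ _
    have cpg : ∀ l, Continuous (pd l g) := fun l => (cd_pd hg l).continuous
    have iΘ : ∀ l, Integrable (fun x => pd l φ x * pd l Θ x * g x) := fun l =>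
      (((hn l).continuous.mul (cd_pd cΘ l).continuous).mul
        hg.continuous).integrable_of_hasCompactSupport hgc.mul_left
    set R : E3 → ℝ := fun x => (∑ l, pd l φ x * pd l a x) * Real.sin (N * φ x)
          - (∑ l, pd l φ x * pd l b x) * Real.cos (N * φ x) with hR
    have cR : Continuous R := (hra.smooth.continuous.mul hs1.continuous).sub
      (hrb.smooth.continuous.mul hc1.continuous)
    have iR : Integrable (fun x => R x * g x) :=
      (cR.mul hg.continuous).integrable_of_hasCompactSupport hgc.mul_left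
    have e1 : N * ∫ x, (a x * Real.cos (N * φ x) + b x * Real.sin (N * φ x)) * g x
        = (∑ l, ∫ x, pd l φ x * pd l Θ x * g x) - ∫ x, R x * g x := by
      rw [← integral_const_mul, ← integral_finsetSum _ (fun l _ => iΘ l),
        ← integral_sub (integrable_finsetSum _ fun l _ => iΘ l) iR]
      refine integral_congr_ae (Eventually.of_forall fun x => ?_)
      simp only
      rw [← Finset.sum_mul, ← sub_mul, hR]
      simp only
      rw [← hsum x]
      ring
    have hsplit : ∀ l, ∫ x, Θ x * pd l (fun x => pd l φ x * g x) x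
        = (∫ x, pd l (pd l φ) x * Θ x * g x) + ∫ x, pd l φ x * Θ x * pd l g x := by
      intro l
      rw [← integral_add]
      · refine integral_congr_ae (Eventually.of_forall fun x => ?_)
        simp only
        rw [pd_mul (hn l) hg]
        ring
      · exact (((cd_pd (hn l) l).continuous.mul cΘ.continuous).mul
          hg.continuous).integrable_of_hasCompactSupport hgc.mul_left
      · exact (((hn l).continuous.mul cΘ.continuous).mul
          (cpg l)).integrable_of_hasCompactSupport (hpg l).mul_left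
    have e2 : N * ∫ x, (a x * Real.cos (N * φ x) + b x * Real.sin (N * φ x)) * g x
        = -(∫ x, (((∑ l, pd l φ x * pd l a x) + (∑ l, pd l (pd l φ) x) * a x)
            * Real.sin (N * φ x) - ((∑ l, pd l φ x * pd l b x) + (∑ l, pd l (pd l φ) x) * b x)
            * Real.cos (N * φ x)) * g x)
          - ∑ l, ∫ x, pd l φ x * Θ x * pd l g x := by
      rw [e1]
      simp only [hib, hsplit]
      rw [Finset.sum_neg_distrib, Finset.sum_add_distrib]
      have i2 : ∀ l, Integrable (fun x => pd l (pd l φ) x * Θ x * g x) := fun l =>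
        (((cd_pd (hn l) l).continuous.mul cΘ.continuous).mul
          hg.continuous).integrable_of_hasCompactSupport hgc.mul_left
      have e3 : (∫ x, (((∑ l, pd l φ x * pd l a x) + (∑ l, pd l (pd l φ) x) * a x)
            * Real.sin (N * φ x) - ((∑ l, pd l φ x * pd l b x) + (∑ l, pd l (pd l φ) x) * b x)
            * Real.cos (N * φ x)) * g x)
          = (∑ l, ∫ x, pd l (pd l φ) x * Θ x * g x) + ∫ x, R x * g x := by
        rw [← integral_finsetSum _ (fun l _ => i2 l),
          ← integral_add (integrable_finsetSum _ fun l _ => i2 l) iR]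
        refine integral_congr_ae (Eventually.of_forall fun x => ?_)
        simp only [hR, hΘ, Fin.sum_univ_three]
        ring
      rw [e3]
      ring
    -- the bounds
    have b1 : |∫ x, (((∑ l, pd l φ x * pd l a x) + (∑ l, pd l (pd l φ) x) * a x)
            * Real.sin (N * φ x) - ((∑ l, pd l φ x * pd l b x) + (∑ l, pd l (pd l φ) x) * b x)
            * Real.cos (N * φ x)) * g x| ≤ (Mc + Md) * vK S * n2 g := by
      have h1 := osc_amp hφ e1b.neg e1a N
      have h2 : (fun x => (((∑ l, pd l φ x * pd l a x) + (∑ l, pd l (pd l φ) x) * a x)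
            * Real.sin (N * φ x) - ((∑ l, pd l φ x * pd l b x) + (∑ l, pd l (pd l φ) x) * b x)
            * Real.cos (N * φ x)) * g x) = fun x => (-((∑ l, pd l φ x * pd l b x)
            + (∑ l, pd l (pd l φ) x) * b x) * Real.cos (N * φ x)
            + ((∑ l, pd l φ x * pd l a x) + (∑ l, pd l (pd l φ) x) * a x)
            * Real.sin (N * φ x)) * g x := by
        funext x
        ring
      rw [h2]
      refine (cs h1.smooth.continuous (amp_compact hSc h1) hg.continuous hgc).trans ?_
      have h3 := n2_le h1.smooth.continuous hSc h1.off (osc_bound (φ := φ)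
        (a := fun x => -((∑ l, pd l φ x * pd l b x) + (∑ l, pd l (pd l φ) x) * b x))
        (b := fun x => (∑ l, pd l φ x * pd l a x) + (∑ l, pd l (pd l φ) x) * a x)
        (Ma := Md) (Mb := Mc) (fun x => by rw [abs_neg]; exact md x) mc N)
      calc _ ≤ (Md + Mc) * vK S * n2 g := by gcongr
        _ = _ := by ring
    have b2 : ∀ l, |∫ x, pd l φ x * Θ x * pd l g x| ≤ Mg * vK S * n2 (pd l g) := by
      intro l
      have h1 := osc_amp hφ (hnb l).neg (hna l) N
      have h2 : (fun x => pd l φ x * Θ x * pd l g x) = fun x =>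
          (-(pd l φ x * b x) * Real.cos (N * φ x) + pd l φ x * a x * Real.sin (N * φ x))
            * pd l g x := by
        funext x
        simp only [hΘ]
        ring
      rw [h2]
      refine (cs h1.smooth.continuous (amp_compact hSc h1) (cpg l) (hpg l)).trans ?_
      have h3 := n2_le h1.smooth.continuous hSc h1.off (osc_bound (φ := φ)
        (a := fun x => -(pd l φ x * b x)) (b := fun x => pd l φ x * a x)
        (Ma := Mf l) (Mb := Me l) (fun x => by rw [abs_neg]; exact mf l x) (me l) N)
      have h4 := mg l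
      have h5 := n2_nonneg (g := pd l g)
      calc _ ≤ (Mf l + Me l) * vK S * n2 (pd l g) := by gcongr
        _ ≤ Mg * vK S * n2 (pd l g) := by
            gcongr
            linarith
    set I := ∫ x, (a x * Real.cos (N * φ x) + b x * Real.sin (N * φ x)) * g x with hI
    have b3 : |N * I| ≤ (Mc + Md) * vK S * n2 g + ∑ l, Mg * vK S * n2 (pd l g) := by
      rw [e2]
      refine (abs_sub _ _).trans ?_
      rw [abs_neg]
      refine add_le_add b1 ((Finset.abs_sum_le_sum_abs _ _).trans
        (Finset.sum_le_sum fun l _ => b2 l))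
    rw [abs_mul, abs_of_pos hN0, ← Finset.mul_sum] at b3
    have hsn : 0 ≤ ∑ l, n2 (pd l g) := Finset.sum_nonneg fun l _ => n2_nonneg
    have b4 : N * |I| ≤ (Ma + Mb + (Mc + Md) + Mg) * vK S * (n2 g + ∑ l, n2 (pd l g)) := by
      refine b3.trans ?_
      have q1 : (Mc + Md) * vK S * n2 g ≤ (Ma + Mb + (Mc + Md) + Mg) * vK S * n2 g :=
        mul_le_mul_of_nonneg_right (mul_le_mul_of_nonneg_right (by linarith) hv) hg2
      have q2 : Mg * vK S * ∑ l, n2 (pd l g)
          ≤ (Ma + Mb + (Mc + Md) + Mg) * vK S * ∑ l, n2 (pd l g) :=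
        mul_le_mul_of_nonneg_right (mul_le_mul_of_nonneg_right (by linarith) hv) hsn
      linarith
    calc |I| = (N * |I|) / N := by field_simp
      _ ≤ ((Ma + Mb + (Mc + Md) + Mg) * vK S * (n2 g + ∑ l, n2 (pd l g))) / N := by gcongr
      _ = _ := by ring

end Pool.Agent.J4H18.DN
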