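import Pool.Agent.J4H18.DN.C4

/-!
The initial value of the oscillating field is close to `h` in a weak sense: the estimate.
-/

set_option autoImplicit false
set_option linter.unusedSectionVars false

open MeasureTheory Set Filter Topology
open scoped InnerProductSpace ENNReal ContDiff NNReal

namespace Pool.Agent.J4H18.DN

open H772R2.NS
open Pool.Agent.Y303.LV (cl clj clj_coe)


variable {ν : ℝ} {φ : E3 → ℝ} {A B h : Fin 3 → E3 → ℝ} {P : E3 → ℝ} {S K Ω : Set E3}
  {F : Fin 3 → E3 → ℝ} {v : Fin 3 → E3 → ℝ} {f g : E3 → ℝ} {ψ : E3 → E3}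

theorem hcs_norm_sq {E : Type} [NormedAddCommGroup E] {f : E3 → E} (h : HasCompactSupport f) :
    HasCompactSupport (fun x => ‖f x‖ ^ 2) := by
  refine h.mono fun x hx h0 => hx ?_
  have h1 : f x = 0 := h0
  simp only
  rw [h1, norm_zero]
  norm_num

theorem hcs_sq {f : E3 → ℝ} (h : HasCompactSupport f) : HasCompactSupport (fun x => f x ^ 2) := by
  refine h.mono fun x hx h0 => hx ?_
  have h1 : f x = 0 := h0
  simp only
  rw [h1]
  norm_num

theorem jac_pd (hψ : ContDiff ℝ ∞ ψ) (x : E3) (i j : Fin 3) :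
    jac ψ x (i, j) = pd j (fun x => ψ x i) x := by
  rw [jac_apply, ← fderiv_coord hψ]
  rfl

theorem jac_cd (hψ : ContDiff ℝ ∞ ψ) : ContDiff ℝ ∞ (jac ψ) := by
  rw [contDiff_euclidean]
  rintro ⟨i, j⟩
  have e : (fun x => jac ψ x (i, j)) = pd j (fun x => ψ x i) := by
    funext x
    exact jac_pd hψ x i j
  rw [e]
  exact cd_pd (contDiff_coord hψ i) j

theorem djac_pd (hψ : ContDiff ℝ ∞ ψ) (x : E3) (i j l : Fin 3) :
    fderiv ℝ (jac ψ) x (H772R2.NS.ev l) (i, j) = pd l (pd j (fun x => ψ x i)) x := by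
  have h1 : DifferentiableAt ℝ (jac ψ) x := ((jac_cd hψ).differentiable (by simp)) x
  have h2 : HasFDerivAt (fun x => jac ψ x (i, j))
      ((EuclideanSpace.proj (𝕜 := ℝ) (i, j) : M3 →L[ℝ] ℝ).comp (fderiv ℝ (jac ψ) x)) x :=
    (EuclideanSpace.proj (𝕜 := ℝ) (i, j) : M3 →L[ℝ] ℝ).hasFDerivAt.comp x h1.hasFDerivAt
  have e : (fun x => jac ψ x (i, j)) = pd j (fun x => ψ x i) := by
    funext x
    exact jac_pd hψ x i j
  rw [e] at h2
  unfold pd at h2 ⊢
  rw [h2.fderiv]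
  rfl

theorem coord_le_norm (m : M3) (p : Fin 3 × Fin 3) : m p ^ 2 ≤ ‖m‖ ^ 2 := by
  rw [EuclideanSpace.norm_sq_eq]
  have : m p ^ 2 = ‖m p‖ ^ 2 := by rw [Real.norm_eq_abs, sq_abs]
  rw [this]
  exact Finset.single_le_sum (f := fun p => ‖m p‖ ^ 2) (fun _ _ => by positivity)
    (Finset.mem_univ p)

theorem jac_hcs (hc : HasCompactSupport ψ) : HasCompactSupport (jac ψ) := hasCompactSupport_jac hc

theorem n2_le_G1 (hψ : ContDiff ℝ ∞ ψ) (hc : HasCompactSupport ψ) (i j : Fin 3) :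
    n2 (pd j fun x => ψ x i) ≤ G1 ψ := by
  unfold n2 G1
  refine Real.sqrt_le_sqrt ?_
  have c1 : Continuous (pd j fun x => ψ x i) := (cd_pd (contDiff_coord hψ i) j).continuous
  have s1 : HasCompactSupport (pd j fun x => ψ x i) :=
    (hasCompactSupport_coord hc i).fderiv_apply ℝ _
  have c2 : Continuous (jac ψ) := (jac_cd hψ).continuous
  have i1 : Integrable (fun x => pd j (fun x => ψ x i) x ^ 2) :=
    (c1.pow 2).integrable_of_hasCompactSupport (hcs_sq s1)
  have i2 : Integrable (fun x => ‖jac ψ x‖ ^ 2) :=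
    (c2.norm.pow 2).integrable_of_hasCompactSupport (hcs_norm_sq (jac_hcs hc))
  refine integral_mono i1 i2 fun x => ?_
  simp only
  rw [← jac_pd hψ]
  exact coord_le_norm _ _

theorem n2_le_G2 (hψ : ContDiff ℝ ∞ ψ) (hc : HasCompactSupport ψ) (i j l : Fin 3) :
    n2 (pd l (pd j fun x => ψ x i)) ≤ G2 ψ := by
  unfold n2 G2
  refine Real.sqrt_le_sqrt ?_
  have c1 : Continuous (pd l (pd j fun x => ψ x i)) :=
    (cd_pd (cd_pd (contDiff_coord hψ i) j) l).continuous
  have s1 : HasCompactSupport (pd l (pd j fun x => ψ x i)) :=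
    ((hasCompactSupport_coord hc i).fderiv_apply ℝ _).fderiv_apply ℝ _
  have c2 : ∀ l, Continuous (fun x => fderiv ℝ (jac ψ) x (H772R2.NS.ev l)) := fun l =>
    ((jac_cd hψ).continuous_fderiv (by simp)).clm_apply continuous_const
  have s2 : ∀ l, HasCompactSupport (fun x => fderiv ℝ (jac ψ) x (H772R2.NS.ev l)) := fun l =>
    (jac_hcs hc).fderiv_apply ℝ _
  have i1 : Integrable (fun x => pd l (pd j fun x => ψ x i) x ^ 2) :=
    (c1.pow 2).integrable_of_hasCompactSupport (hcs_sq s1)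
  have i2 : Integrable (fun x => ∑ l, ‖fderiv ℝ (jac ψ) x (H772R2.NS.ev l)‖ ^ 2) :=
    integrable_finsetSum _ fun l _ => ((c2 l).norm.pow 2).integrable_of_hasCompactSupport
      (hcs_norm_sq (s2 l))
  refine integral_mono i1 i2 fun x => ?_
  simp only
  rw [← djac_pd hψ]
  refine (coord_le_norm _ (i, j)).trans ?_
  exact Finset.single_le_sum (f := fun l => ‖fderiv ℝ (jac ψ) x (H772R2.NS.ev l)‖ ^ 2)
    (fun _ _ => by positivity) (Finset.mem_univ l)

theorem ex_zero : ex ν 0 = 1 := by simp [ex]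

/-- the potential at the initial time -/
theorem Psi_zero (i j : Fin 3) (N : ℝ) (x : E3) : Psi ν φ A B h v i j N 0 x
    = -(pd j φ x * -B i x - pd i φ x * -B j x) * Real.cos (N * φ x)
      + (pd j φ x * A i x - pd i φ x * A j x) * Real.sin (N * φ x) := by
  unfold Psi Ps Tm
  simp only [mul_zero, q1, q2, q3, q4, ex_zero, one_mul]
  simp

theorem init_close (hν : 0 < ν) (D : Dat ν φ A B h P S K) (hv : ∀ j, ContDiff ℝ ∞ (v j)) :
    ∃ C, 0 ≤ C ∧ ∀ N, 1 ≤ N → ∀ ψ : E3 → E3, ContDiff ℝ ∞ ψ → HasCompactSupport ψ →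
      |∫ x, ∑ i, (Xf ν φ A B h v i N 0 x - h i x) * ψ x i| ≤ C * G1 ψ ∧
      |∫ x, ∑ i, (Xf ν φ A B h v i N 0 x - h i x) * ψ x i| ≤ C / N * (G1 ψ + G2 ψ) := by
  have hφ := D.φs
  have Ph := D.ph
  have ha : ∀ i j, Amp S (fun x => -(pd j φ x * -B i x - pd i φ x * -B j x)) := fun i j =>
    (((D.Ba i).neg.stat (cd_pd hφ j)).sub ((D.Ba j).neg.stat (cd_pd hφ i))).neg
  have hb : ∀ i j, Amp S (fun x => pd j φ x * A i x - pd i φ x * A j x) := fun i j =>
    ((D.Aa i).stat (cd_pd hφ j)).sub ((D.Aa j).stat (cd_pd hφ i))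
  choose C hC hI using fun (p : Fin 3 × Fin 3) =>
    osc_int Ph D.Kc D.SK (ha p.1 p.2) (hb p.1 p.2)
  refine ⟨3 * ∑ p, C p, by
    have : 0 ≤ ∑ p, C p := Finset.sum_nonneg fun p _ => hC p
    positivity, fun N hN ψ hψ hc => ?_⟩
  have hN0 : 0 < N := by linarith
  have hψc : ∀ i, ContDiff ℝ ∞ (fun x => ψ x i) := contDiff_coord hψ
  have hψs : ∀ i, HasCompactSupport (fun x => ψ x i) := hasCompactSupport_coord hc
  set u : Fin 3 → Fin 3 → E3 → ℝ := fun i j x =>
    -(pd j φ x * -B i x - pd i φ x * -B j x) * Real.cos (N * φ x)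
      + (pd j φ x * A i x - pd i φ x * A j x) * Real.sin (N * φ x) with hu
  have cu : ∀ i j, ContDiff ℝ ∞ (u i j) := fun i j => (osc_amp hφ (ha i j) (hb i j) N).smooth
  have e1 : ∀ i x, Xf ν φ A B h v i N 0 x - h i x = ∑ j, pd j (u i j) x := by
    intro i x
    unfold Xf
    have e2 : Tm φ (q5 ν) 0 (h i) (fun _ => 0) N 0 x = h i x := by
      unfold Tm
      simp [q5, ex_zero]
    rw [e2, add_sub_cancel_right]
    refine Finset.sum_congr rfl fun j _ => ?_
    have e3 : Psi ν φ A B h v i j N 0 = u i j := by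
      funext y
      exact Psi_zero i j N y
    unfold dx
    rw [e3]
    rfl
  have hint : ∀ i j, Integrable (fun x => pd j (u i j) x * ψ x i) := fun i j =>
    ((cd_pd (cu i j) j).continuous.mul (hψc i).continuous).integrable_of_hasCompactSupport
      (hψs i).mul_left
  have e4 : ∫ x, ∑ i, (Xf ν φ A B h v i N 0 x - h i x) * ψ x i
      = -∑ p : Fin 3 × Fin 3, ∫ x, u p.1 p.2 x * pd p.2 (fun x => ψ x p.1) x := by
    rw [Fintype.sum_prod_type, ← Finset.sum_neg_distrib]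
    have e5 : (fun x => ∑ i, (Xf ν φ A B h v i N 0 x - h i x) * ψ x i)
        = fun x => ∑ i, ∑ j, pd j (u i j) x * ψ x i := by
      funext x
      refine Finset.sum_congr rfl fun i _ => ?_
      rw [e1, Finset.sum_mul]
    rw [e5, integral_finsetSum _ fun i _ => integrable_finsetSum _ fun j _ => hint i j]
    refine Finset.sum_congr rfl fun i _ => ?_
    rw [integral_finsetSum _ fun j _ => hint i j, ← Finset.sum_neg_distrib]
    exact Finset.sum_congr rfl fun j _ => ibp_s (cu i j) (hψc i) (hψs i) j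
  have hg : ∀ i j, ContDiff ℝ ∞ (pd j fun x => ψ x i) := fun i j => cd_pd (hψc i) j
  have hgc : ∀ i j, HasCompactSupport (pd j fun x => ψ x i) := fun i j =>
    (hψs i).fderiv_apply ℝ _
  have g1 : 0 ≤ G1 ψ := Real.sqrt_nonneg _
  have g2 : 0 ≤ G2 ψ := Real.sqrt_nonneg _
  rw [e4, abs_neg]
  refine ⟨?_, ?_⟩
  · calc |∑ p : Fin 3 × Fin 3, ∫ x, u p.1 p.2 x * pd p.2 (fun x => ψ x p.1) x|
        ≤ ∑ p : Fin 3 × Fin 3, C p * G1 ψ := by
          refine (Finset.abs_sum_le_sum_abs _ _).trans (Finset.sum_le_sum fun p _ => ?_)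
          refine ((hI p N hN _ (hg p.1 p.2) (hgc p.1 p.2)).1).trans ?_
          have := n2_le_G1 hψ hc p.1 p.2
          have := hC p
          gcongr
      _ = (∑ p, C p) * G1 ψ := by rw [Finset.sum_mul]
      _ ≤ 3 * (∑ p, C p) * G1 ψ := by
          have : 0 ≤ ∑ p, C p := Finset.sum_nonneg fun p _ => hC p
          have h2 : 0 ≤ (∑ p, C p) * G1 ψ := by positivity
          linarith
  · calc |∑ p : Fin 3 × Fin 3, ∫ x, u p.1 p.2 x * pd p.2 (fun x => ψ x p.1) x|
        ≤ ∑ p : Fin 3 × Fin 3, C p / N * (3 * (G1 ψ + G2 ψ)) := by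
          refine (Finset.abs_sum_le_sum_abs _ _).trans (Finset.sum_le_sum fun p _ => ?_)
          refine ((hI p N hN _ (hg p.1 p.2) (hgc p.1 p.2)).2).trans ?_
          have h1 := n2_le_G1 hψ hc p.1 p.2
          have h2 : ∑ l, n2 (pd l (pd p.2 fun x => ψ x p.1)) ≤ 3 * G2 ψ := by
            refine (Finset.sum_le_sum fun l _ => n2_le_G2 hψ hc p.1 p.2 l).trans ?_
            simp
          have h3 := hC p
          have h4 : n2 (pd p.2 fun x => ψ x p.1) + ∑ l, n2 (pd l (pd p.2 fun x => ψ x p.1))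
              ≤ 3 * (G1 ψ + G2 ψ) := by linarith
          gcongr
      _ = 3 * (∑ p, C p) / N * (G1 ψ + G2 ψ) := by
          rw [← Finset.sum_mul, ← Finset.sum_div]
          ring

end Pool.Agent.J4H18.DN
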