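import Pool.Agent.J4H18.DN.C5
import Pool.Agent.H772R2.NSR.Conc

/-!
One stage: the initial velocity is changed by `h` and by a small error in a weak norm, the
solution is changed little after a short time.
-/

set_option autoImplicit false
set_option linter.unusedSectionVars false

open MeasureTheory Set Filter Topology
open scoped InnerProductSpace ENNReal ContDiff NNReal

namespace Pool.Agent.J4H18.DN

open H772R2.NS
open H772R2.NSR (Frame rellich_W exists_frame)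
open Pool.Agent.W795.TQ
open Pool.Agent.Y303.LV (cl clj clj_coe)


variable {ν : ℝ} {φ : E3 → ℝ} {A B h : Fin 3 → E3 → ℝ} {P : E3 → ℝ} {S K Ω : Set E3}
  {F F1 : ℝ → L2M Ω}

/-- the weak size -/
noncomputable def wn (θ : ℝ) (ψ : E3 → E3) : ℝ := G1 ψ ^ (1 - θ) * (G1 ψ + G2 ψ) ^ θ

theorem G1_nonneg (ψ : E3 → E3) : 0 ≤ G1 ψ := Real.sqrt_nonneg _

theorem G2_nonneg (ψ : E3 → E3) : 0 ≤ G2 ψ := Real.sqrt_nonneg _

theorem wn_nonneg (θ : ℝ) (ψ : E3 → E3) : 0 ≤ wn θ ψ :=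
  mul_nonneg (Real.rpow_nonneg (G1_nonneg ψ) _)
    (Real.rpow_nonneg (add_nonneg (G1_nonneg ψ) (G2_nonneg ψ)) _)

theorem G1_le_wn {θ : ℝ} (h0 : 0 < θ) (h1 : θ ≤ 1) (ψ : E3 → E3) : G1 ψ ≤ wn θ ψ := by
  have g1 := G1_nonneg ψ
  have g2 := G2_nonneg ψ
  rcases eq_or_lt_of_le g1 with h | h
  · rw [← h]
    exact wn_nonneg θ ψ
  · unfold wn
    calc G1 ψ = G1 ψ ^ (1 - θ) * G1 ψ ^ θ := by
          rw [← Real.rpow_add h]
          simp
      _ ≤ G1 ψ ^ (1 - θ) * (G1 ψ + G2 ψ) ^ θ := by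
          have := Real.rpow_le_rpow g1 (by linarith : G1 ψ ≤ G1 ψ + G2 ψ) h0.le
          have h3 : 0 ≤ G1 ψ ^ (1 - θ) := Real.rpow_nonneg g1 _
          exact mul_le_mul_of_nonneg_left this h3

/-- interpolation -/
theorem interp {θ I x y : ℝ} (h0 : 0 < θ) (h1 : θ ≤ 1) (hI : 0 ≤ I) (hx : I ≤ x) (hy : I ≤ y) :
    I ≤ x ^ (1 - θ) * y ^ θ := by
  have hx0 := hI.trans hx
  have hy0 := hI.trans hy
  rcases eq_or_lt_of_le hI with h | h
  · rw [← h]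
    exact mul_nonneg (Real.rpow_nonneg hx0 _) (Real.rpow_nonneg hy0 _)
  · calc I = I ^ (1 - θ) * I ^ θ := by
          rw [← Real.rpow_add h]
          simp
      _ ≤ x ^ (1 - θ) * y ^ θ := by
          have a1 := Real.rpow_le_rpow hI hx (by linarith : 0 ≤ 1 - θ)
          have a2 := Real.rpow_le_rpow hI hy h0.le
          exact mul_le_mul a1 a2 (Real.rpow_nonneg hI _) (Real.rpow_nonneg hx0 _)

/-- the decay of the oscillating field -/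
theorem N_ev_le {N δ t s : ℝ} (hN : 0 < N) (hδ : 0 < δ) (hs : 0 < s) (hst : s ≤ t) :
    N * ev δ N t ≤ 1 / (δ * s) / N := by
  have h1 : ev δ N t ≤ ev δ N s := ev_anti hδ.le hst
  have h2 := mul_ev_le hδ hN hs.le
  have h3 : ev δ N s ≤ 1 / (δ * N ^ 2) / s := by
    rw [le_div_iff₀ hs]
    linarith
  calc N * ev δ N t ≤ N * (1 / (δ * N ^ 2) / s) := by
        have := h1.trans h3
        gcongr
    _ = 1 / (δ * s) / N := by field_simp

/-- **One stage.** -/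
theorem stage (hloc : S_loc) (hun : S_univ) (hΩ : IsOpen Ω) (hb : Bornology.IsBounded Ω)
    (hν : 0 < ν) {T : ℝ} (hT : 0 < T) (hF : FH T F F1) {v0 : E3 → E3} (hv0 : IsTest Ω v0)
    {v v1 : ℝ → L2V Ω} {y y1 : ℝ → L2M Ω} (Sv : Str (graphW Ω) (tensL (Ω := Ω)) ν T F v v1 y y1)
    (hv : v 0 = cl Ω v0) {g0 : L2V Ω}
    (hg0 : ∀ p ∈ graphW Ω, ⟪F 0 - ν • y 0 + tensL (v 0), p.2⟫_ℝ = ⟪g0, p.1⟫_ℝ)
    (D : Dat ν φ A B h P S K) (hKΩ : K ⊆ Ω) {θ : ℝ} (hθ0 : 0 < θ) (hθ1 : θ ≤ 1) {ε : ℝ}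
    (hε : 0 < ε) :
    ∃ (w0 : E3 → E3) (u u1 : ℝ → L2V Ω) (z z1 : ℝ → L2M Ω) (g0' : L2V Ω), IsTest Ω w0 ∧
      Str (graphW Ω) (tensL (Ω := Ω)) ν T F u u1 z z1 ∧ u 0 = cl Ω w0 ∧
      (∀ p ∈ graphW Ω, ⟪F 0 - ν • z 0 + tensL (u 0), p.2⟫_ℝ = ⟪g0', p.1⟫_ℝ) ∧
      (∀ t ∈ Icc ε T, ‖u t - v t‖ ≤ ε) ∧
      ∀ ψ, IsTest Ω ψ → |∫ x, ∑ i, (w0 x i - v0 x i - h i x) * ψ x i| ≤ ε * wn θ ψ := by
  obtain ⟨C, Fr⟩ := exists_frame hΩ hb
  obtain ⟨c, hc, hU⟩ := hun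
  have Un := hU Ω hΩ
  have Q := quad_tensL (Ω := Ω) hΩ.measurableSet
  have hφ := D.φs
  have hvs : ∀ j, ContDiff ℝ ∞ (fun x => v0 x j) := fun j => contDiff_coord hv0.smooth j
  obtain ⟨a, ha, hosc⟩ := exists_osc hΩ hν hv0 D hKΩ T
  obtain ⟨K0, N0, hK0, hN0, hmain⟩ := pertX hloc Fr Un Q (rellich_W hΩ hb) hν hT hF Sv hg0 ha
    (δ := ν / 2) (by positivity)
  obtain ⟨Ca, hCa, a1, _⟩ := BO_fam hφ hν D.Kc (Xf_K hν D hvs)
  obtain ⟨Ci, hCi, hcl⟩ := init_close (v := fun j x => v0 x j) hν D hvs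
  have hvK : 0 ≤ vK K := vK_nonneg
  -- the choice of `N`
  set Z1 : ℝ := (K0 + Ca * vK K * (1 / (ν / 2 * ε))) / ε with hZ1
  have hZ10 : 0 ≤ Z1 := by positivity
  have hlim : ∃ N : ℝ, N0 ≤ N ∧ Z1 ≤ N ∧ Ci / N ^ θ ≤ ε := by
    have h1 : Tendsto (fun N : ℝ => Ci / N ^ θ) atTop (𝓝 0) :=
      tendsto_const_nhds.div_atTop (tendsto_rpow_atTop hθ0)
    have h2 := (h1.eventually (gt_mem_nhds hε)).and
      ((eventually_ge_atTop N0).and (eventually_ge_atTop Z1))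
    obtain ⟨N, h3, h4, h5⟩ := h2.exists
    exact ⟨N, h4, h5, h3.le⟩
  obtain ⟨N, hNN0, hNZ1, hNθ⟩ := hlim
  have hN1 : 1 ≤ N := hN0.trans hNN0
  have hNp : 0 < N := by linarith
  have O := hosc N hN1
  rw [← hv] at O
  obtain ⟨u, u1, z, z1, g0', S', hu0, hg', hbd⟩ := hmain N hNN0 _ _ _ _ O
  have ht0 := Xf_test hν D hvs hKΩ hN1 0
  have hw0 : IsTest Ω (fun x => v0 x + vec (fun i => Xf ν φ A B h (fun j x => v0 x j) i N 0) x) :=
    hv0.add ht0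
  refine ⟨fun x => v0 x + vec (fun i => Xf ν φ A B h (fun j x => v0 x j) i N 0) x, u, u1, z, z1,
    g0', hw0, S', ?_, hg', ?_, ?_⟩
  · rw [hu0, hv, cl_add' hv0 ht0]
  · intro t ht
    have ht0 : 0 ≤ t := hε.le.trans ht.1
    have h1 := hbd t ⟨ht0, ht.2⟩
    have h2 : ‖cl Ω (vec fun i => Xf ν φ A B h (fun j x => v0 x j) i N t)‖
        ≤ Ca * N ^ (1 : ℤ) * ev (ν / 2) N t * vK K :=
      (BO_CK hφ (Xf_K hν D hvs) hN1 t).norm_le D.Kc (a1 N hN1 t ht0)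
    have h3 := N_ev_le (t := t) hNp (δ := ν / 2) (by positivity) hε ht.1
    rw [zpow_one] at h2
    have h4 : ‖u t - v t‖ ≤ K0 / N + Ca * vK K * (1 / (ν / 2 * ε)) / N := by
      have e : u t - v t = (u t - v t - cl Ω (vec fun i => Xf ν φ A B h (fun j x => v0 x j) i N t))
          + cl Ω (vec fun i => Xf ν φ A B h (fun j x => v0 x j) i N t) := by abel
      rw [e]
      refine (norm_add_le _ _).trans (add_le_add h1 (h2.trans ?_))
      calc Ca * N * ev (ν / 2) N t * vK K = Ca * vK K * (N * ev (ν / 2) N t) := by ring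
        _ ≤ Ca * vK K * (1 / (ν / 2 * ε) / N) := by gcongr
        _ = _ := by ring
    refine h4.trans ?_
    rw [← add_div, div_le_iff₀ hNp]
    have h5 : K0 + Ca * vK K * (1 / (ν / 2 * ε)) = Z1 * ε := by
      rw [hZ1]
      field_simp
    rw [h5]
    nlinarith
  · intro ψ hψ
    obtain ⟨b1, b2⟩ := hcl N hN1 ψ hψ.smooth hψ.compact
    have e : ∀ x, ∑ i, ((v0 x + vec (fun i => Xf ν φ A B h (fun j x => v0 x j) i N 0) x) i
        - v0 x i - h i x) * ψ x i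
        = ∑ i, (Xf ν φ A B h (fun j x => v0 x j) i N 0 x - h i x) * ψ x i := by
      intro x
      refine Finset.sum_congr rfl fun i _ => ?_
      rw [PiLp.add_apply, vec_apply]
      ring
    simp only [e]
    have h1 := interp hθ0 hθ1 (abs_nonneg _) b1 b2
    refine h1.trans ?_
    have g1 := G1_nonneg ψ
    have g2 := G2_nonneg ψ
    rw [Real.mul_rpow hCi g1, Real.mul_rpow (by positivity) (by positivity)]
    have e2 : Ci ^ (1 - θ) * G1 ψ ^ (1 - θ) * ((Ci / N) ^ θ * (G1 ψ + G2 ψ) ^ θ)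
        = (Ci ^ (1 - θ) * (Ci / N) ^ θ) * wn θ ψ := by
      unfold wn
      ring
    have e3 : Ci ^ (1 - θ) * (Ci / N) ^ θ = Ci / N ^ θ := by
      rw [Real.div_rpow hCi hNp.le, ← mul_div_assoc, ← Real.rpow_add' hCi (by norm_num)]
      simp
    rw [e2, e3]
    exact mul_le_mul_of_nonneg_right hNθ (wn_nonneg θ ψ)

end Pool.Agent.J4H18.DN
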