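import Pool.Agent.J4H18.DN.B4

/-!
Smooth functions of one variable: cut offs near zero, a bump and its antiderivative.
-/

set_option autoImplicit false
set_option linter.unusedSectionVars false

open MeasureTheory Set Filter Topology
open scoped InnerProductSpace ENNReal ContDiff NNReal

namespace Pool.Agent.J4H18.DN

/-- cut off near zero -/
noncomputable def ct (F : ℝ → ℝ) (t0 t : ℝ) : ℝ := Real.smoothTransition (2 * t / t0 - 1) * F t

variable {F : ℝ → ℝ} {t0 t F' : ℝ}

theorem ct_eq (h0 : 0 < t0) (ht : t0 ≤ t) : ct F t0 t = F t := by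
  unfold ct
  rw [Real.smoothTransition.one_of_one_le, one_mul]
  have : 1 ≤ t / t0 := (one_le_div h0).2 ht
  have e : 2 * t / t0 = 2 * (t / t0) := by ring
  rw [e]
  linarith

theorem ct_cd (hF : ContDiffOn ℝ ∞ F (Ioi 0)) (h0 : 0 < t0) : ContDiff ℝ ∞ (ct F t0) := by
  rw [contDiff_iff_contDiffAt]
  intro t
  by_cases ht : 0 < t
  · have h1 : ContDiffAt ℝ ∞ F t := hF.contDiffAt (Ioi_mem_nhds ht)
    have h2 : ContDiff ℝ ∞ (fun t : ℝ => Real.smoothTransition (2 * t / t0 - 1)) := by
      refine (Real.smoothTransition.contDiff (n := ⊤)).of_le (by simp) |>.comp ?_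
      exact ((contDiff_const.mul contDiff_id).div_const _).sub contDiff_const
    exact h2.contDiffAt.mul h1
  · have h1 : ct F t0 =ᶠ[𝓝 t] fun _ => (0 : ℝ) := by
      have h2 : t < t0 / 2 := by
        push Not at ht
        linarith
      filter_upwards [Iio_mem_nhds h2] with u hu
      unfold ct
      rw [Real.smoothTransition.zero_of_nonpos, zero_mul]
      have h3 : u < t0 / 2 := hu
      have : 2 * u / t0 ≤ 1 := by
        rw [div_le_one h0]
        linarith
      linarith
    exact contDiffAt_const.congr_of_eventuallyEq h1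

theorem ct_der (h0 : 0 < t0) (ht : t0 < t) (hF : HasDerivAt F F' t) : HasDerivAt (ct F t0) F' t := by
  refine hF.congr_of_eventuallyEq ?_
  filter_upwards [Ioi_mem_nhds ht] with u hu
  exact ct_eq h0 (le_of_lt hu)

theorem ct_abs_le (t0 t : ℝ) : |ct F t0 t| ≤ |F t| := by
  unfold ct
  rw [abs_mul, abs_of_nonneg (Real.smoothTransition.nonneg _)]
  calc Real.smoothTransition (2 * t / t0 - 1) * |F t| ≤ 1 * |F t| := by
        gcongr
        exact Real.smoothTransition.le_one _
    _ = _ := one_mul _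

theorem ct_nonneg (h : 0 ≤ F t) : 0 ≤ ct F t0 t :=
  mul_nonneg (Real.smoothTransition.nonneg _) h

theorem sqrt_cdo : ContDiffOn ℝ ∞ Real.sqrt (Ioi 0) := fun t ht =>
  (Real.contDiffAt_sqrt (ne_of_gt ht)).contDiffWithinAt

/-- the bump -/
noncomputable def gb (t : ℝ) : ℝ :=
  Real.smoothTransition (4 * t - 1) * Real.smoothTransition (1 - t)

theorem gb_cd : ContDiff ℝ ∞ gb := by
  unfold gb
  have h := (Real.smoothTransition.contDiff (n := ⊤)).of_le (show (∞ : WithTop ℕ∞) ≤ _ by simp)
  exact (h.comp ((contDiff_const.mul contDiff_id).sub contDiff_const)).mul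
    (h.comp (contDiff_const.sub contDiff_id))

theorem gb_zero {t : ℝ} (h : t ≤ 1 / 4 ∨ 1 ≤ t) : gb t = 0 := by
  unfold gb
  rcases h with h | h
  · rw [Real.smoothTransition.zero_of_nonpos (by linarith), zero_mul]
  · rw [Real.smoothTransition.zero_of_nonpos (x := 1 - t) (by linarith), mul_zero]

theorem gb_pos {t : ℝ} (h1 : 1 / 4 < t) (h2 : t < 1) : 0 < gb t :=
  mul_pos (Real.smoothTransition.pos_of_pos (by linarith))
    (Real.smoothTransition.pos_of_pos (by linarith))

theorem gb_nonneg (t : ℝ) : 0 ≤ gb t :=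
  mul_nonneg (Real.smoothTransition.nonneg _) (Real.smoothTransition.nonneg _)

/-- the pressure profile -/
noncomputable def gP (t : ℝ) : ℝ := ∫ τ in (1 : ℝ)..t, -(gb τ ^ 2 / 2)

theorem gP_der (t : ℝ) : HasDerivAt gP (-(gb t ^ 2 / 2)) t := by
  have hc : Continuous fun τ => -(gb τ ^ 2 / 2) := by
    have := gb_cd.continuous
    fun_prop
  exact intervalIntegral.integral_hasDerivAt_right (hc.intervalIntegrable _ _)
    (hc.stronglyMeasurableAtFilter _ _) hc.continuousAt

theorem gP_cd : ContDiff ℝ ∞ gP := by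
  rw [contDiff_infty_iff_deriv]
  refine ⟨fun t => (gP_der t).differentiableAt, ?_⟩
  have : deriv gP = fun t => -(gb t ^ 2 / 2) := funext fun t => (gP_der t).deriv
  rw [this]
  exact ((gb_cd.pow 2).div_const 2).neg

theorem gP_zero {t : ℝ} (h : 1 ≤ t) : gP t = 0 := by
  unfold gP
  have : ∫ τ in (1 : ℝ)..t, -(gb τ ^ 2 / 2) = ∫ τ in (1 : ℝ)..t, (0 : ℝ) := by
    refine intervalIntegral.integral_congr fun τ hτ => ?_
    rw [uIcc_of_le h] at hτ
    rw [gb_zero (Or.inr hτ.1)]
    simp
  rw [this]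
  simp

end Pool.Agent.J4H18.DN
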