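import Pool.Agent.J4H18.DN.D1

/-!
The base functions of the standard torus.
-/

set_option autoImplicit false
set_option linter.unusedSectionVars false

open MeasureTheory Set Filter Topology
open scoped InnerProductSpace ENNReal ContDiff NNReal

namespace Pool.Agent.J4H18.DN

open H772R2.NS


theorem cdx (j : Fin 3) : ContDiff ℝ ∞ (fun x : E3 => x j) := contDiff_coord contDiff_id j

theorem pd_coord (i j : Fin 3) (x : E3) : pd j (fun x : E3 => x i) x = if i = j then 1 else 0 := by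
  unfold pd
  have h : (fun x : E3 => x i) = (EuclideanSpace.proj i : E3 →L[ℝ] ℝ) := rfl
  rw [h, ContinuousLinearMap.fderiv]
  unfold H772R2.NS.ev
  simp

/-- chain rule for functions of one variable -/
theorem pd_comp {H : ℝ → ℝ} {H' : ℝ} {u : E3 → ℝ} {x : E3} (hH : HasDerivAt H H' (u x))
    (hu : ContDiff ℝ ∞ u) (j : Fin 3) : pd j (fun x => H (u x)) x = H' * pd j u x := by
  unfold pd
  have h1 : HasFDerivAt u (fderiv ℝ u x) x := ((hu.differentiable (by simp)) x).hasFDerivAt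
  have h2 : HasFDerivAt (fun x => H (u x)) (H' • fderiv ℝ u x) x := hH.comp_hasFDerivAt x h1
  rw [h2.fderiv]
  simp

theorem pd_const (c : ℝ) (j : Fin 3) (x : E3) : pd j (fun _ => c) x = 0 := by
  unfold pd
  simp

/-- square of the distance to the axis -/
noncomputable def ro (x : E3) : ℝ := x 0 * x 0 + x 1 * x 1

/-- distance to the axis -/
noncomputable def rr (x : E3) : ℝ := ct Real.sqrt (1 / 2) (ro x)

/-- inverse of the distance to the axis -/
noncomputable def ii (x : E3) : ℝ := ct (fun t => 1 / Real.sqrt t) (1 / 2) (ro x)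

noncomputable def bb (x : E3) : ℝ := ct (fun t => Real.sqrt (1 + 2 / Real.sqrt t)) (1 / 2) (ro x)

/-- the inverse of `bb` -/
noncomputable def bi (x : E3) : ℝ :=
  ct (fun t => 1 / Real.sqrt (1 + 2 / Real.sqrt t)) (1 / 2) (ro x)

/-- square of the distance to the core circle -/
noncomputable def qq (x : E3) : ℝ := (rr x - 2) * (rr x - 2) + x 2 * x 2

/-- the phase -/
noncomputable def ph (x : E3) : ℝ := ct Real.sqrt (1 / 8) (qq x)

/-- the bump -/
noncomputable def gg (x : E3) : ℝ := gb (qq x)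

/-- the region where the formulas hold -/
def OO : Set E3 := {x | 1 / 2 < ro x ∧ 1 / 8 < qq x}

theorem ro_cd : ContDiff ℝ ∞ ro := ((cdx 0).mul (cdx 0)).add ((cdx 1).mul (cdx 1))

theorem rr_cd : ContDiff ℝ ∞ rr := (ct_cd sqrt_cdo (by norm_num)).comp ro_cd

theorem inv_cdo : ContDiffOn ℝ ∞ (fun t => 1 / Real.sqrt t) (Ioi 0) :=
  contDiffOn_const.div sqrt_cdo fun t ht => (Real.sqrt_pos.2 ht).ne'

theorem bb_cdo : ContDiffOn ℝ ∞ (fun t => Real.sqrt (1 + 2 / Real.sqrt t)) (Ioi 0) := by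
  refine sqrt_cdo.comp (contDiffOn_const.add (contDiffOn_const.div sqrt_cdo fun t ht =>
    (Real.sqrt_pos.2 ht).ne')) fun t ht => ?_
  have h : 0 < Real.sqrt t := Real.sqrt_pos.2 ht
  have h2 : (0 : ℝ) < 1 + 2 / Real.sqrt t := by positivity
  exact h2

theorem bi_cdo : ContDiffOn ℝ ∞ (fun t => 1 / Real.sqrt (1 + 2 / Real.sqrt t)) (Ioi 0) := by
  refine contDiffOn_const.div bb_cdo fun t ht => ?_
  have : 0 < Real.sqrt t := Real.sqrt_pos.2 ht
  exact (Real.sqrt_pos.2 (by positivity)).ne'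

theorem ii_cd : ContDiff ℝ ∞ ii := (ct_cd inv_cdo (by norm_num)).comp ro_cd

theorem bb_cd : ContDiff ℝ ∞ bb := (ct_cd bb_cdo (by norm_num)).comp ro_cd

theorem bi_cd : ContDiff ℝ ∞ bi := (ct_cd bi_cdo (by norm_num)).comp ro_cd

theorem qq_cd : ContDiff ℝ ∞ qq :=
  ((rr_cd.sub contDiff_const).mul (rr_cd.sub contDiff_const)).add ((cdx 2).mul (cdx 2))

theorem ph_cd : ContDiff ℝ ∞ ph := (ct_cd sqrt_cdo (by norm_num)).comp qq_cd

theorem gg_cd : ContDiff ℝ ∞ gg := gb_cd.comp qq_cd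

theorem OO_open : IsOpen OO :=
  (isOpen_lt continuous_const ro_cd.continuous).inter (isOpen_lt continuous_const qq_cd.continuous)

theorem ro_nonneg (x : E3) : 0 ≤ ro x := add_nonneg (mul_self_nonneg _) (mul_self_nonneg _)

theorem ro_ge {x : E3} (h : qq x ≤ 1) : 1 ≤ ro x := by
  have h1 : (rr x - 2) * (rr x - 2) ≤ 1 := by
    unfold qq at h
    nlinarith [mul_self_nonneg (x 2)]
  have h2 : 1 ≤ rr x := by nlinarith
  have h3 : |rr x| ≤ |Real.sqrt (ro x)| := ct_abs_le _ _
  rw [abs_of_nonneg (Real.sqrt_nonneg _), abs_of_nonneg (by linarith)] at h3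
  have h4 : 1 ≤ Real.sqrt (ro x) := h2.trans h3
  have h5 := Real.sq_sqrt (ro_nonneg x)
  nlinarith

theorem rr_le {x : E3} (h : qq x ≤ 1) : 1 ≤ rr x ∧ rr x ≤ 3 := by
  have h1 : (rr x - 2) * (rr x - 2) ≤ 1 := by
    unfold qq at h
    nlinarith [mul_self_nonneg (x 2)]
  constructor <;> nlinarith

theorem qq_nonneg (x : E3) : 0 ≤ qq x := by
  unfold qq
  nlinarith [mul_self_nonneg (x 2), mul_self_nonneg (rr x - 2)]

section rules

variable {x : E3}

theorem rr_sq (hx : 1 / 2 < ro x) : rr x * rr x = ro x := by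
  unfold rr
  rw [ct_eq (by norm_num) hx.le]
  exact Real.mul_self_sqrt (ro_nonneg x)

theorem rr_pos (hx : 1 / 2 < ro x) : 0 < rr x := by
  unfold rr
  rw [ct_eq (by norm_num) hx.le]
  exact Real.sqrt_pos.2 (by linarith)

theorem rr_ii (hx : 1 / 2 < ro x) : rr x * ii x = 1 := by
  have h1 := rr_pos hx
  unfold rr at h1 ⊢
  unfold ii
  rw [ct_eq (by norm_num) hx.le] at h1 ⊢
  rw [ct_eq (by norm_num) hx.le]
  field_simp

theorem bb_sq (hx : 1 / 2 < ro x) : bb x * bb x = 1 + 2 * ii x := by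
  unfold bb ii
  rw [ct_eq (by norm_num) hx.le, ct_eq (by norm_num) hx.le]
  rw [Real.mul_self_sqrt (by positivity)]
  ring

theorem bb_bi (hx : 1 / 2 < ro x) : bb x * bi x = 1 := by
  unfold bb bi
  rw [ct_eq (by norm_num) hx.le, ct_eq (by norm_num) hx.le]
  have : 0 < Real.sqrt (1 + 2 / Real.sqrt (ro x)) := Real.sqrt_pos.2 (by positivity)
  field_simp

theorem ph_sq (hx : 1 / 8 < qq x) : ph x * ph x = qq x := by
  unfold ph
  rw [ct_eq (by norm_num) hx.le]
  exact Real.mul_self_sqrt (qq_nonneg x)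

theorem ph_pos (hx : 1 / 8 < qq x) : 0 < ph x := by
  unfold ph
  rw [ct_eq (by norm_num) hx.le]
  exact Real.sqrt_pos.2 (by linarith)

/-- the projection to the plane -/
noncomputable def pp (j : Fin 3) (x : E3) : ℝ := if j = 2 then 0 else x j

/-- the coordinates of the axis -/
def e2 (j : Fin 3) : ℝ := if j = 2 then 1 else 0

theorem pd_ro (j : Fin 3) (x : E3) : pd j ro x = 2 * pp j x := by
  have h : pd j ro x = (pd j (fun x : E3 => x 0) x * x 0 + x 0 * pd j (fun x : E3 => x 0) x)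
      + (pd j (fun x : E3 => x 1) x * x 1 + x 1 * pd j (fun x : E3 => x 1) x) := by
    unfold ro
    rw [pd_add ((cdx 0).mul (cdx 0)) ((cdx 1).mul (cdx 1)), pd_mul (cdx 0) (cdx 0),
      pd_mul (cdx 1) (cdx 1)]
  rw [h, pd_coord, pd_coord]
  fin_cases j <;> simp [pp] <;> ring

theorem pd_rr (hx : 1 / 2 < ro x) (j : Fin 3) : pd j rr x = pp j x * ii x := by
  have hp : 0 < ro x := by linarith
  have h1 : HasDerivAt (ct Real.sqrt (1 / 2)) (1 / (2 * Real.sqrt (ro x))) (ro x) :=
    ct_der (by norm_num) hx (Real.hasDerivAt_sqrt hp.ne')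
  have h2 := pd_comp h1 ro_cd j
  have h3 := rr_pos hx
  have h4 := rr_ii hx
  have h5 : rr x = Real.sqrt (ro x) := by
    unfold rr
    rw [ct_eq (by norm_num) hx.le]
  rw [← h5, pd_ro] at h2
  have h6 : pd j rr x = pd j (fun x => ct Real.sqrt (1 / 2) (ro x)) x := rfl
  rw [h6, h2]
  have h7 : ii x = 1 / rr x := by
    field_simp
    linarith
  rw [h7]
  field_simp

theorem pd_ii (hx : 1 / 2 < ro x) (j : Fin 3) : pd j ii x = -(ii x * ii x * ii x * pp j x) := by
  have h1 : pd j (fun x => rr x * ii x) x = 0 := by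
    have e : (fun x => rr x * ii x) =ᶠ[𝓝 x] fun _ => (1 : ℝ) := by
      filter_upwards [(isOpen_lt continuous_const ro_cd.continuous).mem_nhds hx] with y hy
        using rr_ii hy
    unfold pd
    rw [e.fderiv_eq]
    simp
  rw [pd_mul rr_cd ii_cd, pd_rr hx] at h1
  have h2 := rr_ii hx
  have h3 := rr_pos hx
  have h4 : rr x * (pd j ii x + ii x * ii x * ii x * pp j x) = 0 := by
    linear_combination h1 + (ii x * ii x * pp j x) * h2
  rcases mul_eq_zero.1 h4 with h | h
  · exact absurd h h3.ne'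
  · linarith

theorem pd_bb (hx : 1 / 2 < ro x) (j : Fin 3) :
    pd j bb x = -(bi x * (ii x * ii x * ii x) * pp j x) := by
  have h1 : pd j (fun x => bb x * bb x) x = 2 * pd j ii x := by
    have e : (fun x => bb x * bb x) =ᶠ[𝓝 x] fun x => (1 : ℝ) + 2 * ii x := by
      filter_upwards [(isOpen_lt continuous_const ro_cd.continuous).mem_nhds hx] with y hy
        using bb_sq hy
    have e1 : pd j (fun x => bb x * bb x) x = pd j (fun x => (1 : ℝ) + 2 * ii x) x := by
      unfold pd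
      rw [e.fderiv_eq]
    rw [e1, pd_add contDiff_const (contDiff_const.mul ii_cd), pd_smul ii_cd, pd_const, zero_add]
  rw [pd_mul bb_cd bb_cd, pd_ii hx] at h1
  have h2 := bb_bi hx
  linear_combination (bi x / 2) * h1 - (pd j bb x) * h2

theorem pd_qq (hx : 1 / 2 < ro x) (j : Fin 3) :
    pd j qq x = 2 * ((rr x - 2) * ii x * pp j x + x 2 * e2 j) := by
  have c1 : ContDiff ℝ ∞ (fun x => rr x - 2) := rr_cd.sub contDiff_const
  have h : pd j qq x = (pd j (fun x => rr x - 2) x * (rr x - 2)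
      + (rr x - 2) * pd j (fun x => rr x - 2) x)
      + (pd j (fun x : E3 => x 2) x * x 2 + x 2 * pd j (fun x : E3 => x 2) x) := by
    unfold qq
    rw [pd_add (c1.mul c1) ((cdx 2).mul (cdx 2)), pd_mul c1 c1, pd_mul (cdx 2) (cdx 2)]
  have h2 : pd j (fun x => rr x - 2) x = pp j x * ii x := by
    rw [pd_sub rr_cd contDiff_const, pd_const, pd_rr hx, sub_zero]
  rw [h, h2, pd_coord]
  fin_cases j <;> simp [e2] <;> ring

theorem pd_ph (hx : x ∈ OO) (j : Fin 3) :
    ph x * pd j ph x = (rr x - 2) * ii x * pp j x + x 2 * e2 j := by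
  have h1 : pd j (fun x => ph x * ph x) x = pd j qq x := by
    have e : (fun x => ph x * ph x) =ᶠ[𝓝 x] qq := by
      filter_upwards [OO_open.mem_nhds hx] with y hy using ph_sq hy.2
    unfold pd
    rw [e.fderiv_eq]
  rw [pd_mul ph_cd ph_cd, pd_qq hx.1] at h1
  linarith

theorem pd_gg {x : E3} (j : Fin 3) : pd j gg x = deriv gb (qq x) * pd j qq x :=
  pd_comp ((gb_cd.differentiable (by simp)) _).hasDerivAt qq_cd j

end rules

end Pool.Agent.J4H18.DN
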