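import Pool.Agent.J4H18.DN.D2

/-!
The two tangential vector fields of the standard torus.
-/

set_option autoImplicit false
set_option linter.unusedSectionVars false

open MeasureTheory Set Filter Topology
open scoped InnerProductSpace ENNReal ContDiff NNReal

namespace Pool.Agent.J4H18.DN

open H772R2.NS


/-- rotation of the cross section -/
noncomputable def XX (j : Fin 3) (x : E3) : ℝ := -(x 2 * ii x * pp j x) + (rr x - 2) * e2 j

/-- rotation about the axis -/
noncomputable def YY (j : Fin 3) (x : E3) : ℝ := if j = 0 then -x 1 else if j = 1 then x 0 else 0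

theorem pp_cd (j : Fin 3) : ContDiff ℝ ∞ (pp j) := by
  unfold pp
  by_cases h : j = 2
  · simp only [h, if_true]
    exact contDiff_const
  · simp only [h, if_false]
    exact cdx j

theorem YY_cd (j : Fin 3) : ContDiff ℝ ∞ (YY j) := by
  unfold YY
  by_cases h : j = 0
  · simp only [h, if_true]
    exact (cdx 1).neg
  · by_cases h1 : j = 1
    · simp only [h, h1, if_false, if_true]
      exact cdx 0
    · simp only [h, h1, if_false]
      exact contDiff_const

theorem XX_cd (j : Fin 3) : ContDiff ℝ ∞ (XX j) :=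
  (((cdx 2).mul ii_cd).mul (pp_cd j)).neg.add ((rr_cd.sub contDiff_const).mul contDiff_const)

/-- partial derivatives of the projection -/
def dp (i j : Fin 3) : ℝ := if i = 2 then 0 else if i = j then 1 else 0

theorem pd_pp (i j : Fin 3) (x : E3) : pd j (pp i) x = dp i j := by
  unfold dp
  by_cases h : i = 2
  · have e : pp i = fun _ => (0 : ℝ) := by
      funext y
      simp [pp, h]
    rw [e, pd_const]
    simp [h]
  · have e : pp i = fun y => y i := by
      funext y
      simp [pp, h]
    rw [e, pd_coord]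
    simp [h]

/-- partial derivatives of the rotation -/
def dy (i j : Fin 3) : ℝ := if i = 0 ∧ j = 1 then -1 else if i = 1 ∧ j = 0 then 1 else 0

theorem pd_YY (i j : Fin 3) (x : E3) : pd j (YY i) x = dy i j := by
  have h0 : YY 0 = fun y => -y 1 := by
    funext y
    simp [YY]
  have h1 : YY 1 = fun y => y 0 := by
    funext y
    simp [YY]
  have h2 : YY 2 = fun _ => (0 : ℝ) := by
    funext y
    simp [YY]
  fin_cases i
  · show pd j (YY 0) x = dy 0 j
    rw [h0, pd_neg, pd_coord]
    fin_cases j <;> simp [dy]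
  · show pd j (YY 1) x = dy 1 j
    rw [h1, pd_coord]
    fin_cases j <;> simp [dy]
  · show pd j (YY 2) x = dy 2 j
    rw [h2, pd_const]
    fin_cases j <;> simp [dy]

variable {x : E3}

theorem pd_XX (hx : 1 / 2 < ro x) (i j : Fin 3) : pd j (XX i) x
    = -(e2 j * ii x * pp i x - x 2 * (ii x * ii x * ii x) * pp j x * pp i x
        + x 2 * ii x * dp i j) + pp j x * ii x * e2 i := by
  have c1 : ContDiff ℝ ∞ (fun x : E3 => x 2 * ii x) := (cdx 2).mul ii_cd
  have c2 : ContDiff ℝ ∞ (fun x : E3 => x 2 * ii x * pp i x) := c1.mul (pp_cd i)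
  have c3 : ContDiff ℝ ∞ (fun x : E3 => rr x - 2) := rr_cd.sub contDiff_const
  have h : pd j (XX i) x = -((pd j (fun x : E3 => x 2) x * ii x + x 2 * pd j ii x) * pp i x
      + x 2 * ii x * pd j (pp i) x) + pd j (fun x => rr x - 2) x * e2 i := by
    unfold XX
    rw [pd_add c2.neg (c3.mul contDiff_const), pd_neg, pd_mul c1 (pp_cd i), pd_mul (cdx 2) ii_cd,
      pd_mul c3 contDiff_const, pd_const, mul_zero, add_zero]
  have h2 : pd j (fun x => rr x - 2) x = pp j x * ii x := by
    rw [pd_sub rr_cd contDiff_const, pd_const, pd_rr hx, sub_zero]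
  have h3 : (if (2 : Fin 3) = j then (1 : ℝ) else 0) = e2 j := by
    unfold e2
    simp only [eq_comm]
  rw [h, h2, pd_coord, pd_ii hx, pd_pp, h3]
  ring

theorem ii_ro (hx : 1 / 2 < ro x) : ii x * ii x * (x 0 * x 0 + x 1 * x 1) = 1 := by
  have h1 := rr_sq hx
  have h2 := rr_ii hx
  have h3 : ro x = x 0 * x 0 + x 1 * x 1 := rfl
  rw [← h3, ← h1]
  linear_combination (rr x * ii x + 1) * h2

/-- the derivative along the first field -/
noncomputable def DX (u : E3 → ℝ) (x : E3) : ℝ := ∑ j, XX j x * pd j u x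

/-- the derivative along the second field -/
noncomputable def DY (u : E3 → ℝ) (x : E3) : ℝ := ∑ j, YY j x * pd j u x

theorem DX_ii (hx : 1 / 2 < ro x) : DX ii x = x 2 * (ii x * ii x) := by
  have h := ii_ro hx
  unfold DX
  simp only [Fin.sum_univ_three, pd_ii hx, XX, pp, e2]
  simp
  linear_combination (x 2 * ii x * ii x) * h

theorem DX_bb (hx : 1 / 2 < ro x) : DX bb x = x 2 * (ii x * ii x) * bi x := by
  have h := ii_ro hx
  unfold DX
  simp only [Fin.sum_univ_three, pd_bb hx, XX, pp, e2]
  simp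
  linear_combination (x 2 * ii x * ii x * bi x) * h

theorem DX_qq (hx : 1 / 2 < ro x) : DX qq x = 0 := by
  have h := ii_ro hx
  unfold DX
  simp only [Fin.sum_univ_three, pd_qq hx, XX, pp, e2]
  simp
  linear_combination (-2 * x 2 * (rr x - 2)) * h

theorem DX_ph (hx : x ∈ OO) : DX ph x = 0 := by
  have h := DX_qq hx.1
  have hp := ph_pos hx.2
  have h2 : ph x * DX ph x = DX qq x / 2 := by
    unfold DX
    rw [Finset.mul_sum, Finset.sum_div]
    refine Finset.sum_congr rfl fun j _ => ?_
    rw [pd_qq hx.1]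
    linear_combination (XX j x) * pd_ph hx j
  rw [h, zero_div] at h2
  exact (mul_eq_zero.1 h2).resolve_left hp.ne'

theorem DX_gg (hx : 1 / 2 < ro x) : DX gg x = 0 := by
  have h := DX_qq hx
  have h2 : DX gg x = deriv gb (qq x) * DX qq x := by
    unfold DX
    rw [Finset.mul_sum]
    refine Finset.sum_congr rfl fun j _ => ?_
    rw [pd_gg]
    ring
  rw [h2, h, mul_zero]

theorem DY_ii (hx : 1 / 2 < ro x) : DY ii x = 0 := by
  unfold DY
  simp only [Fin.sum_univ_three, pd_ii hx, YY, pp]
  simp
  ring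

theorem DY_bb (hx : 1 / 2 < ro x) : DY bb x = 0 := by
  unfold DY
  simp only [Fin.sum_univ_three, pd_bb hx, YY, pp]
  simp
  ring

theorem DY_qq (hx : 1 / 2 < ro x) : DY qq x = 0 := by
  unfold DY
  simp only [Fin.sum_univ_three, pd_qq hx, YY, pp, e2]
  simp
  ring

theorem DY_ph (hx : x ∈ OO) : DY ph x = 0 := by
  have h := DY_qq hx.1
  have hp := ph_pos hx.2
  have h2 : ph x * DY ph x = DY qq x / 2 := by
    unfold DY
    rw [Finset.mul_sum, Finset.sum_div]
    refine Finset.sum_congr rfl fun j _ => ?_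
    rw [pd_qq hx.1]
    linear_combination (YY j x) * pd_ph hx j
  rw [h, zero_div] at h2
  exact (mul_eq_zero.1 h2).resolve_left hp.ne'

theorem DY_gg (hx : 1 / 2 < ro x) : DY gg x = 0 := by
  have h := DY_qq hx
  have h2 : DY gg x = deriv gb (qq x) * DY qq x := by
    unfold DY
    rw [Finset.mul_sum]
    refine Finset.sum_congr rfl fun j _ => ?_
    rw [pd_gg]
    ring
  rw [h2, h, mul_zero]

theorem div_XX (hx : 1 / 2 < ro x) : ∑ j, pd j (XX j) x = -(x 2 * ii x) := by
  have h := ii_ro hx
  simp only [Fin.sum_univ_three, pd_XX hx, pp, e2, dp]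
  simp
  linear_combination (x 2 * ii x) * h

theorem div_YY (x : E3) : ∑ j, pd j (YY j) x = 0 := by
  simp only [Fin.sum_univ_three, pd_YY, dy]
  simp

theorem XX_XX (hx : x ∈ OO) (i : Fin 3) : DX (XX i) x = -(ph x * pd i ph x) := by
  have h := ii_ro hx.1
  rw [pd_ph hx]
  unfold DX
  simp only [Fin.sum_univ_three, pd_XX hx.1, XX]
  fin_cases i <;> simp [pp, e2, dp]
  · linear_combination (-(x 2 * x 2 * (ii x * ii x) * x 0)) * h
  · linear_combination (-(x 2 * x 2 * (ii x * ii x) * x 1)) * h
  · linear_combination (-(x 2)) * h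

theorem XX_YY (i : Fin 3) : DX (YY i) x = -(x 2 * ii x) * YY i x := by
  unfold DX
  simp only [Fin.sum_univ_three, pd_YY]
  fin_cases i <;> simp [XX, pp, e2, dy, YY]

theorem YY_XX (hx : 1 / 2 < ro x) (i : Fin 3) : DY (XX i) x = -(x 2 * ii x) * YY i x := by
  have h := ii_ro hx
  unfold DY
  simp only [Fin.sum_univ_three, pd_XX hx]
  fin_cases i <;> simp [pp, e2, dp, YY] <;> ring

theorem YY_YY (i : Fin 3) : DY (YY i) x = -pp i x := by
  unfold DY
  simp only [Fin.sum_univ_three, pd_YY]
  fin_cases i <;> simp [pp, dy, YY]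

/-- the decomposition of the radial field -/
theorem pp_eq (hx : x ∈ OO) (i : Fin 3) :
    ph x * ph x * pp i x = -(x 2 * rr x) * XX i x + (rr x - 2) * rr x * (ph x * pd i ph x) := by
  have h := rr_ii hx.1
  have h1 := ph_sq hx.2
  rw [pd_ph hx, h1]
  unfold XX qq
  linear_combination (-(x 2 * x 2 + (rr x - 2) * (rr x - 2)) * pp i x) * h

/-- the phase has a gradient of length one -/
theorem unit_ph (hx : x ∈ OO) : ∑ j, pd j ph x * pd j ph x = 1 := by
  have h := ii_ro hx.1
  have hp := ph_pos hx.2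
  have h1 := ph_sq hx.2
  have h2 : ph x * ph x * (∑ j, pd j ph x * pd j ph x) = ph x * ph x := by
    have e : ph x * ph x * (∑ j, pd j ph x * pd j ph x)
        = ∑ j, (ph x * pd j ph x) * (ph x * pd j ph x) := by
      rw [Finset.mul_sum]
      exact Finset.sum_congr rfl fun j _ => by ring
    rw [e, h1]
    simp only [pd_ph hx, Fin.sum_univ_three, pp, e2, qq]
    simp
    linear_combination ((rr x - 2) * (rr x - 2)) * h
  have h3 : ph x * ph x ≠ 0 := (mul_pos hp hp).ne'
  exact mul_left_cancel₀ h3 (h2.trans (mul_one _).symm)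

/-- the fields are tangential -/
theorem tan_XX (hx : x ∈ OO) : ∑ j, pd j ph x * XX j x = 0 := by
  have := DX_ph hx
  unfold DX at this
  rw [← this]
  exact Finset.sum_congr rfl fun j _ => by ring

theorem tan_YY (hx : x ∈ OO) : ∑ j, pd j ph x * YY j x = 0 := by
  have := DY_ph hx
  unfold DY at this
  rw [← this]
  exact Finset.sum_congr rfl fun j _ => by ring

end Pool.Agent.J4H18.DN
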