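import Pool.Agent.J4H18.DN.D3

/-!
The data of the standard torus.
-/

set_option autoImplicit false
set_option linter.unusedSectionVars false

open MeasureTheory Set Filter Topology
open scoped InnerProductSpace ENNReal ContDiff NNReal

namespace Pool.Agent.J4H18.DN

open H772R2.NS


noncomputable def aa (x : E3) : ℝ := gg x * bb x

noncomputable def da (x : E3) : ℝ := gg x * ph x * ii x

/-- the shell -/
def S0 : Set E3 := {x | 1 / 4 ≤ qq x ∧ qq x ≤ 1}

/-- the solid torus -/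
def K0 : Set E3 := {x | qq x ≤ 1}

noncomputable def tA (β : ℝ) (i : Fin 3) (x : E3) : ℝ := aa x * XX i x + β * (da x * YY i x)

noncomputable def tB (γ : ℝ) (i : Fin 3) (x : E3) : ℝ := γ * (da x * YY i x)

/-- the scalar factor of the force -/
noncomputable def ff (x : E3) : ℝ :=
  x 2 * (gg x * gg x * ph x * (2 * rr x + 3) * (ii x * ii x * ii x) * bi x)

/-- the force of the standard torus -/
noncomputable def hh (i : Fin 3) (x : E3) : ℝ := ff x * YY i x

noncomputable def tP (x : E3) : ℝ := gP (qq x)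

theorem aa_cd : ContDiff ℝ ∞ aa := gg_cd.mul bb_cd

theorem da_cd : ContDiff ℝ ∞ da := (gg_cd.mul ph_cd).mul ii_cd

theorem ff_cd : ContDiff ℝ ∞ ff :=
  (cdx 2).mul (((((gg_cd.mul gg_cd).mul ph_cd).mul ((contDiff_const.mul rr_cd).add
    contDiff_const)).mul ((ii_cd.mul ii_cd).mul ii_cd)).mul bi_cd)

theorem S0_OO {x : E3} (hx : x ∈ S0) : x ∈ OO := by
  have := ro_ge hx.2
  exact ⟨by linarith, by linarith [hx.1]⟩

theorem gg_off {x : E3} (hx : x ∉ S0) : gg x = 0 := by
  refine gb_zero ?_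
  by_contra h
  push Not at h
  exact hx ⟨h.1.le, h.2.le⟩

theorem S0_closed : IsClosed S0 :=
  (isClosed_le continuous_const qq_cd.continuous).inter
    (isClosed_le qq_cd.continuous continuous_const)

theorem K0_norm {x : E3} (hx : x ∈ K0) : ‖x‖ ≤ 4 := by
  have hx' : qq x ≤ 1 := hx
  have h1 := rr_le hx'
  have h2 := ro_ge hx'
  have h3 := rr_sq (x := x) (by linarith)
  have h4 : ‖x‖ ^ 2 = x 0 ^ 2 + x 1 ^ 2 + x 2 ^ 2 := by
    rw [EuclideanSpace.norm_sq_eq]
    simp [Fin.sum_univ_three]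
  have h5 : x 2 * x 2 ≤ 1 := by
    unfold qq at hx'
    nlinarith [mul_self_nonneg (rr x - 2)]
  have h6 : ro x ≤ 9 := by nlinarith
  have h7 : ro x = x 0 * x 0 + x 1 * x 1 := rfl
  have h8 : ‖x‖ ^ 2 ≤ 4 ^ 2 := by nlinarith
  exact abs_le_of_sq_le_sq' h8 (by norm_num) |>.2

theorem K0_compact : IsCompact K0 := by
  refine Metric.isCompact_of_isClosed_isBounded (isClosed_le qq_cd.continuous continuous_const) ?_
  refine (Metric.isBounded_closedBall (x := (0 : E3)) (r := 4)).subset fun x hx => ?_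
  rw [mem_closedBall_zero_iff]
  exact K0_norm hx

theorem tA_amp (β : ℝ) (i : Fin 3) : Amp S0 (tA β i) := by
  refine ⟨(aa_cd.mul (XX_cd i)).add (contDiff_const.mul (da_cd.mul (YY_cd i))), fun x hx => ?_⟩
  unfold tA aa da
  rw [gg_off hx]
  ring

theorem tB_amp (γ : ℝ) (i : Fin 3) : Amp S0 (tB γ i) := by
  refine ⟨contDiff_const.mul (da_cd.mul (YY_cd i)), fun x hx => ?_⟩
  unfold tB da
  rw [gg_off hx]
  ring

theorem hh_amp (i : Fin 3) : Amp S0 (hh i) := by
  refine ⟨ff_cd.mul (YY_cd i), fun x hx => ?_⟩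
  unfold hh ff
  rw [gg_off hx]
  ring

theorem tP_amp : Amp K0 tP := by
  refine ⟨gP_cd.comp qq_cd, fun x hx => ?_⟩
  refine gP_zero ?_
  have h : ¬ qq x ≤ 1 := hx
  linarith [not_le.1 h]

variable {x : E3}

theorem DX_mul {u v : E3 → ℝ} (hu : ContDiff ℝ ∞ u) (hv : ContDiff ℝ ∞ v) :
    DX (fun x => u x * v x) x = DX u x * v x + u x * DX v x := by
  unfold DX
  rw [Finset.sum_mul, Finset.mul_sum, ← Finset.sum_add_distrib]
  refine Finset.sum_congr rfl fun j _ => ?_
  rw [pd_mul hu hv]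
  ring

theorem DY_mul {u v : E3 → ℝ} (hu : ContDiff ℝ ∞ u) (hv : ContDiff ℝ ∞ v) :
    DY (fun x => u x * v x) x = DY u x * v x + u x * DY v x := by
  unfold DY
  rw [Finset.sum_mul, Finset.mul_sum, ← Finset.sum_add_distrib]
  refine Finset.sum_congr rfl fun j _ => ?_
  rw [pd_mul hu hv]
  ring

theorem DX_aa (hx : x ∈ OO) : DX aa x = gg x * (x 2 * (ii x * ii x) * bi x) := by
  have h : DX aa x = DX gg x * bb x + gg x * DX bb x := DX_mul gg_cd bb_cd
  rw [h, DX_gg hx.1, DX_bb hx.1]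
  ring

theorem DX_da (hx : x ∈ OO) : DX da x = gg x * ph x * (x 2 * (ii x * ii x)) := by
  have h : DX da x = DX (fun x => gg x * ph x) x * ii x + gg x * ph x * DX ii x :=
    DX_mul (gg_cd.mul ph_cd) ii_cd
  rw [h, DX_mul gg_cd ph_cd, DX_gg hx.1, DX_ph hx, DX_ii hx.1]
  ring

theorem DY_aa (hx : x ∈ OO) : DY aa x = 0 := by
  have h : DY aa x = DY gg x * bb x + gg x * DY bb x := DY_mul gg_cd bb_cd
  rw [h, DY_gg hx.1, DY_bb hx.1]
  ring

theorem DY_da (hx : x ∈ OO) : DY da x = 0 := by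
  have h : DY da x = DY (fun x => gg x * ph x) x * ii x + gg x * ph x * DY ii x :=
    DY_mul (gg_cd.mul ph_cd) ii_cd
  rw [h, DY_mul gg_cd ph_cd, DY_gg hx.1, DY_ph hx, DY_ii hx.1]
  ring

/-- a function of `ro` is annihilated by the rotation -/
theorem DY_ro {H : ℝ → ℝ} (hH : ContDiff ℝ ∞ H) : DY (fun x => H (ro x)) x = 0 := by
  unfold DY
  have h : ∀ j, pd j (fun x => H (ro x)) x = deriv H (ro x) * pd j ro x := fun j =>
    pd_comp ((hH.differentiable (by simp)) _).hasDerivAt ro_cd j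
  simp only [Fin.sum_univ_three, h, pd_ro, YY, pp]
  simp
  ring

theorem DY_rr : DY rr x = 0 := DY_ro (ct_cd sqrt_cdo (by norm_num))

theorem DY_ii' : DY ii x = 0 := DY_ro (ct_cd inv_cdo (by norm_num))

theorem DY_bi : DY bi x = 0 := DY_ro (ct_cd bi_cdo (by norm_num))

theorem DY_z : DY (fun x => x 2) x = 0 := by
  unfold DY
  simp only [Fin.sum_univ_three, pd_coord, YY]
  simp

theorem DY_ff (hx : x ∈ OO) : DY ff x = 0 := by
  have c1 := gg_cd.mul gg_cd
  have c2 := c1.mul ph_cd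
  have c3 : ContDiff ℝ ∞ (fun x => 2 * rr x + 3) := (contDiff_const.mul rr_cd).add contDiff_const
  have c4 := c2.mul c3
  have c5 := (ii_cd.mul ii_cd)
  have c6 := c5.mul ii_cd
  have c7 := c4.mul c6
  have c8 := c7.mul bi_cd
  have h3 : DY (fun x => 2 * rr x + 3) x = 0 := by
    have : DY (fun x => 2 * rr x + 3) x = 2 * DY rr x := by
      unfold DY
      rw [Finset.mul_sum]
      refine Finset.sum_congr rfl fun j _ => ?_
      rw [pd_add (contDiff_const.mul rr_cd) contDiff_const, pd_smul rr_cd, pd_const]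
      ring
    rw [this, DY_rr, mul_zero]
  unfold ff
  rw [DY_mul (cdx 2) c8, DY_z, DY_mul c7 bi_cd, DY_bi, DY_mul c4 c6, DY_mul c5 ii_cd,
    DY_mul ii_cd ii_cd, DY_ii', DY_mul c2 c3, h3, DY_mul c1 ph_cd, DY_ph hx, DY_mul gg_cd gg_cd,
    DY_gg hx.1]
  ring

theorem hh_div (x : E3) : ∑ i, pd i (hh i) x = 0 := by
  by_cases hx : x ∈ S0
  · have h1 : ∀ i, pd i (hh i) x = pd i ff x * YY i x + ff x * pd i (YY i) x := fun i =>
      pd_mul ff_cd (YY_cd i) i x
    simp only [h1]
    rw [Finset.sum_add_distrib, ← Finset.mul_sum, div_YY, mul_zero, add_zero]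
    have h2 := DY_ff (S0_OO hx)
    unfold DY at h2
    rw [← h2]
    exact Finset.sum_congr rfl fun j _ => by ring
  · exact Finset.sum_eq_zero fun i _ => ((hh_amp i).pd S0_closed i).off x hx

theorem pd_tP (i : Fin 3) (x : E3) : pd i tP x = -(gg x * gg x / 2) * pd i qq x := by
  have h := pd_comp (gP_der (qq x)) qq_cd i
  have e : pd i tP x = pd i (fun x => gP (qq x)) x := rfl
  rw [e, h]
  unfold gg
  ring

theorem mean_S {β γ : ℝ} (hβ : β * β + γ * γ = 1) (hx : x ∈ OO) (i : Fin 3) :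
    (1 / 2) * ((∑ j, (tA β j x * pd j (tA β i) x + pd j (tA β j) x * tA β i x))
      + ∑ j, (tB γ j x * pd j (tB γ i) x + pd j (tB γ j) x * tB γ i x))
      = 2 * 1 * (-(β / 4) * hh i x) + pd i tP x := by
  have eA : ∀ i j, pd j (tA β i) x = (pd j aa x * XX i x + aa x * pd j (XX i) x)
      + β * (pd j da x * YY i x + da x * pd j (YY i) x) := by
    intro i j
    have : pd j (tA β i) x = pd j (fun x => aa x * XX i x + β * (da x * YY i x)) x := rfl
    rw [this, pd_add (aa_cd.mul (XX_cd i)) (contDiff_const.mul (da_cd.mul (YY_cd i))),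
      pd_mul aa_cd (XX_cd i), pd_smul (da_cd.mul (YY_cd i)), pd_mul da_cd (YY_cd i)]
  have eB : ∀ i j, pd j (tB γ i) x = γ * (pd j da x * YY i x + da x * pd j (YY i) x) := by
    intro i j
    have : pd j (tB γ i) x = pd j (fun x => γ * (da x * YY i x)) x := rfl
    rw [this, pd_smul (da_cd.mul (YY_cd i)), pd_mul da_cd (YY_cd i)]
  have h1 := DX_aa hx
  have h2 := DX_da hx
  have h3 := DY_aa hx
  have h4 := DY_da hx
  have h5 := XX_XX hx i
  have h6 := XX_YY (x := x) i
  have h7 := YY_XX hx.1 i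
  have h8 := YY_YY (x := x) i
  have h9 := div_XX hx.1
  have h10 := div_YY x
  have hr := rr_ii hx.1
  have hb := bb_sq hx.1
  have hbi := bb_bi hx.1
  have hpp := pp_eq hx i
  have hq : pd i qq x = 2 * (ph x * pd i ph x) := by
    rw [pd_ph hx, pd_qq hx.1]
  rw [pd_tP, hq]
  simp only [eA, eB]
  simp only [DX, DY, Fin.sum_univ_three] at h1 h2 h3 h4 h5 h6 h7 h8 h9 h10 ⊢
  have hA : ∀ j, tA β j x = aa x * XX j x + β * (da x * YY j x) := fun j => rfl
  have hB : ∀ j, tB γ j x = γ * (da x * YY j x) := fun j => rfl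
  simp only [hA, hB]
  have main : (1 / 2) * (2 * aa x * (gg x * (x 2 * (ii x * ii x) * bi x)) * XX i x
      - aa x * aa x * (ph x * pd i ph x) - aa x * aa x * (x 2 * ii x) * XX i x
      + β * (aa x * (gg x * ph x * (x 2 * (ii x * ii x))) - 3 * (aa x * da x * (x 2 * ii x))
        + (gg x * (x 2 * (ii x * ii x) * bi x)) * da x) * YY i x
      - (β * β + γ * γ) * (da x * da x) * pp i x)
      = 2 * 1 * (-(β / 4) * hh i x) + -(gg x * gg x / 2) * (2 * (ph x * pd i ph x)) := by
    unfold aa da hh ff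
    linear_combination (gg x * gg x * x 2 * (ii x * ii x) * XX i x
        + 1 / 2 * β * (gg x * gg x) * ph x * x 2 * YY i x * (2 * (ii x * ii x) * bb x)) * hbi
      + (-(1 / 2) * (gg x * gg x) * (ph x * pd i ph x + x 2 * ii x * XX i x)
        + 1 / 2 * β * (gg x * gg x) * ph x * x 2 * YY i x * (-2 * (ii x * ii x) * bi x)) * hb
      + (-(1 / 2) * (gg x * ph x * ii x * (gg x * ph x * ii x)) * pp i x) * hβ
      + (-(1 / 2) * (gg x * gg x) * (ii x * ii x)) * hpp
      + (1 / 2 * β * (gg x * gg x) * ph x * x 2 * YY i x * (2 * (ii x * ii x) * bi x)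
        - 1 / 2 * (gg x * gg x) * (-(x 2 * XX i x * ii x) + (rr x - 2) * (ph x * pd i ph x) * ii x)
        - 1 / 2 * (gg x * gg x) * (ph x * pd i ph x)) * hr
  rw [← main]
  linear_combination (1 / 2) * (aa x * XX i x * h1 + aa x * aa x * h5 + aa x * β * YY i x * h2
    + aa x * β * da x * h6 + β * da x * XX i x * h3 + β * da x * aa x * h7
    + β * β * da x * YY i x * h4 + β * β * (da x * da x) * h8
    + (aa x * XX i x + β * (da x * YY i x)) * (h1 + aa x * h9 + β * h4 + β * da x * h10)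
    + γ * γ * (da x * YY i x * h4 + da x * da x * h8)
    + γ * (γ * (da x * YY i x)) * (h4 + da x * h10))

/-- **The data of the standard torus.** -/
theorem dat0 {β γ : ℝ} (hβ : β * β + γ * γ = 1) :
    Dat 1 ph (tA β) (tB γ) (fun i x => -(β / 4) * hh i x) tP S0 K0 where
  φs := ph_cd
  Sc := S0_closed
  Kc := K0_compact
  SK := fun x hx => hx.2
  unit := ⟨OO, OO_open, fun x hx => S0_OO hx, fun x hx => unit_ph hx⟩
  Aa := tA_amp β
  Ba := tB_amp γ
  tA := by
    intro x
    by_cases hx : x ∈ S0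
    · have h1 := tan_XX (S0_OO hx)
      have h2 := tan_YY (S0_OO hx)
      simp only [Fin.sum_univ_three, DN.tA] at h1 h2 ⊢
      linear_combination aa x * h1 + β * da x * h2
    · exact Finset.sum_eq_zero fun i _ => by rw [(tA_amp β i).off x hx, mul_zero]
  tB := by
    intro x
    by_cases hx : x ∈ S0
    · have h2 := tan_YY (S0_OO hx)
      simp only [Fin.sum_univ_three, DN.tB] at h2 ⊢
      linear_combination γ * da x * h2
    · exact Finset.sum_eq_zero fun i _ => by rw [(tB_amp γ i).off x hx, mul_zero]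
  ha := fun i => (hh_amp i).smul _
  hd := by
    intro x
    have h := hh_div x
    have e : ∀ i, pd i (fun x => -(β / 4) * hh i x) x = -(β / 4) * pd i (hh i) x := fun i =>
      pd_smul (hh_amp i).smooth _ i x
    simp only [e]
    rw [← Finset.mul_sum, h, mul_zero]
  Pa := tP_amp
  mean := by
    intro i x
    by_cases hx : x ∈ S0
    · exact mean_S hβ (S0_OO hx) i
    · have a1 : ∀ j, DN.tA β j x = 0 := fun j => (tA_amp β j).off x hx
      have a2 : ∀ j, pd j (DN.tA β j) x = 0 := fun j => ((tA_amp β j).pd S0_closed j).off x hx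
      have b1 : ∀ j, DN.tB γ j x = 0 := fun j => (tB_amp γ j).off x hx
      have b2 : ∀ j, pd j (DN.tB γ j) x = 0 := fun j => ((tB_amp γ j).pd S0_closed j).off x hx
      rw [pd_tP, gg_off hx, (hh_amp i).off x hx]
      simp [a1, a2, b1, b2]

end Pool.Agent.J4H18.DN
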