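import Pool.Agent.J4H18.DN.D4

/-!
Transport of the data by similarities.
-/

set_option autoImplicit false
set_option linter.unusedSectionVars false

open MeasureTheory Set Filter Topology
open scoped InnerProductSpace ENNReal ContDiff NNReal

namespace Pool.Agent.J4H18.DN

open H772R2.NS


/-- the entries of a rotation -/
noncomputable def ent (R : E3 ≃ₗᵢ[ℝ] E3) (a j : Fin 3) : ℝ := (R (H772R2.NS.ev j)) a

/-- the similarity -/
noncomputable def TT (R : E3 ≃ₗᵢ[ℝ] E3) (y : E3) (s : ℝ) (x : E3) : E3 := s⁻¹ • R (x - y)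

/-- the rotated family -/
noncomputable def rot (R : E3 ≃ₗᵢ[ℝ] E3) (y : E3) (s : ℝ) (F : Fin 3 → E3 → ℝ) (i : Fin 3)
    (x : E3) : ℝ := ∑ a, ent R a i * F a (TT R y s x)

variable {R : E3 ≃ₗᵢ[ℝ] E3} {y : E3} {s : ℝ}

theorem coord_inner (x : E3) (a : Fin 3) : x a = ⟪H772R2.NS.ev a, x⟫_ℝ := by
  unfold H772R2.NS.ev
  rw [EuclideanSpace.inner_single_left]
  simp

theorem inner_sum (x y : E3) : ⟪x, y⟫_ℝ = ∑ j, x j * y j := by
  rw [PiLp.inner_apply]
  refine Finset.sum_congr rfl fun j _ => ?_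
  simp [mul_comm]

theorem ent_rows (R : E3 ≃ₗᵢ[ℝ] E3) (a b : Fin 3) :
    ∑ j, ent R a j * ent R b j = if a = b then 1 else 0 := by
  have h1 : ∀ a j, ent R a j = (R.symm (H772R2.NS.ev a)) j := by
    intro a j
    unfold ent
    rw [coord_inner, coord_inner (R.symm (H772R2.NS.ev a)) j, real_inner_comm (R.symm (H772R2.NS.ev a)) (H772R2.NS.ev j)]
    rw [← R.inner_map_map (R.symm (H772R2.NS.ev a)) (H772R2.NS.ev j), R.apply_symm_apply]
  simp only [h1]
  rw [← inner_sum, R.symm.inner_map_map, ← coord_inner]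
  unfold H772R2.NS.ev
  simp

theorem orth (R : E3 ≃ₗᵢ[ℝ] E3) (u w : Fin 3 → ℝ) :
    ∑ j, (∑ a, ent R a j * u a) * (∑ c, ent R c j * w c) = ∑ a, u a * w a := by
  have h := ent_rows R
  have h00 := h 0 0
  have h01 := h 0 1
  have h02 := h 0 2
  have h10 := h 1 0
  have h11 := h 1 1
  have h12 := h 1 2
  have h20 := h 2 0
  have h21 := h 2 1
  have h22 := h 2 2
  simp only [Fin.sum_univ_three] at h00 h01 h02 h10 h11 h12 h20 h21 h22 ⊢
  simp only [Fin.isValue, if_true, if_false, Fin.reduceEq] at h00 h01 h02 h10 h11 h12 h20 h21 h22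
  linear_combination (u 0 * w 0) * h00 + (u 0 * w 1) * h01 + (u 0 * w 2) * h02
    + (u 1 * w 0) * h10 + (u 1 * w 1) * h11 + (u 1 * w 2) * h12
    + (u 2 * w 0) * h20 + (u 2 * w 1) * h21 + (u 2 * w 2) * h22

theorem TT_cd (R : E3 ≃ₗᵢ[ℝ] E3) (y : E3) (s : ℝ) : ContDiff ℝ ∞ (TT R y s) :=
  (R.contDiff.comp (contDiff_id.sub contDiff_const)).const_smul s⁻¹

theorem pd_TT {f : E3 → ℝ} (hf : ContDiff ℝ ∞ f) (j : Fin 3) (x : E3) :
    pd j (fun x => f (TT R y s x)) x = s⁻¹ * ∑ a, ent R a j * pd a f (TT R y s x) := by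
  have h1 : HasFDerivAt f (fderiv ℝ f (TT R y s x)) (TT R y s x) :=
    ((hf.differentiable (by simp)) _).hasFDerivAt
  have h2 : HasFDerivAt (TT R y s) (s⁻¹ • (R.toContinuousLinearEquiv : E3 →L[ℝ] E3)) x := by
    have h3 : HasFDerivAt (fun x : E3 => x - y) (ContinuousLinearMap.id ℝ E3) x :=
      (hasFDerivAt_id x).sub_const y
    have h4 : HasFDerivAt (fun x : E3 => R (x - y))
        ((R.toContinuousLinearEquiv : E3 →L[ℝ] E3).comp (ContinuousLinearMap.id ℝ E3)) x :=
      (R.toContinuousLinearEquiv : E3 →L[ℝ] E3).hasFDerivAt.comp x h3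
    exact h4.const_smul s⁻¹
  have h5 := (h1.comp x h2).fderiv
  have h6 : (fun x => f (TT R y s x)) = f ∘ TT R y s := rfl
  have h7 : R (H772R2.NS.ev j) = ∑ a, ent R a j • H772R2.NS.ev a := by
    ext b
    have : (∑ a, ent R a j • H772R2.NS.ev a : E3) b = ∑ a, ent R a j * (H772R2.NS.ev a) b := by
      rw [WithLp.ofLp_sum, Finset.sum_apply]
      rfl
    rw [this]
    unfold H772R2.NS.ev ent
    simp [Finset.sum_ite_eq, H772R2.NS.ev]
  unfold pd
  rw [h6, h5]
  simp only [ContinuousLinearMap.comp_apply, smul_apply, map_smul, smul_eq_mul]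
  have h8 : (R.toContinuousLinearEquiv : E3 →L[ℝ] E3) (H772R2.NS.ev j) = R (H772R2.NS.ev j) := rfl
  rw [h8, h7, map_sum]
  simp only [map_smul, smul_eq_mul]

theorem TT_homeo (hs : 0 < s) (w : E3) : TT R y s (y + s • R.symm w) = w := by
  unfold TT
  rw [add_sub_cancel_left, map_smul, R.apply_symm_apply, smul_smul, inv_mul_cancel₀ hs.ne', one_smul]

theorem TT_inv (hs : 0 < s) (x : E3) : y + s • R.symm (TT R y s x) = x := by
  unfold TT
  rw [map_smul, R.symm_apply_apply, smul_smul, mul_inv_cancel₀ hs.ne', one_smul]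
  abel

theorem pre_compact (hs : 0 < s) {K : Set E3} (hK : IsCompact K) :
    IsCompact (TT R y s ⁻¹' K) := by
  have h : TT R y s ⁻¹' K = (fun w => y + s • R.symm w) '' K := by
    ext x
    constructor
    · intro hx
      exact ⟨_, hx, TT_inv hs x⟩
    · rintro ⟨w, hw, rfl⟩
      show TT R y s (y + s • R.symm w) ∈ K
      rw [TT_homeo hs]
      exact hw
  rw [h]
  refine hK.image ?_
  have := R.symm.continuous
  fun_prop

theorem TT_norm (hs : 0 < s) (x : E3) : ‖TT R y s x‖ = ‖x - y‖ / s := by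
  unfold TT
  rw [norm_smul, R.norm_map, norm_inv, Real.norm_eq_abs, abs_of_pos hs]
  ring

theorem Amp.tt {S : Set E3} {f : E3 → ℝ} (hf : Amp S f) :
    Amp (TT R y s ⁻¹' S) (fun x => f (TT R y s x)) :=
  ⟨hf.smooth.comp (TT_cd R y s), fun x hx => hf.off _ hx⟩

theorem Amp.rot {S : Set E3} {F : Fin 3 → E3 → ℝ} (hF : ∀ i, Amp S (F i)) (i : Fin 3) :
    Amp (TT R y s ⁻¹' S) (rot R y s F i) :=
  Amp.sum _ fun a _ => ((hF a).tt (R := R) (y := y) (s := s)).smul (ent R a i)

theorem pd_rot {F : Fin 3 → E3 → ℝ} (hF : ∀ i, ContDiff ℝ ∞ (F i)) (i j : Fin 3) (x : E3) :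
    pd j (rot R y s F i) x
      = s⁻¹ * ∑ c, ent R c j * (∑ a, ent R a i * pd c (F a) (TT R y s x)) := by
  have c : ∀ a, ContDiff ℝ ∞ (fun x => F a (TT R y s x)) := fun a => (hF a).comp (TT_cd R y s)
  unfold rot
  rw [pd_sum _ fun a _ => contDiff_const.mul (c a)]
  have h : ∀ a, pd j (fun x => ent R a i * F a (TT R y s x)) x
      = ent R a i * (s⁻¹ * ∑ c, ent R c j * pd c (F a) (TT R y s x)) := by
    intro a
    rw [pd_smul (c a), pd_TT (hF a)]
  rw [Finset.sum_congr rfl fun a _ => h a]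
  simp only [Fin.sum_univ_three]
  ring

variable {ν ν' : ℝ} {φ : E3 → ℝ} {A B h : Fin 3 → E3 → ℝ} {P : E3 → ℝ} {S K : Set E3}

theorem adv_rot {F : Fin 3 → E3 → ℝ} (hF : ∀ i, ContDiff ℝ ∞ (F i)) (i : Fin 3) (x : E3) :
    ∑ j, (rot R y s F j x * pd j (rot R y s F i) x + pd j (rot R y s F j) x * rot R y s F i x)
      = s⁻¹ * ∑ b, ent R b i * ∑ j, (F j (TT R y s x) * pd j (F b) (TT R y s x)
        + pd j (F j) (TT R y s x) * F b (TT R y s x)) := by
  set w := TT R y s x with hw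
  have h1 : ∀ j, rot R y s F j x = ∑ a, ent R a j * F a w := fun j => rfl
  have h2 := orth R (fun a => F a w) (fun c => ∑ b, ent R b i * pd c (F b) w)
  have h3 : ∑ j, pd j (rot R y s F j) x = s⁻¹ * ∑ a, pd a (F a) w := by
    have e : ∀ j, pd j (rot R y s F j) x
        = s⁻¹ * ∑ c, ent R c j * (∑ a, ent R a j * pd c (F a) w) := fun j => pd_rot hF j j x
    have k := ent_rows R
    have h00 := k 0 0
    have h01 := k 0 1
    have h02 := k 0 2
    have h10 := k 1 0
    have h11 := k 1 1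
    have h12 := k 1 2
    have h20 := k 2 0
    have h21 := k 2 1
    have h22 := k 2 2
    simp only [e, Fin.sum_univ_three] at h00 h01 h02 h10 h11 h12 h20 h21 h22 ⊢
    simp only [Fin.isValue, if_true, if_false, Fin.reduceEq] at h00 h01 h02 h10 h11 h12 h20 h21 h22
    linear_combination s⁻¹ * (pd 0 (F 0) w * h00 + pd 0 (F 1) w * h01 + pd 0 (F 2) w * h02
      + pd 1 (F 0) w * h10 + pd 1 (F 1) w * h11 + pd 1 (F 2) w * h12
      + pd 2 (F 0) w * h20 + pd 2 (F 1) w * h21 + pd 2 (F 2) w * h22)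
  rw [Finset.sum_add_distrib, ← Finset.sum_mul, h3]
  have h4 : ∑ j, rot R y s F j x * pd j (rot R y s F i) x
      = s⁻¹ * ∑ a, F a w * ∑ b, ent R b i * pd a (F b) w := by
    rw [← h2, Finset.mul_sum]
    refine Finset.sum_congr rfl fun j _ => ?_
    rw [h1, pd_rot hF]
    ring
  rw [h4, h1]
  simp only [Fin.sum_univ_three]
  ring

theorem grad_rot {F G : Fin 3 → ℝ} (c : ℝ) (h : ∑ a, F a * G a = 0) :
    ∑ i, (c * ∑ a, ent R a i * F a) * (∑ a, ent R a i * G a) = 0 := by
  have h1 := orth R F G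
  rw [h] at h1
  have h2 : ∑ i, (c * ∑ a, ent R a i * F a) * (∑ a, ent R a i * G a)
      = c * ∑ i, (∑ a, ent R a i * F a) * (∑ a, ent R a i * G a) := by
    rw [Finset.mul_sum]
    exact Finset.sum_congr rfl fun j _ => by ring
  rw [h2, h1, mul_zero]

/-- **Transport of the data.** -/
theorem Dat.transport (D : Dat ν φ A B h P S K) (R : E3 ≃ₗᵢ[ℝ] E3) (y : E3) (hs : 0 < s)
    (hν' : 0 < ν') (μ : ℝ) :
    Dat ν' (fun x => s * φ (TT R y s x)) (fun i x => μ * rot R y s A i x)
      (fun i x => μ * rot R y s B i x)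
      (fun i x => μ ^ 2 * ν / (s * ν') * rot R y s h i x) (fun x => μ ^ 2 * P (TT R y s x))
      (TT R y s ⁻¹' S) (TT R y s ⁻¹' K) := by
  have hTc : Continuous (TT R y s) := (TT_cd R y s).continuous
  have hφ' : ContDiff ℝ ∞ (fun x => φ (TT R y s x)) := D.φs.comp (TT_cd R y s)
  have gφ : ∀ j x, pd j (fun x => s * φ (TT R y s x)) x = ∑ a, ent R a j * pd a φ (TT R y s x) := by
    intro j x
    rw [pd_smul hφ', pd_TT D.φs]
    field_simp
  have cA : ∀ i, ContDiff ℝ ∞ (A i) := fun i => (D.Aa i).smooth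
  have cB : ∀ i, ContDiff ℝ ∞ (B i) := fun i => (D.Ba i).smooth
  have ch : ∀ i, ContDiff ℝ ∞ (h i) := fun i => (D.ha i).smooth
  have rA : ∀ i, ContDiff ℝ ∞ (rot R y s A i) := fun i => (Amp.rot D.Aa i).smooth
  have rB : ∀ i, ContDiff ℝ ∞ (rot R y s B i) := fun i => (Amp.rot D.Ba i).smooth
  have rh : ∀ i, ContDiff ℝ ∞ (rot R y s h i) := fun i => (Amp.rot D.ha i).smooth
  refine ⟨contDiff_const.mul hφ', D.Sc.preimage hTc, pre_compact hs D.Kc, preimage_mono D.SK, ?_,
    fun i => (Amp.rot D.Aa i).smul μ, fun i => (Amp.rot D.Ba i).smul μ, ?_, ?_,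
    fun i => (Amp.rot D.ha i).smul _, ?_, (D.Pa.tt).smul _, ?_⟩
  · obtain ⟨O, h1, h2, h3⟩ := D.unit
    refine ⟨TT R y s ⁻¹' O, h1.preimage hTc, preimage_mono h2, fun x hx => ?_⟩
    simp only [gφ]
    rw [orth R (fun a => pd a φ (TT R y s x)) (fun a => pd a φ (TT R y s x))]
    exact h3 _ hx
  · intro x
    simp only [gφ]
    have h1 := orth R (fun a => pd a φ (TT R y s x)) (fun a => A a (TT R y s x))
    rw [D.tA] at h1
    have h2 : ∑ i, (∑ a, ent R a i * pd a φ (TT R y s x)) * (μ * rot R y s A i x)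
        = μ * ∑ i, (∑ a, ent R a i * pd a φ (TT R y s x)) * (∑ a, ent R a i * A a (TT R y s x)) := by
      rw [Finset.mul_sum]
      refine Finset.sum_congr rfl fun j _ => ?_
      unfold rot
      ring
    rw [h2, h1, mul_zero]
  · intro x
    simp only [gφ]
    have h1 := orth R (fun a => pd a φ (TT R y s x)) (fun a => B a (TT R y s x))
    rw [D.tB] at h1
    have h2 : ∑ i, (∑ a, ent R a i * pd a φ (TT R y s x)) * (μ * rot R y s B i x)
        = μ * ∑ i, (∑ a, ent R a i * pd a φ (TT R y s x)) * (∑ a, ent R a i * B a (TT R y s x)) := by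
      rw [Finset.mul_sum]
      refine Finset.sum_congr rfl fun j _ => ?_
      unfold rot
      ring
    rw [h2, h1, mul_zero]
  · intro x
    have e : ∀ i, pd i (fun x => μ ^ 2 * ν / (s * ν') * rot R y s h i x) x
        = μ ^ 2 * ν / (s * ν') * pd i (rot R y s h i) x := fun i => pd_smul (rh i) _ i x
    simp only [e]
    rw [← Finset.mul_sum]
    have h3 : ∑ j, pd j (rot R y s h j) x = s⁻¹ * ∑ a, pd a (h a) (TT R y s x) := by
      have e : ∀ j, pd j (rot R y s h j) x
          = s⁻¹ * ∑ c, ent R c j * (∑ a, ent R a j * pd c (h a) (TT R y s x)) :=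
        fun j => pd_rot ch j j x
      have k := ent_rows R
      have h00 := k 0 0
      have h01 := k 0 1
      have h02 := k 0 2
      have h10 := k 1 0
      have h11 := k 1 1
      have h12 := k 1 2
      have h20 := k 2 0
      have h21 := k 2 1
      have h22 := k 2 2
      simp only [e, Fin.sum_univ_three] at h00 h01 h02 h10 h11 h12 h20 h21 h22 ⊢
      simp only [Fin.isValue, if_true, if_false, Fin.reduceEq] at h00 h01 h02 h10 h11 h12 h20 h21 h22
      linear_combination s⁻¹ * (pd 0 (h 0) (TT R y s x) * h00 + pd 0 (h 1) (TT R y s x) * h01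
        + pd 0 (h 2) (TT R y s x) * h02
        + pd 1 (h 0) (TT R y s x) * h10 + pd 1 (h 1) (TT R y s x) * h11
        + pd 1 (h 2) (TT R y s x) * h12
        + pd 2 (h 0) (TT R y s x) * h20 + pd 2 (h 1) (TT R y s x) * h21
        + pd 2 (h 2) (TT R y s x) * h22)
    rw [h3, D.hd, mul_zero, mul_zero]
  · intro i x
    have m := fun b => D.mean b (TT R y s x)
    have a1 := adv_rot (R := R) (y := y) (s := s) cA i x
    have b1 := adv_rot (R := R) (y := y) (s := s) cB i x
    have eA : ∀ i j, pd j (fun x => μ * rot R y s A i x) x = μ * pd j (rot R y s A i) x :=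
      fun i j => pd_smul (rA i) μ j x
    have eB : ∀ i j, pd j (fun x => μ * rot R y s B i x) x = μ * pd j (rot R y s B i) x :=
      fun i j => pd_smul (rB i) μ j x
    have eP : pd i (fun x => μ ^ 2 * P (TT R y s x)) x
        = μ ^ 2 * (s⁻¹ * ∑ a, ent R a i * pd a P (TT R y s x)) := by
      have cP : ContDiff ℝ ∞ (fun x => P (TT R y s x)) := D.Pa.smooth.comp (TT_cd R y s)
      rw [pd_smul cP, pd_TT D.Pa.smooth]
    simp only [eA, eB]
    rw [eP]
    have s1 : ∑ j, (μ * rot R y s A j x * (μ * pd j (rot R y s A i) x)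
        + μ * pd j (rot R y s A j) x * (μ * rot R y s A i x))
        = μ ^ 2 * ∑ j, (rot R y s A j x * pd j (rot R y s A i) x
          + pd j (rot R y s A j) x * rot R y s A i x) := by
      rw [Finset.mul_sum]
      exact Finset.sum_congr rfl fun j _ => by ring
    have s2 : ∑ j, (μ * rot R y s B j x * (μ * pd j (rot R y s B i) x)
        + μ * pd j (rot R y s B j) x * (μ * rot R y s B i x))
        = μ ^ 2 * ∑ j, (rot R y s B j x * pd j (rot R y s B i) x
          + pd j (rot R y s B j) x * rot R y s B i x) := by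
      rw [Finset.mul_sum]
      exact Finset.sum_congr rfl fun j _ => by ring
    rw [s1, s2, a1, b1]
    have s3 : μ ^ 2 * (s⁻¹ * ∑ b, ent R b i * ∑ j, (A j (TT R y s x) * pd j (A b) (TT R y s x)
          + pd j (A j) (TT R y s x) * A b (TT R y s x)))
        + μ ^ 2 * (s⁻¹ * ∑ b, ent R b i * ∑ j, (B j (TT R y s x) * pd j (B b) (TT R y s x)
          + pd j (B j) (TT R y s x) * B b (TT R y s x)))
        = 2 * μ ^ 2 * s⁻¹ * ∑ b, ent R b i * (2 * ν * h b (TT R y s x) + pd b P (TT R y s x)) := by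
      rw [← mul_add, ← mul_add, ← Finset.sum_add_distrib]
      have : ∀ b, ent R b i * ∑ j, (A j (TT R y s x) * pd j (A b) (TT R y s x)
          + pd j (A j) (TT R y s x) * A b (TT R y s x))
          + ent R b i * ∑ j, (B j (TT R y s x) * pd j (B b) (TT R y s x)
          + pd j (B j) (TT R y s x) * B b (TT R y s x))
          = 2 * (ent R b i * (2 * ν * h b (TT R y s x) + pd b P (TT R y s x))) := by
        intro b
        rw [← m b]
        ring
      rw [Finset.sum_congr rfl fun b _ => this b, ← Finset.mul_sum]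
      ring
    rw [s3]
    unfold rot
    simp only [Fin.sum_univ_three]
    field_simp
    ring

end Pool.Agent.J4H18.DN
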