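import Pool.Agent.J4H18.DN.D5

/-!
The family of torus fields.
-/

set_option autoImplicit false
set_option linter.unusedSectionVars false

open MeasureTheory Set Filter Topology
open scoped InnerProductSpace ENNReal ContDiff NNReal

namespace Pool.Agent.J4H18.DN

open H772R2.NS

variable {ν : ℝ} {s : ℝ}

theorem pre_K0 (R : E3 ≃ₗᵢ[ℝ] E3) (y : E3) (hs : 0 < s) :
    TT R y s ⁻¹' K0 ⊆ Metric.closedBall y (4 * s) := by
  intro x hx
  have h1 := K0_norm (x := TT R y s x) hx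
  rw [TT_norm hs, div_le_iff₀ hs] at h1
  rw [mem_closedBall_iff_norm]
  exact h1

/-- **All multiples of all torus fields are available.** -/
theorem dat_all (hν : 0 < ν) (R : E3 ≃ₗᵢ[ℝ] E3) (y : E3) (hs : 0 < s) (c : ℝ) :
    ∃ (φ : E3 → ℝ) (A B : Fin 3 → E3 → ℝ) (P : E3 → ℝ) (S K : Set E3),
      Dat ν φ A B (fun i x => c * rot R y s hh i x) P S K ∧ K ⊆ Metric.closedBall y (4 * s) := by
  obtain ⟨β, γ, hβ, hc⟩ : ∃ β γ : ℝ, β * β + γ * γ = 1 ∧ -(β / 4) * (|c| * 20 / 3) = c := by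
    rcases le_total 0 c with h | h
    · refine ⟨-3 / 5, 4 / 5, by norm_num, ?_⟩
      rw [abs_of_nonneg h]
      ring
    · refine ⟨3 / 5, 4 / 5, by norm_num, ?_⟩
      rw [abs_of_nonpos h]
      ring
  set μ : ℝ := Real.sqrt (|c| * 20 / 3 * (s * ν)) with hμ
  have hμ2 : μ ^ 2 = |c| * 20 / 3 * (s * ν) := Real.sq_sqrt (by positivity)
  have D := (dat0 hβ).transport R y hs hν μ
  have key : (fun (i : Fin 3) (x : E3) => μ ^ 2 * 1 / (s * ν)
      * rot R y s (fun i x => -(β / 4) * hh i x) i x) = fun i x => c * rot R y s hh i x := by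
    funext i x
    rw [hμ2]
    unfold rot
    have e : |c| * 20 / 3 * (s * ν) * 1 / (s * ν) = |c| * 20 / 3 := by field_simp
    rw [e]
    simp only [Fin.sum_univ_three]
    linear_combination (ent R 0 i * hh 0 (TT R y s x) + ent R 1 i * hh 1 (TT R y s x)
      + ent R 2 i * hh 2 (TT R y s x)) * hc
  rw [key] at D
  exact ⟨_, _, _, _, _, _, D, pre_K0 R y hs⟩

end Pool.Agent.J4H18.DN
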