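import Mathlib

/-!
Riesz representation in a closed subspace of a product and the resulting density statement.
-/

set_option autoImplicit false
set_option linter.unusedSectionVars false

open Set Filter Topology
open scoped InnerProductSpace ENNReal NNReal

namespace Pool.Agent.J4H18.DN

variable {H K : Type*} [NormedAddCommGroup H] [InnerProductSpace ℝ H] [CompleteSpace H]
  [NormedAddCommGroup K] [InnerProductSpace ℝ K] [CompleteSpace K]
  {W : Submodule ℝ (H × K)} {C : ℝ}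

/-- the second projection -/
noncomputable def sndW (W : Submodule ℝ (H × K)) : W →L[ℝ] K :=
  (ContinuousLinearMap.snd ℝ H K).comp W.subtypeL

theorem sndW_apply (p : W) : sndW W p = (p : H × K).2 := rfl

theorem sndW_anti (hC : ∀ p ∈ W, ‖p.1‖ ≤ C * ‖p.2‖) :
    AntilipschitzWith (max C 1).toNNReal (sndW W) := by
  refine ContinuousLinearMap.antilipschitz_of_bound _ fun p => ?_
  have h1 := hC _ p.2
  have h2 : ‖p‖ = ‖(p : H × K)‖ := rfl
  rw [h2, Prod.norm_def, sndW_apply, Real.coe_toNNReal _ (le_trans zero_le_one (le_max_right _ _))]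
  refine max_le (h1.trans ?_) ?_
  · exact mul_le_mul_of_nonneg_right (le_max_left _ _) (norm_nonneg _)
  · have h3 := norm_nonneg (p : H × K).2
    nlinarith [le_max_right C 1]

theorem range_closed (hW : IsClosed (W : Set (H × K))) (hC : ∀ p ∈ W, ‖p.1‖ ≤ C * ‖p.2‖) :
    IsClosed (Set.range (sndW W)) := by
  have : CompleteSpace W := hW.completeSpace_coe
  exact (sndW_anti hC).isClosed_range (sndW W).uniformContinuous

/-- Riesz representation -/
theorem rieszW (hW : IsClosed (W : Set (H × K))) (hC : ∀ p ∈ W, ‖p.1‖ ≤ C * ‖p.2‖) (f : H) :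
    ∃ p ∈ W, ∀ q ∈ W, ⟪p.2, q.2⟫_ℝ = ⟪f, q.1⟫_ℝ := by
  have hinj : Function.Injective (sndW W) := (sndW_anti hC).injective
  set e : W ≃ₗ[ℝ] LinearMap.range (sndW W : W →ₗ[ℝ] K) :=
    LinearEquiv.ofInjective (sndW W : W →ₗ[ℝ] K) hinj with he
  have hR : IsClosed ((LinearMap.range (sndW W : W →ₗ[ℝ] K) : Submodule ℝ K) : Set K) := by
    have := range_closed hW hC
    rwa [LinearMap.coe_range]
  have : CompleteSpace (LinearMap.range (sndW W : W →ₗ[ℝ] K)) := hR.completeSpace_coe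
  have he2 : ∀ r, ((e.symm r : W) : H × K).2 = (r : K) := by
    intro r
    have h1 := e.apply_symm_apply r
    have h2 : ((e (e.symm r)) : K) = ((e.symm r : W) : H × K).2 := rfl
    rw [← h2, h1]
  let ℓ : LinearMap.range (sndW W : W →ₗ[ℝ] K) →ₗ[ℝ] ℝ :=
    { toFun := fun r => ⟪f, ((e.symm r : W) : H × K).1⟫_ℝ
      map_add' := fun a b => by
        rw [map_add, Submodule.coe_add, Prod.fst_add, inner_add_right]
      map_smul' := fun c a => by
        rw [map_smul, Submodule.coe_smul, Prod.smul_fst, inner_smul_right]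
        rfl }
  have hℓ : ∀ r, ‖ℓ r‖ ≤ (‖f‖ * C) * ‖r‖ := by
    intro r
    have h1 := hC _ (e.symm r).2
    rw [he2] at h1
    calc ‖ℓ r‖ ≤ ‖f‖ * ‖((e.symm r : W) : H × K).1‖ := norm_inner_le_norm _ _
      _ ≤ ‖f‖ * (C * ‖(r : K)‖) := by gcongr
      _ = _ := by
        rw [Submodule.coe_norm]
        ring
  let L : StrongDual ℝ (LinearMap.range (sndW W : W →ₗ[ℝ] K)) := ℓ.mkContinuous _ hℓ
  let r := (InnerProductSpace.toDual ℝ _).symm L
  refine ⟨(e.symm r : W), (e.symm r).2, fun q hq => ?_⟩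
  have h1 : ⟪r, e ⟨q, hq⟩⟫_ℝ = L (e ⟨q, hq⟩) := InnerProductSpace.toDual_symm_apply
  have h2 : L (e ⟨q, hq⟩) = ⟪f, q.1⟫_ℝ := by
    show ⟪f, ((e.symm (e ⟨q, hq⟩) : W) : H × K).1⟫_ℝ = _
    rw [e.symm_apply_apply]
  have h3 : ((e ⟨q, hq⟩ : LinearMap.range (sndW W : W →ₗ[ℝ] K)) : K) = q.2 := rfl
  rw [he2, ← h2, ← h1, Submodule.coe_inner, h3]

/-- **Density.** -/
theorem approxW (hW : IsClosed (W : Set (H × K))) (hC : ∀ p ∈ W, ‖p.1‖ ≤ C * ‖p.2‖)
    {G : Set H} (hG : ∀ q ∈ W, (∀ g ∈ G, ⟪g, q.1⟫_ℝ = 0) → q.2 = 0) (f : H) {ε : ℝ} (hε : 0 < ε) :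
    ∃ g ∈ Submodule.span ℝ G, ∀ q ∈ W, |⟪f - g, q.1⟫_ℝ| ≤ ε * ‖q.2‖ := by
  let S : Submodule ℝ K :=
    { carrier := {r | ∃ g ∈ Submodule.span ℝ G, ∃ p ∈ W, p.2 = r ∧
        ∀ q ∈ W, ⟪p.2, q.2⟫_ℝ = ⟪g, q.1⟫_ℝ}
      add_mem' := by
        rintro a b ⟨g, hg, p, hp, rfl, h1⟩ ⟨g', hg', p', hp', rfl, h1'⟩
        refine ⟨g + g', Submodule.add_mem _ hg hg', p + p', W.add_mem hp hp', rfl, fun q hq => ?_⟩
        rw [Prod.snd_add, inner_add_left, inner_add_left, h1 q hq, h1' q hq]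
      zero_mem' := ⟨0, Submodule.zero_mem _, 0, W.zero_mem, rfl, fun q hq => by simp⟩
      smul_mem' := by
        rintro c a ⟨g, hg, p, hp, rfl, h1⟩
        refine ⟨c • g, Submodule.smul_mem _ _ hg, c • p, W.smul_mem _ hp, rfl, fun q hq => ?_⟩
        rw [Prod.smul_snd, real_inner_smul_left, real_inner_smul_left, h1 q hq] }
  obtain ⟨p, hp, hpf⟩ := rieszW hW hC f
  have hS : p.2 ∈ S.topologicalClosure := by
    have : CompleteSpace S.topologicalClosure :=
      S.isClosed_topologicalClosure.completeSpace_coe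
    set a : K := S.topologicalClosure.starProjection p.2 with ha
    have haS : a ∈ S.topologicalClosure := Submodule.starProjection_apply_mem _ _
    have hb : p.2 - a ∈ S.topologicalClosureᗮ := Submodule.sub_starProjection_mem_orthogonal _
    have hr : ∀ r ∈ S.topologicalClosure, r ∈ Set.range (sndW W) := by
      intro r hr
      have h1 : (S : Set K) ⊆ Set.range (sndW W) := by
        rintro r ⟨g, hg, p, hp, rfl, h1⟩
        exact ⟨⟨p, hp⟩, rfl⟩
      have h2 : r ∈ closure (S : Set K) := hr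
      exact closure_minimal h1 (range_closed hW hC) h2
    obtain ⟨p', hp'⟩ := hr a haS
    have hp'' : (p' : H × K).2 = a := hp'
    have hq : p - (p' : H × K) ∈ W := W.sub_mem hp p'.2
    have h0 : (p - (p' : H × K)).2 = 0 := by
      refine hG _ hq fun g hg => ?_
      obtain ⟨pg, hpg, h1⟩ := rieszW hW hC g
      rw [← h1 _ hq]
      have h2 : pg.2 ∈ S.topologicalClosure :=
        S.le_topologicalClosure ⟨g, Submodule.subset_span hg, pg, hpg, rfl, h1⟩
      have h3 : (p - (p' : H × K)).2 = p.2 - a := by rw [Prod.snd_sub, hp'']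
      rw [h3]
      exact (Submodule.mem_orthogonal _ _).1 hb _ h2
    rw [Prod.snd_sub, hp'', sub_eq_zero] at h0
    rw [h0]
    exact haS
  have h1 : p.2 ∈ closure (S : Set K) := hS
  obtain ⟨r, ⟨g, hg, p', hp', hr, h2⟩, h3⟩ := Metric.mem_closure_iff.1 h1 ε hε
  refine ⟨g, hg, fun q hq => ?_⟩
  rw [inner_sub_left, ← hpf q hq, ← h2 q hq, ← inner_sub_left, hr]
  refine (abs_real_inner_le_norm _ _).trans ?_
  rw [dist_eq_norm] at h3
  gcongr

end Pool.Agent.J4H18.DN
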