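import Pool.Agent.J4H18.DN.D6

/-!
Integrals depending on a parameter.
-/

set_option autoImplicit false
set_option linter.unusedSectionVars false

open MeasureTheory Set Filter Topology
open scoped InnerProductSpace ENNReal ContDiff NNReal

namespace Pool.Agent.J4H18.DN

open H772R2.NS


/-- the integral with a parameter -/
noncomputable def II (k : E3 × E3 → ℝ) (ρ : E3 → ℝ) (s : ℝ) : ℝ :=
  ∫ a : E3 × E3, k a * ρ (a.1 - s • a.2)

theorem decomp (w : E3) : w = ∑ j, w j • H772R2.NS.ev j := by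
  ext b
  have : (∑ a, w a • H772R2.NS.ev a : E3) b = ∑ a, w a * (H772R2.NS.ev a) b := by
    rw [WithLp.ofLp_sum, Finset.sum_apply]
    rfl
  rw [this]
  unfold H772R2.NS.ev
  simp

theorem der_line {ρ : E3 → ℝ} (hρ : ContDiff ℝ ∞ ρ) (x w : E3) (s : ℝ) :
    HasDerivAt (fun s : ℝ => ρ (x - s • w)) (-∑ j, w j * pd j ρ (x - s • w)) s := by
  have h1 : HasFDerivAt ρ (fderiv ℝ ρ (x - s • w)) (x - s • w) :=
    ((hρ.differentiable (by simp)) _).hasFDerivAt
  have h2 : HasDerivAt (fun s : ℝ => x - s • w) (-((1 : ℝ) • w)) s :=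
    ((hasDerivAt_id' s).smul_const w).const_sub x
  have h3 := h1.comp_hasDerivAt s h2
  refine h3.congr_deriv ?_
  have hL : ∀ L : E3 →L[ℝ] ℝ, L w = ∑ j, w j * L (H772R2.NS.ev j) := by
    intro L
    calc L w = L (∑ j, w j • H772R2.NS.ev j) := by rw [← decomp w]
      _ = _ := by
        rw [map_sum]
        simp only [map_smul, smul_eq_mul]
  rw [one_smul, map_neg, hL]
  rfl

theorem II_deriv {k : E3 × E3 → ℝ} {ρ : E3 → ℝ} (hk : Integrable k)
    (hkj : ∀ j : Fin 3, Integrable fun a : E3 × E3 => k a * a.2 j) (hρ : ContDiff ℝ ∞ ρ)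
    (hc : HasCompactSupport ρ) (s : ℝ) :
    HasDerivAt (II k ρ) (-∑ j, II (fun a => k a * a.2 j) (pd j ρ) s) s := by
  have hM0 := hρ.continuous.bounded_above_of_compact_support hc
  obtain ⟨M0, hM0⟩ := hM0
  have hMj : ∀ j : Fin 3, ∃ M : ℝ, ∀ x, ‖pd j ρ x‖ ≤ M := fun j =>
    (cd_pd hρ j).continuous.bounded_above_of_compact_support (hc.fderiv_apply ℝ _)
  choose M hM using hMj
  have hcont : ∀ {g : E3 → ℝ} (_ : Continuous g) (s : ℝ),
      Continuous fun a : E3 × E3 => g (a.1 - s • a.2) := by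
    intro g hg s
    fun_prop
  have hint : ∀ (s : ℝ) (j : Fin 3), Integrable fun a : E3 × E3 =>
      k a * a.2 j * pd j ρ (a.1 - s • a.2) := by
    intro s j
    refine (hkj j).mul_bdd (c := M j) (hcont (cd_pd hρ j).continuous s).aestronglyMeasurable ?_
    exact Eventually.of_forall fun a => hM j _
  have h := hasDerivAt_integral_of_dominated_loc_of_deriv_le (μ := (volume : Measure (E3 × E3)))
    (F := fun (s : ℝ) (a : E3 × E3) => k a * ρ (a.1 - s • a.2))
    (F' := fun (s : ℝ) (a : E3 × E3) => -∑ j, k a * a.2 j * pd j ρ (a.1 - s • a.2))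
    (x₀ := s) (s := univ) (bound := fun a : E3 × E3 => ∑ j, |k a * a.2 j| * M j)
    Filter.univ_mem ?_ ?_ ?_ ?_ ?_ ?_
  · have h2 := h.2
    unfold II
    refine h2.congr_deriv ?_
    rw [integral_neg, integral_finsetSum _ fun j _ => hint s j]
  · exact Eventually.of_forall fun s =>
      hk.aestronglyMeasurable.mul (hcont hρ.continuous s).aestronglyMeasurable
  · refine hk.mul_bdd (c := M0) (hcont hρ.continuous s).aestronglyMeasurable ?_
    exact Eventually.of_forall fun a => hM0 _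
  · exact (integrable_finsetSum _ fun j _ => hint s j).neg.aestronglyMeasurable
  · refine Eventually.of_forall fun a s _ => ?_
    rw [norm_neg]
    refine (norm_sum_le _ _).trans (Finset.sum_le_sum fun j _ => ?_)
    rw [norm_mul, Real.norm_eq_abs]
    gcongr
    exact hM j _
  · exact integrable_finsetSum _ fun j _ => ((hkj j).abs).mul_const _
  · refine Eventually.of_forall fun a s _ => ?_
    have h1 := (der_line hρ a.1 a.2 s).const_mul (k a)
    refine h1.congr_deriv ?_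
    rw [mul_neg, Finset.mul_sum]
    congr 1
    exact Finset.sum_congr rfl fun j _ => by ring

/-- the second derivative at zero vanishes if the function vanishes on the right of zero -/
theorem II_second {ι : Type} [Fintype ι] {k : ι → E3 × E3 → ℝ} {ρ : E3 → ℝ}
    (hk : ∀ i, Integrable (k i)) (hk1 : ∀ i (j : Fin 3), Integrable fun a : E3 × E3 => k i a * a.2 j)
    (hk2 : ∀ i (j l : Fin 3), Integrable fun a : E3 × E3 => k i a * a.2 j * a.2 l)
    (hk3 : ∀ i (j l m : Fin 3), Integrable fun a : E3 × E3 => k i a * a.2 j * a.2 l * a.2 m)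
    (hρ : ContDiff ℝ ∞ ρ) (hc : HasCompactSupport ρ) {s0 : ℝ} (hs0 : 0 < s0)
    (h0 : ∀ s ∈ Ioo 0 s0, ∑ i, II (k i) ρ s = 0) :
    ∑ i, ∑ j, ∑ l, II (fun a => k i a * a.2 j * a.2 l) (pd l (pd j ρ)) 0 = 0 := by
  have c1 : ∀ j, ContDiff ℝ ∞ (pd j ρ) := fun j => cd_pd hρ j
  have s1 : ∀ j, HasCompactSupport (pd j ρ) := fun j => hc.fderiv_apply ℝ _
  have c2 : ∀ j l, ContDiff ℝ ∞ (pd l (pd j ρ)) := fun j l => cd_pd (c1 j) l
  have s2 : ∀ j l, HasCompactSupport (pd l (pd j ρ)) := fun j l => (s1 j).fderiv_apply ℝ _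
  -- first derivative
  have d1 : ∀ s, HasDerivAt (fun s => ∑ i, II (k i) ρ s)
      (∑ i, -∑ j, II (fun a => k i a * a.2 j) (pd j ρ) s) s := fun s =>
    HasDerivAt.fun_sum fun i _ => II_deriv (hk i) (hk1 i) hρ hc s
  have e1 : ∀ s ∈ Ioo 0 s0, ∑ i, -∑ j, II (fun a => k i a * a.2 j) (pd j ρ) s = 0 := by
    intro s hs
    have h1 : HasDerivAt (fun s => ∑ i, II (k i) ρ s) 0 s := by
      refine (hasDerivAt_const s (0 : ℝ)).congr_of_eventuallyEq ?_
      filter_upwards [Ioo_mem_nhds hs.1 hs.2] with t ht using h0 t ht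
    exact (d1 s).unique h1
  have d2 : ∀ s, HasDerivAt (fun s => ∑ i, -∑ j, II (fun a => k i a * a.2 j) (pd j ρ) s)
      (∑ i, -∑ j, -∑ l, II (fun a => k i a * a.2 j * a.2 l) (pd l (pd j ρ)) s) s := fun s =>
    HasDerivAt.fun_sum fun i _ => (HasDerivAt.fun_sum fun j _ =>
      II_deriv (hk1 i j) (hk2 i j) (c1 j) (s1 j) s).neg
  have e2 : ∀ s ∈ Ioo 0 s0,
      ∑ i, -∑ j, -∑ l, II (fun a => k i a * a.2 j * a.2 l) (pd l (pd j ρ)) s = 0 := by
    intro s hs
    have h1 : HasDerivAt (fun s => ∑ i, -∑ j, II (fun a => k i a * a.2 j) (pd j ρ) s) 0 s := by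
      refine (hasDerivAt_const s (0 : ℝ)).congr_of_eventuallyEq ?_
      filter_upwards [Ioo_mem_nhds hs.1 hs.2] with t ht using e1 t ht
    exact (d2 s).unique h1
  have d3 : ContinuousAt
      (fun s => ∑ i, -∑ j, -∑ l, II (fun a => k i a * a.2 j * a.2 l) (pd l (pd j ρ)) s) 0 :=
    (HasDerivAt.fun_sum fun i _ => (HasDerivAt.fun_sum fun j _ => (HasDerivAt.fun_sum fun l _ =>
      II_deriv (hk2 i j l) (hk3 i j l) (c2 j l) (s2 j l) 0).neg).neg).continuousAt
  have h3 : Tendsto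
      (fun s => ∑ i, -∑ j, -∑ l, II (fun a => k i a * a.2 j * a.2 l) (pd l (pd j ρ)) s)
      (𝓝[>] 0) (𝓝 0) := by
    refine (tendsto_const_nhds (x := (0 : ℝ))).congr' ?_
    filter_upwards [Ioo_mem_nhdsGT hs0] with s hs
    exact (e2 s hs).symm
  have h4 := tendsto_nhds_unique (d3.tendsto.mono_left nhdsWithin_le_nhds) h3
  simpa using h4

end Pool.Agent.J4H18.DN
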