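import Pool.Agent.J4H18.DN.E2

/-!
Rotations with given rows; the second moments of the force of the standard torus.
-/

set_option autoImplicit false
set_option linter.unusedSectionVars false

open MeasureTheory Set Filter Topology
open scoped InnerProductSpace ENNReal ContDiff NNReal

namespace Pool.Agent.J4H18.DN

open H772R2.NS


/-- rotations with given rows -/
theorem exists_rot (M : Fin 3 → Fin 3 → ℝ)
    (hM : ∀ a b, ∑ j, M a j * M b j = if a = b then 1 else 0) :
    ∃ R : E3 ≃ₗᵢ[ℝ] E3, ∀ a j, ent R a j = M a j := by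
  let l : Fin 3 → E3 := fun a => WithLp.toLp 2 (M a)
  have hl : Orthonormal ℝ l := by
    rw [orthonormal_iff_ite]
    intro a b
    rw [inner_sum]
    exact hM a b
  have hspan : ⊤ ≤ Submodule.span ℝ (Set.range l) := by
    have := hl.linearIndependent.span_eq_top_of_card_eq_finrank (by simp)
    rw [this]
  let b : OrthonormalBasis (Fin 3) ℝ E3 := OrthonormalBasis.mk hl hspan
  refine ⟨b.repr, fun a j => ?_⟩
  unfold ent
  have h1 : (b.repr (H772R2.NS.ev j)) a = ⟪b a, H772R2.NS.ev j⟫_ℝ := b.repr_apply_apply _ _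
  have h2 : b a = l a := by
    simp [b]
  rw [h1, h2, real_inner_comm, ← coord_inner]

theorem R_coord (R : E3 ≃ₗᵢ[ℝ] E3) (w : E3) (j : Fin 3) : w j = ∑ b, ent R b j * (R w) b := by
  have h1 : ∀ b, ent R b j = (R (H772R2.NS.ev j)) b := fun b => rfl
  simp only [h1]
  rw [← inner_sum, R.inner_map_map, ← coord_inner]

theorem TT_one (R : E3 ≃ₗᵢ[ℝ] E3) (w : E3) : TT R 0 1 w = R w := by
  unfold TT
  simp

theorem integral_rot (R : E3 ≃ₗᵢ[ℝ] E3) (F : E3 → ℝ) : ∫ w, F (R w) = ∫ w, F w :=
  R.measurePreserving.integral_comp R.toHomeomorph.measurableEmbedding F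

/-- second moments -/
noncomputable def mom (a b c : Fin 3) : ℝ := ∫ w : E3, hh a w * w b * w c

theorem hh_cs (a : Fin 3) : HasCompactSupport (hh a) := by
  refine HasCompactSupport.intro K0_compact fun x hx => (hh_amp a).off x fun h => hx h.2

theorem ff_cs : HasCompactSupport ff := by
  refine HasCompactSupport.intro K0_compact fun x hx => ?_
  have : x ∉ S0 := fun h => hx h.2
  unfold ff
  rw [gg_off this]
  ring

theorem mom_int (a b c : Fin 3) : Integrable fun w : E3 => hh a w * w b * w c := by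
  refine (Continuous.integrable_of_hasCompactSupport ?_ ?_)
  · exact ((hh_amp a).smooth.continuous.mul (cdx b).continuous).mul (cdx c).continuous
  · exact ((hh_cs a).mul_right).mul_right

theorem mom_rot (R : E3 ≃ₗᵢ[ℝ] E3) (i j l : Fin 3) :
    ∫ w : E3, rot R 0 1 hh i w * w j * w l
      = ∑ a, ∑ b, ∑ c, ent R a i * ent R b j * ent R c l * mom a b c := by
  have h1 : ∀ w : E3, rot R 0 1 hh i w * w j * w l
      = (fun w' : E3 => ∑ a, ∑ b, ∑ c, ent R a i * ent R b j * ent R c l
        * (hh a w' * w' b * w' c)) (R w) := by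
    intro w
    simp only
    conv_lhs => rw [R_coord R w j, R_coord R w l]
    unfold rot
    rw [TT_one]
    simp only [Fin.sum_univ_three]
    ring
  simp only [h1]
  rw [integral_rot R (fun w' : E3 => ∑ a, ∑ b, ∑ c, ent R a i * ent R b j * ent R c l
        * (hh a w' * w' b * w' c))]
  unfold mom
  rw [integral_finsetSum _ fun a _ => integrable_finsetSum _ fun b _ => integrable_finsetSum _
    fun c _ => (mom_int a b c).const_mul _]
  refine Finset.sum_congr rfl fun a _ => ?_
  rw [integral_finsetSum _ fun b _ => integrable_finsetSum _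
    fun c _ => (mom_int a b c).const_mul _]
  refine Finset.sum_congr rfl fun b _ => ?_
  rw [integral_finsetSum _ fun c _ => (mom_int a b c).const_mul _]
  refine Finset.sum_congr rfl fun c _ => ?_
  rw [integral_const_mul]

/-- the even part of the scalar factor -/
noncomputable def gf (x : E3) : ℝ :=
  gg x * gg x * ph x * (2 * rr x + 3) * (ii x * ii x * ii x) * bi x

theorem gf_inv {x x' : E3} (h1 : ro x' = ro x) (h2 : x' 2 * x' 2 = x 2 * x 2) : gf x' = gf x := by
  have a1 : rr x' = rr x := by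
    unfold rr
    rw [h1]
  have a2 : ii x' = ii x := by
    unfold ii
    rw [h1]
  have a3 : bi x' = bi x := by
    unfold bi
    rw [h1]
  have a4 : qq x' = qq x := by
    unfold qq
    rw [a1, h2]
  have a5 : ph x' = ph x := by
    unfold ph
    rw [a4]
  have a6 : gg x' = gg x := by
    unfold gg
    rw [a4]
  unfold gf
  rw [a1, a2, a3, a5, a6]

/-- the reflection of a coordinate -/
noncomputable def sg (a : Fin 3) : E3 ≃ₗᵢ[ℝ] E3 :=
  LinearIsometryEquiv.piLpCongrRight 2 fun i =>
    if i = a then LinearIsometryEquiv.neg ℝ else LinearIsometryEquiv.refl ℝ ℝ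

theorem sg_apply (a : Fin 3) (x : E3) (i : Fin 3) : (sg a x) i = if i = a then -x i else x i := by
  unfold sg
  by_cases h : i = a
  · simp [h, LinearIsometryEquiv.piLpCongrRight_apply]
  · simp [h, LinearIsometryEquiv.piLpCongrRight_apply]

/-- the exchange of the first two coordinates -/
noncomputable def sw : E3 ≃ₗᵢ[ℝ] E3 := LinearIsometryEquiv.piLpCongrLeft 2 ℝ ℝ (Equiv.swap 0 1)

theorem sw_apply (x : E3) : (sw x) 0 = x 1 ∧ (sw x) 1 = x 0 ∧ (sw x) 2 = x 2 := by
  unfold sw
  refine ⟨?_, ?_, ?_⟩ <;>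
    simp [LinearIsometryEquiv.piLpCongrLeft_apply, Equiv.piCongrLeft'_apply, Equiv.swap_apply_def]

/-- third moments of the scalar factor -/
noncomputable def MM (a b c : Fin 3) : ℝ := ∫ w : E3, w a * w b * w c * ff w

theorem ff_eq (x : E3) : ff x = x 2 * gf x := rfl

theorem MM_odd0 {a b c : Fin 3} (h : ∀ w : E3, (sg 0 w) a * (sg 0 w) b * (sg 0 w) c
    = -(w a * w b * w c)) : MM a b c = 0 := by
  have h1 : MM a b c = ∫ w : E3, (fun w : E3 => w a * w b * w c * ff w) (sg 0 w) :=
    (integral_rot (sg 0) _).symm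
  have h2 : ∀ w : E3, (fun w : E3 => w a * w b * w c * ff w) (sg 0 w)
      = -(w a * w b * w c * ff w) := by
    intro w
    simp only
    rw [h w, ff_eq, ff_eq, gf_inv (x := w) (x' := sg 0 w) (by simp [ro, sg_apply])
      (by simp [sg_apply])]
    simp only [sg_apply]
    simp
  simp only [h2] at h1
  rw [integral_neg] at h1
  have h3 : MM a b c = -MM a b c := h1
  linarith

theorem MM_odd1 {a b c : Fin 3} (h : ∀ w : E3, (sg 1 w) a * (sg 1 w) b * (sg 1 w) c
    = -(w a * w b * w c)) : MM a b c = 0 := by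
  have h1 : MM a b c = ∫ w : E3, (fun w : E3 => w a * w b * w c * ff w) (sg 1 w) :=
    (integral_rot (sg 1) _).symm
  have h2 : ∀ w : E3, (fun w : E3 => w a * w b * w c * ff w) (sg 1 w)
      = -(w a * w b * w c * ff w) := by
    intro w
    simp only
    rw [h w, ff_eq, ff_eq, gf_inv (x := w) (x' := sg 1 w) (by simp [ro, sg_apply])
      (by simp [sg_apply])]
    simp only [sg_apply]
    simp
  simp only [h2] at h1
  rw [integral_neg] at h1
  have h3 : MM a b c = -MM a b c := h1
  linarith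

theorem MM_swap : MM 1 1 2 = MM 0 0 2 := by
  have h1 : MM 1 1 2 = ∫ w : E3, (fun w : E3 => w 1 * w 1 * w 2 * ff w) (sw w) :=
    (integral_rot sw _).symm
  rw [h1]
  unfold MM
  congr 1
  funext w
  obtain ⟨a0, a1, a2⟩ := sw_apply w
  simp only
  rw [ff_eq, ff_eq, gf_inv (x := w) (x' := sw w) (by unfold ro; rw [a0, a1]; ring) (by rw [a2]),
    a1, a2]

theorem mom_eq (b c : Fin 3) : mom 0 b c = -MM 1 b c ∧ mom 1 b c = MM 0 b c ∧ mom 2 b c = 0 := by
  unfold mom MM
  refine ⟨?_, ?_, ?_⟩
  · rw [← integral_neg]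
    congr 1
    funext w
    simp only [hh, YY]
    simp
    ring
  · congr 1
    funext w
    simp only [hh, YY]
    simp
    ring
  · simp [hh, YY]

theorem MM_perm1 (a b c : Fin 3) : MM a b c = MM a c b := by
  unfold MM
  congr 1
  funext w
  ring

theorem mom_contract (τ : Fin 3 → Fin 3 → Fin 3 → ℝ) :
    ∑ a, ∑ b, ∑ c, mom a b c * τ a b c
      = MM 0 0 2 * (τ 1 0 2 + τ 1 2 0 - τ 0 1 2 - τ 0 2 1) := by
  have z0 : ∀ b c, mom 0 b c = -MM 1 b c := fun b c => (mom_eq b c).1
  have z1 : ∀ b c, mom 1 b c = MM 0 b c := fun b c => (mom_eq b c).2.1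
  have z2 : ∀ b c, mom 2 b c = 0 := fun b c => (mom_eq b c).2.2
  have a00 : MM 1 0 0 = 0 := MM_odd1 fun w => by simp [sg_apply]
  have a01 : MM 1 0 1 = 0 := MM_odd0 fun w => by simp [sg_apply]
  have a02 : MM 1 0 2 = 0 := MM_odd1 fun w => by simp [sg_apply]
  have a10 : MM 1 1 0 = 0 := MM_odd0 fun w => by simp [sg_apply]
  have a11 : MM 1 1 1 = 0 := MM_odd1 fun w => by simp [sg_apply]
  have a20 : MM 1 2 0 = 0 := MM_odd1 fun w => by simp [sg_apply]
  have a22 : MM 1 2 2 = 0 := MM_odd1 fun w => by simp [sg_apply]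
  have b00 : MM 0 0 0 = 0 := MM_odd0 fun w => by simp [sg_apply]
  have b01 : MM 0 0 1 = 0 := MM_odd1 fun w => by simp [sg_apply]
  have b10 : MM 0 1 0 = 0 := MM_odd1 fun w => by simp [sg_apply]
  have b11 : MM 0 1 1 = 0 := MM_odd0 fun w => by simp [sg_apply]
  have b12 : MM 0 1 2 = 0 := MM_odd0 fun w => by simp [sg_apply]
  have b21 : MM 0 2 1 = 0 := MM_odd0 fun w => by simp [sg_apply]
  have b22 : MM 0 2 2 = 0 := MM_odd0 fun w => by simp [sg_apply]
  have c1 : MM 1 2 1 = MM 0 0 2 := by rw [MM_perm1, MM_swap]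
  have c2 : MM 0 2 0 = MM 0 0 2 := MM_perm1 0 2 0
  simp only [Fin.sum_univ_three, z0, z1, z2, a00, a01, a02, a10, a11, a20, a22, b00, b01, b10, b11,
    b12, b21, b22, c1, c2, MM_swap]
  ring

theorem MM_pos : 0 < MM 0 0 2 := by
  unfold MM
  have hc : Continuous fun w : E3 => w 0 * w 0 * w 2 * ff w :=
    (((cdx 0).continuous.mul (cdx 0).continuous).mul (cdx 2).continuous).mul ff_cd.continuous
  have gf0 : ∀ w, 0 ≤ gf w := by
    intro w
    unfold gf
    have h1 : 0 ≤ gg w := gb_nonneg _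
    have h2 : 0 ≤ ph w := ct_nonneg (Real.sqrt_nonneg _)
    have h3 : 0 ≤ rr w := ct_nonneg (Real.sqrt_nonneg _)
    have h4 : 0 ≤ ii w := ct_nonneg (F := fun t => 1 / Real.sqrt t) (by positivity)
    have h5 : 0 ≤ bi w := ct_nonneg (F := fun t => 1 / Real.sqrt (1 + 2 / Real.sqrt t))
      (by positivity)
    positivity
  refine hc.integral_pos_of_hasCompactSupport_nonneg_nonzero (ff_cs.mul_left) ?_ ?_ (x := ?_)
  · exact (WithLp.toLp 2 ![2, 0, 3 / 4] : E3)
  · intro w
    show (0 : ℝ) ≤ w 0 * w 0 * w 2 * ff w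
    rw [ff_eq]
    have e : w 0 * w 0 * w 2 * (w 2 * gf w) = (w 0 * w 0) * (w 2 * w 2) * gf w := by ring
    rw [e]
    exact mul_nonneg (mul_nonneg (mul_self_nonneg _) (mul_self_nonneg _)) (gf0 w)
  · set w : E3 := WithLp.toLp 2 ![2, 0, 3 / 4] with hw
    have w0 : w 0 = 2 := rfl
    have w1 : w 1 = 0 := rfl
    have w2 : w 2 = 3 / 4 := rfl
    have r0 : ro w = 4 := by
      unfold ro
      rw [w0, w1]
      norm_num
    have hr : 1 / 2 < ro w := by
      rw [r0]
      norm_num
    have r1 : rr w = 2 := by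
      have h1 := rr_sq hr
      have h2 := rr_pos hr
      rw [r0] at h1
      nlinarith
    have q0 : qq w = 9 / 16 := by
      unfold qq
      rw [r1, w2]
      norm_num
    have hq : 1 / 8 < qq w := by
      rw [q0]
      norm_num
    have g1 : 0 < gg w := by
      unfold gg
      rw [q0]
      exact gb_pos (by norm_num) (by norm_num)
    have g2 : 0 < ph w := ph_pos hq
    have g3 : 0 < ii w := by
      have h1 := rr_ii hr
      rw [r1] at h1
      linarith
    have g4 : 0 < bi w := by
      have h1 := bb_bi hr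
      have h2 : 0 ≤ bb w := ct_nonneg (Real.sqrt_nonneg _)
      by_contra h3
      push Not at h3
      nlinarith
    have : 0 < w 0 * w 0 * w 2 * ff w := by
      unfold ff
      rw [w0, w2, r1]
      positivity
    exact this.ne'

end Pool.Agent.J4H18.DN
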