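import Pool.Agent.J4H18.DN.E3

/-!
The annihilator of the torus fields: the second derivative at scale zero.
-/

set_option autoImplicit false
set_option linter.unusedSectionVars false

open MeasureTheory Set Filter Topology
open scoped InnerProductSpace ENNReal ContDiff NNReal

namespace Pool.Agent.J4H18.DN

open H772R2.NS


variable {R : E3 ≃ₗᵢ[ℝ] E3} {Ω : Set E3} {v : Fin 3 → E3 → ℝ}

theorem rot_scale (R : E3 ≃ₗᵢ[ℝ] E3) (s : ℝ) (i : Fin 3) (x y : E3) :
    rot R 0 1 hh i (s⁻¹ • (x - y)) = rot R y s hh i x := by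
  unfold rot
  have h : TT R 0 1 (s⁻¹ • (x - y)) = TT R y s x := by
    rw [TT_one]
    unfold TT
    rw [map_smul]
  rw [h]

theorem rot1_cont (R : E3 ≃ₗᵢ[ℝ] E3) (i : Fin 3) : Continuous (rot R 0 1 hh i) :=
  (Amp.rot hh_amp i).smooth.continuous

theorem rot1_cs (R : E3 ≃ₗᵢ[ℝ] E3) (i : Fin 3) : HasCompactSupport (rot R 0 1 hh i) := by
  refine HasCompactSupport.intro (pre_compact (R := R) (y := 0) one_pos K0_compact) fun x hx => ?_
  exact (Amp.rot hh_amp i).off x fun h => hx (by exact (show S0 ⊆ K0 from fun x hx => hx.2) h)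

/-- the inner change of variables -/
theorem inner_cv (R : E3 ≃ₗᵢ[ℝ] E3) {ρ : E3 → ℝ} {s : ℝ} (hs : 0 < s) (i : Fin 3) (x : E3) :
    ∫ w : E3, rot R 0 1 hh i w * ρ (x - s • w)
      = (s ^ 3)⁻¹ * ∫ y : E3, rot R y s hh i x * ρ y := by
  have h1 := Measure.integral_comp_smul (μ := (volume : Measure E3))
    (fun u : E3 => rot R 0 1 hh i (s⁻¹ • u) * ρ (x - u)) s
  have h2 : ∀ w : E3, rot R 0 1 hh i (s⁻¹ • (s • w)) * ρ (x - s • w)
      = rot R 0 1 hh i w * ρ (x - s • w) := by
    intro w
    rw [smul_smul, inv_mul_cancel₀ hs.ne', one_smul]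
  simp only [h2] at h1
  have h3 : ∫ u : E3, rot R 0 1 hh i (s⁻¹ • u) * ρ (x - u)
      = ∫ y : E3, rot R 0 1 hh i (s⁻¹ • (x - y)) * ρ (x - (x - y)) :=
    (integral_sub_left_eq_self (fun u : E3 => rot R 0 1 hh i (s⁻¹ • u) * ρ (x - u)) volume x).symm
  rw [h1, h3, finrank_euclideanSpace, Fintype.card_fin, abs_of_pos (by positivity), smul_eq_mul]
  congr 1
  refine integral_congr_ae (Eventually.of_forall fun y => ?_)
  simp only
  rw [rot_scale, sub_sub_cancel]

theorem II_zero (hΩ : IsOpen Ω) (hv : ∀ i, Integrable (v i))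
    (hJ : ∀ (R : E3 ≃ₗᵢ[ℝ] E3) (y : E3) (s : ℝ), 0 < s → Metric.closedBall y (4 * s) ⊆ Ω →
      ∫ x, ∑ i, v i x * rot R y s hh i x = 0)
    (R : E3 ≃ₗᵢ[ℝ] E3) {ρ : E3 → ℝ} (hρ : Continuous ρ) (hc : HasCompactSupport ρ)
    (hs : tsupport ρ ⊆ Ω) :
    ∃ s0 : ℝ, 0 < s0 ∧ ∀ s ∈ Ioo 0 s0,
      ∑ i, II (fun a => v i a.1 * rot R 0 1 hh i a.2) ρ s = 0 := by
  obtain ⟨δ, hδ, hδs⟩ := hc.isCompact.exists_cthickening_subset_open hΩ hs
  refine ⟨δ / 4, by positivity, fun s hs' => ?_⟩
  have hsp : 0 < s := hs'.1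
  have hs4 : 4 * s ≤ δ := by linarith [hs'.2]
  have hball : ∀ y, ρ y ≠ 0 → Metric.closedBall y (4 * s) ⊆ Ω := by
    intro y hy
    refine Subset.trans ?_ hδs
    refine (Metric.closedBall_subset_closedBall hs4).trans ?_
    exact Metric.closedBall_subset_cthickening (subset_tsupport _ hy) _
  obtain ⟨Mρ, hMρ⟩ := hρ.bounded_above_of_compact_support hc
  have hρi : Integrable ρ := hρ.integrable_of_hasCompactSupport hc
  have hrc : ∀ i, ∃ M : ℝ, ∀ w, ‖rot R 0 1 hh i w‖ ≤ M := fun i =>
    (rot1_cont R i).bounded_above_of_compact_support (rot1_cs R i)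
  choose M hM using hrc
  have key : ∀ i, II (fun a => v i a.1 * rot R 0 1 hh i a.2) ρ s
      = (s ^ 3)⁻¹ * ∫ y : E3, ρ y * ∫ x : E3, v i x * rot R y s hh i x := by
    intro i
    have hk : Integrable (fun a : E3 × E3 => v i a.1 * rot R 0 1 hh i a.2) :=
      (hv i).mul_prod ((rot1_cont R i).integrable_of_hasCompactSupport (rot1_cs R i))
    have hF : Integrable (fun a : E3 × E3 => v i a.1 * rot R 0 1 hh i a.2
        * ρ (a.1 - s • a.2)) (volume.prod volume) := by
      refine hk.mul_bdd (c := Mρ) ?_ (Eventually.of_forall fun a => hMρ _)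
      have : Continuous fun a : E3 × E3 => ρ (a.1 - s • a.2) := by fun_prop
      exact this.aestronglyMeasurable
    have e1 : II (fun a => v i a.1 * rot R 0 1 hh i a.2) ρ s
        = ∫ x : E3, ∫ w : E3, v i x * rot R 0 1 hh i w * ρ (x - s • w) := by
      unfold II
      exact integral_prod _ hF
    have e2 : ∀ x : E3, ∫ w : E3, v i x * rot R 0 1 hh i w * ρ (x - s • w)
        = (s ^ 3)⁻¹ * ∫ y : E3, v i x * (rot R y s hh i x * ρ y) := by
      intro x
      have : ∀ w : E3, v i x * rot R 0 1 hh i w * ρ (x - s • w)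
          = v i x * (rot R 0 1 hh i w * ρ (x - s • w)) := fun w => by ring
      simp only [this]
      rw [integral_const_mul, inner_cv R hsp, integral_const_mul]
      ring
    rw [e1]
    simp only [e2]
    rw [integral_const_mul]
    congr 1
    have hG : Integrable (Function.uncurry fun (x y : E3) => v i x * (rot R y s hh i x * ρ y))
        (volume.prod volume) := by
      have h1 : Integrable (fun a : E3 × E3 => v i a.1 * ρ a.2) (volume.prod volume) :=
        (hv i).mul_prod hρi
      have h2 := h1.mul_bdd (c := M i) (g := fun a : E3 × E3 => rot R 0 1 hh i (s⁻¹ • (a.1 - a.2)))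
        (by
          have := rot1_cont R i
          have h3 : Continuous fun a : E3 × E3 => rot R 0 1 hh i (s⁻¹ • (a.1 - a.2)) := by
            fun_prop
          exact h3.aestronglyMeasurable) (Eventually.of_forall fun a => hM i _)
      refine h2.congr (Eventually.of_forall fun a => ?_)
      simp only [Function.uncurry]
      rw [rot_scale]
      ring
    rw [integral_integral_swap hG]
    refine integral_congr_ae (Eventually.of_forall fun y => ?_)
    simp only
    rw [← integral_const_mul]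
    refine integral_congr_ae (Eventually.of_forall fun x => ?_)
    simp only
    ring
  rw [Finset.sum_congr rfl fun i _ => key i, ← Finset.mul_sum]
  have hiv : ∀ (y : E3) i, Integrable fun x => v i x * rot R y s hh i x := by
    intro y i
    refine (hv i).mul_bdd (c := M i) (Amp.rot hh_amp i).smooth.continuous.aestronglyMeasurable ?_
    refine Eventually.of_forall fun x => ?_
    rw [← rot_scale]
    exact hM i _
  have hzero : ∀ y : E3, ∑ i, ρ y * ∫ x : E3, v i x * rot R y s hh i x = 0 := by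
    intro y
    by_cases hy : ρ y = 0
    · simp [hy]
    · rw [← Finset.mul_sum, ← integral_finsetSum _ fun i _ => hiv y i, hJ R y s hsp (hball y hy),
        mul_zero]
  have hint : ∀ i, Integrable fun y : E3 => ρ y * ∫ x : E3, v i x * rot R y s hh i x := by
    intro i
    have h1 : Integrable (fun a : E3 × E3 => v i a.1 * ρ a.2) (volume.prod volume) :=
      (hv i).mul_prod hρi
    have h2 := h1.mul_bdd (c := M i) (g := fun a : E3 × E3 => rot R 0 1 hh i (s⁻¹ • (a.1 - a.2)))
      (by
        have := rot1_cont R i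
        have h3 : Continuous fun a : E3 × E3 => rot R 0 1 hh i (s⁻¹ • (a.1 - a.2)) := by
          fun_prop
        exact h3.aestronglyMeasurable) (Eventually.of_forall fun a => hM i _)
    have h3 := h2.integral_prod_right
    refine h3.congr (Eventually.of_forall fun y => ?_)
    simp only
    rw [← integral_const_mul]
    refine integral_congr_ae (Eventually.of_forall fun x => ?_)
    simp only
    rw [rot_scale]
    ring
  rw [← integral_finsetSum _ fun i _ => hint i]
  simp only [hzero]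
  simp

/-- the second derivative identity in the frame of a rotation -/
theorem second_id (hΩ : IsOpen Ω) (hv : ∀ i, Integrable (v i))
    (hJ : ∀ (R : E3 ≃ₗᵢ[ℝ] E3) (y : E3) (s : ℝ), 0 < s → Metric.closedBall y (4 * s) ⊆ Ω →
      ∫ x, ∑ i, v i x * rot R y s hh i x = 0)
    (R : E3 ≃ₗᵢ[ℝ] E3) {ρ : E3 → ℝ} (hρ : ContDiff ℝ ∞ ρ) (hc : HasCompactSupport ρ)
    (hs : tsupport ρ ⊆ Ω) :
    (∑ i, ∑ j, ∑ l, ent R 1 i * ent R 0 j * ent R 2 l * ∫ x, v i x * pd l (pd j ρ) x)
      = ∑ i, ∑ j, ∑ l, ent R 0 i * ent R 1 j * ent R 2 l * ∫ x, v i x * pd l (pd j ρ) x := by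
  obtain ⟨s0, hs0, hz⟩ := II_zero hΩ hv hJ R hρ.continuous hc hs
  have hri : ∀ i, Integrable (rot R 0 1 hh i) := fun i =>
    (rot1_cont R i).integrable_of_hasCompactSupport (rot1_cs R i)
  have hr1 : ∀ i (j : Fin 3), Integrable fun w : E3 => rot R 0 1 hh i w * w j := fun i j =>
    ((rot1_cont R i).mul (cdx j).continuous).integrable_of_hasCompactSupport
      (rot1_cs R i).mul_right
  have hr2 : ∀ i (j l : Fin 3), Integrable fun w : E3 => rot R 0 1 hh i w * w j * w l :=
    fun i j l => (((rot1_cont R i).mul (cdx j).continuous).mul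
      (cdx l).continuous).integrable_of_hasCompactSupport (rot1_cs R i).mul_right.mul_right
  have hr3 : ∀ i (j l m : Fin 3), Integrable fun w : E3 => rot R 0 1 hh i w * w j * w l * w m :=
    fun i j l m => ((((rot1_cont R i).mul (cdx j).continuous).mul
      (cdx l).continuous).mul (cdx m).continuous).integrable_of_hasCompactSupport
        (rot1_cs R i).mul_right.mul_right.mul_right
  have h := II_second (k := fun i (a : E3 × E3) => v i a.1 * rot R 0 1 hh i a.2) (ρ := ρ)
    (fun i => (hv i).mul_prod (hri i))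
    (fun i j => ((hv i).mul_prod (hr1 i j)).congr (Eventually.of_forall fun a => by
      simp only; ring))
    (fun i j l => ((hv i).mul_prod (hr2 i j l)).congr (Eventually.of_forall fun a => by
      simp only; ring))
    (fun i j l m => ((hv i).mul_prod (hr3 i j l m)).congr (Eventually.of_forall fun a => by
      simp only; ring)) hρ hc hs0 hz
  set T : Fin 3 → Fin 3 → Fin 3 → ℝ := fun i j l => ∫ x, v i x * pd l (pd j ρ) x with hT
  have e : ∀ i j l, II (fun a => v i a.1 * rot R 0 1 hh i a.2 * a.2 j * a.2 l) (pd l (pd j ρ)) 0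
      = (∑ a, ∑ b, ∑ c, ent R a i * ent R b j * ent R c l * mom a b c) * T i j l := by
    intro i j l
    unfold II
    have e1 : ∀ a : E3 × E3, v i a.1 * rot R 0 1 hh i a.2 * a.2 j * a.2 l
        * pd l (pd j ρ) (a.1 - (0 : ℝ) • a.2)
        = (v i a.1 * pd l (pd j ρ) a.1) * (rot R 0 1 hh i a.2 * a.2 j * a.2 l) := by
      intro a
      rw [zero_smul, sub_zero]
      ring
    simp only [e1]
    have e2 : ∫ a : E3 × E3, (v i a.1 * pd l (pd j ρ) a.1) * (rot R 0 1 hh i a.2 * a.2 j * a.2 l)
        = (∫ x, v i x * pd l (pd j ρ) x) * ∫ w, rot R 0 1 hh i w * w j * w l :=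
      integral_prod_mul (fun x => v i x * pd l (pd j ρ) x)
        (fun w => rot R 0 1 hh i w * w j * w l)
    rw [e2, mom_rot]
    ring
  simp only [e] at h
  have hsym : ∀ i j l, T i j l = T i l j := by
    intro i j l
    rw [hT]
    simp only
    congr 1
    funext x
    rw [pd_comm hρ l j]
  have h2 := mom_contract fun a b c => ∑ i, ∑ j, ∑ l, ent R a i * ent R b j * ent R c l * T i j l
  have h3 : ∑ a, ∑ b, ∑ c, mom a b c * ∑ i, ∑ j, ∑ l, ent R a i * ent R b j * ent R c l * T i j l
      = ∑ i, ∑ j, ∑ l, (∑ a, ∑ b, ∑ c, ent R a i * ent R b j * ent R c l * mom a b c) * T i j l := by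
    simp only [Finset.mul_sum, Finset.sum_mul]
    simp only [Fin.sum_univ_three]
    ring
  rw [h3, h] at h2
  have h4 := (mul_eq_zero.1 h2.symm).resolve_left MM_pos.ne'
  have s1 : ∑ i, ∑ j, ∑ l, ent R 1 i * ent R 2 j * ent R 0 l * T i j l
      = ∑ i, ∑ j, ∑ l, ent R 1 i * ent R 0 j * ent R 2 l * T i j l := by
    refine Finset.sum_congr rfl fun i _ => ?_
    rw [Finset.sum_comm]
    refine Finset.sum_congr rfl fun j _ => Finset.sum_congr rfl fun l _ => ?_
    rw [hsym i l j]
    ring
  have s2 : ∑ i, ∑ j, ∑ l, ent R 0 i * ent R 2 j * ent R 1 l * T i j l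
      = ∑ i, ∑ j, ∑ l, ent R 0 i * ent R 1 j * ent R 2 l * T i j l := by
    refine Finset.sum_congr rfl fun i _ => ?_
    rw [Finset.sum_comm]
    refine Finset.sum_congr rfl fun j _ => Finset.sum_congr rfl fun l _ => ?_
    rw [hsym i l j]
    ring
  rw [s1, s2] at h4
  linarith

end Pool.Agent.J4H18.DN
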