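import Pool.Agent.J4H18.DN.E3

/-!
The algebra of the frames.
-/

set_option autoImplicit false
set_option linter.unusedSectionVars false

open MeasureTheory Set Filter Topology
open scoped InnerProductSpace ENNReal ContDiff NNReal

namespace Pool.Agent.J4H18.DN

open H772R2.NS

/-- the identity in the frame of a rotation -/
def FrId (T : Fin 3 → Fin 3 → Fin 3 → ℝ) : Prop := ∀ R : E3 ≃ₗᵢ[ℝ] E3,
  (∑ i, ∑ j, ∑ l, ent R 1 i * ent R 0 j * ent R 2 l * T i j l)
    = ∑ i, ∑ j, ∑ l, ent R 0 i * ent R 1 j * ent R 2 l * T i j l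

variable {T : Fin 3 → Fin 3 → Fin 3 → ℝ}

theorem FrId.mat (h : FrId T) (M : Fin 3 → Fin 3 → ℝ)
    (hM : ∀ a b, ∑ j, M a j * M b j = if a = b then 1 else 0) :
    (∑ i, ∑ j, ∑ l, M 1 i * M 0 j * M 2 l * T i j l)
      = ∑ i, ∑ j, ∑ l, M 0 i * M 1 j * M 2 l * T i j l := by
  obtain ⟨R, hR⟩ := exists_rot M hM
  have := h R
  simpa only [hR] using this

theorem FrId.a2 (h : FrId T) : T 1 0 2 = T 0 1 2 := by
  have := h.mat ![![1, 0, 0], ![0, 1, 0], ![0, 0, 1]] (by
    intro a b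
    fin_cases a <;> fin_cases b <;> simp [Fin.sum_univ_three])
  simpa [Fin.sum_univ_three] using this

theorem FrId.a0 (h : FrId T) : T 2 1 0 = T 1 2 0 := by
  have := h.mat ![![0, 1, 0], ![0, 0, 1], ![1, 0, 0]] (by
    intro a b
    fin_cases a <;> fin_cases b <;> simp [Fin.sum_univ_three])
  simpa [Fin.sum_univ_three] using this

theorem FrId.a1 (h : FrId T) : T 0 2 1 = T 2 0 1 := by
  have := h.mat ![![0, 0, 1], ![1, 0, 0], ![0, 1, 0]] (by
    intro a b
    fin_cases a <;> fin_cases b <;> simp [Fin.sum_univ_three])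
  simpa [Fin.sum_univ_three] using this

theorem half_sq : Real.sqrt (1 / 2) * Real.sqrt (1 / 2) = 1 / 2 :=
  Real.mul_self_sqrt (by norm_num)

theorem FrId.b1 (h : FrId T) (hs : ∀ i j l, T i j l = T i l j) :
    T 1 2 2 - T 1 0 0 = T 2 1 2 - T 0 1 0 := by
  set r := Real.sqrt (1 / 2) with hr
  have hrr : r * r = 1 / 2 := half_sq
  have := h.mat ![![-r, 0, r], ![0, 1, 0], ![r, 0, r]] (by
    intro a b
    fin_cases a <;> fin_cases b <;> simp [Fin.sum_univ_three] <;> linarith)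
  simp [Fin.sum_univ_three] at this
  simp only [hrr] at this
  linarith [h.a0, h.a1, h.a2, hs 1 2 0, hs 2 1 0, hs 0 2 1]

theorem FrId.b0 (h : FrId T) (hs : ∀ i j l, T i j l = T i l j) :
    T 0 2 2 - T 0 1 1 = T 2 0 2 - T 1 0 1 := by
  set r := Real.sqrt (1 / 2) with hr
  have hrr : r * r = 1 / 2 := half_sq
  have := h.mat ![![0, -r, r], ![1, 0, 0], ![0, r, r]] (by
    intro a b
    fin_cases a <;> fin_cases b <;> simp [Fin.sum_univ_three] <;> linarith)
  simp [Fin.sum_univ_three] at this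
  simp only [hrr] at this
  linarith [h.a0, h.a1, h.a2, hs 1 2 0, hs 2 1 0, hs 0 2 1]

theorem FrId.b2 (h : FrId T) (hs : ∀ i j l, T i j l = T i l j) :
    T 2 1 1 - T 2 0 0 = T 1 2 1 - T 0 2 0 := by
  set r := Real.sqrt (1 / 2) with hr
  have hrr : r * r = 1 / 2 := half_sq
  have := h.mat ![![-r, r, 0], ![0, 0, 1], ![r, r, 0]] (by
    intro a b
    fin_cases a <;> fin_cases b <;> simp [Fin.sum_univ_three] <;> linarith)
  simp [Fin.sum_univ_three] at this
  simp only [hrr] at this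
  linarith [h.a0, h.a1, h.a2, hs 1 2 0, hs 2 1 0, hs 0 2 1]

/-- a tensor which is symmetric in the last two and antisymmetric in the first two indices -/
theorem antisym_zero {A : Fin 3 → Fin 3 → Fin 3 → ℝ} (h1 : ∀ a c k, A a c k = A a k c)
    (h2 : ∀ a c k, A a c k = -A c a k) (a c k : Fin 3) : A a c k = 0 := by
  have e1 := h2 a c k
  have e2 := h1 c a k
  have e3 := h2 c k a
  have e4 := h1 k c a
  have e5 := h2 k a c
  have e6 := h1 a k c
  linarith

end Pool.Agent.J4H18.DN
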