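import Pool.Agent.J4H18.DN.E4
import Pool.Agent.J4H18.DN.E5
import Pool.Agent.J4H18.DN.C6
import Pool.Agent.Y303.RA.Cross

/-!
The annihilator of the torus fields is trivial.
-/

set_option autoImplicit false
set_option linter.unusedSectionVars false

open MeasureTheory Set Filter Topology
open scoped InnerProductSpace ENNReal ContDiff NNReal

namespace Pool.Agent.J4H18.DN

open H772R2.NS
open Pool.Agent.Y303.LV (cl clj clj_coe)
open Pool.Agent.Y303.RA (trL trL_coe inner_trL_zero)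


variable {Ω : Set E3} {p q : L2V Ω × L2M Ω} {ρ g : E3 → ℝ}

/-- integral against a component of the field -/
noncomputable def sv (p : L2V Ω × L2M Ω) (i : Fin 3) (g : E3 → ℝ) : ℝ := ∫ x in Ω, p.1 x i * g x

/-- integral against a component of the gradient -/
noncomputable def sz (p : L2V Ω × L2M Ω) (i j : Fin 3) (g : E3 → ℝ) : ℝ :=
  ∫ x in Ω, p.2 x (i, j) * g x

/-- the weak gradient -/
theorem weak_grad (hp : p ∈ graphW Ω) (h1 : ContDiff ℝ ∞ ρ)
    (h2 : HasCompactSupport ρ) (i j : Fin 3) : sv p i (pd j ρ) = -sz p i j ρ := by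
  have hψc : Continuous ρ := h1.continuous
  have hdψ : Continuous (fun x => fderiv ℝ ρ x (H772R2.NS.ev j)) :=
    (h1.continuous_fderiv (by simp)).clm_apply continuous_const
  have hdψs : HasCompactSupport (fun x => fderiv ℝ ρ x (H772R2.NS.ev j)) := h2.fderiv_apply ℝ _
  let A : E3 → M3 := fun x => EuclideanSpace.single (i, j) (ρ x)
  let B : E3 → E3 := fun x => EuclideanSpace.single i (fderiv ℝ ρ x (H772R2.NS.ev j))
  have hAc : Continuous A := by
    have : A = fun x => ρ x • (EuclideanSpace.single (i, j) (1 : ℝ) : M3) := by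
      ext x p; simp [A]
    rw [this]; fun_prop
  have hBc : Continuous B := by
    have : B = fun x => fderiv ℝ ρ x (H772R2.NS.ev j) • (EuclideanSpace.single i (1 : ℝ) : E3) := by
      ext x p; simp [B]
    rw [this]; exact hdψ.smul continuous_const
  have hAs : HasCompactSupport A := by
    refine h2.mono (fun x hx => ?_)
    intro h0; apply hx; ext p; simp [A, h0]
  have hBs : HasCompactSupport B := by
    refine hdψs.mono (fun x hx => ?_)
    intro h0
    apply hx
    have h0' : fderiv ℝ ρ x (H772R2.NS.ev j) = 0 := h0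
    ext p; simp [B, h0']
  have hA : MemLp A 2 (volume.restrict Ω) :=
    (hAc.memLp_of_hasCompactSupport hAs).restrict Ω
  have hB : MemLp B 2 (volume.restrict Ω) :=
    (hBc.memLp_of_hasCompactSupport hBs).restrict Ω
  have hcont : Continuous (fun p : L2V Ω × L2M Ω =>
      ⟪hA.toLp A, p.2⟫_ℝ + ⟪hB.toLp B, p.1⟫_ℝ) := by fun_prop
  have hzero := graphW_induction (fun p : L2V Ω × L2M Ω =>
      ⟪hA.toLp A, p.2⟫_ℝ + ⟪hB.toLp B, p.1⟫_ℝ) hcont.continuousOn (by
    rintro q ⟨φ, k1, k2, k3⟩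
    have e1 : ⟪hA.toLp A, q.2⟫_ℝ = ∫ x in Ω, ρ x * fderiv ℝ (fun y => φ y i) x (H772R2.NS.ev j) := by
      rw [L2.inner_def]
      apply integral_congr_ae
      filter_upwards [hA.coeFn_toLp, k3] with x a b
      rw [a, b]
      simp only [A, EuclideanSpace.inner_single_left, jac_apply]
      rw [fderiv_coord k1.smooth]
      simp
    have e2 : ⟪hB.toLp B, q.1⟫_ℝ = ∫ x in Ω, fderiv ℝ ρ x (H772R2.NS.ev j) * φ x i := by
      rw [L2.inner_def]
      apply integral_congr_ae
      filter_upwards [hB.coeFn_toLp, k2] with x a b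
      rw [a, b]
      simp only [B, EuclideanSpace.inner_single_left]
      simp
    show ⟪hA.toLp A, q.2⟫_ℝ + ⟪hB.toLp B, q.1⟫_ℝ = 0
    have hφc : Continuous (fun x => φ x i) := (contDiff_coord k1.smooth i).continuous
    have hdφ : Continuous (fun x => fderiv ℝ (fun y => φ y i) x (H772R2.NS.ev j)) :=
      ((contDiff_coord k1.smooth i).continuous_fderiv (by simp)).clm_apply continuous_const
    have hφ0 : ∀ x, x ∉ Ω → ∀ v, fderiv ℝ (fun y => φ y i) x v = 0 := by
      intro x hx v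
      have : φ =ᶠ[𝓝 x] fun _ => 0 := by
        have h3 : x ∉ tsupport φ := fun hc => hx (k1.supp hc)
        exact notMem_tsupport_iff_eventuallyEq.mp h3
      have h4 : (fun y => φ y i) =ᶠ[𝓝 x] fun _ => (0 : ℝ) := by
        filter_upwards [this] with y hy
        rw [hy]
        rfl
      rw [h4.fderiv_eq]
      simp
    have e3 : ∫ x in Ω, ρ x * fderiv ℝ (fun y => φ y i) x (H772R2.NS.ev j)
        = ∫ x, ρ x * fderiv ℝ (fun y => φ y i) x (H772R2.NS.ev j) := by
      apply setIntegral_eq_integral_of_forall_compl_eq_zero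
      intro x hx
      rw [hφ0 x hx, mul_zero]
    have e4 : ∫ x in Ω, fderiv ℝ ρ x (H772R2.NS.ev j) * φ x i = ∫ x, fderiv ℝ ρ x (H772R2.NS.ev j) * φ x i := by
      apply setIntegral_eq_integral_of_forall_compl_eq_zero
      intro x hx
      have : φ x = 0 := image_eq_zero_of_notMem_tsupport (fun hc => hx (k1.supp hc))
      rw [this]; simp
    rw [e1, e2, e3, e4, integral_mul_fderiv_eq_neg_fderiv_mul_of_integrable]
    · ring
    · exact (hdψ.mul hφc).integrable_of_hasCompactSupport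
        ((hasCompactSupport_coord k1.compact i).mul_left)
    · exact (hψc.mul hdφ).integrable_of_hasCompactSupport (h2.mul_right)
    · exact (hψc.mul hφc).integrable_of_hasCompactSupport (h2.mul_right)
    · intro x _; exact (h1.differentiable (by simp)) x
    · intro x _; exact ((contDiff_coord k1.smooth i).differentiable (by simp)) x) hp
  have f1 : ⟪hA.toLp A, p.2⟫_ℝ = sz p i j ρ := by
    unfold sz
    rw [L2.inner_def]
    apply integral_congr_ae
    filter_upwards [hA.coeFn_toLp] with x a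
    rw [a]
    simp only [A, EuclideanSpace.inner_single_left]
    simp
    ring
  have f2 : ⟪hB.toLp B, p.1⟫_ℝ = sv p i (pd j ρ) := by
    unfold sv
    rw [L2.inner_def]
    apply integral_congr_ae
    filter_upwards [hB.coeFn_toLp] with x a
    rw [a]
    simp only [B, EuclideanSpace.inner_single_left, pd]
    simp
    ring
  rw [f1, f2] at hzero
  linarith

theorem z_int (hb : Bornology.IsBounded Ω) (p : L2V Ω × L2M Ω) (i j : Fin 3) :
    IntegrableOn (fun x => p.2 x (i, j)) Ω := by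
  have hfin : IsFiniteMeasure (volume.restrict Ω : Measure E3) :=
    ⟨by
      rw [Measure.restrict_apply_univ]
      exact hb.measure_lt_top⟩
  have h1 : MemLp (p.2 : E3 → M3) 2 (volume.restrict Ω) := Lp.memLp p.2
  have h2 : MemLp (fun x => p.2 x (i, j)) 2 (volume.restrict Ω) := by
    refine h1.of_le ?_ (Eventually.of_forall fun x => PiLp.norm_apply_le (p.2 x) (i, j))
    exact ((EuclideanSpace.proj (𝕜 := ℝ) (i, j) : M3 →L[ℝ] ℝ).continuous).comp_aestronglyMeasurable
      h1.aestronglyMeasurable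
  exact h2.integrable (by norm_num)

theorem v_int (hb : Bornology.IsBounded Ω) (p : L2V Ω × L2M Ω) (i : Fin 3) :
    IntegrableOn (fun x => p.1 x i) Ω := by
  have hfin : IsFiniteMeasure (volume.restrict Ω : Measure E3) :=
    ⟨by
      rw [Measure.restrict_apply_univ]
      exact hb.measure_lt_top⟩
  have h1 : MemLp (p.1 : E3 → E3) 2 (volume.restrict Ω) := Lp.memLp p.1
  have h2 : MemLp (fun x => p.1 x i) 2 (volume.restrict Ω) := by
    refine h1.of_le ?_ (Eventually.of_forall fun x => PiLp.norm_apply_le (p.1 x) i)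
    exact ((EuclideanSpace.proj (𝕜 := ℝ) i : E3 →L[ℝ] ℝ).continuous).comp_aestronglyMeasurable
      h1.aestronglyMeasurable
  exact h2.integrable (by norm_num)

theorem zg_int (hb : Bornology.IsBounded Ω) (p : L2V Ω × L2M Ω) (i j : Fin 3)
    (hg : Continuous g) (hc : HasCompactSupport g) :
    IntegrableOn (fun x => p.2 x (i, j) * g x) Ω := by
  obtain ⟨M, hM⟩ := hg.bounded_above_of_compact_support hc
  exact (z_int hb p i j).mul_bdd hg.aestronglyMeasurable (Eventually.of_forall hM)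

/-- the antisymmetric part -/
noncomputable def nz (p : L2V Ω × L2M Ω) (i j : Fin 3) (g : E3 → ℝ) : ℝ := sz p i j g - sz p j i g

/-- the components of the curl -/
noncomputable def om (p : L2V Ω × L2M Ω) (a : Fin 3) (g : E3 → ℝ) : ℝ :=
  if a = 0 then nz p 2 1 g else if a = 1 then nz p 0 2 g else nz p 1 0 g

theorem nz_zero_of_om {g : E3 → ℝ} (h : ∀ a, om p a g = 0) (i j : Fin 3) : nz p i j g = 0 := by
  have h0 : nz p 2 1 g = 0 := by simpa [om] using h 0
  have h1 : nz p 0 2 g = 0 := by simpa [om] using h 1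
  have h2 : nz p 1 0 g = 0 := by simpa [om] using h 2
  unfold nz at h0 h1 h2 ⊢
  fin_cases i <;> fin_cases j <;> simp <;> linarith

/-- the test functions of the annihilator -/
theorem FrId_of (hΩ : IsOpen Ω) (hb : Bornology.IsBounded Ω)
    (hJ : ∀ (R : E3 ≃ₗᵢ[ℝ] E3) (y : E3) (s : ℝ), 0 < s → Metric.closedBall y (4 * s) ⊆ Ω →
      ∫ x in Ω, ∑ i, p.1 x i * rot R y s hh i x = 0)
    (hρ : ContDiff ℝ ∞ ρ) (hc : HasCompactSupport ρ) (hs : tsupport ρ ⊆ Ω) :
    FrId fun i j l => sv p i (pd l (pd j ρ)) := by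
  have hv : ∀ i, Integrable (Ω.indicator fun x => p.1 x i) := fun i =>
    (v_int hb p i).integrable_indicator hΩ.measurableSet
  have hJ' : ∀ (R : E3 ≃ₗᵢ[ℝ] E3) (y : E3) (s : ℝ), 0 < s → Metric.closedBall y (4 * s) ⊆ Ω →
      ∫ x, ∑ i, (Ω.indicator fun x => p.1 x i) x * rot R y s hh i x = 0 := by
    intro R y s h1 h2
    rw [← hJ R y s h1 h2, ← integral_indicator hΩ.measurableSet]
    congr 1
    funext x
    by_cases hx : x ∈ Ω
    · simp [indicator_of_mem hx]
    · simp [indicator_of_notMem hx]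
  have e : ∀ i (g : E3 → ℝ), ∫ x, (Ω.indicator fun x => p.1 x i) x * g x = sv p i g := by
    intro i g
    unfold sv
    rw [← integral_indicator hΩ.measurableSet]
    congr 1
    funext x
    by_cases hx : x ∈ Ω
    · simp [indicator_of_mem hx]
    · simp [indicator_of_notMem hx]
  intro R
  have h := second_id (v := fun i => Ω.indicator fun x => p.1 x i) hΩ hv hJ' R hρ hc hs
  simpa only [e] using h

theorem om_antisym (hΩ : IsOpen Ω) (hb : Bornology.IsBounded Ω) (hp : p ∈ graphW Ω)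
    (hJ : ∀ (R : E3 ≃ₗᵢ[ℝ] E3) (y : E3) (s : ℝ), 0 < s → Metric.closedBall y (4 * s) ⊆ Ω →
      ∫ x in Ω, ∑ i, p.1 x i * rot R y s hh i x = 0)
    (hρ : ContDiff ℝ ∞ ρ) (hc : HasCompactSupport ρ) (hs : tsupport ρ ⊆ Ω) (a c : Fin 3) :
    om p a (pd c ρ) = -om p c (pd a ρ) := by
  have F := FrId_of hΩ hb hJ hρ hc hs
  have c1 : ∀ j, ContDiff ℝ ∞ (pd j ρ) := fun j => cd_pd hρ j
  have s1 : ∀ j, HasCompactSupport (pd j ρ) := fun j => hc.fderiv_apply ℝ _
  have comm : ∀ j l, pd l (pd j ρ) = pd j (pd l ρ) := fun j l => by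
    funext x
    exact pd_comm hρ l j x
  have hsym : ∀ i j l, sv p i (pd l (pd j ρ)) = sv p i (pd j (pd l ρ)) := fun i j l => by
    rw [comm]
  -- both forms of the weak gradient
  have w : ∀ i j l, sv p i (pd l (pd j ρ)) = -sz p i l (pd j ρ) := fun i j l =>
    weak_grad hp (c1 j) (s1 j) i l
  have w' : ∀ i j l, sv p i (pd l (pd j ρ)) = -sz p i j (pd l ρ) := fun i j l => by
    rw [comm, w]
  have a0 : sv p 2 (pd 0 (pd 1 ρ)) = sv p 1 (pd 0 (pd 2 ρ)) := F.a0
  have a1 : sv p 0 (pd 1 (pd 2 ρ)) = sv p 2 (pd 1 (pd 0 ρ)) := F.a1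
  have a2 : sv p 1 (pd 2 (pd 0 ρ)) = sv p 0 (pd 2 (pd 1 ρ)) := F.a2
  have b0 : sv p 0 (pd 2 (pd 2 ρ)) - sv p 0 (pd 1 (pd 1 ρ))
      = sv p 2 (pd 2 (pd 0 ρ)) - sv p 1 (pd 1 (pd 0 ρ)) := F.b0 hsym
  have b1 : sv p 1 (pd 2 (pd 2 ρ)) - sv p 1 (pd 0 (pd 0 ρ))
      = sv p 2 (pd 2 (pd 1 ρ)) - sv p 0 (pd 0 (pd 1 ρ)) := F.b1 hsym
  have b2 : sv p 2 (pd 1 (pd 1 ρ)) - sv p 2 (pd 0 (pd 0 ρ))
      = sv p 1 (pd 1 (pd 2 ρ)) - sv p 0 (pd 0 (pd 2 ρ)) := F.b2 hsym
  rw [w' 2 1 0, w' 1 2 0] at a0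
  rw [w' 0 2 1, w' 2 0 1] at a1
  rw [w' 1 0 2, w' 0 1 2] at a2
  rw [w' 0 2 2, w' 0 1 1, w' 2 0 2, w' 1 0 1] at b0
  rw [w' 1 2 2, w' 1 0 0, w' 2 1 2, w' 0 1 0] at b1
  rw [w' 2 1 1, w' 2 0 0, w' 1 2 1, w' 0 2 0] at b2
  fin_cases a <;> fin_cases c <;> simp [om, nz] <;> linarith

/-- the second derivatives of the curl vanish -/
theorem om_zero (hΩ : IsOpen Ω) (hb : Bornology.IsBounded Ω) (hp : p ∈ graphW Ω)
    (hJ : ∀ (R : E3 ≃ₗᵢ[ℝ] E3) (y : E3) (s : ℝ), 0 < s → Metric.closedBall y (4 * s) ⊆ Ω →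
      ∫ x in Ω, ∑ i, p.1 x i * rot R y s hh i x = 0)
    (hρ : ContDiff ℝ ∞ ρ) (hc : HasCompactSupport ρ) (hs : tsupport ρ ⊆ Ω) (i j c k : Fin 3) :
    nz p i j (pd c (pd k ρ)) = 0 := by
  refine nz_zero_of_om (fun a => ?_) i j
  have sup : ∀ k, tsupport (pd k ρ) ⊆ Ω := fun k =>
    (tsupport_fderiv_apply_subset ℝ (H772R2.NS.ev k)).trans hs
  refine antisym_zero (A := fun a c k => om p a (pd c (pd k ρ))) ?_ ?_ a c k
  · intro a c k
    have : pd c (pd k ρ) = pd k (pd c ρ) := by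
      funext x
      exact pd_comm hρ c k x
    simp only [this]
  · intro a c k
    exact om_antisym hΩ hb hp hJ (cd_pd hρ k) (hc.fderiv_apply ℝ _) (sup k) a c

end Pool.Agent.J4H18.DN
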