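import Pool.Agent.J4H18.DN.E6
import Pool.Agent.J4H18.DN.E1

/-!
Density of the torus fields.
-/

set_option autoImplicit false
set_option linter.unusedSectionVars false

open MeasureTheory Set Filter Topology
open scoped InnerProductSpace ENNReal ContDiff NNReal

namespace Pool.Agent.J4H18.DN

open H772R2.NS
open H772R2.NSR (exists_poinc)
open Pool.Agent.Y303.LV (cl clj clj_coe)
open Pool.Agent.Y303.RA (trL trL_coe inner_trL_zero trn trn_apply)


variable {Ω : Set E3} {p q : L2V Ω × L2M Ω} {ρ g : E3 → ℝ}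

theorem nz_sum (hb : Bornology.IsBounded Ω) (p : L2V Ω × L2M Ω) (i j : Fin 3) {G : Fin 3 → E3 → ℝ}
    (hG : ∀ l, Continuous (G l)) (hc : ∀ l, HasCompactSupport (G l)) :
    nz p i j (fun x => ∑ l, G l x) = ∑ l, nz p i j (G l) := by
  unfold nz sz
  have h1 : ∀ i j, ∫ x in Ω, p.2 x (i, j) * ∑ l, G l x = ∑ l, ∫ x in Ω, p.2 x (i, j) * G l x := by
    intro i j
    rw [← integral_finsetSum _ fun l _ => zg_int hb p i j (hG l) (hc l)]
    congr 1
    funext x
    rw [Finset.mul_sum]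
  rw [h1, h1, Finset.sum_sub_distrib]

/-- the antisymmetric part is orthogonal to the gradients of the test fields -/
theorem nz_test (hΩ : IsOpen Ω) (hb : Bornology.IsBounded Ω) (hp : p ∈ graphW Ω)
    (hJ : ∀ (R : E3 ≃ₗᵢ[ℝ] E3) (y : E3) (s : ℝ), 0 < s → Metric.closedBall y (4 * s) ⊆ Ω →
      ∫ x in Ω, ∑ i, p.1 x i * rot R y s hh i x = 0) {ψ : E3 → E3} (hψ : IsTest Ω ψ)
    (i j : Fin 3) : nz p i j (pd j fun x => ψ x i) = 0 := by
  have cψ : ∀ l, ContDiff ℝ ∞ (fun x => ψ x l) := fun l => contDiff_coord hψ.smooth l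
  have sψ : ∀ l, HasCompactSupport (fun x => ψ x l) := fun l => hasCompactSupport_coord hψ.compact l
  set G : Fin 3 → E3 → ℝ := fun l x => x i * ψ x l with hG
  have cG : ∀ l, ContDiff ℝ ∞ (G l) := fun l => (cdx i).mul (cψ l)
  have sG : ∀ l, HasCompactSupport (G l) := fun l => (sψ l).mul_left
  have tG : ∀ l, tsupport (G l) ⊆ Ω := by
    intro l
    refine Subset.trans ?_ hψ.supp
    refine closure_mono fun x hx h0 => hx ?_
    have h1 : ψ x = 0 := h0
    simp only [hG]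
    rw [h1]
    simp
  have hdiv : ∀ x, ∑ l, pd l (fun x => ψ x l) x = 0 := by
    intro x
    rw [← hψ.divfree x]
    refine Finset.sum_congr rfl fun l _ => ?_
    rw [jac_pd hψ.smooth]
  have e1 : (fun x => ψ x i) = fun x => ∑ l, pd l (G l) x := by
    funext x
    have h2 : ∀ l, pd l (G l) x = (if i = l then 1 else 0) * ψ x l
        + x i * pd l (fun x => ψ x l) x := by
      intro l
      have : pd l (G l) x = pd l (fun x => x i * ψ x l) x := rfl
      rw [this, pd_mul (cdx i) (cψ l), pd_coord]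
    simp only [h2]
    rw [Finset.sum_add_distrib, ← Finset.mul_sum, hdiv, mul_zero, add_zero]
    simp
  have e2 : (pd j fun x => ψ x i) = fun x => ∑ l, pd j (pd l (G l)) x := by
    funext x
    rw [e1, pd_sum _ fun l _ => cd_pd (cG l) l]
  have c2 : ∀ l, ContDiff ℝ ∞ (pd j (pd l (G l))) := fun l => cd_pd (cd_pd (cG l) l) j
  have s2 : ∀ l, HasCompactSupport (pd j (pd l (G l))) := fun l =>
    HasCompactSupport.fderiv_apply ℝ (HasCompactSupport.fderiv_apply ℝ (sG l) _) _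
  rw [e2, nz_sum hb p i j (fun l => (c2 l).continuous) s2]
  exact Finset.sum_eq_zero fun l _ => om_zero hΩ hb hp hJ (cG l) (sG l) (tG l) i j j l

/-- **The annihilator is trivial.** -/
theorem annihil (hΩ : IsOpen Ω) (hb : Bornology.IsBounded Ω) (hp : p ∈ graphW Ω)
    (hJ : ∀ (R : E3 ≃ₗᵢ[ℝ] E3) (y : E3) (s : ℝ), 0 < s → Metric.closedBall y (4 * s) ⊆ Ω →
      ∫ x in Ω, ∑ i, p.1 x i * rot R y s hh i x = 0) : p.2 = 0 := by
  have key : ∀ q ∈ graphW Ω, ⟪p.2 - trL Ω p.2, q.2⟫_ℝ = 0 := by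
    intro q hq
    refine graphW_induction (fun q => ⟪p.2 - trL Ω p.2, q.2⟫_ℝ)
      (continuous_const.inner continuous_snd).continuousOn ?_ hq
    rintro q ⟨ψ, h1, h2, h3⟩
    show ⟪p.2 - trL Ω p.2, q.2⟫_ℝ = 0
    have hcj : ∀ i j, ContDiff ℝ ∞ (pd j fun x => ψ x i) := fun i j =>
      cd_pd (contDiff_coord h1.smooth i) j
    have hsj : ∀ i j, HasCompactSupport (pd j fun x => ψ x i) := fun i j =>
      HasCompactSupport.fderiv_apply ℝ (hasCompactSupport_coord h1.compact i) _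
    have e1 : ⟪p.2 - trL Ω p.2, q.2⟫_ℝ = ∫ x in Ω, ∑ i, ∑ j,
        (p.2 x (i, j) * pd j (fun x => ψ x i) x - p.2 x (j, i) * pd j (fun x => ψ x i) x) := by
      rw [L2.inner_def]
      apply integral_congr_ae
      filter_upwards [trL_coe p.2, h3, Lp.coeFn_sub p.2 (trL Ω p.2)] with x a b c
      rw [c, b, inner_M3]
      refine Finset.sum_congr rfl fun i _ => Finset.sum_congr rfl fun j _ => ?_
      rw [jac_pd h1.smooth, Pi.sub_apply, PiLp.sub_apply, a, trn_apply]
      ring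
    have i1 : ∀ i j, IntegrableOn (fun x => p.2 x (i, j) * pd j (fun x => ψ x i) x) Ω := fun i j =>
      zg_int hb p i j (hcj i j).continuous (hsj i j)
    have i2 : ∀ i j, IntegrableOn (fun x => p.2 x (j, i) * pd j (fun x => ψ x i) x) Ω := fun i j =>
      zg_int hb p j i (hcj i j).continuous (hsj i j)
    have i12 : ∀ i j, IntegrableOn (fun x => p.2 x (i, j) * pd j (fun x => ψ x i) x
        - p.2 x (j, i) * pd j (fun x => ψ x i) x) Ω := fun i j => (i1 i j).sub (i2 i j)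
    rw [e1, integral_finsetSum _ fun i _ => integrable_finsetSum _ fun j _ => i12 i j]
    refine Finset.sum_eq_zero fun i _ => ?_
    rw [integral_finsetSum _ fun j _ => i12 i j]
    refine Finset.sum_eq_zero fun j _ => ?_
    rw [integral_sub (i1 i j) (i2 i j)]
    exact nz_test hΩ hb hp hJ h1 i j
  have h1 := key p hp
  rw [inner_sub_left, inner_trL_zero hp, sub_zero] at h1
  exact inner_self_eq_zero.1 h1

/-- the torus fields in the domain -/
def TF (Ω : Set E3) : Set (L2V Ω) := {g | ∃ (R : E3 ≃ₗᵢ[ℝ] E3) (y : E3) (s : ℝ), 0 < s ∧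
  Metric.closedBall y (4 * s) ⊆ Ω ∧ g = cl Ω (vec (rot R y s hh))}

theorem rot_CK (R : E3 ≃ₗᵢ[ℝ] E3) (y : E3) {s : ℝ} (hs : 0 < s) :
    CK (Metric.closedBall y (4 * s)) (vec (rot R y s hh)) := by
  refine ⟨vec_cont fun i => (Amp.rot hh_amp i).smooth.continuous, fun x hx => ?_⟩
  ext i
  rw [vec_apply]
  exact (Amp.rot hh_amp i).off x fun h => hx (pre_K0 R y hs (by
    have h2 : TT R y s x ∈ S0 := h
    exact h2.2))

/-- **Density of the torus fields.** -/
theorem approx_torus (hΩ : IsOpen Ω) (hb : Bornology.IsBounded Ω) (f : L2V Ω) {ε : ℝ}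
    (hε : 0 < ε) : ∃ g ∈ Submodule.span ℝ (TF Ω), ∀ q ∈ graphW Ω, |⟪f - g, q.1⟫_ℝ| ≤ ε * ‖q.2‖ := by
  obtain ⟨c, _, hc⟩ := exists_poinc hΩ.measurableSet hb
  refine approxW (W := graphW Ω) (graphW_closed Ω) hc (G := TF Ω) ?_ f hε
  intro q hq h
  refine annihil hΩ hb hq fun R y s hs hB => ?_
  have h1 := h _ ⟨R, y, s, hs, hB, rfl⟩
  rw [← h1, L2.inner_def]
  apply integral_congr_ae
  filter_upwards [(rot_CK R y hs).coe (Ω := Ω) (isCompact_closedBall y (4 * s))] with x a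
  rw [a, inner_sum]
  refine Finset.sum_congr rfl fun i _ => ?_
  rw [vec_apply]
  ring

end Pool.Agent.J4H18.DN
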