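import Pool.Agent.J4H18.DN.E7

/-!
Assembly on a fixed time interval.
-/

set_option autoImplicit false
set_option linter.unusedSectionVars false

open MeasureTheory Set Filter Topology
open scoped InnerProductSpace ENNReal ContDiff NNReal

namespace Pool.Agent.J4H18.DN

open H772R2.NS
open Pool.Agent.W795.TQ
open Pool.Agent.Y303.LV (cl clj clj_coe)


variable {Ω : Set E3} {ν T : ℝ} {F F1 : ℝ → L2M Ω} {θ : ℝ}

/-- a strong solution on `[0,T]` from a test field -/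
structure SolT (Ω : Set E3) (ν T : ℝ) (F : ℝ → L2M Ω) (v0 : E3 → E3) (v : ℝ → L2V Ω) : Prop where
  test : IsTest Ω v0
  str : ∃ (v1 : ℝ → L2V Ω) (y y1 : ℝ → L2M Ω) (g0 : L2V Ω),
    Str (graphW Ω) (tensL (Ω := Ω)) ν T F v v1 y y1 ∧
    ∀ p ∈ graphW Ω, ⟪F 0 - ν • y 0 + tensL (v 0), p.2⟫_ℝ = ⟪g0, p.1⟫_ℝ
  init : v 0 = cl Ω v0

/-- the property of a change of the initial velocity -/
def Rch (Ω : Set E3) (ν T : ℝ) (F : ℝ → L2M Ω) (θ : ℝ) (g : L2V Ω) : Prop :=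
  ∀ (v0 : E3 → E3) (v : ℝ → L2V Ω), SolT Ω ν T F v0 v → ∀ ε : ℝ, 0 < ε →
    ∃ (w0 : E3 → E3) (u : ℝ → L2V Ω), SolT Ω ν T F w0 u ∧ (∀ t ∈ Icc ε T, ‖u t - v t‖ ≤ ε) ∧
      ∀ ψ, IsTest Ω ψ → |⟪cl Ω w0 - cl Ω v0 - g, cl Ω ψ⟫_ℝ| ≤ ε * wn θ ψ

theorem Rch.zero : Rch Ω ν T F θ 0 := by
  intro v0 v S ε hε
  refine ⟨v0, v, S, fun t _ => ?_, fun ψ _ => ?_⟩
  · rw [sub_self, norm_zero]
    exact hε.le
  · rw [sub_self, sub_zero, inner_zero_left, abs_zero]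
    exact mul_nonneg hε.le (wn_nonneg θ ψ)

theorem Rch.add {g g' : L2V Ω} (h : Rch Ω ν T F θ g) (h' : Rch Ω ν T F θ g') :
    Rch Ω ν T F θ (g + g') := by
  intro v0 v S ε hε
  obtain ⟨w, u, S1, a1, a2⟩ := h v0 v S (ε / 2) (by positivity)
  obtain ⟨w', u', S2, b1, b2⟩ := h' w u S1 (ε / 2) (by positivity)
  refine ⟨w', u', S2, fun t ht => ?_, fun ψ hψ => ?_⟩
  · have ht' : t ∈ Icc (ε / 2) T := ⟨by linarith [ht.1], ht.2⟩
    have e : u' t - v t = (u' t - u t) + (u t - v t) := by abel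
    rw [e]
    refine (norm_add_le _ _).trans ?_
    linarith [a1 t ht', b1 t ht']
  · have e : cl Ω w' - cl Ω v0 - (g + g') = (cl Ω w' - cl Ω w - g') + (cl Ω w - cl Ω v0 - g) := by
      abel
    rw [e, inner_add_left]
    refine (abs_add_le _ _).trans ?_
    linarith [a2 ψ hψ, b2 ψ hψ]

theorem test_CK {V : E3 → E3} (hV : IsTest Ω V) {K : Set E3} (h : tsupport V ⊆ K) : CK K V :=
  ⟨hV.smooth.continuous, fun _ hx => image_eq_zero_of_notMem_tsupport fun h' => hx (h h')⟩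

theorem CK.mono {K K' : Set E3} {V : E3 → E3} (hV : CK K V) (h : K ⊆ K') : CK K' V :=
  ⟨hV.c, fun _ hx => hV.off _ fun h' => hx (h h')⟩

theorem CK.smul {K : Set E3} {V : E3 → E3} (hV : CK K V) (c : ℝ) : CK K (fun x => c • V x) :=
  ⟨hV.c.const_smul c, fun x hx => by rw [hV.off x hx, smul_zero]⟩

theorem CK.cl_smul {K : Set E3} {V : E3 → E3} (hK : IsCompact K) (hV : CK K V) (c : ℝ) :
    cl Ω (fun x => c • V x) = c • cl Ω V := by
  apply Lp.ext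
  filter_upwards [hV.coe (Ω := Ω) hK, (hV.smul c).coe (Ω := Ω) hK,
    Lp.coeFn_smul c (cl Ω V)] with x h1 h2 h3
  rw [h3, h2, Pi.smul_apply, h1]

theorem Rch.torus (hloc : S_loc) (hun : S_univ) (hΩ : IsOpen Ω) (hb : Bornology.IsBounded Ω)
    (hν : 0 < ν) (hT : 0 < T) (hF : FH T F F1) (hθ0 : 0 < θ) (hθ1 : θ ≤ 1) {g : L2V Ω}
    (hg : g ∈ TF Ω) (c : ℝ) : Rch Ω ν T F θ (c • g) := by
  obtain ⟨R, y, s, hs, hB, rfl⟩ := hg
  rintro v0 v ⟨hv0, ⟨v1, z, z1, g0, S, hg0⟩, hv⟩ ε hε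
  obtain ⟨φ, A, B, P, S', K, D, hK⟩ := dat_all hν R y hs c
  obtain ⟨w0, u, u1, z', z1', g0', hw0, S2, hu, hg0', a1, a2⟩ :=
    stage hloc hun hΩ hb hν hT hF hv0 S hv hg0 D (hK.trans hB) hθ0 hθ1 hε
  refine ⟨w0, u, ⟨hw0, ⟨u1, z', z1', g0', S2, hg0'⟩, hu⟩, a1, fun ψ hψ => ?_⟩
  refine le_of_eq_of_le ?_ (a2 ψ hψ)
  congr 1
  set V := vec (rot R y s hh) with hV
  set K' : Set E3 := (tsupport w0 ∪ tsupport v0) ∪ Metric.closedBall y (4 * s) with hK'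
  have hK'c : IsCompact K' :=
    (hw0.compact.isCompact.union hv0.compact.isCompact).union (isCompact_closedBall _ _)
  have hK'Ω : K' ⊆ Ω := union_subset (union_subset hw0.supp hv0.supp) hB
  have k1 : CK K' w0 := test_CK hw0 (subset_union_left.trans subset_union_left)
  have k2 : CK K' v0 := test_CK hv0 (subset_union_right.trans subset_union_left)
  have k3 : CK K' V := (rot_CK R y hs).mono subset_union_right
  have e1 : cl Ω w0 - cl Ω v0 - c • cl Ω V = cl Ω (fun x => (w0 x - v0 x) - c • V x) := by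
    rw [(k1.sub k2).cl_sub hK'c (k3.smul c), k1.cl_sub hK'c k2, k3.cl_smul hK'c]
  rw [e1, ((k1.sub k2).sub (k3.smul c)).inner hK'c hΩ.measurableSet hK'Ω
    ((CK.test hψ).coe hψ.compact)]
  rfl

theorem Rch.span (hloc : S_loc) (hun : S_univ) (hΩ : IsOpen Ω) (hb : Bornology.IsBounded Ω)
    (hν : 0 < ν) (hT : 0 < T) (hF : FH T F F1) (hθ0 : 0 < θ) (hθ1 : θ ≤ 1) {g : L2V Ω}
    (hg : g ∈ Submodule.span ℝ (TF Ω)) : Rch Ω ν T F θ g := by
  induction hg using Submodule.closure_induction with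
  | zero => exact Rch.zero
  | add x y _ _ hx hy => exact hx.add hy
  | smul_mem c x hx => exact Rch.torus hloc hun hΩ hb hν hT hF hθ0 hθ1 hx c

theorem clj_G1 {ψ : E3 → E3} (hΩ : MeasurableSet Ω) (hψ : IsTest Ω ψ) : ‖clj Ω ψ‖ = G1 ψ := by
  have h1 : ‖clj Ω ψ‖ ^ 2 = ∫ x, ‖jac ψ x‖ ^ 2 := by
    rw [← real_inner_self_eq_norm_sq, L2.inner_def]
    have : ∫ x in Ω, ⟪(clj Ω ψ : E3 → M3) x, (clj Ω ψ : E3 → M3) x⟫_ℝ = ∫ x in Ω, ‖jac ψ x‖ ^ 2 := by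
      apply integral_congr_ae
      filter_upwards [clj_coe hψ] with x h
      rw [h, real_inner_self_eq_norm_sq]
    rw [this]
    apply setIntegral_eq_integral_of_forall_compl_eq_zero
    intro x hx
    have : jac ψ x = 0 := by
      apply image_eq_zero_of_notMem_tsupport
      intro hc
      exact hx (hψ.supp (tsupport_jac_subset hc))
    rw [this]
    simp
  unfold G1
  rw [← h1, Real.sqrt_sq (norm_nonneg _)]

/-- **Density on a fixed time interval.** -/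
theorem density_T (hloc : S_loc) (hun : S_univ) (hΩ : IsOpen Ω) (hb : Bornology.IsBounded Ω)
    (hν : 0 < ν) (hT : 0 < T) (hF : FH T F F1) (hθ0 : 0 < θ) (hθ1 : θ ≤ 1) {v0 : E3 → E3}
    {v : ℝ → L2V Ω} (S : SolT Ω ν T F v0 v) (f : L2V Ω) {ε : ℝ} (hε : 0 < ε) :
    ∃ (w0 : E3 → E3) (u : ℝ → L2V Ω), SolT Ω ν T F w0 u ∧ (∀ t ∈ Icc ε T, ‖u t - v t‖ ≤ ε) ∧
      ∀ ψ, IsTest Ω ψ → |⟪cl Ω w0 - f, cl Ω ψ⟫_ℝ| ≤ ε * wn θ ψ := by
  obtain ⟨g, hg, h1⟩ := approx_torus hΩ hb (f - cl Ω v0) (ε := ε / 2) (by positivity)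
  obtain ⟨w0, u, S', a1, a2⟩ := Rch.span hloc hun hΩ hb hν hT hF hθ0 hθ1 hg v0 v S (ε / 2)
    (by positivity)
  refine ⟨w0, u, S', fun t ht => ?_, fun ψ hψ => ?_⟩
  · have ht' : t ∈ Icc (ε / 2) T := ⟨by linarith [ht.1], ht.2⟩
    linarith [a1 t ht']
  · have e : cl Ω w0 - f = (cl Ω w0 - cl Ω v0 - g) - (f - cl Ω v0 - g) := by abel
    rw [e, inner_sub_left]
    have h2 := h1 _ (test_mem hψ)
    simp only at h2
    rw [clj_G1 hΩ.measurableSet hψ] at h2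
    have h3 := a2 ψ hψ
    have h4 := G1_le_wn hθ0 hθ1 ψ
    have h5 : ε / 2 * G1 ψ ≤ ε / 2 * wn θ ψ := by gcongr
    refine (abs_sub _ _).trans ?_
    linarith

end Pool.Agent.J4H18.DN
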