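import Pool.Agent.J4H18.DN.A3
import Pool.Agent.W795.TQ.DFin

/-!
A priori bound of the gradient on short time intervals.
-/

set_option autoImplicit false
set_option linter.unusedSectionVars false

open MeasureTheory Set Filter Topology
open scoped InnerProductSpace

namespace Pool.Agent.J4H18.DN

open Pool.Agent.W795.TQ
open H772R2.NSR (Frame prim_cont)

variable {H K : Type} [NormedAddCommGroup H] [InnerProductSpace ℝ H] [CompleteSpace H]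
  [NormedAddCommGroup K] [InnerProductSpace ℝ K] [CompleteSpace K]
  {W : Submodule ℝ (H × K)} {m : H → K} {C c ν T τ : ℝ} {F F1 : ℝ → K}
  {u u1 v v1 : ℝ → H} {z z1 y y1 : ℝ → K}

/-- the a priori bound -/
def Apz (c ε C7 : ℝ) : Prop := ∀ (H K : Type) [NormedAddCommGroup H] [InnerProductSpace ℝ H]
  [CompleteSpace H] [NormedAddCommGroup K] [InnerProductSpace ℝ K] [CompleteSpace K]
  (W : Submodule ℝ (H × K)) (m : H → K) (C ν τ : ℝ) (F F1 : ℝ → K) (u u1 : ℝ → H)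
  (z z1 : ℝ → K) (Φ G : ℝ), Frame W m C → Univ W m c → 0 < ν → FH τ F F1 →
  Str W m ν τ F u u1 z z1 → 0 ≤ Φ → (∀ t ∈ Icc 0 τ, ‖F t‖ ≤ Φ) → 0 ≤ G →
  ∫ s in (0 : ℝ)..τ, ‖F1 s‖ ^ 2 ≤ G → ∀ t0 t, 0 ≤ t0 → t0 < t → t ≤ τ →
  (‖z t0‖ ^ 2 + (Φ ^ 2 + (t - t0) * G) / ν ^ 2) * Real.sqrt (t - t0) ≤ ε * ν ^ (3 / 2 : ℝ) →
  ‖z t‖ ^ 2 ≤ C7 * (‖z t0‖ ^ 2 + (Φ ^ 2 + (t - t0) * G) / ν ^ 2)

theorem exists_apz (hode : S_ode) (he1 : S_est1) (he2 : S_est2) {c : ℝ} (hc : 0 < c) :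
    ∃ ε C7 : ℝ, 0 < ε ∧ 0 < C7 ∧ Apz c ε C7 := by
  obtain ⟨ε, C7, hε, hC7, hOd⟩ := hode c hc
  refine ⟨ε, C7, hε, hC7, ?_⟩
  intro H K _ _ _ _ _ _ W m C ν τ F F1 u u1 z z1 Φ G Fr Un hν hF S hΦ0 hΦ hG0 hG t0 t ht00 htt htτ
    hsm
  have ht : 0 < t := ht00.trans_lt htt
  have S' := S.mono htτ
  have hFH : FH t F F1 :=
    ⟨hF.memLp.mono_measure (Measure.restrict_mono (Ioc_subset_Ioc_right htτ) le_rfl),
      fun a b ha hab hb => hF.prim a b ha hab (hb.trans htτ)⟩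
  have hF1i : IntegrableOn (fun s => ‖F1 s‖ ^ 2) (Ioc 0 τ) :=
    (memLp_two_iff_integrable_sq_norm hF.memLp.aestronglyMeasurable).mp hF.memLp
  have hGle : ∫ s in t0..t, ‖F1 s‖ ^ 2 ≤ G := by
    refine le_trans ?_ hG
    rw [intervalIntegral.integral_of_le htt.le, intervalIntegral.integral_of_le (ht.le.trans htτ)]
    exact setIntegral_mono_set hF1i (Eventually.of_forall fun s => by positivity)
      (Ioc_subset_Ioc ht00 htτ).eventuallyLE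
  have hsubm : (volume.restrict (Ioc t0 t) : Measure ℝ) ≤ volume.restrict (Ioc 0 t) :=
    Measure.restrict_mono (Ioc_subset_Ioc_left ht00) le_rfl
  have hFm : MemLp F1 2 (volume.restrict (Ioc t0 t)) := hFH.memLp.mono_measure hsubm
  have hΦt : ∀ s ∈ Icc 0 t, ‖F s‖ ≤ Φ := fun s hs => hΦ s ⟨hs.1, hs.2.trans htτ⟩
  have est1 := he1 H K W m C c ν t F F1 u u1 z z1 Φ Fr Un hν ht hFH S' hΦ0 hΦt t0 ⟨ht00, htt.le⟩
  have est2 := he2 H K W m C c ν t F F1 u u1 z z1 Fr Un hν ht hFH S' t0 ⟨ht00, htt⟩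
  obtain ⟨A0, hA0⟩ := S'.bd
  have hzc : ContinuousOn z (Icc 0 t) := prim_cont S'.z1m S'.pz
  have hfin := hOd ν t0 t Φ G A0 (fun s => ‖u1 s‖) (fun s => ‖z1 s‖) (fun s => ‖F1 s‖)
    (fun s => ‖z s‖) hν htt hΦ0 hG0 (fun t => norm_nonneg _) (fun t => norm_nonneg _)
    (fun t => norm_nonneg _) (fun t => norm_nonneg _) ((S'.u1m.mono_measure hsubm).norm)
    ((S'.z1m.mono_measure hsubm).norm) hFm.norm (ae_mono hsubm hA0)
    ((hzc.mono (Icc_subset_Icc_left ht00)).norm) hGle (fun s hs => est1 s hs) (by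
      filter_upwards [est2, ae_restrict_mem measurableSet_Ioc] with s hs hsm
      refine hs.trans ?_
      gcongr) hsm t ⟨htt.le, le_rfl⟩
  exact hfin

end Pool.Agent.J4H18.DN
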