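import Pool.Agent.J4H18.DN.F2

/-!
Stability of strong solutions with respect to the initial value.
-/

set_option autoImplicit false
set_option linter.unusedSectionVars false

open MeasureTheory Set Filter Topology
open scoped InnerProductSpace

namespace Pool.Agent.J4H18.DN

open Pool.Agent.W795.TQ
open Pool.Agent.W790.TQ (toSt sq_prim)
open H772R2.NSR (Frame prim_cont)
open H772R2.NSG (St int_inner mem_cont)

variable {H K : Type} [NormedAddCommGroup H] [InnerProductSpace ℝ H] [CompleteSpace H]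
  [NormedAddCommGroup K] [InnerProductSpace ℝ K] [CompleteSpace K]
  {W : Submodule ℝ (H × K)} {m : H → K} {C c ν T τ : ℝ} {F F1 : ℝ → K}
  {u u1 v v1 : ℝ → H} {z z1 y y1 : ℝ → K}

theorem fh_mono (hF : FH T F F1) (h : τ ≤ T) : FH τ F F1 :=
  ⟨hF.memLp.mono_measure (Measure.restrict_mono (Ioc_subset_Ioc_right h) le_rfl),
    fun a b ha hab hb => hF.prim a b ha hab (hb.trans h)⟩

/-- the pointwise inequality for the difference -/
theorem diff_pt (Fr : Frame W m C) (hτ : 0 < τ) (hF : FH τ F F1)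
    (S : Str W m ν τ F u u1 z z1) (Sv : Str W m ν τ F v v1 y y1) {Zv C1 : ℝ}
    (hZ : ∀ t ∈ Icc 0 τ, ‖y t‖ ≤ Zv)
    (hC1 : ∀ p ∈ W, ‖m p.1‖ * Zv ≤ ν / 2 * ‖p.2‖ ^ 2 + C1 * ‖p.1‖ ^ 2) :
    ∀ᵐ s ∂(volume.restrict (Ioc 0 τ)),
      2 * ⟪u1 s - v1 s, u s - v s⟫_ℝ + ν * ‖z s - y s‖ ^ 2 ≤ 2 * C1 * ‖u s - v s‖ ^ 2 := by
  obtain ⟨Z, St1⟩ := toSt hF S
  obtain ⟨Z', St2⟩ := toSt hF Sv
  filter_upwards [St1.deriv_weak Fr hτ, St2.deriv_weak Fr hτ, ae_restrict_mem measurableSet_Ioc]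
    with s h1 h2 hs
  have hsI := Ioc_subset_Icc_self hs
  have mu := S.mem s hsI
  have mv := Sv.mem s hsI
  have mw : (u s - v s, z s - y s) ∈ W := W.sub_mem mu mv
  have e1 := h1 _ mw
  have e2 := h2 _ mw
  simp only at e1 e2
  have e3 := Fr.anti _ mu _ mv
  simp only at e3
  have e4 : ⟪u1 s - v1 s, u s - v s⟫_ℝ = -⟪m (u s - v s), y s⟫_ℝ - ν * ‖z s - y s‖ ^ 2 := by
    rw [inner_sub_left, e1, e2, ← e3, ← inner_sub_left, ← real_inner_self_eq_norm_sq,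
      ← real_inner_smul_left, ← inner_sub_left]
    congr 1
    rw [smul_sub]
    abel
  have e5 : -⟪m (u s - v s), y s⟫_ℝ ≤ ‖m (u s - v s)‖ * Zv := by
    have h3 := abs_real_inner_le_norm (m (u s - v s)) (y s)
    have h4 := neg_abs_le ⟪m (u s - v s), y s⟫_ℝ
    have h5 : ‖m (u s - v s)‖ * ‖y s‖ ≤ ‖m (u s - v s)‖ * Zv := by
      have := hZ s hsI
      gcongr
    linarith
  have e6 := hC1 _ mw
  simp only at e6
  rw [e4]
  linarith

/-- the estimate of the difference -/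
theorem diff_est (Fr : Frame W m C) (hν : 0 < ν) (hτ : 0 < τ) (hF : FH τ F F1)
    (S : Str W m ν τ F u u1 z z1) (Sv : Str W m ν τ F v v1 y y1) {Zv C1 : ℝ}
    (hZ : ∀ t ∈ Icc 0 τ, ‖y t‖ ≤ Zv) (hC10 : 0 ≤ C1)
    (hC1 : ∀ p ∈ W, ‖m p.1‖ * Zv ≤ ν / 2 * ‖p.2‖ ^ 2 + C1 * ‖p.1‖ ^ 2) {δ : ℝ} (hδ : 0 < δ)
    (h0 : ‖u 0 - v 0‖ ≤ δ) :
    (∀ t ∈ Icc 0 τ, ‖u t - v t‖ ^ 2 ≤ 2 * δ ^ 2 * Real.exp (2 * C1 * τ + 1)) ∧
    ν * (∫ s in (0 : ℝ)..τ, ‖z s - y s‖ ^ 2)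
      ≤ δ ^ 2 * (1 + 4 * C1 * τ * Real.exp (2 * C1 * τ + 1)) := by
  have hpt := diff_pt Fr hτ hF S Sv hZ hC1
  have h1 : MemLp (fun s => u1 s - v1 s) 2 (volume.restrict (Ioc 0 τ)) := S.u1m.sub Sv.u1m
  have hg : ∀ a b, 0 ≤ a → a ≤ b → b ≤ τ → (u b - v b) - (u a - v a)
      = ∫ s in a..b, (u1 s - v1 s) := by
    intro a b ha hab hb
    have i1 : IntervalIntegrable u1 volume a b := by
      rw [intervalIntegrable_iff_integrableOn_Ioc_of_le hab]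
      exact ((S.u1m.integrable (by norm_num)).mono_measure
        (Measure.restrict_mono (Ioc_subset_Ioc ha hb) le_rfl))
    have i2 : IntervalIntegrable v1 volume a b := by
      rw [intervalIntegrable_iff_integrableOn_Ioc_of_le hab]
      exact ((Sv.u1m.integrable (by norm_num)).mono_measure
        (Measure.restrict_mono (Ioc_subset_Ioc ha hb) le_rfl))
    rw [intervalIntegral.integral_sub i1 i2, ← S.pu a b ha hab hb, ← Sv.pu a b ha hab hb]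
    abel
  have hgc : ContinuousOn (fun s => u s - v s) (Icc 0 τ) := prim_cont h1 hg
  have hzc : ContinuousOn z (Icc 0 τ) := prim_cont S.z1m S.pz
  have hyc : ContinuousOn y (Icc 0 τ) := prim_cont Sv.z1m Sv.pz
  have hgr := gron_sq (T := τ) (g := fun s => u s - v s) h1 hg (β := fun _ => 2 * C1)
    (γ := fun _ => 0) (κ := fun _ => 0) continuousOn_const continuousOn_const continuousOn_const
    (fun s _ => by positivity) (fun s _ => le_rfl) (fun s _ => le_rfl) (B := 2 * C1 * τ) (Γ := δ)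
    (Kp := 0) (by simp; linarith) (by simp; exact hδ.le) hδ (by simp) (by
      filter_upwards [hpt] with s hs
      have : 0 ≤ ν * ‖z s - y s‖ ^ 2 := by positivity
      simp only [zero_mul, mul_zero, add_zero]
      linarith)
  have hb : ∀ t ∈ Icc 0 τ, ‖u t - v t‖ ^ 2 ≤ 2 * δ ^ 2 * Real.exp (2 * C1 * τ + 1) := by
    intro t ht
    refine (hgr t ht).trans ?_
    have : ‖u 0 - v 0‖ ^ 2 ≤ δ ^ 2 := by gcongr
    have h2 := Real.exp_pos (2 * C1 * τ + 1)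
    have h3 : ‖u 0 - v 0‖ ^ 2 + δ ^ 2 + 0 ≤ 2 * δ ^ 2 := by linarith
    gcongr
  refine ⟨hb, ?_⟩
  have e1 := sq_prim h1 hg le_rfl hτ.le le_rfl
  have i1 : IntegrableOn (fun s => 2 * ⟪u1 s - v1 s, u s - v s⟫_ℝ) (Ioc 0 τ) :=
    (int_inner h1 (mem_cont hgc)).const_mul 2
  have i2 : IntegrableOn (fun s => ν * ‖z s - y s‖ ^ 2) (Ioc 0 τ) := by
    have : ContinuousOn (fun s => ν * ‖z s - y s‖ ^ 2) (Icc 0 τ) :=
      continuousOn_const.mul ((hzc.sub hyc).norm.pow 2)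
    exact this.integrableOn_Icc.mono_set Ioc_subset_Icc_self
  have i3 : IntegrableOn (fun _ : ℝ => 2 * C1 * (2 * δ ^ 2 * Real.exp (2 * C1 * τ + 1)))
      (Ioc 0 τ) := by
    exact continuousOn_const.integrableOn_Icc.mono_set Ioc_subset_Icc_self
  have h3 : ∫ s in (0 : ℝ)..τ, (2 * ⟪u1 s - v1 s, u s - v s⟫_ℝ + ν * ‖z s - y s‖ ^ 2)
      ≤ ∫ s in (0 : ℝ)..τ, (2 * C1 * (2 * δ ^ 2 * Real.exp (2 * C1 * τ + 1))) := by
    rw [intervalIntegral.integral_of_le hτ.le, intervalIntegral.integral_of_le hτ.le]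
    refine integral_mono_ae (i1.add i2) i3 ?_
    filter_upwards [hpt, ae_restrict_mem measurableSet_Ioc] with s k1 k2
    refine k1.trans ?_
    have := hb s (Ioc_subset_Icc_self k2)
    gcongr
  have q1 : IntervalIntegrable (fun s => 2 * ⟪u1 s - v1 s, u s - v s⟫_ℝ) volume 0 τ := by
    rwa [intervalIntegrable_iff_integrableOn_Ioc_of_le hτ.le]
  have q2 : IntervalIntegrable (fun s => ν * ‖z s - y s‖ ^ 2) volume 0 τ := by
    rwa [intervalIntegrable_iff_integrableOn_Ioc_of_le hτ.le]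
  rw [intervalIntegral.integral_add q1 q2, ← e1, intervalIntegral.integral_const_mul,
    intervalIntegral.integral_const] at h3
  have h4 : ‖u 0 - v 0‖ ^ 2 ≤ δ ^ 2 := by gcongr
  have h5 : 0 ≤ ‖u τ - v τ‖ ^ 2 := by positivity
  simp only [sub_zero, smul_eq_mul] at h3
  nlinarith

/-- a good time in an interval -/
theorem good_time {f : ℝ → ℝ} {a b θ : ℝ} (hab : a < b) (hf : ContinuousOn f (Icc a b))
    (h : ∫ s in a..b, f s < (b - a) * θ) : ∃ t0 ∈ Ioo a b, f t0 ≤ θ := by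
  by_contra hcon
  push Not at hcon
  have h1 : ∫ _ in a..b, θ ≤ ∫ s in a..b, f s := by
    refine intervalIntegral.integral_mono_on_of_le_Ioo hab.le intervalIntegrable_const ?_
      fun s hs => (hcon s hs).le
    refine ContinuousOn.intervalIntegrable ?_
    rwa [uIcc_of_le hab.le]
  rw [intervalIntegral.integral_const, smul_eq_mul] at h1
  linarith

/-- **Stability**: bounded in `V` and close in `H`. -/
theorem vstab (hloc : S_loc) {c ε C7 : ℝ} (hε : 0 < ε) (hC7 : 0 < C7) (hap : Apz c ε C7)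
    (Fr : Frame W m C) (Un : Univ W m c)
    (hcomp : ∀ R : ℝ, TotallyBounded {v : H | ∃ z, (v, z) ∈ W ∧ ‖z‖ ≤ R}) (hν : 0 < ν)
    (hT : 0 < T) (hF : FH T F F1) (Sv : Str W m ν T F v v1 y y1) {η : ℝ} (hη : 0 < η) :
    ∃ δ : ℝ, 0 < δ ∧ ∀ (x0 g0 : H) (z0 : K), (x0, z0) ∈ W →
      (∀ p ∈ W, ⟪F 0 - ν • z0 + m x0, p.2⟫_ℝ = ⟪g0, p.1⟫_ℝ) → ‖x0 - v 0‖ ≤ δ → ‖z0 - y 0‖ ≤ 1 →
      ∃ (u u1 : ℝ → H) (z z1 : ℝ → K), Str W m ν T F u u1 z z1 ∧ u 0 = x0 ∧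
        ∀ t ∈ Icc 0 T, ‖u t - v t‖ ≤ η := by
  have hFc : ContinuousOn F (Icc 0 T) := prim_cont hF.memLp hF.prim
  have hyc : ContinuousOn y (Icc 0 T) := prim_cont Sv.z1m Sv.pz
  obtain ⟨Φ, hΦ0, hΦ⟩ : ∃ Φ : ℝ, 0 ≤ Φ ∧ ∀ t ∈ Icc 0 T, ‖F t‖ ≤ Φ := by
    obtain ⟨B, hB⟩ := (isCompact_Icc.image_of_continuousOn hFc).isBounded.exists_norm_le
    exact ⟨max B 0, le_max_right _ _, fun t ht => (hB _ ⟨t, ht, rfl⟩).trans (le_max_left _ _)⟩
  obtain ⟨Zv, hZv0, hZv⟩ : ∃ Z : ℝ, 0 ≤ Z ∧ ∀ t ∈ Icc 0 T, ‖y t‖ ≤ Z := by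
    obtain ⟨B, hB⟩ := (isCompact_Icc.image_of_continuousOn hyc).isBounded.exists_norm_le
    exact ⟨max B 0, le_max_right _ _, fun t ht => (hB _ ⟨t, ht, rfl⟩).trans (le_max_left _ _)⟩
  set G : ℝ := ∫ s in (0 : ℝ)..T, ‖F1 s‖ ^ 2 with hG
  have hG0 : 0 ≤ G := intervalIntegral.integral_nonneg hT.le fun s _ => by positivity
  have hF1i : IntegrableOn (fun s => ‖F1 s‖ ^ 2) (Ioc 0 T) :=
    (memLp_two_iff_integrable_sq_norm hF.memLp.aestronglyMeasurable).mp hF.memLp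
  obtain ⟨C1, hC10, hC1⟩ := m_young' Un (Z := Zv) hZv0 (η := ν / 2) (by positivity)
  set M : ℝ := Zv + 1 with hM
  set K2 : ℝ := M ^ 2 + (Φ ^ 2 + T * G) / ν ^ 2 with hK2
  have hK20 : 0 < K2 := by positivity
  have hν32 : 0 < ν ^ (3 / 2 : ℝ) := Real.rpow_pos_of_pos hν _
  obtain ⟨h, hh0, hhK⟩ : ∃ h : ℝ, 0 < h ∧ K2 * Real.sqrt h ≤ ε * ν ^ (3 / 2 : ℝ) := by
    refine ⟨((ε * ν ^ (3 / 2 : ℝ)) / K2) ^ 2, by positivity, ?_⟩
    rw [Real.sqrt_sq (by positivity)]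
    field_simp
    exact le_rfl
  set A : ℝ := Real.exp (2 * C1 * T + 1) with hA
  have hA0 : 0 < A := Real.exp_pos _
  set B : ℝ := 1 + 4 * C1 * T * A with hB
  have hB0 : 0 < B := by positivity
  set δ : ℝ := min (η / Real.sqrt (2 * A)) (Real.sqrt (ν * h / (2 * B))) with hδ
  have hδ0 : 0 < δ := lt_min (by positivity) (Real.sqrt_pos.2 (by positivity))
  refine ⟨δ, hδ0, ?_⟩
  intro x0 g0 z0 hm0 hg0 hx0 hz0
  have hz0n : ‖z0‖ ≤ M := by
    have h1 := hZv 0 ⟨le_rfl, hT.le⟩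
    have h2 := norm_sub_norm_le z0 (y 0)
    linarith
  set N : ℝ := Real.sqrt (C7 * K2) + M + 1 with hN
  obtain ⟨τ, u, u1, z, z1, hτ, hτT, S, hu0, hend⟩ := hloc H K W m C ν T F F1 x0 g0 z0 N Fr hcomp
    hν hT hF hm0 hg0 (by
      have := Real.sqrt_nonneg (C7 * K2)
      linarith)
  have hz0' : z 0 = z0 := by
    have h1 : (u 0, z 0) ∈ W := S.mem 0 ⟨le_rfl, hτ.le⟩
    rw [hu0] at h1
    have h2 : (x0, z 0) - (x0, z0) ∈ W := W.sub_mem h1 hm0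
    have h3 := Fr.uniq _ h2 (by simp)
    simpa [sub_eq_zero] using h3
  have Svτ := Sv.mono hτT
  have hd := diff_est Fr hν hτ (fh_mono hF hτT) S Svτ (Zv := Zv) (C1 := C1)
    (fun t ht => hZv t ⟨ht.1, ht.2.trans hτT⟩) hC10 hC1 hδ0 (by rw [hu0]; exact hx0)
  have hAτ : Real.exp (2 * C1 * τ + 1) ≤ A := by
    rw [hA]
    have : 2 * C1 * τ ≤ 2 * C1 * T := by gcongr
    exact Real.exp_le_exp.2 (by linarith)
  have hη' : ∀ t ∈ Icc 0 τ, ‖u t - v t‖ ≤ η := by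
    intro t ht
    have h1 := hd.1 t ht
    have h2 : δ ^ 2 ≤ η ^ 2 / (2 * A) := by
      calc δ ^ 2 ≤ (η / Real.sqrt (2 * A)) ^ 2 := by
            have := min_le_left (η / Real.sqrt (2 * A)) (Real.sqrt (ν * h / (2 * B)))
            gcongr
        _ = _ := by rw [div_pow, Real.sq_sqrt (by positivity)]
    have h3 : ‖u t - v t‖ ^ 2 ≤ η ^ 2 := by
      calc ‖u t - v t‖ ^ 2 ≤ 2 * δ ^ 2 * Real.exp (2 * C1 * τ + 1) := h1
        _ ≤ 2 * (η ^ 2 / (2 * A)) * A := by gcongr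
        _ = η ^ 2 := by field_simp
    exact (pow_le_pow_iff_left₀ (norm_nonneg _) hη.le (by norm_num)).mp h3
  have hI : ∫ s in (0 : ℝ)..τ, ‖z s - y s‖ ^ 2 ≤ h / 2 := by
    have h1 := hd.2
    have h2 : δ ^ 2 ≤ ν * h / (2 * B) := by
      calc δ ^ 2 ≤ (Real.sqrt (ν * h / (2 * B))) ^ 2 := by
            have := min_le_right (η / Real.sqrt (2 * A)) (Real.sqrt (ν * h / (2 * B)))
            gcongr
        _ = _ := Real.sq_sqrt (by positivity)
    have h3 : 1 + 4 * C1 * τ * Real.exp (2 * C1 * τ + 1) ≤ B := by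
      rw [hB]
      gcongr
    have h4 : ν * (∫ s in (0 : ℝ)..τ, ‖z s - y s‖ ^ 2) ≤ ν * (h / 2) := by
      calc _ ≤ δ ^ 2 * (1 + 4 * C1 * τ * Real.exp (2 * C1 * τ + 1)) := h1
        _ ≤ (ν * h / (2 * B)) * B := by gcongr
        _ = ν * (h / 2) := by field_simp
    exact le_of_mul_le_mul_left h4 hν
  have hzc : ContinuousOn z (Icc 0 τ) := prim_cont S.z1m S.pz
  have hyc' : ContinuousOn y (Icc 0 τ) := hyc.mono (Icc_subset_Icc_right hτT)
  -- a good time before the end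
  have hgood : ∃ t0, 0 ≤ t0 ∧ t0 < τ ∧ τ - t0 ≤ h ∧ ‖z t0‖ ≤ M := by
    by_cases hle : τ ≤ h
    · exact ⟨0, le_rfl, hτ, by linarith, by rw [hz0']; exact hz0n⟩
    · push Not at hle
      have hc : ContinuousOn (fun s => ‖z s - y s‖ ^ 2) (Icc 0 τ) := (hzc.sub hyc').norm.pow 2
      have hsub : ∫ s in (τ - h)..τ, ‖z s - y s‖ ^ 2 ≤ h / 2 := by
        refine le_trans ?_ hI
        exact intervalIntegral.integral_mono_interval (by linarith) (by linarith) le_rfl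
          (Eventually.of_forall fun s => by positivity)
          (ContinuousOn.intervalIntegrable (by rw [uIcc_of_le hτ.le]; exact hc))
      obtain ⟨t0, ht0, hle0⟩ := good_time (a := τ - h) (b := τ) (θ := 1) (by linarith)
        (hc.mono (Icc_subset_Icc_left (by linarith))) (by
          have : τ - (τ - h) = h := by ring
          rw [this]
          linarith)
      refine ⟨t0, by linarith [ht0.1], ht0.2, by linarith [ht0.1], ?_⟩
      have h1 : ‖z t0 - y t0‖ ≤ 1 := by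
        by_contra hcon
        push Not at hcon
        nlinarith [norm_nonneg (z t0 - y t0)]
      have h2 := hZv t0 ⟨by linarith [ht0.1], by linarith [ht0.2]⟩
      have h3 := norm_sub_norm_le (z t0) (y t0)
      linarith
  obtain ⟨t0, ht00, ht0τ, ht0h, hzt0⟩ := hgood
  have hGτ : ∫ s in (0 : ℝ)..τ, ‖F1 s‖ ^ 2 ≤ G := by
    rw [hG, intervalIntegral.integral_of_le hτ.le, intervalIntegral.integral_of_le hT.le]
    exact setIntegral_mono_set hF1i (Eventually.of_forall fun s => by positivity)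
      (Ioc_subset_Ioc_right hτT).eventuallyLE
  have hb1 : ‖z t0‖ ^ 2 + (Φ ^ 2 + (τ - t0) * G) / ν ^ 2 ≤ K2 := by
    rw [hK2]
    have : τ - t0 ≤ T := by linarith
    gcongr
  have hb0 : 0 ≤ ‖z t0‖ ^ 2 + (Φ ^ 2 + (τ - t0) * G) / ν ^ 2 := by
    have : 0 ≤ τ - t0 := by linarith
    positivity
  have hfin := hap H K W m C ν τ F F1 u u1 z z1 Φ G Fr Un hν (fh_mono hF hτT) S hΦ0
    (fun t ht => hΦ t ⟨ht.1, ht.2.trans hτT⟩) hG0 hGτ t0 τ ht00 ht0τ le_rfl (by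
      calc (‖z t0‖ ^ 2 + (Φ ^ 2 + (τ - t0) * G) / ν ^ 2) * Real.sqrt (τ - t0)
          ≤ K2 * Real.sqrt h := by gcongr
        _ ≤ _ := hhK)
  have hzτ : ‖z τ‖ < N := by
    have h1 : ‖z τ‖ ^ 2 ≤ C7 * K2 := hfin.trans (by gcongr)
    have h2 : ‖z τ‖ ≤ Real.sqrt (C7 * K2) := Real.le_sqrt_of_sq_le h1
    have h3 : 0 ≤ M := by positivity
    linarith
  rcases hend with h1 | h1
  · subst h1
    exact ⟨u, u1, z, z1, S, hu0, hη'⟩
  · exact absurd h1 (not_le.2 hzτ)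

end Pool.Agent.J4H18.DN
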