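import Pool.Agent.J4H18.DN.F3
import Pool.Agent.Y303.NF.Sym
import Pool.Agent.Y303.NF.Pub

/-!
Strong solutions without force: decay, and continuation if the energy is small.
-/

set_option autoImplicit false
set_option linter.unusedSectionVars false

open MeasureTheory Set Filter Topology
open scoped InnerProductSpace

namespace Pool.Agent.J4H18.DN

open Pool.Agent.W795.TQ
open Pool.Agent.Y303.NF (str_unique)
open H772R2.NSR (Frame prim_cont)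

variable {H K : Type} [NormedAddCommGroup H] [InnerProductSpace ℝ H] [CompleteSpace H]
  [NormedAddCommGroup K] [InnerProductSpace ℝ K] [CompleteSpace K]
  {W : Submodule ℝ (H × K)} {m : H → K} {C c ν T τ : ℝ}
  {u u1 v v1 : ℝ → H} {z z1 y y1 : ℝ → K}

theorem fh_zero (T : ℝ) : FH T (fun _ => (0 : K)) (fun _ => 0) :=
  ⟨MemLp.zero, fun a b _ _ _ => by simp⟩

/-- energy equality between two times -/
theorem en_two (S : Str W m ν T (fun _ => (0 : K)) u u1 z z1) {s t : ℝ} (hs : 0 ≤ s) (hst : s ≤ t)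
    (ht : t ≤ T) : ‖u t‖ ^ 2 / 2 + ν * (∫ r in s..t, ‖z r‖ ^ 2) = ‖u s‖ ^ 2 / 2 := by
  have h1 := S.energy t ⟨hs.trans hst, ht⟩
  have h2 := S.energy s ⟨hs, hst.trans ht⟩
  have hzc : ContinuousOn z (Icc 0 T) := prim_cont S.z1m S.pz
  have i : ∀ a b, 0 ≤ a → a ≤ b → b ≤ T → IntervalIntegrable (fun r => ‖z r‖ ^ 2) volume a b := by
    intro a b ha hab hb
    refine ContinuousOn.intervalIntegrable ?_
    rw [uIcc_of_le hab]
    exact (hzc.norm.pow 2).mono (Icc_subset_Icc ha hb)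
  have h3 := intervalIntegral.integral_add_adjacent_intervals (i 0 s le_rfl hs (hst.trans ht))
    (i s t hs hst ht)
  simp only [inner_zero_left, intervalIntegral.integral_zero, add_zero] at h1 h2
  rw [← h3] at h1
  linarith

theorem en_mono (hν : 0 < ν) (S : Str W m ν T (fun _ => (0 : K)) u u1 z z1) {s t : ℝ} (hs : 0 ≤ s)
    (hst : s ≤ t) (ht : t ≤ T) : ‖u t‖ ≤ ‖u s‖ := by
  have h1 := en_two S hs hst ht
  have h2 : 0 ≤ ν * (∫ r in s..t, ‖z r‖ ^ 2) :=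
    mul_nonneg hν.le (intervalIntegral.integral_nonneg hst fun r _ => by positivity)
  have h3 : ‖u t‖ ^ 2 ≤ ‖u s‖ ^ 2 := by linarith
  exact (pow_le_pow_iff_left₀ (norm_nonneg _) (norm_nonneg _) (by norm_num)).mp h3

/-- decay -/
theorem decay (Fr : Frame W m C) (hν : 0 < ν) (hT : 0 < T)
    (S : Str W m ν T (fun _ => (0 : K)) u u1 z z1) :
    T * ‖u T‖ ^ 2 ≤ C ^ 2 * ‖u 0‖ ^ 2 / (2 * ν) := by
  have hzc : ContinuousOn z (Icc 0 T) := prim_cont S.z1m S.pz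
  have huc : ContinuousOn u (Icc 0 T) := prim_cont S.u1m S.pu
  have h1 := en_two S le_rfl hT.le le_rfl
  have i1 : IntervalIntegrable (fun r => C ^ 2 * ‖z r‖ ^ 2) volume 0 T := by
    refine ContinuousOn.intervalIntegrable ?_
    rw [uIcc_of_le hT.le]
    exact continuousOn_const.mul (hzc.norm.pow 2)
  have h2 : ∫ _ in (0 : ℝ)..T, ‖u T‖ ^ 2 ≤ ∫ r in (0 : ℝ)..T, C ^ 2 * ‖z r‖ ^ 2 := by
    refine intervalIntegral.integral_mono_on hT.le intervalIntegrable_const i1 fun r hr => ?_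
    have h3 := en_mono hν S hr.1 hr.2 le_rfl
    have h4 := Fr.poinc _ (S.mem r hr)
    calc ‖u T‖ ^ 2 ≤ ‖u r‖ ^ 2 := by gcongr
      _ ≤ (C * ‖z r‖) ^ 2 := by gcongr
      _ = _ := by ring
  rw [intervalIntegral.integral_const, intervalIntegral.integral_const_mul, smul_eq_mul,
    sub_zero] at h2
  have h5 : ν * (∫ r in (0 : ℝ)..T, ‖z r‖ ^ 2) ≤ ‖u 0‖ ^ 2 / 2 := by
    have : 0 ≤ ‖u T‖ ^ 2 / 2 := by positivity
    linarith
  have h6 : (∫ r in (0 : ℝ)..T, ‖z r‖ ^ 2) ≤ ‖u 0‖ ^ 2 / (2 * ν) := by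
    rw [le_div_iff₀ (by positivity)]
    linarith
  calc T * ‖u T‖ ^ 2 ≤ C ^ 2 * ∫ r in (0 : ℝ)..T, ‖z r‖ ^ 2 := h2
    _ ≤ C ^ 2 * (‖u 0‖ ^ 2 / (2 * ν)) := by gcongr
    _ = _ := by ring

/-- **Continuation.** -/
theorem gext (hloc : S_loc) (huni : S_uni) {c ε C7 : ℝ} (hε : 0 < ε) (hC7 : 0 < C7)
    (hap : Apz c ε C7) (Fr : Frame W m C) (Un : Univ W m c)
    (hcomp : ∀ R : ℝ, TotallyBounded {v : H | ∃ z, (v, z) ∈ W ∧ ‖z‖ ≤ R}) (hν : 0 < ν)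
    (hT : 1 ≤ T) (S : Str W m ν T (fun _ => (0 : K)) u u1 z z1) {g0 : H}
    (hg0 : ∀ p ∈ W, ⟪(0 : K) - ν • z 0 + m (u 0), p.2⟫_ℝ = ⟪g0, p.1⟫_ℝ)
    (hsm : ‖u (T - 1)‖ ^ 2 ≤ ε * ν ^ (3 / 2 : ℝ) * ν) {T' : ℝ} (hT' : T ≤ T') :
    ∃ (w w1 : ℝ → H) (ζ ζ1 : ℝ → K), Str W m ν T' (fun _ => (0 : K)) w w1 ζ ζ1 ∧ w 0 = u 0 := by
  have hT0 : 0 < T := by linarith
  have hT'0 : 0 < T' := by linarith
  have hzc : ContinuousOn z (Icc 0 T) := prim_cont S.z1m S.pz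
  obtain ⟨M1, hM10, hM1⟩ : ∃ Z : ℝ, 0 ≤ Z ∧ ∀ t ∈ Icc 0 T, ‖z t‖ ≤ Z := by
    obtain ⟨B, hB⟩ := (isCompact_Icc.image_of_continuousOn hzc).isBounded.exists_norm_le
    exact ⟨max B 0, le_max_right _ _, fun t ht => (hB _ ⟨t, ht, rfl⟩).trans (le_max_left _ _)⟩
  have hν32 : 0 < ν ^ (3 / 2 : ℝ) := Real.rpow_pos_of_pos hν _
  set θ : ℝ := ε * ν ^ (3 / 2 : ℝ) with hθ
  have hθ0 : 0 < θ := by positivity
  set N : ℝ := M1 + Real.sqrt (C7 * θ) + 1 with hN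
  have hs0 := Real.sqrt_nonneg (C7 * θ)
  obtain ⟨τ, w, w1, ζ, ζ1, hτ, hτT, Sw, hw0, hend⟩ := hloc H K W m C ν T' (fun _ => (0 : K))
    (fun _ => 0) (u 0) g0 (z 0) N Fr hcomp hν hT'0 (fh_zero T')
    (S.mem 0 ⟨le_rfl, hT0.le⟩) hg0 (by
      have := hM1 0 ⟨le_rfl, hT0.le⟩
      linarith)
  rcases hend with h1 | h1
  · subst h1
    exact ⟨w, w1, ζ, ζ1, Sw, hw0⟩
  exfalso
  have hzeq : ∀ t ∈ Icc 0 (min τ T), w t = u t ∧ ζ t = z t := by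
    have hm0 : 0 < min τ T := lt_min hτ hT0
    have h2 := str_unique huni Fr hν hT0 hm0 (min_le_right τ T) continuousOn_const S
      (Sw.mono (min_le_left τ T)) hw0
    intro t ht
    have h3 := h2 t ht
    refine ⟨h3.symm, ?_⟩
    have h4 := Sw.mem t ⟨ht.1, ht.2.trans (min_le_left _ _)⟩
    have h5 := S.mem t ⟨ht.1, ht.2.trans (min_le_right _ _)⟩
    rw [h3] at h5
    have h6 := Fr.uniq _ (W.sub_mem h4 h5) (by simp)
    simpa [sub_eq_zero] using h6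
  by_cases hle : τ ≤ T
  · have h2 := (hzeq τ ⟨hτ.le, by rw [min_eq_left hle]⟩).2
    rw [h2] at h1
    have h3 := hM1 τ ⟨hτ.le, hle⟩
    linarith
  · push Not at hle
    have hmin : min τ T = T := min_eq_right hle.le
    rw [hmin] at hzeq
    have hζc : ContinuousOn ζ (Icc 0 τ) := prim_cont Sw.z1m Sw.pz
    have e1 := en_two Sw (s := τ - 1) (t := τ) (by linarith) (by linarith) le_rfl
    have e2 : ‖w (τ - 1)‖ ≤ ‖w (T - 1)‖ :=
      en_mono hν Sw (by linarith) (by linarith) (by linarith)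
    have e3 : w (T - 1) = u (T - 1) := (hzeq (T - 1) ⟨by linarith, by linarith⟩).1
    rw [e3] at e2
    have e4 : ‖w (τ - 1)‖ ^ 2 ≤ θ * ν := by
      calc ‖w (τ - 1)‖ ^ 2 ≤ ‖u (T - 1)‖ ^ 2 := by gcongr
        _ ≤ θ * ν := hsm
    have e5 : ν * (∫ r in (τ - 1)..τ, ‖ζ r‖ ^ 2) ≤ θ * ν / 2 := by
      have : 0 ≤ ‖w τ‖ ^ 2 / 2 := by positivity
      linarith
    have e6 : (∫ r in (τ - 1)..τ, ‖ζ r‖ ^ 2) ≤ θ / 2 := by
      have : ν * (∫ r in (τ - 1)..τ, ‖ζ r‖ ^ 2) ≤ ν * (θ / 2) := by linarith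
      exact le_of_mul_le_mul_left this hν
    obtain ⟨t0, ht0, hle0⟩ := good_time (a := τ - 1) (b := τ) (θ := θ)
      (f := fun r => ‖ζ r‖ ^ 2) (by linarith)
      ((hζc.norm.pow 2).mono (Icc_subset_Icc_left (by linarith))) (by
        have : τ - (τ - 1) = 1 := by ring
        rw [this]
        linarith)
    have hfin := hap H K W m C ν τ (fun _ => (0 : K)) (fun _ => 0) w w1 ζ ζ1 0 0 Fr Un hν
      (fh_zero τ) Sw le_rfl (fun t _ => by simp) le_rfl (by simp) t0 τ (by linarith [ht0.1]) ht0.2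
      le_rfl (by
        have h4 : Real.sqrt (τ - t0) ≤ 1 := by
          refine Real.sqrt_le_iff.2 ⟨by norm_num, ?_⟩
          have := ht0.1
          nlinarith
        have h5 : ‖ζ t0‖ ^ 2 + (0 ^ 2 + (τ - t0) * 0) / ν ^ 2 = ‖ζ t0‖ ^ 2 := by simp
        rw [h5]
        calc ‖ζ t0‖ ^ 2 * Real.sqrt (τ - t0) ≤ θ * 1 := by gcongr
          _ = θ := mul_one _)
    have h5 : ‖ζ t0‖ ^ 2 + (0 ^ 2 + (τ - t0) * 0) / ν ^ 2 = ‖ζ t0‖ ^ 2 := by simp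
    rw [h5] at hfin
    have h6 : ‖ζ τ‖ ^ 2 ≤ C7 * θ := hfin.trans (by gcongr)
    have h7 : ‖ζ τ‖ ≤ Real.sqrt (C7 * θ) := Real.le_sqrt_of_sq_le h6
    linarith

end Pool.Agent.J4H18.DN
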