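import Pool.Agent.J4H18.DN.F4
import Pool.Agent.J4H18.DN.E7

/-!
The compatibility condition of a test field, and the general approximation of functionals.
-/

set_option autoImplicit false
set_option linter.unusedSectionVars false

open MeasureTheory Set Filter Topology
open scoped InnerProductSpace ENNReal ContDiff NNReal

namespace Pool.Agent.J4H18.DN

open H772R2.NS
open H772R2.NSR (compat_ext exists_poinc)
open Pool.Agent.W795.TQ
open Pool.Agent.W52.TQ (ibp tns)
open Pool.Agent.Y303.LV (cl clj clj_coe lap ibp_lap)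


variable {Ω : Set E3}

/-- the compatibility condition of a test field -/
theorem compat_test {φ : E3 → E3} (hm : MeasurableSet Ω) (hφ : IsTest Ω φ) (ν : ℝ) {F0 : L2M Ω}
    {f0 : L2V Ω} (hf : ∀ p ∈ graphW Ω, ⟪F0, p.2⟫_ℝ = ⟪f0, p.1⟫_ℝ) :
    ∃ g : L2V Ω, ∀ p ∈ graphW Ω,
      ⟪F0 - ν • clj Ω φ + tensL (cl Ω φ), p.2⟫_ℝ = ⟪g, p.1⟫_ℝ := by
  have cφ : ∀ i, ContDiff ℝ ∞ (fun x => φ x i) := fun i => contDiff_coord hφ.smooth i
  have eJ : ∀ i j, (fun x => jac φ x (i, j)) = pd j (fun x => φ x i) := fun i j => by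
    funext x
    rw [jac_pd hφ.smooth]
  have cJ : ∀ i j, ContDiff ℝ ∞ (fun x => jac φ x (i, j)) := fun i j => by
    rw [eJ]
    exact cd_pd (cφ i) j
  have cL : ∀ i, ContDiff ℝ ∞ (fun x => lap φ x i) := fun i =>
    ContDiff.sum fun j _ => cd_pd (cJ i j) j
  have hJ0 : ∀ x, x ∉ tsupport φ → jac φ x = 0 := fun x hx =>
    image_eq_zero_of_notMem_tsupport fun h => hx (tsupport_jac_subset h)
  have hL0 : ∀ x, x ∉ tsupport φ → ∀ i, lap φ x i = 0 := by
    intro x hx i
    refine Finset.sum_eq_zero fun j _ => ?_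
    have h1 : tsupport (fun y => jac φ y (i, j)) ⊆ tsupport φ := by
      have hs : Function.support (fun y => jac φ y (i, j)) ⊆ Function.support (jac φ) := by
        intro y hy h0
        refine hy ?_
        have h0' : jac φ y = 0 := h0
        show jac φ y (i, j) = 0
        rw [h0']
        rfl
      exact (closure_mono hs).trans tsupport_jac_subset
    have h2 : fderiv ℝ (fun y => jac φ y (i, j)) x = 0 := by
      apply image_eq_zero_of_notMem_tsupport
      exact fun h => hx (h1 ((tsupport_fderiv_subset ℝ) h))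
    rw [h2]
    rfl
  set a : Fin 3 → E3 → ℝ := fun i x => ν * lap φ x i with ha
  set b : Fin 3 → E3 → ℝ := fun i x => ∑ j, φ x j * jac φ x (i, j) with hb
  have ca : ∀ i, Continuous (a i) := fun i => continuous_const.mul (cL i).continuous
  have cb : ∀ i, Continuous (b i) := fun i =>
    continuous_finsetSum _ fun j _ => (cφ j).continuous.mul (cJ i j).continuous
  have ha0 : ∀ i x, x ∉ tsupport φ → a i x = 0 := fun i x hx => by
    simp only [ha]
    rw [hL0 x hx, mul_zero]
  have hb0 : ∀ i x, x ∉ tsupport φ → b i x = 0 := fun i x hx => by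
    simp only [hb]
    rw [hJ0 x hx]
    simp
  have hK : IsCompact (tsupport φ) := hφ.compact
  have k1 : CK (tsupport φ) (vec a) := CK_vec ca ha0
  have k2 : CK (tsupport φ) (vec b) := CK_vec cb hb0
  refine ⟨f0 + cl Ω (vec a) - cl Ω (vec b), compat_ext ?_⟩
  rintro p ⟨ψ, j1, j2, j3⟩
  have hp : p ∈ graphW Ω := subset_closure ⟨ψ, j1, j2, j3⟩
  rw [inner_add_left, inner_sub_left, inner_sub_left, inner_add_left, hf p hp,
    real_inner_smul_left, pair_tens hm hφ j1 j3, pair_jac hm hφ j1 j3,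
    k1.inner hK hm hφ.supp j2, k2.inner hK hm hφ.supp j2, ibp hφ j1, ibp_lap hφ j1]
  have e1 : ∫ x, ∑ i, vec a x i * ψ x i = ν * ∫ x, ∑ i, lap φ x i * ψ x i := by
    rw [← integral_const_mul]
    congr 1
    funext x
    rw [Finset.mul_sum]
    refine Finset.sum_congr rfl fun i _ => ?_
    rw [vec_apply, mul_assoc]
  have e2 : ∫ x, ∑ i, vec b x i * ψ x i = ∫ x, ⟪jac φ x, tns (ψ x) (φ x)⟫_ℝ := by
    congr 1
    funext x
    rw [inner_M3]
    refine Finset.sum_congr rfl fun i _ => ?_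
    rw [vec_apply, Finset.sum_mul]
    refine Finset.sum_congr rfl fun j _ => ?_
    have : tns (ψ x) (φ x) (i, j) = ψ x i * φ x j := rfl
    rw [this]
    ring
  rw [e1, e2]
  ring

variable {H K : Type*} [NormedAddCommGroup H] [InnerProductSpace ℝ H] [CompleteSpace H]
  [NormedAddCommGroup K] [InnerProductSpace ℝ K] [CompleteSpace K]
  {W : Submodule ℝ (H × K)} {C : ℝ}

/-- every functional is given by an element of the space -/
theorem riesz2 (hW : IsClosed (W : Set (H × K))) (hC : ∀ p ∈ W, ‖p.1‖ ≤ C * ‖p.2‖) (U : K) :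
    ∃ p ∈ W, ∀ q ∈ W, ⟪p.2, q.2⟫_ℝ = ⟪U, q.2⟫_ℝ := by
  have hR : IsClosed ((LinearMap.range (sndW W : W →ₗ[ℝ] K) : Submodule ℝ K) : Set K) := by
    have := range_closed hW hC
    rwa [LinearMap.coe_range]
  set R : Submodule ℝ K := LinearMap.range (sndW W : W →ₗ[ℝ] K) with hRd
  have : CompleteSpace R := hR.completeSpace_coe
  have h1 : R.starProjection U ∈ R := Submodule.starProjection_apply_mem _ _
  obtain ⟨p, hp⟩ := h1
  refine ⟨p, p.2, fun q hq => ?_⟩
  have h2 : U - R.starProjection U ∈ Rᗮ := Submodule.sub_starProjection_mem_orthogonal _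
  have h3 : q.2 ∈ R := ⟨⟨q, hq⟩, rfl⟩
  have h4 := (Submodule.mem_orthogonal _ _).1 h2 _ h3
  rw [real_inner_comm, inner_sub_left] at h4
  have h5 : (p : H × K).2 = R.starProjection U := hp
  rw [h5]
  linarith

/-- `L²` is dense in the dual space -/
theorem approxU (hW : IsClosed (W : Set (H × K))) (hC : ∀ p ∈ W, ‖p.1‖ ≤ C * ‖p.2‖)
    (hu : ∀ q ∈ W, q.1 = 0 → q.2 = 0) (U : K) {ε : ℝ} (hε : 0 < ε) :
    ∃ f : H, ∀ q ∈ W, |⟪U, q.2⟫_ℝ - ⟪f, q.1⟫_ℝ| ≤ ε * ‖q.2‖ := by
  let S : Submodule ℝ K :=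
    { carrier := {r | ∃ g : H, ∃ p ∈ W, p.2 = r ∧ ∀ q ∈ W, ⟪p.2, q.2⟫_ℝ = ⟪g, q.1⟫_ℝ}
      add_mem' := by
        rintro a b ⟨g, p, hp, rfl, h1⟩ ⟨g', p', hp', rfl, h1'⟩
        refine ⟨g + g', p + p', W.add_mem hp hp', rfl, fun q hq => ?_⟩
        rw [Prod.snd_add, inner_add_left, inner_add_left, h1 q hq, h1' q hq]
      zero_mem' := ⟨0, 0, W.zero_mem, rfl, fun q hq => by simp⟩
      smul_mem' := by
        rintro c a ⟨g, p, hp, rfl, h1⟩
        refine ⟨c • g, c • p, W.smul_mem _ hp, rfl, fun q hq => ?_⟩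
        rw [Prod.smul_snd, real_inner_smul_left, real_inner_smul_left, h1 q hq] }
  obtain ⟨p, hp, hpf⟩ := riesz2 hW hC U
  have hS : p.2 ∈ S.topologicalClosure := by
    have : CompleteSpace S.topologicalClosure :=
      S.isClosed_topologicalClosure.completeSpace_coe
    set a : K := S.topologicalClosure.starProjection p.2 with ha
    have haS : a ∈ S.topologicalClosure := Submodule.starProjection_apply_mem _ _
    have hb : p.2 - a ∈ S.topologicalClosureᗮ := Submodule.sub_starProjection_mem_orthogonal _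
    have hr : ∀ r ∈ S.topologicalClosure, r ∈ Set.range (sndW W) := by
      intro r hr
      have h1 : (S : Set K) ⊆ Set.range (sndW W) := by
        rintro r ⟨g, p, hp, rfl, h1⟩
        exact ⟨⟨p, hp⟩, rfl⟩
      have h2 : r ∈ closure (S : Set K) := hr
      exact closure_minimal h1 (range_closed hW hC) h2
    obtain ⟨p', hp'⟩ := hr a haS
    have hp'' : (p' : H × K).2 = a := hp'
    have hq : p - (p' : H × K) ∈ W := W.sub_mem hp p'.2
    have h0 : (p - (p' : H × K)).1 = 0 := by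
      have h3 : ∀ g : H, ⟪g, (p - (p' : H × K)).1⟫_ℝ = 0 := by
        intro g
        obtain ⟨pg, hpg, h1⟩ := rieszW hW hC g
        rw [← h1 _ hq]
        have h2 : pg.2 ∈ S.topologicalClosure :=
          S.le_topologicalClosure ⟨g, pg, hpg, rfl, h1⟩
        have h3 : (p - (p' : H × K)).2 = p.2 - a := by rw [Prod.snd_sub, hp'']
        rw [h3]
        exact (Submodule.mem_orthogonal _ _).1 hb _ h2
      exact inner_self_eq_zero.1 (h3 _)
    have h1 := hu _ hq h0
    rw [Prod.snd_sub, hp'', sub_eq_zero] at h1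
    rw [h1]
    exact haS
  have h1 : p.2 ∈ closure (S : Set K) := hS
  obtain ⟨r, ⟨g, p', hp', hr, h2⟩, h3⟩ := Metric.mem_closure_iff.1 h1 ε hε
  refine ⟨g, fun q hq => ?_⟩
  rw [← hpf q hq, ← h2 q hq, ← inner_sub_left, hr]
  refine (abs_real_inner_le_norm _ _).trans ?_
  rw [dist_eq_norm] at h3
  gcongr

end Pool.Agent.J4H18.DN
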