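import Pool.Agent.J4H18.DN.F5
import Pool.Agent.W795.TQ.DPub

/-!
The energy equality of strong solutions, and the passage from the public to the internal
definition of strong solutions.
-/

set_option autoImplicit false
set_option linter.unusedSectionVars false

open MeasureTheory Set Filter Topology
open scoped InnerProductSpace ENNReal ContDiff NNReal

namespace Pool.Agent.J4H18.DN

open H772R2.NS H772R2.NS.Pub
open Pool.Agent.W795.TQ
open Pool.Agent.W790.TQ (sq_prim)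
open H772R2.NSR (pub_inner pub_rhs Frame prim_cont ae_deriv_of_prim hasDerivAt_prim memLp_ii ii_of_cont exists_frame)
open H772R2.NSG (int_inner mem_cont)

section abs

variable {H K : Type} [NormedAddCommGroup H] [InnerProductSpace ℝ H] [CompleteSpace H]
  [NormedAddCommGroup K] [InnerProductSpace ℝ K] [CompleteSpace K]
  {W : Submodule ℝ (H × K)} {m : H → K} {C c ν T τ : ℝ} {F : ℝ → K}
  {u u1 : ℝ → H} {z z1 : ℝ → K}

theorem m_contOn (Fr : Frame W m C) (hmem : ∀ t ∈ Icc 0 T, (u t, z t) ∈ W)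
    (huc : ContinuousOn u (Icc 0 T)) (hzc : ContinuousOn z (Icc 0 T)) :
    ContinuousOn (fun s => m (u s)) (Icc 0 T) := by
  obtain ⟨Z, hZ⟩ := (isCompact_Icc.image_of_continuousOn hzc).isBounded.exists_norm_le
  have hZ' : ∀ t ∈ Icc 0 T, ‖z t‖ ≤ Z := fun t ht => hZ _ ⟨t, ht, rfl⟩
  intro t ht
  rw [ContinuousWithinAt, tendsto_iff_norm_sub_tendsto_zero]
  have h1 : Tendsto (fun s => C * (‖u s - u t‖ * ‖z s - z t‖ ^ 3 * (Z + Z) ^ 4))
      (𝓝[Icc 0 T] t) (𝓝 (C * (0 * 0 ^ 3 * (Z + Z) ^ 4))) :=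
    (((tendsto_iff_norm_sub_tendsto_zero.mp (huc t ht)).mul
      ((tendsto_iff_norm_sub_tendsto_zero.mp (hzc t ht)).pow 3)).mul_const _).const_mul _
  have e0 : C * (0 * 0 ^ 3 * (Z + Z) ^ 4) = 0 := by ring
  rw [e0] at h1
  rw [Metric.tendsto_nhds]
  intro ε hε
  filter_upwards [h1.eventually (gt_mem_nhds (pow_pos hε 4)), self_mem_nhdsWithin] with s hs hsI
  rw [dist_zero_right, norm_norm]
  have h2 := Fr.lips _ (hmem s hsI) _ (hmem t ht)
  have h3 := hZ' s hsI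
  have h4 := hZ' t ht
  have hC := Fr.C0
  refine lt_of_pow_lt_pow_left₀ 4 hε.le (lt_of_le_of_lt h2 (lt_of_le_of_lt ?_ hs))
  gcongr

/-- the energy equality -/
theorem en_of_weak (Fr : Frame W m C) (hT : 0 < T) (hFc : ContinuousOn F (Icc 0 T))
    (hmem : ∀ t ∈ Icc 0 T, (u t, z t) ∈ W)
    (u1m : MemLp u1 2 (volume.restrict (Ioc 0 T))) (z1m : MemLp z1 2 (volume.restrict (Ioc 0 T)))
    (pu : ∀ a b, 0 ≤ a → a ≤ b → b ≤ T → u b - u a = ∫ s in a..b, u1 s)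
    (pz : ∀ a b, 0 ≤ a → a ≤ b → b ≤ T → z b - z a = ∫ s in a..b, z1 s)
    (weak : ∀ p ∈ W, ∀ t ∈ Icc 0 T, ⟪u t - u 0, p.1⟫_ℝ
      = ∫ s in (0 : ℝ)..t, ⟪F s - ν • z s + m (u s), p.2⟫_ℝ) {t : ℝ} (ht : t ∈ Icc 0 T) :
    ‖u t‖ ^ 2 / 2 + ν * (∫ s in (0 : ℝ)..t, ‖z s‖ ^ 2)
      = ‖u 0‖ ^ 2 / 2 + ∫ s in (0 : ℝ)..t, ⟪F s, z s⟫_ℝ := by
  have huc : ContinuousOn u (Icc 0 T) := prim_cont u1m pu
  have hzc : ContinuousOn z (Icc 0 T) := prim_cont z1m pz
  have hgc : ContinuousOn (fun s => F s - ν • z s + m (u s)) (Icc 0 T) :=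
    (hFc.sub (hzc.const_smul ν)).add (m_contOn Fr hmem huc hzc)
  have hdw : ∀ᵐ s ∂(volume.restrict (Ioc 0 T)), ∀ p ∈ W,
      ⟪u1 s, p.1⟫_ℝ = ⟪F s - ν • z s + m (u s), p.2⟫_ℝ := by
    have hne : ∀ᵐ s ∂(volume.restrict (Ioc 0 T)), s ≠ T := by
      refine ae_restrict_of_ae ?_
      simp [ae_iff, measure_singleton]
    filter_upwards [ae_deriv_of_prim hT (memLp_ii hT.le u1m) pu,
      ae_restrict_mem measurableSet_Ioc, hne] with s hd hs hsT p hp
    have hs' : s ∈ Ioo 0 T := ⟨hs.1, lt_of_le_of_ne hs.2 hsT⟩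
    have h1 : HasDerivAt (fun t => ⟪u t, p.1⟫_ℝ) ⟪u1 s, p.1⟫_ℝ s := by
      have := hd.inner ℝ (hasDerivAt_const s p.1)
      simpa using this
    have h2 : HasDerivAt (fun t => ⟪u 0, p.1⟫_ℝ + ∫ r in (0 : ℝ)..t,
        ⟪F r - ν • z r + m (u r), p.2⟫_ℝ) ⟪F s - ν • z s + m (u s), p.2⟫_ℝ s :=
      (hasDerivAt_prim (β := fun r => ⟪F r - ν • z r + m (u r), p.2⟫_ℝ)
        (hgc.inner continuousOn_const) hs').const_add _
    refine h1.unique (h2.congr_of_eventuallyEq ?_)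
    filter_upwards [Icc_mem_nhds hs'.1 hs'.2] with t ht
    rw [← weak p hp t ht, inner_sub_left]
    ring
  have h1 := sq_prim u1m pu le_rfl ht.1 ht.2
  have h2 : ∫ s in (0 : ℝ)..t, 2 * ⟪u1 s, u s⟫_ℝ
      = ∫ s in (0 : ℝ)..t, (2 * ⟪F s, z s⟫_ℝ - 2 * ν * ‖z s‖ ^ 2) := by
    rw [intervalIntegral.integral_of_le ht.1, intervalIntegral.integral_of_le ht.1]
    refine integral_congr_ae ?_
    filter_upwards [ae_mono (Measure.restrict_mono (Ioc_subset_Ioc_right ht.2) le_rfl) hdw,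
      ae_restrict_mem measurableSet_Ioc] with s k1 k2
    have hs : s ∈ Icc 0 T := ⟨k2.1.le, k2.2.trans ht.2⟩
    have e := k1 _ (hmem s hs)
    simp only at e
    have e2 := Fr.ortho _ (hmem s hs)
    simp only at e2
    rw [e, inner_add_left, inner_sub_left, e2, real_inner_smul_left, real_inner_self_eq_norm_sq]
    ring
  have i1 : IntervalIntegrable (fun s => 2 * ⟪F s, z s⟫_ℝ) volume 0 t := by
    refine ContinuousOn.intervalIntegrable ?_
    rw [uIcc_of_le ht.1]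
    exact continuousOn_const.mul ((hFc.inner hzc).mono (Icc_subset_Icc_right ht.2))
  have i2 : IntervalIntegrable (fun s => 2 * ν * ‖z s‖ ^ 2) volume 0 t := by
    refine ContinuousOn.intervalIntegrable ?_
    rw [uIcc_of_le ht.1]
    exact continuousOn_const.mul ((hzc.norm.pow 2).mono (Icc_subset_Icc_right ht.2))
  rw [h2, intervalIntegral.integral_sub i1 i2, intervalIntegral.integral_const_mul,
    intervalIntegral.integral_const_mul] at h1
  linarith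

end abs

/-- strong solutions in the sense of the public definition -/
theorem str_of_strong {Ω : Set E3} (hΩ : IsOpen Ω) {ν T C : ℝ} (hT : 0 < T) {F : ℝ → L2M Ω}
    (hF : ContinuousOn F (Icc 0 T)) {u u' : ℝ → L2V Ω} {z z' : ℝ → L2M Ω}
    (Fr : Frame (graphW Ω) (tensL (Ω := Ω)) C)
    (S : IsStrong (show Set R3 from Ω) ν T F u u' z z') :
    Str (graphW Ω) (tensL (Ω := Ω)) ν T F u u' z z' := by
  have hm : MeasurableSet Ω := hΩ.measurableSet
  have hmem : ∀ t ∈ Icc 0 T, (u t, z t) ∈ graphW Ω := fun t ht => mem_pub.mpr (S.grad t ht)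
  have pu : ∀ a b, 0 ≤ a → a ≤ b → b ≤ T → u b - u a = ∫ s in a..b, u' s := S.hu.prim
  have pz : ∀ a b, 0 ≤ a → a ≤ b → b ≤ T → z b - z a = ∫ s in a..b, z' s := S.hG.prim
  have u1m : MemLp u' 2 (volume.restrict (Ioc 0 T)) := S.hu.memLp
  have z1m : MemLp z' 2 (volume.restrict (Ioc 0 T)) := S.hG.memLp
  have huc : ContinuousOn u (Icc 0 T) := prim_cont u1m pu
  have hzc : ContinuousOn z (Icc 0 T) := prim_cont z1m pz
  have hgc : ContinuousOn (fun s => F s - ν • z s + tensL (u s)) (Icc 0 T) :=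
    (hF.sub (hzc.const_smul ν)).add (m_contOn Fr hmem huc hzc)
  have weak : ∀ p ∈ graphW Ω, ∀ t ∈ Icc 0 T, ⟪u t - u 0, p.1⟫_ℝ
      = ∫ s in (0 : ℝ)..t, ⟪F s - ν • z s + tensL (u s), p.2⟫_ℝ := by
    intro p hp t ht
    have hGt : IntervalIntegrable (fun s => F s - ν • z s + tensL (u s)) volume 0 t := by
      refine ContinuousOn.intervalIntegrable ?_
      rw [uIcc_of_le ht.1]
      exact hgc.mono (Icc_subset_Icc_right ht.2)
    set I : L2M Ω := ∫ s in (0 : ℝ)..t, (F s - ν • z s + tensL (u s)) with hI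
    have hint : ∀ q : L2V Ω × L2M Ω, ∫ s in (0 : ℝ)..t, ⟪F s - ν • z s + tensL (u s), q.2⟫_ℝ
        = ⟪I, q.2⟫_ℝ := by
      intro q
      rw [hI, intervalIntegral.integral_of_le ht.1, intervalIntegral.integral_of_le ht.1]
      have := integral_inner (𝕜 := ℝ) (hGt.1 : IntegrableOn _ _ _) q.2
      rw [real_inner_comm, ← this]
      exact integral_congr_ae (Eventually.of_forall fun s => real_inner_comm _ _)
    have key := graphW_induction (fun q : L2V Ω × L2M Ω => ⟪u t - u 0, q.1⟫_ℝ - ⟪I, q.2⟫_ℝ)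
      (by fun_prop) (by
      rintro q ⟨φ, k1, k2, k3⟩
      have e := S.eqn φ ((isTest_iff φ).mpr k1) t ht
      have e1 := pub_inner (Ω := Ω) (u t) k2
      have e2 := pub_inner (Ω := Ω) (u 0) k2
      have e3 : ∫ s in (0 : ℝ)..t, Pub.rhs (Ω := Ω) ν (u s) (z s) (F s) φ
          = ∫ s in (0 : ℝ)..t, ⟪F s - ν • z s + tensL (u s), q.2⟫_ℝ := by
        refine intervalIntegral.integral_congr ?_
        intro s hs
        rw [uIcc_of_le ht.1] at hs
        exact pub_rhs hm ν (F s) (hmem s ⟨hs.1, hs.2.trans ht.2⟩) k3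
      have h2 : ⟪u t - u 0, q.1⟫_ℝ = ⟪u t, q.1⟫_ℝ - ⟪u 0, q.1⟫_ℝ := inner_sub_left _ _ _
      have e' := ((congrArg₂ (· - ·) e1 e2).symm.trans e).trans (e3.trans (hint q))
      show ⟪u t - u 0, q.1⟫_ℝ - ⟪I, q.2⟫_ℝ = 0
      rw [h2]
      exact sub_eq_zero.mpr e') hp
    have key' : ⟪u t - u 0, p.1⟫_ℝ = ⟪I, p.2⟫_ℝ := sub_eq_zero.mp key
    rw [key', ← hint p]
  refine ⟨hmem, ?_, S.bdd, u1m, z1m, pu, pz, weak, fun t ht =>
    en_of_weak Fr hT hF hmem u1m z1m pu pz weak ht⟩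
  filter_upwards [S.gradDeriv] with t ht
  exact mem_pub.mpr ht

end Pool.Agent.J4H18.DN
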