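import Pool.Agent.J4H18.DN.F6
import Pool.Agent.J4H18.DN.F1

/-!
The density theorems.
-/

set_option autoImplicit false
set_option linter.unusedSectionVars false

open MeasureTheory Set Filter Topology
open scoped InnerProductSpace ENNReal ContDiff NNReal

namespace Pool.Agent.J4H18.DN

open H772R2.NS
open Pool.Agent.W795.TQ
open H772R2.NSR (Frame prim_cont exists_frame rellich_W exists_poinc)
open Pool.Agent.Y303.LV (cl clj clj_coe)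
open Pool.Agent.Y303.NF (glue_all str_unique)

variable {Ω : Set E3} {ν T : ℝ} {F F1 : ℝ → L2M Ω} {θ : ℝ}

/-- approximation by test fields -/
theorem test_near {p : L2V Ω × L2M Ω} (hp : p ∈ graphW Ω) {δ : ℝ} (hδ : 0 < δ) :
    ∃ φ, IsTest Ω φ ∧ ‖cl Ω φ - p.1‖ ≤ δ ∧ ‖clj Ω φ - p.2‖ ≤ δ := by
  have h1 : p ∈ closure ({p : L2V Ω × L2M Ω | ∃ φ, IsTest Ω φ ∧ p.1 =ᵐ[volume.restrict Ω] φ ∧
      p.2 =ᵐ[volume.restrict Ω] jac φ}) := hp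
  obtain ⟨q, ⟨φ, k1, k2, k3⟩, hq⟩ := Metric.mem_closure_iff.1 h1 δ hδ
  have e1 : cl Ω φ = q.1 := by
    apply Lp.ext
    filter_upwards [(CK.test k1).coe (Ω := Ω) k1.compact, k2] with x a b
    rw [a, b]
  have e2 : clj Ω φ = q.2 := by
    apply Lp.ext
    filter_upwards [clj_coe k1, k3] with x a b
    rw [a, b]
  rw [dist_comm, dist_eq_norm, Prod.norm_def] at hq
  refine ⟨φ, k1, ?_, ?_⟩
  · rw [e1]
    exact (le_max_left _ _).trans hq.le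
  · rw [e2]
    exact (le_max_right _ _).trans hq.le

/-- **Density on a bounded time interval.** -/
theorem density_A (hloc : S_loc) (hun : S_univ) (hode : S_ode) (he1 : S_est1) (he2 : S_est2)
    (hΩ : IsOpen Ω) (hb : Bornology.IsBounded Ω) (hν : 0 < ν) (hT : 0 < T) (hF : FH T F F1)
    {f0 : L2V Ω} (hf0 : ∀ p ∈ graphW Ω, ⟪F 0, p.2⟫_ℝ = ⟪f0, p.1⟫_ℝ) (hθ0 : 0 < θ) (hθ1 : θ ≤ 1)
    {v v1 : ℝ → L2V Ω} {y y1 : ℝ → L2M Ω} (S : Str (graphW Ω) (tensL (Ω := Ω)) ν T F v v1 y y1)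
    (f : L2V Ω) (U : L2M Ω) {ε : ℝ} (hε : 0 < ε) :
    ∃ (w0 : E3 → E3) (u : ℝ → L2V Ω), SolT Ω ν T F w0 u ∧ (∀ t ∈ Icc ε T, ‖u t - v t‖ ≤ ε) ∧
      ∀ ψ, IsTest Ω ψ → |⟪cl Ω w0 - f, cl Ω ψ⟫_ℝ - ⟪U, clj Ω ψ⟫_ℝ| ≤ ε * wn θ ψ := by
  obtain ⟨c, hc, hU⟩ := hun
  obtain ⟨ε0, C7, hε0, hC7, hap⟩ := exists_apz hode he1 he2 hc
  obtain ⟨C, Fr⟩ := exists_frame hΩ hb
  have hm : MeasurableSet Ω := hΩ.measurableSet
  obtain ⟨δ, hδ, hst⟩ := vstab hloc hε0 hC7 hap Fr (hU Ω hΩ) (rellich_W hΩ hb) hν hT hF S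
    (η := ε / 2) (by positivity)
  obtain ⟨φ, hφ, k1, k2⟩ := test_near (S.mem 0 ⟨le_rfl, hT.le⟩) (lt_min hδ one_pos)
  obtain ⟨g, hg⟩ := compat_test hm hφ ν hf0
  obtain ⟨u0, u01, z0, z01, S0, h0, hclose⟩ := hst (cl Ω φ) g (clj Ω φ) (test_mem hφ) hg
    (k1.trans (min_le_left _ _)) (k2.trans (min_le_right _ _))
  have hz0 : z0 0 = clj Ω φ := by
    have h1 := S0.mem 0 ⟨le_rfl, hT.le⟩
    rw [h0] at h1
    have h2 := Fr.uniq _ ((graphW Ω).sub_mem h1 (test_mem hφ)) (by simp)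
    simpa [sub_eq_zero] using h2
  have ST : SolT Ω ν T F φ u0 := ⟨hφ, ⟨u01, z0, z01, g, S0, fun p hp => by
    rw [hz0, h0]
    exact hg p hp⟩, h0⟩
  obtain ⟨fU, hfU⟩ := approxU (graphW_closed Ω) Fr.poinc Fr.uniq U (ε := ε / 2) (by positivity)
  obtain ⟨w0, u, S', a1, a2⟩ := density_T hloc ⟨c, hc, hU⟩ hΩ hb hν hT hF hθ0 hθ1 ST (f + fU)
    (ε := ε / 2) (by positivity)
  refine ⟨w0, u, S', fun t ht => ?_, fun ψ hψ => ?_⟩
  · have ht' : t ∈ Icc (ε / 2) T := ⟨by linarith [ht.1], ht.2⟩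
    have ht0 : t ∈ Icc 0 T := ⟨by linarith [ht.1], ht.2⟩
    have e : u t - v t = (u t - u0 t) + (u0 t - v t) := by abel
    rw [e]
    refine (norm_add_le _ _).trans ?_
    linarith [a1 t ht', hclose t ht0]
  · have h1 := a2 ψ hψ
    have h2 := hfU _ (test_mem hψ)
    simp only at h2
    rw [clj_G1 hm hψ] at h2
    have h4 := G1_le_wn hθ0 hθ1 ψ
    have h5 : ε / 2 * G1 ψ ≤ ε / 2 * wn θ ψ := by gcongr
    have e : ⟪cl Ω w0 - f, cl Ω ψ⟫_ℝ - ⟪U, clj Ω ψ⟫_ℝ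
        = ⟪cl Ω w0 - (f + fU), cl Ω ψ⟫_ℝ - (⟪U, clj Ω ψ⟫_ℝ - ⟪fU, cl Ω ψ⟫_ℝ) := by
      rw [inner_sub_left, inner_sub_left, inner_add_left]
      ring
    rw [e]
    refine (abs_sub _ _).trans ?_
    linarith

/-- **Density for all times.** -/
theorem density_B (hloc : S_loc) (hun : S_univ) (huni : S_uni) (hode : S_ode) (he1 : S_est1)
    (he2 : S_est2) (hΩ : IsOpen Ω) (hb : Bornology.IsBounded Ω) (hν : 0 < ν) (hθ0 : 0 < θ)
    (hθ1 : θ ≤ 1) {v : ℝ → L2V Ω} (hv : ∀ T : ℝ, 0 < T → ∃ (v1 : ℝ → L2V Ω) (y y1 : ℝ → L2M Ω),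
      Str (graphW Ω) (tensL (Ω := Ω)) ν T (fun _ => 0) v v1 y y1)
    (f : L2V Ω) (U : L2M Ω) {ε : ℝ} (hε : 0 < ε) :
    ∃ (w0 : E3 → E3) (u : ℝ → L2V Ω), IsTest Ω w0 ∧ u 0 = cl Ω w0 ∧
      (∀ T : ℝ, 0 < T → Str (graphW Ω) (tensL (Ω := Ω)) ν T (fun _ => 0) u (deriv u)
        (gz (graphW Ω) u) (deriv (gz (graphW Ω) u))) ∧
      (∀ t, ε ≤ t → ‖u t - v t‖ ≤ ε) ∧
      ∀ ψ, IsTest Ω ψ → |⟪cl Ω w0 - f, cl Ω ψ⟫_ℝ - ⟪U, clj Ω ψ⟫_ℝ| ≤ ε * wn θ ψ := by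
  obtain ⟨c, hc, hU⟩ := hun
  obtain ⟨ε0, C7, hε0, hC7, hap⟩ := exists_apz hode he1 he2 hc
  obtain ⟨C, Fr⟩ := exists_frame hΩ hb
  have hν32 : 0 < ν ^ (3 / 2 : ℝ) := Real.rpow_pos_of_pos hν _
  set κ : ℝ := ε0 * ν ^ (3 / 2 : ℝ) * ν with hκ
  have hκ0 : 0 < κ := by positivity
  set α : ℝ := min (ε / 4) (√κ / 2) with hα
  have hsκ : 0 < √κ := Real.sqrt_pos.2 hκ0
  have hα0 : 0 < α := lt_min (by positivity) (by positivity)
  have hαε : α ≤ ε / 4 := min_le_left _ _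
  have hακ : α ≤ √κ / 2 := min_le_right _ _
  set D : ℝ := C ^ 2 * ‖v 0‖ ^ 2 / (2 * ν) with hD
  have hD0 : 0 ≤ D := by positivity
  -- the time
  set T0 : ℝ := ε + 1 + D / α ^ 2 with hT0
  have hT0pos : 0 < T0 := by positivity
  have hvT : ‖v T0‖ ≤ α := by
    obtain ⟨v1, y, y1, Sv⟩ := hv T0 hT0pos
    have h1 := decay Fr hν hT0pos Sv
    have h2 : D / α ^ 2 ≤ T0 := by
      rw [hT0]
      linarith
    have h3 : D ≤ T0 * α ^ 2 := by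
      rwa [div_le_iff₀ (by positivity)] at h2
    have h4 : T0 * ‖v T0‖ ^ 2 ≤ T0 * α ^ 2 := h1.trans h3
    have h5 : ‖v T0‖ ^ 2 ≤ α ^ 2 := le_of_mul_le_mul_left h4 hT0pos
    exact (pow_le_pow_iff_left₀ (norm_nonneg _) hα0.le (by norm_num)).mp h5
  set T : ℝ := T0 + 1 with hTd
  have hT : 0 < T := by positivity
  have hT1 : 1 ≤ T := by rw [hTd]; linarith
  have hvmono : ∀ s t, 0 ≤ s → s ≤ t → ‖v t‖ ≤ ‖v s‖ := by
    intro s t hs hst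
    obtain ⟨v1, y, y1, Sv⟩ := hv (t + 1) (by linarith)
    exact en_mono hν Sv hs hst (by linarith)
  obtain ⟨v1, y, y1, Sv⟩ := hv T hT
  obtain ⟨w0, u, ⟨hw0, ⟨u1, z, z1, g0, Su, hg0⟩, hu0⟩, a1, a2⟩ :=
    density_A (θ := θ) hloc ⟨c, hc, hU⟩ hode he1 he2 hΩ hb hν hT (fh_zero T) (f0 := 0)
      (fun p _ => by rw [inner_zero_left, inner_zero_left]) hθ0 hθ1 Sv f U hα0
  have hαT0 : α ≤ T0 := by
    have : 0 ≤ D / α ^ 2 := by positivity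
    rw [hT0]
    linarith
  have huT0 : ‖u T0‖ ≤ 2 * α := by
    have h1 := a1 T0 ⟨hαT0, by rw [hTd]; linarith⟩
    have h2 : u T0 = (u T0 - v T0) + v T0 := by abel
    rw [h2]
    exact (norm_add_le _ _).trans (by linarith)
  have hsm : ‖u (T - 1)‖ ^ 2 ≤ ε0 * ν ^ (3 / 2 : ℝ) * ν := by
    have e : T - 1 = T0 := by rw [hTd]; ring
    rw [e]
    calc ‖u T0‖ ^ 2 ≤ (2 * α) ^ 2 := by gcongr
      _ ≤ √κ ^ 2 := by
          have : 2 * α ≤ √κ := by linarith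
          gcongr
      _ = κ := Real.sq_sqrt hκ0.le
      _ = _ := hκ
  obtain ⟨w, hw00, hw⟩ := glue_all (W := graphW Ω) (m := tensL (Ω := Ω))
    (F := fun _ => (0 : L2M Ω)) (ν := ν) huni Fr hν (I := Ioi 0) (fun T hT => hT)
    (fun T _ => continuousOn_const) (x0 := u 0) (fun T' hT' => by
      rcases le_total T' T with h | h
      · exact ⟨u, u1, z, z1, Su.mono h, rfl⟩
      · exact gext hloc huni hε0 hC7 hap Fr (hU Ω hΩ) (rellich_W hΩ hb) hν hT1 Su hg0 hsm h)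
  have hwu : ∀ t ∈ Icc 0 T, u t = w t :=
    str_unique huni Fr hν hT hT le_rfl continuousOn_const Su (hw T hT) hw00
  refine ⟨w0, w, hw0, hw00.trans hu0, fun T' hT' => hw T' hT', fun t ht => ?_, fun ψ hψ => ?_⟩
  · rcases le_total t T with h | h
    · rw [← hwu t ⟨hε.le.trans ht, h⟩]
      have := a1 t ⟨by linarith, h⟩
      linarith
    · have h1 : ‖w t‖ ≤ ‖w T‖ := en_mono hν (hw (t + 1) (by
        have : 0 < t := hT.trans_le h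
        show 0 < t + 1
        linarith)) hT.le h (by linarith)
      have h2 : ‖v t‖ ≤ ‖v T‖ := hvmono T t hT.le h
      have h3 : ‖v T‖ ≤ ‖v T0‖ := hvmono T0 T hT0pos.le (by rw [hTd]; linarith)
      have h4 : ‖w T‖ ≤ 2 * α := by
        rw [← hwu T ⟨hT.le, le_rfl⟩]
        have h5 := a1 T ⟨by rw [hTd]; linarith, le_rfl⟩
        have h6 : u T = (u T - v T) + v T := by abel
        rw [h6]
        exact (norm_add_le _ _).trans (by linarith)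
      refine (norm_sub_le _ _).trans ?_
      linarith
  · have h1 := a2 ψ hψ
    have h2 : α * wn θ ψ ≤ ε * wn θ ψ :=
      mul_le_mul_of_nonneg_right (by linarith) (wn_nonneg θ ψ)
    exact h1.trans h2

end Pool.Agent.J4H18.DN
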