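import Mathlib
import Pool.Agent.H772R2.NSR.PubR

/-!
Public definition: the distance of initial velocities in a norm of negative order.
-/

open MeasureTheory Set
open scoped InnerProductSpace ENNReal ContDiff

namespace Pool.Agent.J4H18.DN

open H772R2.NS.Pub

/-- `‖∇ψ‖`: the norm of the Jacobian matrix of `ψ` in `L²(R³)`. -/
noncomputable def gradNorm (ψ : R3 → R3) : ℝ := √(∫ x, ‖jac ψ x‖ ^ 2)

/-- `‖∇²ψ‖`: the norm of the second derivatives of `ψ` in `L²(R³)`, `(∫ ∑_l |∂_l ∇ψ|²)^(1/2)`. -/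
noncomputable def hessNorm (ψ : R3 → R3) : ℝ := √(∫ x, ∑ l, ‖fderiv ℝ (jac ψ) x (e l)‖ ^ 2)

/-- The velocity `φ` is `ε`-close to the functional `u₀` on the divergence free test fields given
by `⟨u₀, ψ⟩ = (g, ψ) + (U, ∇ψ)`, that is `u₀ = g - div U`, in the dual of the norm
`‖∇ψ‖^(1-θ) (‖∇ψ‖ + ‖∇²ψ‖)^θ`. -/
def WeakNear (Ω : Set R3) (θ ε : ℝ) (φ : R3 → R3) (g : L2 Ω R3) (U : L2 Ω Mat) : Prop :=
  ∀ ψ, IsTest Ω ψ →
    |(∫ x in Ω, ⟪φ x, ψ x⟫_ℝ)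
        - ((∫ x in Ω, ⟪g.fn x, ψ x⟫_ℝ) + ∫ x in Ω, ⟪U.fn x, jac ψ x⟫_ℝ)|
      ≤ ε * (gradNorm ψ ^ (1 - θ) * (gradNorm ψ + hessNorm ψ) ^ θ)

end Pool.Agent.J4H18.DN
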