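import Pool.Agent.J4H18.DN.F7
import Pool.Agent.J4H18.DN.PubDef

/-!
The density theorems in terms of the public definitions.
-/

set_option autoImplicit false
set_option linter.unusedSectionVars false

open MeasureTheory Set Filter Topology
open scoped InnerProductSpace ENNReal ContDiff NNReal

namespace Pool.Agent.J4H18.DN

open H772R2.NS H772R2.NS.Pub
open Pool.Agent.W795.TQ
open H772R2.NSR (Frame prim_cont exists_frame rellich_W exists_poinc pub_inner pub_inner_jac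
  pub_rhs compat_ext)
open Pool.Agent.Y303.LV (cl clj clj_coe)


theorem gradNorm_eq (ψ : E3 → E3) : gradNorm ψ = G1 ψ := by
  have hj : (Pub.jac ψ : E3 → M3) = H772R2.NS.jac ψ := funext (jac_eq ψ)
  have : gradNorm ψ = √(∫ x : E3, ‖(Pub.jac ψ x : M3)‖ ^ 2) := rfl
  rw [this, hj]
  rfl

theorem hessNorm_eq (ψ : E3 → E3) : hessNorm ψ = G2 ψ := by
  have hj : (Pub.jac ψ : E3 → M3) = H772R2.NS.jac ψ := funext (jac_eq ψ)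
  have : hessNorm ψ = √(∫ x : E3, ∑ l, ‖(fderiv ℝ (Pub.jac ψ : E3 → M3) x (H772R2.NS.ev l) : M3)‖ ^ 2) := rfl
  rw [this, hj]
  rfl

variable {Ω : Set E3} {ν T : ℝ} {θ : ℝ}

theorem pub_phi {φ ψ : E3 → E3} (hφ : H772R2.NS.IsTest Ω φ) (hψ : H772R2.NS.IsTest Ω ψ) :
    (∫ x in (show Set R3 from Ω), ⟪(φ : R3 → R3) x, (ψ : R3 → R3) x⟫_ℝ)
      = ⟪cl Ω φ, cl Ω ψ⟫_ℝ := by
  rw [L2.inner_def]
  refine integral_congr_ae (μ := (volume : Measure E3).restrict (Ω : Set E3)) ?_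
  filter_upwards [(CK.test hφ).coe (Ω := Ω) hφ.compact, (CK.test hψ).coe (Ω := Ω) hψ.compact]
    with x a b
  rw [a, b]

theorem near_of {φ : E3 → E3} (hφ : H772R2.NS.IsTest Ω φ) {f : L2V Ω} {U : L2M Ω} {ε : ℝ}
    (h : ∀ ψ, H772R2.NS.IsTest Ω ψ → |⟪cl Ω φ - f, cl Ω ψ⟫_ℝ - ⟪U, clj Ω ψ⟫_ℝ| ≤ ε * wn θ ψ) :
    WeakNear (show Set R3 from Ω) θ ε φ f U := by
  intro ψ hψ
  have hψ' : H772R2.NS.IsTest Ω ψ := (isTest_iff ψ).mp hψ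
  have h1 := h ψ hψ'
  have e1 := pub_phi hφ hψ'
  have e2 := pub_inner (Ω := Ω) f ((CK.test hψ').coe (Ω := Ω) hψ'.compact)
  have e3 := pub_inner_jac (Ω := Ω) U (clj_coe (Ω := Ω) hψ')
  have e5 : gradNorm ψ ^ (1 - θ) * (gradNorm ψ + hessNorm ψ) ^ θ = wn θ ψ :=
    congrArg₂ (fun a b : ℝ => a ^ (1 - θ) * (a + b) ^ θ) (gradNorm_eq ψ) (hessNorm_eq ψ)
  have e4 : ⟪cl Ω φ - f, cl Ω ψ⟫_ℝ - ⟪U, clj Ω ψ⟫_ℝ
      = ⟪cl Ω φ, cl Ω ψ⟫_ℝ - (⟪f, cl Ω ψ⟫_ℝ + ⟪U, clj Ω ψ⟫_ℝ) := by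
    rw [inner_sub_left]
    ring
  rw [e4] at h1
  refine le_trans (le_of_eq ?_) (h1.trans (le_of_eq (congrArg (ε * ·) e5.symm)))
  exact congrArg abs (congrArg₂ (· - ·) e1 (congrArg₂ (· + ·) e2 e3))

theorem class_of {φ : E3 → E3} (hφ : H772R2.NS.IsTest Ω φ) {w : L2V Ω} (h : w = cl Ω φ) :
    IsClass (Ω := (show Set R3 from Ω)) (E := R3) w φ := by
  rw [h]
  exact (CK.test hφ).coe (Ω := Ω) hφ.compact

/-- the zero solution -/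
theorem str_zero {C : ℝ} (Fr : Frame (graphW Ω) (tensL (Ω := Ω)) C) (ν T : ℝ) :
    Str (graphW Ω) (tensL (Ω := Ω)) ν T (fun _ => 0) (fun _ => 0) (fun _ => 0) (fun _ => 0)
      (fun _ => 0) := by
  have h0 : ((0 : L2V Ω), (0 : L2M Ω)) ∈ graphW Ω := (graphW Ω).zero_mem
  have hm : tensL (0 : L2V Ω) = 0 := by
    have h1 := Fr.quart _ h0
    simp only [norm_zero, zero_mul, mul_zero] at h1
    have h2 : ‖tensL (0 : L2V Ω)‖ ^ 2 = 0 := le_antisymm h1 (by positivity)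
    exact norm_eq_zero.1 (pow_eq_zero_iff (by norm_num) |>.1 h2)
  refine ⟨fun _ _ => h0, Eventually.of_forall fun _ => h0, ⟨0, by simp⟩, MemLp.zero, MemLp.zero,
    fun _ _ _ _ _ => by simp, fun _ _ _ _ _ => by simp, fun p _ t _ => ?_, fun t _ => by simp⟩
  simp [hm]

theorem pub_A (hloc : S_loc) (hun : S_univ) (hode : S_ode) (he1 : S_est1) (he2 : S_est2)
    (hΩ : IsOpen Ω) (hb : Bornology.IsBounded Ω) (hν : 0 < ν) (hT : 0 < T) {F F' : ℝ → L2M Ω}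
    (hF : IsH1 T F F')
    (hf0 : ∃ h : L2V Ω, ∀ ψ : E3 → E3, H772R2.NS.IsTest Ω ψ →
      (∫ x in (show Set R3 from Ω), ⟪L2.fn (Ω := Ω) (E := Mat) (F 0) x, Pub.jac ψ x⟫_ℝ)
        = ∫ x in (show Set R3 from Ω), ⟪L2.fn (Ω := Ω) (E := R3) h x, (ψ : R3 → R3) x⟫_ℝ)
    (hθ0 : 0 < θ) (hθ1 : θ ≤ 1) {v v' : ℝ → L2V Ω} {G G' : ℝ → L2M Ω}
    (S : IsStrong (show Set R3 from Ω) ν T F v v' G G') (f : L2V Ω) (U : L2M Ω) {ε : ℝ}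
    (hε : 0 < ε) :
    ∃ (φ : E3 → E3) (u u' : ℝ → L2V Ω) (G G' : ℝ → L2M Ω), H772R2.NS.IsTest Ω φ ∧
      WeakNear (show Set R3 from Ω) θ ε φ f U ∧
      IsClass (Ω := (show Set R3 from Ω)) (E := R3) (u 0) φ ∧
      IsStrong (show Set R3 from Ω) ν T F u u' G G' ∧ ∀ t ∈ Icc ε T, ‖u t - v t‖ ≤ ε := by
  obtain ⟨C, Fr⟩ := exists_frame hΩ hb
  obtain ⟨h, hh⟩ := hf0
  have hFc : ContinuousOn F (Icc 0 T) := prim_cont hF.memLp hF.prim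
  have S' := str_of_strong hΩ hT hFc Fr S
  have hf : ∀ p ∈ graphW Ω, ⟪F 0, p.2⟫_ℝ = ⟪h, p.1⟫_ℝ := by
    refine compat_ext ?_
    rintro p ⟨ψ, k1, k2, k3⟩
    have e1 := pub_inner_jac (Ω := Ω) (F 0) k3
    have e2 := pub_inner (Ω := Ω) h k2
    exact (e1.symm.trans (hh ψ k1)).trans e2
  obtain ⟨w0, u, ⟨hw0, ⟨u1, z, z1, g0, Su, _⟩, hu0⟩, a1, a2⟩ :=
    density_A (θ := θ) hloc hun hode he1 he2 hΩ hb hν hT ⟨hF.memLp, hF.prim⟩ hf hθ0 hθ1 S' f U hε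
  exact ⟨w0, u, u1, z, z1, hw0, near_of hw0 a2, class_of hw0 hu0,
    strong_of_str hΩ hT Su (fun _ _ => rfl), a1⟩

theorem pub_B (hloc : S_loc) (hun : S_univ) (huni : S_uni) (hode : S_ode) (he1 : S_est1)
    (he2 : S_est2) (hΩ : IsOpen Ω) (hb : Bornology.IsBounded Ω) (hν : 0 < ν) (hθ0 : 0 < θ)
    (hθ1 : θ ≤ 1) {v : ℝ → L2V Ω}
    (hv : ∀ T : ℝ, 0 < T → ∃ v' G G', IsStrong (show Set R3 from Ω) ν T (fun _ => 0) v v' G G')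
    (f : L2V Ω) (U : L2M Ω) {ε : ℝ} (hε : 0 < ε) :
    ∃ (φ : E3 → E3) (u u' : ℝ → L2V Ω) (G G' : ℝ → L2M Ω), H772R2.NS.IsTest Ω φ ∧
      WeakNear (show Set R3 from Ω) θ ε φ f U ∧
      IsClass (Ω := (show Set R3 from Ω)) (E := R3) (u 0) φ ∧
      (∀ T : ℝ, 0 < T → IsStrong (show Set R3 from Ω) ν T (fun _ => 0) u u' G G') ∧
      ∀ t, ε ≤ t → ‖u t - v t‖ ≤ ε := by
  obtain ⟨C, Fr⟩ := exists_frame hΩ hb
  obtain ⟨w0, u, hw0, hu0, hu, a1, a2⟩ :=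
    density_B (θ := θ) hloc hun huni hode he1 he2 hΩ hb hν hθ0 hθ1 (v := v) (fun T hT => by
      obtain ⟨v', G, G', S⟩ := hv T hT
      exact ⟨v', G, G', str_of_strong hΩ hT continuousOn_const Fr S⟩) f U hε
  exact ⟨w0, u, _, _, _, hw0, near_of hw0 a2, class_of hw0 hu0,
    fun T hT => strong_of_str hΩ hT (hu T hT) (fun _ _ => rfl), a1⟩

theorem pub_zero (hΩ : IsOpen Ω) (hb : Bornology.IsBounded Ω) (ν : ℝ) (T : ℝ) (hT : 0 < T) :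
    ∃ (v' : ℝ → L2V Ω) (G G' : ℝ → L2M Ω),
      IsStrong (show Set R3 from Ω) ν T (fun _ => 0) (fun _ => 0) v' G G' := by
  obtain ⟨C, Fr⟩ := exists_frame hΩ hb
  exact ⟨_, _, _, strong_of_str hΩ hT (str_zero Fr ν T) (fun _ _ => rfl)⟩

end Pool.Agent.J4H18.DN
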