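import Pool.Agent.J4H18.DN.F1
import Pool.Agent.Y303.LV.Heat

/-!
The heat kernel.
-/

set_option autoImplicit false
set_option linter.unusedSectionVars false

open MeasureTheory Set Filter Topology
open scoped InnerProductSpace ENNReal ContDiff NNReal

namespace Pool.Agent.J4H18.DN

open H772R2.NS

variable {s : ℝ} {x y : E3}

/-- the kernel, as a function of `y` -/
noncomputable def gk (s : ℝ) (x y : E3) : ℝ := Real.exp (-‖x - y‖ ^ 2 / (4 * s))

/-- the factor of the kernel -/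
noncomputable def ck (s : ℝ) : ℝ := ((4 * Real.pi * s) ^ (3 / 2 : ℝ))⁻¹

theorem ck_pos (hs : 0 < s) : 0 < ck s := by
  have := Real.pi_pos
  unfold ck
  positivity

theorem gk_pos (s : ℝ) (x y : E3) : 0 < gk s x y := Real.exp_pos _

theorem gk_le_one (hs : 0 < s) (x y : E3) : gk s x y ≤ 1 := by
  unfold gk
  rw [Real.exp_le_one_iff]
  have : 0 ≤ ‖x - y‖ ^ 2 / (4 * s) := by positivity
  rw [neg_div]
  linarith

theorem gauss_int {b : ℝ} (hb : 0 < b) (x : E3) :
    ∫ y, Real.exp (-b * ‖x - y‖ ^ 2) = (Real.pi / b) ^ (3 / 2 : ℝ) := by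
  have h1 := integral_sub_left_eq_self (fun z : E3 => Real.exp (-b * ‖z‖ ^ 2)) volume x
  rw [h1, GaussianFourier.integral_rexp_neg_mul_sq_norm hb]
  congr 1
  rw [finrank_euclideanSpace_fin]
  norm_num

theorem gauss_integrable {b : ℝ} (hb : 0 < b) (x : E3) :
    Integrable fun y => Real.exp (-b * ‖x - y‖ ^ 2) := by
  by_contra h
  have h1 := gauss_int hb x
  rw [integral_undef h] at h1
  have := Real.pi_pos
  have h2 : 0 < (Real.pi / b) ^ (3 / 2 : ℝ) := by positivity
  linarith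

theorem gk_eq (s : ℝ) (x y : E3) : gk s x y = Real.exp (-(1 / (4 * s)) * ‖x - y‖ ^ 2) := by
  unfold gk
  congr 1
  ring

theorem gk_integrable (hs : 0 < s) (x : E3) : Integrable (gk s x) := by
  have h1 := gauss_integrable (b := 1 / (4 * s)) (by positivity) x
  refine h1.congr (Eventually.of_forall fun y => ?_)
  exact (gk_eq s x y).symm

theorem ck_int (hs : 0 < s) (x : E3) : ck s * ∫ y, gk s x y = 1 := by
  have h1 := gauss_int (b := 1 / (4 * s)) (by positivity) x
  have e : (fun y => gk s x y) = fun y => Real.exp (-(1 / (4 * s)) * ‖x - y‖ ^ 2) := by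
    funext y
    exact gk_eq s x y
  rw [e, h1]
  have e2 : Real.pi / (1 / (4 * s)) = 4 * Real.pi * s := by
    field_simp
  rw [e2]
  have := Real.pi_pos
  unfold ck
  exact inv_mul_cancel₀ (by positivity)

theorem two_rpow : (2 : ℝ) ^ (3 / 2 : ℝ) ≤ 3 := by
  have h1 : ((2 : ℝ) ^ (3 / 2 : ℝ)) ^ (2 : ℕ) = 8 := by
    rw [← Real.rpow_natCast, ← Real.rpow_mul (by norm_num)]
    norm_num
  have h2 : (0 : ℝ) ≤ (2 : ℝ) ^ (3 / 2 : ℝ) := by positivity
  nlinarith

theorem ck_int8 (hs : 0 < s) (x : E3) :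
    ck s * ∫ y, Real.exp (-(1 / (8 * s)) * ‖x - y‖ ^ 2) ≤ 3 := by
  rw [gauss_int (b := 1 / (8 * s)) (by positivity) x]
  have := Real.pi_pos
  have e2 : Real.pi / (1 / (8 * s)) = 2 * (4 * Real.pi * s) := by
    field_simp
    ring
  rw [e2, Real.mul_rpow (by norm_num) (by positivity)]
  have h1 : ck s * ((2 : ℝ) ^ (3 / 2 : ℝ) * (4 * Real.pi * s) ^ (3 / 2 : ℝ))
      = (2 : ℝ) ^ (3 / 2 : ℝ) := by
    unfold ck
    have : (4 * Real.pi * s) ^ (3 / 2 : ℝ) ≠ 0 := by positivity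
    field_simp
  rw [h1]
  exact two_rpow

/-- the exponent -/
noncomputable def uk (s : ℝ) (x y : E3) : ℝ := -(1 / (4 * s)) * ∑ k, (x k - y k) * (x k - y k)

theorem gk_uk (s : ℝ) (x : E3) : gk s x = fun y => Real.exp (uk s x y) := by
  funext y
  rw [gk_eq, uk, norm_sq_E3]
  congr 2
  refine Finset.sum_congr rfl fun k _ => ?_
  rw [PiLp.sub_apply]
  ring

theorem xy_cd (x : E3) (k : Fin 3) : ContDiff ℝ ∞ (fun y : E3 => x k - y k) :=
  contDiff_const.sub (cdx k)

theorem uk_cd (s : ℝ) (x : E3) : ContDiff ℝ ∞ (uk s x) :=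
  contDiff_const.mul (ContDiff.sum fun k _ => (xy_cd x k).mul (xy_cd x k))

theorem gk_cd (s : ℝ) (x : E3) : ContDiff ℝ ∞ (gk s x) := by
  rw [gk_uk]
  exact Real.contDiff_exp.comp (uk_cd s x)

theorem pd_xy (x : E3) (k j : Fin 3) (y : E3) :
    pd j (fun y : E3 => x k - y k) y = -(if k = j then 1 else 0) := by
  rw [pd_sub contDiff_const (cdx k), pd_const, pd_coord, zero_sub]

theorem pd_uk (hs : 0 < s) (x : E3) (j : Fin 3) (y : E3) :
    pd j (uk s x) y = (x j - y j) / (2 * s) := by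
  have e : uk s x = fun y => -(1 / (4 * s)) * ∑ k, (x k - y k) * (x k - y k) := rfl
  rw [e, pd_smul (ContDiff.sum fun k _ => (xy_cd x k).mul (xy_cd x k)),
    pd_sum _ fun k _ => (xy_cd x k).mul (xy_cd x k)]
  have e2 : ∀ k, pd j (fun y : E3 => (x k - y k) * (x k - y k)) y
      = -(if k = j then 2 * (x k - y k) else 0) := by
    intro k
    rw [pd_mul (xy_cd x k) (xy_cd x k), pd_xy]
    split_ifs <;> ring
  simp only [e2]
  rw [Finset.sum_neg_distrib, Finset.sum_ite_eq' Finset.univ j]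
  simp only [Finset.mem_univ, if_true]
  field_simp
  ring

theorem pd_gk (hs : 0 < s) (x : E3) (j : Fin 3) (y : E3) :
    pd j (gk s x) y = (x j - y j) / (2 * s) * gk s x y := by
  have h1 := pd_comp (Real.hasDerivAt_exp (uk s x y)) (uk_cd s x) j
  rw [gk_uk]
  refine h1.trans ?_
  rw [pd_uk hs]
  ring

theorem pd2_gk (hs : 0 < s) (x : E3) (j l : Fin 3) (y : E3) :
    pd l (pd j (gk s x)) y = -(if j = l then 1 else 0) / (2 * s) * gk s x y
      + (x j - y j) * (x l - y l) / (4 * s ^ 2) * gk s x y := by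
  have e : pd j (gk s x) = fun y => (1 / (2 * s)) * (x j - y j) * gk s x y := by
    funext y
    rw [pd_gk hs]
    ring
  rw [e, pd_mul (contDiff_const.mul (xy_cd x j)) (gk_cd s x), pd_smul (xy_cd x j), pd_xy,
    pd_gk hs]
  field_simp
  ring

theorem abs_coord_sub (x y : E3) (j : Fin 3) : |x j - y j| ≤ ‖x - y‖ := by
  have := PiLp.norm_apply_le (x - y) j
  rwa [PiLp.sub_apply, Real.norm_eq_abs] at this

theorem a_exp (a : ℝ) : a * Real.exp (-(a ^ 2 / 2)) ≤ 1 := by
  have h1 := Real.add_one_le_exp (a ^ 2 / 2)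
  have h2 : a ≤ Real.exp (a ^ 2 / 2) := by nlinarith [sq_nonneg (a - 1)]
  rw [Real.exp_neg, ← div_eq_mul_inv, div_le_one (Real.exp_pos _)]
  exact h2

theorem b_exp (b : ℝ) : b * Real.exp (-b) ≤ 1 := by
  have h1 := Real.add_one_le_exp b
  rw [Real.exp_neg, ← div_eq_mul_inv, div_le_one (Real.exp_pos _)]
  linarith

theorem pd_gk_le (hs : 0 < s) (x : E3) (j : Fin 3) (y : E3) :
    |pd j (gk s x) y| ≤ 1 / √s * Real.exp (-(1 / (8 * s)) * ‖x - y‖ ^ 2) := by
  rw [pd_gk hs, abs_mul, abs_of_pos (gk_pos s x y), abs_div, abs_of_pos (by positivity : 0 < 2 * s)]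
  have h1 := abs_coord_sub x y j
  set r := ‖x - y‖ with hr
  have hr0 : 0 ≤ r := norm_nonneg _
  have hq : 0 < √s := Real.sqrt_pos.2 hs
  have hq2 : √s * √s = s := Real.mul_self_sqrt hs.le
  have h2 := a_exp (r / (2 * √s))
  have e1 : (r / (2 * √s)) ^ 2 / 2 = r ^ 2 / (8 * s) := by
    rw [div_pow, mul_pow, Real.sq_sqrt hs.le]
    field_simp
    ring
  rw [e1] at h2
  have e2 : gk s x y = Real.exp (-(r ^ 2 / (8 * s))) * Real.exp (-(1 / (8 * s)) * r ^ 2) := by
    rw [gk_eq, ← Real.exp_add, ← hr]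
    congr 1
    field_simp
    ring
  have e3 : r / (2 * s) = 1 / √s * (r / (2 * √s)) := by
    field_simp
    rw [Real.sq_sqrt hs.le]
  calc |x j - y j| / (2 * s) * gk s x y ≤ r / (2 * s) * gk s x y := by
        have := gk_pos s x y
        gcongr
    _ = 1 / √s * (r / (2 * √s) * Real.exp (-(r ^ 2 / (8 * s))))
          * Real.exp (-(1 / (8 * s)) * r ^ 2) := by
        rw [e2, e3]
        ring
    _ ≤ 1 / √s * 1 * Real.exp (-(1 / (8 * s)) * r ^ 2) := by gcongr
    _ = _ := by ring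

theorem pd_gk_sup (hs : 0 < s) (x : E3) (j : Fin 3) (y : E3) : |pd j (gk s x) y| ≤ 1 / √s := by
  refine (pd_gk_le hs x j y).trans ?_
  have h1 : Real.exp (-(1 / (8 * s)) * ‖x - y‖ ^ 2) ≤ 1 := by
    rw [Real.exp_le_one_iff]
    have : 0 ≤ 1 / (8 * s) * ‖x - y‖ ^ 2 := by positivity
    linarith
  have : 0 ≤ 1 / √s := by positivity
  nlinarith

theorem pd2_gk_sup (hs : 0 < s) (x : E3) (j l : Fin 3) (y : E3) :
    |pd l (pd j (gk s x)) y| ≤ 2 / s := by
  rw [pd2_gk hs]
  have h1 := abs_coord_sub x y j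
  have h2 := abs_coord_sub x y l
  have g0 := gk_pos s x y
  have g1 := gk_le_one hs x y
  set r := ‖x - y‖ with hr
  have hr0 : 0 ≤ r := norm_nonneg _
  have a1 : |-(if j = l then (1 : ℝ) else 0) / (2 * s) * gk s x y| ≤ 1 / (2 * s) := by
    rw [abs_mul, abs_of_pos g0, abs_div, abs_of_pos (by positivity : 0 < 2 * s), abs_neg]
    have : |if j = l then (1 : ℝ) else 0| ≤ 1 := by split_ifs <;> simp
    calc _ ≤ 1 / (2 * s) * 1 := by gcongr
      _ = _ := mul_one _
  have a2 : |(x j - y j) * (x l - y l) / (4 * s ^ 2) * gk s x y| ≤ 1 / s := by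
    rw [abs_mul, abs_of_pos g0, abs_div, abs_of_pos (by positivity : 0 < 4 * s ^ 2), abs_mul]
    have hb := b_exp (r ^ 2 / (4 * s))
    have e2 : gk s x y = Real.exp (-(r ^ 2 / (4 * s))) := by
      unfold gk
      rw [neg_div]
    calc |x j - y j| * |x l - y l| / (4 * s ^ 2) * gk s x y
        ≤ r * r / (4 * s ^ 2) * gk s x y := by gcongr
      _ = 1 / s * (r ^ 2 / (4 * s) * Real.exp (-(r ^ 2 / (4 * s)))) := by
          rw [e2]
          field_simp
      _ ≤ 1 / s * 1 := by gcongr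
      _ = _ := mul_one _
  refine (abs_add_le _ _).trans ((add_le_add a1 a2).trans ?_)
  have : 1 / (2 * s) + 1 / s ≤ 2 / s := by
    have e : 1 / (2 * s) = 1 / 2 * (1 / s) := by field_simp
    have : 0 < 1 / s := by positivity
    rw [e]
    have e3 : 2 / s = 2 * (1 / s) := by ring
    rw [e3]
    linarith
  exact this

/-- the scalar heat semigroup -/
noncomputable def hs1 (s : ℝ) (f : E3 → ℝ) (x : E3) : ℝ := ck s * ∫ y, gk s x y * f y

variable {f g : E3 → ℝ} {K : Set E3}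

theorem hs1_int (s : ℝ) (x : E3) (hf : Continuous f) (hc : HasCompactSupport f) :
    Integrable fun y => gk s x y * f y :=
  ((gk_cd s x).continuous.mul hf).integrable_of_hasCompactSupport hc.mul_left

theorem hs1_le (hs : 0 < s) (x : E3) {M : ℝ} (hM : ∀ y, |f y| ≤ M) : |hs1 s f x| ≤ M := by
  have hM0 : 0 ≤ M := (abs_nonneg _).trans (hM 0)
  unfold hs1
  rw [abs_mul, abs_of_pos (ck_pos hs)]
  have h1 : |∫ y, gk s x y * f y| ≤ M * ∫ y, gk s x y := by
    rw [← integral_const_mul, ← Real.norm_eq_abs]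
    refine norm_integral_le_of_norm_le ((gk_integrable hs x).const_mul M)
      (Eventually.of_forall fun y => ?_)
    rw [norm_mul, Real.norm_eq_abs, Real.norm_eq_abs, abs_of_pos (gk_pos s x y), mul_comm]
    have := gk_pos s x y
    have := hM y
    gcongr
  calc ck s * |∫ y, gk s x y * f y| ≤ ck s * (M * ∫ y, gk s x y) := by
        have := ck_pos hs
        gcongr
    _ = M * (ck s * ∫ y, gk s x y) := by ring
    _ = M := by rw [ck_int hs, mul_one]

theorem hs1_sub (s : ℝ) (x : E3) (hf : Continuous f) (hc : HasCompactSupport f)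
    (hg : Continuous g) (hd : HasCompactSupport g) :
    hs1 s (fun y => f y - g y) x = hs1 s f x - hs1 s g x := by
  unfold hs1
  rw [← mul_sub, ← integral_sub (hs1_int s x hf hc) (hs1_int s x hg hd)]
  congr 2
  funext y
  ring

theorem hs1_add (s : ℝ) (x : E3) (hf : Continuous f) (hc : HasCompactSupport f)
    (hg : Continuous g) (hd : HasCompactSupport g) :
    hs1 s (fun y => f y + g y) x = hs1 s f x + hs1 s g x := by
  unfold hs1
  rw [← mul_add, ← integral_add (hs1_int s x hf hc) (hs1_int s x hg hd)]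
  congr 2
  funext y
  ring

/-- integration by parts in the heat semigroup -/
theorem hs1_pd {u : E3 → ℝ} (s : ℝ) (x : E3) (hu : ContDiff ℝ ∞ u) (hc : HasCompactSupport u)
    (j : Fin 3) : hs1 s (pd j u) x = -(ck s * ∫ y, pd j (gk s x) y * u y) := by
  unfold hs1
  have h1 := ibp_s (gk_cd s x) hu hc j
  rw [h1]
  ring

/-- the derivative of a bounded function -/
theorem hs1_pd_le {u : E3 → ℝ} (hs : 0 < s) (x : E3) (hu : ContDiff ℝ ∞ u)
    (hc : HasCompactSupport u) (j : Fin 3) {M : ℝ} (hM : ∀ y, |u y| ≤ M) :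
    √s * |hs1 s (pd j u) x| ≤ 3 * M := by
  have hM0 : 0 ≤ M := (abs_nonneg _).trans (hM 0)
  have hq : 0 < √s := Real.sqrt_pos.2 hs
  rw [hs1_pd s x hu hc j, abs_neg, abs_mul, abs_of_pos (ck_pos hs)]
  have h1 : |∫ y, pd j (gk s x) y * u y|
      ≤ M * (1 / √s) * ∫ y, Real.exp (-(1 / (8 * s)) * ‖x - y‖ ^ 2) := by
    rw [← integral_const_mul, ← Real.norm_eq_abs]
    refine norm_integral_le_of_norm_le ((gauss_integrable (by positivity) x).const_mul _)
      (Eventually.of_forall fun y => ?_)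
    rw [norm_mul, Real.norm_eq_abs, Real.norm_eq_abs]
    have a1 := pd_gk_le hs x j y
    have a2 := hM y
    calc |pd j (gk s x) y| * |u y|
        ≤ (1 / √s * Real.exp (-(1 / (8 * s)) * ‖x - y‖ ^ 2)) * M := by gcongr
      _ = _ := by ring
  have h2 := ck_int8 hs x
  have hc0 := ck_pos hs
  calc √s * (ck s * |∫ y, pd j (gk s x) y * u y|)
      ≤ √s * (ck s * (M * (1 / √s) * ∫ y, Real.exp (-(1 / (8 * s)) * ‖x - y‖ ^ 2))) := by gcongr
    _ = M * (ck s * ∫ y, Real.exp (-(1 / (8 * s)) * ‖x - y‖ ^ 2)) := by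
        field_simp
    _ ≤ M * 3 := by gcongr
    _ = _ := by ring

/-- the decay for large times -/
theorem hs1_far (hs : 0 < s) (x : E3) (hf : Continuous f) (hK : IsCompact K)
    (h0 : ∀ y, y ∉ K → f y = 0) {M : ℝ} (hM : ∀ y, |f y| ≤ M) :
    |hs1 s f x| ≤ ck s * (M * (volume K).toReal) := by
  have hM0 : 0 ≤ M := (abs_nonneg _).trans (hM 0)
  unfold hs1
  rw [abs_mul, abs_of_pos (ck_pos hs)]
  have hc := (ck_pos hs).le
  refine mul_le_mul_of_nonneg_left ?_ hc
  have e : ∫ y, gk s x y * f y = ∫ y in K, gk s x y * f y := by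
    symm
    refine setIntegral_eq_integral_of_forall_compl_eq_zero fun y hy => ?_
    rw [h0 y hy, mul_zero]
  rw [e, ← Real.norm_eq_abs]
  have h1 := norm_setIntegral_le_of_norm_le_const (μ := volume) (s := K) hK.measure_lt_top
    (f := fun y => gk s x y * f y) (C := M) fun y _ => by
      rw [norm_mul, Real.norm_eq_abs, Real.norm_eq_abs, abs_of_pos (gk_pos s x y)]
      have a1 := gk_le_one hs x y
      have a2 := hM y
      have a3 := (gk_pos s x y).le
      nlinarith [abs_nonneg (f y)]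
  exact h1

theorem ck_le (hs : 0 < s) : √s * ck s ≤ 1 / s := by
  have hpi := Real.pi_gt_three
  have hq : 0 < √s := Real.sqrt_pos.2 hs
  have h1 : s ^ (3 / 2 : ℝ) ≤ (4 * Real.pi * s) ^ (3 / 2 : ℝ) :=
    Real.rpow_le_rpow hs.le (by nlinarith) (by norm_num)
  have h2 : s ^ (3 / 2 : ℝ) = s * √s := by
    rw [Real.sqrt_eq_rpow, show (3 / 2 : ℝ) = 1 + 1 / 2 by norm_num, Real.rpow_add hs,
      Real.rpow_one]
  have h3 : 0 < s ^ (3 / 2 : ℝ) := by positivity
  unfold ck
  calc √s * ((4 * Real.pi * s) ^ (3 / 2 : ℝ))⁻¹ ≤ √s * (s ^ (3 / 2 : ℝ))⁻¹ := by gcongr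
    _ = 1 / s := by
        rw [h2]
        field_simp

end Pool.Agent.J4H18.DN
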