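import Pool.Agent.J4H18.DN.H1

/-!
The scale invariant size of the oscillating field.
-/

set_option autoImplicit false
set_option linter.unusedSectionVars false

open MeasureTheory Set Filter Topology
open scoped InnerProductSpace ENNReal ContDiff NNReal

namespace Pool.Agent.J4H18.DN

open H772R2.NS

variable {ν : ℝ} {φ : E3 → ℝ} {A B h : Fin 3 → E3 → ℝ} {P : E3 → ℝ} {S K Ω : Set E3}
  {v : Fin 3 → E3 → ℝ} {f g : E3 → ℝ} {e e' : E3 → E3} {η η' s : ℝ}

/-- the scale invariant norm is at most `η` -/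
def HC (η : ℝ) (e : E3 → E3) : Prop :=
  ∀ (s : ℝ) (x : E3) (i : Fin 3), 0 < s → √s * |hs1 s (fun y => e y i) x| ≤ η

theorem test_c (he : IsTest Ω e) (i : Fin 3) : Continuous (fun y => e y i) :=
  (contDiff_coord he.smooth i).continuous

theorem test_k (he : IsTest Ω e) (i : Fin 3) : HasCompactSupport (fun y => e y i) :=
  hasCompactSupport_coord he.compact i

theorem HC.add (he : IsTest Ω e) (he' : IsTest Ω e') (h : HC η e) (h' : HC η' e') :
    HC (η + η') (fun x => e x + e' x) := by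
  intro s x i hs
  have e1 : (fun y => (e y + e' y) i) = fun y => e y i + e' y i := rfl
  rw [e1, hs1_add s x (test_c he i) (test_k he i) (test_c he' i) (test_k he' i)]
  have h1 := h s x i hs
  have h2 := h' s x i hs
  have hq := Real.sqrt_nonneg s
  calc √s * |hs1 s (fun y => e y i) x + hs1 s (fun y => e' y i) x|
      ≤ √s * (|hs1 s (fun y => e y i) x| + |hs1 s (fun y => e' y i) x|) := by
        gcongr
        exact abs_add_le _ _
    _ ≤ _ := by linarith

theorem HC.mono (h : HC η e) (hη : η ≤ η') : HC η' e := fun s x i hs => (h s x i hs).trans hη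

theorem hs1_add3 (s : ℝ) (x : E3) {f : Fin 3 → E3 → ℝ} (hf : ∀ j, Continuous (f j))
    (hc : ∀ j, HasCompactSupport (f j)) : hs1 s (fun y => f 0 y + f 1 y + f 2 y) x
      = hs1 s (f 0) x + hs1 s (f 1) x + hs1 s (f 2) x := by
  have h1 := hs1_add s x (f := fun y => f 0 y + f 1 y) ((hf 0).add (hf 1)) ((hc 0).add (hc 1))
    (hf 2) (hc 2)
  rw [h1, hs1_add s x (hf 0) (hc 0) (hf 1) (hc 1)]

theorem hs1_zero (s : ℝ) (x : E3) : hs1 s (fun _ => 0) x = 0 := by simp [hs1]

/-- test fields are bounded -/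
theorem test_bdd (he : IsTest Ω e) : ∃ M, 0 ≤ M ∧ ∀ y i, |e y i| ≤ M := by
  obtain ⟨C, hC⟩ := he.compact.isCompact_range he.smooth.continuous |>.isBounded.exists_norm_le
  refine ⟨max C 0, le_max_right _ _, fun y i => ?_⟩
  have h1 := PiLp.norm_apply_le (e y) i
  rw [Real.norm_eq_abs] at h1
  exact h1.trans ((hC _ ⟨y, rfl⟩).trans (le_max_left _ _))

/-- the oscillation lemma for the heat semigroup -/
theorem osc_heat (D : Ph φ S) (hK : IsCompact K) (hSK : S ⊆ K) {a b : E3 → ℝ} (ha : Amp S a)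
    (hb : Amp S b) (j : Fin 3) {s₀ : ℝ} (hs₀ : 0 < s₀) : ∃ C, 0 ≤ C ∧ ∀ N, 1 ≤ N → ∀ s, s₀ ≤ s →
      ∀ x, √s * |hs1 s (pd j fun y => a y * Real.cos (N * φ y) + b y * Real.sin (N * φ y)) x|
        ≤ C / N := by
  have hSc : IsCompact S := hK.of_isClosed_subset D.Sc hSK
  obtain ⟨C, hC, hI⟩ := osc_int D hK hSK ha hb
  -- the cutoff
  obtain ⟨R, hR⟩ := hSc.isBounded.subset_closedBall (0 : E3)
  have hR' : S ⊆ Metric.closedBall (0 : E3) (max R 0 + 1) :=
    hR.trans (Metric.closedBall_subset_closedBall (by linarith [le_max_left R 0]))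
  let χb : ContDiffBump (0 : E3) :=
    ⟨max R 0 + 1, max R 0 + 2, by linarith [le_max_right R 0], by linarith⟩
  set χ : E3 → ℝ := fun y => χb y with hχ
  have cχ : ContDiff ℝ ∞ χ := χb.contDiff
  have sχ : HasCompactSupport χ := χb.hasCompactSupport
  have hχ1 : ∀ y ∈ S, χ y = 1 := fun y hy => χb.one_of_mem_closedBall (hR' hy)
  set T : Set E3 := tsupport χ with hT
  have hTc : IsCompact T := sχ
  have aχ : Amp T χ := ⟨cχ, fun y hy => image_eq_zero_of_notMem_tsupport hy⟩
  obtain ⟨M0, hM0, m0⟩ := amp_bound hTc aχ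
  choose M1 hM1 m1 using fun l => amp_bound hTc (aχ.pd hTc.isClosed l)
  obtain ⟨Mm, hMm, mm⟩ := max3 (f := M1)
  have hv : 0 ≤ vK T := vK_nonneg
  set Z : ℝ := M0 * (1 / √s₀) * vK T + 3 * ((Mm * (1 / √s₀) + M0 * (2 / s₀)) * vK T) with hZ
  have hZ0 : 0 ≤ Z := by positivity
  refine ⟨1 / s₀ * C * Z, by positivity, fun N hN s hs x => ?_⟩
  have hsp : 0 < s := hs₀.trans_le hs
  have hN0 : 0 < N := by linarith
  have hu := osc_amp D.φs ha hb N
  have huc : HasCompactSupport fun y => a y * Real.cos (N * φ y) + b y * Real.sin (N * φ y) :=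
    amp_compact hSc hu
  rw [hs1_pd s x hu.smooth huc j, abs_neg, abs_mul, abs_of_pos (ck_pos hsp)]
  set k : E3 → ℝ := pd j (gk s x) with hk
  have ck' : ContDiff ℝ ∞ k := cd_pd (gk_cd s x) j
  set G : E3 → ℝ := fun y => χ y * k y with hG
  have cG : ContDiff ℝ ∞ G := cχ.mul ck'
  have sG : HasCompactSupport G := sχ.mul_right
  have e1 : ∫ y, k y * (a y * Real.cos (N * φ y) + b y * Real.sin (N * φ y))
      = ∫ y, (a y * Real.cos (N * φ y) + b y * Real.sin (N * φ y)) * G y := by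
    congr 1
    funext y
    by_cases hy : y ∈ S
    · simp only [hG]
      rw [hχ1 y hy]
      ring
    · rw [hu.off y hy]
      ring
  have b1 := (hI N hN G cG sG).2
  have hq0 : 0 < √s₀ := Real.sqrt_pos.2 hs₀
  have hqs : 1 / √s ≤ 1 / √s₀ := by
    have := Real.sqrt_le_sqrt hs
    gcongr
  have hk0 : ∀ y, |k y| ≤ 1 / √s₀ := fun y => (pd_gk_sup hsp x j y).trans hqs
  have hk1 : ∀ l y, |pd l k y| ≤ 2 / s₀ := fun l y =>
    (pd2_gk_sup hsp x j l y).trans (by gcongr)
  have g0 : n2 G ≤ M0 * (1 / √s₀) * vK T := by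
    refine n2_le cG.continuous hTc (fun y hy => ?_) fun y => ?_
    · simp only [hG]
      rw [aχ.off y hy, zero_mul]
    · simp only [hG]
      rw [abs_mul]
      exact mul_le_mul (m0 y) (hk0 y) (abs_nonneg _) hM0
  have g1 : ∀ l, n2 (pd l G) ≤ (Mm * (1 / √s₀) + M0 * (2 / s₀)) * vK T := by
    intro l
    have aG : Amp T G := aχ.mulr ck'
    refine n2_le (cd_pd cG l).continuous hTc (aG.pd hTc.isClosed l).off fun y => ?_
    have : pd l G y = pd l χ y * k y + χ y * pd l k y := pd_mul cχ ck' l y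
    rw [this]
    refine (abs_add_le _ _).trans ?_
    rw [abs_mul, abs_mul]
    have q1 := (m1 l y).trans (mm l)
    have q2 := hk0 y
    have q3 := m0 y
    have q4 := hk1 l y
    gcongr
  have g2 : n2 G + ∑ l, n2 (pd l G) ≤ Z := by
    rw [hZ]
    refine add_le_add g0 ?_
    refine (Finset.sum_le_sum fun l _ => g1 l).trans ?_
    simp
  rw [e1]
  have hc := ck_pos hsp
  have h3 := ck_le hsp
  have h4 : 1 / s ≤ 1 / s₀ := by gcongr
  calc √s * (ck s * |∫ y, (a y * Real.cos (N * φ y) + b y * Real.sin (N * φ y)) * G y|)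
      ≤ √s * (ck s * (C / N * Z)) := by
        have hq := Real.sqrt_nonneg s
        have : C / N * (n2 G + ∑ l, n2 (pd l G)) ≤ C / N * Z := by gcongr
        have h5 := b1.trans this
        gcongr
    _ = (√s * ck s) * (C / N * Z) := by ring
    _ ≤ 1 / s₀ * (C / N * Z) := by
        have : 0 ≤ C / N * Z := by positivity
        exact mul_le_mul_of_nonneg_right (h3.trans h4) this
    _ = 1 / s₀ * C * Z / N := by ring

/-- the oscillating part of the initial value -/
noncomputable def osc (φ : E3 → ℝ) (A B : Fin 3 → E3 → ℝ) (N : ℝ) (i j : Fin 3) : E3 → ℝ := fun x =>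
  -(pd j φ x * -B i x - pd i φ x * -B j x) * Real.cos (N * φ x)
      + (pd j φ x * A i x - pd i φ x * A j x) * Real.sin (N * φ x)

theorem init_eq (i : Fin 3) (N : ℝ) (x : E3) :
    Xf ν φ A B h v i N 0 x - h i x = ∑ j, pd j (osc φ A B N i j) x := by
  unfold Xf
  have e2 : Tm φ (q5 ν) 0 (h i) (fun _ => 0) N 0 x = h i x := by
    unfold Tm
    simp [q5, ex_zero]
  rw [e2, add_sub_cancel_right]
  refine Finset.sum_congr rfl fun j _ => ?_
  have e3 : Psi ν φ A B h v i j N 0 = osc φ A B N i j := by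
    funext y
    exact Psi_zero i j N y
  unfold dx
  rw [e3]
  rfl

theorem pd_le_one (D : Ph φ S) {x : E3} (hx : x ∈ S) (j : Fin 3) : |pd j φ x| ≤ 1 := by
  have h1 := D.u1 hx
  have h2 : pd j φ x * pd j φ x ≤ 1 := by
    rw [← h1]
    exact Finset.single_le_sum (f := fun j => pd j φ x * pd j φ x)
      (fun k _ => mul_self_nonneg _) (Finset.mem_univ j)
  rw [abs_le]
  constructor <;> nlinarith

/-- **The scale invariant size of the oscillating part.** -/
theorem osc_HC (D : Dat ν φ A B h P S K) {α : ℝ} (hα : 0 ≤ α) (hA : ∀ i x, |A i x| ≤ α)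
    (hB : ∀ i x, |B i x| ≤ α) {N : ℝ} :
    ∀ s x i, 0 < s → √s * |hs1 s (fun y => Xf ν φ A B h v i N 0 y - h i y) x| ≤ 36 * α := by
  intro s x i hs
  have Ph := D.ph
  have hφ := D.φs
  have hSc : IsCompact S := D.Kc.of_isClosed_subset D.Sc D.SK
  have aa : ∀ i j, Amp S (osc φ A B N i j) := fun i j =>
    osc_amp hφ (((D.Ba i).neg.stat (cd_pd hφ j)).sub ((D.Ba j).neg.stat (cd_pd hφ i))).neg
      (((D.Aa i).stat (cd_pd hφ j)).sub ((D.Aa j).stat (cd_pd hφ i))) N
  have bb : ∀ i j x, |osc φ A B N i j x| ≤ 4 * α := by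
    intro i j x
    by_cases hx : x ∈ S
    · have p1 := pd_le_one Ph hx i
      have p2 := pd_le_one Ph hx j
      have a1 := hA i x
      have a2 := hA j x
      have b1 := hB i x
      have b2 := hB j x
      have k1 : |-(pd j φ x * -B i x - pd i φ x * -B j x)| ≤ 2 * α := by
        rw [abs_neg]
        refine (abs_sub _ _).trans ?_
        rw [abs_mul, abs_mul, abs_neg, abs_neg]
        have : |pd j φ x| * |B i x| ≤ 1 * α := by gcongr
        have : |pd i φ x| * |B j x| ≤ 1 * α := by gcongr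
        linarith
      have k2 : |pd j φ x * A i x - pd i φ x * A j x| ≤ 2 * α := by
        refine (abs_sub _ _).trans ?_
        rw [abs_mul, abs_mul]
        have : |pd j φ x| * |A i x| ≤ 1 * α := by gcongr
        have : |pd i φ x| * |A j x| ≤ 1 * α := by gcongr
        linarith
      have c1 := Real.abs_cos_le_one (N * φ x)
      have c2 := Real.abs_sin_le_one (N * φ x)
      unfold osc
      refine (abs_add_le _ _).trans ?_
      rw [abs_mul, abs_mul]
      have : |-(pd j φ x * -B i x - pd i φ x * -B j x)| * |Real.cos (N * φ x)| ≤ 2 * α * 1 := by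
        gcongr
      have : |pd j φ x * A i x - pd i φ x * A j x| * |Real.sin (N * φ x)| ≤ 2 * α * 1 := by
        gcongr
      linarith
    · rw [(aa i j).off x hx, abs_zero]
      positivity
  have e1 : (fun y => Xf ν φ A B h v i N 0 y - h i y) = fun y => (pd 0 (osc φ A B N i 0) y
      + pd 1 (osc φ A B N i 1) y) + pd 2 (osc φ A B N i 2) y := by
    funext y
    rw [init_eq, Fin.sum_univ_three]
  have cc : ∀ j, Continuous (pd j (osc φ A B N i j)) := fun j => (cd_pd (aa i j).smooth j).continuous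
  have kk : ∀ j, HasCompactSupport (pd j (osc φ A B N i j)) := fun j =>
    amp_compact hSc ((aa i j).pd D.Sc j)
  rw [e1, hs1_add3 s x (f := fun j => pd j (osc φ A B N i j)) cc kk]
  have hj : ∀ j, √s * |hs1 s (pd j (osc φ A B N i j)) x| ≤ 3 * (4 * α) := fun j =>
    hs1_pd_le hs x (aa i j).smooth (amp_compact hSc (aa i j)) j (bb i j)
  have h0 := hj 0
  have h1 := hj 1
  have h2 := hj 2
  have hq := Real.sqrt_nonneg s
  calc _ ≤ √s * (|hs1 s (pd 0 (osc φ A B N i 0)) x| + |hs1 s (pd 1 (osc φ A B N i 1)) x|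
        + |hs1 s (pd 2 (osc φ A B N i 2)) x|) := by
        gcongr
        exact (abs_add_le _ _).trans (add_le_add (abs_add_le _ _) le_rfl)
    _ ≤ _ := by linarith

/-- the oscillating part is small at fixed scales -/
theorem osc_far (D : Dat ν φ A B h P S K) {s₀ : ℝ} (hs₀ : 0 < s₀) :
    ∃ C, 0 ≤ C ∧ ∀ N, 1 ≤ N → ∀ s, s₀ ≤ s → ∀ x i,
      √s * |hs1 s (fun y => Xf ν φ A B h v i N 0 y - h i y) x| ≤ C / N := by
  have Ph := D.ph
  have hφ := D.φs
  have hSc : IsCompact S := D.Kc.of_isClosed_subset D.Sc D.SK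
  have ha : ∀ i j, Amp S (fun x => -(pd j φ x * -B i x - pd i φ x * -B j x)) := fun i j =>
    (((D.Ba i).neg.stat (cd_pd hφ j)).sub ((D.Ba j).neg.stat (cd_pd hφ i))).neg
  have hb : ∀ i j, Amp S (fun x => pd j φ x * A i x - pd i φ x * A j x) := fun i j =>
    ((D.Aa i).stat (cd_pd hφ j)).sub ((D.Aa j).stat (cd_pd hφ i))
  choose C hC hI using fun (p : Fin 3 × Fin 3) =>
    osc_heat Ph D.Kc D.SK (ha p.1 p.2) (hb p.1 p.2) p.2 hs₀
  refine ⟨∑ p, C p, Finset.sum_nonneg fun p _ => hC p, fun N hN s hs x i => ?_⟩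
  have aa : ∀ i j, Amp S (osc φ A B N i j) := fun i j => osc_amp hφ (ha i j) (hb i j) N
  have e1 : (fun y => Xf ν φ A B h v i N 0 y - h i y) = fun y => (pd 0 (osc φ A B N i 0) y
      + pd 1 (osc φ A B N i 1) y) + pd 2 (osc φ A B N i 2) y := by
    funext y
    rw [init_eq, Fin.sum_univ_three]
  have cc : ∀ j, Continuous (pd j (osc φ A B N i j)) := fun j => (cd_pd (aa i j).smooth j).continuous
  have kk : ∀ j, HasCompactSupport (pd j (osc φ A B N i j)) := fun j =>
    amp_compact hSc ((aa i j).pd D.Sc j)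
  rw [e1, hs1_add3 s x (f := fun j => pd j (osc φ A B N i j)) cc kk]
  have hj : ∀ j, √s * |hs1 s (pd j (osc φ A B N i j)) x| ≤ C (i, j) / N := fun j =>
    hI (i, j) N hN s hs x
  have h0 := hj 0
  have h1 := hj 1
  have h2 := hj 2
  have hq := Real.sqrt_nonneg s
  have hN0 : 0 < N := by linarith
  have hsum : C (i, 0) + C (i, 1) + C (i, 2) ≤ ∑ p, C p := by
    rw [Fintype.sum_prod_type]
    have : ∀ i, ∑ j, C (i, j) = C (i, 0) + C (i, 1) + C (i, 2) := fun i => Fin.sum_univ_three _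
    rw [← this i]
    exact Finset.single_le_sum (f := fun i => ∑ j, C (i, j))
      (fun i _ => Finset.sum_nonneg fun j _ => hC (i, j)) (Finset.mem_univ i)
  calc _ ≤ √s * (|hs1 s (pd 0 (osc φ A B N i 0)) x| + |hs1 s (pd 1 (osc φ A B N i 1)) x|
        + |hs1 s (pd 2 (osc φ A B N i 2)) x|) := by
        gcongr
        exact (abs_add_le _ _).trans (add_le_add (abs_add_le _ _) le_rfl)
    _ ≤ C (i, 0) / N + C (i, 1) / N + C (i, 2) / N := by linarith
    _ = (C (i, 0) + C (i, 1) + C (i, 2)) / N := by ring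
    _ ≤ _ := by gcongr

end Pool.Agent.J4H18.DN
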