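import Pool.Agent.J4H18.DN.H2

/-!
One stage, with the scale invariant size of the error.
-/

set_option autoImplicit false
set_option linter.unusedSectionVars false

open MeasureTheory Set Filter Topology
open scoped InnerProductSpace ENNReal ContDiff NNReal

namespace Pool.Agent.J4H18.DN

open H772R2.NS
open H772R2.NSR (Frame rellich_W exists_frame)
open Pool.Agent.W795.TQ
open Pool.Agent.Y303.LV (cl clj clj_coe)

variable {ν s : ℝ} {φ : E3 → ℝ} {A B h : Fin 3 → E3 → ℝ} {P : E3 → ℝ} {S K Ω : Set E3}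
  {F F1 : ℝ → L2M Ω}

theorem ent_le (R : E3 ≃ₗᵢ[ℝ] E3) (a i : Fin 3) : |ent R a i| ≤ 1 := by
  unfold ent
  have h1 := PiLp.norm_apply_le (R (H772R2.NS.ev i)) a
  rw [R.norm_map, Real.norm_eq_abs] at h1
  refine h1.trans ?_
  unfold H772R2.NS.ev
  simp

theorem rot_bound (R : E3 ≃ₗᵢ[ℝ] E3) (y : E3) (s : ℝ) {F : Fin 3 → E3 → ℝ} {M : ℝ}
    (hM : ∀ i x, |F i x| ≤ M) (i : Fin 3) (x : E3) : |rot R y s F i x| ≤ 3 * M := by
  unfold rot
  refine (Finset.abs_sum_le_sum_abs _ _).trans ?_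
  have h1 : ∀ a, |ent R a i * F a (TT R y s x)| ≤ M := by
    intro a
    rw [abs_mul]
    have h2 := ent_le R a i
    have h3 := hM a (TT R y s x)
    have h4 := abs_nonneg (F a (TT R y s x))
    have h5 := abs_nonneg (ent R a i)
    nlinarith
  refine (Finset.sum_le_sum fun a _ => h1 a).trans ?_
  simp

theorem S0_K0 : S0 ⊆ K0 := fun _ hx => hx.2

theorem amp_bd {F : Fin 3 → E3 → ℝ} (hF : ∀ i, Amp S0 (F i)) : ∃ M, 0 ≤ M ∧ ∀ i x, |F i x| ≤ M := by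
  choose M hM m using fun i => amp_bound K0_compact ((hF i).mono S0_K0)
  obtain ⟨Mm, hMm, mm⟩ := max3 (f := M)
  exact ⟨Mm, hMm, fun i x => (m i x).trans (mm i)⟩

/-- **All multiples of all torus fields are available, with bounds.** -/
theorem dat_all' (hν : 0 < ν) (R : E3 ≃ₗᵢ[ℝ] E3) (y : E3) (hs : 0 < s) :
    ∃ C1 : ℝ, 0 ≤ C1 ∧ ∀ c : ℝ,
    ∃ (φ : E3 → ℝ) (A B : Fin 3 → E3 → ℝ) (P : E3 → ℝ) (S K : Set E3),
      Dat ν φ A B (fun i x => c * rot R y s hh i x) P S K ∧ K ⊆ Metric.closedBall y (4 * s) ∧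
      (∀ i x, |A i x| ≤ C1 * √|c|) ∧ ∀ i x, |B i x| ≤ C1 * √|c| := by
  obtain ⟨Ma, hMa, ma⟩ := amp_bd (F := tA (3 / 5)) fun i => tA_amp _ i
  obtain ⟨Mb, hMb, mb⟩ := amp_bd (F := tA (-3 / 5)) fun i => tA_amp _ i
  obtain ⟨Mc, hMc, mc⟩ := amp_bd (F := tB (4 / 5)) fun i => tB_amp _ i
  set M : ℝ := Ma + Mb + Mc with hM
  have hM0 : 0 ≤ M := by positivity
  refine ⟨3 * M * √(20 / 3 * (s * ν)), by positivity, fun c => ?_⟩
  obtain ⟨β, γ, hβ, hc, hA', hB'⟩ : ∃ β γ : ℝ, β * β + γ * γ = 1 ∧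
      -(β / 4) * (|c| * 20 / 3) = c ∧ (∀ i x, |tA β i x| ≤ M) ∧ ∀ i x, |tB γ i x| ≤ M := by
    rcases le_total 0 c with h | h
    · refine ⟨-3 / 5, 4 / 5, by norm_num, ?_, fun i x => (mb i x).trans (by linarith),
        fun i x => (mc i x).trans (by linarith)⟩
      rw [abs_of_nonneg h]
      ring
    · refine ⟨3 / 5, 4 / 5, by norm_num, ?_, fun i x => (ma i x).trans (by linarith),
        fun i x => (mc i x).trans (by linarith)⟩
      rw [abs_of_nonpos h]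
      ring
  set μ : ℝ := Real.sqrt (|c| * 20 / 3 * (s * ν)) with hμ
  have hμ0 : 0 ≤ μ := Real.sqrt_nonneg _
  have hμ2 : μ ^ 2 = |c| * 20 / 3 * (s * ν) := Real.sq_sqrt (by positivity)
  have hμe : μ = √(20 / 3 * (s * ν)) * √|c| := by
    rw [hμ, ← Real.sqrt_mul (by positivity)]
    congr 1
    ring
  have D := (dat0 hβ).transport R y hs hν μ
  have key : (fun (i : Fin 3) (x : E3) => μ ^ 2 * 1 / (s * ν)
      * rot R y s (fun i x => -(β / 4) * hh i x) i x) = fun i x => c * rot R y s hh i x := by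
    funext i x
    rw [hμ2]
    unfold rot
    have e : |c| * 20 / 3 * (s * ν) * 1 / (s * ν) = |c| * 20 / 3 := by field_simp
    rw [e]
    simp only [Fin.sum_univ_three]
    linear_combination (ent R 0 i * hh 0 (TT R y s x) + ent R 1 i * hh 1 (TT R y s x)
      + ent R 2 i * hh 2 (TT R y s x)) * hc
  rw [key] at D
  refine ⟨_, _, _, _, _, _, D, pre_K0 R y hs, fun i x => ?_, fun i x => ?_⟩
  · rw [abs_mul, abs_of_nonneg hμ0]
    have := rot_bound R y s hA' i x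
    calc μ * |rot R y s (tA β) i x| ≤ μ * (3 * M) := by gcongr
      _ = _ := by
        rw [hμe]
        ring
  · rw [abs_mul, abs_of_nonneg hμ0]
    have := rot_bound R y s hB' i x
    calc μ * |rot R y s (tB γ) i x| ≤ μ * (3 * M) := by gcongr
      _ = _ := by
        rw [hμe]
        ring

/-- the new initial value -/
noncomputable def nw (ν : ℝ) (φ : E3 → ℝ) (A B h : Fin 3 → E3 → ℝ) (v0 : E3 → E3) (N : ℝ) :
    E3 → E3 := fun x => v0 x + vec (fun i => Xf ν φ A B h (fun j x => v0 x j) i N 0) x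

/-- **One stage**, for all large frequencies. -/
theorem stageN (hloc : S_loc) (hun : S_univ) (hΩ : IsOpen Ω) (hb : Bornology.IsBounded Ω)
    (hν : 0 < ν) {T : ℝ} (hT : 0 < T) (hF : FH T F F1) {v0 : E3 → E3} {v : ℝ → L2V Ω}
    (Sol : SolT Ω ν T F v0 v) (D : Dat ν φ A B h P S K) (hKΩ : K ⊆ Ω) {ε : ℝ} (hε : 0 < ε) :
    ∃ N1 : ℝ, 1 ≤ N1 ∧ ∀ N, N1 ≤ N → ∃ u : ℝ → L2V Ω, SolT Ω ν T F (nw ν φ A B h v0 N) u ∧
      ∀ t ∈ Icc ε T, ‖u t - v t‖ ≤ ε := by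
  obtain ⟨hv0, ⟨v1, y, y1, g0, Sv, hg0⟩, hv⟩ := Sol
  obtain ⟨C, Fr⟩ := exists_frame hΩ hb
  obtain ⟨c, hc, hU⟩ := hun
  have Un := hU Ω hΩ
  have Q := quad_tensL (Ω := Ω) hΩ.measurableSet
  have hφ := D.φs
  have hvs : ∀ j, ContDiff ℝ ∞ (fun x => v0 x j) := fun j => contDiff_coord hv0.smooth j
  obtain ⟨a, ha, hosc⟩ := exists_osc hΩ hν hv0 D hKΩ T
  obtain ⟨K0, N0, hK0, hN0, hmain⟩ := pertX hloc Fr Un Q (rellich_W hΩ hb) hν hT hF Sv hg0 ha
    (δ := ν / 2) (by positivity)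
  obtain ⟨Ca, hCa, a1, _⟩ := BO_fam hφ hν D.Kc (Xf_K hν D hvs)
  have hvK : 0 ≤ vK K := vK_nonneg
  set Z1 : ℝ := (K0 + Ca * vK K * (1 / (ν / 2 * ε))) / ε with hZ1
  have hZ10 : 0 ≤ Z1 := by positivity
  refine ⟨max N0 Z1, hN0.trans (le_max_left _ _), fun N hN => ?_⟩
  have hNN0 : N0 ≤ N := (le_max_left _ _).trans hN
  have hNZ1 : Z1 ≤ N := (le_max_right _ _).trans hN
  have hN1 : 1 ≤ N := hN0.trans hNN0
  have hNp : 0 < N := by linarith
  have O := hosc N hN1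
  rw [← hv] at O
  obtain ⟨u, u1, z, z1, g0', S', hu0, hg', hbd⟩ := hmain N hNN0 _ _ _ _ O
  have ht0 := Xf_test hν D hvs hKΩ hN1 0
  have hw0 : IsTest Ω (nw ν φ A B h v0 N) := hv0.add ht0
  refine ⟨u, ⟨hw0, ⟨u1, z, z1, g0', S', hg'⟩, ?_⟩, ?_⟩
  · unfold nw
    rw [hu0, hv, cl_add' hv0 ht0]
  · intro t ht
    have ht0 : 0 ≤ t := hε.le.trans ht.1
    have h1 := hbd t ⟨ht0, ht.2⟩
    have h2 : ‖cl Ω (vec fun i => Xf ν φ A B h (fun j x => v0 x j) i N t)‖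
        ≤ Ca * N ^ (1 : ℤ) * ev (ν / 2) N t * vK K :=
      (BO_CK hφ (Xf_K hν D hvs) hN1 t).norm_le D.Kc (a1 N hN1 t ht0)
    have h3 := N_ev_le (t := t) hNp (δ := ν / 2) (by positivity) hε ht.1
    rw [zpow_one] at h2
    have h4 : ‖u t - v t‖ ≤ K0 / N + Ca * vK K * (1 / (ν / 2 * ε)) / N := by
      have e : u t - v t = (u t - v t - cl Ω (vec fun i => Xf ν φ A B h (fun j x => v0 x j) i N t))
          + cl Ω (vec fun i => Xf ν φ A B h (fun j x => v0 x j) i N t) := by abel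
      rw [e]
      refine (norm_add_le _ _).trans (add_le_add h1 (h2.trans ?_))
      calc Ca * N * ev (ν / 2) N t * vK K = Ca * vK K * (N * ev (ν / 2) N t) := by ring
        _ ≤ Ca * vK K * (1 / (ν / 2 * ε) / N) := by gcongr
        _ = _ := by ring
    refine h4.trans ?_
    rw [← add_div, div_le_iff₀ hNp]
    have h5 : K0 + Ca * vK K * (1 / (ν / 2 * ε)) = Z1 * ε := by
      rw [hZ1]
      field_simp
    rw [h5]
    nlinarith

/-- **One stage**, with the size of the error in the scale invariant norm. -/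
theorem stageC (hloc : S_loc) (hun : S_univ) (hΩ : IsOpen Ω) (hb : Bornology.IsBounded Ω)
    (hν : 0 < ν) {T : ℝ} (hT : 0 < T) (hF : FH T F F1) {v0 : E3 → E3} {v : ℝ → L2V Ω}
    (Sol : SolT Ω ν T F v0 v) (D : Dat ν φ A B h P S K) (hKΩ : K ⊆ Ω) {α : ℝ} (hα : 0 ≤ α)
    (hA : ∀ i x, |A i x| ≤ α) (hB : ∀ i x, |B i x| ≤ α) {θ : ℝ} (hθ0 : 0 < θ) (hθ1 : θ ≤ 1)
    {ε s₀ : ℝ} (hε : 0 < ε) (hs₀ : 0 < s₀) :
    ∃ (w0 e : E3 → E3) (u : ℝ → L2V Ω), SolT Ω ν T F w0 u ∧ IsTest Ω e ∧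
      (∀ x, w0 x = v0 x + vec h x + e x) ∧ (∀ t ∈ Icc ε T, ‖u t - v t‖ ≤ ε) ∧
      (∀ s x i, 0 < s → √s * |hs1 s (fun y => e y i) x| ≤ 36 * α) ∧
      (∀ s x i, s₀ ≤ s → √s * |hs1 s (fun y => e y i) x| ≤ ε) ∧
      ∀ ψ, IsTest Ω ψ → |∫ x, ∑ i, e x i * ψ x i| ≤ ε * wn θ ψ := by
  have hv0 := Sol.test
  have hvs : ∀ j, ContDiff ℝ ∞ (fun x => v0 x j) := fun j => contDiff_coord hv0.smooth j
  have hφ := D.φs
  obtain ⟨N1, hN1, hN⟩ := stageN hloc hun hΩ hb hν hT hF Sol D hKΩ hε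
  obtain ⟨Cf, hCf, hfar⟩ := osc_far (v := fun j x => v0 x j) D hs₀
  obtain ⟨Ci, hCi, hcl⟩ := init_close (v := fun j x => v0 x j) hν D hvs
  have hlim : ∃ N : ℝ, N1 ≤ N ∧ Cf / N ≤ ε ∧ Ci / N ^ θ ≤ ε := by
    have h1 : Tendsto (fun N : ℝ => Ci / N ^ θ) atTop (𝓝 0) :=
      tendsto_const_nhds.div_atTop (tendsto_rpow_atTop hθ0)
    have h0 : Tendsto (fun N : ℝ => Cf / N) atTop (𝓝 0) :=
      tendsto_const_nhds.div_atTop tendsto_id
    have h2 := (h1.eventually (gt_mem_nhds hε)).and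
      ((h0.eventually (gt_mem_nhds hε)).and (eventually_ge_atTop N1))
    obtain ⟨N, h3, h4, h5⟩ := h2.exists
    exact ⟨N, h5, h4.le, h3.le⟩
  obtain ⟨N, hNN, hNf, hNθ⟩ := hlim
  have hN' : 1 ≤ N := hN1.trans hNN
  have hNp : 0 < N := by linarith
  obtain ⟨u, Su, hu⟩ := hN N hNN
  set e : E3 → E3 := vec fun i x => Xf ν φ A B h (fun j x => v0 x j) i N 0 x - h i x with he
  have cX : ∀ i, ContDiff ℝ ∞ (Xf ν φ A B h (fun j x => v0 x j) i N 0) := fun i =>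
    (Xf_K hν D hvs i).cdx hφ hN' 0
  have ch : ∀ i, ContDiff ℝ ∞ (h i) := fun i => (D.ha i).smooth
  have het : IsTest Ω e := by
    refine test_of D.Kc hKΩ (fun i => (cX i).sub (ch i)) (fun i x hx => ?_) fun x => ?_
    · rw [(Xf_K hν D hvs i).off hN' 0 hx, (D.ha i).off x fun h => hx (D.SK h), sub_zero]
    · have e1 : ∀ i, pd i (fun x => Xf ν φ A B h (fun j x => v0 x j) i N 0 x - h i x) x
          = pd i (Xf ν φ A B h (fun j x => v0 x j) i N 0) x - pd i (h i) x := fun i =>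
        pd_sub (cX i) (ch i) i x
      rw [Finset.sum_congr rfl fun i _ => e1 i, Finset.sum_sub_distrib, Xf_div hν D hvs 0 x,
        D.hd x, sub_zero]
  have ee : ∀ i, (fun y => e y i) = fun y => Xf ν φ A B h (fun j x => v0 x j) i N 0 y - h i y :=
    fun i => rfl
  refine ⟨nw ν φ A B h v0 N, e, u, Su, het, fun x => ?_, hu, fun s x i hs => ?_,
    fun s x i hs => ?_, fun ψ hψ => ?_⟩
  · ext i
    show v0 x i + Xf ν φ A B h (fun j x => v0 x j) i N 0 x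
      = v0 x i + h i x + (Xf ν φ A B h (fun j x => v0 x j) i N 0 x - h i x)
    ring
  · rw [ee i]
    exact osc_HC D hα hA hB s x i hs
  · rw [ee i]
    exact (hfar N hN' s hs x i).trans hNf
  · obtain ⟨b1, b2⟩ := hcl N hN' ψ hψ.smooth hψ.compact
    have e1 : ∀ x, ∑ i, e x i * ψ x i
        = ∑ i, (Xf ν φ A B h (fun j x => v0 x j) i N 0 x - h i x) * ψ x i := fun x => rfl
    simp only [e1]
    have h1 := interp hθ0 hθ1 (abs_nonneg _) b1 b2
    refine h1.trans ?_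
    have g1 := G1_nonneg ψ
    have g2 := G2_nonneg ψ
    rw [Real.mul_rpow hCi g1, Real.mul_rpow (by positivity) (by positivity)]
    have e2 : Ci ^ (1 - θ) * G1 ψ ^ (1 - θ) * ((Ci / N) ^ θ * (G1 ψ + G2 ψ) ^ θ)
        = (Ci ^ (1 - θ) * (Ci / N) ^ θ) * wn θ ψ := by
      unfold wn
      ring
    have e3 : Ci ^ (1 - θ) * (Ci / N) ^ θ = Ci / N ^ θ := by
      rw [Real.div_rpow hCi hNp.le, ← mul_div_assoc, ← Real.rpow_add' hCi (by norm_num)]
      simp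
    rw [e2, e3]
    exact mul_le_mul_of_nonneg_right hNθ (wn_nonneg θ ψ)

end Pool.Agent.J4H18.DN
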