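import Pool.Agent.J4H18.DN.H3

/-!
Many stages: every multiple of a torus field is reached with an error which is small in the scale
invariant norm.
-/

set_option autoImplicit false
set_option linter.unusedSectionVars false

open MeasureTheory Set Filter Topology
open scoped InnerProductSpace ENNReal ContDiff NNReal

namespace Pool.Agent.J4H18.DN

open H772R2.NS
open Pool.Agent.W795.TQ
open Pool.Agent.Y303.LV (cl clj clj_coe)

variable {Ω : Set E3} {ν T s : ℝ} {F F1 : ℝ → L2M Ω} {θ : ℝ}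

theorem wint_add {e e' ψ : E3 → E3} (he : IsTest Ω e) (he' : IsTest Ω e') (hψ : IsTest Ω ψ) :
    ∫ x, ∑ i, (e x + e' x) i * ψ x i = (∫ x, ∑ i, e x i * ψ x i) + ∫ x, ∑ i, e' x i * ψ x i := by
  have hi : ∀ {e : E3 → E3}, IsTest Ω e → Integrable fun x => ∑ i, e x i * ψ x i := fun he =>
    integrable_finsetSum _ fun i _ => ((test_c he i).mul
      (test_c hψ i)).integrable_of_hasCompactSupport (test_k hψ i).mul_left
  rw [← integral_add (hi he) (hi he')]
  congr 1
  funext x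
  rw [← Finset.sum_add_distrib]
  refine Finset.sum_congr rfl fun i _ => ?_
  rw [PiLp.add_apply]
  ring

/-- the torus fields are test fields -/
theorem torus_test (R : E3 ≃ₗᵢ[ℝ] E3) (y : E3) (hs : 0 < s)
    (hB : Metric.closedBall y (4 * s) ⊆ Ω) : IsTest Ω (vec (rot R y s hh)) := by
  obtain ⟨φ, A, B, P, S, K, D, hK⟩ := dat_all one_pos R y hs 1
  have h1 := test_of D.Kc (hK.trans hB) (fun i => (D.ha i).smooth)
    (fun i x hx => (D.ha i).off x fun h => hx (D.SK h)) D.hd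
  have e : (fun (i : Fin 3) (x : E3) => (1 : ℝ) * rot R y s hh i x) = rot R y s hh := by
    funext i x
    rw [one_mul]
  rwa [e] at h1

/-- the property of a change of the initial velocity -/
def RchC (Ω : Set E3) (ν T : ℝ) (F : ℝ → L2M Ω) (θ : ℝ) (g : E3 → E3) : Prop :=
  ∀ (v0 : E3 → E3) (v : ℝ → L2V Ω), SolT Ω ν T F v0 v → ∀ ε : ℝ, 0 < ε →
    ∃ (w0 e : E3 → E3) (u : ℝ → L2V Ω), SolT Ω ν T F w0 u ∧ IsTest Ω e ∧
      (∀ x, w0 x = v0 x + g x + e x) ∧ (∀ t ∈ Icc ε T, ‖u t - v t‖ ≤ ε) ∧ HC ε e ∧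
      ∀ ψ, IsTest Ω ψ → |∫ x, ∑ i, e x i * ψ x i| ≤ ε * wn θ ψ

theorem zero_test : IsTest Ω (fun _ => (0 : E3)) := IsTest.zero

theorem HC_zero {η : ℝ} (hη : 0 ≤ η) : HC η (fun _ => (0 : E3)) := by
  intro s x i _
  have : (fun y : E3 => (0 : E3) i) = fun _ => (0 : ℝ) := rfl
  rw [this, hs1_zero]
  simp [hη]

theorem wint_zero (ψ : E3 → E3) : ∫ x, ∑ i, (0 : E3) i * ψ x i = 0 := by
  simp

theorem RchC.zero : RchC Ω ν T F θ (fun _ => 0) := by
  intro v0 v S ε hε
  refine ⟨v0, fun _ => 0, v, S, zero_test, fun x => by simp, fun t _ => ?_, HC_zero hε.le,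
    fun ψ _ => ?_⟩
  · rw [sub_self, norm_zero]
    exact hε.le
  · rw [wint_zero, abs_zero]
    exact mul_nonneg hε.le (wn_nonneg θ ψ)

theorem RchC.add {g g' : E3 → E3} (h : RchC Ω ν T F θ g) (h' : RchC Ω ν T F θ g') :
    RchC Ω ν T F θ (fun x => g x + g' x) := by
  intro v0 v S ε hε
  obtain ⟨w, e, u, S1, t1, a0, a1, a2, a3⟩ := h v0 v S (ε / 2) (by positivity)
  obtain ⟨w', e', u', S2, t2, b0, b1, b2, b3⟩ := h' w u S1 (ε / 2) (by positivity)
  refine ⟨w', fun x => e x + e' x, u', S2, t1.add t2, fun x => ?_, fun t ht => ?_, ?_,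
    fun ψ hψ => ?_⟩
  · rw [b0, a0]
    beta_reduce
    abel
  · have ht' : t ∈ Icc (ε / 2) T := ⟨by linarith [ht.1], ht.2⟩
    have e : u' t - v t = (u' t - u t) + (u t - v t) := by abel
    rw [e]
    refine (norm_add_le _ _).trans ?_
    linarith [a1 t ht', b1 t ht']
  · exact (HC.add t1 t2 a2 b2).mono (by linarith)
  · rw [wint_add t1 t2 hψ]
    refine (abs_add_le _ _).trans ?_
    linarith [a3 ψ hψ, b3 ψ hψ]

/-- many small stages -/
theorem stages (hloc : S_loc) (hun : S_univ) (hΩ : IsOpen Ω) (hb : Bornology.IsBounded Ω)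
    (hν : 0 < ν) (hT : 0 < T) (hF : FH T F F1) (hθ0 : 0 < θ) (hθ1 : θ ≤ 1)
    {R : E3 ≃ₗᵢ[ℝ] E3} {y : E3} (hB : Metric.closedBall y (4 * s) ⊆ Ω) {C1 : ℝ}
    (hC1 : 0 ≤ C1) {c : ℝ}
    (hD : ∃ (φ : E3 → ℝ) (A B : Fin 3 → E3 → ℝ) (P : E3 → ℝ) (S K : Set E3),
      Dat ν φ A B (fun i x => c * rot R y s hh i x) P S K ∧ K ⊆ Metric.closedBall y (4 * s) ∧
      (∀ i x, |A i x| ≤ C1) ∧ ∀ i x, |B i x| ≤ C1)
    {v0 : E3 → E3} {v : ℝ → L2V Ω} (Sol : SolT Ω ν T F v0 v) {ε : ℝ} (hε : 0 < ε) (n : ℕ) :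
    ∃ (w0 e : E3 → E3) (u : ℝ → L2V Ω), SolT Ω ν T F w0 u ∧ IsTest Ω e ∧
      (∀ x, w0 x = v0 x + vec (fun i x => n * c * rot R y s hh i x) x + e x) ∧
      (∀ t ∈ Icc ε T, ‖u t - v t‖ ≤ n * ε) ∧ HC (36 * C1 + n * ε) e ∧
      ∀ ψ, IsTest Ω ψ → |∫ x, ∑ i, e x i * ψ x i| ≤ n * ε * wn θ ψ := by
  induction n with
  | zero =>
    refine ⟨v0, fun _ => 0, v, Sol, zero_test, fun x => ?_, fun t _ => ?_,
      HC_zero (by positivity), fun ψ _ => ?_⟩
    · ext i
      simp [vec]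
    · simp
    · rw [wint_zero]
      simp
  | succ n ih =>
    obtain ⟨w, e, u, S1, t1, a0, a1, a2, a3⟩ := ih
    obtain ⟨φ, A, B, P, S, K, D, hK, hA, hBB⟩ := hD
    obtain ⟨M, hM, hMe⟩ := test_bdd t1
    set s₀ : ℝ := (ε / (M + 1)) ^ 2 with hs₀
    have hs₀p : 0 < s₀ := by positivity
    have hsq : √s₀ * M ≤ ε := by
      rw [hs₀, Real.sqrt_sq (by positivity)]
      calc ε / (M + 1) * M = ε * (M / (M + 1)) := by ring
        _ ≤ ε * 1 := by
            gcongr
            rw [div_le_one (by positivity)]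
            linarith
        _ = ε := mul_one _
    obtain ⟨w', e', u', S2, t2, b0, b1, b2, b3, b4⟩ := stageC hloc hun hΩ hb hν hT hF S1 D
      (hK.trans hB) hC1 hA hBB hθ0 hθ1 hε hs₀p
    refine ⟨w', fun x => e x + e' x, u', S2, t1.add t2, fun x => ?_, fun t ht => ?_, ?_,
      fun ψ hψ => ?_⟩
    · rw [b0, a0]
      have e1 : vec (fun i x => ((n + 1 : ℕ) : ℝ) * c * rot R y s hh i x) x
          = vec (fun i x => (n : ℝ) * c * rot R y s hh i x) x
            + vec (fun i x => c * rot R y s hh i x) x := by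
        ext i
        rw [PiLp.add_apply, vec_apply, vec_apply, vec_apply]
        push_cast
        ring
      rw [e1]
      beta_reduce
      abel
    · have e1 : u' t - v t = (u' t - u t) + (u t - v t) := by abel
      rw [e1]
      refine (norm_add_le _ _).trans ?_
      push_cast
      linarith [a1 t ht, b1 t ht]
    · intro r x i hr
      have e1 : (fun y => (e y + e' y) i) = fun y => e y i + e' y i := rfl
      rw [e1, hs1_add r x (test_c t1 i) (test_k t1 i) (test_c t2 i) (test_k t2 i)]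
      have hq := Real.sqrt_nonneg r
      have htri : √r * |hs1 r (fun y => e y i) x + hs1 r (fun y => e' y i) x|
          ≤ √r * |hs1 r (fun y => e y i) x| + √r * |hs1 r (fun y => e' y i) x| := by
        rw [← mul_add]
        gcongr
        exact abs_add_le _ _
      refine htri.trans ?_
      push_cast
      rcases le_total s₀ r with h | h
      · have c1 := a2 r x i hr
        have c2 := b3 r x i h
        linarith
      · have c1 : √r * |hs1 r (fun y => e y i) x| ≤ ε := by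
          have d1 := hs1_le hr x (fun y => hMe y i)
          have d2 := Real.sqrt_le_sqrt h
          calc √r * |hs1 r (fun y => e y i) x| ≤ √s₀ * M := by gcongr
            _ ≤ ε := hsq
        have c2 := b2 r x i hr
        have : 0 ≤ (n : ℝ) * ε := by positivity
        linarith
    · rw [wint_add t1 t2 hψ]
      refine (abs_add_le _ _).trans ?_
      push_cast
      have := a3 ψ hψ
      have := b4 ψ hψ
      linarith

/-- **Every multiple of a torus field is reached.** -/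
theorem RchC.torus (hloc : S_loc) (hun : S_univ) (hΩ : IsOpen Ω) (hb : Bornology.IsBounded Ω)
    (hν : 0 < ν) (hT : 0 < T) (hF : FH T F F1) (hθ0 : 0 < θ) (hθ1 : θ ≤ 1)
    (R : E3 ≃ₗᵢ[ℝ] E3) (y : E3) (hs : 0 < s) (hB : Metric.closedBall y (4 * s) ⊆ Ω) (c : ℝ) :
    RchC Ω ν T F θ (vec fun i x => c * rot R y s hh i x) := by
  intro v0 v Sol ε hε
  obtain ⟨C1, hC1, hD⟩ := dat_all' hν R y hs
  -- the number of stages
  obtain ⟨n, hn⟩ : ∃ n : ℕ, (36 * C1) ^ 2 * |c| ≤ (ε / 2) ^ 2 * ((n : ℝ) + 1) := by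
    obtain ⟨n, hn⟩ := exists_nat_ge ((36 * C1) ^ 2 * |c| / (ε / 2) ^ 2)
    refine ⟨n, ?_⟩
    have h2 : 0 < (ε / 2) ^ 2 := by positivity
    rw [div_le_iff₀ h2] at hn
    nlinarith
  set m : ℝ := (n : ℝ) + 1 with hm
  have hm0 : 0 < m := by positivity
  have hm1 : 1 ≤ m := by
    have : (0 : ℝ) ≤ n := Nat.cast_nonneg n
    linarith
  have hsize : 36 * (C1 * √|c / m|) ≤ ε / 2 := by
    have h1 : (36 * (C1 * √|c / m|)) ^ 2 ≤ (ε / 2) ^ 2 := by
      have h2 : (36 * (C1 * √|c / m|)) ^ 2 = (36 * C1) ^ 2 * |c| / m := by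
        have : √|c / m| ^ 2 = |c| / m := by
          rw [Real.sq_sqrt (abs_nonneg _), abs_div, abs_of_pos hm0]
        calc (36 * (C1 * √|c / m|)) ^ 2 = (36 * C1) ^ 2 * √|c / m| ^ 2 := by ring
          _ = _ := by
            rw [this]
            ring
      rw [h2, div_le_iff₀ hm0]
      exact hn
    exact (pow_le_pow_iff_left₀ (by positivity) (by positivity) (by norm_num)).mp h1
  obtain ⟨w, e, u, S1, t1, a0, a1, a2, a3⟩ := stages hloc hun hΩ hb hν hT hF hθ0 hθ1 hB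
    (by positivity : 0 ≤ C1 * √|c / m|) (hD (c / m)) Sol (ε := ε / (2 * m)) (by positivity) (n + 1)
  have hcast : ((n + 1 : ℕ) : ℝ) = m := by
    push_cast
    rfl
  rw [hcast] at a0 a1 a2 a3
  have he : m * (ε / (2 * m)) = ε / 2 := by field_simp
  rw [he] at a1 a2 a3
  refine ⟨w, e, u, S1, t1, fun x => ?_, fun t ht => ?_, a2.mono (by linarith), fun ψ hψ => ?_⟩
  · rw [a0]
    have : m * (c / m) = c := by field_simp
    rw [this]
  · have h1 : ε / (2 * m) ≤ ε := by
      rw [div_le_iff₀ (by positivity)]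
      nlinarith
    have := a1 t ⟨h1.trans ht.1, ht.2⟩
    linarith
  · have h1 := a3 ψ hψ
    have h2 : ε / 2 * wn θ ψ ≤ ε * wn θ ψ :=
      mul_le_mul_of_nonneg_right (by linarith) (wn_nonneg θ ψ)
    exact h1.trans h2

end Pool.Agent.J4H18.DN
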