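import Pool.Agent.J4H18.DN.H4
import Pool.Agent.J4H18.DN.F7

/-!
Density on a bounded time interval, the error being the sum of a part which is small in the scale
invariant norm and of a part which is small in the dual space of the energy space.
-/

set_option autoImplicit false
set_option linter.unusedSectionVars false

open MeasureTheory Set Filter Topology
open scoped InnerProductSpace ENNReal ContDiff NNReal

namespace Pool.Agent.J4H18.DN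

open H772R2.NS
open Pool.Agent.W795.TQ
open H772R2.NSR (Frame prim_cont exists_frame rellich_W exists_poinc)
open Pool.Agent.Y303.LV (cl clj clj_coe)

variable {Ω : Set E3} {ν T s : ℝ} {F F1 : ℝ → L2M Ω} {θ : ℝ}

theorem span_rch (hloc : S_loc) (hun : S_univ) (hΩ : IsOpen Ω) (hb : Bornology.IsBounded Ω)
    (hν : 0 < ν) (hT : 0 < T) (hF : FH T F F1) (hθ0 : 0 < θ) (hθ1 : θ ≤ 1) {g : L2V Ω}
    (hg : g ∈ Submodule.span ℝ (TF Ω)) :
    ∃ gf : E3 → E3, IsTest Ω gf ∧ cl Ω gf = g ∧ RchC Ω ν T F θ gf := by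
  induction hg using Submodule.closure_induction with
  | zero =>
    refine ⟨fun _ => 0, zero_test, ?_, RchC.zero⟩
    apply Lp.ext
    filter_upwards [(CK.test (Ω := Ω) zero_test).coe (Ω := Ω) (zero_test (Ω := Ω)).compact,
      Lp.coeFn_zero E3 2 (volume.restrict Ω)] with x h1 h2
    rw [h1, h2]
    rfl
  | add x y _ _ hx hy =>
    obtain ⟨g1, t1, c1, r1⟩ := hx
    obtain ⟨g2, t2, c2, r2⟩ := hy
    exact ⟨fun x => g1 x + g2 x, t1.add t2, by rw [cl_add' t1 t2, c1, c2], r1.add r2⟩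
  | smul_mem c x hx =>
    obtain ⟨R, y, s, hs, hB, rfl⟩ := hx
    have t1 := torus_test R y hs hB
    have e : vec (fun i x => c * rot R y s hh i x) = fun x => c • vec (rot R y s hh) x := by
      funext x
      ext i
      rw [vec_apply, PiLp.smul_apply, vec_apply, smul_eq_mul]
    have k := rot_CK R y hs
    have hK : IsCompact (Metric.closedBall y (4 * s)) := isCompact_closedBall _ _
    refine ⟨vec fun i x => c * rot R y s hh i x, ?_, ?_,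
      RchC.torus hloc hun hΩ hb hν hT hF hθ0 hθ1 R y hs hB c⟩
    · rw [e]
      exact IsTest.smul c t1
    · rw [e, k.cl_smul hK]

theorem wint_cl {e ψ : E3 → E3} (hm : MeasurableSet Ω) (he : IsTest Ω e) (hψ : IsTest Ω ψ) :
    ⟪cl Ω e, cl Ω ψ⟫_ℝ = ∫ x, ∑ i, e x i * ψ x i :=
  (CK.test he).inner he.compact hm he.supp ((CK.test hψ).coe hψ.compact)

/-- **Density on a bounded time interval**, from a solution with a test field. -/
theorem density_T2 (hloc : S_loc) (hun : S_univ) (hΩ : IsOpen Ω) (hb : Bornology.IsBounded Ω)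
    (hν : 0 < ν) (hT : 0 < T) (hF : FH T F F1) (hθ0 : 0 < θ) (hθ1 : θ ≤ 1) {v0 : E3 → E3}
    {v : ℝ → L2V Ω} (S : SolT Ω ν T F v0 v) (f : L2V Ω) {ε : ℝ} (hε : 0 < ε) :
    ∃ (w0 e : E3 → E3) (u : ℝ → L2V Ω), SolT Ω ν T F w0 u ∧ IsTest Ω e ∧
      (∀ t ∈ Icc ε T, ‖u t - v t‖ ≤ ε) ∧ HC ε e ∧
      (∀ ψ, IsTest Ω ψ → |∫ x, ∑ i, e x i * ψ x i| ≤ ε * wn θ ψ) ∧
      ∀ ψ, IsTest Ω ψ → |⟪cl Ω w0 - cl Ω e - f, cl Ω ψ⟫_ℝ| ≤ ε * G1 ψ := by
  have hv0 := S.test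
  obtain ⟨g, hg, h1⟩ := approx_torus hΩ hb (f - cl Ω v0) hε
  obtain ⟨gf, tg, cg, rg⟩ := span_rch hloc hun hΩ hb hν hT hF hθ0 hθ1 hg
  obtain ⟨w0, e, u, S', te, a0, a1, a2, a3⟩ := rg v0 v S ε hε
  refine ⟨w0, e, u, S', te, a1, a2, a3, fun ψ hψ => ?_⟩
  have e1 : w0 = fun x => (v0 x + gf x) + e x := by
    funext x
    exact a0 x
  have h2 : IsTest Ω fun x => v0 x + gf x := hv0.add tg
  have e2 : cl Ω w0 - cl Ω e - f = -(f - cl Ω v0 - g) := by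
    rw [e1, cl_add' h2 te, cl_add' hv0 tg, cg]
    abel
  rw [e2, inner_neg_left, abs_neg]
  have h3 := h1 _ (test_mem hψ)
  simp only at h3
  rw [clj_G1 hΩ.measurableSet hψ] at h3
  exact h3

/-- **Density on a bounded time interval.** -/
theorem density_A2 (hloc : S_loc) (hun : S_univ) (hode : S_ode) (he1 : S_est1) (he2 : S_est2)
    (hΩ : IsOpen Ω) (hb : Bornology.IsBounded Ω) (hν : 0 < ν) (hT : 0 < T) (hF : FH T F F1)
    {f0 : L2V Ω} (hf0 : ∀ p ∈ graphW Ω, ⟪F 0, p.2⟫_ℝ = ⟪f0, p.1⟫_ℝ) (hθ0 : 0 < θ) (hθ1 : θ ≤ 1)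
    {v v1 : ℝ → L2V Ω} {y y1 : ℝ → L2M Ω} (S : Str (graphW Ω) (tensL (Ω := Ω)) ν T F v v1 y y1)
    (f : L2V Ω) (U : L2M Ω) {ε : ℝ} (hε : 0 < ε) :
    ∃ (w0 e : E3 → E3) (u : ℝ → L2V Ω), SolT Ω ν T F w0 u ∧ IsTest Ω e ∧
      (∀ t ∈ Icc ε T, ‖u t - v t‖ ≤ ε) ∧ HC ε e ∧
      (∀ ψ, IsTest Ω ψ → |∫ x, ∑ i, e x i * ψ x i| ≤ ε * wn θ ψ) ∧
      ∀ ψ, IsTest Ω ψ → |⟪cl Ω w0 - cl Ω e - f, cl Ω ψ⟫_ℝ - ⟪U, clj Ω ψ⟫_ℝ| ≤ ε * G1 ψ := by
  obtain ⟨c, hc, hU⟩ := hun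
  obtain ⟨ε0, C7, hε0, hC7, hap⟩ := exists_apz hode he1 he2 hc
  obtain ⟨C, Fr⟩ := exists_frame hΩ hb
  have hm : MeasurableSet Ω := hΩ.measurableSet
  obtain ⟨δ, hδ, hst⟩ := vstab hloc hε0 hC7 hap Fr (hU Ω hΩ) (rellich_W hΩ hb) hν hT hF S
    (η := ε / 2) (by positivity)
  obtain ⟨φ, hφ, k1, k2⟩ := test_near (S.mem 0 ⟨le_rfl, hT.le⟩) (lt_min hδ one_pos)
  obtain ⟨g, hg⟩ := compat_test hm hφ ν hf0
  obtain ⟨u0, u01, z0, z01, S0, h0, hclose⟩ := hst (cl Ω φ) g (clj Ω φ) (test_mem hφ) hg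
    (k1.trans (min_le_left _ _)) (k2.trans (min_le_right _ _))
  have hz0 : z0 0 = clj Ω φ := by
    have h1 := S0.mem 0 ⟨le_rfl, hT.le⟩
    rw [h0] at h1
    have h2 := Fr.uniq _ ((graphW Ω).sub_mem h1 (test_mem hφ)) (by simp)
    simpa [sub_eq_zero] using h2
  have ST : SolT Ω ν T F φ u0 := ⟨hφ, ⟨u01, z0, z01, g, S0, fun p hp => by
    rw [hz0, h0]
    exact hg p hp⟩, h0⟩
  obtain ⟨fU, hfU⟩ := approxU (graphW_closed Ω) Fr.poinc Fr.uniq U (ε := ε / 2) (by positivity)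
  obtain ⟨w0, e, u, S', te, a1, a2, a3, a4⟩ := density_T2 hloc ⟨c, hc, hU⟩ hΩ hb hν hT hF hθ0 hθ1
    ST (f + fU) (ε := ε / 2) (by positivity)
  refine ⟨w0, e, u, S', te, fun t ht => ?_, a2.mono (by linarith), fun ψ hψ => ?_,
    fun ψ hψ => ?_⟩
  · have ht' : t ∈ Icc (ε / 2) T := ⟨by linarith [ht.1], ht.2⟩
    have ht0 : t ∈ Icc 0 T := ⟨by linarith [ht.1], ht.2⟩
    have e : u t - v t = (u t - u0 t) + (u0 t - v t) := by abel
    rw [e]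
    refine (norm_add_le _ _).trans ?_
    linarith [a1 t ht', hclose t ht0]
  · have h1 := a3 ψ hψ
    have h2 : ε / 2 * wn θ ψ ≤ ε * wn θ ψ :=
      mul_le_mul_of_nonneg_right (by linarith) (wn_nonneg θ ψ)
    exact h1.trans h2
  · have h1 := a4 ψ hψ
    have h2 := hfU _ (test_mem hψ)
    simp only at h2
    rw [clj_G1 hm hψ] at h2
    have e5 : ⟪cl Ω w0 - cl Ω e - f, cl Ω ψ⟫_ℝ - ⟪U, clj Ω ψ⟫_ℝ
        = ⟪cl Ω w0 - cl Ω e - (f + fU), cl Ω ψ⟫_ℝ - (⟪U, clj Ω ψ⟫_ℝ - ⟪fU, cl Ω ψ⟫_ℝ) := by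
      rw [inner_sub_left, inner_sub_left (x := cl Ω w0 - cl Ω e) (y := f + fU), inner_add_left]
      ring
    rw [e5]
    refine (abs_sub _ _).trans ?_
    linarith

end Pool.Agent.J4H18.DN
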