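import Pool.Agent.J4H18.DN.F6

/-!
Translation in time, energy inequality with force, continuation if energy and force are small.
-/

set_option autoImplicit false
set_option linter.unusedSectionVars false

open MeasureTheory Set Filter Topology
open scoped InnerProductSpace

namespace Pool.Agent.J4H18.DN

open Pool.Agent.W795.TQ
open Pool.Agent.Y303.NF (str_unique)
open H772R2.NSR (Frame prim_cont)

variable {H K : Type} [NormedAddCommGroup H] [InnerProductSpace ℝ H] [CompleteSpace H]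
  [NormedAddCommGroup K] [InnerProductSpace ℝ K] [CompleteSpace K]
  {W : Submodule ℝ (H × K)} {m : H → K} {C c ν T τ a : ℝ} {F F1 : ℝ → K}
  {u u1 v v1 : ℝ → H} {z z1 y y1 : ℝ → K}

theorem mp_add (a S : ℝ) : MeasurePreserving (fun s : ℝ => a + s) (volume.restrict (Ioc 0 S))
    (volume.restrict (Ioc a (a + S))) := by
  have := (measurePreserving_add_left (volume : Measure ℝ) a).restrict_preimage
    (measurableSet_Ioc (a := a) (b := a + S))
  have e : (fun s : ℝ => a + s) ⁻¹' Ioc a (a + S) = Ioc 0 S := by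
    ext s
    simp only [mem_preimage, mem_Ioc]
    constructor <;> intro h <;> constructor <;> linarith [h.1, h.2]
  rwa [e] at this

theorem ii_on {f : ℝ → ℝ} (hf : ContinuousOn f (Icc 0 T)) {s t : ℝ} (hs : 0 ≤ s) (hst : s ≤ t)
    (ht : t ≤ T) : IntervalIntegrable f volume s t := by
  refine ContinuousOn.intervalIntegrable ?_
  rw [uIcc_of_le hst]
  exact hf.mono (Icc_subset_Icc hs ht)

/-- energy equality between two times -/
theorem en_two' (hFc : ContinuousOn F (Icc 0 T)) (S : Str W m ν T F u u1 z z1) {s t : ℝ}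
    (hs : 0 ≤ s) (hst : s ≤ t) (ht : t ≤ T) :
    ‖u t‖ ^ 2 / 2 + ν * (∫ r in s..t, ‖z r‖ ^ 2)
      = ‖u s‖ ^ 2 / 2 + ∫ r in s..t, ⟪F r, z r⟫_ℝ := by
  have h1 := S.energy t ⟨hs.trans hst, ht⟩
  have h2 := S.energy s ⟨hs, hst.trans ht⟩
  have hzc : ContinuousOn z (Icc 0 T) := prim_cont S.z1m S.pz
  have c1 : ContinuousOn (fun r => ‖z r‖ ^ 2) (Icc 0 T) := hzc.norm.pow 2
  have c2 : ContinuousOn (fun r => ⟪F r, z r⟫_ℝ) (Icc 0 T) := hFc.inner hzc
  have h3 := intervalIntegral.integral_add_adjacent_intervals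
    (ii_on c1 le_rfl hs (hst.trans ht)) (ii_on c1 hs hst ht)
  have h4 := intervalIntegral.integral_add_adjacent_intervals
    (ii_on c2 le_rfl hs (hst.trans ht)) (ii_on c2 hs hst ht)
  rw [← h3, ← h4] at h1
  linarith

/-- energy inequality -/
theorem en_le (hν : 0 < ν) (hFc : ContinuousOn F (Icc 0 T)) (S : Str W m ν T F u u1 z z1)
    {s t : ℝ} (hs : 0 ≤ s) (hst : s ≤ t) (ht : t ≤ T) :
    ‖u t‖ ^ 2 + ν * (∫ r in s..t, ‖z r‖ ^ 2) ≤ ‖u s‖ ^ 2 + 1 / ν * ∫ r in s..t, ‖F r‖ ^ 2 := by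
  have h1 := en_two' hFc S hs hst ht
  have hzc : ContinuousOn z (Icc 0 T) := prim_cont S.z1m S.pz
  have c1 : ContinuousOn (fun r => ‖z r‖ ^ 2) (Icc 0 T) := hzc.norm.pow 2
  have c2 : ContinuousOn (fun r => ⟪F r, z r⟫_ℝ) (Icc 0 T) := hFc.inner hzc
  have c3 : ContinuousOn (fun r => ‖F r‖ ^ 2) (Icc 0 T) := hFc.norm.pow 2
  have i1 := (ii_on c1 hs hst ht).const_mul (ν / 2)
  have i3 := (ii_on c3 hs hst ht).const_mul (1 / (2 * ν))
  have h2 : ∫ r in s..t, ⟪F r, z r⟫_ℝ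
      ≤ ∫ r in s..t, (ν / 2 * ‖z r‖ ^ 2 + 1 / (2 * ν) * ‖F r‖ ^ 2) := by
    refine intervalIntegral.integral_mono_on hst (ii_on c2 hs hst ht) (i1.add i3) fun r _ => ?_
    have h3 := real_inner_le_norm (F r) (z r)
    have h4 : ‖F r‖ * ‖z r‖ ≤ ν / 2 * ‖z r‖ ^ 2 + 1 / (2 * ν) * ‖F r‖ ^ 2 := by
      have h5 : 0 ≤ (ν * ‖z r‖ - ‖F r‖) ^ 2 / (2 * ν) := by positivity
      have h6 : (ν * ‖z r‖ - ‖F r‖) ^ 2 / (2 * ν)
          = ν / 2 * ‖z r‖ ^ 2 + 1 / (2 * ν) * ‖F r‖ ^ 2 - ‖F r‖ * ‖z r‖ := by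
        field_simp
        ring
      linarith
    exact h3.trans h4
  rw [intervalIntegral.integral_add i1 i3, intervalIntegral.integral_const_mul,
    intervalIntegral.integral_const_mul] at h2
  have h7 : 1 / (2 * ν) * (∫ r in s..t, ‖F r‖ ^ 2) = 1 / 2 * (1 / ν * ∫ r in s..t, ‖F r‖ ^ 2) := by
    field_simp
  rw [h7] at h2
  linarith

/-- translation in time -/
theorem str_sh (Fr : Frame W m C) (hFc : ContinuousOn F (Icc 0 T))
    (S : Str W m ν T F u u1 z z1) (ha : 0 ≤ a) (haT : a ≤ T) :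
    Str W m ν (T - a) (fun t => F (a + t)) (fun t => u (a + t)) (fun t => u1 (a + t))
      (fun t => z (a + t)) (fun t => z1 (a + t)) := by
  have hmp := mp_add a (T - a)
  have e0 : a + (T - a) = T := by ring
  rw [e0] at hmp
  have hsub : (volume.restrict (Ioc a T) : Measure ℝ) ≤ volume.restrict (Ioc 0 T) :=
    Measure.restrict_mono (Ioc_subset_Ioc_left ha) le_rfl
  have huc : ContinuousOn u (Icc 0 T) := prim_cont S.u1m S.pu
  have hzc : ContinuousOn z (Icc 0 T) := prim_cont S.z1m S.pz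
  have hgc : ContinuousOn (fun s => F s - ν • z s + m (u s)) (Icc 0 T) :=
    (hFc.sub (hzc.const_smul ν)).add (m_contOn Fr S.mem huc hzc)
  obtain ⟨R, hR⟩ := S.bd
  refine ⟨fun t ht => S.mem (a + t) ⟨by linarith [ht.1], by linarith [ht.2]⟩,
    hmp.quasiMeasurePreserving.ae (ae_mono hsub S.mem1),
    ⟨R, hmp.quasiMeasurePreserving.ae (ae_mono hsub hR)⟩,
    (S.u1m.mono_measure hsub).comp_measurePreserving hmp,
    (S.z1m.mono_measure hsub).comp_measurePreserving hmp, fun r t h1 h2 h3 => ?_,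
    fun r t h1 h2 h3 => ?_, fun p hp t ht => ?_, fun t ht => ?_⟩
  · rw [intervalIntegral.integral_comp_add_left (fun s => u1 s)]
    exact S.pu (a + r) (a + t) (by linarith) (by linarith) (by linarith)
  · rw [intervalIntegral.integral_comp_add_left (fun s => z1 s)]
    exact S.pz (a + r) (a + t) (by linarith) (by linarith) (by linarith)
  · rw [intervalIntegral.integral_comp_add_left
      (fun s => ⟪F s - ν • z s + m (u s), p.2⟫_ℝ)]
    have c1 : ContinuousOn (fun s => ⟪F s - ν • z s + m (u s), p.2⟫_ℝ) (Icc 0 T) :=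
      hgc.inner continuousOn_const
    have haT' : a + t ≤ T := by linarith [ht.2]
    have k1 := S.weak p hp (a + t) ⟨by linarith [ht.1], haT'⟩
    have k2 := S.weak p hp a ⟨ha, haT⟩
    have k3 := intervalIntegral.integral_add_adjacent_intervals
      (ii_on c1 le_rfl ha haT) (ii_on c1 ha (by linarith [ht.1] : a ≤ a + t) haT')
    have e1 : u (a + t) - u (a + 0) = (u (a + t) - u 0) - (u a - u 0) := by
      rw [add_zero]
      abel
    rw [e1, inner_sub_left, k1, k2, ← k3, add_zero]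
    ring
  · rw [intervalIntegral.integral_comp_add_left (fun s => ‖z s‖ ^ 2),
      intervalIntegral.integral_comp_add_left (fun s => ⟪F s, z s⟫_ℝ), add_zero]
    exact en_two' hFc S ha (by linarith [ht.1]) (by linarith [ht.2])

theorem fh_sh (hF : FH T F F1) (ha : 0 ≤ a) (haT : a ≤ T) :
    FH (T - a) (fun t => F (a + t)) (fun t => F1 (a + t)) := by
  have hmp := mp_add a (T - a)
  have e0 : a + (T - a) = T := by ring
  rw [e0] at hmp
  have hsub : (volume.restrict (Ioc a T) : Measure ℝ) ≤ volume.restrict (Ioc 0 T) :=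
    Measure.restrict_mono (Ioc_subset_Ioc_left ha) le_rfl
  refine ⟨(hF.memLp.mono_measure hsub).comp_measurePreserving hmp, fun r t h1 h2 h3 => ?_⟩
  rw [intervalIntegral.integral_comp_add_left (fun s => F1 s)]
  exact hF.prim (a + r) (a + t) (by linarith) (by linarith) (by linarith)

/-- **Continuation** if energy and force are small after the time `T - 1`. -/
theorem gextF (hloc : S_loc) (huni : S_uni) {c ε C7 : ℝ} (hε : 0 < ε) (hC7 : 0 < C7)
    (hap : Apz c ε C7) (Fr : Frame W m C) (Un : Univ W m c)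
    (hcomp : ∀ R : ℝ, TotallyBounded {v : H | ∃ z, (v, z) ∈ W ∧ ‖z‖ ≤ R}) (hν : 0 < ν)
    (hT : 1 ≤ T) {T' : ℝ} (hT' : T ≤ T') (hF : FH T' F F1) (S : Str W m ν T F u u1 z z1) {g0 : H}
    (hg0 : ∀ p ∈ W, ⟪F 0 - ν • z 0 + m (u 0), p.2⟫_ℝ = ⟪g0, p.1⟫_ℝ) {κ : ℝ}
    (hκ : κ ≤ ε * ν ^ (3 / 2 : ℝ) * ν ^ 2 / 4) (hκ0 : 0 ≤ κ)
    (hsm : ‖u (T - 1)‖ ^ 2 + 1 / ν * (∫ r in (T - 1)..T', ‖F r‖ ^ 2)
      ≤ ε * ν ^ (3 / 2 : ℝ) * ν / 4)
    (hFs : ∀ t ∈ Icc (T - 1) T', ‖F t‖ ^ 2 ≤ κ) (hF1 : ∫ r in (T - 1)..T', ‖F1 r‖ ^ 2 ≤ κ) :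
    ∃ (w w1 : ℝ → H) (ζ ζ1 : ℝ → K), Str W m ν T' F w w1 ζ ζ1 ∧ w 0 = u 0 := by
  have hT0 : 0 < T := by linarith
  have hT'0 : 0 < T' := by linarith
  have hFc : ContinuousOn F (Icc 0 T') := prim_cont hF.memLp hF.prim
  have hzc : ContinuousOn z (Icc 0 T) := prim_cont S.z1m S.pz
  obtain ⟨M1, hM10, hM1⟩ : ∃ Z : ℝ, 0 ≤ Z ∧ ∀ t ∈ Icc 0 T, ‖z t‖ ≤ Z := by
    obtain ⟨B, hB⟩ := (isCompact_Icc.image_of_continuousOn hzc).isBounded.exists_norm_le
    exact ⟨max B 0, le_max_right _ _, fun t ht => (hB _ ⟨t, ht, rfl⟩).trans (le_max_left _ _)⟩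
  have hν32 : 0 < ν ^ (3 / 2 : ℝ) := Real.rpow_pos_of_pos hν _
  set θ : ℝ := ε * ν ^ (3 / 2 : ℝ) / 2 with hθ
  have hθ0 : 0 < θ := by positivity
  have hκθ : (κ + κ) / ν ^ 2 ≤ θ := by
    rw [div_le_iff₀ (by positivity), hθ]
    linarith
  set N : ℝ := M1 + Real.sqrt (C7 * (θ + θ)) + 1 with hN
  have hs0 := Real.sqrt_nonneg (C7 * (θ + θ))
  obtain ⟨τ, w, w1, ζ, ζ1, hτ, hτT, Sw, hw0, hend⟩ := hloc H K W m C ν T' F F1 (u 0) g0 (z 0) N Fr
    hcomp hν hT'0 hF (S.mem 0 ⟨le_rfl, hT0.le⟩) hg0 (by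
      have := hM1 0 ⟨le_rfl, hT0.le⟩
      linarith)
  rcases hend with h1 | h1
  · subst h1
    exact ⟨w, w1, ζ, ζ1, Sw, hw0⟩
  exfalso
  have hFcT : ContinuousOn F (Icc 0 T) := hFc.mono (Icc_subset_Icc_right hT')
  have hFcτ : ContinuousOn F (Icc 0 τ) := hFc.mono (Icc_subset_Icc_right hτT)
  have hzeq : ∀ t ∈ Icc 0 (min τ T), w t = u t ∧ ζ t = z t := by
    have hm0 : 0 < min τ T := lt_min hτ hT0
    have h2 := str_unique huni Fr hν hT0 hm0 (min_le_right τ T) hFcT S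
      (Sw.mono (min_le_left τ T)) hw0
    intro t ht
    have h3 := h2 t ht
    refine ⟨h3.symm, ?_⟩
    have h4 := Sw.mem t ⟨ht.1, ht.2.trans (min_le_left _ _)⟩
    have h5 := S.mem t ⟨ht.1, ht.2.trans (min_le_right _ _)⟩
    rw [h3] at h5
    have h6 := Fr.uniq _ (W.sub_mem h4 h5) (by simp)
    simpa [sub_eq_zero] using h6
  by_cases hle : τ ≤ T
  · have h2 := (hzeq τ ⟨hτ.le, by rw [min_eq_left hle]⟩).2
    have h3 := hM1 τ ⟨hτ.le, hle⟩
    rw [h2] at h1
    linarith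
  · push Not at hle
    have hmin : min τ T = T := min_eq_right hle.le
    rw [hmin] at hzeq
    have hζc : ContinuousOn ζ (Icc 0 τ) := prim_cont Sw.z1m Sw.pz
    set b : ℝ := τ - 1 with hb
    have hb0 : T - 1 ≤ b := by linarith
    have hb00 : 0 ≤ b := by linarith
    have e3 : w (T - 1) = u (T - 1) := (hzeq (T - 1) ⟨by linarith, by linarith⟩).1
    -- the energy
    have hFn : ContinuousOn (fun r => ‖F r‖ ^ 2) (Icc 0 T') := hFc.norm.pow 2
    have e1 := en_le hν hFcτ Sw (s := T - 1) (t := b) (by linarith) hb0 (by linarith)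
    have e2 := en_le hν hFcτ Sw (s := b) (t := τ) hb00 (by linarith) le_rfl
    rw [e3] at e1
    have i1 := ii_on hFn (s := T - 1) (t := b) (by linarith) hb0 (by linarith)
    have i2 := ii_on hFn (s := b) (t := τ) hb00 (by linarith) hτT
    have i3 := ii_on hFn (s := τ) (t := T') hτ.le hτT le_rfl
    have e4 := intervalIntegral.integral_add_adjacent_intervals i1 i2
    have e5 := intervalIntegral.integral_add_adjacent_intervals (i1.trans i2) i3
    have e6 : 0 ≤ ∫ r in τ..T', ‖F r‖ ^ 2 :=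
      intervalIntegral.integral_nonneg hτT fun r _ => by positivity
    have e7 : 0 ≤ ν * ∫ r in (T - 1)..b, ‖ζ r‖ ^ 2 :=
      mul_nonneg hν.le (intervalIntegral.integral_nonneg hb0 fun r _ => by positivity)
    have hinv : 0 < 1 / ν := by positivity
    have e8 : ν * (∫ r in b..τ, ‖ζ r‖ ^ 2) ≤ ε * ν ^ (3 / 2 : ℝ) * ν / 4 := by
      have q1 : 0 ≤ ‖w τ‖ ^ 2 := by positivity
      have q2 : 1 / ν * (∫ r in (T - 1)..b, ‖F r‖ ^ 2) + 1 / ν * (∫ r in b..τ, ‖F r‖ ^ 2)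
          ≤ 1 / ν * ∫ r in (T - 1)..T', ‖F r‖ ^ 2 := by
        rw [← mul_add]
        gcongr
        linarith
      linarith
    have e9 : (∫ r in b..τ, ‖ζ r‖ ^ 2) ≤ θ / 2 := by
      have : ν * (∫ r in b..τ, ‖ζ r‖ ^ 2) ≤ ν * (θ / 2) := by
        rw [hθ]
        linarith
      exact le_of_mul_le_mul_left this hν
    -- the translated solution
    have Ssh := str_sh Fr hFcτ Sw hb00 (by linarith : b ≤ τ)
    have hFsh := fh_sh (fh_mono hF hτT) hb00 (by linarith : b ≤ τ)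
    have eb : τ - b = 1 := by rw [hb]; ring
    rw [eb] at Ssh hFsh
    have hζs : ContinuousOn (fun t => ζ (b + t)) (Icc 0 1) := prim_cont Ssh.z1m Ssh.pz
    obtain ⟨t0, ht0, hle0⟩ := good_time (a := 0) (b := 1) (θ := θ)
      (f := fun r => ‖ζ (b + r)‖ ^ 2) (by norm_num) (hζs.norm.pow 2) (by
        rw [intervalIntegral.integral_comp_add_left (fun r => ‖ζ r‖ ^ 2), add_zero]
        have : b + 1 = τ := by rw [hb]; ring
        rw [this]
        linarith)
    have hfin := hap H K W m C ν 1 _ _ _ _ _ _ (Real.sqrt κ) κ Fr Un hν hFsh Ssh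
      (Real.sqrt_nonneg _) (fun t ht => by
        have := hFs (b + t) ⟨by linarith [ht.1], by linarith [ht.2]⟩
        exact Real.le_sqrt_of_sq_le this) hκ0 (by
        rw [intervalIntegral.integral_comp_add_left (fun r => ‖F1 r‖ ^ 2), add_zero]
        have e : b + 1 = τ := by rw [hb]; ring
        rw [e]
        refine le_trans ?_ hF1
        refine intervalIntegral.integral_mono_interval hb0 (by linarith) hτT
          (Eventually.of_forall fun s => by positivity) ?_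
        rw [intervalIntegrable_iff_integrableOn_Ioc_of_le (by linarith)]
        have := (memLp_two_iff_integrable_sq_norm hF.memLp.aestronglyMeasurable).mp hF.memLp
        exact this.mono_measure (Measure.restrict_mono (Ioc_subset_Ioc_left (by linarith))
          le_rfl)) t0 1 ht0.1.le ht0.2 le_rfl (by
        have h4 : Real.sqrt (1 - t0) ≤ 1 := by
          refine Real.sqrt_le_iff.2 ⟨by norm_num, ?_⟩
          have := ht0.1
          linarith
        have h5 : Real.sqrt κ ^ 2 = κ := Real.sq_sqrt hκ0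
        have h6 : (Real.sqrt κ ^ 2 + (1 - t0) * κ) / ν ^ 2 ≤ θ := by
          rw [h5]
          refine le_trans ?_ hκθ
          have : (1 - t0) * κ ≤ κ := by
            have := ht0.1
            nlinarith
          gcongr
        have h7 : 0 ≤ (Real.sqrt κ ^ 2 + (1 - t0) * κ) / ν ^ 2 := by
          have : 0 ≤ 1 - t0 := by linarith [ht0.2]
          positivity
        calc (‖ζ (b + t0)‖ ^ 2 + (Real.sqrt κ ^ 2 + (1 - t0) * κ) / ν ^ 2) * Real.sqrt (1 - t0)
            ≤ (θ + θ) * 1 := by gcongr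
          _ = ε * ν ^ (3 / 2 : ℝ) := by rw [hθ]; ring)
    have h5 : Real.sqrt κ ^ 2 = κ := Real.sq_sqrt hκ0
    have h6 : (Real.sqrt κ ^ 2 + (1 - t0) * κ) / ν ^ 2 ≤ θ := by
      rw [h5]
      refine le_trans ?_ hκθ
      have : (1 - t0) * κ ≤ κ := by
        have := ht0.1
        nlinarith
      gcongr
    have e10 : b + 1 = τ := by rw [hb]; ring
    rw [e10] at hfin
    have h8 : ‖ζ τ‖ ^ 2 ≤ C7 * (θ + θ) := hfin.trans (by gcongr)
    have h9 : ‖ζ τ‖ ≤ Real.sqrt (C7 * (θ + θ)) := Real.le_sqrt_of_sq_le h8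
    linarith

end Pool.Agent.J4H18.DN
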