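import Pool.Agent.J4H18.DN.H5
import Pool.Agent.J4H18.DN.H6

/-!
Density for all times, with a force in `H¹(0,∞)`.
-/

set_option autoImplicit false
set_option linter.unusedSectionVars false

open MeasureTheory Set Filter Topology
open scoped InnerProductSpace ENNReal ContDiff NNReal

namespace Pool.Agent.J4H18.DN

open H772R2.NS
open Pool.Agent.W795.TQ
open Pool.Agent.W790.TQ (sq_prim)
open H772R2.NSR (Frame prim_cont exists_frame rellich_W exists_poinc)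
open Pool.Agent.Y303.LV (cl clj clj_coe)
open Pool.Agent.Y303.NF (glue_all str_unique)

section abs

variable {H K : Type} [NormedAddCommGroup H] [InnerProductSpace ℝ H] [CompleteSpace H]
  [NormedAddCommGroup K] [InnerProductSpace ℝ K] [CompleteSpace K]
  {W : Submodule ℝ (H × K)} {m : H → K} {C c ν T τ a : ℝ} {F F1 : ℝ → K}
  {u u1 v v1 : ℝ → H} {z z1 y y1 : ℝ → K}

/-- tails of integrals -/
theorem tail {f : ℝ → K} (hf : MemLp f 2 (volume.restrict (Ioi 0))) {δ : ℝ} (hδ : 0 < δ) :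
    ∃ T1 : ℝ, 0 < T1 ∧ ∀ s t, T1 ≤ s → s ≤ t → ∫ r in s..t, ‖f r‖ ^ 2 ≤ δ := by
  have hi : IntegrableOn (fun r => ‖f r‖ ^ 2) (Ioi 0) :=
    (memLp_two_iff_integrable_sq_norm hf.aestronglyMeasurable).mp hf
  have h1 := intervalIntegral_tendsto_integral_Ioi (0 : ℝ) hi tendsto_id
  have h2 := (Metric.tendsto_nhds.1 h1 (δ / 2) (by positivity)).and (eventually_gt_atTop 0)
  obtain ⟨T1, hT1⟩ := eventually_atTop.1 h2
  refine ⟨max T1 1, by positivity, fun s t hs hst => ?_⟩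
  have hs1 : T1 ≤ s := (le_max_left _ _).trans hs
  have hs0 : 0 < s := lt_of_lt_of_le (by positivity) ((le_max_right T1 1).trans hs)
  have k1 := (hT1 s hs1).1
  have k2 := (hT1 t (hs1.trans hst)).1
  simp only [id] at k1 k2
  rw [Real.dist_eq] at k1 k2
  have ii : ∀ a b, 0 ≤ a → a ≤ b → IntervalIntegrable (fun r => ‖f r‖ ^ 2) volume a b := by
    intro a b ha hab
    rw [intervalIntegrable_iff_integrableOn_Ioc_of_le hab]
    exact hi.mono_set fun x hx => ha.trans_lt hx.1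
  have k3 := intervalIntegral.integral_add_adjacent_intervals (ii 0 s le_rfl hs0.le)
    (ii s t hs0.le hst)
  rw [abs_lt] at k1 k2
  linarith [k1.1, k1.2, k2.1, k2.2]

/-- the force is small for large times -/
theorem sup_F (hF : ∀ T, 0 < T → FH T F F1) {δ t : ℝ} (hδ : 0 < δ) (ht : 0 < t)
    (h1 : ∫ r in t..(t + 1), ‖F r‖ ^ 2 ≤ δ / 2) (h2 : ∫ r in t..(t + 1), ‖F1 r‖ ^ 2 ≤ δ) :
    ‖F t‖ ^ 2 ≤ 3 * δ := by
  have hFT := hF (t + 1) (by linarith)
  have hFc : ContinuousOn F (Icc 0 (t + 1)) := prim_cont hFT.memLp hFT.prim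
  have hFn : ContinuousOn (fun r => ‖F r‖ ^ 2) (Icc 0 (t + 1)) := hFc.norm.pow 2
  obtain ⟨s, hs, hs1⟩ := good_time (a := t) (b := t + 1) (θ := δ) (f := fun r => ‖F r‖ ^ 2)
    (by linarith) (hFn.mono (Icc_subset_Icc_left ht.le)) (by
      have : t + 1 - t = 1 := by ring
      rw [this]
      linarith)
  have h3 := sq_prim hFT.memLp hFT.prim ht.le hs.1.le hs.2.le
  have iF1 : IntegrableOn (fun r => ‖F1 r‖ ^ 2) (Ioc 0 (t + 1)) :=
    (memLp_two_iff_integrable_sq_norm hFT.memLp.aestronglyMeasurable).mp hFT.memLp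
  have j1 : IntervalIntegrable (fun r => ‖F1 r‖ ^ 2) volume t (t + 1) := by
    rw [intervalIntegrable_iff_integrableOn_Ioc_of_le (by linarith)]
    exact iF1.mono_set (Ioc_subset_Ioc_left ht.le)
  have j2 : IntervalIntegrable (fun r => ‖F r‖ ^ 2) volume t (t + 1) :=
    ii_on hFn ht.le (by linarith) le_rfl
  have h4 : ∫ r in t..s, 2 * ⟪F1 r, F r⟫_ℝ ≥ -∫ r in t..(t + 1), (‖F1 r‖ ^ 2 + ‖F r‖ ^ 2) := by
    have j3 : IntervalIntegrable (fun r => ‖F1 r‖ ^ 2 + ‖F r‖ ^ 2) volume t (t + 1) := j1.add j2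
    have j3' : IntervalIntegrable (fun r => ‖F1 r‖ ^ 2 + ‖F r‖ ^ 2) volume t s :=
      j3.mono_set (by
        rw [uIcc_of_le hs.1.le, uIcc_of_le (by linarith)]
        exact Icc_subset_Icc_right hs.2.le)
    have q1 : ∫ r in t..s, -(‖F1 r‖ ^ 2 + ‖F r‖ ^ 2) ≤ ∫ r in t..s, 2 * ⟪F1 r, F r⟫_ℝ := by
      refine intervalIntegral.integral_mono_on hs.1.le j3'.neg ?_ fun r _ => ?_
      · refine IntervalIntegrable.const_mul ?_ 2
        rw [intervalIntegrable_iff_integrableOn_Ioc_of_le hs.1.le]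
        have := H772R2.NSG.int_inner hFT.memLp (H772R2.NSG.mem_cont hFc)
        exact this.mono_measure (Measure.restrict_mono (Ioc_subset_Ioc ht.le hs.2.le) le_rfl)
      · have k1 := real_inner_le_norm (F1 r) (F r)
        have k2 := abs_real_inner_le_norm (F1 r) (F r)
        have k3 := neg_abs_le ⟪F1 r, F r⟫_ℝ
        nlinarith [sq_nonneg (‖F1 r‖ - ‖F r‖)]
    have q2 : ∫ r in t..s, (‖F1 r‖ ^ 2 + ‖F r‖ ^ 2) ≤ ∫ r in t..(t + 1), (‖F1 r‖ ^ 2 + ‖F r‖ ^ 2) :=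
      intervalIntegral.integral_mono_interval le_rfl hs.1.le hs.2.le
        (Eventually.of_forall fun r => by positivity) j3
    rw [intervalIntegral.integral_neg] at q1
    linarith
  rw [intervalIntegral.integral_add j1 j2] at h4
  linarith

/-- decay of strong solutions -/
theorem decayF (Fr : Frame W m C) (hν : 0 < ν) (hF : ∀ T, 0 < T → FH T F F1)
    (hv : ∀ T, 0 < T → ∃ v1 y y1, Str W m ν T F v v1 y y1) {T1 B η : ℝ} (hT1 : 0 < T1)
    (hB : ∀ t, T1 ≤ t → ∫ r in T1..t, ‖F r‖ ^ 2 ≤ B) (hη : 0 < η) :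
    ∃ T0, T1 ≤ T0 ∧ ‖v T0‖ ^ 2 ≤ η := by
  have hB0 : 0 ≤ B := by
    have := hB T1 le_rfl
    simpa using this
  set D : ℝ := C ^ 2 * ((‖v T1‖ ^ 2 + 1 / ν * B) / ν) with hD
  have hD0 : 0 ≤ D := by positivity
  set L : ℝ := D / η + 1 with hL
  have hL0 : 0 < L := by positivity
  obtain ⟨v1, y, y1, S⟩ := hv (T1 + L) (by positivity)
  have hFT := hF (T1 + L) (by positivity)
  have hFc : ContinuousOn F (Icc 0 (T1 + L)) := prim_cont hFT.memLp hFT.prim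
  have hvc : ContinuousOn v (Icc 0 (T1 + L)) := prim_cont S.u1m S.pu
  have hyc : ContinuousOn y (Icc 0 (T1 + L)) := prim_cont S.z1m S.pz
  have h1 := en_le hν hFc S hT1.le (by linarith : T1 ≤ T1 + L) le_rfl
  have h2 := hB (T1 + L) (by linarith)
  have h3 : ∫ r in T1..(T1 + L), ‖y r‖ ^ 2 ≤ (‖v T1‖ ^ 2 + 1 / ν * B) / ν := by
    rw [le_div_iff₀ hν]
    have q1 : 0 ≤ ‖v (T1 + L)‖ ^ 2 := by positivity
    have q2 : 1 / ν * (∫ r in T1..(T1 + L), ‖F r‖ ^ 2) ≤ 1 / ν * B := by gcongr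
    linarith
  have cy : ContinuousOn (fun r => C ^ 2 * ‖y r‖ ^ 2) (Icc 0 (T1 + L)) :=
    continuousOn_const.mul (hyc.norm.pow 2)
  have cv : ContinuousOn (fun r => ‖v r‖ ^ 2) (Icc 0 (T1 + L)) := hvc.norm.pow 2
  have h4 : ∫ r in T1..(T1 + L), ‖v r‖ ^ 2 ≤ D := by
    calc ∫ r in T1..(T1 + L), ‖v r‖ ^ 2 ≤ ∫ r in T1..(T1 + L), C ^ 2 * ‖y r‖ ^ 2 := by
          refine intervalIntegral.integral_mono_on (by linarith)
            (ii_on cv hT1.le (by linarith) le_rfl) (ii_on cy hT1.le (by linarith) le_rfl)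
            fun r hr => ?_
          have := Fr.poinc _ (S.mem r ⟨hT1.le.trans hr.1, hr.2⟩)
          calc ‖v r‖ ^ 2 ≤ (C * ‖y r‖) ^ 2 := by gcongr
            _ = _ := by ring
      _ ≤ D := by
          rw [intervalIntegral.integral_const_mul, hD]
          gcongr
  obtain ⟨T0, hT0, h5⟩ := good_time (a := T1) (b := T1 + L) (θ := η) (f := fun r => ‖v r‖ ^ 2)
    (by linarith) (cv.mono (Icc_subset_Icc_left hT1.le)) (by
      have e : T1 + L - T1 = L := by ring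
      rw [e]
      refine h4.trans_lt ?_
      rw [hL]
      have : (D / η + 1) * η = D + η := by field_simp
      linarith)
  exact ⟨T0, hT0.1.le, h5⟩

end abs

variable {Ω : Set E3} {ν T s : ℝ} {F F1 : ℝ → L2M Ω} {θ : ℝ}

/-- **Density for all times.** -/
theorem density_B2 (hloc : S_loc) (hun : S_univ) (huni : S_uni) (hode : S_ode) (he1 : S_est1)
    (he2 : S_est2) (hΩ : IsOpen Ω) (hb : Bornology.IsBounded Ω) (hν : 0 < ν)
    (hF : ∀ T, 0 < T → FH T F F1) (hF2 : MemLp F 2 (volume.restrict (Ioi 0)))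
    (hF12 : MemLp F1 2 (volume.restrict (Ioi 0))) {f0 : L2V Ω}
    (hf0 : ∀ p ∈ graphW Ω, ⟪F 0, p.2⟫_ℝ = ⟪f0, p.1⟫_ℝ) (hθ0 : 0 < θ)
    (hθ1 : θ ≤ 1) {v : ℝ → L2V Ω} (hv : ∀ T : ℝ, 0 < T → ∃ (v1 : ℝ → L2V Ω) (y y1 : ℝ → L2M Ω),
      Str (graphW Ω) (tensL (Ω := Ω)) ν T F v v1 y y1)
    (f : L2V Ω) (U : L2M Ω) {ε : ℝ} (hε : 0 < ε) :
    ∃ (w0 e : E3 → E3) (u : ℝ → L2V Ω), IsTest Ω w0 ∧ u 0 = cl Ω w0 ∧
      (∀ T : ℝ, 0 < T → Str (graphW Ω) (tensL (Ω := Ω)) ν T F u (deriv u)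
        (gz (graphW Ω) u) (deriv (gz (graphW Ω) u))) ∧ IsTest Ω e ∧
      (∀ t, ε ≤ t → ‖u t - v t‖ ≤ ε) ∧ HC ε e ∧
      (∀ ψ, IsTest Ω ψ → |∫ x, ∑ i, e x i * ψ x i| ≤ ε * wn θ ψ) ∧
      ∀ ψ, IsTest Ω ψ → |⟪cl Ω w0 - cl Ω e - f, cl Ω ψ⟫_ℝ - ⟪U, clj Ω ψ⟫_ℝ| ≤ ε * G1 ψ := by
  obtain ⟨c, hc, hU⟩ := hun
  obtain ⟨ε0, C7, hε0, hC7, hap⟩ := exists_apz hode he1 he2 hc
  obtain ⟨C, Fr⟩ := exists_frame hΩ hb
  have hν32 : 0 < ν ^ (3 / 2 : ℝ) := Real.rpow_pos_of_pos hν _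
  set κ1 : ℝ := ε0 * ν ^ (3 / 2 : ℝ) * ν / 4 with hκ1
  have hκ10 : 0 < κ1 := by positivity
  set κ2 : ℝ := ε0 * ν ^ (3 / 2 : ℝ) * ν ^ 2 / 4 with hκ2
  have hκ20 : 0 < κ2 := by positivity
  set q : ℝ := min κ1 ((ε / 2) ^ 2) with hq
  have hq0 : 0 < q := lt_min hκ10 (by positivity)
  have hqκ : q ≤ κ1 := min_le_left _ _
  have hqε : q ≤ (ε / 2) ^ 2 := min_le_right _ _
  set α : ℝ := min (√(q / 8)) ε with hα
  have hsq8 : 0 < √(q / 8) := Real.sqrt_pos.2 (by positivity)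
  have hα0 : 0 < α := lt_min hsq8 hε
  have hαε : α ≤ ε := min_le_right _ _
  have hα2 : (2 * α) ^ 2 ≤ q / 2 := by
    have h1 : α ≤ √(q / 8) := min_le_left _ _
    calc (2 * α) ^ 2 ≤ (2 * √(q / 8)) ^ 2 := by gcongr
      _ = 4 * √(q / 8) ^ 2 := by ring
      _ = q / 2 := by
        rw [Real.sq_sqrt (by positivity)]
        ring
  set δ : ℝ := min (ν * q / 2) (κ2 / 3) with hδ
  have hδ0 : 0 < δ := lt_min (by positivity) (by positivity)
  have hδq : 1 / ν * δ ≤ q / 2 := by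
    have h1 : δ ≤ ν * q / 2 := min_le_left _ _
    calc 1 / ν * δ ≤ 1 / ν * (ν * q / 2) := by gcongr
      _ = q / 2 := by field_simp
  have hδκ : 3 * δ ≤ κ2 := by
    have h1 : δ ≤ κ2 / 3 := min_le_right _ _
    linarith
  obtain ⟨Ta, hTa, ta⟩ := tail hF2 (δ := δ / 2) (by positivity)
  obtain ⟨Tb, hTb, tb⟩ := tail hF12 (δ := δ) hδ0
  set T1 : ℝ := max (max Ta Tb) ε with hT1
  have hT1a : Ta ≤ T1 := (le_max_left _ _).trans (le_max_left _ _)
  have hT1b : Tb ≤ T1 := (le_max_right _ _).trans (le_max_left _ _)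
  have hT1ε : ε ≤ T1 := le_max_right _ _
  have hT10 : 0 < T1 := hε.trans_le hT1ε
  obtain ⟨T0, hT01, hvT0⟩ := decayF Fr hν hF hv (T1 := T1) (B := δ / 2) hT10
    (fun t ht => ta T1 t hT1a ht) (η := α ^ 2) (by positivity)
  have hT00 : 0 < T0 := hT10.trans_le hT01
  have hvT : ‖v T0‖ ≤ α := (pow_le_pow_iff_left₀ (norm_nonneg _) hα0.le (by norm_num)).mp hvT0
  set T : ℝ := T0 + 1 with hTd
  have hT : 0 < T := by positivity
  have hT1' : 1 ≤ T := by rw [hTd]; linarith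
  -- the energy after the time `T0`
  have hen : ∀ (w : ℝ → L2V Ω) (w1 : ℝ → L2V Ω) (ζ ζ1 : ℝ → L2M Ω) (t : ℝ), T0 ≤ t →
      Str (graphW Ω) (tensL (Ω := Ω)) ν t F w w1 ζ ζ1 → ‖w T0‖ ≤ 2 * α → ‖w t‖ ≤ ε / 2 := by
    intro w w1 ζ ζ1 t ht Sw hw
    have hFt := hF t (hT00.trans_le ht)
    have h1 := en_le hν (prim_cont hFt.memLp hFt.prim) Sw hT00.le ht le_rfl
    have h2 := ta T0 t (hT1a.trans hT01) ht
    have h3 : 0 ≤ ν * ∫ r in T0..t, ‖ζ r‖ ^ 2 :=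
      mul_nonneg hν.le (intervalIntegral.integral_nonneg ht fun r _ => by positivity)
    have h4 : ‖w T0‖ ^ 2 ≤ (2 * α) ^ 2 := by gcongr
    have h5 : 1 / ν * (∫ r in T0..t, ‖F r‖ ^ 2) ≤ 1 / ν * δ := by
      gcongr
      linarith
    have h6 : ‖w t‖ ^ 2 ≤ (ε / 2) ^ 2 := by linarith
    exact (pow_le_pow_iff_left₀ (norm_nonneg _) (by positivity) (by norm_num)).mp h6
  obtain ⟨v1, y, y1, Sv⟩ := hv T hT
  obtain ⟨w0, e, u, ⟨hw0, ⟨u1, z, z1, g0, Su, hg0⟩, hu0⟩, te, a1, a2, a3, a4⟩ :=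
    density_A2 (θ := θ) hloc ⟨c, hc, hU⟩ hode he1 he2 hΩ hb hν hT (hF T hT) hf0 hθ0 hθ1 Sv f U hα0
  have huT0 : ‖u T0‖ ≤ 2 * α := by
    have h1 := a1 T0 ⟨(hαε.trans hT1ε).trans hT01, by rw [hTd]; linarith⟩
    have h2 : u T0 = (u T0 - v T0) + v T0 := by abel
    rw [h2]
    exact (norm_add_le _ _).trans (by linarith)
  have eT : T - 1 = T0 := by rw [hTd]; ring
  obtain ⟨w, hw00, hw⟩ := glue_all (W := graphW Ω) (m := tensL (Ω := Ω))
    (F := F) (ν := ν) huni Fr hν (I := Ioi 0) (fun T hT => hT)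
    (fun T hT => prim_cont (hF T hT).memLp (hF T hT).prim) (x0 := u 0) (fun T' hT' => by
      rcases le_total T' T with h | h
      · exact ⟨u, u1, z, z1, Su.mono h, rfl⟩
      · refine gextF hloc huni hε0 hC7 hap Fr (hU Ω hΩ) (rellich_W hΩ hb) hν hT1' h (hF T' hT')
          Su hg0 (κ := κ2) le_rfl hκ20.le ?_ ?_ ?_
        · rw [eT]
          have h1 := ta T0 T' (hT1a.trans hT01) (by linarith)
          have h2 : ‖u T0‖ ^ 2 ≤ (2 * α) ^ 2 := by gcongr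
          have h3 : 1 / ν * (∫ r in T0..T', ‖F r‖ ^ 2) ≤ 1 / ν * δ := by
            gcongr
            linarith
          linarith
        · intro t ht
          rw [eT] at ht
          have h1 := sup_F hF hδ0 (hT00.trans_le ht.1)
            (ta t (t + 1) ((hT1a.trans hT01).trans ht.1) (by linarith))
            (tb t (t + 1) ((hT1b.trans hT01).trans ht.1) (by linarith))
          linarith
        · rw [eT]
          have h1 := tb T0 T' (hT1b.trans hT01) (by linarith)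
          linarith)
  have hFcT : ContinuousOn F (Icc 0 T) := prim_cont (hF T hT).memLp (hF T hT).prim
  have hwu : ∀ t ∈ Icc 0 T, u t = w t :=
    str_unique huni Fr hν hT hT le_rfl hFcT Su (hw T hT) hw00
  refine ⟨w0, e, w, hw0, hw00.trans hu0, fun T' hT' => hw T' hT', te, fun t ht => ?_,
    a2.mono hαε, fun ψ hψ => ?_, fun ψ hψ => ?_⟩
  · rcases le_total t T with h | h
    · rw [← hwu t ⟨hε.le.trans ht, h⟩]
      exact (a1 t ⟨hαε.trans ht, h⟩).trans hαε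
    · have ht0 : T0 ≤ t := by linarith
      have h1 := hen w _ _ _ t ht0 (hw t (hT.trans_le h)) (by
        rw [← hwu T0 ⟨hT00.le, by linarith⟩]
        exact huT0)
      obtain ⟨v1', y', y1', Sv'⟩ := hv t (hT.trans_le h)
      have h2 := hen v _ _ _ t ht0 Sv' (by linarith)
      refine (norm_sub_le _ _).trans ?_
      linarith
  · have h1 := a3 ψ hψ
    have h2 : α * wn θ ψ ≤ ε * wn θ ψ := mul_le_mul_of_nonneg_right hαε (wn_nonneg θ ψ)
    exact h1.trans h2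
  · have h1 := a4 ψ hψ
    have h2 : α * G1 ψ ≤ ε * G1 ψ := mul_le_mul_of_nonneg_right hαε (G1_nonneg ψ)
    exact h1.trans h2

end Pool.Agent.J4H18.DN
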