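import Pool.Agent.J4H18.DN.H7
import Pool.Agent.J4H18.DN.F8
import Pool.Agent.Y303.LV.PubDef

/-!
The density theorem with the error in the scale invariant norm and in the dual of the energy space,
in terms of the public definitions.
-/

set_option autoImplicit false
set_option linter.unusedSectionVars false

open MeasureTheory Set Filter Topology
open scoped InnerProductSpace ENNReal ContDiff NNReal

namespace Pool.Agent.J4H18.DN

open H772R2.NS H772R2.NS.Pub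
open Pool.Agent.W795.TQ
open H772R2.NSR (Frame prim_cont exists_frame rellich_W exists_poinc pub_inner pub_inner_jac
  pub_rhs compat_ext)
open Pool.Agent.Y303.LV (cl clj clj_coe heat heatE)

variable {Ω : Set E3} {ν : ℝ}

theorem heatE_coord (s : ℝ) (x : E3) {e : E3 → E3} (he : H772R2.NS.IsTest Ω e) (i : Fin 3) :
    (heatE s e x) i = hs1 s (fun y => e y i) x := by
  have hi : Integrable fun y => Real.exp (-‖x - y‖ ^ 2 / (4 * s)) • e y := by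
    have hc : HasCompactSupport fun y => Real.exp (-‖x - y‖ ^ 2 / (4 * s)) • e y :=
      he.compact.smul_left (f := fun y => Real.exp (-‖x - y‖ ^ 2 / (4 * s)))
    refine Continuous.integrable_of_hasCompactSupport ?_ hc
    exact (gk_cd s x).continuous.smul he.smooth.continuous
  have h1 := (EuclideanSpace.proj i : E3 →L[ℝ] ℝ).integral_comp_comm hi
  have h2 : (∫ y, Real.exp (-‖x - y‖ ^ 2 / (4 * s)) • e y : E3) i
      = ∫ y, gk s x y * e y i := by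
    refine h1.symm.trans ?_
    congr 1
  unfold heatE hs1 ck
  rw [PiLp.smul_apply, smul_eq_mul, h2]

theorem norm_le_two {w : E3} {M : ℝ} (h : ∀ i, |w i| ≤ M) : ‖w‖ ≤ 2 * M := by
  have h1 := norm_vec_le (F := fun i _ => w i) (x := (0 : E3)) h
  have e : vec (fun i _ => w i) (0 : E3) = w := by
    ext i
    rfl
  rwa [e] at h1

theorem heat_small {e : E3 → E3} (he : H772R2.NS.IsTest Ω e) {ε : ℝ} (h : HC (ε / 2) e) (s : ℝ)
    (x : E3) (hs : 0 < s) : √s * ‖(heat s e x : E3)‖ ≤ ε := by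
  have e1 : (heat s e x : E3) = heatE s e x := rfl
  rw [e1]
  have hq : 0 < √s := Real.sqrt_pos.2 hs
  have h1 : ∀ i, |(heatE s e x) i| ≤ ε / 2 / √s := by
    intro i
    rw [heatE_coord s x he i, le_div_iff₀ hq, mul_comm]
    exact h s x i hs
  calc √s * ‖heatE s e x‖ ≤ √s * (2 * (ε / 2 / √s)) := by
        gcongr
        exact norm_le_two h1
    _ = ε := by field_simp

theorem sub_test {w e : E3 → E3} (hw : H772R2.NS.IsTest Ω w) (he : H772R2.NS.IsTest Ω e) :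
    H772R2.NS.IsTest Ω (fun x => w x + (-1 : ℝ) • e x) := hw.add (he.smul (-1))

theorem dual_near {w e : E3 → E3} (hw : H772R2.NS.IsTest Ω w) (he : H772R2.NS.IsTest Ω e)
    {f : L2V Ω} {U : L2M Ω} {ε : ℝ}
    (h : ∀ ψ, H772R2.NS.IsTest Ω ψ →
      |⟪cl Ω w - cl Ω e - f, cl Ω ψ⟫_ℝ - ⟪U, clj Ω ψ⟫_ℝ| ≤ ε * G1 ψ)
    (ψ : E3 → E3) (hψ : H772R2.NS.IsTest Ω ψ) :
    |(∫ x in (show Set R3 from Ω), ⟪(fun x => w x + (-1 : ℝ) • e x : R3 → R3) x,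
        (ψ : R3 → R3) x⟫_ℝ)
      - ((∫ x in (show Set R3 from Ω), ⟪L2.fn (Ω := Ω) (E := R3) f x, (ψ : R3 → R3) x⟫_ℝ)
        + ∫ x in (show Set R3 from Ω), ⟪L2.fn (Ω := Ω) (E := Mat) U x, Pub.jac ψ x⟫_ℝ)|
      ≤ ε * gradNorm ψ := by
  have h1 := h ψ hψ
  have ht := sub_test hw he
  have e1 := pub_phi ht hψ
  have e2 := pub_inner (Ω := Ω) f ((CK.test hψ).coe (Ω := Ω) hψ.compact)
  have e3 := pub_inner_jac (Ω := Ω) U (clj_coe (Ω := Ω) hψ)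
  have e4 : cl Ω (fun x => w x + (-1 : ℝ) • e x) = cl Ω w - cl Ω e := by
    have h2 : H772R2.NS.IsTest Ω (fun x => (-1 : ℝ) • e x) := he.smul (-1)
    rw [cl_add' hw h2]
    have h3 := (CK.test he).cl_smul (Ω := Ω) he.compact (-1)
    rw [h3]
    rw [neg_one_smul]
    abel
  rw [e4] at e1
  have e5 : ⟪cl Ω w - cl Ω e - f, cl Ω ψ⟫_ℝ - ⟪U, clj Ω ψ⟫_ℝ
      = ⟪cl Ω w - cl Ω e, cl Ω ψ⟫_ℝ - (⟪f, cl Ω ψ⟫_ℝ + ⟪U, clj Ω ψ⟫_ℝ) := by
    rw [inner_sub_left (x := cl Ω w - cl Ω e) (y := f)]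
    ring
  rw [e5] at h1
  refine le_trans (le_of_eq ?_) (h1.trans (le_of_eq (congrArg (ε * ·) (gradNorm_eq ψ).symm)))
  exact congrArg abs (congrArg₂ (· - ·) e1 (congrArg₂ (· + ·) e2 e3))

theorem class_add {w e : E3 → E3} (hw : H772R2.NS.IsTest Ω w) {f : L2V Ω} (h : f = cl Ω w) :
    IsClass (Ω := (show Set R3 from Ω)) (E := R3) f
      (fun x => (fun x => w x + (-1 : ℝ) • e x) x + e x : E3 → E3) := by
  have e1 : (fun x => (fun x => w x + (-1 : ℝ) • e x) x + e x : E3 → E3) = w := by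
    funext x
    beta_reduce
    rw [neg_one_smul]
    abel
  rw [e1]
  exact class_of hw h

theorem hf0_of {F0 : L2M Ω}
    (hf0 : ∃ h : L2V Ω, ∀ ψ : E3 → E3, H772R2.NS.IsTest Ω ψ →
      (∫ x in (show Set R3 from Ω), ⟪L2.fn (Ω := Ω) (E := Mat) F0 x, Pub.jac ψ x⟫_ℝ)
        = ∫ x in (show Set R3 from Ω), ⟪L2.fn (Ω := Ω) (E := R3) h x, (ψ : R3 → R3) x⟫_ℝ) :
    ∃ h : L2V Ω, ∀ p ∈ graphW Ω, ⟪F0, p.2⟫_ℝ = ⟪h, p.1⟫_ℝ := by
  obtain ⟨h, hh⟩ := hf0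
  refine ⟨h, compat_ext ?_⟩
  rintro p ⟨ψ, k1, k2, k3⟩
  have e1 := pub_inner_jac (Ω := Ω) F0 k3
  have e2 := pub_inner (Ω := Ω) h k2
  exact (e1.symm.trans (hh ψ k1)).trans e2

/-- the density theorem with an arbitrary horizon -/
theorem pub_hor (hloc : S_loc) (hun : S_univ) (huni : S_uni) (hode : S_ode) (he1 : S_est1)
    (he2 : S_est2) (hΩ : IsOpen Ω) (hb : Bornology.IsBounded Ω) (hν : 0 < ν) {T : ℝ≥0∞}
    (hT : 0 < T) {F F' : ℝ → L2M Ω}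
    (hF : ∀ t : ℝ, 0 < t → ENNReal.ofReal t ≤ T → IsH1 t F F')
    (hF2 : MemLp F 2 (volume.restrict {t : ℝ | 0 < t ∧ ENNReal.ofReal t ≤ T}))
    (hF2' : MemLp F' 2 (volume.restrict {t : ℝ | 0 < t ∧ ENNReal.ofReal t ≤ T}))
    (hf0 : ∃ h : L2V Ω, ∀ ψ : E3 → E3, H772R2.NS.IsTest Ω ψ →
      (∫ x in (show Set R3 from Ω), ⟪L2.fn (Ω := Ω) (E := Mat) (F 0) x, Pub.jac ψ x⟫_ℝ)
        = ∫ x in (show Set R3 from Ω), ⟪L2.fn (Ω := Ω) (E := R3) h x, (ψ : R3 → R3) x⟫_ℝ)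
    {v : ℝ → L2V Ω}
    (hv : ∀ t : ℝ, 0 < t → ENNReal.ofReal t ≤ T →
      ∃ v' G G', IsStrong (show Set R3 from Ω) ν t F v v' G G')
    (f : L2V Ω) (U : L2M Ω) {ε : ℝ} (hε : 0 < ε) :
    ∃ (a e : E3 → E3) (u u' : ℝ → L2V Ω) (G G' : ℝ → L2M Ω), H772R2.NS.IsTest Ω a ∧
      H772R2.NS.IsTest Ω e ∧
      (∀ ψ : E3 → E3, H772R2.NS.IsTest Ω ψ →
        |(∫ x in (show Set R3 from Ω), ⟪(a : R3 → R3) x, (ψ : R3 → R3) x⟫_ℝ)
          - ((∫ x in (show Set R3 from Ω), ⟪L2.fn (Ω := Ω) (E := R3) f x, (ψ : R3 → R3) x⟫_ℝ)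
          + ∫ x in (show Set R3 from Ω), ⟪L2.fn (Ω := Ω) (E := Mat) U x, Pub.jac ψ x⟫_ℝ)|
        ≤ ε * gradNorm ψ) ∧
      (∀ (s : ℝ) (x : E3), 0 < s → √s * ‖(heat s e x : E3)‖ ≤ ε) ∧
      IsClass (Ω := (show Set R3 from Ω)) (E := R3) (u 0) (fun x => a x + e x : E3 → E3) ∧
      (∀ t : ℝ, 0 < t → ENNReal.ofReal t ≤ T → IsStrong (show Set R3 from Ω) ν t F u u' G G') ∧
      ∀ t : ℝ, ε ≤ t → ENNReal.ofReal t ≤ T → ‖u t - v t‖ ≤ ε := by
  obtain ⟨C, Fr⟩ := exists_frame hΩ hb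
  obtain ⟨h, hh⟩ := hf0_of hf0
  have hstr : ∀ t : ℝ, 0 < t → ENNReal.ofReal t ≤ T → ∃ (v1 : ℝ → L2V Ω) (y y1 : ℝ → L2M Ω),
      Str (graphW Ω) (tensL (Ω := Ω)) ν t F v v1 y y1 := by
    intro t ht ht'
    obtain ⟨v', G, G', S⟩ := hv t ht ht'
    exact ⟨v', G, G', str_of_strong hΩ ht (prim_cont (hF t ht ht').memLp (hF t ht ht').prim) Fr S⟩
  have hFH : ∀ t : ℝ, 0 < t → ENNReal.ofReal t ≤ T → FH t F F' := fun t ht ht' =>
    ⟨(hF t ht ht').memLp, (hF t ht ht').prim⟩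
  have hε2 : ε / 2 ≤ ε := by linarith
  rcases eq_or_ne T ⊤ with hTt | hTt
  · subst hTt
    have eset : {t : ℝ | 0 < t ∧ ENNReal.ofReal t ≤ (⊤ : ℝ≥0∞)} = Ioi 0 := by
      ext t
      simp
    rw [eset] at hF2 hF2'
    obtain ⟨w0, e, u, hw0, hu0, hS, te, a1, a2, a3, a4⟩ := density_B2 (θ := 1) hloc hun huni hode
      he1 he2 hΩ hb hν (fun t ht => hFH t ht le_top) hF2 hF2' hh one_pos le_rfl
      (v := v) (fun t ht => hstr t ht le_top) f U (ε := ε / 2) (by positivity)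
    refine ⟨fun x => w0 x + (-1 : ℝ) • e x, e, u, _, _, _, sub_test hw0 te, te, ?_,
      fun s x hs => heat_small te a2 s x hs, class_add hw0 hu0,
      fun t ht _ => strong_of_str hΩ ht (hS t ht) (fun _ _ => rfl), fun t ht _ => ?_⟩
    · intro ψ hψ
      have h1 := dual_near hw0 te a4 ψ hψ
      refine h1.trans ?_
      exact mul_le_mul_of_nonneg_right hε2 (Real.sqrt_nonneg _)
    · exact (a1 t (by linarith)).trans hε2
  · set T0 : ℝ := T.toReal with hT0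
    have hT0p : 0 < T0 := ENNReal.toReal_pos hT.ne' hTt
    have hTe : ENNReal.ofReal T0 = T := ENNReal.ofReal_toReal hTt
    have hle : ∀ t : ℝ, ENNReal.ofReal t ≤ T → t ≤ T0 := by
      intro t ht
      rw [← hTe] at ht
      exact (ENNReal.ofReal_le_ofReal_iff hT0p.le).1 ht
    obtain ⟨v1, y, y1, Sv⟩ := hstr T0 hT0p hTe.le
    obtain ⟨w0, e, u, ⟨hw0, ⟨u1, z, z1, g0, Su, _⟩, hu0⟩, te, a1, a2, a3, a4⟩ :=
      density_A2 (θ := 1) hloc hun hode he1 he2 hΩ hb hν hT0p (hFH T0 hT0p hTe.le) hh one_pos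
        le_rfl Sv f U (ε := ε / 2) (by positivity)
    refine ⟨fun x => w0 x + (-1 : ℝ) • e x, e, u, u1, z, z1, sub_test hw0 te, te, ?_,
      fun s x hs => heat_small te a2 s x hs, class_add hw0 hu0,
      fun t ht ht' => strong_of_str hΩ ht (Su.mono (hle t ht')) (fun _ _ => rfl),
      fun t ht ht' => ?_⟩
    · intro ψ hψ
      have h1 := dual_near hw0 te a4 ψ hψ
      refine h1.trans ?_
      exact mul_le_mul_of_nonneg_right hε2 (Real.sqrt_nonneg _)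
    · exact (a1 t ⟨by linarith, hle t ht'⟩).trans hε2

end Pool.Agent.J4H18.DN
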