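import Pool.Agent.J4H18.DN.H3

/-!
The oscillating field at positive times.
-/

set_option autoImplicit false
set_option linter.unusedSectionVars false

open MeasureTheory Set Filter Topology
open scoped InnerProductSpace ENNReal ContDiff NNReal

namespace Pool.Agent.J4H18.DN

open H772R2.NS
open Pool.Agent.Y303.LV (cl clj clj_coe)

variable {ν : ℝ} {φ : E3 → ℝ} {A B h : Fin 3 → E3 → ℝ} {P : E3 → ℝ} {S K Ω : Set E3}
  {v : Fin 3 → E3 → ℝ} {f g : E3 → ℝ} {s : ℝ}

theorem hs1_mul (s : ℝ) (x : E3) (c : ℝ) (f : E3 → ℝ) :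
    hs1 s (fun y => c * f y) x = c * hs1 s f x := by
  unfold hs1
  have : (fun y => gk s x y * (c * f y)) = fun y => c * (gk s x y * f y) := by
    funext y
    ring
  rw [this, integral_const_mul]
  ring

/-- the heat semigroup on divergences -/
theorem hs1_div_le {u : Fin 3 → E3 → ℝ} (hs : 0 < s) (x : E3) (hu : ∀ j, ContDiff ℝ ∞ (u j))
    (hc : ∀ j, HasCompactSupport (u j)) {M : ℝ} (hM : ∀ j y, |u j y| ≤ M) :
    √s * |hs1 s (fun y => ∑ j, pd j (u j) y) x| ≤ 9 * M := by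
  have e1 : (fun y => ∑ j, pd j (u j) y) = fun y => (pd 0 (u 0) y + pd 1 (u 1) y)
      + pd 2 (u 2) y := by
    funext y
    rw [Fin.sum_univ_three]
  rw [e1, hs1_add3 s x (f := fun j => pd j (u j)) (fun j => (cd_pd (hu j) j).continuous)
    (fun j => (hc j).fderiv_apply ℝ _)]
  have hj : ∀ j, √s * |hs1 s (pd j (u j)) x| ≤ 3 * M := fun j =>
    hs1_pd_le hs x (hu j) (hc j) j (hM j)
  have h0 := hj 0
  have h1 := hj 1
  have h2 := hj 2
  have hq := Real.sqrt_nonneg s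
  calc _ ≤ √s * (|hs1 s (pd 0 (u 0)) x| + |hs1 s (pd 1 (u 1)) x| + |hs1 s (pd 2 (u 2)) x|) := by
        gcongr
        exact (abs_add_le _ _).trans (add_le_add (abs_add_le _ _) le_rfl)
    _ ≤ _ := by linarith

/-- the lower order part of the potential -/
noncomputable def Qf (ν : ℝ) (φ : E3 → ℝ) (A B h v : Fin 3 → E3 → ℝ) (i j : Fin 3) : Fun3 :=
  fun N t x => Ps φ (q2 ν) 1 (f1 ν φ v B) (f1 ν φ v A) i j N t x
      + Ps φ (q3 ν) 1 (f2 φ h B) (f2 φ h A) i j N t x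
      + 1 / 2 * Ps φ (q4 ν) 2 (f3 φ A B) (g3 φ A B) i j N t x

theorem Qf_cl (hν : 0 < ν) (D : Dat ν φ A B h P S K) (hv : ∀ j, ContDiff ℝ ∞ (v j))
    (i j : Fin 3) : Cl ν φ S (Qf ν φ A B h v i j) := by
  have Ph := D.ph
  have TA := D.TA
  have TB := D.TB
  exact ((Ps_cl (pf2 hν) Ph (tan_f1 Ph hv TB) (tan_f1 Ph hv TA) 1 i j).add
    (Ps_cl (pf3 hν) Ph (tan_f2 Ph D.ha TB) (tan_f2 Ph D.ha TA) 1 i j)).add
    ((Ps_cl (pf4 hν) Ph (tan_f3 Ph TA TB) (tan_g3 Ph TA TB) 2 i j).smul _)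

theorem Psi_split (i j : Fin 3) (N t : ℝ) (x : E3) : Psi ν φ A B h v i j N t x
    = q1 ν (N ^ 2 * t) * osc φ A B N i j x + N⁻¹ * Qf ν φ A B h v i j N t x := by
  have e : Ps φ (q1 ν) 1 A (fun i x => -B i x) i j N t x
      = q1 ν (N ^ 2 * t) * osc φ A B N i j x := by
    unfold Ps Tm osc
    simp only [one_mul]
  unfold Psi Qf
  rw [e]

/-- the error field at the time `t` -/
noncomputable def ef (ν : ℝ) (φ : E3 → ℝ) (A B h v : Fin 3 → E3 → ℝ) (N t : ℝ) : E3 → E3 :=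
  vec fun i x => Xf ν φ A B h v i N t x - q5 ν (N ^ 2 * t) * h i x

theorem q1_nonneg (τ : ℝ) : 0 ≤ q1 ν τ := (Real.exp_pos _).le

theorem q1_le_one (hν : 0 < ν) {τ : ℝ} (hτ : 0 ≤ τ) : q1 ν τ ≤ 1 := by
  unfold q1 ex
  rw [Real.exp_le_one_iff]
  have : 0 ≤ ν * τ := by positivity
  linarith

theorem q5_nonneg (τ : ℝ) : 0 ≤ q5 ν τ := by
  unfold q5
  positivity

theorem q5_le_one (hν : 0 < ν) {τ : ℝ} (hτ : 0 ≤ τ) : q5 ν τ ≤ 1 := by
  have h1 := q1_le_one hν hτ
  have h0 := q1_nonneg (ν := ν) τ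
  unfold q5
  unfold q1 at h1 h0
  exact pow_le_one₀ h0 h1

theorem ef_coord (hν : 0 < ν) (D : Dat ν φ A B h P S K) (hv : ∀ j, ContDiff ℝ ∞ (v j)) {N : ℝ}
    (hN : 1 ≤ N) (t : ℝ) (i : Fin 3) : (fun y => ef ν φ A B h v N t y i)
      = fun y => q1 ν (N ^ 2 * t) * (Xf ν φ A B h v i N 0 y - h i y)
        + ∑ j, pd j (fun y => N⁻¹ * Qf ν φ A B h v i j N t y) y := by
  have hφ := D.φs
  have hSc : IsCompact S := D.Kc.of_isClosed_subset D.Sc D.SK
  have aa : ∀ j, Amp S (osc φ A B N i j) := fun j =>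
    osc_amp hφ (((D.Ba i).neg.stat (cd_pd hφ j)).sub ((D.Ba j).neg.stat (cd_pd hφ i))).neg
      (((D.Aa i).stat (cd_pd hφ j)).sub ((D.Aa j).stat (cd_pd hφ i))) N
  have cQ : ∀ j, ContDiff ℝ ∞ (fun y => N⁻¹ * Qf ν φ A B h v i j N t y) := fun j =>
    contDiff_const.mul ((Qf_cl hν D hv i j).bo.cdx hφ hN t)
  funext y
  show Xf ν φ A B h v i N t y - q5 ν (N ^ 2 * t) * h i y = _
  have e1 : Xf ν φ A B h v i N t y - q5 ν (N ^ 2 * t) * h i y
      = ∑ j, dx j (Psi ν φ A B h v i j) N t y := by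
    unfold Xf
    have e2 : Tm φ (q5 ν) 0 (h i) (fun _ => 0) N t y = q5 ν (N ^ 2 * t) * h i y := by
      unfold Tm
      simp
    rw [e2, add_sub_cancel_right]
  rw [e1, init_eq, Finset.mul_sum, ← Finset.sum_add_distrib]
  refine Finset.sum_congr rfl fun j _ => ?_
  have e3 : Psi ν φ A B h v i j N t = fun y => q1 ν (N ^ 2 * t) * osc φ A B N i j y
      + N⁻¹ * Qf ν φ A B h v i j N t y := by
    funext y
    exact Psi_split i j N t y
  have e4 : dx j (Psi ν φ A B h v i j) N t y = pd j (Psi ν φ A B h v i j N t) y := rfl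
  rw [e4, e3, pd_add (contDiff_const.mul (aa j).smooth) (cQ j), pd_smul (aa j).smooth]

/-- the error field is a test field -/
theorem ef_test (hν : 0 < ν) (D : Dat ν φ A B h P S K) (hv : ∀ j, ContDiff ℝ ∞ (v j))
    (hKΩ : K ⊆ Ω) {N : ℝ} (hN : 1 ≤ N) (t : ℝ) : IsTest Ω (ef ν φ A B h v N t) := by
  have hφ := D.φs
  have cX : ∀ i, ContDiff ℝ ∞ (Xf ν φ A B h v i N t) := fun i =>
    (Xf_K hν D hv i).cdx hφ hN t
  have ch : ∀ i, ContDiff ℝ ∞ (h i) := fun i => (D.ha i).smooth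
  refine test_of D.Kc hKΩ (fun i => (cX i).sub (contDiff_const.mul (ch i))) (fun i x hx => ?_)
    fun x => ?_
  · rw [(Xf_K hν D hv i).off hN t hx, (D.ha i).off x fun h => hx (D.SK h), mul_zero, sub_zero]
  · have e1 : ∀ i, pd i (fun x => Xf ν φ A B h v i N t x - q5 ν (N ^ 2 * t) * h i x) x
        = pd i (Xf ν φ A B h v i N t) x - q5 ν (N ^ 2 * t) * pd i (h i) x := fun i => by
      rw [pd_sub (cX i) (contDiff_const.mul (ch i)) i x, pd_smul (ch i)]
    rw [Finset.sum_congr rfl fun i _ => e1 i, Finset.sum_sub_distrib, Xf_div hν D hv t x,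
      ← Finset.mul_sum, D.hd x, mul_zero, sub_zero]

/-- **The scale invariant size of the error field at positive times.** -/
theorem ef_HC (hν : 0 < ν) (D : Dat ν φ A B h P S K) (hv : ∀ j, ContDiff ℝ ∞ (v j)) {α : ℝ}
    (hα : 0 ≤ α) (hA : ∀ i x, |A i x| ≤ α) (hB : ∀ i x, |B i x| ≤ α) {s₀ : ℝ} (hs₀ : 0 < s₀) :
    ∃ C, 0 ≤ C ∧ ∀ N, 1 ≤ N → ∀ t, 0 ≤ t → ∀ i,
      (∀ s x, 0 < s → √s * |hs1 s (fun y => ef ν φ A B h v N t y i) x| ≤ 36 * α + C / N) ∧
      ∀ s x, s₀ ≤ s → √s * |hs1 s (fun y => ef ν φ A B h v N t y i) x| ≤ C / N := by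
  have hφ := D.φs
  have hSc : IsCompact S := D.Kc.of_isClosed_subset D.Sc D.SK
  obtain ⟨C1, hC1, hfar⟩ := osc_far (ν := ν) (v := v) D hs₀
  choose C2 hC2 hQ using fun (p : Fin 3 × Fin 3) =>
    (Qf_cl hν D hv p.1 p.2).bo.bound hν hSc
  set M : ℝ := ∑ p, C2 p with hM
  have hM0 : 0 ≤ M := Finset.sum_nonneg fun p _ => hC2 p
  have hMp : ∀ p, C2 p ≤ M := fun p =>
    Finset.single_le_sum (f := C2) (fun p _ => hC2 p) (Finset.mem_univ p)
  refine ⟨C1 + 9 * M, by positivity, fun N hN t ht i => ?_⟩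
  have hN0 : 0 < N := by linarith
  have cQ : ∀ j, ContDiff ℝ ∞ (fun y => N⁻¹ * Qf ν φ A B h v i j N t y) := fun j =>
    contDiff_const.mul ((Qf_cl hν D hv i j).bo.cdx hφ hN t)
  have oQ : ∀ j y, y ∉ S → N⁻¹ * Qf ν φ A B h v i j N t y = 0 := fun j y hy => by
    rw [(Qf_cl hν D hv i j).bo.off hN t hy, mul_zero]
  have kQ : ∀ j, HasCompactSupport (fun y => N⁻¹ * Qf ν φ A B h v i j N t y) := fun j =>
    HasCompactSupport.of_support_subset_isCompact hSc fun y hy => by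
      by_contra hc
      exact hy (oQ j y hc)
  have bQ : ∀ j y, |N⁻¹ * Qf ν φ A B h v i j N t y| ≤ M / N := by
    intro j y
    have h1 := hQ (i, j) N hN t ht y
    have h2 : ev (ν / 2) N t ≤ 1 := ev_le_one (by positivity) ht
    have h3 := ev_pos (δ := ν / 2) (N := N) t
    rw [zpow_zero, mul_one] at h1
    rw [abs_mul, abs_of_pos (inv_pos.2 hN0), div_eq_inv_mul]
    have h4 : |Qf ν φ A B h v i j N t y| ≤ M := by
      refine h1.trans ?_
      have := hMp (i, j)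
      calc C2 (i, j) * ev (ν / 2) N t ≤ M * 1 := by gcongr
        _ = M := mul_one _
    gcongr
  have key : ∀ s x, 0 < s → √s * |hs1 s (fun y => ef ν φ A B h v N t y i) x|
      ≤ √s * |hs1 s (fun y => Xf ν φ A B h v i N 0 y - h i y) x| + 9 * (M / N) := by
    intro s x hs
    have cX : Continuous (fun y => Xf ν φ A B h v i N 0 y - h i y) :=
      ((Xf_K hν D hv i).cdx hφ hN 0).continuous.sub (D.ha i).smooth.continuous
    have kX : HasCompactSupport (fun y => Xf ν φ A B h v i N 0 y - h i y) :=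
      HasCompactSupport.of_support_subset_isCompact D.Kc fun y hy => by
        by_contra hc
        refine hy ?_
        simp only
        rw [(Xf_K hν D hv i).off hN 0 hc, (D.ha i).off y fun h => hc (D.SK h), sub_zero]
    have c2 : Continuous (fun y => ∑ j, pd j (fun y => N⁻¹ * Qf ν φ A B h v i j N t y) y) :=
      continuous_finsetSum _ fun j _ => (cd_pd (cQ j) j).continuous
    have k2 : HasCompactSupport
        (fun y => ∑ j, pd j (fun y => N⁻¹ * Qf ν φ A B h v i j N t y) y) := by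
      refine HasCompactSupport.of_support_subset_isCompact hSc fun y hy => ?_
      by_contra hc
      refine hy (Finset.sum_eq_zero fun j _ => ?_)
      have a1 : Amp S (fun y => N⁻¹ * Qf ν φ A B h v i j N t y) := ⟨cQ j, oQ j⟩
      exact (a1.pd D.Sc j).off y hc
    have c1 : Continuous (fun y => q1 ν (N ^ 2 * t) * (Xf ν φ A B h v i N 0 y - h i y)) :=
      continuous_const.mul cX
    have k1 : HasCompactSupport
        (fun y => q1 ν (N ^ 2 * t) * (Xf ν φ A B h v i N 0 y - h i y)) := kX.mul_left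
    rw [ef_coord hν D hv hN t i, hs1_add s x c1 k1 c2 k2, hs1_mul]
    have hd := hs1_div_le hs x cQ kQ bQ
    have q0 := q1_nonneg (ν := ν) (N ^ 2 * t)
    have q1' := q1_le_one hν (by positivity : 0 ≤ N ^ 2 * t)
    have hq := Real.sqrt_nonneg s
    calc _ ≤ √s * (|q1 ν (N ^ 2 * t) * hs1 s (fun y => Xf ν φ A B h v i N 0 y - h i y) x|
          + |hs1 s (fun y => ∑ j, pd j (fun y => N⁻¹ * Qf ν φ A B h v i j N t y) y) x|) := by
          gcongr
          exact abs_add_le _ _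
      _ = √s * |q1 ν (N ^ 2 * t) * hs1 s (fun y => Xf ν φ A B h v i N 0 y - h i y) x|
          + √s * |hs1 s (fun y => ∑ j, pd j (fun y => N⁻¹ * Qf ν φ A B h v i j N t y) y) x| :=
          mul_add _ _ _
      _ ≤ √s * |hs1 s (fun y => Xf ν φ A B h v i N 0 y - h i y) x| + 9 * (M / N) := by
          refine add_le_add ?_ hd
          rw [abs_mul, abs_of_nonneg q0]
          gcongr
          calc _ ≤ 1 * |hs1 s (fun y => Xf ν φ A B h v i N 0 y - h i y) x| := by gcongr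
            _ = _ := one_mul _
  have hsum : 9 * (M / N) ≤ (C1 + 9 * M) / N := by
    rw [add_div]
    have : 0 ≤ C1 / N := by positivity
    have e : 9 * (M / N) = 9 * M / N := by ring
    linarith
  refine ⟨fun s x hs => ?_, fun s x hs => ?_⟩
  · have h1 := key s x hs
    have h2 := osc_HC (ν := ν) (v := v) D hα hA hB (N := N) s x i hs
    linarith
  · have h1 := key s x (hs₀.trans_le hs)
    have h2 := hfar N hN s hs x i
    have e : C1 / N + 9 * (M / N) = (C1 + 9 * M) / N := by ring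
    linarith

end Pool.Agent.J4H18.DN
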