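import Pool.Agent.J4H18.DN.J1
import Pool.Agent.J4H18.DN.H5

/-!
One stage, with the control of the solution at all times.
-/

set_option autoImplicit false
set_option linter.unusedSectionVars false

open MeasureTheory Set Filter Topology
open scoped InnerProductSpace ENNReal ContDiff NNReal

namespace Pool.Agent.J4H18.DN

open H772R2.NS
open H772R2.NSR (Frame rellich_W exists_frame prim_cont)
open Pool.Agent.W795.TQ
open Pool.Agent.Y303.LV (cl clj clj_coe)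

variable {ν s : ℝ} {φ : E3 → ℝ} {A B h : Fin 3 → E3 → ℝ} {P : E3 → ℝ} {S K Ω : Set E3}
  {F F1 : ℝ → L2M Ω}

/-- **One stage**, for all large frequencies, with the control of the solution at all times. -/
theorem stageX (hloc : S_loc) (hun : S_univ) (hΩ : IsOpen Ω) (hb : Bornology.IsBounded Ω)
    (hν : 0 < ν) {T : ℝ} (hT : 0 < T) (hF : FH T F F1) {v0 : E3 → E3} {v : ℝ → L2V Ω}
    (Sol : SolT Ω ν T F v0 v) (D : Dat ν φ A B h P S K) (hKΩ : K ⊆ Ω) {ε ε' : ℝ} (hε : 0 < ε)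
    (hε' : 0 < ε') :
    ∃ N1 : ℝ, 1 ≤ N1 ∧ ∀ N, N1 ≤ N → ∃ u : ℝ → L2V Ω, SolT Ω ν T F (nw ν φ A B h v0 N) u ∧
      (∀ t ∈ Icc ε' T, ‖u t - v t‖ ≤ ε) ∧
      ∀ t ∈ Icc 0 T, ‖u t - v t
        - cl Ω (vec fun i => Xf ν φ A B h (fun j x => v0 x j) i N t)‖ ≤ ε := by
  obtain ⟨hv0, ⟨v1, y, y1, g0, Sv, hg0⟩, hv⟩ := Sol
  obtain ⟨C, Fr⟩ := exists_frame hΩ hb
  obtain ⟨c, hc, hU⟩ := hun
  have Un := hU Ω hΩ
  have Q := quad_tensL (Ω := Ω) hΩ.measurableSet
  have hφ := D.φs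
  have hvs : ∀ j, ContDiff ℝ ∞ (fun x => v0 x j) := fun j => contDiff_coord hv0.smooth j
  obtain ⟨a, ha, hosc⟩ := exists_osc hΩ hν hv0 D hKΩ T
  obtain ⟨K0, N0, hK0, hN0, hmain⟩ := pertX hloc Fr Un Q (rellich_W hΩ hb) hν hT hF Sv hg0 ha
    (δ := ν / 2) (by positivity)
  obtain ⟨Ca, hCa, a1, _⟩ := BO_fam hφ hν D.Kc (Xf_K hν D hvs)
  have hvK : 0 ≤ vK K := vK_nonneg
  set Z1 : ℝ := (K0 + Ca * vK K * (1 / (ν / 2 * ε'))) / ε with hZ1
  have hZ10 : 0 ≤ Z1 := by positivity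
  refine ⟨max N0 Z1, hN0.trans (le_max_left _ _), fun N hN => ?_⟩
  have hNN0 : N0 ≤ N := (le_max_left _ _).trans hN
  have hNZ1 : Z1 ≤ N := (le_max_right _ _).trans hN
  have hN1 : 1 ≤ N := hN0.trans hNN0
  have hNp : 0 < N := by linarith
  have O := hosc N hN1
  rw [← hv] at O
  obtain ⟨u, u1, z, z1, g0', S', hu0, hg', hbd⟩ := hmain N hNN0 _ _ _ _ O
  have ht0 := Xf_test hν D hvs hKΩ hN1 0
  have hw0 : IsTest Ω (nw ν φ A B h v0 N) := hv0.add ht0
  have h5 : K0 + Ca * vK K * (1 / (ν / 2 * ε')) = Z1 * ε := by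
    rw [hZ1]
    field_simp
  have h6 : (K0 + Ca * vK K * (1 / (ν / 2 * ε'))) / N ≤ ε := by
    rw [div_le_iff₀ hNp, h5]
    nlinarith
  have h7 : 0 ≤ Ca * vK K * (1 / (ν / 2 * ε')) := by positivity
  refine ⟨u, ⟨hw0, ⟨u1, z, z1, g0', S', hg'⟩, ?_⟩, ?_, ?_⟩
  · unfold nw
    rw [hu0, hv, cl_add' hv0 ht0]
  · intro t ht
    have ht0 : 0 ≤ t := hε'.le.trans ht.1
    have h1 := hbd t ⟨ht0, ht.2⟩
    have h2 : ‖cl Ω (vec fun i => Xf ν φ A B h (fun j x => v0 x j) i N t)‖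
        ≤ Ca * N ^ (1 : ℤ) * ev (ν / 2) N t * vK K :=
      (BO_CK hφ (Xf_K hν D hvs) hN1 t).norm_le D.Kc (a1 N hN1 t ht0)
    have h3 := N_ev_le (t := t) hNp (δ := ν / 2) (by positivity) hε' ht.1
    rw [zpow_one] at h2
    have h4 : ‖u t - v t‖ ≤ K0 / N + Ca * vK K * (1 / (ν / 2 * ε')) / N := by
      have e : u t - v t = (u t - v t - cl Ω (vec fun i => Xf ν φ A B h (fun j x => v0 x j) i N t))
          + cl Ω (vec fun i => Xf ν φ A B h (fun j x => v0 x j) i N t) := by abel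
      rw [e]
      refine (norm_add_le _ _).trans (add_le_add h1 (h2.trans ?_))
      calc Ca * N * ev (ν / 2) N t * vK K = Ca * vK K * (N * ev (ν / 2) N t) := by ring
        _ ≤ Ca * vK K * (1 / (ν / 2 * ε') / N) := by gcongr
        _ = _ := by ring
    rw [← add_div] at h4
    exact h4.trans h6
  · intro t ht
    refine (hbd t ht).trans (le_trans ?_ h6)
    gcongr
    linarith

/-- the solution is close to the initial value for short times -/
theorem short (v : ℝ → L2V Ω) {T : ℝ} (hv : ContinuousOn v (Icc 0 T)) (hT : 0 < T) {η : ℝ}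
    (hη : 0 < η) : ∃ τ : ℝ, 0 < τ ∧ ∀ t ∈ Icc 0 T, t ≤ τ → ‖v t - v 0‖ ≤ η := by
  have h1 := hv 0 ⟨le_rfl, hT.le⟩
  rw [Metric.continuousWithinAt_iff] at h1
  obtain ⟨δ, hδ, h2⟩ := h1 η hη
  refine ⟨δ / 2, by positivity, fun t ht htδ => ?_⟩
  have h3 := h2 ht (by
    rw [Real.dist_eq, sub_zero, abs_of_nonneg ht.1]
    linarith)
  rw [dist_eq_norm] at h3
  exact h3.le

theorem SolT.cont {T : ℝ} {v0 : E3 → E3} {v : ℝ → L2V Ω} (Sol : SolT Ω ν T F v0 v) :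
    ContinuousOn v (Icc 0 T) := by
  obtain ⟨v1, y, y1, g0, Sv, _⟩ := Sol.str
  exact prim_cont Sv.u1m Sv.pu

/-- the path of one stage -/
def PathS (Ω : Set E3) (v0 : E3 → E3) (g : E3 → E3) (κ ε s₀ : ℝ) (x : L2V Ω) : Prop :=
  ∃ (l : ℝ) (e : E3 → E3), 0 ≤ l ∧ l ≤ 1 ∧ IsTest Ω e ∧ HC κ e ∧
    (∀ s x i, s₀ ≤ s → √s * |hs1 s (fun y => e y i) x| ≤ ε) ∧
    ‖x - cl Ω v0 - l • cl Ω g - cl Ω e‖ ≤ ε

/-- **One stage**, with the size of the error in the scale invariant norm and the control of the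
solution at all times. -/
theorem stageP (hloc : S_loc) (hun : S_univ) (hΩ : IsOpen Ω) (hb : Bornology.IsBounded Ω)
    (hν : 0 < ν) {T : ℝ} (hT : 0 < T) (hF : FH T F F1) {v0 : E3 → E3} {v : ℝ → L2V Ω}
    (Sol : SolT Ω ν T F v0 v) (D : Dat ν φ A B h P S K) (hKΩ : K ⊆ Ω) {α : ℝ} (hα : 0 ≤ α)
    (hA : ∀ i x, |A i x| ≤ α) (hB : ∀ i x, |B i x| ≤ α)
    {ε s₀ : ℝ} (hε : 0 < ε) (hs₀ : 0 < s₀) :
    ∃ (w0 e : E3 → E3) (u : ℝ → L2V Ω), SolT Ω ν T F w0 u ∧ IsTest Ω e ∧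
      (∀ x, w0 x = v0 x + vec h x + e x) ∧ (∀ t ∈ Icc ε T, ‖u t - v t‖ ≤ ε) ∧
      HC (36 * α) e ∧ (∀ s x i, s₀ ≤ s → √s * |hs1 s (fun y => e y i) x| ≤ ε) ∧
      ∀ t ∈ Icc 0 T, ‖u t - v t‖ ≤ ε ∨ PathS Ω v0 (vec h) (36 * α + ε) ε s₀ (u t) := by
  have hv0 := Sol.test
  have hvs : ∀ j, ContDiff ℝ ∞ (fun x => v0 x j) := fun j => contDiff_coord hv0.smooth j
  have hφ := D.φs
  obtain ⟨τ, hτ, hshort⟩ := short v Sol.cont hT (η := ε / 2) (by positivity)
  obtain ⟨N1, hN1, hN⟩ := stageX hloc hun hΩ hb hν hT hF Sol D hKΩ (ε := ε / 2)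
    (ε' := min ε τ) (by positivity) (lt_min hε hτ)
  obtain ⟨Cf, hCf, hfar⟩ := osc_far (ν := ν) (v := fun j x => v0 x j) D hs₀
  obtain ⟨Ce, hCe, hef⟩ := ef_HC hν D hvs hα hA hB hs₀
  have hlim : ∃ N : ℝ, N1 ≤ N ∧ Cf / N ≤ ε ∧ Ce / N ≤ ε := by
    have h1 : Tendsto (fun N : ℝ => Ce / N) atTop (𝓝 0) :=
      tendsto_const_nhds.div_atTop tendsto_id
    have h0 : Tendsto (fun N : ℝ => Cf / N) atTop (𝓝 0) :=
      tendsto_const_nhds.div_atTop tendsto_id
    have h2 := (h1.eventually (gt_mem_nhds hε)).and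
      ((h0.eventually (gt_mem_nhds hε)).and (eventually_ge_atTop N1))
    obtain ⟨N, h3, h4, h5⟩ := h2.exists
    exact ⟨N, h5, h4.le, h3.le⟩
  obtain ⟨N, hNN, hNf, hNe⟩ := hlim
  have hN' : 1 ≤ N := hN1.trans hNN
  have hNp : 0 < N := by linarith
  obtain ⟨u, Su, hu, hux⟩ := hN N hNN
  have hht : IsTest Ω (vec h) := test_of D.Kc hKΩ (fun i => (D.ha i).smooth)
    (fun i x hx => (D.ha i).off x fun h => hx (D.SK h)) D.hd
  set e : E3 → E3 := vec fun i x => Xf ν φ A B h (fun j x => v0 x j) i N 0 x - h i x with he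
  have cX : ∀ i, ContDiff ℝ ∞ (Xf ν φ A B h (fun j x => v0 x j) i N 0) := fun i =>
    (Xf_K hν D hvs i).cdx hφ hN' 0
  have ch : ∀ i, ContDiff ℝ ∞ (h i) := fun i => (D.ha i).smooth
  have het : IsTest Ω e := by
    refine test_of D.Kc hKΩ (fun i => (cX i).sub (ch i)) (fun i x hx => ?_) fun x => ?_
    · rw [(Xf_K hν D hvs i).off hN' 0 hx, (D.ha i).off x fun h => hx (D.SK h), sub_zero]
    · have e1 : ∀ i, pd i (fun x => Xf ν φ A B h (fun j x => v0 x j) i N 0 x - h i x) x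
          = pd i (Xf ν φ A B h (fun j x => v0 x j) i N 0) x - pd i (h i) x := fun i =>
        pd_sub (cX i) (ch i) i x
      rw [Finset.sum_congr rfl fun i _ => e1 i, Finset.sum_sub_distrib, Xf_div hν D hvs 0 x,
        D.hd x, sub_zero]
  have ee : ∀ i, (fun y => e y i) = fun y => Xf ν φ A B h (fun j x => v0 x j) i N 0 y - h i y :=
    fun i => rfl
  refine ⟨nw ν φ A B h v0 N, e, u, Su, het, fun x => ?_, fun t ht => ?_, fun s x i hs => ?_,
    fun s x i hs => ?_, fun t ht => ?_⟩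
  · ext i
    show v0 x i + Xf ν φ A B h (fun j x => v0 x j) i N 0 x
      = v0 x i + h i x + (Xf ν φ A B h (fun j x => v0 x j) i N 0 x - h i x)
    ring
  · have := hu t ⟨(min_le_left _ _).trans ht.1, ht.2⟩
    linarith
  · rw [ee i]
    exact osc_HC D hα hA hB s x i hs
  · rw [ee i]
    exact (hfar N hN' s hs x i).trans hNf
  · rcases le_total (min ε τ) t with h1 | h1
    · left
      have := hu t ⟨h1, ht.2⟩
      linarith
    · right
      have htτ : t ≤ τ := h1.trans (min_le_right _ _)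
      have het' := ef_test hν D hvs hKΩ hN' t
      have hτ0 : 0 ≤ N ^ 2 * t := mul_nonneg (by positivity) ht.1
      refine ⟨q5 ν (N ^ 2 * t), ef ν φ A B h (fun j x => v0 x j) N t, q5_nonneg _,
        q5_le_one hν hτ0, het', fun s x i hs => ?_, fun s x i hs => ?_, ?_⟩
      · have := (hef N hN' t ht.1 i).1 s x hs
        linarith
      · exact ((hef N hN' t ht.1 i).2 s x hs).trans hNe
      · have e1 : (vec fun i => Xf ν φ A B h (fun j x => v0 x j) i N t)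
            = fun x => q5 ν (N ^ 2 * t) • vec h x
              + ef ν φ A B h (fun j x => v0 x j) N t x := by
          funext x
          ext i
          show Xf ν φ A B h (fun j x => v0 x j) i N t x = q5 ν (N ^ 2 * t) * h i x
            + (Xf ν φ A B h (fun j x => v0 x j) i N t x - q5 ν (N ^ 2 * t) * h i x)
          ring
        have h2 := hux t ht
        have t1 : IsTest Ω (fun x => q5 ν (N ^ 2 * t) • vec h x) := hht.smul _
        rw [e1, cl_add' t1 het', (CK.test hht).cl_smul hht.compact] at h2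
        have h3 := hshort t ht htτ
        rw [Sol.init] at h3
        have e2 : u t - cl Ω v0 - q5 ν (N ^ 2 * t) • cl Ω (vec h)
              - cl Ω (ef ν φ A B h (fun j x => v0 x j) N t)
            = (u t - v t - (q5 ν (N ^ 2 * t) • cl Ω (vec h)
              + cl Ω (ef ν φ A B h (fun j x => v0 x j) N t))) + (v t - cl Ω v0) := by abel
        rw [e2]
        refine (norm_add_le _ _).trans ?_
        linarith

end Pool.Agent.J4H18.DN
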