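import Pool.Agent.J4H18.DN.J2

/-!
Many stages, with the control of the solution at all times.
-/

set_option autoImplicit false
set_option linter.unusedSectionVars false

open MeasureTheory Set Filter Topology
open scoped InnerProductSpace ENNReal ContDiff NNReal

namespace Pool.Agent.J4H18.DN

open H772R2.NS
open Pool.Agent.W795.TQ
open Pool.Agent.Y303.LV (cl clj clj_coe)

variable {Ω : Set E3} {ν T s : ℝ} {F F1 : ℝ → L2M Ω} {g g' v0 : E3 → E3} {v : ℝ → L2V Ω}

theorem cl_smul' (hg : IsTest Ω g) (c : ℝ) : cl Ω (fun x => c • g x) = c • cl Ω g :=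
  (CK.test hg).cl_smul hg.compact c

/-- fields which are separated in frequency -/
theorem HC_lac {e e' : E3 → E3} (t1 : IsTest Ω e) (t2 : IsTest Ω e') {a b ε s₀ κ : ℝ}
    (h1 : HC a e) (h1' : ∀ r x i, 0 < r → r ≤ s₀ → √r * |hs1 r (fun y => e y i) x| ≤ ε)
    (h2 : HC b e') (h2' : ∀ r x i, s₀ ≤ r → √r * |hs1 r (fun y => e' y i) x| ≤ ε)
    (k1 : a + ε ≤ κ) (k2 : b + ε ≤ κ) : HC κ (fun x => e x + e' x) := by
  intro r x i hr
  have e1 : (fun y => (e y + e' y) i) = fun y => e y i + e' y i := rfl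
  rw [e1, hs1_add r x (test_c t1 i) (test_k t1 i) (test_c t2 i) (test_k t2 i)]
  have htri : √r * |hs1 r (fun y => e y i) x + hs1 r (fun y => e' y i) x|
      ≤ √r * |hs1 r (fun y => e y i) x| + √r * |hs1 r (fun y => e' y i) x| := by
    rw [← mul_add]
    gcongr
    exact abs_add_le _ _
  refine htri.trans ?_
  rcases le_total s₀ r with h | h
  · have := h1 r x i hr
    have := h2' r x i h
    linarith
  · have := h1' r x i hr h
    have := h2 r x i hr
    linarith

theorem near_zero {e : E3 → E3} (t1 : IsTest Ω e) {ε : ℝ} (hε : 0 < ε) : ∃ s₀ : ℝ, 0 < s₀ ∧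
    ∀ r x i, 0 < r → r ≤ s₀ → √r * |hs1 r (fun y => e y i) x| ≤ ε := by
  obtain ⟨M, hM, hMe⟩ := test_bdd t1
  have hsq : √((ε / (M + 1)) ^ 2) * M ≤ ε := by
    rw [Real.sqrt_sq (by positivity)]
    calc ε / (M + 1) * M = ε * (M / (M + 1)) := by ring
      _ ≤ ε * 1 := by
          gcongr
          rw [div_le_one (by positivity)]
          linarith
      _ = ε := mul_one _
  refine ⟨(ε / (M + 1)) ^ 2, by positivity, fun r x i hr h => ?_⟩
  have d1 := hs1_le hr x (fun y => hMe y i)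
  have d2 := Real.sqrt_le_sqrt h
  calc √r * |hs1 r (fun y => e y i) x| ≤ √((ε / (M + 1)) ^ 2) * M := by gcongr
    _ ≤ ε := hsq

/-- a field which is available in one stage, with a bound of the amplitudes -/
def Avail (Ω : Set E3) (ν : ℝ) (g : E3 → E3) (α : ℝ) : Prop :=
  ∃ (φ : E3 → ℝ) (A B h : Fin 3 → E3 → ℝ) (P : E3 → ℝ) (S K : Set E3), vec h = g ∧
    Dat ν φ A B h P S K ∧ K ⊆ Ω ∧ (∀ i x, |A i x| ≤ α) ∧ ∀ i x, |B i x| ≤ α

/-- the path -/
def PathR (Ω : Set E3) (v0 g : E3 → E3) (L κ ε : ℝ) (x : L2V Ω) : Prop :=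
  ∃ (l : ℝ) (e : E3 → E3), 0 ≤ l ∧ l ≤ L ∧ IsTest Ω e ∧ HC κ e ∧
    ‖x - cl Ω v0 - l • cl Ω g - cl Ω e‖ ≤ ε

theorem PathR.mono {L L' κ κ' ε ε' : ℝ} {x y : L2V Ω} (h : PathR Ω v0 g L κ ε x) (h1 : L ≤ L')
    (h2 : κ ≤ κ') (h3 : ε + ‖y - x‖ ≤ ε') : PathR Ω v0 g L' κ' ε' y := by
  obtain ⟨l, e, a1, a2, a3, a4, a5⟩ := h
  refine ⟨l, e, a1, a2.trans h1, a3, a4.mono h2, ?_⟩
  have e1 : y - cl Ω v0 - l • cl Ω g - cl Ω e = (x - cl Ω v0 - l • cl Ω g - cl Ω e)
      + (y - x) := by abel
  rw [e1]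
  exact (norm_add_le _ _).trans (by linarith)

/-- many small stages -/
theorem stagesP (hloc : S_loc) (hun : S_univ) (hΩ : IsOpen Ω) (hb : Bornology.IsBounded Ω)
    (hν : 0 < ν) (hT : 0 < T) (hF : FH T F F1) {α : ℝ} (hα : 0 ≤ α) (hg : IsTest Ω g)
    (hD : Avail Ω ν g α) (Sol : SolT Ω ν T F v0 v) {ε : ℝ} (hε : 0 < ε) (n : ℕ) :
    ∃ (w0 e : E3 → E3) (u : ℝ → L2V Ω), SolT Ω ν T F w0 u ∧ IsTest Ω e ∧
      (∀ x, w0 x = v0 x + (n : ℝ) • g x + e x) ∧
      (∀ t ∈ Icc ε T, ‖u t - v t‖ ≤ n * ε) ∧ HC (36 * α + n * ε) e ∧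
      ∀ t ∈ Icc 0 T, ‖u t - v t‖ ≤ n * ε ∨
        PathR Ω v0 g n (36 * α + (n + 1) * ε) (n * ε) (u t) := by
  have hv0 := Sol.test
  induction n with
  | zero =>
    refine ⟨v0, fun _ => 0, v, Sol, zero_test, fun x => ?_, fun t _ => ?_,
      HC_zero (by positivity), fun t _ => ?_⟩
    · simp
    · simp
    · left
      simp
  | succ n ih =>
    obtain ⟨w, e, u, S1, t1, a0, a1, a2, a3⟩ := ih
    obtain ⟨φ, A, B, h, P, S, K, hh, D, hK, hA, hBB⟩ := hD
    obtain ⟨s₀, hs₀p, hs₀⟩ := near_zero t1 hε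
    obtain ⟨w', e', u', S2, t2, b0, b1, b2, b3, b4⟩ := stageP hloc hun hΩ hb hν hT hF S1 D
      hK hα hA hBB hε hs₀p
    rw [hh] at b0 b4
    have clw : cl Ω w = cl Ω v0 + (n : ℝ) • cl Ω g + cl Ω e := by
      have t3 : IsTest Ω (fun x => (n : ℝ) • g x) := hg.smul _
      have t4 : IsTest Ω (fun x => v0 x + (n : ℝ) • g x) := hv0.add t3
      have e0 : w = fun x => (v0 x + (n : ℝ) • g x) + e x := funext a0
      rw [e0, cl_add' t4 t1, cl_add' hv0 t3, cl_smul' hg]
    have hn0 : (0 : ℝ) ≤ n := Nat.cast_nonneg n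
    have hnε : 0 ≤ (n : ℝ) * ε := by positivity
    refine ⟨w', fun x => e x + e' x, u', S2, t1.add t2, fun x => ?_, fun t ht => ?_, ?_,
      fun t ht => ?_⟩
    · rw [b0, a0]
      push_cast
      rw [add_smul, one_smul]
      beta_reduce
      abel
    · have e1 : u' t - v t = (u' t - u t) + (u t - v t) := by abel
      rw [e1]
      refine (norm_add_le _ _).trans ?_
      push_cast
      linarith [a1 t ht, b1 t ht]
    · push_cast
      exact HC_lac t1 t2 a2 hs₀ b2 b3 (by linarith) (by linarith)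
    · have e1 : u' t - v t = (u' t - u t) + (u t - v t) := by abel
      push_cast
      rcases b4 t ht with h1 | ⟨l, e'', l0, l1, te, c1, c2, c3⟩
      · rcases a3 t ht with h2 | h2
        · left
          rw [e1]
          refine (norm_add_le _ _).trans ?_
          linarith
        · right
          exact h2.mono (by linarith) (by linarith) (by linarith)
      · right
        refine ⟨n + l, fun x => e x + e'' x, by linarith, by linarith, t1.add te,
          HC_lac t1 te a2 hs₀ c1 c2 (by linarith) (by linarith), ?_⟩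
        have e2 : u' t - cl Ω v0 - ((n : ℝ) + l) • cl Ω g - cl Ω (fun x => e x + e'' x)
            = u' t - cl Ω w - l • cl Ω g - cl Ω e'' := by
          rw [clw, cl_add' t1 te, add_smul]
          abel
        rw [e2]
        linarith

/-- the property of a change of the initial velocity, with the control of the solution at all
times -/
def RchP (Ω : Set E3) (ν T : ℝ) (F : ℝ → L2M Ω) (g : E3 → E3) : Prop :=
  ∀ (v0 : E3 → E3) (v : ℝ → L2V Ω), SolT Ω ν T F v0 v → ∀ ε : ℝ, 0 < ε →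
    ∃ (w0 e : E3 → E3) (u : ℝ → L2V Ω), SolT Ω ν T F w0 u ∧ IsTest Ω e ∧
      (∀ x, w0 x = v0 x + g x + e x) ∧ (∀ t ∈ Icc ε T, ‖u t - v t‖ ≤ ε) ∧ HC ε e ∧
      ∀ t ∈ Icc 0 T, ‖u t - v t‖ ≤ ε ∨ PathR Ω v0 g 1 ε ε (u t)

theorem RchP.zero : RchP Ω ν T F (fun _ => 0) := by
  intro v0 v S ε hε
  refine ⟨v0, fun _ => 0, v, S, zero_test, fun x => by simp, fun t _ => ?_, HC_zero hε.le,
    fun t _ => Or.inl ?_⟩
  · rw [sub_self, norm_zero]
    exact hε.le
  · rw [sub_self, norm_zero]
    exact hε.le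

/-- **Every multiple of a torus field is reached.** -/
theorem RchP.torus (hloc : S_loc) (hun : S_univ) (hΩ : IsOpen Ω) (hb : Bornology.IsBounded Ω)
    (hν : 0 < ν) (hT : 0 < T) (hF : FH T F F1)
    (R : E3 ≃ₗᵢ[ℝ] E3) (y : E3) (hs : 0 < s) (hB : Metric.closedBall y (4 * s) ⊆ Ω) (c : ℝ) :
    RchP Ω ν T F (fun x => c • vec (rot R y s hh) x) := by
  intro v0 v Sol ε hε
  obtain ⟨C1, hC1, hD⟩ := dat_all' hν R y hs
  have ht := torus_test R y hs hB
  -- the number of stages
  obtain ⟨n, hn⟩ : ∃ n : ℕ, (36 * C1) ^ 2 * |c| ≤ (ε / 2) ^ 2 * ((n : ℝ) + 1) := by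
    obtain ⟨n, hn⟩ := exists_nat_ge ((36 * C1) ^ 2 * |c| / (ε / 2) ^ 2)
    refine ⟨n, ?_⟩
    have h2 : 0 < (ε / 2) ^ 2 := by positivity
    rw [div_le_iff₀ h2] at hn
    nlinarith
  set m : ℝ := (n : ℝ) + 1 with hm
  have hm0 : 0 < m := by positivity
  have hm1 : 1 ≤ m := by
    have : (0 : ℝ) ≤ n := Nat.cast_nonneg n
    linarith
  have hsize : 36 * (C1 * √|c / m|) ≤ ε / 2 := by
    have h1 : (36 * (C1 * √|c / m|)) ^ 2 ≤ (ε / 2) ^ 2 := by
      have h2 : (36 * (C1 * √|c / m|)) ^ 2 = (36 * C1) ^ 2 * |c| / m := by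
        have : √|c / m| ^ 2 = |c| / m := by
          rw [Real.sq_sqrt (abs_nonneg _), abs_div, abs_of_pos hm0]
        calc (36 * (C1 * √|c / m|)) ^ 2 = (36 * C1) ^ 2 * √|c / m| ^ 2 := by ring
          _ = _ := by
            rw [this]
            ring
      rw [h2, div_le_iff₀ hm0]
      exact hn
    exact (pow_le_pow_iff_left₀ (by positivity) (by positivity) (by norm_num)).mp h1
  have hav : Avail Ω ν (fun x => (c / m) • vec (rot R y s hh) x) (C1 * √|c / m|) := by
    obtain ⟨φ, A, B, P, S, K, D, hK, hA, hBB⟩ := hD (c / m)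
    refine ⟨φ, A, B, _, P, S, K, ?_, D, hK.trans hB, hA, hBB⟩
    funext x
    ext i
    rfl
  have ht' : IsTest Ω (fun x => (c / m) • vec (rot R y s hh) x) := ht.smul _
  set ε1 : ℝ := ε / (2 * (m + 1)) with hε1
  have hε1p : 0 < ε1 := by positivity
  have hmε : m * ε1 ≤ ε / 2 := by
    rw [hε1]
    calc m * (ε / (2 * (m + 1))) = (m / (m + 1)) * (ε / 2) := by field_simp
      _ ≤ 1 * (ε / 2) := by
          gcongr
          rw [div_le_one (by positivity)]
          linarith
      _ = ε / 2 := one_mul _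
  have hmε' : (m + 1) * ε1 = ε / 2 := by
    rw [hε1]
    field_simp
  have h1ε : ε1 ≤ ε := by
    have : 1 * ε1 ≤ (m + 1) * ε1 := by
      gcongr
      linarith
    linarith
  obtain ⟨w, e, u, S1, t1, a0, a1, a2, a3⟩ := stagesP hloc hun hΩ hb hν hT hF
    (by positivity : 0 ≤ C1 * √|c / m|) ht' hav Sol hε1p (n + 1)
  have hcast : ((n + 1 : ℕ) : ℝ) = m := by
    push_cast
    rfl
  rw [hcast] at a0 a1 a2 a3
  have hmc : m * (c / m) = c := by field_simp
  have ecl : ∀ l : ℝ, l • cl Ω (fun x => (c / m) • vec (rot R y s hh) x)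
      = (l / m) • cl Ω (fun x => c • vec (rot R y s hh) x) := by
    intro l
    rw [cl_smul' ht, cl_smul' ht, smul_smul, smul_smul]
    congr 1
    field_simp
  refine ⟨w, e, u, S1, t1, fun x => ?_, fun t ht => ?_, a2.mono (by linarith),
    fun t ht => ?_⟩
  · rw [a0]
    simp only [smul_smul, hmc]
  · have := a1 t ⟨h1ε.trans ht.1, ht.2⟩
    linarith
  · rcases a3 t ht with h1 | ⟨l, e', l0, l1, te, c1, c2⟩
    · left
      linarith
    · right
      refine ⟨l / m, e', by positivity, by rwa [div_le_one hm0], te, c1.mono (by linarith), ?_⟩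
      rw [ecl l] at c2
      linarith

/-- **Sums.** -/
theorem RchP.add (tg : IsTest Ω g) (tg' : IsTest Ω g') (h : ∀ c : ℝ, RchP Ω ν T F fun x => c • g x)
    (h' : ∀ c : ℝ, RchP Ω ν T F fun x => c • g' x) : RchP Ω ν T F (fun x => g x + g' x) := by
  intro v0 v Sol ε hε
  have hv0 := Sol.test
  set B0 : ℝ := ‖cl Ω g‖ + ‖cl Ω g'‖ with hB0
  have hB00 : 0 ≤ B0 := by positivity
  obtain ⟨n, hn⟩ := exists_nat_ge (2 * B0 / ε)
  set m : ℝ := (n : ℝ) + 1 with hm
  have hm0 : 0 < m := by positivity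
  have hm1 : 1 ≤ m := by
    have : (0 : ℝ) ≤ n := Nat.cast_nonneg n
    linarith
  have hBm : B0 / m ≤ ε / 2 := by
    rw [div_le_iff₀ hε] at hn
    rw [div_le_iff₀ hm0]
    have : ε / 2 * m = (n * ε + ε) / 2 := by
      rw [hm]
      ring
    linarith
  set ε1 : ℝ := ε / (2 * (2 * m + 1)) with hε1
  have hε1p : 0 < ε1 := by positivity
  have hmε : (2 * m + 1) * ε1 = ε / 2 := by
    rw [hε1]
    field_simp
  have tg2 : IsTest Ω (fun x => g x + g' x) := tg.add tg'
  -- the rounds
  have key : ∀ j : ℕ, ∃ (w0 e : E3 → E3) (u : ℝ → L2V Ω), SolT Ω ν T F w0 u ∧ IsTest Ω e ∧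
      (∀ x, w0 x = v0 x + ((j : ℝ) / m) • (g x + g' x) + e x) ∧
      (∀ t ∈ Icc ε1 T, ‖u t - v t‖ ≤ 2 * j * ε1) ∧ HC (2 * j * ε1) e ∧
      ∀ t ∈ Icc 0 T, ‖u t - v t‖ ≤ 2 * j * ε1 ∨
        PathR Ω v0 (fun x => g x + g' x) (j / m) (2 * j * ε1) (2 * j * ε1 + B0 / m) (u t) := by
    intro j
    induction j with
    | zero =>
      refine ⟨v0, fun _ => 0, v, Sol, zero_test, fun x => ?_, fun t _ => ?_,
        HC_zero (by simp), fun t _ => Or.inl ?_⟩
      · simp
      · simp
      · simp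
    | succ j ih =>
      obtain ⟨w, e, u, S1, t1, a0, a1, a2, a3⟩ := ih
      obtain ⟨w1, e1, u1, S2, t2, b0, b1, b2, b3⟩ := h (1 / m) w u S1 ε1 hε1p
      obtain ⟨w2, e2, u2, S3, t3, c0, c1, c2, c3⟩ := h' (1 / m) w1 u1 S2 ε1 hε1p
      have hj0 : (0 : ℝ) ≤ j := Nat.cast_nonneg j
      have hjε : 0 ≤ 2 * (j : ℝ) * ε1 := by positivity
      have hjm : (j : ℝ) / m ≤ (j + 1) / m := by gcongr; linarith
      have hBm0 : 0 ≤ B0 / m := by positivity
      have clw : cl Ω w = cl Ω v0 + ((j : ℝ) / m) • cl Ω (fun x => g x + g' x) + cl Ω e := by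
        have t4 : IsTest Ω (fun x => ((j : ℝ) / m) • (g x + g' x)) := tg2.smul _
        have t5 : IsTest Ω (fun x => v0 x + ((j : ℝ) / m) • (g x + g' x)) := hv0.add t4
        have e0 : w = fun x => (v0 x + ((j : ℝ) / m) • (g x + g' x)) + e x := funext a0
        rw [e0, cl_add' t5 t1, cl_add' hv0 t4, cl_smul' tg2]
      have clw1 : cl Ω w1 = cl Ω w + (1 / m) • cl Ω g + cl Ω e1 := by
        have t4 : IsTest Ω (fun x => (1 / m) • g x) := tg.smul _
        have t5 : IsTest Ω (fun x => w x + (1 / m) • g x) := S1.test.add t4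
        have e0 : w1 = fun x => (w x + (1 / m) • g x) + e1 x := funext b0
        rw [e0, cl_add' t5 t2, cl_add' S1.test t4, cl_smul' tg]
      have gm : ∀ (l : ℝ) (k : E3 → E3), 0 ≤ l → l ≤ 1 → IsTest Ω k →
          ‖l • cl Ω (fun x => (1 / m) • k x)‖ ≤ ‖cl Ω k‖ / m := by
        intro l k l0 l1 tk
        rw [cl_smul' tk, norm_smul, norm_smul, Real.norm_of_nonneg l0,
          Real.norm_of_nonneg (by positivity)]
        calc l * (1 / m * ‖cl Ω k‖) ≤ 1 * (1 / m * ‖cl Ω k‖) := by gcongr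
          _ = _ := by ring
      refine ⟨w2, fun x => e x + (e1 x + e2 x), u2, S3, t1.add (t2.add t3), fun x => ?_,
        fun t ht => ?_, ?_, fun t ht => ?_⟩
      · rw [c0, b0, a0]
        push_cast
        rw [add_div, add_smul, smul_add (1 / m)]
        beta_reduce
        abel
      · have e3 : u2 t - v t = (u2 t - u1 t) + ((u1 t - u t) + (u t - v t)) := by abel
        rw [e3]
        refine (norm_add_le _ _).trans ?_
        have := norm_add_le (u1 t - u t) (u t - v t)
        push_cast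
        linarith [a1 t ht, b1 t ht, c1 t ht]
      · push_cast
        exact (HC.add t1 (t2.add t3) a2 (HC.add t2 t3 b2 c2)).mono (by linarith)
      · push_cast
        rcases c3 t ht with k1 | ⟨l, e3, l0, l1, te, d1, d2⟩
        · rcases b3 t ht with k2 | ⟨l, e3, l0, l1, te, d1, d2⟩
          · rcases a3 t ht with k3 | k3
            · left
              have e3 : u2 t - v t = (u2 t - u1 t) + ((u1 t - u t) + (u t - v t)) := by abel
              rw [e3]
              refine (norm_add_le _ _).trans ?_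
              have := norm_add_le (u1 t - u t) (u t - v t)
              linarith
            · right
              refine k3.mono hjm (by linarith) ?_
              have e3 : u2 t - u t = (u2 t - u1 t) + (u1 t - u t) := by abel
              rw [e3]
              have := norm_add_le (u2 t - u1 t) (u1 t - u t)
              linarith
          · right
            refine ⟨j / m, fun x => e x + e3 x, by positivity, hjm, t1.add te,
              (HC.add t1 te a2 d1).mono (by linarith), ?_⟩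
            have e4 : u2 t - cl Ω v0 - ((j : ℝ) / m) • cl Ω (fun x => g x + g' x)
                - cl Ω (fun x => e x + e3 x)
                = ((u2 t - u1 t) + (u1 t - cl Ω w - l • cl Ω (fun x => (1 / m) • g x)
                  - cl Ω e3)) + l • cl Ω (fun x => (1 / m) • g x) := by
              rw [clw, cl_add' t1 te]
              abel
            rw [e4]
            refine (norm_add_le _ _).trans ?_
            have q1 := norm_add_le (u2 t - u1 t) (u1 t - cl Ω w
              - l • cl Ω (fun x => (1 / m) • g x) - cl Ω e3)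
            have q2 := gm l g l0 l1 tg
            have q3 : ‖cl Ω g‖ / m ≤ B0 / m := by
              gcongr
              rw [hB0]
              linarith [norm_nonneg (cl Ω g')]
            linarith
        · right
          refine ⟨j / m, fun x => e x + (e1 x + e3 x), by positivity, hjm,
            t1.add (t2.add te), (HC.add t1 (t2.add te) a2 (HC.add t2 te b2 d1)).mono
              (by linarith), ?_⟩
          have t6 : IsTest Ω (fun x => e1 x + e3 x) := t2.add te
          have e4 : u2 t - cl Ω v0 - ((j : ℝ) / m) • cl Ω (fun x => g x + g' x)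
              - cl Ω (fun x => e x + (e1 x + e3 x))
              = (u2 t - cl Ω w1 - l • cl Ω (fun x => (1 / m) • g' x) - cl Ω e3)
                + ((1 : ℝ) • cl Ω (fun x => (1 / m) • g x)
                  + l • cl Ω (fun x => (1 / m) • g' x)) := by
            rw [clw1, clw, cl_add' t1 t6, cl_add' t2 te, cl_smul' tg, one_smul]
            abel
          rw [e4]
          refine (norm_add_le _ _).trans ?_
          have q1 := norm_add_le ((1 : ℝ) • cl Ω (fun x => (1 / m) • g x))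
            (l • cl Ω (fun x => (1 / m) • g' x))
          have q2 := gm 1 g zero_le_one le_rfl tg
          have q3 := gm l g' l0 l1 tg'
          have q4 : B0 / m = ‖cl Ω g‖ / m + ‖cl Ω g'‖ / m := by rw [hB0, add_div]
          linarith
  obtain ⟨w, e, u, S1, t1, a0, a1, a2, a3⟩ := key (n + 1)
  have hcast : ((n + 1 : ℕ) : ℝ) = m := by
    push_cast
    rfl
  rw [hcast] at a0 a1 a2 a3
  have hmm : m / m = 1 := div_self hm0.ne'
  rw [hmm] at a0 a3
  have h2m : 2 * m * ε1 ≤ ε / 2 := by linarith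
  have h1ε : ε1 ≤ ε := by
    have : 1 * ε1 ≤ (2 * m + 1) * ε1 := by
      gcongr
      linarith
    linarith
  refine ⟨w, e, u, S1, t1, fun x => ?_, fun t ht => ?_, a2.mono (by linarith),
    fun t ht => ?_⟩
  · rw [a0, one_smul]
  · have := a1 t ⟨h1ε.trans ht.1, ht.2⟩
    linarith
  · rcases a3 t ht with k | k
    · left
      linarith
    · right
      refine k.mono le_rfl (by linarith) ?_
      rw [sub_self, norm_zero]
      linarith

/-- the property for all multiples -/
def RchA (Ω : Set E3) (ν T : ℝ) (F : ℝ → L2M Ω) (g : E3 → E3) : Prop :=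
  ∀ c : ℝ, RchP Ω ν T F fun x => c • g x

theorem span_rchP (hloc : S_loc) (hun : S_univ) (hΩ : IsOpen Ω) (hb : Bornology.IsBounded Ω)
    (hν : 0 < ν) (hT : 0 < T) (hF : FH T F F1) {g : L2V Ω}
    (hg : g ∈ Submodule.span ℝ (TF Ω)) :
    ∃ gf : E3 → E3, IsTest Ω gf ∧ cl Ω gf = g ∧ RchA Ω ν T F gf := by
  induction hg using Submodule.closure_induction with
  | zero =>
    refine ⟨fun _ => 0, zero_test, ?_, fun c => ?_⟩
    · apply Lp.ext
      filter_upwards [(CK.test (Ω := Ω) zero_test).coe (Ω := Ω) (zero_test (Ω := Ω)).compact,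
        Lp.coeFn_zero E3 2 (volume.restrict Ω)] with x h1 h2
      rw [h1, h2]
      rfl
    · simp only [smul_zero]
      exact RchP.zero
  | add x y _ _ hx hy =>
    obtain ⟨g1, t1, c1, r1⟩ := hx
    obtain ⟨g2, t2, c2, r2⟩ := hy
    refine ⟨fun x => g1 x + g2 x, t1.add t2, by rw [cl_add' t1 t2, c1, c2], fun c => ?_⟩
    have e : (fun x => c • (g1 x + g2 x)) = fun x => c • g1 x + c • g2 x := by
      funext x
      rw [smul_add]
    rw [e]
    refine RchP.add (t1.smul c) (t2.smul c) (fun c' => ?_) fun c' => ?_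
    · have := r1 (c' * c)
      simpa only [smul_smul] using this
    · have := r2 (c' * c)
      simpa only [smul_smul] using this
  | smul_mem c x hx =>
    obtain ⟨R, y, s, hs, hB, rfl⟩ := hx
    have t1 := torus_test R y hs hB
    refine ⟨fun x => c • vec (rot R y s hh) x, t1.smul c, cl_smul' t1 c, fun c' => ?_⟩
    have := RchP.torus hloc hun hΩ hb hν hT hF R y hs hB (c' * c)
    simpa only [smul_smul] using this

end Pool.Agent.J4H18.DN
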