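import Pool.Agent.J4H18.DN.J3
import Pool.Agent.J4H18.DN.H7

/-!
The step of the iteration, on a bounded interval and for all times.
-/

set_option autoImplicit false
set_option linter.unusedSectionVars false

open MeasureTheory Set Filter Topology
open scoped InnerProductSpace ENNReal ContDiff NNReal

namespace Pool.Agent.J4H18.DN

open H772R2.NS
open Pool.Agent.W795.TQ
open H772R2.NSR (Frame prim_cont exists_frame rellich_W exists_poinc)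
open Pool.Agent.Y303.LV (cl clj clj_coe)
open Pool.Agent.Y303.NF (glue_all str_unique)

variable {Ω : Set E3} {ν T : ℝ} {F F1 : ℝ → L2M Ω} {g g' v0 : E3 → E3} {v : ℝ → L2V Ω}
  {f : L2V Ω} {U : L2M Ω} {δ δ' η : ℝ} {x y : L2V Ω}

theorem HC.smul {e : E3 → E3} (h : HC η e) {c : ℝ} (hc : 0 ≤ c) : HC (c * η) (fun x => c • e x) := by
  intro s x i hs
  have e1 : (fun y => (c • e y) i) = fun y => c * e y i := rfl
  rw [e1, hs1_mul, abs_mul, abs_of_nonneg hc]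
  have := h s x i hs
  calc √s * (c * |hs1 s (fun y => e y i) x|) = c * (√s * |hs1 s (fun y => e y i) x|) := by ring
    _ ≤ c * η := by gcongr

theorem HC.nonneg {e : E3 → E3} (h : HC η e) : 0 ≤ η :=
  le_trans (mul_nonneg (Real.sqrt_nonneg _) (abs_nonneg _)) (h 1 0 0 one_pos)

/-- `x` is near the functional given by `(f, U)`, up to a field which is small in the scale
invariant norm -/
def Nr (Ω : Set E3) (f : L2V Ω) (U : L2M Ω) (δ : ℝ) (x : L2V Ω) : Prop :=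
  ∃ e : E3 → E3, IsTest Ω e ∧ HC δ e ∧
    ∀ ψ, IsTest Ω ψ → |⟪x - cl Ω e - f, cl Ω ψ⟫_ℝ - ⟪U, clj Ω ψ⟫_ℝ| ≤ δ * G1 ψ

theorem Nr.mono (h : Nr Ω f U δ x) (hd : δ ≤ δ') : Nr Ω f U δ' x := by
  obtain ⟨e, a1, a2, a3⟩ := h
  exact ⟨e, a1, a2.mono hd, fun ψ hψ => (a3 ψ hψ).trans
    (mul_le_mul_of_nonneg_right hd (G1_nonneg ψ))⟩

/-- Poincaré's inequality for test fields -/
theorem poinT {C : ℝ} (hΩ : MeasurableSet Ω) (Fr : Frame (graphW Ω) (tensL (Ω := Ω)) C)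
    {ψ : E3 → E3} (hψ : IsTest Ω ψ) : ‖cl Ω ψ‖ ≤ C * G1 ψ := by
  have h1 := Fr.poinc _ (test_mem hψ)
  simp only at h1
  rwa [clj_G1 hΩ hψ] at h1

theorem Nr.pert {C : ℝ} (hΩ : MeasurableSet Ω) (Fr : Frame (graphW Ω) (tensL (Ω := Ω)) C)
    (h : Nr Ω f U δ x) (hy : ‖y - x‖ ≤ η) : Nr Ω f U (δ + C * η) y := by
  obtain ⟨e, a1, a2, a3⟩ := h
  have hC := Fr.C0
  have hη : 0 ≤ η := (norm_nonneg _).trans hy
  refine ⟨e, a1, a2.mono (by nlinarith), fun ψ hψ => ?_⟩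
  have e1 : ⟪y - cl Ω e - f, cl Ω ψ⟫_ℝ - ⟪U, clj Ω ψ⟫_ℝ
      = (⟪x - cl Ω e - f, cl Ω ψ⟫_ℝ - ⟪U, clj Ω ψ⟫_ℝ) + ⟪y - x, cl Ω ψ⟫_ℝ := by
    have : y - cl Ω e - f = (x - cl Ω e - f) + (y - x) := by abel
    rw [this, inner_add_left]
    ring
  rw [e1]
  refine (abs_add_le _ _).trans ?_
  have h1 := a3 ψ hψ
  have h2 := abs_real_inner_le_norm (y - x) (cl Ω ψ)
  have h3 := poinT hΩ Fr hψ
  have h4 := G1_nonneg ψ
  have h5 : ‖y - x‖ * ‖cl Ω ψ‖ ≤ η * (C * G1 ψ) := by gcongr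
  have h6 : (δ + C * η) * G1 ψ = δ * G1 ψ + η * (C * G1 ψ) := by ring
  rw [h6]
  linarith

theorem Nr.addC {e' : E3 → E3} (h : Nr Ω f U δ x) (t : IsTest Ω e') (h' : HC η e') :
    Nr Ω f U (δ + η) (x + cl Ω e') := by
  obtain ⟨e, a1, a2, a3⟩ := h
  refine ⟨fun x => e x + e' x, a1.add t, HC.add a1 t a2 h', fun ψ hψ => ?_⟩
  have e1 : x + cl Ω e' - cl Ω (fun x => e x + e' x) - f = x - cl Ω e - f := by
    rw [cl_add' a1 t]
    abel
  rw [e1]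
  refine (a3 ψ hψ).trans ?_
  have := h'.nonneg
  have := G1_nonneg ψ
  nlinarith

theorem Nr.conv (h : Nr Ω f U δ x) (h' : Nr Ω f U δ' y) {l : ℝ} (l0 : 0 ≤ l) (l1 : l ≤ 1) :
    Nr Ω f U (δ + δ') ((1 - l) • x + l • y) := by
  obtain ⟨e, a1, a2, a3⟩ := h
  obtain ⟨e', b1, b2, b3⟩ := h'
  have hd := a2.nonneg
  have hd' := b2.nonneg
  have hl : 0 ≤ 1 - l := by linarith
  have t1 : IsTest Ω (fun x => (1 - l) • e x) := a1.smul _
  have t2 : IsTest Ω (fun x => l • e' x) := b1.smul _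
  refine ⟨fun x => (1 - l) • e x + l • e' x, t1.add t2,
    (HC.add t1 t2 (a2.smul hl) (b2.smul l0)).mono (by nlinarith), fun ψ hψ => ?_⟩
  have e1 : ⟪(1 - l) • x + l • y - cl Ω (fun x => (1 - l) • e x + l • e' x) - f, cl Ω ψ⟫_ℝ
      - ⟪U, clj Ω ψ⟫_ℝ
      = (1 - l) * (⟪x - cl Ω e - f, cl Ω ψ⟫_ℝ - ⟪U, clj Ω ψ⟫_ℝ)
        + l * (⟪y - cl Ω e' - f, cl Ω ψ⟫_ℝ - ⟪U, clj Ω ψ⟫_ℝ) := by
    rw [cl_add' t1 t2, cl_smul' a1, cl_smul' b1]
    simp only [inner_add_left, inner_sub_left, real_inner_smul_left]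
    ring
  rw [e1]
  refine (abs_add_le _ _).trans ?_
  rw [abs_mul, abs_mul, abs_of_nonneg hl, abs_of_nonneg l0]
  have h1 := a3 ψ hψ
  have h2 := b3 ψ hψ
  have hG := G1_nonneg ψ
  have k1 : (1 - l) * |⟪x - cl Ω e - f, cl Ω ψ⟫_ℝ - ⟪U, clj Ω ψ⟫_ℝ| ≤ 1 * (δ * G1 ψ) := by
    gcongr
    linarith
  have k2 : l * |⟪y - cl Ω e' - f, cl Ω ψ⟫_ℝ - ⟪U, clj Ω ψ⟫_ℝ| ≤ 1 * (δ' * G1 ψ) := by
    gcongr
  linarith

/-- **The step on a bounded interval.** -/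
theorem stepT (hloc : S_loc) (hun : S_univ) (hΩ : IsOpen Ω) (hb : Bornology.IsBounded Ω)
    (hν : 0 < ν) (hT : 0 < T) (hF : FH T F F1) (S : SolT Ω ν T F v0 v) (f : L2V Ω) (U : L2M Ω)
    (hN : Nr Ω f U δ (cl Ω v0)) {ε : ℝ} (hε : 0 < ε) :
    ∃ (w0 : E3 → E3) (u : ℝ → L2V Ω), SolT Ω ν T F w0 u ∧ (∀ t ∈ Icc ε T, ‖u t - v t‖ ≤ ε) ∧
      Nr Ω f U ε (cl Ω w0) ∧ ∀ t ∈ Icc 0 T, ‖u t - v t‖ ≤ ε ∨ Nr Ω f U (δ + ε) (u t) := by
  have hv0 := S.test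
  have hm : MeasurableSet Ω := hΩ.measurableSet
  obtain ⟨C, Fr⟩ := exists_frame hΩ hb
  have hC := Fr.C0
  set ε1 : ℝ := ε / (3 + C) with hε1
  have hε1p : 0 < ε1 := by positivity
  have hCε : 3 * ε1 + C * ε1 = ε := by
    rw [hε1]
    field_simp
  have hCε1 : 0 < C * ε1 := by positivity
  obtain ⟨fU, hfU⟩ := approxU (graphW_closed Ω) Fr.poinc Fr.uniq U (ε := ε1 / 2) (by positivity)
  obtain ⟨gL, hg, h1⟩ := approx_torus hΩ hb (f + fU - cl Ω v0) (ε := ε1 / 2) (by positivity)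
  obtain ⟨gf, tg, cg, rg⟩ := span_rchP hloc hun hΩ hb hν hT hF hg
  have rg1 := rg 1
  simp only [one_smul] at rg1
  obtain ⟨w0, e, u, S', te, a0, a1, a2, a3⟩ := rg1 v0 v S ε1 hε1p
  -- the new functional
  have hnew : Nr Ω f U ε1 (cl Ω v0 + cl Ω gf) := by
    refine ⟨fun _ => 0, zero_test, HC_zero hε1p.le, fun ψ hψ => ?_⟩
    have c0 : cl Ω (fun _ : E3 => (0 : E3)) = 0 := by
      apply Lp.ext
      filter_upwards [(CK.test (Ω := Ω) zero_test).coe (Ω := Ω) (zero_test (Ω := Ω)).compact,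
        Lp.coeFn_zero E3 2 (volume.restrict Ω)] with x h1 h2
      rw [h1, h2]
      rfl
    have h3 := h1 _ (test_mem hψ)
    have h4 := hfU _ (test_mem hψ)
    simp only at h3 h4
    rw [clj_G1 hm hψ] at h3 h4
    have e1 : ⟪cl Ω v0 + cl Ω gf - cl Ω (fun _ : E3 => (0 : E3)) - f, cl Ω ψ⟫_ℝ
        - ⟪U, clj Ω ψ⟫_ℝ = -⟪f + fU - cl Ω v0 - gL, cl Ω ψ⟫_ℝ
          - (⟪U, clj Ω ψ⟫_ℝ - ⟪fU, cl Ω ψ⟫_ℝ) := by
      rw [c0, cg]
      simp only [inner_add_left, inner_sub_left, inner_zero_left]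
      ring
    rw [e1]
    refine (abs_sub _ _).trans ?_
    rw [abs_neg]
    linarith
  refine ⟨w0, u, S', fun t ht => ?_, ?_, fun t ht => ?_⟩
  · have h2 : ε1 ≤ ε := by linarith
    exact (a1 t ⟨h2.trans ht.1, ht.2⟩).trans h2
  · have h2 : IsTest Ω fun x => v0 x + gf x := hv0.add tg
    have e1 : w0 = fun x => (v0 x + gf x) + e x := funext a0
    rw [e1, cl_add' h2 te, cl_add' hv0 tg]
    exact (hnew.addC te a2).mono (by linarith)
  · rcases a3 t ht with h2 | ⟨l, e', l0, l1, te', c1, c2⟩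
    · left
      linarith
    · right
      have e1 : cl Ω v0 + l • cl Ω gf = (1 - l) • cl Ω v0 + l • (cl Ω v0 + cl Ω gf) := by
        rw [sub_smul, smul_add, one_smul]
        abel
      have h3 := (hN.conv hnew l0 l1).addC te' c1
      rw [← e1] at h3
      have h4 : ‖u t - (cl Ω v0 + l • cl Ω gf + cl Ω e')‖ ≤ ε1 := by
        have e2 : u t - (cl Ω v0 + l • cl Ω gf + cl Ω e')
            = u t - cl Ω v0 - l • cl Ω gf - cl Ω e' := by abel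
        rw [e2]
        exact c2
      exact (h3.pert hm Fr h4).mono (by linarith)

/-- a solution from a test field, up to the horizon -/
structure SolH (Ω : Set E3) (ν : ℝ) (Th : ℝ≥0∞) (F : ℝ → L2M Ω) (v0 : E3 → E3)
    (v : ℝ → L2V Ω) : Prop where
  test : IsTest Ω v0
  init : v 0 = cl Ω v0
  str : ∀ t : ℝ, 0 < t → ENNReal.ofReal t ≤ Th → ∃ (v1 : ℝ → L2V Ω) (y y1 : ℝ → L2M Ω),
    Str (graphW Ω) (tensL (Ω := Ω)) ν t F v v1 y y1

theorem SolH.toT {Th : ℝ≥0∞} (hΩ : IsOpen Ω) (hb : Bornology.IsBounded Ω) {f0 : L2V Ω}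
    (hf0 : ∀ p ∈ graphW Ω, ⟪F 0, p.2⟫_ℝ = ⟪f0, p.1⟫_ℝ) (S : SolH Ω ν Th F v0 v) (hT : 0 < T)
    (hTh : ENNReal.ofReal T ≤ Th) : SolT Ω ν T F v0 v := by
  obtain ⟨v1, y, y1, Sv⟩ := S.str T hT hTh
  obtain ⟨C, Fr⟩ := exists_frame hΩ hb
  obtain ⟨g, hg⟩ := compat_test hΩ.measurableSet S.test ν hf0
  have hy0 : y 0 = clj Ω v0 := by
    have h1 := Sv.mem 0 ⟨le_rfl, hT.le⟩
    rw [S.init] at h1
    have h2 := Fr.uniq _ ((graphW Ω).sub_mem h1 (test_mem S.test)) (by simp)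
    simpa [sub_eq_zero] using h2
  exact ⟨S.test, ⟨v1, y, y1, g, Sv, fun p hp => by
    rw [hy0, S.init]
    exact hg p hp⟩, S.init⟩

/-- **Continuation of solutions which are close to a global solution.** -/
theorem ext_inf (hloc : S_loc) (hun : S_univ) (huni : S_uni) (hode : S_ode) (he1 : S_est1)
    (he2 : S_est2) (hΩ : IsOpen Ω) (hb : Bornology.IsBounded Ω) (hν : 0 < ν)
    (hF : ∀ T, 0 < T → FH T F F1) (hF2 : MemLp F 2 (volume.restrict (Ioi 0)))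
    (hF12 : MemLp F1 2 (volume.restrict (Ioi 0))) {v : ℝ → L2V Ω}
    (hv : ∀ T : ℝ, 0 < T → ∃ (v1 : ℝ → L2V Ω) (y y1 : ℝ → L2M Ω),
      Str (graphW Ω) (tensL (Ω := Ω)) ν T F v v1 y y1) {ε : ℝ} (hε : 0 < ε) :
    ∃ α T : ℝ, 0 < α ∧ α ≤ ε ∧ 0 < T ∧ ε ≤ T ∧ ∀ (u u1 : ℝ → L2V Ω) (z z1 : ℝ → L2M Ω)
      (g0 : L2V Ω), Str (graphW Ω) (tensL (Ω := Ω)) ν T F u u1 z z1 →
      (∀ p ∈ graphW Ω, ⟪F 0 - ν • z 0 + tensL (u 0), p.2⟫_ℝ = ⟪g0, p.1⟫_ℝ) →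
      (∀ t ∈ Icc α T, ‖u t - v t‖ ≤ α) →
      ∃ w : ℝ → L2V Ω, (∀ T' : ℝ, 0 < T' → Str (graphW Ω) (tensL (Ω := Ω)) ν T' F w (deriv w)
        (gz (graphW Ω) w) (deriv (gz (graphW Ω) w))) ∧ (∀ t ∈ Icc 0 T, u t = w t) ∧
        ∀ t, ε ≤ t → ‖w t - v t‖ ≤ ε := by
  obtain ⟨c, hc, hU⟩ := hun
  obtain ⟨ε0, C7, hε0, hC7, hap⟩ := exists_apz hode he1 he2 hc
  obtain ⟨C, Fr⟩ := exists_frame hΩ hb
  have hν32 : 0 < ν ^ (3 / 2 : ℝ) := Real.rpow_pos_of_pos hν _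
  set κ1 : ℝ := ε0 * ν ^ (3 / 2 : ℝ) * ν / 4 with hκ1
  have hκ10 : 0 < κ1 := by positivity
  set κ2 : ℝ := ε0 * ν ^ (3 / 2 : ℝ) * ν ^ 2 / 4 with hκ2
  have hκ20 : 0 < κ2 := by positivity
  set q : ℝ := min κ1 ((ε / 2) ^ 2) with hq
  have hq0 : 0 < q := lt_min hκ10 (by positivity)
  have hqκ : q ≤ κ1 := min_le_left _ _
  have hqε : q ≤ (ε / 2) ^ 2 := min_le_right _ _
  set α : ℝ := min (√(q / 8)) ε with hα
  have hsq8 : 0 < √(q / 8) := Real.sqrt_pos.2 (by positivity)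
  have hα0 : 0 < α := lt_min hsq8 hε
  have hαε : α ≤ ε := min_le_right _ _
  have hα2 : (2 * α) ^ 2 ≤ q / 2 := by
    have h1 : α ≤ √(q / 8) := min_le_left _ _
    calc (2 * α) ^ 2 ≤ (2 * √(q / 8)) ^ 2 := by gcongr
      _ = 4 * √(q / 8) ^ 2 := by ring
      _ = q / 2 := by
        rw [Real.sq_sqrt (by positivity)]
        ring
  set δ : ℝ := min (ν * q / 2) (κ2 / 3) with hδ
  have hδ0 : 0 < δ := lt_min (by positivity) (by positivity)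
  have hδq : 1 / ν * δ ≤ q / 2 := by
    have h1 : δ ≤ ν * q / 2 := min_le_left _ _
    calc 1 / ν * δ ≤ 1 / ν * (ν * q / 2) := by gcongr
      _ = q / 2 := by field_simp
  have hδκ : 3 * δ ≤ κ2 := by
    have h1 : δ ≤ κ2 / 3 := min_le_right _ _
    linarith
  obtain ⟨Ta, hTa, ta⟩ := tail hF2 (δ := δ / 2) (by positivity)
  obtain ⟨Tb, hTb, tb⟩ := tail hF12 (δ := δ) hδ0
  set T1 : ℝ := max (max Ta Tb) ε with hT1
  have hT1a : Ta ≤ T1 := (le_max_left _ _).trans (le_max_left _ _)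
  have hT1b : Tb ≤ T1 := (le_max_right _ _).trans (le_max_left _ _)
  have hT1ε : ε ≤ T1 := le_max_right _ _
  have hT10 : 0 < T1 := hε.trans_le hT1ε
  obtain ⟨T0, hT01, hvT0⟩ := decayF Fr hν hF hv (T1 := T1) (B := δ / 2) hT10
    (fun t ht => ta T1 t hT1a ht) (η := α ^ 2) (by positivity)
  have hT00 : 0 < T0 := hT10.trans_le hT01
  have hvT : ‖v T0‖ ≤ α := (pow_le_pow_iff_left₀ (norm_nonneg _) hα0.le (by norm_num)).mp hvT0
  set T : ℝ := T0 + 1 with hTd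
  have hT : 0 < T := by positivity
  have hT1' : 1 ≤ T := by rw [hTd]; linarith
  -- the energy after the time `T0`
  have hen : ∀ (w : ℝ → L2V Ω) (w1 : ℝ → L2V Ω) (ζ ζ1 : ℝ → L2M Ω) (t : ℝ), T0 ≤ t →
      Str (graphW Ω) (tensL (Ω := Ω)) ν t F w w1 ζ ζ1 → ‖w T0‖ ≤ 2 * α → ‖w t‖ ≤ ε / 2 := by
    intro w w1 ζ ζ1 t ht Sw hw
    have hFt := hF t (hT00.trans_le ht)
    have h1 := en_le hν (prim_cont hFt.memLp hFt.prim) Sw hT00.le ht le_rfl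
    have h2 := ta T0 t (hT1a.trans hT01) ht
    have h3 : 0 ≤ ν * ∫ r in T0..t, ‖ζ r‖ ^ 2 :=
      mul_nonneg hν.le (intervalIntegral.integral_nonneg ht fun r _ => by positivity)
    have h4 : ‖w T0‖ ^ 2 ≤ (2 * α) ^ 2 := by gcongr
    have h5 : 1 / ν * (∫ r in T0..t, ‖F r‖ ^ 2) ≤ 1 / ν * δ := by
      gcongr
      linarith
    have h6 : ‖w t‖ ^ 2 ≤ (ε / 2) ^ 2 := by linarith
    exact (pow_le_pow_iff_left₀ (norm_nonneg _) (by positivity) (by norm_num)).mp h6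
  refine ⟨α, T, hα0, hαε, hT, hT1ε.trans (hT01.trans (by linarith)), ?_⟩
  intro u u1 z z1 g0 Su hg0 a1
  have huT0 : ‖u T0‖ ≤ 2 * α := by
    have h1 := a1 T0 ⟨(hαε.trans hT1ε).trans hT01, by rw [hTd]; linarith⟩
    have h2 : u T0 = (u T0 - v T0) + v T0 := by abel
    rw [h2]
    exact (norm_add_le _ _).trans (by linarith)
  have eT : T - 1 = T0 := by rw [hTd]; ring
  obtain ⟨w, hw00, hw⟩ := glue_all (W := graphW Ω) (m := tensL (Ω := Ω))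
    (F := F) (ν := ν) huni Fr hν (I := Ioi 0) (fun T hT => hT)
    (fun T hT => prim_cont (hF T hT).memLp (hF T hT).prim) (x0 := u 0) (fun T' hT' => by
      rcases le_total T' T with h | h
      · exact ⟨u, u1, z, z1, Su.mono h, rfl⟩
      · refine gextF hloc huni hε0 hC7 hap Fr (hU Ω hΩ) (rellich_W hΩ hb) hν hT1' h (hF T' hT')
          Su hg0 (κ := κ2) le_rfl hκ20.le ?_ ?_ ?_
        · rw [eT]
          have h1 := ta T0 T' (hT1a.trans hT01) (by linarith)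
          have h2 : ‖u T0‖ ^ 2 ≤ (2 * α) ^ 2 := by gcongr
          have h3 : 1 / ν * (∫ r in T0..T', ‖F r‖ ^ 2) ≤ 1 / ν * δ := by
            gcongr
            linarith
          linarith
        · intro t ht
          rw [eT] at ht
          have h1 := sup_F hF hδ0 (hT00.trans_le ht.1)
            (ta t (t + 1) ((hT1a.trans hT01).trans ht.1) (by linarith))
            (tb t (t + 1) ((hT1b.trans hT01).trans ht.1) (by linarith))
          linarith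
        · rw [eT]
          have h1 := tb T0 T' (hT1b.trans hT01) (by linarith)
          linarith)
  have hFcT : ContinuousOn F (Icc 0 T) := prim_cont (hF T hT).memLp (hF T hT).prim
  have hwu : ∀ t ∈ Icc 0 T, u t = w t :=
    str_unique huni Fr hν hT hT le_rfl hFcT Su (hw T hT) hw00
  refine ⟨w, fun T' hT' => hw T' hT', hwu, fun t ht => ?_⟩
  rcases le_total t T with h | h
  · rw [← hwu t ⟨hε.le.trans ht, h⟩]
    exact (a1 t ⟨hαε.trans ht, h⟩).trans hαε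
  · have ht0 : T0 ≤ t := by linarith
    have h1 := hen w _ _ _ t ht0 (hw t (hT.trans_le h)) (by
      rw [← hwu T0 ⟨hT00.le, by linarith⟩]
      exact huT0)
    obtain ⟨v1', y', y1', Sv'⟩ := hv t (hT.trans_le h)
    have h2 := hen v _ _ _ t ht0 Sv' (by linarith)
    refine (norm_sub_le _ _).trans ?_
    linarith

end Pool.Agent.J4H18.DN
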