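import Pool.Agent.J4H18.DN.F3
import Pool.Agent.J4H18.DN.H6
import Pool.Agent.J4H18.EX.B2

/-!
Bounds of the gradient near a strong solution, and limits of strong solutions.
-/

set_option autoImplicit false
set_option linter.unusedSectionVars false

open MeasureTheory Set Filter Topology
open scoped InnerProductSpace

namespace Pool.Agent.J4H18.DN

open Pool.Agent.W795.TQ
open Pool.Agent.W790.TQ (toSt)
open H772R2.NSR (Frame prim_cont exists_weak_limit mem_of_weak_limit grad_unique)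
open Pool.Agent.J4H18.EX (unif_est)

variable {H K : Type} [NormedAddCommGroup H] [InnerProductSpace ℝ H] [CompleteSpace H]
  [NormedAddCommGroup K] [InnerProductSpace ℝ K] [CompleteSpace K]
  {W : Submodule ℝ (H × K)} {m : H → K} {C c ν T τ a b : ℝ} {F F1 : ℝ → K}
  {v v1 : ℝ → H} {y y1 : ℝ → K}

theorem bdd_on {Y : Type} [NormedAddCommGroup Y] {f : ℝ → Y} (hf : ContinuousOn f (Icc 0 T)) :
    ∃ Φ : ℝ, 0 ≤ Φ ∧ ∀ t ∈ Icc 0 T, ‖f t‖ ≤ Φ := by
  obtain ⟨B, hB⟩ := (isCompact_Icc.image_of_continuousOn hf).isBounded.exists_norm_le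
  exact ⟨max B 0, le_max_right _ _, fun t ht => (hB _ ⟨t, ht, rfl⟩).trans (le_max_left _ _)⟩

/-- **Strong solutions which are close to a given strong solution at the time `a` are bounded in
`V` after the time `b`.** -/
theorem vbd {ε C7 : ℝ} (hε : 0 < ε) (hC7 : 0 < C7) (hap : Apz c ε C7) (Fr : Frame W m C)
    (Un : Univ W m c) (hν : 0 < ν) (hF : FH T F F1) (Sv : Str W m ν T F v v1 y y1) (ha : 0 ≤ a)
    (hab : a < b) (hbT : b ≤ T) :
    ∃ δ Z : ℝ, 0 < δ ∧ 0 ≤ Z ∧ ∀ (u u1 : ℝ → H) (z z1 : ℝ → K), Str W m ν T F u u1 z z1 →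
      ‖u a - v a‖ ≤ δ → ∀ t ∈ Icc b T, ‖z t‖ ≤ Z := by
  have haT : a < T := hab.trans_le hbT
  have hT : 0 < T := ha.trans_lt haT
  have hFc : ContinuousOn F (Icc 0 T) := prim_cont hF.memLp hF.prim
  have hyc : ContinuousOn y (Icc 0 T) := prim_cont Sv.z1m Sv.pz
  obtain ⟨Φ, hΦ0, hΦ⟩ := bdd_on hFc
  obtain ⟨Zv, hZv0, hZv⟩ := bdd_on hyc
  set G : ℝ := ∫ s in (0 : ℝ)..T, ‖F1 s‖ ^ 2 with hG
  have hG0 : 0 ≤ G := intervalIntegral.integral_nonneg hT.le fun s _ => by positivity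
  have hF1i : IntegrableOn (fun s => ‖F1 s‖ ^ 2) (Ioc 0 T) :=
    (memLp_two_iff_integrable_sq_norm hF.memLp.aestronglyMeasurable).mp hF.memLp
  obtain ⟨C1, hC10, hC1⟩ := m_young' Un (Z := Zv) hZv0 (η := ν / 2) (by positivity)
  set M : ℝ := Zv + 1 with hM
  have hM0 : 0 < M := by positivity
  set K2 : ℝ := M ^ 2 + (Φ ^ 2 + T * G) / ν ^ 2 with hK2
  have hK20 : 0 < K2 := by positivity
  have hν32 : 0 < ν ^ (3 / 2 : ℝ) := Real.rpow_pos_of_pos hν _
  obtain ⟨h0, hh00, hhK⟩ : ∃ h : ℝ, 0 < h ∧ K2 * Real.sqrt h ≤ ε * ν ^ (3 / 2 : ℝ) := by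
    refine ⟨((ε * ν ^ (3 / 2 : ℝ)) / K2) ^ 2, by positivity, ?_⟩
    rw [Real.sqrt_sq (by positivity)]
    field_simp
    exact le_rfl
  set h : ℝ := min h0 (b - a) with hh
  have hh0 : 0 < h := lt_min hh00 (by linarith)
  have hhh0 : h ≤ h0 := min_le_left _ _
  have hhb : h ≤ b - a := min_le_right _ _
  set A : ℝ := Real.exp (2 * C1 * T + 1) with hA
  have hA0 : 0 < A := Real.exp_pos _
  set B : ℝ := 1 + 4 * C1 * T * A with hB
  have hB0 : 0 < B := by positivity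
  set δ : ℝ := Real.sqrt (ν * h / (2 * B)) with hδ
  have hδ0 : 0 < δ := Real.sqrt_pos.2 (by positivity)
  refine ⟨δ, Real.sqrt (C7 * K2), hδ0, Real.sqrt_nonneg _, ?_⟩
  intro u u1 z z1 Su hua t ht
  set L : ℝ := T - a with hL
  have hL0 : 0 < L := by rw [hL]; linarith
  have Ssu := str_sh Fr hFc Su ha haT.le
  have Ssv := str_sh Fr hFc Sv ha haT.le
  have hFs := fh_sh hF ha haT.le
  have hd := diff_est Fr hν hL0 hFs Ssu Ssv (Zv := Zv) (C1 := C1)
    (fun s hs => hZv (a + s) ⟨by linarith [hs.1], by linarith [hs.2]⟩) hC10 hC1 hδ0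
    (by simpa using hua)
  have hAL : Real.exp (2 * C1 * L + 1) ≤ A := by
    rw [hA]
    have : 2 * C1 * L ≤ 2 * C1 * T := by
      have : L ≤ T := by linarith
      gcongr
    exact Real.exp_le_exp.2 (by linarith)
  have hI : ∫ s in (0 : ℝ)..L, ‖z (a + s) - y (a + s)‖ ^ 2 ≤ h / 2 := by
    have h1 := hd.2
    have h2 : δ ^ 2 = ν * h / (2 * B) := Real.sq_sqrt (by positivity)
    have h3 : 1 + 4 * C1 * L * Real.exp (2 * C1 * L + 1) ≤ B := by
      rw [hB]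
      have : L ≤ T := by linarith
      gcongr
    have h4 : ν * (∫ s in (0 : ℝ)..L, ‖z (a + s) - y (a + s)‖ ^ 2) ≤ ν * (h / 2) := by
      calc _ ≤ δ ^ 2 * (1 + 4 * C1 * L * Real.exp (2 * C1 * L + 1)) := h1
        _ ≤ (ν * h / (2 * B)) * B := by
            rw [h2]
            gcongr
        _ = ν * (h / 2) := by field_simp
    exact le_of_mul_le_mul_left h4 hν
  have hzs : ContinuousOn (fun s => z (a + s)) (Icc 0 L) := prim_cont Ssu.z1m Ssu.pz
  have hys : ContinuousOn (fun s => y (a + s)) (Icc 0 L) := prim_cont Ssv.z1m Ssv.pz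
  have hcs : ContinuousOn (fun s => ‖z (a + s) - y (a + s)‖ ^ 2) (Icc 0 L) :=
    (hzs.sub hys).norm.pow 2
  set t' : ℝ := t - a with ht'
  have ht'1 : h ≤ t' := by
    have := ht.1
    linarith
  have ht'2 : t' ≤ L := by
    have := ht.2
    linarith
  obtain ⟨t0, ht0, hle0⟩ := good_time (a := t' - h) (b := t') (θ := 1)
    (f := fun s => ‖z (a + s) - y (a + s)‖ ^ 2) (by linarith)
    (hcs.mono (Icc_subset_Icc (by linarith) ht'2)) (by
      have e : t' - (t' - h) = h := by ring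
      rw [e]
      have h5 : ∫ s in (t' - h)..t', ‖z (a + s) - y (a + s)‖ ^ 2
          ≤ ∫ s in (0 : ℝ)..L, ‖z (a + s) - y (a + s)‖ ^ 2 :=
        intervalIntegral.integral_mono_interval (by linarith) (by linarith) ht'2
          (Eventually.of_forall fun s => by positivity) (ii_on hcs le_rfl hL0.le le_rfl)
      linarith)
  have ht00 : 0 ≤ t0 := by linarith [ht0.1]
  have hz0 : ‖z (a + t0)‖ ≤ M := by
    have h6 : ‖z (a + t0) - y (a + t0)‖ ≤ 1 := by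
      have h7 : ‖z (a + t0) - y (a + t0)‖ ^ 2 ≤ 1 ^ 2 := by
        rw [one_pow]
        exact hle0
      exact (pow_le_pow_iff_left₀ (norm_nonneg _) zero_le_one (by norm_num)).mp h7
    have h8 := hZv (a + t0) ⟨by linarith, by linarith [ht0.2]⟩
    have h9 := norm_sub_norm_le (z (a + t0)) (y (a + t0))
    linarith
  have hGL : ∫ s in (0 : ℝ)..L, ‖F1 (a + s)‖ ^ 2 ≤ G := by
    rw [intervalIntegral.integral_comp_add_left (fun s => ‖F1 s‖ ^ 2), add_zero, hG]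
    have e : a + L = T := by rw [hL]; ring
    rw [e, intervalIntegral.integral_of_le haT.le, intervalIntegral.integral_of_le hT.le]
    exact setIntegral_mono_set hF1i (Eventually.of_forall fun s => by positivity)
      (Ioc_subset_Ioc_left ha).eventuallyLE
  have htt : t' - t0 ≤ h := by linarith [ht0.1]
  have hfin := hap H K W m C ν L _ _ _ _ _ _ Φ G Fr Un hν hFs Ssu hΦ0
    (fun s hs => hΦ (a + s) ⟨by linarith [hs.1], by linarith [hs.2]⟩) hG0 hGL t0 t' ht00 ht0.2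
    ht'2 (by
      have hb1 : ‖z (a + t0)‖ ^ 2 + (Φ ^ 2 + (t' - t0) * G) / ν ^ 2 ≤ K2 := by
        rw [hK2]
        have : t' - t0 ≤ T := by linarith
        gcongr
      have hs1 : Real.sqrt (t' - t0) ≤ Real.sqrt h0 := Real.sqrt_le_sqrt (by linarith)
      calc (‖z (a + t0)‖ ^ 2 + (Φ ^ 2 + (t' - t0) * G) / ν ^ 2) * Real.sqrt (t' - t0)
          ≤ K2 * Real.sqrt h0 := by gcongr
        _ ≤ _ := hhK)
  have e2 : a + t' = t := by rw [ht']; ring
  rw [e2] at hfin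
  refine Real.le_sqrt_of_sq_le (hfin.trans ?_)
  have : t' - t0 ≤ T := by linarith
  rw [hK2]
  gcongr

/-- **Limits of strong solutions with bounded gradients are strong solutions after any positive
time.** -/
theorem lim_str (hloc : S_loc) (hc : 0 < c) (Fr : Frame W m C) (Un : Univ W m c)
    (hcomp : ∀ R : ℝ, TotallyBounded {v : H | ∃ z, (v, z) ∈ W ∧ ‖z‖ ≤ R}) (hν : 0 < ν)
    (hT : 0 < T) (hF : FH T F F1) {u u1 : ℕ → ℝ → H} {z z1 : ℕ → ℝ → K}
    (hS : ∀ n, Str W m ν T F (u n) (u1 n) (z n) (z1 n)) {Z : ℝ} (hZ0 : 0 ≤ Z)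
    (hZ : ∀ n, ∀ t ∈ Icc 0 T, ‖z n t‖ ≤ Z) {w : ℝ → H}
    (hw : ∀ t ∈ Icc 0 T, Tendsto (fun n => u n t) atTop (𝓝 (w t))) (ha : 0 < a) (haT : a < T) :
    ∃ (v v1 : ℝ → H) (y y1 : ℝ → K), Str W m ν (T - a) (fun t => F (a + t)) v v1 y y1 ∧
      ∀ t ∈ Icc 0 (T - a), v t = w (a + t) := by
  have hFc : ContinuousOn F (Icc 0 T) := prim_cont hF.memLp hF.prim
  obtain ⟨Φ, hΦ0, hΦ⟩ := bdd_on hFc
  set G : ℝ := ∫ s in (0 : ℝ)..T, ‖F1 s‖ ^ 2 with hG
  have hG0 : 0 ≤ G := intervalIntegral.integral_nonneg hT.le fun s _ => by positivity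
  obtain ⟨M, hM0, hM⟩ := unif_est hc hν hT hΦ0 hG0 hZ0
  have hest := fun n => hM H K W m C F F1 (u n) (u1 n) (z n) (z1 n) Fr Un hF hΦ le_rfl (hS n)
    (hZ n)
  have hdw : ∀ n, ∀ᵐ s ∂(volume.restrict (Ioc 0 T)), ∀ p ∈ W,
      ⟪u1 n s, p.1⟫_ℝ = ⟪F s - ν • z n s + m (u n s), p.2⟫_ℝ := fun n => by
    obtain ⟨Z', St1⟩ := toSt hF (hS n)
    exact St1.deriv_weak Fr hT
  -- a good time
  obtain ⟨s0, ⟨hs1, hs2⟩, hs0⟩ : ∃ s, ((∀ n, s * ‖u1 n s‖ ^ 2
      + ν * ∫ r in (0 : ℝ)..s, r * ‖z1 n r‖ ^ 2 ≤ M) ∧ ∀ n, ∀ p ∈ W,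
      ⟪u1 n s, p.1⟫_ℝ = ⟪F s - ν • z n s + m (u n s), p.2⟫_ℝ) ∧ s ∈ Ioo 0 a := by
    have h1 : ∀ᵐ s ∂(volume.restrict (Ioo 0 a)), (∀ n, s * ‖u1 n s‖ ^ 2
        + ν * ∫ r in (0 : ℝ)..s, r * ‖z1 n r‖ ^ 2 ≤ M) ∧ ∀ n, ∀ p ∈ W,
        ⟪u1 n s, p.1⟫_ℝ = ⟪F s - ν • z n s + m (u n s), p.2⟫_ℝ := by
      have hmu : (volume.restrict (Ioo 0 a) : Measure ℝ) ≤ volume.restrict (Ioc 0 T) :=
        Measure.restrict_mono (show Ioo 0 a ⊆ Ioc 0 T from
          fun s hs => ⟨hs.1, hs.2.le.trans haT.le⟩) le_rfl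
      filter_upwards [ae_all_iff.2 fun n => ae_mono hmu (hest n),
        ae_all_iff.2 fun n => ae_mono hmu (hdw n)] with s k1 k2
      exact ⟨k1, k2⟩
    have hne : (ae (volume.restrict (Ioo 0 a) : Measure ℝ)).NeBot := by
      rw [ae_neBot, Ne, Measure.restrict_eq_zero, Real.volume_Ioo]
      simp [ha]
    obtain ⟨s, h2, h3⟩ := (h1.and (ae_restrict_mem measurableSet_Ioo)).exists
    exact ⟨s, h2, h3⟩
  have hs0T : s0 < T := hs0.2.trans haT
  have hs0I : s0 ∈ Icc 0 T := ⟨hs0.1.le, hs0T.le⟩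
  have hU := Nat.hyperfilter_le_atTop
  -- the bound of the time derivatives
  have hR : ∀ n, ‖u1 n s0‖ ≤ Real.sqrt (M / s0) := by
    intro n
    refine Real.le_sqrt_of_sq_le ?_
    rw [le_div_iff₀ hs0.1]
    have h1 := hs1 n
    have h2 : 0 ≤ ν * ∫ r in (0 : ℝ)..s0, r * ‖z1 n r‖ ^ 2 :=
      mul_nonneg hν.le (intervalIntegral.integral_nonneg hs0.1.le fun r hr => by
        have := hr.1
        positivity)
    linarith
  obtain ⟨ζ, hζZ, hζ⟩ := exists_weak_limit (hyperfilter ℕ) (fun k => z k s0) Z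
    (Eventually.of_forall fun k => hZ k s0 hs0I)
  obtain ⟨g0, _, hg0⟩ := exists_weak_limit (hyperfilter ℕ) (fun k => u1 k s0)
    (Real.sqrt (M / s0)) (Eventually.of_forall fun k => hR k)
  have hwU : ∀ t ∈ Icc 0 T, Tendsto (fun n => u n t) (hyperfilter ℕ : Filter ℕ) (𝓝 (w t)) :=
    fun t ht => (hw t ht).mono_left hU
  have hmem : (w s0, ζ) ∈ W := mem_of_weak_limit W Fr.closedW (hyperfilter ℕ : Filter ℕ)
    (fun n => u n s0) (fun n => z n s0) (w s0) ζ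
    (Eventually.of_forall fun n => (hS n).mem s0 hs0I)
    (fun h => (hwU s0 hs0I).inner tendsto_const_nhds) hζ
  have hmc : Tendsto (fun n => m (u n s0)) (hyperfilter ℕ : Filter ℕ) (𝓝 (m (w s0))) := by
    rw [tendsto_iff_norm_sub_tendsto_zero]
    have h1 : Tendsto (fun n => C * (‖u n s0 - w s0‖ * ((Z + ‖ζ‖) ^ 3 * (Z + ‖ζ‖) ^ 4)))
        (hyperfilter ℕ : Filter ℕ) (𝓝 (C * (0 * ((Z + ‖ζ‖) ^ 3 * (Z + ‖ζ‖) ^ 4)))) :=
      ((tendsto_iff_norm_sub_tendsto_zero.mp (hwU s0 hs0I)).mul_const _).const_mul _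
    rw [zero_mul, mul_zero] at h1
    rw [Metric.tendsto_nhds]
    intro ε hε
    filter_upwards [h1.eventually (gt_mem_nhds (pow_pos hε 4))] with n hn
    rw [dist_zero_right, norm_norm]
    have h2 := Fr.lips _ ((hS n).mem s0 hs0I) _ hmem
    have h3 := hZ n s0 hs0I
    have hC := Fr.C0
    refine lt_of_pow_lt_pow_left₀ 4 hε.le (lt_of_le_of_lt h2 (lt_of_le_of_lt ?_ hn))
    simp only
    have h4 : ‖z n s0 - ζ‖ ≤ Z + ‖ζ‖ := (norm_sub_le _ _).trans (by linarith)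
    have h5 : ‖z n s0‖ + ‖ζ‖ ≤ Z + ‖ζ‖ := by linarith
    rw [mul_assoc ‖u n s0 - w s0‖]
    gcongr
  have hcompat : ∀ p ∈ W, ⟪F (s0 + 0) - ν • ζ + m (w s0), p.2⟫_ℝ = ⟪g0, p.1⟫_ℝ := by
    intro p hp
    rw [add_zero]
    have h1 : Tendsto (fun n => ⟪F s0 - ν • z n s0 + m (u n s0), p.2⟫_ℝ)
        (hyperfilter ℕ : Filter ℕ) (𝓝 ⟪F s0 - ν • ζ + m (w s0), p.2⟫_ℝ) := by
      simp only [inner_add_left, inner_sub_left, real_inner_smul_left]
      exact (tendsto_const_nhds.sub ((hζ p.2).const_mul ν)).add (hmc.inner tendsto_const_nhds)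
    refine tendsto_nhds_unique h1 ((hg0 p.1).congr fun n => ?_)
    exact hs2 n p hp
  -- local existence
  set L : ℝ := T - s0 with hL
  have hL0 : 0 < L := by rw [hL]; linarith
  have hFs := fh_sh hF hs0.1.le hs0T.le
  obtain ⟨τ, v, v1, y, y1, hτ, hτL, Sv, hv0, hend⟩ := hloc H K W m C ν L _ _ (w s0) g0 ζ (Z + 1)
    Fr hcomp hν hL0 hFs hmem hcompat (by linarith)
  -- the solution is the limit
  obtain ⟨C1, hC10, hC1⟩ := m_young' Un (Z := Z) hZ0 (η := ν / 2) (by positivity)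
  have hvw : ∀ t ∈ Icc 0 τ, v t = w (s0 + t) := by
    intro t ht
    have htT : s0 + t ∈ Icc 0 T := ⟨by linarith [ht.1, hs0.1], by linarith [ht.2]⟩
    have hδ : Tendsto (fun n : ℕ => ‖w s0 - u n s0‖ + 1 / ((n : ℝ) + 1)) atTop (𝓝 0) := by
      have h1 : Tendsto (fun n => ‖w s0 - u n s0‖) atTop (𝓝 0) := by
        have := tendsto_iff_norm_sub_tendsto_zero.mp (hw s0 hs0I)
        refine this.congr fun n => norm_sub_rev _ _
      have h2 := h1.add (tendsto_one_div_add_atTop_nhds_zero_nat (𝕜 := ℝ))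
      rwa [add_zero] at h2
    have hb : ∀ n : ℕ, ‖v t - u n (s0 + t)‖ ^ 2
        ≤ 2 * (‖w s0 - u n s0‖ + 1 / ((n : ℝ) + 1)) ^ 2 * Real.exp (2 * C1 * τ + 1) := by
      intro n
      have Ssn := (str_sh Fr hFc (hS n) hs0.1.le hs0T.le).mono hτL
      exact (diff_est Fr hν hτ (fh_mono hFs hτL) Sv Ssn (Zv := Z) (C1 := C1)
        (fun s hs => hZ n (s0 + s) ⟨by linarith [hs.1, hs0.1], by linarith [hs.2]⟩) hC10 hC1
        (δ := ‖w s0 - u n s0‖ + 1 / ((n : ℝ) + 1)) (by positivity) (by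
          rw [hv0, add_zero]
          have : 0 ≤ 1 / ((n : ℝ) + 1) := by positivity
          linarith)).1 t ht
    have h2 : Tendsto (fun n => ‖v t - u n (s0 + t)‖ ^ 2) atTop (𝓝 0) := by
      have h3 : Tendsto (fun n : ℕ => 2 * (‖w s0 - u n s0‖ + 1 / ((n : ℝ) + 1)) ^ 2
          * Real.exp (2 * C1 * τ + 1)) atTop (𝓝 0) := by
        have := ((hδ.pow 2).const_mul 2).mul_const (Real.exp (2 * C1 * τ + 1))
        simpa using this
      exact squeeze_zero (fun n => by positivity) hb h3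
    have h3 : Tendsto (fun n => ‖v t - u n (s0 + t)‖ ^ 2) atTop
        (𝓝 (‖v t - w (s0 + t)‖ ^ 2)) := ((tendsto_const_nhds.sub (hw _ htT)).norm).pow 2
    have h4 := tendsto_nhds_unique h3 h2
    have h5 : ‖v t - w (s0 + t)‖ = 0 := by simpa using h4
    exact sub_eq_zero.mp (norm_eq_zero.mp h5)
  have hyτ : ‖y τ‖ ≤ Z := by
    have htT : s0 + τ ∈ Icc 0 T := ⟨by linarith [hs0.1], by linarith⟩
    obtain ⟨ζ', hζZ', hζ'⟩ := exists_weak_limit (hyperfilter ℕ) (fun k => z k (s0 + τ)) Z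
      (Eventually.of_forall fun k => hZ k _ htT)
    have hmem' : (w (s0 + τ), ζ') ∈ W := mem_of_weak_limit W Fr.closedW
      (hyperfilter ℕ : Filter ℕ) (fun n => u n (s0 + τ)) (fun n => z n (s0 + τ)) (w (s0 + τ)) ζ'
      (Eventually.of_forall fun n => (hS n).mem _ htT)
      (fun h => (hwU _ htT).inner tendsto_const_nhds) hζ'
    have h1 := Sv.mem τ ⟨hτ.le, le_rfl⟩
    rw [hvw τ ⟨hτ.le, le_rfl⟩] at h1
    rw [grad_unique Fr h1 hmem']
    exact hζZ'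
  have hτe : τ = L := by
    rcases hend with h | h
    · exact h
    · linarith
  rw [hτe] at Sv hvw
  have hFsc : ContinuousOn (fun t => F (s0 + t)) (Icc 0 L) := prim_cont hFs.memLp hFs.prim
  have hb0 : 0 ≤ a - s0 := by linarith [hs0.2]
  have Sf := str_sh Fr hFsc Sv hb0 (by linarith : a - s0 ≤ L)
  have e1 : L - (a - s0) = T - a := by rw [hL]; ring
  have e2 : (fun t => F (s0 + (a - s0 + t))) = fun t => F (a + t) := by
    funext t
    congr 1
    ring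
  rw [e1, e2] at Sf
  refine ⟨_, _, _, _, Sf, fun t ht => ?_⟩
  rw [hvw (a - s0 + t) ⟨by linarith [ht.1], by linarith [ht.2]⟩]
  congr 1
  ring

end Pool.Agent.J4H18.DN
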