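import Pool.Agent.J4H18.DN.J4
import Pool.Agent.J4H18.DN.J5

/-!
The steps of the iteration up to a horizon, and the sequence of solutions.
-/

set_option autoImplicit false
set_option linter.unusedSectionVars false

open MeasureTheory Set Filter Topology
open scoped InnerProductSpace ENNReal ContDiff NNReal

namespace Pool.Agent.J4H18.DN

open H772R2.NS
open Pool.Agent.W795.TQ
open H772R2.NSR (Frame prim_cont exists_frame rellich_W exists_poinc)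
open Pool.Agent.Y303.LV (cl clj clj_coe)
open Pool.Agent.Y303.NF (glue_all str_unique)

variable {Ω : Set E3} {ν T : ℝ} {F F1 : ℝ → L2M Ω} {v0 : E3 → E3} {v : ℝ → L2V Ω}
  {f : L2V Ω} {U : L2M Ω} {δ δ' η : ℝ} {Th : ℝ≥0∞} {f0 : L2V Ω}

/-- the force, up to the horizon -/
structure FHor (Ω : Set E3) (Th : ℝ≥0∞) (F F1 : ℝ → L2M Ω) (f0 : L2V Ω) : Prop where
  fh : ∀ t : ℝ, 0 < t → ENNReal.ofReal t ≤ Th → FH t F F1
  m2 : MemLp F 2 (volume.restrict {t : ℝ | 0 < t ∧ ENNReal.ofReal t ≤ Th})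
  m2' : MemLp F1 2 (volume.restrict {t : ℝ | 0 < t ∧ ENNReal.ofReal t ≤ Th})
  f0 : ∀ p ∈ graphW Ω, ⟪F 0, p.2⟫_ℝ = ⟪f0, p.1⟫_ℝ

theorem hor_set : {t : ℝ | 0 < t ∧ ENNReal.ofReal t ≤ (⊤ : ℝ≥0∞)} = Ioi 0 := by
  ext t
  simp

theorem hor_fin (hTh : 0 < Th) (h : Th ≠ ⊤) : 0 < Th.toReal ∧ ENNReal.ofReal Th.toReal = Th ∧
    ∀ t : ℝ, ENNReal.ofReal t ≤ Th → t ≤ Th.toReal := by
  have h1 : 0 < Th.toReal := ENNReal.toReal_pos hTh.ne' h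
  have h2 : ENNReal.ofReal Th.toReal = Th := ENNReal.ofReal_toReal h
  refine ⟨h1, h2, fun t ht => ?_⟩
  rw [← h2] at ht
  exact (ENNReal.ofReal_le_ofReal_iff h1.le).1 ht

/-- **The step of the iteration.** -/
theorem stepH (hloc : S_loc) (hun : S_univ) (huni : S_uni) (hode : S_ode) (he1 : S_est1)
    (he2 : S_est2) (hΩ : IsOpen Ω) (hb : Bornology.IsBounded Ω) (hν : 0 < ν) (hTh : 0 < Th)
    (hF : FHor Ω Th F F1 f0) (S : SolH Ω ν Th F v0 v) (hN : Nr Ω f U δ (cl Ω v0)) {ε : ℝ}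
    (hε : 0 < ε) :
    ∃ (w0 : E3 → E3) (u : ℝ → L2V Ω), SolH Ω ν Th F w0 u ∧
      (∀ t, ε ≤ t → ENNReal.ofReal t ≤ Th → ‖u t - v t‖ ≤ ε) ∧ Nr Ω f U ε (cl Ω w0) ∧
      ∀ t, 0 ≤ t → ENNReal.ofReal t ≤ Th → ‖u t - v t‖ ≤ ε ∨ Nr Ω f U (δ + ε) (u t) := by
  rcases eq_or_ne Th ⊤ with hTt | hTt
  · subst hTt
    have h1 := hF.m2
    have h2 := hF.m2'
    rw [hor_set] at h1 h2
    obtain ⟨α, T, hα, hαε, hT, hεT, hext⟩ := ext_inf hloc hun huni hode he1 he2 hΩ hb hν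
      (fun t ht => hF.fh t ht le_top) h1 h2 (v := v) (fun t ht => S.str t ht le_top) hε
    have ST := S.toT hΩ hb hF.f0 hT le_top
    obtain ⟨w0, u, S', a1, a2, a3⟩ := stepT hloc hun hΩ hb hν hT (hF.fh T hT le_top) ST f U hN hα
    obtain ⟨tw, ⟨u1, z, z1, g0, Su, hg0⟩, hu0⟩ := S'
    obtain ⟨w, hw, hwu, hwv⟩ := hext u u1 z z1 g0 Su hg0 a1
    refine ⟨w0, w, ⟨tw, ?_, fun t ht _ => ⟨_, _, _, hw t ht⟩⟩, fun t ht _ => hwv t ht,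
      a2.mono hαε, fun t ht _ => ?_⟩
    · rw [← hwu 0 ⟨le_rfl, hT.le⟩]
      exact hu0
    · rcases le_total t T with h | h
      · rw [← hwu t ⟨ht, h⟩]
        rcases a3 t ⟨ht, h⟩ with k | k
        · exact Or.inl (k.trans hαε)
        · exact Or.inr (k.mono (by linarith))
      · exact Or.inl (hwv t (hεT.trans h))
  · obtain ⟨hT0, hTe, hle⟩ := hor_fin hTh hTt
    have ST := S.toT hΩ hb hF.f0 hT0 hTe.le
    obtain ⟨w0, u, S', a1, a2, a3⟩ := stepT hloc hun hΩ hb hν hT0 (hF.fh _ hT0 hTe.le) ST f U hN hε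
    obtain ⟨tw, ⟨u1, z, z1, g0, Su, hg0⟩, hu0⟩ := S'
    exact ⟨w0, u, ⟨tw, hu0, fun t ht ht' => ⟨_, _, _, Su.mono (hle t ht')⟩⟩,
      fun t ht ht' => a1 t ⟨ht, hle t ht'⟩, a2, fun t ht ht' => a3 t ⟨ht, hle t ht'⟩⟩

/-- **The first step.** -/
theorem stepF (hloc : S_loc) (hun : S_univ) (huni : S_uni) (hode : S_ode) (he1 : S_est1)
    (he2 : S_est2) (hΩ : IsOpen Ω) (hb : Bornology.IsBounded Ω) (hν : 0 < ν) (hTh : 0 < Th)
    (hF : FHor Ω Th F F1 f0) (hv : ∀ t : ℝ, 0 < t → ENNReal.ofReal t ≤ Th →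
      ∃ (v1 : ℝ → L2V Ω) (y y1 : ℝ → L2M Ω),
        Str (graphW Ω) (tensL (Ω := Ω)) ν t F v v1 y y1) (f : L2V Ω) (U : L2M Ω) {ε : ℝ}
    (hε : 0 < ε) :
    ∃ (w0 : E3 → E3) (u : ℝ → L2V Ω), SolH Ω ν Th F w0 u ∧
      (∀ t, ε ≤ t → ENNReal.ofReal t ≤ Th → ‖u t - v t‖ ≤ ε) ∧ Nr Ω f U ε (cl Ω w0) := by
  rcases eq_or_ne Th ⊤ with hTt | hTt
  · subst hTt
    have h1 := hF.m2
    have h2 := hF.m2'
    rw [hor_set] at h1 h2
    obtain ⟨w0, e, u, hw0, hu0, hS, te, a1, a2, a3, a4⟩ := density_B2 (θ := 1) hloc hun huni hode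
      he1 he2 hΩ hb hν (fun t ht => hF.fh t ht le_top) h1 h2 hF.f0 one_pos le_rfl
      (v := v) (fun t ht => hv t ht le_top) f U hε
    exact ⟨w0, u, ⟨hw0, hu0, fun t ht _ => ⟨_, _, _, hS t ht⟩⟩, fun t ht _ => a1 t ht,
      ⟨e, te, a2, a4⟩⟩
  · obtain ⟨hT0, hTe, hle⟩ := hor_fin hTh hTt
    obtain ⟨v1, y, y1, Sv⟩ := hv _ hT0 hTe.le
    obtain ⟨w0, e, u, ⟨hw0, ⟨u1, z, z1, g0, Su, _⟩, hu0⟩, te, a1, a2, a3, a4⟩ :=
      density_A2 (θ := 1) hloc hun hode he1 he2 hΩ hb hν hT0 (hF.fh _ hT0 hTe.le) hF.f0 one_pos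
        le_rfl Sv f U hε
    exact ⟨w0, u, ⟨hw0, hu0, fun t ht ht' => ⟨_, _, _, Su.mono (hle t ht')⟩⟩,
      fun t ht ht' => a1 t ⟨ht, hle t ht'⟩, ⟨e, te, a2, a4⟩⟩

/-- the times of the iteration -/
theorem times (hTh : 0 < Th) : ∃ tn : ℕ → ℝ, (∀ n, tn 0 ≤ tn n) ∧ 0 < tn 0 ∧ tn 0 ≤ 1 ∧
    (∀ n, ENNReal.ofReal (tn n) ≤ Th) ∧
    ∀ t : ℝ, ENNReal.ofReal t ≤ Th → ∃ N : ℕ, ∀ n, N ≤ n → t ≤ tn n := by
  rcases eq_or_ne Th ⊤ with hTt | hTt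
  · subst hTt
    refine ⟨fun n => n + 1, fun n => ?_, by norm_num, by norm_num, fun n => le_top, fun t _ => ?_⟩
    · have : (0 : ℝ) ≤ n := n.cast_nonneg
      push_cast
      linarith
    · obtain ⟨N, hN⟩ := exists_nat_ge t
      refine ⟨N, fun n hn => ?_⟩
      have : (N : ℝ) ≤ n := by exact_mod_cast hn
      linarith
  · obtain ⟨hT0, hTe, hle⟩ := hor_fin hTh hTt
    refine ⟨fun n => min Th.toReal (n + 1), fun n => ?_, ?_, ?_, fun n => ?_, fun t ht => ?_⟩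
    · have : (0 : ℝ) ≤ n := n.cast_nonneg
      push_cast
      exact min_le_min_left _ (by linarith)
    · exact lt_min hT0 (by norm_num)
    · exact (min_le_right _ _).trans (by norm_num)
    · refine le_trans ?_ hTe.le
      exact ENNReal.ofReal_le_ofReal (min_le_left _ _)
    · obtain ⟨N, hN⟩ := exists_nat_ge t
      refine ⟨N, fun n hn => ?_⟩
      have : (N : ℝ) ≤ n := by exact_mod_cast hn
      exact le_min (hle t ht) (by linarith)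

/-- a stage of the iteration -/
structure Stg (Ω : Set E3) where
  w : E3 → E3
  u : ℝ → L2V Ω
  r : ℝ

/-- what is true at each stage -/
structure Good (ν : ℝ) (Th : ℝ≥0∞) (F : ℝ → L2M Ω) (f : L2V Ω) (U : L2M Ω) (s : Stg Ω) : Prop where
  sol : SolH Ω ν Th F s.w s.u
  nr : Nr Ω f U s.r (cl Ω s.w)
  pos : 0 < s.r

/-- the relation of a stage with the next one -/
structure Next (ν : ℝ) (Th : ℝ≥0∞) (F : ℝ → L2M Ω) (f : L2V Ω) (U : L2M Ω) (a b t : ℝ)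
    (s s' : Stg Ω) : Prop where
  half : s'.r ≤ s.r / 2
  le : s'.r ≤ a
  near : ∀ t, s'.r ≤ t → ENNReal.ofReal t ≤ Th → ‖s'.u t - s.u t‖ ≤ s'.r
  path : ∀ t, 0 ≤ t → ENNReal.ofReal t ≤ Th →
    ‖s'.u t - s.u t‖ ≤ s'.r ∨ Nr Ω f U (s.r + s'.r) (s'.u t)
  bd : ∃ Z : ℝ, 0 ≤ Z ∧ ∀ (u u1 : ℝ → L2V Ω) (z z1 : ℝ → L2M Ω),
    Str (graphW Ω) (tensL (Ω := Ω)) ν t F u u1 z z1 → ‖u a - s.u a‖ ≤ 2 * s'.r →
    ∀ q ∈ Icc b t, ‖z q‖ ≤ Z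

theorem exists_next (hloc : S_loc) (hun : S_univ) (huni : S_uni) (hode : S_ode) (he1 : S_est1)
    (he2 : S_est2) (hΩ : IsOpen Ω) (hb : Bornology.IsBounded Ω) (hν : 0 < ν) (hTh : 0 < Th)
    (hF : FHor Ω Th F F1 f0) {a b t : ℝ} (ha : 0 < a) (hab : a < b) (hbt : b ≤ t)
    (htT : ENNReal.ofReal t ≤ Th) (s : Stg Ω) (hs : Good ν Th F f U s) :
    ∃ s' : Stg Ω, Good ν Th F f U s' ∧ Next ν Th F f U a b t s s' := by
  have ht : 0 < t := ha.trans (hab.trans_le hbt)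
  have hun' := hun
  obtain ⟨c, hc, hU⟩ := hun
  obtain ⟨ε0, C7, hε0, hC7, hap⟩ := exists_apz hode he1 he2 hc
  obtain ⟨C, Fr⟩ := exists_frame hΩ hb
  obtain ⟨v1, y, y1, Sv⟩ := hs.sol.str t ht htT
  obtain ⟨ρ, Z, hρ, hZ, hbd⟩ := vbd hε0 hC7 hap Fr (hU Ω hΩ) hν (hF.fh t ht htT) Sv ha.le hab hbt
  have hr := hs.pos
  set ε : ℝ := min (min (s.r / 2) a) (ρ / 2) with hε
  have hε0 : 0 < ε := lt_min (lt_min (by positivity) ha) (by positivity)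
  obtain ⟨w, u, S', a1, a2, a3⟩ := stepH hloc hun' huni hode he1 he2 hΩ hb hν hTh hF hs.sol hs.nr
    hε0
  refine ⟨⟨w, u, ε⟩, ⟨S', a2, hε0⟩, ⟨(min_le_left _ _).trans (min_le_left _ _),
    (min_le_left _ _).trans (min_le_right _ _), a1, a3, Z, hZ, fun u u1 z z1 Su hu q hq => ?_⟩⟩
  refine hbd u u1 z z1 Su (hu.trans ?_) q hq
  have : ε ≤ ρ / 2 := min_le_right _ _
  simp only
  linarith

end Pool.Agent.J4H18.DN
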