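import Pool.Agent.J4H18.DN.J6

/-!
The limit of the iteration: solutions which are regular for positive times.
-/

set_option autoImplicit false
set_option linter.unusedSectionVars false

open MeasureTheory Set Filter Topology
open scoped InnerProductSpace ENNReal ContDiff NNReal

namespace Pool.Agent.J4H18.DN

open H772R2.NS
open Pool.Agent.W795.TQ
open H772R2.NSR (Frame prim_cont exists_frame rellich_W exists_poinc)
open Pool.Agent.Y303.LV (cl clj clj_coe)
open Pool.Agent.Y303.NF (glue_all str_unique)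

variable {Ω : Set E3} {ν T : ℝ} {F F1 : ℝ → L2M Ω} {v0 : E3 → E3} {v : ℝ → L2V Ω}
  {f : L2V Ω} {U : L2M Ω} {δ δ' η : ℝ} {Th : ℝ≥0∞} {f0 : L2V Ω}

/-- **The solutions which are regular for positive times, with arbitrary initial values.** -/
theorem thmW (hloc : S_loc) (hun : S_univ) (huni : S_uni) (hode : S_ode) (he1 : S_est1)
    (he2 : S_est2) (hΩ : IsOpen Ω) (hb : Bornology.IsBounded Ω) (hν : 0 < ν) (hTh : 0 < Th)
    (hF : FHor Ω Th F F1 f0) (hv : ∀ t : ℝ, 0 < t → ENNReal.ofReal t ≤ Th →
      ∃ (v1 : ℝ → L2V Ω) (y y1 : ℝ → L2M Ω),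
        Str (graphW Ω) (tensL (Ω := Ω)) ν t F v v1 y y1) (f : L2V Ω) (U : L2M Ω) {ε : ℝ}
    (hε : 0 < ε) :
    ∃ u : ℝ → L2V Ω, (∀ s t : ℝ, 0 < s → s < t → ENNReal.ofReal t ≤ Th →
        ∃ (w w1 : ℝ → L2V Ω) (y y1 : ℝ → L2M Ω),
          Str (graphW Ω) (tensL (Ω := Ω)) ν (t - s) (fun r => F (s + r)) w w1 y y1 ∧
            ∀ r ∈ Icc 0 (t - s), w r = u (s + r)) ∧
      (∀ t, ε ≤ t → ENNReal.ofReal t ≤ Th → ‖u t - v t‖ ≤ ε) ∧
      ∀ δ, 0 < δ → ∃ τ, 0 < τ ∧ ∀ t, 0 < t → t ≤ τ → ENNReal.ofReal t ≤ Th →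
        Nr Ω f U δ (u t) := by
  obtain ⟨tn, t1, t2, t3, t4, t5⟩ := times hTh
  have hm : MeasurableSet Ω := hΩ.measurableSet
  obtain ⟨C, Fr⟩ := exists_frame hΩ hb
  have hC := Fr.C0
  -- the first stage
  obtain ⟨w0, u0, S0, a0, n0⟩ := stepF hloc hun huni hode he1 he2 hΩ hb hν hTh hF hv f U
    (ε := ε / 2) (by positivity)
  set a : ℕ → ℝ := fun n => tn 0 / 2 ^ (n + 2) with ha
  set b : ℕ → ℝ := fun n => tn 0 / 2 ^ (n + 1) with hbd
  have ha0 : ∀ n, 0 < a n := fun n => by positivity
  have hab : ∀ n, a n < b n := fun n => by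
    have : b n = 2 * a n := by
      simp only [ha, hbd]
      field_simp
      ring
    rw [this]
    linarith [ha0 n]
  have hbt : ∀ n, b n ≤ tn n := fun n => by
    refine le_trans ?_ (t1 n)
    simp only [hbd]
    refine div_le_self t2.le ?_
    exact one_le_pow₀ (by norm_num)
  -- the sequence of the stages
  have hstep := fun (n : ℕ) (s : {s : Stg Ω // Good ν Th F f U s}) =>
    exists_next hloc hun huni hode he1 he2 hΩ hb hν hTh hF (ha0 n) (hab n) (hbt n) (t4 n) s.1 s.2
  choose nx hnx1 hnx2 using hstep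
  set s0 : {s : Stg Ω // Good ν Th F f U s} := ⟨⟨w0, u0, ε / 2⟩, ⟨S0, n0, by positivity⟩⟩ with hs0
  set σ : ℕ → {s : Stg Ω // Good ν Th F f U s} := fun n =>
    Nat.rec s0 (fun n s => ⟨nx n s, hnx1 n s⟩) n with hσ
  have hNext : ∀ n, Next ν Th F f U (a n) (b n) (tn n) (σ n).1 (σ (n + 1)).1 :=
    fun n => hnx2 n (σ n)
  set r : ℕ → ℝ := fun n => (σ n).1.r with hr
  set u : ℕ → ℝ → L2V Ω := fun n => (σ n).1.u with hu
  have hr0 : ∀ n, 0 < r n := fun n => (σ n).2.pos
  have hhalf : ∀ n, r (n + 1) ≤ r n / 2 := fun n => (hNext n).half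
  have hpow : ∀ n, r n ≤ r 0 / 2 ^ n := by
    intro n
    induction n with
    | zero => simp
    | succ n ih =>
      refine (hhalf n).trans ?_
      rw [pow_succ, ← div_div]
      linarith
  have hr00 : r 0 = ε / 2 := rfl
  have hanti : Antitone r := antitone_nat_of_succ_le fun n => by
    have := hhalf n
    have := hr0 n
    linarith
  have hrlim : Tendsto r atTop (𝓝 0) := by
    refine squeeze_zero (fun n => (hr0 n).le) hpow ?_
    have h1 := (tendsto_pow_atTop_nhds_zero_of_lt_one (r := (1 / 2 : ℝ)) (by norm_num)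
      (by norm_num)).const_mul (r 0)
    rw [mul_zero] at h1
    refine h1.congr fun n => ?_
    rw [one_div, inv_pow]
    rfl
  -- closeness of the stages
  have hclose : ∀ n k, n ≤ k → ∀ t, r (n + 1) ≤ t → ENNReal.ofReal t ≤ Th →
      ‖u k t - u n t‖ ≤ 2 * r (n + 1) - 2 * r (k + 1) := by
    intro n k hnk
    induction k, hnk using Nat.le_induction with
    | base => intro t _ _; simp
    | succ k hk ih =>
      intro t ht ht'
      have h1 := ih t ht ht'
      have h2 := (hNext k).near t ((hanti (by omega : n + 1 ≤ k + 1)).trans ht) ht'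
      have h3 : u (k + 1) t - u n t = (u (k + 1) t - u k t) + (u k t - u n t) := by abel
      have h4 := hhalf (k + 1)
      rw [h3]
      refine (norm_add_le _ _).trans ?_
      have h5 : ‖u (k + 1) t - u k t‖ ≤ r (k + 1) := h2
      linarith
  have hclose' : ∀ n k, n ≤ k → ∀ t, r (n + 1) ≤ t → ENNReal.ofReal t ≤ Th →
      ‖u k t - u n t‖ ≤ 2 * r (n + 1) := fun n k hnk t ht ht' => by
    have := hclose n k hnk t ht ht'
    have := hr0 (k + 1)
    linarith
  have hN : ∀ t : ℝ, 0 < t → ∃ N, ∀ n, N ≤ n → r (n + 1) ≤ t := by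
    intro t ht
    have h1 := (hrlim.comp (tendsto_add_atTop_nat 1)).eventually (gt_mem_nhds ht)
    obtain ⟨N, hN⟩ := eventually_atTop.1 h1
    exact ⟨N, fun n hn => (hN n hn).le⟩
  -- the limit
  set w : ℝ → L2V Ω := fun t => limUnder atTop fun n => u n t with hw
  have hlim : ∀ t : ℝ, 0 < t → ENNReal.ofReal t ≤ Th → Tendsto (fun n => u n t) atTop (𝓝 (w t)) := by
    intro t ht ht'
    have hc : CauchySeq fun n => u n t := by
      rw [Metric.cauchySeq_iff']
      intro ε' hε'
      obtain ⟨N, hN1⟩ := hN (min t (ε' / 3)) (lt_min ht (by positivity))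
      refine ⟨N, fun n hn => ?_⟩
      have h1 := hN1 N le_rfl
      have h2 := hclose' N n hn t (h1.trans (min_le_left _ _)) ht'
      have h3 : r (N + 1) ≤ ε' / 3 := h1.trans (min_le_right _ _)
      rw [dist_eq_norm]
      linarith
    exact hc.tendsto_limUnder
  have hwn : ∀ n t, 0 < t → r (n + 1) ≤ t → ENNReal.ofReal t ≤ Th →
      ‖w t - u n t‖ ≤ 2 * r (n + 1) := by
    intro n t ht h1 ht'
    have h2 : Tendsto (fun k => ‖u k t - u n t‖) atTop (𝓝 ‖w t - u n t‖) :=
      ((hlim t ht ht').sub_const _).norm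
    refine le_of_tendsto h2 ?_
    filter_upwards [eventually_ge_atTop n] with k hk
    exact hclose' n k hk t h1 ht'
  refine ⟨w, ?_, ?_, ?_⟩
  · -- regularity
    intro s t hs hst ht
    have ht0 : 0 < t := hs.trans hst
    obtain ⟨N1, hN1⟩ := t5 t ht
    have hblim : Tendsto b atTop (𝓝 0) := by
      have h1 := (tendsto_pow_atTop_nhds_zero_of_lt_one (r := (1 / 2 : ℝ)) (by norm_num)
        (by norm_num)).const_mul (tn 0)
      rw [mul_zero] at h1
      have h2 := h1.comp (tendsto_add_atTop_nat 1)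
      refine h2.congr fun n => ?_
      simp only [Function.comp, hbd]
      rw [one_div, inv_pow]
      rfl
    obtain ⟨N2, hN2⟩ := eventually_atTop.1
      (hblim.eventually (gt_mem_nhds (show (0 : ℝ) < s / 2 by positivity)))
    set N : ℕ := max N1 N2 with hNd
    have htN : t ≤ tn N := hN1 N (le_max_left _ _)
    have hbN : b N < s / 2 := hN2 N (le_max_right _ _)
    obtain ⟨Z, hZ0, hZ⟩ := (hNext N).bd
    have htn0 : 0 < tn N := ht0.trans_le htN
    have hFN := hF.fh (tn N) htn0 (t4 N)
    have hFc : ContinuousOn F (Icc 0 (tn N)) := prim_cont hFN.memLp hFN.prim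
    have hSk := fun k => (σ (N + k)).2.sol.str (tn N) htn0 (t4 N)
    choose k1 k2 k3 hk using hSk
    have hbk : ∀ k, ∀ q ∈ Icc (b N) (tn N), ‖k2 k q‖ ≤ Z := by
      intro k
      refine hZ _ _ _ _ (hk k) ?_
      exact hclose' N (N + k) (by omega) (a N) (hNext N).le
        ((ENNReal.ofReal_le_ofReal ((hab N).le.trans (hbt N))).trans (t4 N))
    have hs2 : 0 ≤ s / 2 := by positivity
    have hs2t : s / 2 ≤ tn N := by linarith
    have hL0 : 0 < t - s / 2 := by linarith
    have hLn : t - s / 2 ≤ tn N - s / 2 := by linarith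
    have hFs := fh_mono (fh_sh hFN hs2 hs2t) hLn
    have hSs := fun k => (str_sh Fr hFc (hk k) hs2 hs2t).mono hLn
    obtain ⟨c, hc, hU⟩ := hun
    obtain ⟨w', w1', y', y1', Sw, hww⟩ := lim_str hloc hc Fr (hU Ω hΩ) (rellich_W hΩ hb) hν hL0 hFs
      hSs hZ0 (fun k q hq => hbk k (s / 2 + q) ⟨by linarith [hq.1], by linarith [hq.2]⟩)
      (w := fun q => w (s / 2 + q))
      (fun q hq => by
        have h1 := hlim (s / 2 + q) (by linarith [hq.1, half_pos hs])
          ((ENNReal.ofReal_le_ofReal (by linarith [hq.2])).trans ht)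
        have h2 := h1.comp (tendsto_add_atTop_nat N)
        refine h2.congr fun k => ?_
        simp only [Function.comp]
        rw [Nat.add_comm k N])
      (a := s / 2) (by positivity) (by linarith)
    have e1 : t - s / 2 - s / 2 = t - s := by ring
    have e2 : (fun q => F (s / 2 + (s / 2 + q))) = fun q => F (s + q) := by
      funext q
      congr 1
      ring
    rw [e1] at Sw hww
    rw [e2] at Sw
    refine ⟨w', w1', y', y1', Sw, fun q hq => ?_⟩
    rw [hww q hq]
    congr 1
    ring
  · -- closeness to the given solution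
    intro t ht ht'
    have h1 : r 1 ≤ ε / 4 := by
      have := hhalf 0
      rw [hr00] at this
      norm_num at this
      linarith
    have h2 := hwn 0 t (hε.trans_le ht) (by
      have : r (0 + 1) = r 1 := rfl
      rw [this]
      linarith) ht'
    have h3 := a0 t (by linarith) ht'
    have h4 : w t - v t = (w t - u 0 t) + (u 0 t - v t) := by abel
    rw [h4]
    refine (norm_add_le _ _).trans ?_
    have h5 : r (0 + 1) = r 1 := rfl
    have h6 : ‖u 0 t - v t‖ ≤ ε / 2 := h3
    rw [h5] at h2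
    linarith
  · -- the initial value
    intro δ hδ
    set K : ℝ := 3 * C + 2 with hK
    have hK0 : 0 < K := by positivity
    obtain ⟨n, hn⟩ : ∃ n, K * r n ≤ δ := by
      have h1 := hrlim.const_mul K
      rw [mul_zero] at h1
      obtain ⟨n, hn⟩ := (h1.eventually (gt_mem_nhds hδ)).exists
      exact ⟨n, hn.le⟩
    -- continuity of the stage
    obtain ⟨v1, y, y1, Sn⟩ := (σ n).2.sol.str (tn 0) t2 (t4 0)
    have hcn : ContinuousOn (u n) (Icc 0 (tn 0)) := prim_cont Sn.u1m Sn.pu
    have hc0 := Metric.continuousOn_iff.1 hcn 0 ⟨le_rfl, t2.le⟩ (r n) (hr0 n)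
    obtain ⟨τ, hτ, hτ1⟩ := hc0
    have hi : u n 0 = cl Ω (σ n).1.w := (σ n).2.sol.init
    set D : ℕ → ℝ := fun k => r n + C * r n + (C + 1) * (2 * r (n + 1) - 2 * r (k + 1)) with hD
    have hDk : ∀ k, n ≤ k → r n ≤ D k := by
      intro k hk
      have h1 := hanti (by omega : n + 1 ≤ k + 1)
      have h2 := hr0 n
      have h3 : 0 ≤ (C + 1) * (2 * r (n + 1) - 2 * r (k + 1)) :=
        mul_nonneg (by linarith) (by linarith)
      have h4 : 0 ≤ C * r n := by positivity
      simp only [hD]
      linarith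
    have hDs : ∀ k, D k + (C + 1) * r (k + 1) ≤ D (k + 1) := by
      intro k
      have h1 := hhalf (k + 1)
      have h2 : D (k + 1) - D k = (C + 1) * (2 * r (k + 1) - 2 * r (k + 1 + 1)) := by
        simp only [hD]
        ring
      have h3 : (C + 1) * r (k + 1) ≤ (C + 1) * (2 * r (k + 1) - 2 * r (k + 1 + 1)) := by
        have : 0 ≤ C + 1 := by linarith
        gcongr
        linarith
      linarith
    have hQ : ∀ k, n ≤ k → ∀ t, 0 ≤ t → t < min τ (tn 0) → Nr Ω f U (D k) (u k t) := by
      intro k hk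
      induction k, hk using Nat.le_induction with
      | base =>
        intro t ht ht'
        have h1 := hτ1 t ⟨ht, (ht'.trans_le (min_le_right _ _)).le⟩ (by
          rw [Real.dist_eq, sub_zero, abs_of_nonneg ht]
          exact ht'.trans_le (min_le_left _ _))
        rw [hi, dist_eq_norm] at h1
        refine ((σ n).2.nr.pert hm Fr h1.le).mono ?_
        simp only [hD]
        have : (σ n).1.r = r n := rfl
        rw [this]
        linarith
      | succ k hk ih =>
        intro t ht ht'
        have hT' : ENNReal.ofReal t ≤ Th :=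
          (ENNReal.ofReal_le_ofReal (ht'.trans_le (min_le_right _ _)).le).trans (t4 0)
        have hDk' := hDk k hk
        have hDs' := hDs k
        have hrk := hr0 (k + 1)
        rcases (hNext k).path t ht hT' with h1 | h1
        · have h2 : ‖u (k + 1) t - u k t‖ ≤ r (k + 1) := h1
          refine ((ih t ht ht').pert hm Fr h2).mono ?_
          nlinarith
        · have h2 : Nr Ω f U (r k + r (k + 1)) (u (k + 1) t) := h1
          refine h2.mono ?_
          have h3 : r k ≤ r n := hanti hk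
          nlinarith
    refine ⟨min τ (tn 0) / 2, by positivity, fun t ht ht' hT' => ?_⟩
    have htτ : t < min τ (tn 0) := by
      have : 0 < min τ (tn 0) := lt_min hτ t2
      linarith
    obtain ⟨N, hN1⟩ := hN (min t (r n / 2)) (lt_min ht (by have := hr0 n; positivity))
    set k := max N n with hk
    have h1 := hN1 k (le_max_left _ _)
    have h2 := hwn k t ht (h1.trans (min_le_left _ _)) hT'
    have h3 : r (k + 1) ≤ r n / 2 := h1.trans (min_le_right _ _)
    refine (((hQ k (le_max_right _ _) t ht.le htτ).pert hm Fr (h2.trans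
      (by linarith : 2 * r (k + 1) ≤ r n)))).mono (le_trans ?_ hn)
    have h4 := hhalf n
    have h5 := hr0 (k + 1)
    have h6 := hr0 n
    simp only [hD, hK]
    have h7 : (C + 1) * (2 * r (n + 1) - 2 * r (k + 1)) ≤ (C + 1) * r n := by
      have : 0 ≤ C + 1 := by linarith
      gcongr
      linarith
    nlinarith

end Pool.Agent.J4H18.DN
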