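import Pool.Agent.J4H18.DN.J7
import Pool.Agent.J4H18.DN.H8

/-!
The solutions which are regular for positive times, in terms of the public definitions.
-/

set_option autoImplicit false
set_option linter.unusedSectionVars false

open MeasureTheory Set Filter Topology
open scoped InnerProductSpace ENNReal ContDiff NNReal

namespace Pool.Agent.J4H18.DN

open H772R2.NS H772R2.NS.Pub
open Pool.Agent.W795.TQ
open H772R2.NSR (Frame prim_cont exists_frame rellich_W exists_poinc pub_inner pub_inner_jac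
  pub_rhs compat_ext)
open Pool.Agent.Y303.LV (cl clj clj_coe heat heatE)

variable {Ω : Set E3} {ν : ℝ}

theorem nr_pub {x f : L2V Ω} {U : L2M Ω} {δ : ℝ} (h : Nr Ω f U (δ / 2) x) :
    ∃ e : E3 → E3, H772R2.NS.IsTest Ω e ∧
      (∀ (s : ℝ) (x : E3), 0 < s → √s * ‖(heat s e x : E3)‖ ≤ δ) ∧
      ∀ ψ : E3 → E3, H772R2.NS.IsTest Ω ψ →
        |(∫ y in (show Set R3 from Ω), ⟪L2.fn (Ω := Ω) (E := R3) x y, (ψ : R3 → R3) y⟫_ℝ)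
          - (∫ y in (show Set R3 from Ω), ⟪(e : R3 → R3) y, (ψ : R3 → R3) y⟫_ℝ)
          - ((∫ y in (show Set R3 from Ω), ⟪L2.fn (Ω := Ω) (E := R3) f y, (ψ : R3 → R3) y⟫_ℝ)
          + ∫ y in (show Set R3 from Ω), ⟪L2.fn (Ω := Ω) (E := Mat) U y, Pub.jac ψ y⟫_ℝ)|
        ≤ δ * gradNorm ψ := by
  obtain ⟨e, te, h1, h2⟩ := h
  refine ⟨e, te, fun s x hs => heat_small te h1 s x hs, fun ψ hψ => ?_⟩
  have e0 := pub_inner (Ω := Ω) x ((CK.test hψ).coe (Ω := Ω) hψ.compact)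
  have e1 := pub_phi te hψ
  have e2 := pub_inner (Ω := Ω) f ((CK.test hψ).coe (Ω := Ω) hψ.compact)
  have e3 := pub_inner_jac (Ω := Ω) U (clj_coe (Ω := Ω) hψ)
  have h3 := h2 ψ hψ
  have e5 : ⟪x - cl Ω e - f, cl Ω ψ⟫_ℝ - ⟪U, clj Ω ψ⟫_ℝ
      = ⟪x, cl Ω ψ⟫_ℝ - ⟪cl Ω e, cl Ω ψ⟫_ℝ - (⟪f, cl Ω ψ⟫_ℝ + ⟪U, clj Ω ψ⟫_ℝ) := by
    simp only [inner_sub_left]
    ring
  rw [e5] at h3
  have hδ : 0 ≤ δ := by have := h1.nonneg; linarith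
  refine le_trans (le_of_eq ?_) (h3.trans ?_)
  · exact congrArg abs (congrArg₂ (· - ·) (congrArg₂ (· - ·) e0 e1) (congrArg₂ (· + ·) e2 e3))
  · rw [gradNorm_eq ψ]
    exact mul_le_mul_of_nonneg_right (by linarith) (G1_nonneg ψ)

/-- the solutions which are regular for positive times -/
theorem pub_W (hloc : S_loc) (hun : S_univ) (huni : S_uni) (hode : S_ode) (he1 : S_est1)
    (he2 : S_est2) (hΩ : IsOpen Ω) (hb : Bornology.IsBounded Ω) (hν : 0 < ν) {T : ℝ≥0∞}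
    (hT : 0 < T) {F F' : ℝ → L2M Ω}
    (hF : ∀ t : ℝ, 0 < t → ENNReal.ofReal t ≤ T → IsH1 t F F')
    (hF2 : MemLp F 2 (volume.restrict {t : ℝ | 0 < t ∧ ENNReal.ofReal t ≤ T}))
    (hF2' : MemLp F' 2 (volume.restrict {t : ℝ | 0 < t ∧ ENNReal.ofReal t ≤ T}))
    (hf0 : ∃ h : L2V Ω, ∀ ψ : E3 → E3, H772R2.NS.IsTest Ω ψ →
      (∫ x in (show Set R3 from Ω), ⟪L2.fn (Ω := Ω) (E := Mat) (F 0) x, Pub.jac ψ x⟫_ℝ)
        = ∫ x in (show Set R3 from Ω), ⟪L2.fn (Ω := Ω) (E := R3) h x, (ψ : R3 → R3) x⟫_ℝ)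
    {v : ℝ → L2V Ω}
    (hv : ∀ t : ℝ, 0 < t → ENNReal.ofReal t ≤ T →
      ∃ v' G G', IsStrong (show Set R3 from Ω) ν t F v v' G G')
    (f : L2V Ω) (U : L2M Ω) {ε : ℝ} (hε : 0 < ε) :
    ∃ u : ℝ → L2V Ω,
      (∀ s t : ℝ, 0 < s → s < t → ENNReal.ofReal t ≤ T → ∃ (u' : ℝ → L2V Ω) (G G' : ℝ → L2M Ω),
        IsStrong (show Set R3 from Ω) ν (t - s) (fun r => F (s + r)) (fun r => u (s + r)) u' G G') ∧
      (∀ t : ℝ, ε ≤ t → ENNReal.ofReal t ≤ T → ‖u t - v t‖ ≤ ε) ∧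
      ∀ δ : ℝ, 0 < δ → ∃ τ : ℝ, 0 < τ ∧ ∀ t : ℝ, 0 < t → t ≤ τ → ENNReal.ofReal t ≤ T →
        ∃ e : E3 → E3, H772R2.NS.IsTest Ω e ∧
          (∀ (s : ℝ) (x : E3), 0 < s → √s * ‖(heat s e x : E3)‖ ≤ δ) ∧
          ∀ ψ : E3 → E3, H772R2.NS.IsTest Ω ψ →
            |(∫ y in (show Set R3 from Ω),
                ⟪L2.fn (Ω := Ω) (E := R3) (u t) y, (ψ : R3 → R3) y⟫_ℝ)
              - (∫ y in (show Set R3 from Ω), ⟪(e : R3 → R3) y, (ψ : R3 → R3) y⟫_ℝ)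
              - ((∫ y in (show Set R3 from Ω),
                ⟪L2.fn (Ω := Ω) (E := R3) f y, (ψ : R3 → R3) y⟫_ℝ)
              + ∫ y in (show Set R3 from Ω), ⟪L2.fn (Ω := Ω) (E := Mat) U y, Pub.jac ψ y⟫_ℝ)|
            ≤ δ * gradNorm ψ := by
  obtain ⟨C, Fr⟩ := exists_frame hΩ hb
  obtain ⟨h, hh⟩ := hf0_of hf0
  have hstr : ∀ t : ℝ, 0 < t → ENNReal.ofReal t ≤ T → ∃ (v1 : ℝ → L2V Ω) (y y1 : ℝ → L2M Ω),
      Str (graphW Ω) (tensL (Ω := Ω)) ν t F v v1 y y1 := by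
    intro t ht ht'
    obtain ⟨v', G, G', S⟩ := hv t ht ht'
    exact ⟨v', G, G', str_of_strong hΩ ht (prim_cont (hF t ht ht').memLp (hF t ht ht').prim) Fr S⟩
  have hFH : ∀ t : ℝ, 0 < t → ENNReal.ofReal t ≤ T → FH t F F' := fun t ht ht' =>
    ⟨(hF t ht ht').memLp, (hF t ht ht').prim⟩
  obtain ⟨u, h1, h2, h3⟩ := thmW hloc hun huni hode he1 he2 hΩ hb hν hT
    ⟨hFH, hF2, hF2', hh⟩ hstr f U hε
  refine ⟨u, fun s t hs hst ht => ?_, h2, fun δ hδ => ?_⟩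
  · obtain ⟨w, w1, y, y1, S, hw⟩ := h1 s t hs hst ht
    exact ⟨w1, y, y1, strong_of_str hΩ (by linarith) S fun q hq => (hw q hq).symm⟩
  · obtain ⟨τ, hτ, h4⟩ := h3 (δ / 2) (by positivity)
    exact ⟨τ, hτ, fun t ht ht' hT' => nr_pub (h4 t ht ht' hT')⟩

end Pool.Agent.J4H18.DN
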