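import Pool.Agent.J4H18.DN.J4

/-!
The dual norm: the Riesz map, and fields given by potentials.
-/

set_option autoImplicit false
set_option linter.unusedSectionVars false

open MeasureTheory Set Filter Topology
open scoped InnerProductSpace ENNReal ContDiff NNReal

namespace Pool.Agent.J4H18.DN

section abs

variable {H K : Type*} [NormedAddCommGroup H] [InnerProductSpace ℝ H] [CompleteSpace H]
  [NormedAddCommGroup K] [InnerProductSpace ℝ K] [CompleteSpace K]
  {W : Submodule ℝ (H × K)} {C : ℝ} {Λ : H →L[ℝ] K} {f : H} {η : ℝ} {q : H × K}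

/-- the Riesz map -/
structure IsLam (W : Submodule ℝ (H × K)) (Λ : H →L[ℝ] K) : Prop where
  inner : ∀ f, ∀ q ∈ W, ⟪Λ f, q.2⟫_ℝ = ⟪f, q.1⟫_ℝ
  mem : ∀ f, ∃ p ∈ W, p.2 = Λ f

theorem riesz_unique {p p' : H × K} (hp : p ∈ W) (hp' : p' ∈ W)
    (h : ∀ q ∈ W, ⟪p.2, q.2⟫_ℝ = ⟪p'.2, q.2⟫_ℝ) : p.2 = p'.2 := by
  have h1 := h _ (W.sub_mem hp hp')
  rw [← sub_eq_zero, ← inner_sub_left] at h1
  have h2 : p.2 - p'.2 = 0 := inner_self_eq_zero.1 h1
  exact sub_eq_zero.1 h2

theorem exists_lam (hW : IsClosed (W : Set (H × K))) (hC0 : 0 < C)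
    (hC : ∀ p ∈ W, ‖p.1‖ ≤ C * ‖p.2‖) : ∃ Λ : H →L[ℝ] K, IsLam W Λ := by
  choose p hp hpi using fun f => rieszW hW hC f
  have hb : ∀ f, ‖(p f).2‖ ≤ C * ‖f‖ := by
    intro f
    rcases eq_or_lt_of_le (norm_nonneg (p f).2) with h | h
    · rw [← h]
      positivity
    · have h1 := hpi f _ (hp f)
      rw [real_inner_self_eq_norm_sq] at h1
      have h2 := real_inner_le_norm f (p f).1
      have h3 := hC _ (hp f)
      have h4 : ‖f‖ * ‖(p f).1‖ ≤ ‖f‖ * (C * ‖(p f).2‖) := by gcongr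
      have h5 : ‖(p f).2‖ * ‖(p f).2‖ ≤ (C * ‖f‖) * ‖(p f).2‖ := by nlinarith
      exact le_of_mul_le_mul_right h5 h
  let L : H →ₗ[ℝ] K :=
    { toFun := fun f => (p f).2
      map_add' := fun a b => by
        have h1 : (p a + p b).2 = (p a).2 + (p b).2 := rfl
        rw [← h1]
        refine riesz_unique (hp _) (W.add_mem (hp a) (hp b)) fun q hq => ?_
        rw [h1, inner_add_left, hpi _ _ hq, hpi _ _ hq, hpi _ _ hq, inner_add_left]
      map_smul' := fun c a => by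
        have h1 : (c • p a).2 = c • (p a).2 := rfl
        rw [RingHom.id_apply, ← h1]
        refine riesz_unique (hp _) (W.smul_mem c (hp a)) fun q hq => ?_
        rw [h1, real_inner_smul_left, hpi _ _ hq, hpi _ _ hq, real_inner_smul_left] }
  refine ⟨L.mkContinuous C hb, fun f q hq => hpi f q hq, fun f => ⟨p f, hp f, rfl⟩⟩

theorem IsLam.le (h : IsLam W Λ) (hη : 0 ≤ η) (hf : ∀ q ∈ W, |⟪f, q.1⟫_ℝ| ≤ η * ‖q.2‖) :
    ‖Λ f‖ ≤ η := by
  obtain ⟨p, hp, h1⟩ := h.mem f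
  rcases eq_or_lt_of_le (norm_nonneg (Λ f)) with h0 | h0
  · rw [← h0]
    exact hη
  · have h2 := h.inner f p hp
    rw [h1, real_inner_self_eq_norm_sq] at h2
    have h3 := hf p hp
    rw [← h2, h1, abs_of_nonneg (by positivity)] at h3
    have h4 : ‖Λ f‖ * ‖Λ f‖ ≤ η * ‖Λ f‖ := by nlinarith
    exact le_of_mul_le_mul_right h4 h0

theorem IsLam.ge (h : IsLam W Λ) (hq : q ∈ W) : |⟪f, q.1⟫_ℝ| ≤ ‖Λ f‖ * ‖q.2‖ := by
  rw [← h.inner f q hq]
  exact abs_real_inner_le_norm _ _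

/-- the range of the Riesz map is contained in the closed set of the gradients -/
theorem IsLam.closure_mem (hW : IsClosed (W : Set (H × K))) (hC : ∀ p ∈ W, ‖p.1‖ ≤ C * ‖p.2‖)
    {S : Set K} (hS : ∀ z ∈ S, ∃ p ∈ W, p.2 = z) {z : K} (hz : z ∈ closure S) :
    ∃ p ∈ W, p.2 = z := by
  have h1 : S ⊆ Set.range (sndW W) := by
    intro r hr
    obtain ⟨p, hp, rfl⟩ := hS r hr
    exact ⟨⟨p, hp⟩, rfl⟩
  obtain ⟨p, hp⟩ := closure_minimal h1 (range_closed hW hC) hz
  exact ⟨p, p.2, hp⟩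

end abs

open H772R2.NS
open Pool.Agent.W795.TQ
open H772R2.NSR (Frame prim_cont exists_frame rellich_W exists_poinc)
open Pool.Agent.Y303.LV (cl clj clj_coe)
open Pool.Agent.W52.TQ (graphW_le)

variable {Ω : Set E3} {Λ : L2V Ω →L[ℝ] L2M Ω} {q : L2V Ω × L2M Ω} {G : Fin 3 → Fin 3 → E3 → ℝ}

theorem exists_lamΩ (hΩ : IsOpen Ω) (hb : Bornology.IsBounded Ω) :
    ∃ Λ : L2V Ω →L[ℝ] L2M Ω, IsLam (graphW Ω) Λ := by
  obtain ⟨C, Fr⟩ := exists_frame hΩ hb
  exact exists_lam (graphW_closed Ω) Fr.C0 Fr.poinc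

/-- the bound of the dual norm from the test fields -/
theorem lam_le_test (hΩ : MeasurableSet Ω) (h : IsLam (graphW Ω) Λ) {f : L2V Ω} {η : ℝ}
    (hη : 0 ≤ η) (hf : ∀ ψ, IsTest Ω ψ → |⟪f, cl Ω ψ⟫_ℝ| ≤ η * G1 ψ) : ‖Λ f‖ ≤ η := by
  refine h.le hη fun q hq => ?_
  refine graphW_le (fun q => |⟪f, q.1⟫_ℝ|) (fun q => η * ‖q.2‖) ?_ ?_ ?_ hq
  · exact (continuous_const.inner continuous_fst).abs.continuousOn
  · exact (continuous_const.mul continuous_snd.norm).continuousOn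
  · rintro q ⟨ψ, h1, h2, h3⟩
    have e1 : q.1 = cl Ω ψ := by
      apply Lp.ext
      filter_upwards [h2, (CK.test h1).coe (Ω := Ω) h1.compact] with x a b
      rw [a, b]
    have e2 : q.2 = clj Ω ψ := by
      apply Lp.ext
      filter_upwards [h3, clj_coe (Ω := Ω) h1] with x a b
      rw [a, b]
    show |⟪f, q.1⟫_ℝ| ≤ η * ‖q.2‖
    rw [e1, e2, clj_G1 hΩ h1]
    exact hf ψ h1

theorem lam_test (hΩ : MeasurableSet Ω) (h : IsLam (graphW Ω) Λ) {f : L2V Ω} {ψ : E3 → E3}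
    (hψ : IsTest Ω ψ) : |⟪f, cl Ω ψ⟫_ℝ| ≤ ‖Λ f‖ * G1 ψ := by
  have h1 := h.ge (f := f) (test_mem hψ)
  simp only at h1
  rwa [clj_G1 hΩ hψ] at h1

/-- the divergence of a matrix field -/
noncomputable def DG (G : Fin 3 → Fin 3 → E3 → ℝ) : E3 → E3 := vec fun i x => ∑ j, pd j (G i j) x

theorem DG_CK {K : Set E3} (hK : IsClosed K) (hG : ∀ i j, ContDiff ℝ ∞ (G i j))
    (h0 : ∀ i j x, x ∉ K → G i j x = 0) : CK K (DG G) := by
  refine CK_vec (fun i => continuous_finsetSum _ fun j _ => (cd_pd (hG i j) j).continuous)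
    fun i x hx => Finset.sum_eq_zero fun j _ => ?_
  have a : Amp K (G i j) := ⟨hG i j, fun x hx => h0 i j x hx⟩
  exact (a.pd hK j).off x hx

/-- the pairing of a divergence with an element of the energy space -/
theorem pairG (hb : Bornology.IsBounded Ω) {K : Set E3} (hK : IsCompact K)
    (hG : ∀ i j, ContDiff ℝ ∞ (G i j)) (h0 : ∀ i j x, x ∉ K → G i j x = 0)
    (hq : q ∈ graphW Ω) :
    ⟪cl Ω (DG G), q.1⟫_ℝ = -∫ x in Ω, ∑ i, ∑ j, q.2 x (i, j) * G i j x := by
  have hc : ∀ i j, HasCompactSupport (G i j) := fun i j =>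
    HasCompactSupport.of_support_subset_isCompact hK fun x hx => by
      by_contra h
      exact hx (h0 i j x h)
  have hck := DG_CK hK.isClosed hG h0
  have e1 : ⟪cl Ω (DG G), q.1⟫_ℝ = ∫ x in Ω, ∑ i, ∑ j, q.1 x i * pd j (G i j) x := by
    rw [L2.inner_def]
    apply integral_congr_ae
    filter_upwards [hck.coe (Ω := Ω) hK] with x a
    rw [a, inner_sum]
    refine Finset.sum_congr rfl fun i _ => ?_
    unfold DG
    rw [vec_apply, Finset.sum_mul]
    exact Finset.sum_congr rfl fun j _ => mul_comm _ _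
  have i1 : ∀ i j, IntegrableOn (fun x => q.1 x i * pd j (G i j) x) Ω := by
    intro i j
    obtain ⟨M, hM⟩ := (cd_pd (hG i j) j).continuous.bounded_above_of_compact_support
      ((hc i j).fderiv_apply ℝ (H772R2.NS.ev j))
    exact (v_int hb q i).mul_bdd (cd_pd (hG i j) j).continuous.aestronglyMeasurable
      (Eventually.of_forall hM)
  have i2 : ∀ i j, IntegrableOn (fun x => q.2 x (i, j) * G i j x) Ω := fun i j =>
    zg_int hb q i j (hG i j).continuous (hc i j)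
  rw [e1, integral_finsetSum _ fun i _ => integrable_finsetSum _ fun j _ => i1 i j,
    integral_finsetSum _ fun i _ => integrable_finsetSum _ fun j _ => i2 i j,
    ← Finset.sum_neg_distrib]
  refine Finset.sum_congr rfl fun i _ => ?_
  rw [integral_finsetSum _ fun j _ => i1 i j, integral_finsetSum _ fun j _ => i2 i j,
    ← Finset.sum_neg_distrib]
  exact Finset.sum_congr rfl fun j _ => weak_grad hq (hG i j) (hc i j) i j

/-- the matrix field -/
noncomputable def mat (G : Fin 3 → Fin 3 → E3 → ℝ) : E3 → M3 := fun x =>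
  WithLp.toLp 2 fun p => G p.1 p.2 x

theorem mat_sq (x : E3) : ‖mat G x‖ ^ 2 = ∑ i, ∑ j, G i j x ^ 2 := by
  rw [EuclideanSpace.norm_sq_eq, Fintype.sum_prod_type]
  refine Finset.sum_congr rfl fun i _ => Finset.sum_congr rfl fun j _ => ?_
  simp [mat]

/-- the bound of the pairing of two matrix fields -/
theorem pair_le (hG : ∀ i j, Continuous (G i j)) (hc : ∀ i j, HasCompactSupport (G i j))
    (z : L2M Ω) : |∫ x in Ω, ∑ i, ∑ j, z x (i, j) * G i j x|
      ≤ √(∫ x, ∑ i, ∑ j, G i j x ^ 2) * ‖z‖ := by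
  have hmc : Continuous (mat G) := by
    unfold mat
    exact (PiLp.continuous_toLp 2 _).comp (continuous_pi fun p => hG p.1 p.2)
  have hms : HasCompactSupport (mat G) := by
    set K : Set E3 := ⋃ p : Fin 3 × Fin 3, tsupport (G p.1 p.2) with hK
    have hKc : IsCompact K := isCompact_iUnion fun p => hc p.1 p.2
    refine HasCompactSupport.of_support_subset_isCompact hKc fun x hx => ?_
    by_contra hcon
    refine hx ?_
    ext p
    have : x ∉ tsupport (G p.1 p.2) := fun h => hcon (mem_iUnion.2 ⟨p, h⟩)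
    show G p.1 p.2 x = 0
    exact image_eq_zero_of_notMem_tsupport this
  have hm : MemLp (mat G) 2 volume := hmc.memLp_of_hasCompactSupport hms
  have hm' : MemLp (mat G) 2 (volume.restrict Ω) := hm.restrict _
  have e1 : ∫ x in Ω, ∑ i, ∑ j, z x (i, j) * G i j x = ⟪hm'.toLp _, z⟫_ℝ := by
    rw [L2.inner_def]
    apply integral_congr_ae
    filter_upwards [hm'.coeFn_toLp] with x a
    rw [a, inner_M3]
    refine Finset.sum_congr rfl fun i _ => Finset.sum_congr rfl fun j _ => ?_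
    simp only [mat]
    ring
  have hsq : Integrable (fun x => ∑ i, ∑ j, G i j x ^ 2) := by
    have := (memLp_two_iff_integrable_sq_norm hm.aestronglyMeasurable).1 hm
    refine this.congr (Eventually.of_forall fun x => ?_)
    exact mat_sq x
  have e2 : ‖hm'.toLp (mat G)‖ ≤ √(∫ x, ∑ i, ∑ j, G i j x ^ 2) := by
    refine Real.le_sqrt_of_sq_le ?_
    rw [← real_inner_self_eq_norm_sq, L2.inner_def]
    have e3 : ∫ x in Ω, ⟪(hm'.toLp (mat G) : E3 → M3) x, (hm'.toLp (mat G) : E3 → M3) x⟫_ℝ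
        = ∫ x in Ω, ∑ i, ∑ j, G i j x ^ 2 := by
      apply integral_congr_ae
      filter_upwards [hm'.coeFn_toLp] with x a
      rw [a, real_inner_self_eq_norm_sq, mat_sq]
    rw [e3]
    exact setIntegral_le_integral hsq (Eventually.of_forall fun x =>
      Finset.sum_nonneg fun i _ => Finset.sum_nonneg fun j _ => sq_nonneg _)
  rw [e1]
  refine (abs_real_inner_le_norm _ _).trans ?_
  gcongr

/-- **The dual norm of a divergence.** -/
theorem lam_DG (hb : Bornology.IsBounded Ω) (h : IsLam (graphW Ω) Λ) {K : Set E3}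
    (hK : IsCompact K) (hG : ∀ i j, ContDiff ℝ ∞ (G i j)) (h0 : ∀ i j x, x ∉ K → G i j x = 0) :
    ‖Λ (cl Ω (DG G))‖ ≤ √(∫ x, ∑ i, ∑ j, G i j x ^ 2) := by
  have hc : ∀ i j, HasCompactSupport (G i j) := fun i j =>
    HasCompactSupport.of_support_subset_isCompact hK fun x hx => by
      by_contra h
      exact hx (h0 i j x h)
  refine h.le (Real.sqrt_nonneg _) fun q hq => ?_
  rw [pairG hb hK hG h0 hq, abs_neg]
  exact pair_le (fun i j => (hG i j).continuous) hc q.2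

end Pool.Agent.J4H18.DN
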