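import Pool.Agent.J4H18.DN.L9

/-!
The oscillating field is close to an available field of small cost.
-/

set_option autoImplicit false
set_option linter.unusedSectionVars false

open MeasureTheory Set Filter Topology
open scoped InnerProductSpace ENNReal ContDiff NNReal Pointwise

namespace Pool.Agent.J4H18.DN

open H772R2.NS
open Pool.Agent.W795.TQ
open H772R2.NSR (Frame prim_cont exists_frame rellich_W exists_poinc)
open Pool.Agent.Y303.LV (cl clj clj_coe)

variable {ν s T : ℝ} {φ : E3 → ℝ} {A B h : Fin 3 → E3 → ℝ} {P : E3 → ℝ} {S K Ω : Set E3}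
  {γ : E3 → ℝ} {q : L2V Ω × L2M Ω} {Λ : L2V Ω →L[ℝ] L2M Ω} {F F1 : ℝ → L2M Ω}

/-- the pairing with a torus field -/
noncomputable def Pk (q : L2V Ω × L2M Ω) (k : Fin 6) (s : ℝ) (y : E3) : ℝ :=
  ⟪cl Ω (vec (rot (RR k) y s hh)), q.1⟫_ℝ

theorem Pk_eq (hb : Bornology.IsBounded Ω) (hq : q ∈ graphW Ω) (hs : 0 < s) (k : Fin 6) (y : E3) :
    Pk q k s y = -∑ i, ∑ j, ∫ x in Ω, q.2 x (i, j) * (s * TR gb (RR k) i j (s⁻¹ • (x - y))) := by
  have h1 : vec (rot (RR k) y s hh) = DG (TS gb (RR k) y s) := (DG_TS gb_pro (RR k) y hs).symm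
  have hcd : ∀ i j, ContDiff ℝ ∞ (TS gb (RR k) y s i j) := fun i j => TS_cd gb_pro (RR k) y s i j
  have hcs : ∀ i j, HasCompactSupport (TS gb (RR k) y s i j) := fun i j =>
    HasCompactSupport.intro (isCompact_closedBall y (4 * s)) fun x hx =>
      TS_off gb_pro (RR k) y hs i j hx
  unfold Pk
  rw [h1, pairG hb (isCompact_closedBall y (4 * s)) hcd
    (fun i j x hx => TS_off gb_pro (RR k) y hs i j hx) hq]
  have hi : ∀ i j, IntegrableOn (fun x => q.2 x (i, j) * TS gb (RR k) y s i j x) Ω := fun i j =>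
    zg_int hb q i j (hcd i j).continuous (hcs i j)
  rw [integral_finsetSum _ fun i _ => integrable_finsetSum _ fun j _ => hi i j]
  congr 1
  refine Finset.sum_congr rfl fun i _ => ?_
  rw [integral_finsetSum _ fun j _ => hi i j]
  rfl

/-- the superposition of the pairings -/
theorem super (hb : Bornology.IsBounded Ω) (hq : q ∈ graphW Ω) (hs : 0 < s)
    {γ : Fin 6 → E3 → ℝ} (hγ : ∀ k, Continuous (γ k)) (hγc : ∀ k, HasCompactSupport (γ k)) :
    ∑ k, ∫ y, γ k y * Pk q k s y = -∫ x in Ω, ∑ i, ∑ j, q.2 x (i, j)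
      * ∑ k, s ^ 4 * ∫ w, γ k (x - s • w) * TR gb (RR k) i j w := by
  have hTc : ∀ k i j, Continuous (TR gb (RR k) i j) := fun k i j =>
    (TR_cd gb_pro (RR k) i j).continuous
  have hTs : ∀ k i j, HasCompactSupport (TR gb (RR k) i j) := fun k i j =>
    TR_cs gb_pro (RR k) i j
  have hcc : ∀ k i j, Continuous fun x => ∫ w, γ k (x - s • w) * TR gb (RR k) i j w :=
    fun k i j => conv_cont (hγ k) (hγc k) (hTc k i j) (hTs k i j) s
  have hbd : ∀ k i j, ∃ M, ∀ x, ‖∫ w, γ k (x - s • w) * TR gb (RR k) i j w‖ ≤ M := by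
    intro k i j
    obtain ⟨M, hM⟩ := (hγ k).bounded_above_of_compact_support (hγc k)
    refine ⟨∫ w, M * |TR gb (RR k) i j w|, fun x => ?_⟩
    refine norm_integral_le_of_norm_le
      ((((hTc k i j).integrable_of_hasCompactSupport (hTs k i j)).abs).const_mul _)
      (Eventually.of_forall fun w => ?_)
    rw [norm_mul, Real.norm_eq_abs (TR gb (RR k) i j w)]
    gcongr
    exact hM _
  have hz : ∀ i j, IntegrableOn (fun x => q.2 x (i, j)) Ω := fun i j => z_int hb q i j
  have hint : ∀ i j k, IntegrableOn (fun x => q.2 x (i, j)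
      * (s ^ 4 * ∫ w, γ k (x - s • w) * TR gb (RR k) i j w)) Ω := by
    intro i j k
    obtain ⟨M, hM⟩ := hbd k i j
    refine (hz i j).mul_bdd (c := s ^ 4 * M)
      (continuous_const.mul (hcc k i j)).aestronglyMeasurable (Eventually.of_forall fun x => ?_)
    rw [norm_mul, Real.norm_of_nonneg (by positivity : (0 : ℝ) ≤ s ^ 4)]
    gcongr
    exact hM x
  have hpk : ∀ k, ∫ y, γ k y * Pk q k s y = -∑ i, ∑ j, ∫ x in Ω, q.2 x (i, j)
      * (s ^ 4 * ∫ w, γ k (x - s • w) * TR gb (RR k) i j w) := by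
    intro k
    have e1 : ∀ y, γ k y * Pk q k s y = -∑ i, ∑ j, γ k y * ∫ x in Ω, q.2 x (i, j)
        * (s * TR gb (RR k) i j (s⁻¹ • (x - y))) := by
      intro y
      rw [Pk_eq hb hq hs, mul_neg, Finset.mul_sum]
      congr 1
      refine Finset.sum_congr rfl fun i _ => ?_
      rw [Finset.mul_sum]
    simp only [e1]
    have hin : ∀ i j, Integrable fun y => γ k y * ∫ x in Ω, q.2 x (i, j)
        * (s * TR gb (RR k) i j (s⁻¹ • (x - y))) := by
      intro i j
      obtain ⟨M, hM⟩ := (hTc k i j).bounded_above_of_compact_support (hTs k i j)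
      have h2 : Integrable (fun p : E3 × E3 => γ k p.1 * q.2 p.2 (i, j))
          (volume.prod (volume.restrict Ω)) :=
        ((hγ k).integrable_of_hasCompactSupport (hγc k)).mul_prod (hz i j)
      have h3 : Continuous fun p : E3 × E3 => s * TR gb (RR k) i j (s⁻¹ • (p.2 - p.1)) :=
        continuous_const.mul ((hTc k i j).comp (by fun_prop))
      have h4 : Integrable (fun p : E3 × E3 => γ k p.1 * q.2 p.2 (i, j)
          * (s * TR gb (RR k) i j (s⁻¹ • (p.2 - p.1)))) (volume.prod (volume.restrict Ω)) := by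
        refine h2.mul_bdd (c := s * M) h3.aestronglyMeasurable (Eventually.of_forall fun p => ?_)
        rw [norm_mul, Real.norm_of_nonneg hs.le]
        gcongr
        exact hM _
      refine h4.integral_prod_left.congr (Eventually.of_forall fun y => ?_)
      simp only
      rw [← integral_const_mul]
      congr 1
      funext x
      ring
    rw [integral_neg, integral_finsetSum _ fun i _ => integrable_finsetSum _ fun j _ => hin i j]
    congr 1
    refine Finset.sum_congr rfl fun i _ => ?_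
    rw [integral_finsetSum _ fun j _ => hin i j]
    refine Finset.sum_congr rfl fun j _ => ?_
    exact fub (hγ k) (hγc k) (hz i j) (hTc k i j) (hTs k i j) hs
  simp only [hpk, Finset.mul_sum]
  rw [integral_finsetSum _ fun i _ => integrable_finsetSum _ fun j _ =>
    integrable_finsetSum _ fun k _ => hint i j k, Finset.sum_neg_distrib]
  congr 1
  have e2 : ∀ i, ∫ x in Ω, ∑ j, ∑ k, q.2 x (i, j)
      * (s ^ 4 * ∫ w, γ k (x - s • w) * TR gb (RR k) i j w)
      = ∑ j, ∑ k, ∫ x in Ω, q.2 x (i, j)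
        * (s ^ 4 * ∫ w, γ k (x - s • w) * TR gb (RR k) i j w) := by
    intro i
    rw [integral_finsetSum _ fun j _ => integrable_finsetSum _ fun k _ => hint i j k]
    refine Finset.sum_congr rfl fun j _ => ?_
    rw [integral_finsetSum _ fun k _ => hint i j k]
  simp only [e2]
  rw [Finset.sum_comm]
  refine Finset.sum_congr rfl fun i _ => ?_
  rw [Finset.sum_comm]

/-- **The oscillating field is close to an available field of small cost.** -/
theorem near_hull (hloc : S_loc) (hun : S_univ) (hΩ : IsOpen Ω) (hb : Bornology.IsBounded Ω)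
    (hΛ : IsLam (graphW Ω) Λ) (hν : 0 < ν) (hT : 0 < T) (hF : FH T F F1) :
    ∃ C1 C2 : ℝ, 0 ≤ C1 ∧ 0 ≤ C2 ∧ ∀ (φ : E3 → ℝ) (A B h : Fin 3 → E3 → ℝ) (P : E3 → ℝ)
      (S K : Set E3), Dat ν φ A B h P S K → K ⊆ Ω → ∀ κ, 0 < κ → κ ≤ 1 → ∀ η, 0 < η →
      ∃ N0 : ℝ, 1 ≤ N0 ∧ ∀ N, N0 ≤ N → ∃ g μ, QA Λ ν T F g μ ∧ μ ≤ C2 * LD A B / κ + η ∧
        ‖Λ (cl Ω (EN φ A B N)) + Λ (cl Ω g)‖ ≤ C1 * κ * √(SD A B) + η := by
  obtain ⟨Cs, hCs, hQA⟩ := QA_torus hloc hun hΩ hb hΛ hν hT hF
  obtain ⟨τ0, hτ0, hτ⟩ := exists_τ0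
  obtain ⟨Cp, Fr⟩ := exists_frame hΩ hb
  have hθ : 0 < |θ0| := abs_pos.2 θ0_neg.ne
  refine ⟨6400 * τ0 / |θ0|, 36 * Cs / |θ0|, by positivity, by positivity,
    fun φ A B h P S K D hKΩ κ hκ hκ1 η hη => ?_⟩
  have hSc : IsCompact S := D.Kc.of_isClosed_subset D.Sc D.SK
  have hL := LD_nonneg (A := A) (B := B)
  obtain ⟨C, hC, hsize⟩ := gt_size hτ0 hτ D
  -- the distance to the boundary
  obtain ⟨r, hr, hrS⟩ : ∃ r : ℝ, 0 < r ∧ ∀ y ∈ S, Metric.closedBall y r ⊆ Ω := by
    obtain ⟨r, hr, hr2⟩ := hSc.exists_cthickening_subset_open hΩ (D.SK.trans hKΩ)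
    refine ⟨r, hr, fun y hy => ?_⟩
    exact (Metric.closedBall_subset_cthickening hy r).trans hr2
  refine ⟨max 1 (max (4 * κ / r) (2 * C / (κ * η))), le_max_left _ _, fun N hN => ?_⟩
  have hN1 : 1 ≤ N := (le_max_left _ _).trans hN
  have hN2 : 4 * κ / r ≤ N := ((le_max_left _ _).trans (le_max_right _ _)).trans hN
  have hN3 : 2 * C / (κ * η) ≤ N := ((le_max_right _ _).trans (le_max_right _ _)).trans hN
  have hN0 : 0 < N := by linarith
  obtain ⟨hcont, hcs, hsz⟩ := hsize κ hκ hκ1 N hN1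
  set s : ℝ := κ / N with hs
  have hs0 : 0 < s := by positivity
  have h4s : 4 * s ≤ r := by
    rw [div_le_iff₀ hr] at hN2
    rw [hs, ← mul_div_assoc, div_le_iff₀ hN0]
    linarith
  have hCN : C / (κ * N) ≤ η / 2 := by
    rw [div_le_iff₀ (by positivity)] at hN3 ⊢
    linarith
  set M : ℝ := 36 * Cs / |θ0| * LD A B / κ + η with hM
  have hM0 : 0 < M := by positivity
  set γ : Fin 6 → E3 → ℝ := fun k y => (s ^ 4)⁻¹ * ((κ * θ0)⁻¹
    * wv φ (Uk φ A k) (Vk φ B k) N y) with hγ
  have hwa : ∀ k, Amp S (wv φ (Uk φ A k) (Vk φ B k) N) := fun k =>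
    wv_amp D.φs (Uk_amp D k) (Vk_amp D k) N
  have hγa : ∀ k, Amp S (γ k) := fun k => ((hwa k).smul _).smul _
  have hγc : ∀ k, Continuous (γ k) := fun k => (hγa k).smooth.continuous
  have hγs : ∀ k, HasCompactSupport (γ k) := fun k => amp_compact hSc (hγa k)
  have hGt : ∀ i j x, ∑ k, s ^ 4 * ∫ w, γ k (x - s • w) * TR gb (RR k) i j w
      = Gt φ A B κ N i j x := by
    intro i j x
    unfold Gt
    rw [Finset.mul_sum]
    refine Finset.sum_congr rfl fun k _ => ?_
    have e : ∀ w : E3, γ k (x - s • w) * TR gb (RR k) i j w = (s ^ 4)⁻¹ * ((κ * θ0)⁻¹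
        * (wv φ (Uk φ A k) (Vk φ B k) N (x - s • w) * TR gb (RR k) i j w)) := by
      intro w
      rw [hγ]
      ring
    simp only [e]
    rw [integral_const_mul, integral_const_mul, ← mul_assoc, mul_inv_cancel₀ (by positivity),
      one_mul]
  -- the total mass
  have hmass : ∑ k, ∫ y, |γ k y| ≤ (s ^ 4)⁻¹ * (κ * |θ0|)⁻¹ * (36 * LD A B) := by
    have h1 : ∀ k, ∫ y, |γ k y| ≤ (s ^ 4)⁻¹ * (κ * |θ0|)⁻¹ * (6 * LD A B) := by
      intro k
      have h2 : ∀ y, |γ k y| ≤ (s ^ 4)⁻¹ * (κ * |θ0|)⁻¹ * (6 * ∑ i, (|A i y| + |B i y|)) := by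
        intro y
        rw [hγ]
        simp only
        rw [abs_mul, abs_mul, abs_inv, abs_inv, abs_mul, abs_of_pos hκ,
          abs_of_pos (by positivity : (0 : ℝ) < s ^ 4), ← mul_assoc]
        have h3 := (wv_abs (φ := φ) (U := Uk φ A k) (V := Vk φ B k) N y).trans (UV_bound D k y)
        gcongr
      have h4 : ∫ y, |γ k y| ≤ ∫ y, (s ^ 4)⁻¹ * (κ * |θ0|)⁻¹ * (6 * ∑ i, (|A i y| + |B i y|)) :=
        integral_mono ((hγc k).integrable_of_hasCompactSupport (hγs k)).abs
          (((abs_int D).const_mul _).const_mul _) h2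
      rwa [integral_const_mul, integral_const_mul] at h4
    refine (Finset.sum_le_sum fun k _ => h1 k).trans (le_of_eq ?_)
    simp
    ring
  set R : Set (L2M Ω) := Set.range (sndW (graphW Ω)) with hR
  have hRc : IsClosed R := range_closed (graphW_closed Ω) Fr.poinc
  have hmemR : ∀ f, Λ f ∈ R := by
    intro f
    obtain ⟨p, hp, hpf⟩ := hΛ.mem f
    exact ⟨⟨p, hp⟩, hpf⟩
  obtain ⟨z, hz, hzn⟩ := hull_near (S := Hull Λ ν T F M) (x := -Λ (cl Ω (EN φ A B N)))
    (r := 6400 * τ0 / |θ0| * κ * √(SD A B) + η / 2) (R := R) (hull_convex M)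
    ⟨0, hull_zero hM0.le⟩ hRc
    (by
      rintro z ⟨g, μ, -, -, rfl⟩
      exact hmemR _)
    (by
      rintro p ⟨a, rfl⟩
      obtain ⟨b, hb'⟩ := hmemR (cl Ω (EN φ A B N))
      refine ⟨-b - a, ?_⟩
      rw [map_sub, map_neg, hb'])
    (by
      rintro w ⟨a, rfl⟩ σ hσ
      set q : L2V Ω × L2M Ω := (a : L2V Ω × L2M Ω) with hq
      have hqW : q ∈ graphW Ω := a.2
      have hq2 : sndW (graphW Ω) a = q.2 := rfl
      rw [hq2] at hσ ⊢
      have hσ0 : 0 ≤ σ := by
        have := hσ 0 (hull_zero hM0.le)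
        rwa [inner_zero_right] at this
      -- the bound of the pairings
      have hP : ∀ k, ∀ y ∈ S, |Pk q k s y| ≤ σ * (Cs * s ^ 4) / M := by
        intro k y hy
        have hball : Metric.closedBall y (4 * s) ⊆ Ω :=
          (Metric.closedBall_subset_closedBall h4s).trans (hrS y hy)
        have hA := hQA (RR k) y s hs0 hball
        have hone : ∀ c : ℝ, |c| = M / (Cs * s ^ 4) → c * Pk q k s y ≤ σ := by
          intro c hc
          have h1 := hσ (Λ (cl Ω fun x => c • vec (rot (RR k) y s hh) x))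
            ⟨_, _, hA.smul c, by
              rw [hc]
              apply le_of_eq
              field_simp, rfl⟩
          rw [cl_smul' hA.1, map_smul, inner_smul_right, real_inner_comm, hΛ.inner _ q hqW] at h1
          exact h1
        have hc0 : 0 < M / (Cs * s ^ 4) := by positivity
        have h1 := hone (M / (Cs * s ^ 4)) (abs_of_pos hc0)
        have h2 := hone (-(M / (Cs * s ^ 4))) (by rw [abs_neg, abs_of_pos hc0])
        have h3 : M / (Cs * s ^ 4) * |Pk q k s y| ≤ σ := by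
          rcases abs_cases (Pk q k s y) with ⟨h, _⟩ | ⟨h, _⟩ <;> rw [h] <;> linarith
        rw [div_mul_eq_mul_div, div_le_iff₀ (by positivity)] at h3
        rw [le_div_iff₀ hM0]
        linarith
      have hsum : ∑ k, ∫ y, γ k y * Pk q k s y ≤ σ := by
        have h1 : ∀ k, ∫ y, γ k y * Pk q k s y ≤ (∫ y, |γ k y|) * (σ * (Cs * s ^ 4) / M) := by
          intro k
          have h2 : ∀ y, ‖γ k y * Pk q k s y‖ ≤ |γ k y| * (σ * (Cs * s ^ 4) / M) := by
            intro y
            rw [norm_mul, Real.norm_eq_abs, Real.norm_eq_abs]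
            by_cases hy : y ∈ S
            · have := hP k y hy
              gcongr
            · rw [(hγa k).off y hy]
              simp
          have hi : Integrable (γ k) := (hγc k).integrable_of_hasCompactSupport (hγs k)
          have hi2 : Integrable fun y => |γ k y| * (σ * (Cs * s ^ 4) / M) := hi.abs.mul_const _
          have h3 := norm_integral_le_of_norm_le hi2 (Eventually.of_forall h2)
          rw [integral_mul_const] at h3
          exact (le_abs_self _).trans h3
        refine (Finset.sum_le_sum fun k _ => h1 k).trans ?_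
        rw [← Finset.sum_mul]
        have h4 : 0 ≤ σ * (Cs * s ^ 4) / M := by positivity
        calc (∑ k, ∫ y, |γ k y|) * (σ * (Cs * s ^ 4) / M)
            ≤ ((s ^ 4)⁻¹ * (κ * |θ0|)⁻¹ * (36 * LD A B)) * (σ * (Cs * s ^ 4) / M) := by gcongr
          _ = σ * ((36 * Cs / |θ0| * LD A B / κ) / M) := by
              field_simp
          _ ≤ σ * 1 := by
              gcongr
              rw [div_le_one hM0, hM]
              linarith
          _ = σ := mul_one _
      rw [super hb hqW hs0 hγc hγs] at hsum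
      simp only [hGt] at hsum
      have hE : ⟪q.2, -Λ (cl Ω (EN φ A B N))⟫_ℝ
          = ∫ x in Ω, ∑ i, ∑ j, q.2 x (i, j) * osc φ A B N i j x := by
        rw [inner_neg_right, real_inner_comm, hΛ.inner _ q hqW]
        unfold EN
        rw [pairG hb hSc (fun i j => (osc_aa D N i j).smooth) (fun i j => (osc_aa D N i j).off)
          hqW, neg_neg]
      have hio : ∀ i j, IntegrableOn (fun x => q.2 x (i, j) * osc φ A B N i j x) Ω := fun i j =>
        zg_int hb q i j (osc_aa D N i j).smooth.continuous (amp_compact hSc (osc_aa D N i j))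
      have his : ∀ i j, IntegrableOn (fun x => q.2 x (i, j)
          * (osc φ A B N i j x + Gt φ A B κ N i j x)) Ω := fun i j =>
        zg_int hb q i j (hcont i j) (hcs i j)
      have hig : ∀ i j, IntegrableOn (fun x => q.2 x (i, j) * Gt φ A B κ N i j x) Ω := by
        intro i j
        refine ((his i j).sub (hio i j)).congr (Eventually.of_forall fun x => ?_)
        simp only [Pi.sub_apply]
        ring
      have hsplit : ∫ x in Ω, ∑ i, ∑ j, q.2 x (i, j) * osc φ A B N i j x
          = (∫ x in Ω, ∑ i, ∑ j, q.2 x (i, j) * (osc φ A B N i j x + Gt φ A B κ N i j x))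
            - ∫ x in Ω, ∑ i, ∑ j, q.2 x (i, j) * Gt φ A B κ N i j x := by
        rw [← integral_sub (integrable_finsetSum _ fun i _ => integrable_finsetSum _ fun j _ =>
          his i j) (integrable_finsetSum _ fun i _ => integrable_finsetSum _ fun j _ => hig i j)]
        congr 1
        funext x
        rw [← Finset.sum_sub_distrib]
        refine Finset.sum_congr rfl fun i _ => ?_
        rw [← Finset.sum_sub_distrib]
        refine Finset.sum_congr rfl fun j _ => ?_
        ring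
      have hpl := pair_le (Ω := Ω) (G := fun i j x => osc φ A B N i j x + Gt φ A B κ N i j x)
        hcont hcs q.2
      have hpl2 := (le_abs_self _).trans hpl
      have hfin : √(∫ x, ∑ i, ∑ j, (osc φ A B N i j x + Gt φ A B κ N i j x) ^ 2) * ‖q.2‖
          ≤ (6400 * τ0 / |θ0| * κ * √(SD A B) + η / 2) * ‖q.2‖ := by
        gcongr
        linarith
      rw [hE, hsplit]
      linarith)
    (by
      have := Real.sqrt_nonneg (SD A B)
      positivity) (η := η / 2) (by positivity)
  obtain ⟨g, μ, hg, hμ, rfl⟩ := hz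
  refine ⟨g, μ, hg, hμ, ?_⟩
  have e : Λ (cl Ω (EN φ A B N)) + Λ (cl Ω g) = -(-Λ (cl Ω (EN φ A B N)) - Λ (cl Ω g)) := by abel
  rw [e, norm_neg]
  linarith

end Pool.Agent.J4H18.DN
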