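import Pool.Agent.J4H18.DN.L6

/-!
Concentrated radial profiles.
-/

set_option autoImplicit false
set_option linter.unusedSectionVars false

open MeasureTheory Set Filter Topology
open scoped InnerProductSpace ENNReal ContDiff NNReal

namespace Pool.Agent.J4H18.DN

open H772R2.NS

/-- the Wallis product -/
noncomputable def Wp (m : ℕ) : ℝ := ∏ i ∈ Finset.range m, (2 * (i : ℝ) + 1) / (2 * i + 2)

theorem Wp_succ (m : ℕ) : Wp (m + 1) = Wp m * ((2 * (m : ℝ) + 1) / (2 * m + 2)) :=
  Finset.prod_range_succ _ _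

theorem Wp_pos (m : ℕ) : 0 < Wp m := Finset.prod_pos fun i _ => by positivity

theorem Wp_sq (m : ℕ) : Wp m ^ 2 * (2 * m + 1) ≤ 1 := by
  induction m with
  | zero => simp [Wp]
  | succ m ih =>
    rw [Wp_succ]
    push_cast
    have h : (Wp m * ((2 * (m : ℝ) + 1) / (2 * m + 2))) ^ 2 * (2 * ((m : ℝ) + 1) + 1)
        = Wp m ^ 2 * (2 * m + 1) * ((2 * m + 1) * (2 * m + 3) / (2 * m + 2) ^ 2) := by
      field_simp
      ring
    rw [h]
    have h2 : (2 * (m : ℝ) + 1) * (2 * m + 3) / (2 * m + 2) ^ 2 ≤ 1 := by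
      rw [div_le_one (by positivity)]
      nlinarith
    have h3 : 0 ≤ (2 * (m : ℝ) + 1) * (2 * m + 3) / (2 * m + 2) ^ 2 := by positivity
    calc _ ≤ 1 * 1 := mul_le_mul ih h2 h3 zero_le_one
      _ = 1 := one_mul _

theorem Wp_add (m k : ℕ) (hk : k ≤ m) : Wp m * (1 - k / (2 * m + 2)) ≤ Wp (m + k) := by
  induction k with
  | zero => simp
  | succ k ih =>
    have ih' := ih (by omega)
    have hm := Wp_pos m
    rw [← add_assoc, Wp_succ]
    push_cast
    set c : ℝ := 1 / (2 * m + 2) with hc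
    have hc0 : 0 < c := by positivity
    have e1 : ((2 * ((m : ℝ) + k) + 1) / (2 * (m + k) + 2)) = 1 - 1 / (2 * (m + k) + 2) := by
      field_simp
      ring
    have h1 : 1 / (2 * ((m : ℝ) + k) + 2) ≤ c := by
      rw [hc]
      gcongr
      have : (0 : ℝ) ≤ k := Nat.cast_nonneg k
      linarith
    have h2 : (k : ℝ) * c ≤ 1 := by
      rw [hc, mul_one_div, div_le_one (by positivity)]
      have : (k : ℝ) ≤ m := by exact_mod_cast (by omega : k ≤ m)
      have : (0 : ℝ) ≤ m := Nat.cast_nonneg m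
      linarith
    have e2 : (k : ℝ) / (2 * m + 2) = k * c := by
      rw [hc]
      ring
    have e3 : ((k : ℝ) + 1) / (2 * m + 2) = k * c + c := by
      rw [hc]
      ring
    rw [e2] at ih'
    rw [e1, e3]
    have hc1 : c ≤ 1 := by
      rw [hc, div_le_one (by positivity)]
      have : (0 : ℝ) ≤ m := Nat.cast_nonneg m
      linarith
    have hk0 : 0 ≤ (k : ℝ) * c := by positivity
    calc Wp m * (1 - (k * c + c)) ≤ Wp m * ((1 - k * c) * (1 - c)) := by
          gcongr
          nlinarith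
      _ = Wp m * (1 - k * c) * (1 - c) := by ring
      _ ≤ Wp (m + k) * (1 - 1 / (2 * (m + k) + 2)) := by
          have := (Wp_pos (m + k)).le
          gcongr

theorem Wp_two (m : ℕ) : Wp m / 2 ≤ Wp (m + m) := by
  refine le_trans ?_ (Wp_add m m le_rfl)
  have hm := Wp_pos m
  have h : (m : ℝ) / (2 * m + 2) ≤ 1 / 2 := by
    rw [div_le_div_iff₀ (by positivity) (by norm_num)]
    linarith
  calc Wp m / 2 = Wp m * (1 - 1 / 2) := by ring
    _ ≤ _ := by gcongr

theorem sin_int (m : ℕ) : ∫ x in (0 : ℝ)..1, Real.sin (Real.pi * x) ^ (2 * m) = Wp m := by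
  have h := intervalIntegral.integral_comp_mul_left (a := (0 : ℝ)) (b := 1)
    (fun x => Real.sin x ^ (2 * m)) Real.pi_ne_zero
  rw [h, mul_zero, mul_one, integral_sin_pow_even, smul_eq_mul, ← mul_assoc,
    inv_mul_cancel₀ Real.pi_ne_zero, one_mul]
  rfl

/-- concentrated periodic functions -/
theorem exists_per {δ : ℝ} (hδ : 0 < δ) : ∃ p : ℝ → ℝ, ContDiff ℝ ∞ p ∧
    (∀ x, p (x + 1) = p x) ∧ ∫ x in (0 : ℝ)..1, p x ^ 2 = 1 ∧ ∫ x in (0 : ℝ)..1, |p x| ≤ δ := by
  obtain ⟨m, hm⟩ := exists_nat_ge ((2 / δ ^ 2) ^ 2)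
  have hW := Wp_pos m
  have hW2 := Wp_pos (m + m)
  have h1 : 2 * Wp m ≤ δ ^ 2 := by
    have h2 : Wp m ^ 2 * ((2 / δ ^ 2) ^ 2) ≤ 1 := by
      have h3 := Wp_sq m
      have h4 : Wp m ^ 2 * ((2 / δ ^ 2) ^ 2) ≤ Wp m ^ 2 * (2 * m + 1) := by
        gcongr
        linarith
      linarith
    have h5 : (Wp m * (2 / δ ^ 2)) ^ 2 ≤ 1 := by rwa [mul_pow]
    have h6 : Wp m * (2 / δ ^ 2) ≤ 1 := by
      have h7 : 0 ≤ Wp m * (2 / δ ^ 2) := by positivity
      nlinarith
    rw [← mul_div_assoc, div_le_one (by positivity)] at h6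
    linarith
  set c : ℝ := (√(Wp (m + m)))⁻¹ with hc
  have hc0 : 0 < c := by positivity
  have hc2 : c ^ 2 * Wp (m + m) = 1 := by
    rw [hc, inv_pow, Real.sq_sqrt hW2.le, inv_mul_cancel₀ hW2.ne']
  refine ⟨fun x => c * Real.sin (Real.pi * x) ^ (2 * m), ?_, fun x => ?_, ?_, ?_⟩
  · exact contDiff_const.mul ((Real.contDiff_sin.comp (contDiff_const.mul contDiff_id)).pow _)
  · show c * Real.sin (Real.pi * (x + 1)) ^ (2 * m) = c * Real.sin (Real.pi * x) ^ (2 * m)
    rw [mul_add, mul_one, Real.sin_add_pi, Even.neg_pow (by simp)]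
  · have e : (fun x : ℝ => (c * Real.sin (Real.pi * x) ^ (2 * m)) ^ 2)
        = fun x => c ^ 2 * Real.sin (Real.pi * x) ^ (2 * (m + m)) := by
      funext x
      rw [mul_pow, ← pow_mul]
      congr 2
      ring
    rw [e, intervalIntegral.integral_const_mul, sin_int, hc2]
  · have e : (fun x : ℝ => |c * Real.sin (Real.pi * x) ^ (2 * m)|)
        = fun x => c * Real.sin (Real.pi * x) ^ (2 * m) := by
      funext x
      refine abs_of_nonneg ?_
      have : 0 ≤ Real.sin (Real.pi * x) ^ (2 * m) := Even.pow_nonneg (by simp) _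
      positivity
    rw [e, intervalIntegral.integral_const_mul, sin_int]
    have h2 := Wp_two m
    have h3 : (c * Wp m) ^ 2 ≤ δ ^ 2 := by
      rw [mul_pow]
      have h4 : c ^ 2 * (Wp m / 2) ≤ 1 := by
        rw [← hc2]
        gcongr
      calc c ^ 2 * Wp m ^ 2 = c ^ 2 * (Wp m / 2) * (2 * Wp m) := by ring
        _ ≤ 1 * δ ^ 2 := by gcongr
        _ = δ ^ 2 := one_mul _
    exact (pow_le_pow_iff_left₀ (by positivity) hδ.le (by norm_num)).mp h3

theorem gb_le_one (t : ℝ) : gb t ≤ 1 := by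
  unfold gb
  exact mul_le_one₀ (Real.smoothTransition.le_one _) (Real.smoothTransition.nonneg _)
    (Real.smoothTransition.le_one _)

/-- the weight -/
noncomputable def wg (t : ℝ) : ℝ := gb t ^ 2 * ct Real.sqrt (1 / 8) t

theorem wg_cd : ContDiff ℝ ∞ wg := (gb_cd.pow 2).mul ct8_cd

theorem wg_cs : HasCompactSupport wg := by
  refine HasCompactSupport.intro (isCompact_Icc (a := (0 : ℝ)) (b := 1)) fun t ht => ?_
  unfold wg
  rw [gb_zero, zero_pow (by norm_num), zero_mul]
  by_contra h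
  push Not at h
  exact ht ⟨by linarith [h.1], h.2.le⟩

/-- oscillating weights -/
theorem osc_weight {p : ℝ → ℝ} (hp : ContDiff ℝ ∞ p) (hper : ∀ x, p (x + 1) = p x)
    (hp2 : ∫ x in (0 : ℝ)..1, p x ^ 2 = 1) : ∃ B, 0 ≤ B ∧ ∀ n : ℝ, 1 ≤ n → ∀ a t : ℝ,
      |∫ τ in (1 : ℝ)..t, wg τ * (p (n * τ + a) ^ 2 - 1)| ≤ B / n := by
  set f : ℝ → ℝ := fun x => p x ^ 2 - 1 with hf
  have hfc : Continuous f := (hp.continuous.pow 2).sub continuous_const
  set Q : ℝ → ℝ := fun x => ∫ y in (0 : ℝ)..x, f y with hQ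
  have hQd : ∀ x, HasDerivAt Q (f x) x := fun x =>
    intervalIntegral.integral_hasDerivAt_right (hfc.intervalIntegrable _ _)
      (hfc.stronglyMeasurableAtFilter _ _) hfc.continuousAt
  have hQc : Continuous Q := continuous_iff_continuousAt.2 fun x => (hQd x).continuousAt
  have hfp : Function.Periodic f 1 := fun x => by
    rw [hf]
    simp only
    rw [hper]
  have hf0 : ∫ x in (0 : ℝ)..1, f x = 0 := by
    have i1 : IntervalIntegrable (fun x => p x ^ 2) volume 0 1 :=
      (hp.continuous.pow 2).intervalIntegrable _ _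
    have i2 : IntervalIntegrable (fun _ => (1 : ℝ)) volume 0 1 :=
      continuous_const.intervalIntegrable _ _
    have e : ∫ x in (0 : ℝ)..1, f x = ∫ x in (0 : ℝ)..1, (p x ^ 2 - 1) := rfl
    rw [e, intervalIntegral.integral_sub i1 i2, hp2]
    simp
  have hQp : Function.Periodic Q 1 := by
    intro x
    rw [hQ]
    simp only
    rw [← intervalIntegral.integral_add_adjacent_intervals (hfc.intervalIntegrable 0 x)
      (hfc.intervalIntegrable x (x + 1)), hfp.intervalIntegral_add_eq x 0, zero_add, hf0, add_zero]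
  obtain ⟨M, hM⟩ := (hQp.isBounded_of_continuous one_ne_zero hQc).exists_norm_le
  have hM' : ∀ x, |Q x| ≤ M := fun x => hM _ ⟨x, rfl⟩
  have hM0 : 0 ≤ M := (abs_nonneg _).trans (hM' 0)
  obtain ⟨W0, hW0⟩ := wg_cd.continuous.bounded_above_of_compact_support wg_cs
  have hW00 : 0 ≤ W0 := (norm_nonneg _).trans (hW0 0)
  have hwd : ContDiff ℝ ∞ (deriv wg) := by
    have := contDiff_infty_iff_deriv.1 wg_cd
    exact this.2
  have hwi : Integrable (deriv wg) :=
    hwd.continuous.integrable_of_hasCompactSupport wg_cs.deriv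
  have hw1 : wg 1 = 0 := by
    unfold wg
    rw [gb_zero (Or.inr le_rfl)]
    ring
  refine ⟨W0 * M + M * ∫ τ, |deriv wg τ|, by
    have : 0 ≤ ∫ τ, |deriv wg τ| := integral_nonneg fun τ => abs_nonneg _
    positivity, fun n hn a t => ?_⟩
  have hn0 : 0 < n := by linarith
  have hd : ∀ τ, HasDerivAt (fun τ => n⁻¹ * Q (n * τ + a)) (f (n * τ + a)) τ := by
    intro τ
    have h1 : HasDerivAt (fun τ : ℝ => n * τ + a) n τ := by
      simpa using ((hasDerivAt_id τ).const_mul n).add_const a
    have h2 := ((hQd (n * τ + a)).comp τ h1).const_mul n⁻¹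
    refine h2.congr_deriv ?_
    field_simp
  have hwdd : ∀ τ, HasDerivAt wg (deriv wg τ) τ := fun τ =>
    ((wg_cd.differentiable (by simp)) τ).hasDerivAt
  have hibp := intervalIntegral.integral_mul_deriv_eq_deriv_mul (a := 1) (b := t)
    (u := wg) (v := fun τ => n⁻¹ * Q (n * τ + a)) (u' := deriv wg)
    (v' := fun τ => f (n * τ + a)) (fun τ _ => hwdd τ) (fun τ _ => hd τ)
    (hwd.continuous.intervalIntegrable _ _)
    ((hfc.comp (by fun_prop)).intervalIntegrable _ _)
  have e1 : ∫ τ in (1 : ℝ)..t, wg τ * (p (n * τ + a) ^ 2 - 1)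
      = ∫ τ in (1 : ℝ)..t, wg τ * f (n * τ + a) := rfl
  rw [e1, hibp, hw1, zero_mul, sub_zero]
  have b1 : |wg t * (n⁻¹ * Q (n * t + a))| ≤ W0 * M / n := by
    rw [abs_mul, abs_mul, abs_of_pos (inv_pos.2 hn0)]
    have h1 := hW0 t
    rw [Real.norm_eq_abs] at h1
    calc |wg t| * (n⁻¹ * |Q (n * t + a)|) ≤ W0 * (n⁻¹ * M) := by
          gcongr
          exact hM' _
      _ = _ := by ring
  have b2 : |∫ τ in (1 : ℝ)..t, deriv wg τ * (n⁻¹ * Q (n * τ + a))|
      ≤ M * (∫ τ, |deriv wg τ|) / n := by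
    have h1 := intervalIntegral.norm_integral_le_integral_norm_uIoc (a := 1) (b := t)
      (f := fun τ => deriv wg τ * (n⁻¹ * Q (n * τ + a))) (μ := volume)
    rw [Real.norm_eq_abs] at h1
    refine h1.trans ?_
    have h2 : ∫ τ in Set.uIoc 1 t, ‖deriv wg τ * (n⁻¹ * Q (n * τ + a))‖
        ≤ ∫ τ in Set.uIoc 1 t, M / n * |deriv wg τ| := by
      refine setIntegral_mono ?_ ((hwi.abs.const_mul _).integrableOn) fun τ => ?_
      · have hc : Continuous fun τ => deriv wg τ * (n⁻¹ * Q (n * τ + a)) :=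
          hwd.continuous.mul (continuous_const.mul (hQc.comp (by fun_prop)))
        have hi := hc.norm.intervalIntegrable (μ := volume) 1 t
        exact hi.def'
      · simp only
        rw [norm_mul, norm_mul, Real.norm_eq_abs, Real.norm_of_nonneg (inv_pos.2 hn0).le,
          Real.norm_eq_abs]
        have := hM' (n * τ + a)
        calc |deriv wg τ| * (n⁻¹ * |Q (n * τ + a)|) ≤ |deriv wg τ| * (n⁻¹ * M) := by gcongr
          _ = _ := by ring
    have h3 : ∫ τ in Set.uIoc 1 t, M / n * |deriv wg τ| ≤ ∫ τ, M / n * |deriv wg τ| :=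
      setIntegral_le_integral (hwi.abs.const_mul _) (Eventually.of_forall fun τ => by
        have := hM0
        positivity)
    refine (h2.trans h3).trans (le_of_eq ?_)
    rw [integral_const_mul]
    ring
  refine (abs_sub _ _).trans ?_
  rw [add_div]
  exact add_le_add b1 b2

/-- **Concentrated profiles.** -/
theorem exists_prof : ∃ C : ℝ, 0 ≤ C ∧ ∀ δ, 0 < δ → ∃ g, Pro g ∧ (∀ t, |Qg g t - Qg gb t| ≤ δ) ∧
    ρ1 g ≤ δ ∧ ρ2 g ≤ C := by
  set V : ℝ := (volume K0).toReal with hV
  refine ⟨2 * V, by positivity, fun δ hδ => ?_⟩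
  set δ' : ℝ := δ / (2 * V + 1) with hδ'
  have hδ'0 : 0 < δ' := by positivity
  obtain ⟨p, hp, hper, hp2, hp1⟩ := exists_per hδ'0
  obtain ⟨B, hB, hosc⟩ := osc_weight hp hper hp2
  set n : ℝ := max 1 (B / δ) with hn
  have hn1 : 1 ≤ n := le_max_left _ _
  have hn0 : 0 < n := by linarith
  have hnB : B / n ≤ δ := by
    rw [div_le_iff₀ hn0]
    have : B / δ ≤ n := le_max_right _ _
    rw [div_le_iff₀ hδ] at this
    linarith
  have hpc := hp.continuous
  -- the average over the shift
  set f : ℝ → ℝ := fun x => δ'⁻¹ * |p x| + p x ^ 2 with hf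
  have hfc : Continuous f := (continuous_const.mul hpc.abs).add (hpc.pow 2)
  have hf0 : ∀ x, 0 ≤ f x := fun x => by
    rw [hf]
    positivity
  have hfper : Function.Periodic f 1 := fun x => by
    rw [hf]
    simp only
    rw [hper]
  have hfint : ∫ x in (0 : ℝ)..1, f x ≤ 2 := by
    have i1 : IntervalIntegrable (fun x => δ'⁻¹ * |p x|) volume 0 1 :=
      (continuous_const.mul hpc.abs).intervalIntegrable _ _
    have i2 : IntervalIntegrable (fun x => p x ^ 2) volume 0 1 :=
      (hpc.pow 2).intervalIntegrable _ _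
    have e : ∫ x in (0 : ℝ)..1, f x = ∫ x in (0 : ℝ)..1, (δ'⁻¹ * |p x| + p x ^ 2) := rfl
    rw [e, intervalIntegral.integral_add i1 i2, intervalIntegral.integral_const_mul, hp2]
    have : δ'⁻¹ * ∫ x in (0 : ℝ)..1, |p x| ≤ δ'⁻¹ * δ' := by gcongr
    rw [inv_mul_cancel₀ hδ'0.ne'] at this
    linarith
  have hprob : IsProbabilityMeasure (volume.restrict (Ioc (0 : ℝ) 1)) := ⟨by simp⟩
  have hK0m : volume K0 < ⊤ := K0_compact.measure_lt_top
  obtain ⟨Mf, hMf⟩ := (hfper.isBounded_of_continuous one_ne_zero hfc).exists_norm_le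
  have hMf' : ∀ x, ‖f x‖ ≤ Mf := fun x => hMf _ ⟨x, rfl⟩
  have hprod : Integrable (Function.uncurry fun (a : ℝ) (w : E3) => f (n * qq w + a))
      ((volume.restrict (Ioc (0 : ℝ) 1)).prod (volume.restrict K0)) := by
    have : IsFiniteMeasure (volume.restrict K0) := ⟨by simpa using hK0m⟩
    have hc : Continuous (Function.uncurry fun (a : ℝ) (w : E3) => f (n * qq w + a)) := by
      have := qq_cd.continuous
      exact hfc.comp ((continuous_const.mul (this.comp continuous_snd)).add continuous_fst)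
    exact Integrable.of_bound hc.aestronglyMeasurable Mf (Eventually.of_forall fun x => hMf' _)
  obtain ⟨a, ha⟩ := exists_le_integral (μ := volume.restrict (Ioc (0 : ℝ) 1))
    (f := fun a => ∫ w in K0, f (n * qq w + a)) hprod.integral_prod_left
  have hshift : ∀ b : ℝ, ∫ a in Ioc (0 : ℝ) 1, f (b + a) = ∫ x in (0 : ℝ)..1, f x := by
    intro b
    rw [← intervalIntegral.integral_of_le zero_le_one,
      intervalIntegral.integral_comp_add_left f b, add_zero, hfper.intervalIntegral_add_eq b 0,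
      zero_add]
  have hav : ∫ a in Ioc (0 : ℝ) 1, ∫ w in K0, f (n * qq w + a) ≤ 2 * V := by
    rw [integral_integral_swap hprod]
    simp only [hshift]
    rw [setIntegral_const, smul_eq_mul]
    have : (0 : ℝ) ≤ volume.real K0 := by positivity
    calc volume.real K0 * _ ≤ volume.real K0 * 2 := by gcongr
      _ = 2 * V := by
        rw [hV]
        unfold Measure.real
        ring
  have ha2 : ∫ w in K0, f (n * qq w + a) ≤ 2 * V := ha.trans hav
  -- the profile
  set g : ℝ → ℝ := fun t => gb t * p (n * t + a) with hg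
  have hgp : Pro g := by
    refine ⟨gb_cd.mul (hp.comp ((contDiff_const.mul contDiff_id).add contDiff_const)),
      fun t ht => ?_⟩
    rw [hg]
    simp only
    rw [gb_zero ht, zero_mul]
  have hgK : ∀ w : E3, w ∉ K0 → g (qq w) = 0 := fun w hw => gq_off hgp fun h => hw h.2
  have hpK : Continuous fun w : E3 => p (n * qq w + a) :=
    hpc.comp ((continuous_const.mul qq_cd.continuous).add continuous_const)
  have hgbK : Continuous fun w : E3 => gb (qq w) := gb_cd.continuous.comp qq_cd.continuous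
  have hgc : Continuous fun w : E3 => g (qq w) := hgbK.mul hpK
  have i1 : IntegrableOn (fun w : E3 => |p (n * qq w + a)|) K0 :=
    hpK.abs.continuousOn.integrableOn_compact K0_compact
  have i2 : IntegrableOn (fun w : E3 => p (n * qq w + a) ^ 2) K0 :=
    (hpK.pow 2).continuousOn.integrableOn_compact K0_compact
  have hsplit : ∫ w in K0, f (n * qq w + a) = δ'⁻¹ * (∫ w in K0, |p (n * qq w + a)|)
      + ∫ w in K0, p (n * qq w + a) ^ 2 := by
    rw [hf, integral_add (i1.const_mul _) i2, integral_const_mul]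
  have p1 : 0 ≤ ∫ w in K0, |p (n * qq w + a)| := integral_nonneg fun w => abs_nonneg _
  have p2 : 0 ≤ ∫ w in K0, p (n * qq w + a) ^ 2 := integral_nonneg fun w => sq_nonneg _
  refine ⟨g, hgp, fun t => ?_, ?_, ?_⟩
  · have e : Qg g t - Qg gb t = ∫ τ in (1 : ℝ)..t, wg τ * (p (n * τ + a) ^ 2 - 1) := by
      unfold Qg
      rw [← intervalIntegral.integral_sub]
      · congr 1
        funext τ
        rw [hg]
        unfold wg
        ring
      · exact ((hgp.cd.continuous.pow 2).mul ct8_cd.continuous).intervalIntegrable _ _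
      · exact ((gb_cd.continuous.pow 2).mul ct8_cd.continuous).intervalIntegrable _ _
    rw [e]
    exact (hosc n hn1 a t).trans hnB
  · have h1 : ρ1 g ≤ ∫ w in K0, |p (n * qq w + a)| := by
      unfold ρ1
      have e : ∫ w : E3, |g (qq w)| = ∫ w in K0, |g (qq w)| := by
        symm
        apply setIntegral_eq_integral_of_forall_compl_eq_zero
        intro w hw
        rw [hgK w hw, abs_zero]
      rw [e]
      refine setIntegral_mono (hgc.abs.continuousOn.integrableOn_compact K0_compact) i1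
        fun w => ?_
      simp only [hg]
      rw [abs_mul, abs_of_nonneg (gb_nonneg _)]
      calc gb (qq w) * |p (n * qq w + a)| ≤ 1 * |p (n * qq w + a)| := by
            gcongr
            exact gb_le_one _
        _ = _ := one_mul _
    have h2 : δ'⁻¹ * (∫ w in K0, |p (n * qq w + a)|) ≤ 2 * V := by linarith
    have h3 : ∫ w in K0, |p (n * qq w + a)| ≤ δ' * (2 * V) := by
      calc ∫ w in K0, |p (n * qq w + a)| = δ' * (δ'⁻¹ * ∫ w in K0, |p (n * qq w + a)|) := by
            rw [← mul_assoc, mul_inv_cancel₀ hδ'0.ne', one_mul]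
        _ ≤ _ := by gcongr
    refine h1.trans (h3.trans ?_)
    rw [hδ', div_mul_eq_mul_div, div_le_iff₀ (by positivity)]
    have : 0 ≤ V := by positivity
    nlinarith
  · have h1 : ρ2 g ≤ ∫ w in K0, p (n * qq w + a) ^ 2 := by
      unfold ρ2
      have e : ∫ w : E3, g (qq w) ^ 2 = ∫ w in K0, g (qq w) ^ 2 := by
        symm
        apply setIntegral_eq_integral_of_forall_compl_eq_zero
        intro w hw
        rw [hgK w hw]
        ring
      rw [e]
      refine setIntegral_mono ((hgc.pow 2).continuousOn.integrableOn_compact K0_compact) i2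
        fun w => ?_
      simp only [hg]
      rw [mul_pow]
      have h3 : gb (qq w) ^ 2 ≤ 1 := by
        have := gb_nonneg (qq w)
        have := gb_le_one (qq w)
        nlinarith
      calc gb (qq w) ^ 2 * p (n * qq w + a) ^ 2 ≤ 1 * p (n * qq w + a) ^ 2 := by gcongr
        _ = _ := one_mul _
    have h4 : 0 ≤ δ'⁻¹ * ∫ w in K0, |p (n * qq w + a)| := by positivity
    linarith

end Pool.Agent.J4H18.DN
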