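import Pool.Agent.J4H18.DN.L10
import Pool.Agent.J4H18.DN.L11

/-!
One round: an oscillating field with a concentrated profile and its correction. Every multiple of a
torus field is reached with an error which is small in the dual norm.
-/

set_option autoImplicit false
set_option linter.unusedSectionVars false

open MeasureTheory Set Filter Topology
open scoped InnerProductSpace ENNReal ContDiff NNReal

namespace Pool.Agent.J4H18.DN

open H772R2.NS
open Pool.Agent.W795.TQ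
open Pool.Agent.Y303.LV (cl clj clj_coe)

variable {ν s T : ℝ} {Ω : Set E3} {Λ : L2V Ω →L[ℝ] L2M Ω} {F F1 : ℝ → L2M Ω}
  {k g g' v0 : E3 → E3} {v : ℝ → L2V Ω}

/-- **Profiles with close weights give close torus fields.** -/
theorem close_prof (hb : Bornology.IsBounded Ω) (hΛ : IsLam (graphW Ω) Λ) (R : E3 ≃ₗᵢ[ℝ] E3)
    (y : E3) (hs : 0 < s) : ∃ C : ℝ, 0 ≤ C ∧ ∀ g, Pro g → ∀ δ, 0 ≤ δ →
      (∀ t, |Qg g t - Qg gb t| ≤ δ) →
      ‖Λ (cl Ω (vec (rot R y s (hhg g)))) - Λ (cl Ω (vec (rot R y s hh)))‖ ≤ C * δ := by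
  have hc : ∀ a b, Continuous fun w : E3 => Wt w * (YY a w * e2 b - e2 a * YY b w) := fun a b =>
    Wt_cd.continuous.mul (YE_cd a b).continuous
  choose M0 hM0 using fun (p : Fin 3 × Fin 3) =>
    K0_compact.exists_bound_of_continuousOn (hc p.1 p.2).continuousOn
  set M : ℝ := ∑ p, |M0 p| with hM
  have hM0' : 0 ≤ M := Finset.sum_nonneg fun p _ => abs_nonneg _
  have hMp : ∀ p, |M0 p| ≤ M := fun p =>
    Finset.single_le_sum (f := fun p => |M0 p|) (fun p _ => abs_nonneg _) (Finset.mem_univ p)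
  set Kb : Set E3 := Metric.closedBall y (4 * s) with hKb
  refine ⟨9 * s * M * √(9 * (volume Kb).toReal), by positivity, fun g hg δ hδ hQ => ?_⟩
  have h1 : ∀ a b w, |Tg g a b w - Tg gb a b w| ≤ M * δ := by
    intro a b w
    by_cases hw : w ∈ K0
    · have e : Tg g a b w - Tg gb a b w = 1 / 2 * (Qg g (qq w) - Qg gb (qq w))
          * (Wt w * (YY a w * e2 b - e2 a * YY b w)) := by
        unfold Tg Fg
        ring
      rw [e, abs_mul, abs_mul, abs_of_pos (by norm_num : (0 : ℝ) < 1 / 2)]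
      have h2 := hM0 (a, b) w hw
      rw [Real.norm_eq_abs] at h2
      have h3 : |Wt w * (YY a w * e2 b - e2 a * YY b w)| ≤ M :=
        (h2.trans (le_abs_self _)).trans (hMp (a, b))
      have h4 := hQ (qq w)
      calc 1 / 2 * |Qg g (qq w) - Qg gb (qq w)| * |Wt w * (YY a w * e2 b - e2 a * YY b w)|
          ≤ 1 * δ * M := by
            gcongr
            norm_num
        _ = M * δ := by ring
    · rw [(Tg_amp hg a b).off w hw, (Tg_amp gb_pro a b).off w hw, sub_zero, abs_zero]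
      positivity
  have h2 : ∀ i j x, |1 * TS g R y s i j x + -1 * TS gb R y s i j x| ≤ 9 * s * M * δ := by
    intro i j x
    have e : 1 * TS g R y s i j x + -1 * TS gb R y s i j x = s * ∑ a, ∑ b, ent R a i * ent R b j
        * (Tg g a b (TT R y s x) - Tg gb a b (TT R y s x)) := by
      rw [TS_eq, TS_eq]
      simp only [Fin.sum_univ_three]
      ring
    rw [e, abs_mul, abs_of_pos hs]
    have h3 : ∀ a b, |ent R a i * ent R b j * (Tg g a b (TT R y s x) - Tg gb a b (TT R y s x))|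
        ≤ M * δ := by
      intro a b
      rw [abs_mul, abs_mul]
      have e1 := ent_le R a i
      have e2 := ent_le R b j
      have e3 : |ent R a i| * |ent R b j| ≤ 1 * 1 :=
        mul_le_mul e1 e2 (abs_nonneg _) zero_le_one
      calc _ ≤ 1 * 1 * (M * δ) := mul_le_mul e3 (h1 a b _) (abs_nonneg _) (by norm_num)
        _ = _ := by ring
    have h4 : |∑ a, ∑ b, ent R a i * ent R b j
        * (Tg g a b (TT R y s x) - Tg gb a b (TT R y s x))| ≤ ∑ a : Fin 3, ∑ b : Fin 3, M * δ :=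
      (Finset.abs_sum_le_sum_abs _ _).trans (Finset.sum_le_sum fun a _ =>
        (Finset.abs_sum_le_sum_abs _ _).trans (Finset.sum_le_sum fun b _ => h3 a b))
    have h5 : ∑ a : Fin 3, ∑ b : Fin 3, M * δ = 9 * (M * δ) := by
      simp
      ring
    rw [h5] at h4
    calc s * _ ≤ s * (9 * (M * δ)) := by gcongr
      _ = _ := by ring
  have cd1 := TS_cd hg R y s
  have cd2 := TS_cd gb_pro R y s
  have o1 : ∀ i j x, x ∉ Kb → TS g R y s i j x = 0 := fun i j x hx => TS_off hg R y hs i j hx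
  have o2 : ∀ i j x, x ∉ Kb → TS gb R y s i j x = 0 := fun i j x hx =>
    TS_off gb_pro R y hs i j hx
  have hKc : IsCompact Kb := isCompact_closedBall _ _
  have h3 := lam_DG_bd hb hΛ hKc (G := fun i j x => 1 * TS g R y s i j x + -1 * TS gb R y s i j x)
    (fun i j => (contDiff_const.mul (cd1 i j)).add (contDiff_const.mul (cd2 i j)))
    (fun i j x hx => by rw [o1 i j x hx, o2 i j x hx]; ring)
    (M := 9 * s * M * δ) (by positivity) h2
  rw [cl_DG_lin hKc cd1 o1 cd2 o2, DG_TS hg R y hs, DG_TS gb_pro R y hs, map_add, map_smul,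
    map_smul, one_smul, neg_one_smul, ← sub_eq_add_neg] at h3
  refine h3.trans (le_of_eq ?_)
  ring

/-- one round for a field -/
def OneR (Λ : L2V Ω →L[ℝ] L2M Ω) (ν T : ℝ) (F : ℝ → L2M Ω) (k : E3 → E3) (ρ π' : ℝ) : Prop :=
  ∀ (v0 : E3 → E3) (v : ℝ → L2V Ω), SolT Ω ν T F v0 v → ∀ ε : ℝ, 0 < ε →
    ∃ (w0 e : E3 → E3) (u : ℝ → L2V Ω), SolT Ω ν T F w0 u ∧ IsTest Ω e ∧
      (∀ x, w0 x = v0 x + k x + e x) ∧ (∀ t ∈ Icc ε T, ‖u t - v t‖ ≤ ε) ∧ ‖Λ (cl Ω e)‖ ≤ ρ ∧
      ∀ t ∈ Icc 0 T, ‖u t - v t‖ ≤ ε ∨ ∃ l : ℝ, 0 ≤ l ∧ l ≤ 1 ∧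
        ‖Λ (u t - cl Ω v0 - l • cl Ω k)‖ ≤ π'

/-- **One round.** -/
theorem round (hloc : S_loc) (hun : S_univ) (hΩ : IsOpen Ω) (hb : Bornology.IsBounded Ω)
    (hΛ : IsLam (graphW Ω) Λ) (hν : 0 < ν) (hT : 0 < T) (hF : FH T F F1) :
    ∃ C1 C2 : ℝ, 0 ≤ C1 ∧ 0 ≤ C2 ∧ ∀ (φ : E3 → ℝ) (A B h : Fin 3 → E3 → ℝ) (P : E3 → ℝ)
      (S K : Set E3), Dat ν φ A B h P S K → K ⊆ Ω → ∀ κ, 0 < κ → κ ≤ 1 → ∀ ρ, 0 < ρ →
      (C1 * κ * √(SD A B)) ^ 2 + C2 * LD A B / κ + ρ ^ 2 / 2 ≤ ρ ^ 2 →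
      OneR Λ ν T F (vec h) ρ (√(2 * SD A B) + 3 * ρ) := by
  obtain ⟨C1, C2, hC1, hC2, hnear⟩ := near_hull hloc hun hΩ hb hΛ hν hT hF
  refine ⟨C1, C2, hC1, hC2, fun φ A B h P S K D hKΩ κ hκ hκ1 ρ hρ hsmall v0 v Sol ε hε => ?_⟩
  have hSD := SD_nonneg (A := A) (B := B)
  have hLD := LD_nonneg (A := A) (B := B)
  set X : ℝ := C1 * κ * √(SD A B) with hX
  have hX0 : 0 ≤ X := by positivity
  set Lk : ℝ := C2 * LD A B / κ with hLk
  have hLk0 : 0 ≤ Lk := by positivity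
  obtain ⟨δ, hδ, hδε, hsq⟩ := sq_small (R := X) (ε := ρ ^ 2 / 8) hX0 (by positivity)
  set r : ℝ := ‖Λ‖ + 1 with hr
  have hr0 : 0 < r := by positivity
  have hrΛ : ‖Λ‖ ≤ r := by linarith
  have hr1 : 1 ≤ r := by
    have := norm_nonneg Λ
    linarith
  set ε1 : ℝ := min (min (ε / 2) (ρ ^ 2 / 8)) (ρ / (2 * r)) with hε1
  have hε1p : 0 < ε1 := lt_min (lt_min (by positivity) (by positivity)) (by positivity)
  have hε1a : ε1 ≤ ε / 2 := (min_le_left _ _).trans (min_le_left _ _)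
  have hε1b : ε1 ≤ ρ ^ 2 / 8 := (min_le_left _ _).trans (min_le_right _ _)
  have hε1c : r * ε1 ≤ ρ / 2 := by
    calc r * ε1 ≤ r * (ρ / (2 * r)) := by
          gcongr
          exact min_le_right _ _
      _ = ρ / 2 := by field_simp
  have hε1d : ε1 ≤ ρ / 2 := le_trans (le_mul_of_one_le_left hε1p.le hr1) hε1c
  obtain ⟨N1, hN1, hst⟩ := stageL hloc hun hΩ hb hΛ hν hT hF Sol D hKΩ hε1p
  obtain ⟨N2, hN2, hnr⟩ := hnear φ A B h P S K D hKΩ κ hκ hκ1 (min δ (ρ ^ 2 / 8))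
    (lt_min hδ (by positivity))
  set N := max N1 N2 with hN
  have hN' : 1 ≤ N := hN1.trans (le_max_left _ _)
  obtain ⟨w1, u1, S1, a0, a1, a2⟩ := hst N (le_max_left _ _)
  obtain ⟨g, μ, hg, hμ, hy⟩ := hnr N (le_max_right _ _)
  have hET : IsTest Ω (EN φ A B N) := EN_test (v := fun _ _ => 0) hν D
    (fun j => contDiff_const) hKΩ hN'
  have hht : IsTest Ω (vec h) := test_of D.Kc hKΩ (fun i => (D.ha i).smooth)
    (fun i x hx => (D.ha i).off x fun h => hx (D.SK h)) D.hd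
  have hEn : ‖Λ (cl Ω (EN φ A B N))‖ ≤ √(2 * SD A B) :=
    (lam_EN hb hΛ D N).trans (Real.sqrt_le_sqrt (mD_le D N))
  set y : L2M Ω := Λ (cl Ω (EN φ A B N)) + Λ (cl Ω g) with hyd
  have hy1 : ‖y‖ ≤ X + δ := hy.trans (by
    have := min_le_left δ (ρ ^ 2 / 8)
    linarith)
  have hμ1 : μ ≤ Lk + ρ ^ 2 / 8 := hμ.trans (by
    have := min_le_right δ (ρ ^ 2 / 8)
    linarith)
  have hy2 : ‖y‖ ^ 2 ≤ X ^ 2 + ρ ^ 2 / 8 := by
    have h1 := pow_le_pow_left₀ (norm_nonneg y) hy1 2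
    have h2 := hsq X δ hX0 le_rfl hδ.le le_rfl
    linarith
  have hQP : QP Λ ν T F g μ := by
    have := hg.2.2 1
    simpa using this
  obtain ⟨w2, e2', u2, S2, t2, b0, b1, b2, b3⟩ := hQP w1 u1 S1 y ε1 hε1p
  have tg : IsTest Ω g := hg.1
  have clw1 : cl Ω w1 = cl Ω v0 + cl Ω (vec h) + cl Ω (EN φ A B N) := by
    have t5 : IsTest Ω (fun x => v0 x + vec h x) := Sol.test.add hht
    have e0 : w1 = fun x => (v0 x + vec h x) + EN φ A B N x := funext a0
    rw [e0, cl_add' t5 hET, cl_add' Sol.test hht]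
  have hyρ : ‖y‖ ≤ ρ := by
    have : ‖y‖ ^ 2 ≤ ρ ^ 2 := by
      have : 0 ≤ Lk := hLk0
      have : 0 < ρ ^ 2 := by positivity
      linarith
    exact (pow_le_pow_iff_left₀ (norm_nonneg y) hρ.le (by norm_num)).mp this
  have hfin : ∀ z : L2M Ω, ‖z‖ ^ 2 ≤ ‖y‖ ^ 2 + μ + ε1 → ‖z‖ ≤ ρ := by
    intro z hz
    have : ‖z‖ ^ 2 ≤ ρ ^ 2 := by
      have : 0 < ρ ^ 2 := by positivity
      linarith
    exact (pow_le_pow_iff_left₀ (norm_nonneg z) hρ.le (by norm_num)).mp this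
  refine ⟨w2, fun x => EN φ A B N x + (g x + e2' x), u2, S2, hET.add (tg.add t2),
    fun x => ?_, fun t ht => ?_, ?_, fun t ht => ?_⟩
  · rw [b0, a0]
    beta_reduce
    abel
  · have ht' : t ∈ Icc ε1 T := ⟨by linarith [ht.1], ht.2⟩
    have e : u2 t - v t = (u2 t - u1 t) + (u1 t - v t) := by abel
    rw [e]
    refine (norm_add_le _ _).trans ?_
    linarith [a1 t ht', b1 t ht']
  · have t6 : IsTest Ω (fun x => g x + e2' x) := tg.add t2
    have e : Λ (cl Ω fun x => EN φ A B N x + (g x + e2' x)) = y + Λ (cl Ω e2') := by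
      rw [cl_add' hET t6, cl_add' tg t2, map_add, map_add, hyd]
      abel
    rw [e]
    exact hfin _ b2
  · rcases b3 t ht with c1 | ⟨l, l0, l1, c1⟩
    · rcases a2 t ht with d1 | ⟨l, q, l0, l1, q0, q1, d1⟩
      · left
        have e : u2 t - v t = (u2 t - u1 t) + (u1 t - v t) := by abel
        rw [e]
        refine (norm_add_le _ _).trans ?_
        linarith
      · right
        refine ⟨l, l0, l1, ?_⟩
        have e : Λ (u2 t - cl Ω v0 - l • cl Ω (vec h))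
            = (Λ (u1 t - cl Ω v0 - l • cl Ω (vec h)) - q • Λ (cl Ω (EN φ A B N)))
              + (q • Λ (cl Ω (EN φ A B N)) + Λ (u2 t - u1 t)) := by
          simp only [map_sub, map_smul]
          abel
        rw [e]
        refine (norm_add_le _ _).trans ?_
        have h1 := norm_add_le (q • Λ (cl Ω (EN φ A B N))) (Λ (u2 t - u1 t))
        have h2 : ‖q • Λ (cl Ω (EN φ A B N))‖ ≤ √(2 * SD A B) := by
          rw [norm_smul, Real.norm_of_nonneg q0]
          calc q * ‖Λ (cl Ω (EN φ A B N))‖ ≤ 1 * √(2 * SD A B) := by gcongr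
            _ = _ := one_mul _
        have h3 : ‖Λ (u2 t - u1 t)‖ ≤ r * ε1 := (Λ.le_opNorm _).trans (by gcongr)
        linarith
    · right
      refine ⟨1, zero_le_one, le_rfl, ?_⟩
      have e : Λ (u2 t - cl Ω v0 - (1 : ℝ) • cl Ω (vec h))
          = (y + Λ (u2 t - cl Ω w1 - l • cl Ω g)) + (l - 1) • (y - Λ (cl Ω (EN φ A B N))) := by
        rw [clw1, hyd, one_smul]
        simp only [map_sub, map_add, map_smul, sub_smul, smul_sub, smul_add, one_smul]
        abel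
      rw [e]
      refine (norm_add_le _ _).trans ?_
      have h1 := hfin _ c1
      have h2 : ‖(l - 1) • (y - Λ (cl Ω (EN φ A B N)))‖ ≤ ρ + √(2 * SD A B) := by
        rw [norm_smul, Real.norm_eq_abs, abs_of_nonpos (by linarith)]
        have h3 := norm_sub_le y (Λ (cl Ω (EN φ A B N)))
        calc -(l - 1) * ‖y - Λ (cl Ω (EN φ A B N))‖ ≤ 1 * (ρ + √(2 * SD A B)) := by
              gcongr
              · linarith
              · linarith
          _ = _ := one_mul _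
      linarith

/-- several rounds -/
theorem OneR.iter (hk : IsTest Ω k) {ρ π' : ℝ} (h : OneR Λ ν T F k ρ π') (hρ : 0 ≤ ρ)
    (Sol : SolT Ω ν T F v0 v) {ε : ℝ} (hε : 0 < ε) (n : ℕ) :
    ∃ (w0 e : E3 → E3) (u : ℝ → L2V Ω), SolT Ω ν T F w0 u ∧ IsTest Ω e ∧
      (∀ x, w0 x = v0 x + (n : ℝ) • k x + e x) ∧ (∀ t ∈ Icc ε T, ‖u t - v t‖ ≤ n * ε) ∧
      ‖Λ (cl Ω e)‖ ≤ n * ρ ∧
      ∀ t ∈ Icc 0 T, ‖u t - v t‖ ≤ n * ε ∨ ∃ l : ℝ, 0 ≤ l ∧ l ≤ n ∧
        ‖Λ (u t - cl Ω v0 - l • cl Ω k)‖ ≤ π' + n * ρ + ‖Λ‖ * (n * ε) := by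
  have hv0 := Sol.test
  have hΛ0 := norm_nonneg Λ
  induction n with
  | zero =>
    refine ⟨v0, fun _ => 0, v, Sol, zero_test, fun x => ?_, fun t _ => ?_, ?_,
      fun t _ => Or.inl ?_⟩
    · simp
    · simp
    · rw [cl_zero, map_zero, norm_zero]
      simp
    · simp
  | succ n ih =>
    obtain ⟨w, e, u, S1, t1, a0, a1, a2, a3⟩ := ih
    obtain ⟨w', e', u', S2, t2, b0, b1, b2, b3⟩ := h w u S1 ε hε
    have hn0 : (0 : ℝ) ≤ n := Nat.cast_nonneg n
    have clw : cl Ω w = cl Ω v0 + (n : ℝ) • cl Ω k + cl Ω e := by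
      have t3 : IsTest Ω (fun x => (n : ℝ) • k x) := hk.smul _
      have t4 : IsTest Ω (fun x => v0 x + (n : ℝ) • k x) := hv0.add t3
      have e0 : w = fun x => (v0 x + (n : ℝ) • k x) + e x := funext a0
      rw [e0, cl_add' t4 t1, cl_add' hv0 t3, cl_smul' hk]
    refine ⟨w', fun x => e x + e' x, u', S2, t1.add t2, fun x => ?_, fun t ht => ?_, ?_,
      fun t ht => ?_⟩
    · rw [b0, a0]
      push_cast
      rw [add_smul, one_smul]
      beta_reduce
      abel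
    · have e1 : u' t - v t = (u' t - u t) + (u t - v t) := by abel
      rw [e1]
      refine (norm_add_le _ _).trans ?_
      push_cast
      linarith [a1 t ht, b1 t ht]
    · rw [cl_add' t1 t2, map_add]
      refine (norm_add_le _ _).trans ?_
      push_cast
      linarith
    · have e1 : u' t - v t = (u' t - u t) + (u t - v t) := by abel
      push_cast
      rcases b3 t ht with h1 | ⟨l, l0, l1, c1⟩
      · rcases a3 t ht with h2 | ⟨l, l0, l1, h2⟩
        · left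
          rw [e1]
          refine (norm_add_le _ _).trans ?_
          linarith
        · right
          refine ⟨l, l0, by linarith, ?_⟩
          have e2 : Λ (u' t - cl Ω v0 - l • cl Ω k) = Λ (u t - cl Ω v0 - l • cl Ω k)
              + Λ (u' t - u t) := by
            simp only [map_sub]
            abel
          rw [e2]
          refine (norm_add_le _ _).trans ?_
          have h3 : ‖Λ (u' t - u t)‖ ≤ ‖Λ‖ * ε := (Λ.le_opNorm _).trans (by gcongr)
          have e3 : ‖Λ‖ * (((n : ℝ) + 1) * ε) = ‖Λ‖ * (n * ε) + ‖Λ‖ * ε := by ring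
          linarith
      · right
        refine ⟨n + l, by linarith, by linarith, ?_⟩
        have e2 : Λ (u' t - cl Ω v0 - ((n : ℝ) + l) • cl Ω k)
            = Λ (u' t - cl Ω w - l • cl Ω k) + Λ (cl Ω e) := by
          rw [clw, add_smul]
          simp only [map_sub, map_add]
          abel
        rw [e2]
        refine (norm_add_le _ _).trans ?_
        have h4 : 0 ≤ ‖Λ‖ * (((n : ℝ) + 1) * ε) := by positivity
        linarith

/-- the property of a change of the initial velocity, with an error which is small in the dual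
norm and with the control of the solution at all times -/
def RV (Λ : L2V Ω →L[ℝ] L2M Ω) (ν T : ℝ) (F : ℝ → L2M Ω) (g : E3 → E3) : Prop :=
  ∀ (v0 : E3 → E3) (v : ℝ → L2V Ω), SolT Ω ν T F v0 v → ∀ ε : ℝ, 0 < ε →
    ∃ (w0 e : E3 → E3) (u : ℝ → L2V Ω), SolT Ω ν T F w0 u ∧ IsTest Ω e ∧
      (∀ x, w0 x = v0 x + g x + e x) ∧ (∀ t ∈ Icc ε T, ‖u t - v t‖ ≤ ε) ∧ ‖Λ (cl Ω e)‖ ≤ ε ∧
      ∀ t ∈ Icc 0 T, ‖u t - v t‖ ≤ ε ∨ ∃ l : ℝ, 0 ≤ l ∧ l ≤ 1 ∧
        ‖Λ (u t - cl Ω v0 - l • cl Ω g)‖ ≤ ε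

theorem RV.zero : RV Λ ν T F (fun _ => 0) := by
  intro v0 v S ε hε
  refine ⟨v0, fun _ => 0, v, S, zero_test, fun x => by simp, fun t _ => ?_, ?_,
    fun t _ => Or.inl ?_⟩
  · rw [sub_self, norm_zero]
    exact hε.le
  · rw [cl_zero, map_zero, norm_zero]
    exact hε.le
  · rw [sub_self, norm_zero]
    exact hε.le

/-- **Every multiple of a torus field is reached.** -/
theorem RV.torus (hloc : S_loc) (hun : S_univ) (hΩ : IsOpen Ω) (hb : Bornology.IsBounded Ω)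
    (hΛ : IsLam (graphW Ω) Λ) (hν : 0 < ν) (hT : 0 < T) (hF : FH T F F1)
    (R : E3 ≃ₗᵢ[ℝ] E3) (y : E3) (hs : 0 < s) (hB : Metric.closedBall y (4 * s) ⊆ Ω) (c : ℝ) :
    RV Λ ν T F (fun x => c • vec (rot R y s hh) x) := by
  intro v0 v Sol ε hε
  obtain ⟨C1, C2, hC1, hC2, hround⟩ := round hloc hun hΩ hb hΛ hν hT hF
  obtain ⟨C0, hC0, hD⟩ := dat_g hν
  obtain ⟨C3, hC3, hprof⟩ := exists_prof
  obtain ⟨C4, hC4, hclose⟩ := close_prof hb hΛ R y hs
  have ht0 := torus_test R y hs hB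
  -- the number of rounds
  set a : ℝ := C0 ^ 2 * |c| * s ^ 4 * C3 with ha
  have ha0 : 0 ≤ a := by positivity
  obtain ⟨n, hn⟩ : ∃ n : ℕ, 2 * a ≤ (ε / 8) ^ 2 * ((n : ℝ) + 1) := by
    obtain ⟨n, hn⟩ := exists_nat_ge (2 * a / (ε / 8) ^ 2)
    refine ⟨n, ?_⟩
    have h2 : 0 < (ε / 8) ^ 2 := by positivity
    rw [div_le_iff₀ h2] at hn
    nlinarith
  set m : ℝ := (n : ℝ) + 1 with hm
  have hm0 : 0 < m := by positivity
  have hm1 : 1 ≤ m := by
    have : (0 : ℝ) ≤ n := Nat.cast_nonneg n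
    linarith
  set ρ : ℝ := ε / (32 * m) with hρ
  have hρ0 : 0 < ρ := by positivity
  have hmρ : m * ρ = ε / 32 := by
    rw [hρ]
    field_simp
  have hρε : ρ ≤ ε / 32 := by
    rw [← hmρ]
    exact le_mul_of_one_le_left hρ0.le hm1
  -- the parameter κ
  set κ : ℝ := min 1 (ρ / (2 * (C1 * √a + 1))) with hκ
  have hκ0 : 0 < κ := lt_min one_pos (by positivity)
  have hκ1 : κ ≤ 1 := min_le_left _ _
  have hκX : C1 * κ * √a ≤ ρ / 2 := by
    have h1 : κ ≤ ρ / (2 * (C1 * √a + 1)) := min_le_right _ _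
    rw [le_div_iff₀ (by positivity)] at h1
    nlinarith
  -- the profile
  set b : ℝ := C2 * (C0 * √(|c| * s) * s ^ 3) with hb'
  have hb0 : 0 ≤ b := by positivity
  set δ : ℝ := min (ρ ^ 2 * κ / (4 * (b + 1))) (ε / (4 * (|c| * C4 + 1))) with hδ
  have hδ0 : 0 < δ := lt_min (by positivity) (by positivity)
  have hδ1 : b * δ / κ ≤ ρ ^ 2 / 4 := by
    have h1 : δ ≤ ρ ^ 2 * κ / (4 * (b + 1)) := min_le_left _ _
    rw [le_div_iff₀ (by positivity)] at h1
    rw [div_le_iff₀ hκ0]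
    nlinarith
  have hδ2 : |c| * (C4 * δ) ≤ ε / 4 := by
    have h1 : δ ≤ ε / (4 * (|c| * C4 + 1)) := min_le_right _ _
    rw [le_div_iff₀ (by positivity)] at h1
    nlinarith
  obtain ⟨g, hg, hgQ, hg1, hg2⟩ := hprof δ hδ0
  obtain ⟨φ, A, B, P, S, K, D, hK, hSD, hLD⟩ := hD g hg R y s hs (c / m)
  have hcm : |c / m| = |c| / m := by rw [abs_div, abs_of_pos hm0]
  have hSD' : SD A B ≤ a / m := by
    refine hSD.trans ?_
    rw [hcm, ha]
    calc C0 ^ 2 * (|c| / m) * s ^ 4 * ρ2 g ≤ C0 ^ 2 * (|c| / m) * s ^ 4 * C3 := by gcongr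
      _ = _ := by ring
  have hSDa : SD A B ≤ a := hSD'.trans (div_le_self ha0 hm1)
  have hLD' : C2 * LD A B ≤ b * δ := by
    rw [hb', mul_assoc]
    refine mul_le_mul_of_nonneg_left (hLD.trans ?_) hC2
    have h1 : √(|c / m| * s) ≤ √(|c| * s) := by
      refine Real.sqrt_le_sqrt ?_
      rw [hcm]
      have := div_le_self (abs_nonneg c) hm1
      gcongr
    have h2 := ρ1_nonneg (g := g)
    gcongr
  have hcond : (C1 * κ * √(SD A B)) ^ 2 + C2 * LD A B / κ + ρ ^ 2 / 2 ≤ ρ ^ 2 := by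
    have h1 : C1 * κ * √(SD A B) ≤ ρ / 2 := (by
      gcongr : C1 * κ * √(SD A B) ≤ C1 * κ * √a).trans hκX
    have h2 := pow_le_pow_left₀ (by positivity) h1 2
    have h3 : C2 * LD A B / κ ≤ b * δ / κ := by gcongr
    nlinarith
  have hone := hround φ A B _ P S K D (hK.trans hB) κ hκ0 hκ1 ρ hρ0 hcond
  have hSD2 : √(2 * SD A B) ≤ ε / 8 := by
    rw [Real.sqrt_le_left (by positivity)]
    have h1 : 2 * SD A B ≤ 2 * a / m := by
      rw [mul_div_assoc]
      gcongr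
    refine h1.trans ?_
    rw [div_le_iff₀ hm0]
    exact hn
  -- the field of one round
  set k : E3 → E3 := vec fun i x => c / m * rot R y s (hhg g) i x with hk
  have hkt : IsTest Ω k := test_of D.Kc (hK.trans hB) (fun i => (D.ha i).smooth)
    (fun i x hx => (D.ha i).off x fun h => hx (D.SK h)) D.hd
  set hG : E3 → E3 := vec (rot R y s (hhg g)) with hhG
  have hGt : IsTest Ω hG := by
    refine test_of (isCompact_closedBall y (4 * s)) hB (fun i => (Amp.rot (hhg_amp hg) i).smooth)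
      (fun i x hx => ?_) fun x => ?_
    · refine (Amp.rot (R := R) (y := y) (s := s) (hhg_amp hg) i).off x fun h => hx ?_
      exact pre_K0 R y hs (S0_K0 h)
    · obtain ⟨φ', A', B', P', S', K', D', -⟩ := hD g hg R y s hs 1
      have := D'.hd x
      simpa using this
  have hkG : k = fun x => (c / m) • hG x := by
    funext x
    ext i
    rfl
  set ε1 : ℝ := ε / (8 * m * (‖Λ‖ + 1)) with hε1
  have hΛ0 := norm_nonneg Λ
  have hε1p : 0 < ε1 := by positivity
  have hmε : ‖Λ‖ * (m * ε1) ≤ ε / 8 := by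
    have e : m * ε1 = ε / 8 / (‖Λ‖ + 1) := by
      rw [hε1]
      field_simp
    rw [e, ← mul_div_assoc, div_le_iff₀ (by positivity)]
    nlinarith
  have hmε' : m * ε1 ≤ ε := by
    have e : m * ε1 = ε / 8 / (‖Λ‖ + 1) := by
      rw [hε1]
      field_simp
    rw [e, div_le_iff₀ (by positivity)]
    nlinarith
  have h1ε : ε1 ≤ ε := le_trans (le_mul_of_one_le_left hε1p.le hm1) hmε'
  obtain ⟨w, e, u, S1, t1, a0, a1, a2, a3⟩ := hone.iter hkt hρ0.le Sol hε1p (n + 1)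
  have hcast : ((n + 1 : ℕ) : ℝ) = m := by
    push_cast
    rfl
  rw [hcast] at a0 a1 a2 a3
  have hmc : m * (c / m) = c := by field_simp
  -- the difference of the torus fields
  set d : E3 → E3 := fun x => c • (hG x + (-1 : ℝ) • vec (rot R y s hh) x) with hd
  have hdt0 : IsTest Ω (fun x => (-1 : ℝ) • vec (rot R y s hh) x) := ht0.smul (-1)
  have hdt1 : IsTest Ω (fun x => hG x + (-1 : ℝ) • vec (rot R y s hh) x) := hGt.add hdt0
  have hdt : IsTest Ω d := hdt1.smul c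
  have hΛd : Λ (cl Ω d) = c • (Λ (cl Ω hG) - Λ (cl Ω (vec (rot R y s hh)))) := by
    rw [hd, cl_smul' hdt1, cl_add' hGt hdt0, cl_smul' ht0, map_smul, map_add, map_smul,
      neg_one_smul, ← sub_eq_add_neg]
  have hdn : ‖Λ (cl Ω hG) - Λ (cl Ω (vec (rot R y s hh)))‖ ≤ C4 * δ := hclose g hg δ hδ0.le hgQ
  have hcd : |c| * ‖Λ (cl Ω hG) - Λ (cl Ω (vec (rot R y s hh)))‖ ≤ ε / 4 :=
    le_trans (by gcongr) hδ2
  refine ⟨w, fun x => e x + d x, u, S1, t1.add hdt, fun x => ?_, fun t ht => ?_, ?_,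
    fun t ht => ?_⟩
  · rw [a0, hkG]
    simp only [smul_smul, hmc, hd, smul_add]
    have : (c * -1) • vec (rot R y s hh) x = -(c • vec (rot R y s hh) x) := by
      rw [mul_neg_one, neg_smul]
    rw [this]
    abel
  · have := a1 t ⟨h1ε.trans ht.1, ht.2⟩
    linarith
  · rw [cl_add' t1 hdt, map_add, hΛd]
    refine (norm_add_le _ _).trans ?_
    rw [norm_smul, Real.norm_eq_abs]
    linarith
  · rcases a3 t ht with h1 | ⟨l, l0, l1, c1⟩
    · left
      linarith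
    · right
      refine ⟨l / m, by positivity, by rwa [div_le_one hm0], ?_⟩
      have e1 : Λ (u t - cl Ω v0 - (l / m) • cl Ω fun x => c • vec (rot R y s hh) x)
          = Λ (u t - cl Ω v0 - l • cl Ω k)
            + (l / m * c) • (Λ (cl Ω hG) - Λ (cl Ω (vec (rot R y s hh)))) := by
        rw [hkG, cl_smul' hGt, cl_smul' ht0]
        simp only [map_sub, map_smul, smul_smul, smul_sub]
        have : l * (c / m) = l / m * c := by ring
        rw [this]
        abel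
      rw [e1]
      refine (norm_add_le _ _).trans ?_
      rw [norm_smul, Real.norm_eq_abs, abs_mul, abs_of_nonneg (by positivity : 0 ≤ l / m)]
      have h2 : l / m * |c| * ‖Λ (cl Ω hG) - Λ (cl Ω (vec (rot R y s hh)))‖ ≤ ε / 4 := by
        have h3 : l / m ≤ 1 := by rwa [div_le_one hm0]
        calc l / m * |c| * ‖Λ (cl Ω hG) - Λ (cl Ω (vec (rot R y s hh)))‖
            ≤ 1 * |c| * ‖Λ (cl Ω hG) - Λ (cl Ω (vec (rot R y s hh)))‖ := by gcongr
          _ ≤ ε / 4 := by rw [one_mul]; exact hcd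
      linarith

end Pool.Agent.J4H18.DN
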