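import Pool.Agent.J4H18.DN.L12

/-!
Sums and the linear span.
-/

set_option autoImplicit false
set_option linter.unusedSectionVars false

open MeasureTheory Set Filter Topology
open scoped InnerProductSpace ENNReal ContDiff NNReal

namespace Pool.Agent.J4H18.DN

open H772R2.NS
open Pool.Agent.W795.TQ
open Pool.Agent.Y303.LV (cl clj clj_coe)

variable {ν s T : ℝ} {Ω : Set E3} {Λ : L2V Ω →L[ℝ] L2M Ω} {F F1 : ℝ → L2M Ω}
  {k g g' v0 : E3 → E3} {v : ℝ → L2V Ω}

/-- **Sums.** -/
theorem RV.add (tg : IsTest Ω g) (tg' : IsTest Ω g') (h : ∀ c : ℝ, RV Λ ν T F fun x => c • g x)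
    (h' : ∀ c : ℝ, RV Λ ν T F fun x => c • g' x) : RV Λ ν T F (fun x => g x + g' x) := by
  intro v0 v Sol ε hε
  have hv0 := Sol.test
  set B0 : ℝ := ‖Λ (cl Ω g)‖ + ‖Λ (cl Ω g')‖ with hB0
  have hB00 : 0 ≤ B0 := by positivity
  set r : ℝ := ‖Λ‖ + 1 with hr
  have hr0 : 0 < r := by positivity
  have hrΛ : ‖Λ‖ ≤ r := by linarith
  have hr1 : 1 ≤ r := by
    have := norm_nonneg Λ
    linarith
  obtain ⟨n, hn⟩ := exists_nat_ge (2 * B0 / ε)
  set m : ℝ := (n : ℝ) + 1 with hm
  have hm0 : 0 < m := by positivity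
  have hm1 : 1 ≤ m := by
    have : (0 : ℝ) ≤ n := Nat.cast_nonneg n
    linarith
  have hBm : B0 / m ≤ ε / 2 := by
    rw [div_le_iff₀ hε] at hn
    rw [div_le_iff₀ hm0]
    have : ε / 2 * m = (n * ε + ε) / 2 := by
      rw [hm]
      ring
    linarith
  have hBm0 : 0 ≤ B0 / m := by positivity
  -- `d` bounds both the errors and the changes of the solutions
  set ε1 : ℝ := ε / (4 * (2 * m + 1) * r) with hε1
  have hε1p : 0 < ε1 := by positivity
  set d : ℝ := r * ε1 with hd
  have hd0 : 0 < d := by positivity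
  have hdε : ε1 ≤ d := le_mul_of_one_le_left hε1p.le hr1
  have hmd : (2 * m + 1) * d = ε / 4 := by
    rw [hd, hε1]
    field_simp
  have tg2 : IsTest Ω (fun x => g x + g' x) := tg.add tg'
  -- the rounds
  have key : ∀ j : ℕ, ∃ (w0 e : E3 → E3) (u : ℝ → L2V Ω), SolT Ω ν T F w0 u ∧ IsTest Ω e ∧
      (∀ x, w0 x = v0 x + ((j : ℝ) / m) • (g x + g' x) + e x) ∧
      (∀ t ∈ Icc ε1 T, ‖u t - v t‖ ≤ 2 * j * ε1) ∧ ‖Λ (cl Ω e)‖ ≤ 2 * j * ε1 ∧
      ∀ t ∈ Icc 0 T, ‖u t - v t‖ ≤ 2 * j * ε1 ∨ ∃ l : ℝ, 0 ≤ l ∧ l ≤ j / m ∧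
        ‖Λ (u t - cl Ω v0 - l • cl Ω (fun x => g x + g' x))‖ ≤ 4 * j * d + B0 / m := by
    intro j
    induction j with
    | zero =>
      refine ⟨v0, fun _ => 0, v, Sol, zero_test, fun x => ?_, fun t _ => ?_, ?_,
        fun t _ => Or.inl ?_⟩
      · simp
      · simp
      · rw [cl_zero, map_zero, norm_zero]
        simp
      · simp
    | succ j ih =>
      obtain ⟨w, e, u, S1, t1, a0, a1, a2, a3⟩ := ih
      obtain ⟨w1, e1, u1, S2, t2, b0, b1, b2, b3⟩ := h (1 / m) w u S1 ε1 hε1p
      obtain ⟨w2, e2, u2, S3, t3, c0, c1, c2, c3⟩ := h' (1 / m) w1 u1 S2 ε1 hε1p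
      have hj0 : (0 : ℝ) ≤ j := Nat.cast_nonneg j
      have hjε : 0 ≤ 2 * (j : ℝ) * ε1 := by positivity
      have hjd : 2 * (j : ℝ) * ε1 ≤ 2 * (j : ℝ) * d := by gcongr
      have hjd0 : 0 ≤ (j : ℝ) * d := by positivity
      have hjm : (j : ℝ) / m ≤ (j + 1) / m := by gcongr; linarith
      have clw : cl Ω w = cl Ω v0 + ((j : ℝ) / m) • cl Ω (fun x => g x + g' x) + cl Ω e := by
        have t4 : IsTest Ω (fun x => ((j : ℝ) / m) • (g x + g' x)) := tg2.smul _
        have t5 : IsTest Ω (fun x => v0 x + ((j : ℝ) / m) • (g x + g' x)) := hv0.add t4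
        have e0 : w = fun x => (v0 x + ((j : ℝ) / m) • (g x + g' x)) + e x := funext a0
        rw [e0, cl_add' t5 t1, cl_add' hv0 t4, cl_smul' tg2]
      have clw1 : cl Ω w1 = cl Ω w + (1 / m) • cl Ω g + cl Ω e1 := by
        have t4 : IsTest Ω (fun x => (1 / m) • g x) := tg.smul _
        have t5 : IsTest Ω (fun x => w x + (1 / m) • g x) := S1.test.add t4
        have e0 : w1 = fun x => (w x + (1 / m) • g x) + e1 x := funext b0
        rw [e0, cl_add' t5 t2, cl_add' S1.test t4, cl_smul' tg]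
      have gm : ∀ (l : ℝ) (k : E3 → E3), 0 ≤ l → l ≤ 1 →
          ‖l • Λ ((1 / m) • cl Ω k)‖ ≤ ‖Λ (cl Ω k)‖ / m := by
        intro l k l0 l1
        rw [map_smul, norm_smul, norm_smul, Real.norm_of_nonneg l0,
          Real.norm_of_nonneg (by positivity)]
        calc l * (1 / m * ‖Λ (cl Ω k)‖) ≤ 1 * (1 / m * ‖Λ (cl Ω k)‖) := by gcongr
          _ = _ := by ring
      have hB0m : B0 / m = ‖Λ (cl Ω g)‖ / m + ‖Λ (cl Ω g')‖ / m := by
        rw [hB0, add_div]
      have pg : 0 ≤ ‖Λ (cl Ω g)‖ / m := by positivity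
      have pg' : 0 ≤ ‖Λ (cl Ω g')‖ / m := by positivity
      refine ⟨w2, fun x => e x + (e1 x + e2 x), u2, S3, t1.add (t2.add t3), fun x => ?_,
        fun t ht => ?_, ?_, fun t ht => ?_⟩
      · rw [c0, b0, a0]
        push_cast
        rw [add_div, add_smul, smul_add (1 / m)]
        beta_reduce
        abel
      · have e3 : u2 t - v t = (u2 t - u1 t) + ((u1 t - u t) + (u t - v t)) := by abel
        rw [e3]
        refine (norm_add_le _ _).trans ?_
        have := norm_add_le (u1 t - u t) (u t - v t)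
        push_cast
        linarith [a1 t ht, b1 t ht, c1 t ht]
      · push_cast
        have t6 : IsTest Ω (fun x => e1 x + e2 x) := t2.add t3
        rw [cl_add' t1 t6, cl_add' t2 t3, map_add, map_add]
        have q1 := norm_add_le (Λ (cl Ω e)) (Λ (cl Ω e1) + Λ (cl Ω e2))
        have q2 := norm_add_le (Λ (cl Ω e1)) (Λ (cl Ω e2))
        linarith
      · push_cast
        rcases c3 t ht with k1 | ⟨l, l0, l1, d1⟩
        · have h5 : ‖Λ (u2 t - u1 t)‖ ≤ d := (Λ.le_opNorm _).trans (by
            rw [hd]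
            gcongr)
          rcases b3 t ht with k2 | ⟨l, l0, l1, d1⟩
          · have h6 : ‖Λ (u1 t - u t)‖ ≤ d := (Λ.le_opNorm _).trans (by
              rw [hd]
              gcongr)
            rcases a3 t ht with k3 | ⟨l, l0, l1, k3⟩
            · left
              have e3 : u2 t - v t = (u2 t - u1 t) + ((u1 t - u t) + (u t - v t)) := by abel
              rw [e3]
              refine (norm_add_le _ _).trans ?_
              have := norm_add_le (u1 t - u t) (u t - v t)
              linarith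
            · right
              refine ⟨l, l0, l1.trans hjm, ?_⟩
              have e3 : Λ (u2 t - cl Ω v0 - l • cl Ω fun x => g x + g' x)
                  = Λ (u t - cl Ω v0 - l • cl Ω fun x => g x + g' x)
                    + (Λ (u2 t - u1 t) + Λ (u1 t - u t)) := by
                simp only [map_sub]
                abel
              rw [e3]
              refine (norm_add_le _ _).trans ?_
              have := norm_add_le (Λ (u2 t - u1 t)) (Λ (u1 t - u t))
              linarith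
          · right
            refine ⟨j / m, by positivity, hjm, ?_⟩
            have e4 : Λ (u2 t - cl Ω v0 - ((j : ℝ) / m) • cl Ω fun x => g x + g' x)
                = (Λ (u1 t - cl Ω w - l • cl Ω fun x => (1 / m) • g x) + Λ (u2 t - u1 t))
                  + (Λ (cl Ω e) + l • Λ ((1 / m) • cl Ω g)) := by
              rw [clw, cl_smul' tg]
              simp only [map_sub, map_add, map_smul]
              abel
            rw [e4]
            refine (norm_add_le _ _).trans ?_
            have q1 := norm_add_le (Λ (u1 t - cl Ω w - l • cl Ω fun x => (1 / m) • g x))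
              (Λ (u2 t - u1 t))
            have q2 := norm_add_le (Λ (cl Ω e)) (l • Λ ((1 / m) • cl Ω g))
            have q3 := gm l g l0 l1
            linarith
        · right
          refine ⟨j / m, by positivity, hjm, ?_⟩
          have e4 : Λ (u2 t - cl Ω v0 - ((j : ℝ) / m) • cl Ω fun x => g x + g' x)
              = (Λ (u2 t - cl Ω w1 - l • cl Ω fun x => (1 / m) • g' x) + Λ (cl Ω e1))
                + (Λ (cl Ω e) + ((1 : ℝ) • Λ ((1 / m) • cl Ω g)
                  + l • Λ ((1 / m) • cl Ω g'))) := by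
            rw [clw1, clw, cl_smul' tg', one_smul]
            simp only [map_sub, map_add, map_smul]
            abel
          rw [e4]
          refine (norm_add_le _ _).trans ?_
          have q1 := norm_add_le (Λ (u2 t - cl Ω w1 - l • cl Ω fun x => (1 / m) • g' x))
            (Λ (cl Ω e1))
          have q2 := norm_add_le (Λ (cl Ω e)) ((1 : ℝ) • Λ ((1 / m) • cl Ω g)
                  + l • Λ ((1 / m) • cl Ω g'))
          have q3 := norm_add_le ((1 : ℝ) • Λ ((1 / m) • cl Ω g)) (l • Λ ((1 / m) • cl Ω g'))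
          have q4 := gm 1 g zero_le_one le_rfl
          have q5 := gm l g' l0 l1
          linarith
  obtain ⟨w, e, u, S1, t1, a0, a1, a2, a3⟩ := key (n + 1)
  have hcast : ((n + 1 : ℕ) : ℝ) = m := by
    push_cast
    rfl
  rw [hcast] at a0 a1 a2 a3
  rw [div_self hm0.ne'] at a0 a3
  have hmε : 2 * m * ε1 ≤ ε := by
    have h1 : 2 * m * ε1 ≤ 2 * m * d := by gcongr
    have h2 : 2 * m * d ≤ (2 * m + 1) * d := by
      gcongr
      linarith
    linarith
  have h1ε : ε1 ≤ ε := by
    have h1 : 1 * ε1 ≤ 2 * m * ε1 := by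
      gcongr
      linarith
    linarith
  have hmd2 : 4 * m * d ≤ ε / 2 := by
    have : 4 * m * d ≤ 2 * ((2 * m + 1) * d) := by nlinarith
    linarith
  refine ⟨w, e, u, S1, t1, fun x => ?_, fun t ht => ?_, a2.trans hmε, fun t ht => ?_⟩
  · rw [a0, one_smul]
  · exact (a1 t ⟨h1ε.trans ht.1, ht.2⟩).trans hmε
  · rcases a3 t ht with k | ⟨l, l0, l1, k⟩
    · left
      linarith
    · right
      exact ⟨l, l0, l1, by linarith⟩

theorem span_RV (hloc : S_loc) (hun : S_univ) (hΩ : IsOpen Ω) (hb : Bornology.IsBounded Ω)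
    (hΛ : IsLam (graphW Ω) Λ) (hν : 0 < ν) (hT : 0 < T) (hF : FH T F F1) {G : L2V Ω}
    (hG : G ∈ Submodule.span ℝ (TF Ω)) :
    ∃ g : E3 → E3, IsTest Ω g ∧ cl Ω g = G ∧ ∀ c : ℝ, RV Λ ν T F fun x => c • g x := by
  induction hG using Submodule.closure_induction with
  | zero =>
    refine ⟨fun _ => 0, zero_test, cl_zero, fun c => ?_⟩
    have e : (fun x : E3 => c • (0 : E3)) = fun _ => 0 := by
      funext x
      rw [smul_zero]
    rw [e]
    exact RV.zero
  | add x y _ _ hx hy =>
    obtain ⟨g1, t1, c1, r1⟩ := hx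
    obtain ⟨g2, t2, c2, r2⟩ := hy
    refine ⟨fun x => g1 x + g2 x, t1.add t2, by rw [cl_add' t1 t2, c1, c2], fun c => ?_⟩
    have e : (fun x : E3 => c • (g1 x + g2 x)) = fun x => c • g1 x + c • g2 x := by
      funext x
      rw [smul_add]
    rw [e]
    refine RV.add (t1.smul c) (t2.smul c) (fun c' => ?_) fun c' => ?_
    · have := r1 (c' * c)
      simpa only [smul_smul] using this
    · have := r2 (c' * c)
      simpa only [smul_smul] using this
  | smul_mem c x hx =>
    obtain ⟨R, y, s, hs, hB, rfl⟩ := hx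
    have t1 := torus_test R y hs hB
    refine ⟨fun x => c • vec (rot R y s hh) x, t1.smul c, cl_smul' t1 c, fun c' => ?_⟩
    have := RV.torus hloc hun hΩ hb hΛ hν hT hF R y hs hB (c' * c)
    simpa only [smul_smul] using this

/-- a field in the closure of the span, all multiples of which are reached -/
theorem reach_V (hloc : S_loc) (hun : S_univ) (hΩ : IsOpen Ω) (hb : Bornology.IsBounded Ω)
    (hΛ : IsLam (graphW Ω) Λ) (hν : 0 < ν) (hT : 0 < T) (hF : FH T F F1) (G : L2V Ω) {η : ℝ}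
    (hη : 0 < η) :
    ∃ g : E3 → E3, IsTest Ω g ∧ ‖Λ (G - cl Ω g)‖ ≤ η ∧ RV Λ ν T F g := by
  obtain ⟨g, hg, h1⟩ := approx_torus hΩ hb G hη
  obtain ⟨gf, tg, cg, rg⟩ := span_RV hloc hun hΩ hb hΛ hν hT hF hg
  refine ⟨gf, tg, ?_, ?_⟩
  · rw [cg]
    exact hΛ.le hη.le h1
  · have := rg 1
    simpa only [one_smul] using this

end Pool.Agent.J4H18.DN
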