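import Pool.Agent.J4H18.DN.L13
import Pool.Agent.J4H18.DN.J6

/-!
The steps of the iteration with the error small in the dual of the energy space.
-/

set_option autoImplicit false
set_option linter.unusedSectionVars false

open MeasureTheory Set Filter Topology
open scoped InnerProductSpace ENNReal ContDiff NNReal

namespace Pool.Agent.J4H18.DN

open H772R2.NS
open Pool.Agent.W795.TQ
open H772R2.NSR (Frame prim_cont exists_frame rellich_W exists_poinc)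
open Pool.Agent.Y303.LV (cl clj clj_coe)
open Pool.Agent.Y303.NF (glue_all str_unique)

variable {Ω : Set E3} {ν T : ℝ} {Λ : L2V Ω →L[ℝ] L2M Ω} {F F1 : ℝ → L2M Ω} {g g' v0 : E3 → E3}
  {v : ℝ → L2V Ω} {f : L2V Ω} {U : L2M Ω} {δ δ' η : ℝ} {x y z : L2V Ω} {Th : ℝ≥0∞} {f0 : L2V Ω}

/-- `x` is near the functional given by `(f, U)` in the dual of the energy space -/
structure NrV (Ω : Set E3) (f : L2V Ω) (U : L2M Ω) (δ : ℝ) (x : L2V Ω) : Prop where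
  nn : 0 ≤ δ
  le : ∀ ψ, IsTest Ω ψ → |⟪x - f, cl Ω ψ⟫_ℝ - ⟪U, clj Ω ψ⟫_ℝ| ≤ δ * G1 ψ

theorem NrV.mono (h : NrV Ω f U δ x) (hd : δ ≤ δ') : NrV Ω f U δ' x :=
  ⟨h.nn.trans hd, fun ψ hψ => (h.le ψ hψ).trans
    (mul_le_mul_of_nonneg_right hd (G1_nonneg ψ))⟩

theorem NrV.pert {C : ℝ} (hΩ : MeasurableSet Ω) (Fr : Frame (graphW Ω) (tensL (Ω := Ω)) C)
    (h : NrV Ω f U δ x) (hy : ‖y - x‖ ≤ η) : NrV Ω f U (δ + C * η) y := by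
  have hC := Fr.C0
  have hη : 0 ≤ η := (norm_nonneg _).trans hy
  refine ⟨by have := h.nn; positivity, fun ψ hψ => ?_⟩
  have e1 : ⟪y - f, cl Ω ψ⟫_ℝ - ⟪U, clj Ω ψ⟫_ℝ
      = (⟪x - f, cl Ω ψ⟫_ℝ - ⟪U, clj Ω ψ⟫_ℝ) + ⟪y - x, cl Ω ψ⟫_ℝ := by
    have : y - f = (x - f) + (y - x) := by abel
    rw [this, inner_add_left]
    ring
  rw [e1]
  refine (abs_add_le _ _).trans ?_
  have h1 := h.le ψ hψ
  have h2 := abs_real_inner_le_norm (y - x) (cl Ω ψ)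
  have h3 := poinT hΩ Fr hψ
  have h4 := G1_nonneg ψ
  have h5 : ‖y - x‖ * ‖cl Ω ψ‖ ≤ η * (C * G1 ψ) := by gcongr
  have h6 : (δ + C * η) * G1 ψ = δ * G1 ψ + η * (C * G1 ψ) := by ring
  rw [h6]
  linarith

theorem NrV.addL (hΩ : MeasurableSet Ω) (hΛ : IsLam (graphW Ω) Λ) (h : NrV Ω f U δ x)
    (hz : ‖Λ z‖ ≤ η) : NrV Ω f U (δ + η) (x + z) := by
  have hη : 0 ≤ η := (norm_nonneg _).trans hz
  refine ⟨by have := h.nn; positivity, fun ψ hψ => ?_⟩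
  have e1 : ⟪x + z - f, cl Ω ψ⟫_ℝ - ⟪U, clj Ω ψ⟫_ℝ
      = (⟪x - f, cl Ω ψ⟫_ℝ - ⟪U, clj Ω ψ⟫_ℝ) + ⟪z, cl Ω ψ⟫_ℝ := by
    have : x + z - f = (x - f) + z := by abel
    rw [this, inner_add_left]
    ring
  rw [e1]
  refine (abs_add_le _ _).trans ?_
  have h1 := h.le ψ hψ
  have h2 := lam_test hΩ hΛ (f := z) hψ
  have h4 := G1_nonneg ψ
  have h5 : ‖Λ z‖ * G1 ψ ≤ η * G1 ψ := by gcongr
  have h6 : (δ + η) * G1 ψ = δ * G1 ψ + η * G1 ψ := by ring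
  rw [h6]
  linarith

theorem NrV.conv (h : NrV Ω f U δ x) (h' : NrV Ω f U δ' y) {l : ℝ} (l0 : 0 ≤ l) (l1 : l ≤ 1) :
    NrV Ω f U (δ + δ') ((1 - l) • x + l • y) := by
  have hd := h.nn
  have hd' := h'.nn
  have hl : 0 ≤ 1 - l := by linarith
  refine ⟨by positivity, fun ψ hψ => ?_⟩
  have e1 : ⟪(1 - l) • x + l • y - f, cl Ω ψ⟫_ℝ - ⟪U, clj Ω ψ⟫_ℝ
      = (1 - l) * (⟪x - f, cl Ω ψ⟫_ℝ - ⟪U, clj Ω ψ⟫_ℝ)
        + l * (⟪y - f, cl Ω ψ⟫_ℝ - ⟪U, clj Ω ψ⟫_ℝ) := by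
    simp only [inner_add_left, inner_sub_left, real_inner_smul_left]
    ring
  rw [e1]
  refine (abs_add_le _ _).trans ?_
  rw [abs_mul, abs_mul, abs_of_nonneg hl, abs_of_nonneg l0]
  have h1 := h.le ψ hψ
  have h2 := h'.le ψ hψ
  have hG := G1_nonneg ψ
  have k1 : (1 - l) * |⟪x - f, cl Ω ψ⟫_ℝ - ⟪U, clj Ω ψ⟫_ℝ| ≤ 1 * (δ * G1 ψ) := by
    gcongr
    linarith
  have k2 : l * |⟪y - f, cl Ω ψ⟫_ℝ - ⟪U, clj Ω ψ⟫_ℝ| ≤ 1 * (δ' * G1 ψ) := by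
    gcongr
  linarith

/-- every element is near the functional, with some constant -/
theorem NrV.any {C : ℝ} (hΩ : MeasurableSet Ω) (Fr : Frame (graphW Ω) (tensL (Ω := Ω)) C)
    (f : L2V Ω) (U : L2M Ω) (x : L2V Ω) : ∃ δ, NrV Ω f U δ x := by
  have hC := Fr.C0
  refine ⟨‖x - f‖ * C + ‖U‖, by positivity, fun ψ hψ => ?_⟩
  refine (abs_sub _ _).trans ?_
  have h1 := abs_real_inner_le_norm (x - f) (cl Ω ψ)
  have h2 := abs_real_inner_le_norm U (clj Ω ψ)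
  have h3 := poinT hΩ Fr hψ
  rw [clj_G1 hΩ hψ] at h2
  have h4 : ‖x - f‖ * ‖cl Ω ψ‖ ≤ ‖x - f‖ * (C * G1 ψ) := by gcongr
  have h5 : (‖x - f‖ * C + ‖U‖) * G1 ψ = ‖x - f‖ * (C * G1 ψ) + ‖U‖ * G1 ψ := by ring
  rw [h5]
  linarith

/-- **The step on a bounded interval.** -/
theorem stepTV (hloc : S_loc) (hun : S_univ) (hΩ : IsOpen Ω) (hb : Bornology.IsBounded Ω)
    (hν : 0 < ν) (hT : 0 < T) (hF : FH T F F1) (S : SolT Ω ν T F v0 v) (f : L2V Ω) (U : L2M Ω)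
    (hN : NrV Ω f U δ (cl Ω v0)) {ε : ℝ} (hε : 0 < ε) :
    ∃ (w0 : E3 → E3) (u : ℝ → L2V Ω), SolT Ω ν T F w0 u ∧ (∀ t ∈ Icc ε T, ‖u t - v t‖ ≤ ε) ∧
      NrV Ω f U ε (cl Ω w0) ∧ ∀ t ∈ Icc 0 T, ‖u t - v t‖ ≤ ε ∨ NrV Ω f U (δ + ε) (u t) := by
  have hv0 := S.test
  have hm : MeasurableSet Ω := hΩ.measurableSet
  obtain ⟨C, Fr⟩ := exists_frame hΩ hb
  obtain ⟨Λ, hΛ⟩ := exists_lamΩ hΩ hb
  set ε1 : ℝ := ε / 3 with hε1
  have hε1p : 0 < ε1 := by positivity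
  obtain ⟨fU, hfU⟩ := approxU (graphW_closed Ω) Fr.poinc Fr.uniq U (ε := ε1 / 2) (by positivity)
  obtain ⟨gf, tg, h1, rg⟩ := reach_V hloc hun hΩ hb hΛ hν hT hF (f + fU - cl Ω v0)
    (η := ε1 / 2) (by positivity)
  obtain ⟨w0, e, u, S', te, a0, a1, a2, a3⟩ := rg v0 v S ε1 hε1p
  -- the new functional
  have hnew : NrV Ω f U ε1 (cl Ω v0 + cl Ω gf) := by
    refine ⟨hε1p.le, fun ψ hψ => ?_⟩
    have h3 := lam_test hm hΛ (f := f + fU - cl Ω v0 - cl Ω gf) hψ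
    have h4 := hfU _ (test_mem hψ)
    simp only at h4
    rw [clj_G1 hm hψ] at h4
    have h5 : ‖Λ (f + fU - cl Ω v0 - cl Ω gf)‖ * G1 ψ ≤ ε1 / 2 * G1 ψ :=
      mul_le_mul_of_nonneg_right h1 (G1_nonneg ψ)
    have e1 : ⟪cl Ω v0 + cl Ω gf - f, cl Ω ψ⟫_ℝ - ⟪U, clj Ω ψ⟫_ℝ
        = -⟪f + fU - cl Ω v0 - cl Ω gf, cl Ω ψ⟫_ℝ
          - (⟪U, clj Ω ψ⟫_ℝ - ⟪fU, cl Ω ψ⟫_ℝ) := by
      simp only [inner_add_left, inner_sub_left]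
      ring
    rw [e1]
    refine (abs_sub _ _).trans ?_
    rw [abs_neg]
    linarith
  refine ⟨w0, u, S', fun t ht => ?_, ?_, fun t ht => ?_⟩
  · have h2 : ε1 ≤ ε := by linarith
    exact (a1 t ⟨h2.trans ht.1, ht.2⟩).trans h2
  · have h2 : IsTest Ω fun x => v0 x + gf x := hv0.add tg
    have e1 : w0 = fun x => (v0 x + gf x) + e x := funext a0
    rw [e1, cl_add' h2 te, cl_add' hv0 tg]
    exact (hnew.addL hm hΛ a2).mono (by linarith)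
  · rcases a3 t ht with h2 | ⟨l, l0, l1, c2⟩
    · left
      linarith
    · right
      have e1 : cl Ω v0 + l • cl Ω gf = (1 - l) • cl Ω v0 + l • (cl Ω v0 + cl Ω gf) := by
        rw [sub_smul, smul_add, one_smul]
        abel
      have h3 := (hN.conv hnew l0 l1).addL hm hΛ c2
      rw [← e1] at h3
      have e2 : cl Ω v0 + l • cl Ω gf + (u t - cl Ω v0 - l • cl Ω gf) = u t := by abel
      rw [e2] at h3
      exact h3.mono (by linarith)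

/-- **The step of the iteration.** -/
theorem stepHV (hloc : S_loc) (hun : S_univ) (huni : S_uni) (hode : S_ode) (he1 : S_est1)
    (he2 : S_est2) (hΩ : IsOpen Ω) (hb : Bornology.IsBounded Ω) (hν : 0 < ν) (hTh : 0 < Th)
    (hF : FHor Ω Th F F1 f0) (S : SolH Ω ν Th F v0 v) (hN : NrV Ω f U δ (cl Ω v0)) {ε : ℝ}
    (hε : 0 < ε) :
    ∃ (w0 : E3 → E3) (u : ℝ → L2V Ω), SolH Ω ν Th F w0 u ∧
      (∀ t, ε ≤ t → ENNReal.ofReal t ≤ Th → ‖u t - v t‖ ≤ ε) ∧ NrV Ω f U ε (cl Ω w0) ∧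
      ∀ t, 0 ≤ t → ENNReal.ofReal t ≤ Th → ‖u t - v t‖ ≤ ε ∨ NrV Ω f U (δ + ε) (u t) := by
  rcases eq_or_ne Th ⊤ with hTt | hTt
  · subst hTt
    have h1 := hF.m2
    have h2 := hF.m2'
    rw [hor_set] at h1 h2
    obtain ⟨α, T, hα, hαε, hT, hεT, hext⟩ := ext_inf hloc hun huni hode he1 he2 hΩ hb hν
      (fun t ht => hF.fh t ht le_top) h1 h2 (v := v) (fun t ht => S.str t ht le_top) hε
    have ST := S.toT hΩ hb hF.f0 hT le_top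
    obtain ⟨w0, u, S', a1, a2, a3⟩ := stepTV hloc hun hΩ hb hν hT (hF.fh T hT le_top) ST f U hN hα
    obtain ⟨tw, ⟨u1, z, z1, g0, Su, hg0⟩, hu0⟩ := S'
    obtain ⟨w, hw, hwu, hwv⟩ := hext u u1 z z1 g0 Su hg0 a1
    refine ⟨w0, w, ⟨tw, ?_, fun t ht _ => ⟨_, _, _, hw t ht⟩⟩, fun t ht _ => hwv t ht,
      a2.mono hαε, fun t ht _ => ?_⟩
    · rw [← hwu 0 ⟨le_rfl, hT.le⟩]
      exact hu0
    · rcases le_total t T with h | h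
      · rw [← hwu t ⟨ht, h⟩]
        rcases a3 t ⟨ht, h⟩ with k | k
        · exact Or.inl (k.trans hαε)
        · exact Or.inr (k.mono (by linarith))
      · exact Or.inl (hwv t (hεT.trans h))
  · obtain ⟨hT0, hTe, hle⟩ := hor_fin hTh hTt
    have ST := S.toT hΩ hb hF.f0 hT0 hTe.le
    obtain ⟨w0, u, S', a1, a2, a3⟩ := stepTV hloc hun hΩ hb hν hT0 (hF.fh _ hT0 hTe.le) ST f U
      hN hε
    obtain ⟨tw, ⟨u1, z, z1, g0, Su, hg0⟩, hu0⟩ := S'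
    exact ⟨w0, u, ⟨tw, hu0, fun t ht ht' => ⟨_, _, _, Su.mono (hle t ht')⟩⟩,
      fun t ht ht' => a1 t ⟨ht, hle t ht'⟩, a2, fun t ht ht' => a3 t ⟨ht, hle t ht'⟩⟩

/-- **The first step.** -/
theorem stepFV (hloc : S_loc) (hun : S_univ) (huni : S_uni) (hode : S_ode) (he1 : S_est1)
    (he2 : S_est2) (hΩ : IsOpen Ω) (hb : Bornology.IsBounded Ω) (hν : 0 < ν) (hTh : 0 < Th)
    (hF : FHor Ω Th F F1 f0) (hv : ∀ t : ℝ, 0 < t → ENNReal.ofReal t ≤ Th →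
      ∃ (v1 : ℝ → L2V Ω) (y y1 : ℝ → L2M Ω),
        Str (graphW Ω) (tensL (Ω := Ω)) ν t F v v1 y y1) (f : L2V Ω) (U : L2M Ω) {ε : ℝ}
    (hε : 0 < ε) :
    ∃ (w0 : E3 → E3) (u : ℝ → L2V Ω), SolH Ω ν Th F w0 u ∧
      (∀ t, ε ≤ t → ENNReal.ofReal t ≤ Th → ‖u t - v t‖ ≤ ε) ∧ NrV Ω f U ε (cl Ω w0) := by
  obtain ⟨C, Fr⟩ := exists_frame hΩ hb
  obtain ⟨a0, u, S, h1, -⟩ := stepF hloc hun huni hode he1 he2 hΩ hb hν hTh hF hv f U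
    (ε := ε / 2) (by positivity)
  obtain ⟨δ, hδ⟩ := NrV.any hΩ.measurableSet Fr f U (cl Ω a0)
  obtain ⟨w0, w, S', k1, k2, -⟩ := stepHV hloc hun huni hode he1 he2 hΩ hb hν hTh hF S hδ
    (ε := ε / 2) (by positivity)
  refine ⟨w0, w, S', fun t ht ht' => ?_, k2.mono (by linarith)⟩
  have e1 : w t - v t = (w t - u t) + (u t - v t) := by abel
  rw [e1]
  refine (norm_add_le _ _).trans ?_
  have := k1 t (by linarith) ht'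
  have := h1 t (by linarith) ht'
  linarith

/-- what is true at each stage -/
structure GoodV (ν : ℝ) (Th : ℝ≥0∞) (F : ℝ → L2M Ω) (f : L2V Ω) (U : L2M Ω) (s : Stg Ω) :
    Prop where
  sol : SolH Ω ν Th F s.w s.u
  nr : NrV Ω f U s.r (cl Ω s.w)
  pos : 0 < s.r

/-- the relation of a stage with the next one -/
structure NextV (ν : ℝ) (Th : ℝ≥0∞) (F : ℝ → L2M Ω) (f : L2V Ω) (U : L2M Ω) (a b t : ℝ)
    (s s' : Stg Ω) : Prop where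
  half : s'.r ≤ s.r / 2
  le : s'.r ≤ a
  near : ∀ t, s'.r ≤ t → ENNReal.ofReal t ≤ Th → ‖s'.u t - s.u t‖ ≤ s'.r
  path : ∀ t, 0 ≤ t → ENNReal.ofReal t ≤ Th →
    ‖s'.u t - s.u t‖ ≤ s'.r ∨ NrV Ω f U (s.r + s'.r) (s'.u t)
  bd : ∃ Z : ℝ, 0 ≤ Z ∧ ∀ (u u1 : ℝ → L2V Ω) (z z1 : ℝ → L2M Ω),
    Str (graphW Ω) (tensL (Ω := Ω)) ν t F u u1 z z1 → ‖u a - s.u a‖ ≤ 2 * s'.r →
    ∀ q ∈ Icc b t, ‖z q‖ ≤ Z

theorem exists_nextV (hloc : S_loc) (hun : S_univ) (huni : S_uni) (hode : S_ode) (he1 : S_est1)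
    (he2 : S_est2) (hΩ : IsOpen Ω) (hb : Bornology.IsBounded Ω) (hν : 0 < ν) (hTh : 0 < Th)
    (hF : FHor Ω Th F F1 f0) {a b t : ℝ} (ha : 0 < a) (hab : a < b) (hbt : b ≤ t)
    (htT : ENNReal.ofReal t ≤ Th) (s : Stg Ω) (hs : GoodV ν Th F f U s) :
    ∃ s' : Stg Ω, GoodV ν Th F f U s' ∧ NextV ν Th F f U a b t s s' := by
  have ht : 0 < t := ha.trans (hab.trans_le hbt)
  have hun' := hun
  obtain ⟨c, hc, hU⟩ := hun
  obtain ⟨ε0, C7, hε0, hC7, hap⟩ := exists_apz hode he1 he2 hc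
  obtain ⟨C, Fr⟩ := exists_frame hΩ hb
  obtain ⟨v1, y, y1, Sv⟩ := hs.sol.str t ht htT
  obtain ⟨ρ, Z, hρ, hZ, hbd⟩ := vbd hε0 hC7 hap Fr (hU Ω hΩ) hν (hF.fh t ht htT) Sv ha.le hab hbt
  have hr := hs.pos
  set ε : ℝ := min (min (s.r / 2) a) (ρ / 2) with hε
  have hε0 : 0 < ε := lt_min (lt_min (by positivity) ha) (by positivity)
  obtain ⟨w, u, S', a1, a2, a3⟩ := stepHV hloc hun' huni hode he1 he2 hΩ hb hν hTh hF hs.sol hs.nr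
    hε0
  refine ⟨⟨w, u, ε⟩, ⟨S', a2, hε0⟩, ⟨(min_le_left _ _).trans (min_le_left _ _),
    (min_le_left _ _).trans (min_le_right _ _), a1, a3, Z, hZ, fun u u1 z z1 Su hu q hq => ?_⟩⟩
  refine hbd u u1 z z1 Su (hu.trans ?_) q hq
  have : ε ≤ ρ / 2 := min_le_right _ _
  simp only
  linarith

end Pool.Agent.J4H18.DN
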