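import Pool.Agent.J4H18.DN.L15
import Pool.Agent.J4H18.DN.H8

/-!
The density theorem and the theorem on the solutions which are regular for positive times, with the
error measured in the dual of the energy space, in terms of the public definitions.
-/

set_option autoImplicit false
set_option linter.unusedSectionVars false

open MeasureTheory Set Filter Topology
open scoped InnerProductSpace ENNReal ContDiff NNReal

namespace Pool.Agent.J4H18.DN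

open H772R2.NS H772R2.NS.Pub
open Pool.Agent.W795.TQ
open H772R2.NSR (Frame prim_cont exists_frame rellich_W exists_poinc pub_inner pub_inner_jac
  pub_rhs compat_ext)
open Pool.Agent.Y303.LV (cl clj clj_coe)
open Pool.Agent.Y303.NF (glue_all str_unique)

variable {Ω : Set E3} {ν : ℝ}

theorem nrV_pub {x f : L2V Ω} {U : L2M Ω} {δ : ℝ} (h : NrV Ω f U δ x) (ψ : E3 → E3)
    (hψ : H772R2.NS.IsTest Ω ψ) :
    |(∫ y in (show Set R3 from Ω), ⟪L2.fn (Ω := Ω) (E := R3) x y, (ψ : R3 → R3) y⟫_ℝ)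
      - ((∫ y in (show Set R3 from Ω), ⟪L2.fn (Ω := Ω) (E := R3) f y, (ψ : R3 → R3) y⟫_ℝ)
      + ∫ y in (show Set R3 from Ω), ⟪L2.fn (Ω := Ω) (E := Mat) U y, Pub.jac ψ y⟫_ℝ)|
    ≤ δ * gradNorm ψ := by
  have e0 := pub_inner (Ω := Ω) x ((CK.test hψ).coe (Ω := Ω) hψ.compact)
  have e2 := pub_inner (Ω := Ω) f ((CK.test hψ).coe (Ω := Ω) hψ.compact)
  have e3 := pub_inner_jac (Ω := Ω) U (clj_coe (Ω := Ω) hψ)
  have h3 := h.le ψ hψ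
  have e5 : ⟪x - f, cl Ω ψ⟫_ℝ - ⟪U, clj Ω ψ⟫_ℝ
      = ⟪x, cl Ω ψ⟫_ℝ - (⟪f, cl Ω ψ⟫_ℝ + ⟪U, clj Ω ψ⟫_ℝ) := by
    rw [inner_sub_left (x := x) (y := f)]
    ring
  rw [e5] at h3
  refine le_trans (le_of_eq ?_) (h3.trans (le_of_eq (congrArg (δ * ·) (gradNorm_eq ψ).symm)))
  exact congrArg abs (congrArg₂ (· - ·) e0 (congrArg₂ (· + ·) e2 e3))

theorem nrV_pub_test {w : E3 → E3} (hw : H772R2.NS.IsTest Ω w) {f : L2V Ω} {U : L2M Ω} {δ : ℝ}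
    (h : NrV Ω f U δ (cl Ω w)) (ψ : E3 → E3) (hψ : H772R2.NS.IsTest Ω ψ) :
    |(∫ x in (show Set R3 from Ω), ⟪(w : R3 → R3) x, (ψ : R3 → R3) x⟫_ℝ)
      - ((∫ x in (show Set R3 from Ω), ⟪L2.fn (Ω := Ω) (E := R3) f x, (ψ : R3 → R3) x⟫_ℝ)
      + ∫ x in (show Set R3 from Ω), ⟪L2.fn (Ω := Ω) (E := Mat) U x, Pub.jac ψ x⟫_ℝ)|
    ≤ δ * gradNorm ψ := by
  have e1 := pub_phi hw hψ
  have e2 := pub_inner (Ω := Ω) f ((CK.test hψ).coe (Ω := Ω) hψ.compact)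
  have e3 := pub_inner_jac (Ω := Ω) U (clj_coe (Ω := Ω) hψ)
  have h3 := h.le ψ hψ
  have e5 : ⟪cl Ω w - f, cl Ω ψ⟫_ℝ - ⟪U, clj Ω ψ⟫_ℝ
      = ⟪cl Ω w, cl Ω ψ⟫_ℝ - (⟪f, cl Ω ψ⟫_ℝ + ⟪U, clj Ω ψ⟫_ℝ) := by
    rw [inner_sub_left (x := cl Ω w) (y := f)]
    ring
  rw [e5] at h3
  refine le_trans (le_of_eq ?_) (h3.trans (le_of_eq (congrArg (δ * ·) (gradNorm_eq ψ).symm)))
  exact congrArg abs (congrArg₂ (· - ·) e1 (congrArg₂ (· + ·) e2 e3))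

/-- the derivatives of a solution do not depend on the interval -/
theorem SolH.glue {Th : ℝ≥0∞} {F F1 : ℝ → L2M Ω} {v0 : E3 → E3} {v : ℝ → L2V Ω} (huni : S_uni)
    (hΩ : IsOpen Ω) (hb : Bornology.IsBounded Ω) (hν : 0 < ν) (hTh : 0 < Th)
    (hF : ∀ t : ℝ, 0 < t → ENNReal.ofReal t ≤ Th → FH t F F1) (S : SolH Ω ν Th F v0 v) :
    ∃ (w w1 : ℝ → L2V Ω) (z z1 : ℝ → L2M Ω),
      (∀ t : ℝ, 0 < t → ENNReal.ofReal t ≤ Th →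
        Str (graphW Ω) (tensL (Ω := Ω)) ν t F w w1 z z1) ∧
      ∀ t : ℝ, 0 ≤ t → ENNReal.ofReal t ≤ Th → v t = w t := by
  rcases eq_or_ne Th ⊤ with hTt | hTt
  · subst hTt
    obtain ⟨C, Fr⟩ := exists_frame hΩ hb
    have hFc : ∀ t : ℝ, 0 < t → ContinuousOn F (Icc 0 t) := fun t ht =>
      prim_cont (hF t ht le_top).memLp (hF t ht le_top).prim
    obtain ⟨w, hw00, hw⟩ := glue_all (W := graphW Ω) (m := tensL (Ω := Ω))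
      (F := F) (ν := ν) huni Fr hν (I := Ioi 0) (fun T hT => hT)
      (fun T hT => hFc T hT) (x0 := v 0) (fun T' hT' => by
        obtain ⟨v1, y, y1, Sv⟩ := S.str T' hT' le_top
        exact ⟨v, v1, y, y1, Sv, rfl⟩)
    refine ⟨w, _, _, _, fun t ht _ => hw t ht, fun t ht _ => ?_⟩
    have ht1 : 0 < t + 1 := by linarith
    obtain ⟨v1, y, y1, Sv⟩ := S.str (t + 1) ht1 le_top
    exact str_unique huni Fr hν ht1 ht1 le_rfl (hFc _ ht1) Sv (hw _ ht1) hw00 t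
      ⟨ht, by linarith⟩
  · obtain ⟨hT0, hTe, hle⟩ := hor_fin hTh hTt
    obtain ⟨v1, y, y1, Sv⟩ := S.str _ hT0 hTe.le
    exact ⟨v, v1, y, y1, fun t ht ht' => Sv.mono (hle t ht'), fun t _ _ => rfl⟩

/-- the density theorem with an arbitrary horizon, in the dual of the energy space -/
theorem pub_horV (hloc : S_loc) (hun : S_univ) (huni : S_uni) (hode : S_ode) (he1 : S_est1)
    (he2 : S_est2) (hΩ : IsOpen Ω) (hb : Bornology.IsBounded Ω) (hν : 0 < ν) {T : ℝ≥0∞}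
    (hT : 0 < T) {F F' : ℝ → L2M Ω}
    (hF : ∀ t : ℝ, 0 < t → ENNReal.ofReal t ≤ T → IsH1 t F F')
    (hF2 : MemLp F 2 (volume.restrict {t : ℝ | 0 < t ∧ ENNReal.ofReal t ≤ T}))
    (hF2' : MemLp F' 2 (volume.restrict {t : ℝ | 0 < t ∧ ENNReal.ofReal t ≤ T}))
    (hf0 : ∃ h : L2V Ω, ∀ ψ : E3 → E3, H772R2.NS.IsTest Ω ψ →
      (∫ x in (show Set R3 from Ω), ⟪L2.fn (Ω := Ω) (E := Mat) (F 0) x, Pub.jac ψ x⟫_ℝ)
        = ∫ x in (show Set R3 from Ω), ⟪L2.fn (Ω := Ω) (E := R3) h x, (ψ : R3 → R3) x⟫_ℝ)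
    {v : ℝ → L2V Ω}
    (hv : ∀ t : ℝ, 0 < t → ENNReal.ofReal t ≤ T →
      ∃ v' G G', IsStrong (show Set R3 from Ω) ν t F v v' G G')
    (f : L2V Ω) (U : L2M Ω) {ε : ℝ} (hε : 0 < ε) :
    ∃ (a : E3 → E3) (u u' : ℝ → L2V Ω) (G G' : ℝ → L2M Ω), H772R2.NS.IsTest Ω a ∧
      (∀ ψ : E3 → E3, H772R2.NS.IsTest Ω ψ →
        |(∫ x in (show Set R3 from Ω), ⟪(a : R3 → R3) x, (ψ : R3 → R3) x⟫_ℝ)
          - ((∫ x in (show Set R3 from Ω), ⟪L2.fn (Ω := Ω) (E := R3) f x, (ψ : R3 → R3) x⟫_ℝ)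
          + ∫ x in (show Set R3 from Ω), ⟪L2.fn (Ω := Ω) (E := Mat) U x, Pub.jac ψ x⟫_ℝ)|
        ≤ ε * gradNorm ψ) ∧
      IsClass (Ω := (show Set R3 from Ω)) (E := R3) (u 0) a ∧
      (∀ t : ℝ, 0 < t → ENNReal.ofReal t ≤ T → IsStrong (show Set R3 from Ω) ν t F u u' G G') ∧
      ∀ t : ℝ, ε ≤ t → ENNReal.ofReal t ≤ T → ‖u t - v t‖ ≤ ε := by
  obtain ⟨C, Fr⟩ := exists_frame hΩ hb
  obtain ⟨h, hh⟩ := hf0_of hf0
  have hstr : ∀ t : ℝ, 0 < t → ENNReal.ofReal t ≤ T → ∃ (v1 : ℝ → L2V Ω) (y y1 : ℝ → L2M Ω),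
      Str (graphW Ω) (tensL (Ω := Ω)) ν t F v v1 y y1 := by
    intro t ht ht'
    obtain ⟨v', G, G', S⟩ := hv t ht ht'
    exact ⟨v', G, G', str_of_strong hΩ ht (prim_cont (hF t ht ht').memLp (hF t ht ht').prim) Fr S⟩
  have hFH : ∀ t : ℝ, 0 < t → ENNReal.ofReal t ≤ T → FH t F F' := fun t ht ht' =>
    ⟨(hF t ht ht').memLp, (hF t ht ht').prim⟩
  obtain ⟨a, u, S, h1, h2⟩ := stepFV hloc hun huni hode he1 he2 hΩ hb hν hT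
    ⟨hFH, hF2, hF2', hh⟩ hstr f U hε
  obtain ⟨w, w1, z, z1, hw, hwu⟩ := S.glue huni hΩ hb hν hT hFH
  refine ⟨a, u, w1, z, z1, S.test, fun ψ hψ => nrV_pub_test S.test h2 ψ hψ,
    class_of S.test S.init, fun t ht ht' => strong_of_str hΩ ht (hw t ht ht') fun q hq => ?_, h1⟩
  exact hwu q hq.1 ((ENNReal.ofReal_le_ofReal hq.2).trans ht')

/-- the solutions which are regular for positive times, with arbitrary initial values in the dual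
of the energy space, attained strongly -/
theorem pub_WV (hloc : S_loc) (hun : S_univ) (huni : S_uni) (hode : S_ode) (he1 : S_est1)
    (he2 : S_est2) (hΩ : IsOpen Ω) (hb : Bornology.IsBounded Ω) (hν : 0 < ν) {T : ℝ≥0∞}
    (hT : 0 < T) {F F' : ℝ → L2M Ω}
    (hF : ∀ t : ℝ, 0 < t → ENNReal.ofReal t ≤ T → IsH1 t F F')
    (hF2 : MemLp F 2 (volume.restrict {t : ℝ | 0 < t ∧ ENNReal.ofReal t ≤ T}))
    (hF2' : MemLp F' 2 (volume.restrict {t : ℝ | 0 < t ∧ ENNReal.ofReal t ≤ T}))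
    (hf0 : ∃ h : L2V Ω, ∀ ψ : E3 → E3, H772R2.NS.IsTest Ω ψ →
      (∫ x in (show Set R3 from Ω), ⟪L2.fn (Ω := Ω) (E := Mat) (F 0) x, Pub.jac ψ x⟫_ℝ)
        = ∫ x in (show Set R3 from Ω), ⟪L2.fn (Ω := Ω) (E := R3) h x, (ψ : R3 → R3) x⟫_ℝ)
    {v : ℝ → L2V Ω}
    (hv : ∀ t : ℝ, 0 < t → ENNReal.ofReal t ≤ T →
      ∃ v' G G', IsStrong (show Set R3 from Ω) ν t F v v' G G')
    (f : L2V Ω) (U : L2M Ω) {ε : ℝ} (hε : 0 < ε) :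
    ∃ u : ℝ → L2V Ω,
      (∀ s t : ℝ, 0 < s → s < t → ENNReal.ofReal t ≤ T → ∃ (u' : ℝ → L2V Ω) (G G' : ℝ → L2M Ω),
        IsStrong (show Set R3 from Ω) ν (t - s) (fun r => F (s + r)) (fun r => u (s + r)) u' G G') ∧
      (∀ t : ℝ, ε ≤ t → ENNReal.ofReal t ≤ T → ‖u t - v t‖ ≤ ε) ∧
      ∀ δ : ℝ, 0 < δ → ∃ τ : ℝ, 0 < τ ∧ ∀ t : ℝ, 0 < t → t ≤ τ → ENNReal.ofReal t ≤ T →
        ∀ ψ : E3 → E3, H772R2.NS.IsTest Ω ψ →
          |(∫ y in (show Set R3 from Ω),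
              ⟪L2.fn (Ω := Ω) (E := R3) (u t) y, (ψ : R3 → R3) y⟫_ℝ)
            - ((∫ y in (show Set R3 from Ω),
              ⟪L2.fn (Ω := Ω) (E := R3) f y, (ψ : R3 → R3) y⟫_ℝ)
            + ∫ y in (show Set R3 from Ω), ⟪L2.fn (Ω := Ω) (E := Mat) U y, Pub.jac ψ y⟫_ℝ)|
          ≤ δ * gradNorm ψ := by
  obtain ⟨C, Fr⟩ := exists_frame hΩ hb
  obtain ⟨h, hh⟩ := hf0_of hf0
  have hstr : ∀ t : ℝ, 0 < t → ENNReal.ofReal t ≤ T → ∃ (v1 : ℝ → L2V Ω) (y y1 : ℝ → L2M Ω),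
      Str (graphW Ω) (tensL (Ω := Ω)) ν t F v v1 y y1 := by
    intro t ht ht'
    obtain ⟨v', G, G', S⟩ := hv t ht ht'
    exact ⟨v', G, G', str_of_strong hΩ ht (prim_cont (hF t ht ht').memLp (hF t ht ht').prim) Fr S⟩
  have hFH : ∀ t : ℝ, 0 < t → ENNReal.ofReal t ≤ T → FH t F F' := fun t ht ht' =>
    ⟨(hF t ht ht').memLp, (hF t ht ht').prim⟩
  obtain ⟨u, h1, h2, h3⟩ := thmWV hloc hun huni hode he1 he2 hΩ hb hν hT
    ⟨hFH, hF2, hF2', hh⟩ hstr f U hε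
  refine ⟨u, fun s t hs hst ht => ?_, h2, fun δ hδ => ?_⟩
  · obtain ⟨w, w1, y, y1, S, hw⟩ := h1 s t hs hst ht
    exact ⟨w1, y, y1, strong_of_str hΩ (by linarith) S fun q hq => (hw q hq).symm⟩
  · obtain ⟨τ, hτ, h4⟩ := h3 δ hδ
    exact ⟨τ, hτ, fun t ht ht' hT' ψ hψ => nrV_pub (h4 t ht ht' hT') ψ hψ⟩

end Pool.Agent.J4H18.DN
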