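import Pool.Agent.J4H18.DN.L1

/-!
The oscillating field in the dual norm: its size at positive times, its weak convergence to zero;
one stage.
-/

set_option autoImplicit false
set_option linter.unusedSectionVars false

open MeasureTheory Set Filter Topology
open scoped InnerProductSpace ENNReal ContDiff NNReal

namespace Pool.Agent.J4H18.DN

section abs

variable {H K : Type*} [NormedAddCommGroup H] [InnerProductSpace ℝ H] [CompleteSpace H]
  [NormedAddCommGroup K] [InnerProductSpace ℝ K] [CompleteSpace K]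
  {W : Submodule ℝ (H × K)} {C : ℝ} {Λ : H →L[ℝ] K} {f : H} {η : ℝ} {q : H × K}

/-- the adjoint of the Riesz map -/
theorem IsLam.dual (h : IsLam W Λ) (hW : IsClosed (W : Set (H × K)))
    (hC : ∀ p ∈ W, ‖p.1‖ ≤ C * ‖p.2‖) (y : K) : ∃ q ∈ W, ∀ f, ⟪y, Λ f⟫_ℝ = ⟪f, q.1⟫_ℝ := by
  set R : Submodule ℝ K := LinearMap.range (sndW W : W →ₗ[ℝ] K) with hR
  have hRc : IsClosed (R : Set K) := by
    have := range_closed hW hC
    rwa [hR, LinearMap.coe_range]
  have : CompleteSpace R := hRc.completeSpace_coe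
  have h1 : R.starProjection y ∈ R := Submodule.starProjection_apply_mem _ _
  obtain ⟨p, hp⟩ := h1
  have hp' : (p : H × K).2 = R.starProjection y := hp
  refine ⟨p, p.2, fun f => ?_⟩
  obtain ⟨r, hr, hrf⟩ := h.mem f
  have h2 : Λ f ∈ R := ⟨⟨r, hr⟩, hrf⟩
  have h3 : y - R.starProjection y ∈ Rᗮ := Submodule.sub_starProjection_mem_orthogonal _
  have h4 : ⟪Λ f, y - R.starProjection y⟫_ℝ = 0 := (Submodule.mem_orthogonal _ _).1 h3 _ h2
  rw [inner_sub_right, sub_eq_zero] at h4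
  rw [real_inner_comm, h4, ← hp', h.inner f _ p.2]

/-- **Projection on a convex set** of representing elements. -/
theorem hull_near {S : Set K} (hS : Convex ℝ S) (hne : S.Nonempty) {x : K} {r : ℝ}
    {R : Set K} (hRc : IsClosed R) (hSR : S ⊆ R) (hxR : ∀ p ∈ R, x - p ∈ R)
    (h : ∀ w ∈ R, ∀ σ, (∀ z ∈ S, ⟪w, z⟫_ℝ ≤ σ) → ⟪w, x⟫_ℝ ≤ σ + r * ‖w‖) (hr : 0 ≤ r) {η : ℝ}
    (hη : 0 < η) : ∃ z ∈ S, ‖x - z‖ ≤ r + η := by
  have hcc : Convex ℝ (closure S) := hS.closure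
  obtain ⟨p, hp, hpi⟩ := exists_norm_eq_iInf_of_complete_convex hne.closure
    isClosed_closure.isComplete hcc x
  have hpv := (norm_eq_iInf_iff_real_inner_le_zero hcc hp).1 hpi
  have hpR : p ∈ R := closure_minimal hSR hRc hp
  have h1 : ∀ z ∈ S, ⟪x - p, z⟫_ℝ ≤ ⟪x - p, p⟫_ℝ := by
    intro z hz
    have := hpv z (subset_closure hz)
    rw [inner_sub_right] at this
    linarith
  have h2 := h _ (hxR p hpR) _ h1
  have h3 : ‖x - p‖ * ‖x - p‖ ≤ r * ‖x - p‖ := by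
    rw [← real_inner_self_eq_norm_mul_norm, inner_sub_right]
    linarith
  have h4 : ‖x - p‖ ≤ r := by
    rcases eq_or_lt_of_le (norm_nonneg (x - p)) with h0 | h0
    · rw [← h0]
      exact hr
    · exact le_of_mul_le_mul_right h3 h0
  obtain ⟨z, hz, hzp⟩ := Metric.mem_closure_iff.1 hp η hη
  rw [dist_eq_norm] at hzp
  refine ⟨z, hz, ?_⟩
  have e : x - z = (x - p) + (p - z) := by abel
  rw [e]
  exact (norm_add_le _ _).trans (by linarith)

end abs

open H772R2.NS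
open Pool.Agent.W795.TQ
open H772R2.NSR (Frame prim_cont exists_frame rellich_W exists_poinc)
open Pool.Agent.Y303.LV (cl clj clj_coe)
open Pool.Agent.W52.TQ (graphW_le)

variable {Ω K S : Set E3} {Λ : L2V Ω →L[ℝ] L2M Ω} {q : L2V Ω × L2M Ω}
  {G G' : Fin 3 → Fin 3 → E3 → ℝ} {ν : ℝ} {φ : E3 → ℝ} {A B h : Fin 3 → E3 → ℝ} {P : E3 → ℝ}
  {v : Fin 3 → E3 → ℝ}

theorem CK.add {F G : E3 → E3} (hF : CK K F) (hG : CK K G) : CK K (fun x => F x + G x) :=
  ⟨hF.c.add hG.c, fun x hx => by rw [hF.off x hx, hG.off x hx, add_zero]⟩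

theorem CK.cl_add {F G : E3 → E3} (hK : IsCompact K) (hF : CK K F) (hG : CK K G) :
    cl Ω (fun x => F x + G x) = cl Ω F + cl Ω G := by
  apply Lp.ext
  filter_upwards [hF.coe (Ω := Ω) hK, hG.coe (Ω := Ω) hK, (hF.add hG).coe (Ω := Ω) hK,
    Lp.coeFn_add (cl Ω F) (cl Ω G)] with x h1 h2 h3 h4
  rw [h3, h4, Pi.add_apply, h1, h2]

theorem DG_lin (hG : ∀ i j, ContDiff ℝ ∞ (G i j)) (hG' : ∀ i j, ContDiff ℝ ∞ (G' i j)) (a b : ℝ) :
    DG (fun i j x => a * G i j x + b * G' i j x) = fun x => a • DG G x + b • DG G' x := by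
  funext x
  ext i
  show ∑ j, pd j (fun x => a * G i j x + b * G' i j x) x
    = a * ∑ j, pd j (G i j) x + b * ∑ j, pd j (G' i j) x
  rw [Finset.mul_sum, Finset.mul_sum, ← Finset.sum_add_distrib]
  refine Finset.sum_congr rfl fun j _ => ?_
  rw [pd_add (contDiff_const.mul (hG i j)) (contDiff_const.mul (hG' i j)), pd_smul (hG i j),
    pd_smul (hG' i j)]

theorem cl_DG_lin (hK : IsCompact K) (hG : ∀ i j, ContDiff ℝ ∞ (G i j))
    (h0 : ∀ i j x, x ∉ K → G i j x = 0) (hG' : ∀ i j, ContDiff ℝ ∞ (G' i j))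
    (h0' : ∀ i j x, x ∉ K → G' i j x = 0) (a b : ℝ) :
    cl Ω (DG fun i j x => a * G i j x + b * G' i j x) = a • cl Ω (DG G) + b • cl Ω (DG G') := by
  have c1 := DG_CK hK.isClosed hG h0
  have c2 := DG_CK hK.isClosed hG' h0'
  rw [DG_lin hG hG', (c1.smul a).cl_add hK (c2.smul b), c1.cl_smul hK, c2.cl_smul hK]

/-- the bound of the dual norm of a divergence by the supremum -/
theorem lam_DG_bd (hb : Bornology.IsBounded Ω) (hΛ : IsLam (graphW Ω) Λ) (hK : IsCompact K)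
    (hG : ∀ i j, ContDiff ℝ ∞ (G i j)) (h0 : ∀ i j x, x ∉ K → G i j x = 0) {M : ℝ} (hM : 0 ≤ M)
    (hMG : ∀ i j x, |G i j x| ≤ M) :
    ‖Λ (cl Ω (DG G))‖ ≤ M * √(9 * (volume K).toReal) := by
  refine (lam_DG hb hΛ hK hG h0).trans ?_
  have h1 : ∫ x, ∑ i, ∑ j, G i j x ^ 2 ≤ ∫ x in K, 9 * M ^ 2 := by
    have e1 : ∫ x, ∑ i, ∑ j, G i j x ^ 2 = ∫ x in K, ∑ i, ∑ j, G i j x ^ 2 := by
      symm
      apply setIntegral_eq_integral_of_forall_compl_eq_zero
      intro x hx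
      exact Finset.sum_eq_zero fun i _ => Finset.sum_eq_zero fun j _ => by
        rw [h0 i j x hx]
        ring
    rw [e1]
    have hc : Continuous fun x => ∑ i, ∑ j, G i j x ^ 2 :=
      continuous_finsetSum _ fun i _ => continuous_finsetSum _ fun j _ =>
        (hG i j).continuous.pow 2
    refine setIntegral_mono (hc.continuousOn.integrableOn_compact hK)
      (integrableOn_const hK.measure_lt_top.ne) fun x => ?_
    have h2 : ∀ i j, G i j x ^ 2 ≤ M ^ 2 := fun i j => sq_le_sq' (by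
      have := neg_le_of_abs_le (hMG i j x)
      linarith) (le_of_abs_le (hMG i j x))
    calc ∑ i, ∑ j, G i j x ^ 2 ≤ ∑ i : Fin 3, ∑ j : Fin 3, M ^ 2 :=
          Finset.sum_le_sum fun i _ => Finset.sum_le_sum fun j _ => h2 i j
      _ = 9 * M ^ 2 := by
          simp
          ring
  have h2 : ∫ x in K, 9 * M ^ 2 = M ^ 2 * (9 * (volume K).toReal) := by
    rw [setIntegral_const, smul_eq_mul]
    unfold Measure.real
    ring
  rw [h2] at h1
  calc √(∫ x, ∑ i, ∑ j, G i j x ^ 2) ≤ √(M ^ 2 * (9 * (volume K).toReal)) :=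
        Real.sqrt_le_sqrt h1
    _ = _ := by rw [Real.sqrt_mul (by positivity), Real.sqrt_sq hM]

theorem osc_aa (D : Dat ν φ A B h P S K) (N : ℝ) (i j : Fin 3) : Amp S (osc φ A B N i j) :=
  osc_amp D.φs (((D.Ba i).neg.stat (cd_pd D.φs j)).sub ((D.Ba j).neg.stat (cd_pd D.φs i))).neg
    (((D.Aa i).stat (cd_pd D.φs j)).sub ((D.Aa j).stat (cd_pd D.φs i))) N

/-- the oscillating field -/
noncomputable def EN (φ : E3 → ℝ) (A B : Fin 3 → E3 → ℝ) (N : ℝ) : E3 → E3 := DG (osc φ A B N)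

theorem ef_DG (t N : ℝ) : ef ν φ A B h v N t = DG fun i j => Psi ν φ A B h v i j N t := by
  unfold ef DG
  congr 1
  funext i x
  unfold Xf
  have e2 : Tm φ (q5 ν) 0 (h i) (fun _ => 0) N t x = q5 ν (N ^ 2 * t) * h i x := by
    unfold Tm
    simp
  rw [e2, add_sub_cancel_right]
  rfl

theorem EN_eq (N : ℝ) : EN φ A B N = vec fun i x => Xf ν φ A B h v i N 0 x - h i x := by
  unfold EN DG
  congr 1
  funext i x
  exact (init_eq i N x).symm

theorem EN_test (hν : 0 < ν) (D : Dat ν φ A B h P S K) (hv : ∀ j, ContDiff ℝ ∞ (v j))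
    (hKΩ : K ⊆ Ω) {N : ℝ} (hN : 1 ≤ N) : IsTest Ω (EN φ A B N) := by
  have h1 := ef_test (v := v) hν D hv hKΩ hN 0
  have e : ef ν φ A B h v N 0 = EN φ A B N := by
    rw [EN_eq (ν := ν) (h := h) (v := v)]
    unfold ef
    have : q5 ν (N ^ 2 * 0) = 1 := by
      unfold q5
      rw [mul_zero, ex_zero]
      norm_num
    rw [this]
    simp only [one_mul]
  rwa [e] at h1

/-- **The oscillating field at positive times** in the dual norm. -/
theorem lam_ef (hb : Bornology.IsBounded Ω) (hΛ : IsLam (graphW Ω) Λ) (hν : 0 < ν)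
    (D : Dat ν φ A B h P S K) (hv : ∀ j, ContDiff ℝ ∞ (v j)) :
    ∃ C, 0 ≤ C ∧ ∀ N, 1 ≤ N → ∀ t, 0 ≤ t →
      ‖Λ (cl Ω (ef ν φ A B h v N t)) - q1 ν (N ^ 2 * t) • Λ (cl Ω (EN φ A B N))‖ ≤ C / N := by
  have hφ := D.φs
  have hSc : IsCompact S := D.Kc.of_isClosed_subset D.Sc D.SK
  choose C2 hC2 hQ using fun (p : Fin 3 × Fin 3) => (Qf_cl hν D hv p.1 p.2).bo.bound hν hSc
  set M : ℝ := ∑ p, C2 p with hM
  have hM0 : 0 ≤ M := Finset.sum_nonneg fun p _ => hC2 p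
  have hMp : ∀ p, C2 p ≤ M := fun p =>
    Finset.single_le_sum (f := C2) (fun p _ => hC2 p) (Finset.mem_univ p)
  refine ⟨M * √(9 * (volume S).toReal), by positivity, fun N hN t ht => ?_⟩
  have hN0 : 0 < N := by linarith
  have cQ : ∀ i j, ContDiff ℝ ∞ (Qf ν φ A B h v i j N t) := fun i j =>
    (Qf_cl hν D hv i j).bo.cdx hφ hN t
  have oQ : ∀ i j x, x ∉ S → Qf ν φ A B h v i j N t x = 0 := fun i j x hx =>
    (Qf_cl hν D hv i j).bo.off hN t hx
  have bQ : ∀ i j x, |Qf ν φ A B h v i j N t x| ≤ M := by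
    intro i j x
    have h1 := hQ (i, j) N hN t ht x
    have h2 : ev (ν / 2) N t ≤ 1 := ev_le_one (by positivity) ht
    rw [zpow_zero, mul_one] at h1
    refine h1.trans ?_
    have := hMp (i, j)
    have h3 := ev_pos (δ := ν / 2) (N := N) t
    calc C2 (i, j) * ev (ν / 2) N t ≤ M * 1 := by gcongr
      _ = M := mul_one _
  have e1 : ef ν φ A B h v N t = DG fun i j x => q1 ν (N ^ 2 * t) * osc φ A B N i j x
      + N⁻¹ * Qf ν φ A B h v i j N t x := by
    rw [ef_DG]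
    congr 1
    funext i j x
    exact Psi_split i j N t x
  rw [e1, cl_DG_lin hSc (fun i j => (osc_aa D N i j).smooth) (fun i j => (osc_aa D N i j).off) cQ oQ,
    map_add, map_smul, map_smul]
  have e2 : q1 ν (N ^ 2 * t) • Λ (cl Ω (DG (osc φ A B N)))
      + N⁻¹ • Λ (cl Ω (DG fun i j => Qf ν φ A B h v i j N t))
      - q1 ν (N ^ 2 * t) • Λ (cl Ω (EN φ A B N))
      = N⁻¹ • Λ (cl Ω (DG fun i j => Qf ν φ A B h v i j N t)) := by
    unfold EN
    abel
  rw [e2, norm_smul, norm_inv, Real.norm_of_nonneg hN0.le]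
  have h3 := lam_DG_bd hb hΛ hSc cQ oQ hM0 bQ
  calc N⁻¹ * ‖Λ (cl Ω (DG fun i j => Qf ν φ A B h v i j N t))‖
      ≤ N⁻¹ * (M * √(9 * (volume S).toReal)) := by gcongr
    _ = _ := by ring

/-- the square of the size of the oscillating field -/
noncomputable def mD (φ : E3 → ℝ) (A B : Fin 3 → E3 → ℝ) (N : ℝ) : ℝ :=
  ∫ x, ∑ i, ∑ j, osc φ A B N i j x ^ 2

theorem lam_EN (hb : Bornology.IsBounded Ω) (hΛ : IsLam (graphW Ω) Λ)
    (D : Dat ν φ A B h P S K) (N : ℝ) : ‖Λ (cl Ω (EN φ A B N))‖ ≤ √(mD φ A B N) := by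
  have hSc : IsCompact S := D.Kc.of_isClosed_subset D.Sc D.SK
  exact lam_DG hb hΛ hSc (fun i j => (osc_aa D N i j).smooth) fun i j => (osc_aa D N i j).off

/-- **The oscillating field tends to zero weakly.** -/
theorem weak_null (hΩ : IsOpen Ω) (hb : Bornology.IsBounded Ω) (hΛ : IsLam (graphW Ω) Λ)
    (hν : 0 < ν) (D : Dat ν φ A B h P S K) (hKΩ : K ⊆ Ω) {m : ℝ} (hm : ∀ N, mD φ A B N ≤ m)
    (y : L2M Ω) {η : ℝ} (hη : 0 < η) :
    ∃ N0 : ℝ, 1 ≤ N0 ∧ ∀ N, N0 ≤ N → |⟪y, Λ (cl Ω (EN φ A B N))⟫_ℝ| ≤ η := by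
  obtain ⟨C, Fr⟩ := exists_frame hΩ hb
  obtain ⟨q, hq, hdual⟩ := hΛ.dual (graphW_closed Ω) Fr.poinc y
  have hv : ∀ j : Fin 3, ContDiff ℝ ∞ ((fun _ _ => 0 : Fin 3 → E3 → ℝ) j) := fun j =>
    contDiff_const
  obtain ⟨Ci, hCi, hI⟩ := init_close hν D hv
  set r : ℝ := √m + 1 with hr
  have hr0 : 0 < r := by positivity
  -- approximation by a test field
  obtain ⟨p, hp, hpq⟩ : ∃ p ∈ preW Ω, ‖q - p‖ < η / (2 * r) := by
    have h1 : q ∈ closure (preW Ω : Set (L2V Ω × L2M Ω)) := hq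
    obtain ⟨p, hp, h2⟩ := Metric.mem_closure_iff.1 h1 (η / (2 * r)) (by positivity)
    rw [dist_eq_norm] at h2
    exact ⟨p, hp, h2⟩
  obtain ⟨ψ, hψ, hψ1, hψ2⟩ := hp
  have e1 : p.1 = cl Ω ψ := by
    apply Lp.ext
    filter_upwards [hψ1, (CK.test hψ).coe (Ω := Ω) hψ.compact] with x a b
    rw [a, b]
  set g : ℝ := Ci * (G1 ψ + G2 ψ) with hg
  have hg0 : 0 ≤ g := mul_nonneg hCi (add_nonneg (Real.sqrt_nonneg _) (Real.sqrt_nonneg _))
  refine ⟨max 1 (2 * g / η), le_max_left _ _, fun N hN => ?_⟩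
  have hN1 : 1 ≤ N := (le_max_left _ _).trans hN
  have hN0 : 0 < N := by linarith
  have hN2 : 2 * g / η ≤ N := (le_max_right _ _).trans hN
  rw [hdual]
  have hET := EN_test (Ω := Ω) hν D hv hKΩ hN1
  have h1 : |⟪cl Ω (EN φ A B N), p.1⟫_ℝ| ≤ η / 2 := by
    rw [e1, wint_cl hΩ.measurableSet hET hψ, EN_eq (ν := ν) (h := h) (v := fun _ _ => 0)]
    have h2 := (hI N hN1 ψ hψ.smooth hψ.compact).2
    have h3 : Ci / N * (G1 ψ + G2 ψ) ≤ η / 2 := by
      have : Ci / N * (G1 ψ + G2 ψ) = g / N := by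
        rw [hg]
        ring
      rw [this, div_le_iff₀ hN0]
      rw [div_le_iff₀ hη] at hN2
      linarith
    exact h2.trans h3
  have h2 : |⟪cl Ω (EN φ A B N), (q - p).1⟫_ℝ| ≤ η / 2 := by
    have hqp : q - p ∈ graphW Ω := (graphW Ω).sub_mem hq
      (Submodule.le_topologicalClosure _ ⟨ψ, hψ, hψ1, hψ2⟩)
    refine (hΛ.ge (f := cl Ω (EN φ A B N)) hqp).trans ?_
    have h3 : ‖Λ (cl Ω (EN φ A B N))‖ ≤ r := (lam_EN hb hΛ D N).trans (by
      have := Real.sqrt_le_sqrt (hm N)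
      linarith)
    have h4 : ‖(q - p).2‖ ≤ η / (2 * r) := (norm_snd_le (q - p)).trans hpq.le
    calc ‖Λ (cl Ω (EN φ A B N))‖ * ‖(q - p).2‖ ≤ r * (η / (2 * r)) := by gcongr
      _ = η / 2 := by field_simp
  have e2 : q.1 = p.1 + (q - p).1 := by
    rw [Prod.fst_sub]
    abel
  rw [e2, inner_add_right]
  exact (abs_add_le _ _).trans (by linarith)

variable {T : ℝ} {F F1 : ℝ → L2M Ω}

/-- **One stage**, in terms of the Riesz map. -/
theorem stageL (hloc : S_loc) (hun : S_univ) (hΩ : IsOpen Ω) (hb : Bornology.IsBounded Ω)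
    (hΛ : IsLam (graphW Ω) Λ)
    (hν : 0 < ν) (hT : 0 < T) (hF : FH T F F1) {v0 : E3 → E3} {v : ℝ → L2V Ω}
    (Sol : SolT Ω ν T F v0 v) (D : Dat ν φ A B h P S K) (hKΩ : K ⊆ Ω) {ε : ℝ} (hε : 0 < ε) :
    ∃ N1 : ℝ, 1 ≤ N1 ∧ ∀ N, N1 ≤ N → ∃ (w0 : E3 → E3) (u : ℝ → L2V Ω), SolT Ω ν T F w0 u ∧
      (∀ x, w0 x = v0 x + vec h x + EN φ A B N x) ∧ (∀ t ∈ Icc ε T, ‖u t - v t‖ ≤ ε) ∧
      ∀ t ∈ Icc 0 T, ‖u t - v t‖ ≤ ε ∨ ∃ l q : ℝ, 0 ≤ l ∧ l ≤ 1 ∧ 0 ≤ q ∧ q ≤ 1 ∧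
        ‖Λ (u t - cl Ω v0 - l • cl Ω (vec h)) - q • Λ (cl Ω (EN φ A B N))‖ ≤ ε := by
  have hv0 := Sol.test
  have hvs : ∀ j, ContDiff ℝ ∞ (fun x => v0 x j) := fun j => contDiff_coord hv0.smooth j
  set r : ℝ := ‖Λ‖ + 1 with hr
  have hr0 : 0 < r := by positivity
  have hr1 : 1 ≤ r := by
    have := norm_nonneg Λ
    linarith
  set ε0 : ℝ := ε / (3 * r) with hε0
  have hε0p : 0 < ε0 := by positivity
  have hε0ε : ε0 ≤ ε := by
    rw [hε0, div_le_iff₀ (by positivity)]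
    nlinarith
  obtain ⟨τ, hτ, hshort⟩ := short v Sol.cont hT (η := ε0) hε0p
  obtain ⟨N1, hN1, hN⟩ := stageX hloc hun hΩ hb hν hT hF Sol D hKΩ (ε := ε0)
    (ε' := min ε τ) hε0p (lt_min hε hτ)
  obtain ⟨Ce, hCe, hef⟩ := lam_ef (v := fun j x => v0 x j) hb hΛ hν D hvs
  refine ⟨max N1 (3 * Ce / ε), hN1.trans (le_max_left _ _), fun N hNN => ?_⟩
  have hNN1 : N1 ≤ N := (le_max_left _ _).trans hNN
  have hNN2 : 3 * Ce / ε ≤ N := (le_max_right _ _).trans hNN
  have hN' : 1 ≤ N := hN1.trans hNN1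
  have hNp : 0 < N := by linarith
  have hCeN : Ce / N ≤ ε / 3 := by
    rw [div_le_iff₀ hNp]
    rw [div_le_iff₀ hε] at hNN2
    linarith
  obtain ⟨u, Su, hu, hux⟩ := hN N hNN1
  have hht : IsTest Ω (vec h) := test_of D.Kc hKΩ (fun i => (D.ha i).smooth)
    (fun i x hx => (D.ha i).off x fun h => hx (D.SK h)) D.hd
  refine ⟨nw ν φ A B h v0 N, u, Su, fun x => ?_, fun t ht => ?_, fun t ht => ?_⟩
  · rw [EN_eq (ν := ν) (h := h) (v := fun j x => v0 x j)]
    ext i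
    show v0 x i + Xf ν φ A B h (fun j x => v0 x j) i N 0 x
      = v0 x i + h i x + (Xf ν φ A B h (fun j x => v0 x j) i N 0 x - h i x)
    ring
  · have := hu t ⟨(min_le_left _ _).trans ht.1, ht.2⟩
    linarith
  · rcases le_total (min ε τ) t with h1 | h1
    · left
      have := hu t ⟨h1, ht.2⟩
      linarith
    · right
      have htτ : t ≤ τ := h1.trans (min_le_right _ _)
      have het' := ef_test (v := fun j x => v0 x j) hν D hvs hKΩ hN' t
      have hτ0 : 0 ≤ N ^ 2 * t := mul_nonneg (by positivity) ht.1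
      refine ⟨q5 ν (N ^ 2 * t), q1 ν (N ^ 2 * t), q5_nonneg _, q5_le_one hν hτ0, q1_nonneg _,
        q1_le_one hν hτ0, ?_⟩
      have e1 : (vec fun i => Xf ν φ A B h (fun j x => v0 x j) i N t)
          = fun x => q5 ν (N ^ 2 * t) • vec h x
            + ef ν φ A B h (fun j x => v0 x j) N t x := by
        funext x
        ext i
        show Xf ν φ A B h (fun j x => v0 x j) i N t x = q5 ν (N ^ 2 * t) * h i x
          + (Xf ν φ A B h (fun j x => v0 x j) i N t x - q5 ν (N ^ 2 * t) * h i x)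
        ring
      have h2 := hux t ht
      have t1 : IsTest Ω (fun x => q5 ν (N ^ 2 * t) • vec h x) := hht.smul _
      rw [e1, cl_add' t1 het', (CK.test hht).cl_smul hht.compact] at h2
      have h3 := hshort t ht htτ
      rw [Sol.init] at h3
      have h4 := hef N hN' t ht.1
      have e2 : Λ (u t - cl Ω v0 - q5 ν (N ^ 2 * t) • cl Ω (vec h))
            - q1 ν (N ^ 2 * t) • Λ (cl Ω (EN φ A B N))
          = (Λ (u t - v t - (q5 ν (N ^ 2 * t) • cl Ω (vec h)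
            + cl Ω (ef ν φ A B h (fun j x => v0 x j) N t))) + Λ (v t - cl Ω v0))
            + (Λ (cl Ω (ef ν φ A B h (fun j x => v0 x j) N t))
              - q1 ν (N ^ 2 * t) • Λ (cl Ω (EN φ A B N))) := by
        simp only [map_sub, map_add, map_smul]
        abel
      rw [e2]
      have h5 : ‖Λ (u t - v t - (q5 ν (N ^ 2 * t) • cl Ω (vec h)
            + cl Ω (ef ν φ A B h (fun j x => v0 x j) N t)))‖ ≤ ε / 3 := by
        refine (Λ.le_opNorm _).trans ?_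
        calc ‖Λ‖ * _ ≤ r * ε0 := by
              gcongr
              rw [hr]
              linarith
          _ = ε / 3 := by
              rw [hε0]
              field_simp
      have h6 : ‖Λ (v t - cl Ω v0)‖ ≤ ε / 3 := by
        refine (Λ.le_opNorm _).trans ?_
        calc ‖Λ‖ * _ ≤ r * ε0 := by
              gcongr
              rw [hr]
              linarith
          _ = ε / 3 := by
              rw [hε0]
              field_simp
      refine (norm_add_le _ _).trans ?_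
      have := norm_add_le (Λ (u t - v t - (q5 ν (N ^ 2 * t) • cl Ω (vec h)
            + cl Ω (ef ν φ A B h (fun j x => v0 x j) N t)))) (Λ (v t - cl Ω v0))
      linarith

end Pool.Agent.J4H18.DN
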