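import Pool.Agent.J4H18.DN.L2

/-!
Changes of the initial velocity with an additive bound of the square of the dual norm of the error.
-/

set_option autoImplicit false
set_option linter.unusedSectionVars false

open MeasureTheory Set Filter Topology
open scoped InnerProductSpace ENNReal ContDiff NNReal

namespace Pool.Agent.J4H18.DN

open H772R2.NS
open Pool.Agent.W795.TQ
open Pool.Agent.Y303.LV (cl clj clj_coe)

theorem sq_small {R ε : ℝ} (hR : 0 ≤ R) (hε : 0 < ε) : ∃ δ : ℝ, 0 < δ ∧ δ ≤ ε ∧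
    ∀ a b : ℝ, 0 ≤ a → a ≤ R → 0 ≤ b → b ≤ δ → (a + b) ^ 2 ≤ a ^ 2 + ε := by
  refine ⟨min ε (min 1 (ε / (2 * R + 1))), lt_min hε (lt_min one_pos (by positivity)),
    min_le_left _ _, fun a b ha haR hb hbδ => ?_⟩
  have h1 : b ≤ 1 := hbδ.trans ((min_le_right _ _).trans (min_le_left _ _))
  have h2 : b ≤ ε / (2 * R + 1) := hbδ.trans ((min_le_right _ _).trans (min_le_right _ _))
  rw [le_div_iff₀ (by positivity)] at h2
  have h3 : a * b ≤ R * b := by gcongr
  have h4 : b * b ≤ 1 * b := by gcongr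
  nlinarith

variable {Ω K S : Set E3} {Λ : L2V Ω →L[ℝ] L2M Ω} {ν T μ μ' : ℝ} {F F1 : ℝ → L2M Ω}
  {g g' v0 : E3 → E3} {v : ℝ → L2V Ω} {φ : E3 → ℝ} {A B h : Fin 3 → E3 → ℝ} {P : E3 → ℝ}

/-- a change of the initial velocity, with the square of the size of the error -/
def QP (Λ : L2V Ω →L[ℝ] L2M Ω) (ν T : ℝ) (F : ℝ → L2M Ω) (g : E3 → E3) (μ : ℝ) : Prop :=
  ∀ (v0 : E3 → E3) (v : ℝ → L2V Ω), SolT Ω ν T F v0 v → ∀ (y : L2M Ω) (ε : ℝ), 0 < ε →
    ∃ (w0 e : E3 → E3) (u : ℝ → L2V Ω), SolT Ω ν T F w0 u ∧ IsTest Ω e ∧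
      (∀ x, w0 x = v0 x + g x + e x) ∧ (∀ t ∈ Icc ε T, ‖u t - v t‖ ≤ ε) ∧
      ‖y + Λ (cl Ω e)‖ ^ 2 ≤ ‖y‖ ^ 2 + μ + ε ∧
      ∀ t ∈ Icc 0 T, ‖u t - v t‖ ≤ ε ∨ ∃ l : ℝ, 0 ≤ l ∧ l ≤ 1 ∧
        ‖y + Λ (u t - cl Ω v0 - l • cl Ω g)‖ ^ 2 ≤ ‖y‖ ^ 2 + μ + ε

theorem cl_zero : cl Ω (fun _ => (0 : E3)) = 0 := by
  have h := cl_smul' (Ω := Ω) (zero_test (Ω := Ω)) 0
  simp only [smul_zero, zero_smul] at h
  exact h

theorem QP.zero (hμ : 0 ≤ μ) : QP Λ ν T F (fun _ => 0) μ := by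
  intro v0 v S y ε hε
  refine ⟨v0, fun _ => 0, v, S, zero_test, fun x => by simp, fun t _ => ?_, ?_,
    fun t _ => Or.inl ?_⟩
  · rw [sub_self, norm_zero]
    exact hε.le
  · rw [cl_zero, map_zero, add_zero]
    linarith
  · rw [sub_self, norm_zero]
    exact hε.le

theorem QP.mono (h : QP Λ ν T F g μ) (hμ : μ ≤ μ') : QP Λ ν T F g μ' := by
  intro v0 v S y ε hε
  obtain ⟨w0, e, u, a1, a2, a3, a4, a5, a6⟩ := h v0 v S y ε hε
  refine ⟨w0, e, u, a1, a2, a3, a4, by linarith, fun t ht => ?_⟩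
  rcases a6 t ht with b | ⟨l, b1, b2, b3⟩
  · exact Or.inl b
  · exact Or.inr ⟨l, b1, b2, by linarith⟩

/-- one stage -/
theorem QP.dat (hloc : S_loc) (hun : S_univ) (hΩ : IsOpen Ω) (hb : Bornology.IsBounded Ω)
    (hΛ : IsLam (graphW Ω) Λ) (hν : 0 < ν) (hT : 0 < T) (hF : FH T F F1)
    (D : Dat ν φ A B h P S K) (hKΩ : K ⊆ Ω) {m : ℝ} (hm : ∀ N, mD φ A B N ≤ m) :
    QP Λ ν T F (vec h) m := by
  intro v0 v Sol y ε hε
  have hm0 : 0 ≤ m := (integral_nonneg fun x => Finset.sum_nonneg fun i _ =>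
    Finset.sum_nonneg fun j _ => sq_nonneg _).trans (hm 0)
  obtain ⟨δ, hδ, hδε, hsq⟩ := sq_small (R := ‖y‖ + √m) (ε := ε / 2) (by positivity)
    (by positivity)
  obtain ⟨N1, hN1, hst⟩ := stageL hloc hun hΩ hb hΛ hν hT hF Sol D hKΩ (ε := δ) hδ
  obtain ⟨N2, hN2, hwn⟩ := weak_null hΩ hb hΛ hν D hKΩ hm y (η := ε / 4) (by positivity)
  set N := max N1 N2 with hN
  have hN' : 1 ≤ N := hN1.trans (le_max_left _ _)
  obtain ⟨w0, u, Su, a0, a1, a2⟩ := hst N (le_max_left _ _)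
  have hw := hwn N (le_max_right _ _)
  have hE := lam_EN hb hΛ D N
  have hE1 : ‖Λ (cl Ω (EN φ A B N))‖ ≤ √m := hE.trans (Real.sqrt_le_sqrt (hm N))
  have hE2 : ‖Λ (cl Ω (EN φ A B N))‖ ^ 2 ≤ m := by
    have := pow_le_pow_left₀ (norm_nonneg _) hE1 2
    rwa [Real.sq_sqrt hm0] at this
  have key : ∀ q : ℝ, 0 ≤ q → q ≤ 1 →
      ‖y + q • Λ (cl Ω (EN φ A B N))‖ ^ 2 ≤ ‖y‖ ^ 2 + m + ε / 2 := by
    intro q hq0 hq1
    rw [norm_add_sq_real, inner_smul_right, norm_smul, Real.norm_of_nonneg hq0, mul_pow]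
    have h1 : q * ⟪y, Λ (cl Ω (EN φ A B N))⟫_ℝ ≤ ε / 4 := by
      have h2 := le_abs_self ⟪y, Λ (cl Ω (EN φ A B N))⟫_ℝ
      calc q * ⟪y, Λ (cl Ω (EN φ A B N))⟫_ℝ ≤ q * (ε / 4) := by
            gcongr
            linarith
        _ ≤ 1 * (ε / 4) := by gcongr
        _ = ε / 4 := one_mul _
    have h3 : q ^ 2 * ‖Λ (cl Ω (EN φ A B N))‖ ^ 2 ≤ 1 * m := by
      gcongr
      nlinarith
    linarith
  have kn : ∀ q : ℝ, 0 ≤ q → q ≤ 1 → ‖y + q • Λ (cl Ω (EN φ A B N))‖ ≤ ‖y‖ + √m := by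
    intro q hq0 hq1
    refine (norm_add_le _ _).trans ?_
    rw [norm_smul, Real.norm_of_nonneg hq0]
    have : q * ‖Λ (cl Ω (EN φ A B N))‖ ≤ 1 * √m := by gcongr
    linarith
  have hv : ∀ j : Fin 3, ContDiff ℝ ∞ ((fun _ _ => 0 : Fin 3 → E3 → ℝ) j) := fun j =>
    contDiff_const
  refine ⟨w0, EN φ A B N, u, Su, EN_test hν D hv hKΩ hN', a0, fun t ht => ?_, ?_,
    fun t ht => ?_⟩
  · have := a1 t ⟨by linarith [ht.1], ht.2⟩
    linarith
  · have := key 1 zero_le_one le_rfl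
    rw [one_smul] at this
    linarith
  · rcases a2 t ht with h1 | ⟨l, q, l0, l1, q0, q1, h1⟩
    · left
      linarith
    · right
      refine ⟨l, l0, l1, ?_⟩
      have e : y + Λ (u t - cl Ω v0 - l • cl Ω (vec h)) = (y + q • Λ (cl Ω (EN φ A B N)))
          + (Λ (u t - cl Ω v0 - l • cl Ω (vec h)) - q • Λ (cl Ω (EN φ A B N))) := by abel
      rw [e]
      have h2 := norm_add_le (y + q • Λ (cl Ω (EN φ A B N)))
        (Λ (u t - cl Ω v0 - l • cl Ω (vec h)) - q • Λ (cl Ω (EN φ A B N)))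
      have h3 := hsq _ _ (norm_nonneg _) (kn q q0 q1) (norm_nonneg _) h1
      have h4 := pow_le_pow_left₀ (norm_nonneg _) h2 2
      have h5 := key q q0 q1
      linarith

/-- the path -/
def PQ (Λ : L2V Ω →L[ℝ] L2M Ω) (y : L2M Ω) (v0 g : E3 → E3) (L κ δ : ℝ) (x : L2V Ω) : Prop :=
  ∃ (l : ℝ) (z : L2M Ω), 0 ≤ l ∧ l ≤ L ∧ ‖y + z‖ ^ 2 ≤ κ ∧
    ‖Λ (x - cl Ω v0 - l • cl Ω g) - z‖ ≤ δ

theorem PQ.mono {y : L2M Ω} {L L' κ κ' δ δ' : ℝ} {x x' : L2V Ω} (h : PQ Λ y v0 g L κ δ x)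
    (h1 : L ≤ L') (h2 : κ ≤ κ') (h3 : δ + ‖Λ‖ * ‖x' - x‖ ≤ δ') : PQ Λ y v0 g L' κ' δ' x' := by
  obtain ⟨l, z, a1, a2, a3, a4⟩ := h
  refine ⟨l, z, a1, a2.trans h1, a3.trans h2, ?_⟩
  have e : Λ (x' - cl Ω v0 - l • cl Ω g) - z = (Λ (x - cl Ω v0 - l • cl Ω g) - z)
      + Λ (x' - x) := by
    simp only [map_sub]
    abel
  rw [e]
  have := norm_add_le (Λ (x - cl Ω v0 - l • cl Ω g) - z) (Λ (x' - x))
  have := Λ.le_opNorm (x' - x)
  linarith

/-- **Sums.** -/
theorem QP.add (tg : IsTest Ω g) (tg' : IsTest Ω g') (hμ : 0 ≤ μ) (hμ' : 0 ≤ μ')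
    (h : ∀ m : ℝ, 1 ≤ m → QP Λ ν T F (fun x => (1 / m) • g x) (μ / m))
    (h' : ∀ m : ℝ, 1 ≤ m → QP Λ ν T F (fun x => (1 / m) • g' x) (μ' / m)) :
    QP Λ ν T F (fun x => g x + g' x) (μ + μ') := by
  intro v0 v Sol y ε hε
  have hv0 := Sol.test
  set B0 : ℝ := ‖Λ (cl Ω g)‖ + ‖Λ (cl Ω g')‖ with hB0
  have hB00 : 0 ≤ B0 := by positivity
  set κ : ℝ := ‖y‖ ^ 2 + (μ + μ') + ε / 2 with hκ
  have hκ0 : 0 ≤ κ := by positivity
  obtain ⟨δ, hδ, hδε, hsq⟩ := sq_small (R := √κ) (ε := ε / 2) (Real.sqrt_nonneg _)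
    (by positivity)
  set r : ℝ := ‖Λ‖ + 1 with hr
  have hr0 : 0 < r := by positivity
  have hrΛ : ‖Λ‖ ≤ r := by linarith
  have hr1 : 1 ≤ r := by
    have := norm_nonneg Λ
    linarith
  obtain ⟨n, hn⟩ := exists_nat_ge (2 * B0 / δ)
  set m : ℝ := (n : ℝ) + 1 with hm
  have hm0 : 0 < m := by positivity
  have hm1 : 1 ≤ m := by
    have : (0 : ℝ) ≤ n := Nat.cast_nonneg n
    linarith
  have hBm : B0 / m ≤ δ / 2 := by
    rw [div_le_iff₀ hδ] at hn
    rw [div_le_iff₀ hm0]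
    have : δ / 2 * m = (n * δ + δ) / 2 := by
      rw [hm]
      ring
    linarith
  have hBm0 : 0 ≤ B0 / m := by positivity
  set ε1 : ℝ := δ / (4 * m * r) with hε1
  have hε1p : 0 < ε1 := by positivity
  have hmε : 2 * m * (r * ε1) = δ / 2 := by
    rw [hε1]
    field_simp
    ring
  have hmε' : 2 * m * ε1 ≤ δ / 2 := by
    rw [← hmε]
    have : ε1 ≤ r * ε1 := le_mul_of_one_le_left hε1p.le hr1
    gcongr
  have h1ε : ε1 ≤ ε := by
    have : 1 * ε1 ≤ 2 * m * ε1 := by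
      gcongr
      linarith
    linarith
  have tg2 : IsTest Ω (fun x => g x + g' x) := tg.add tg'
  -- the rounds
  have key : ∀ j : ℕ, ∃ (w0 e : E3 → E3) (u : ℝ → L2V Ω), SolT Ω ν T F w0 u ∧ IsTest Ω e ∧
      (∀ x, w0 x = v0 x + ((j : ℝ) / m) • (g x + g' x) + e x) ∧
      (∀ t ∈ Icc ε1 T, ‖u t - v t‖ ≤ 2 * j * ε1) ∧
      ‖y + Λ (cl Ω e)‖ ^ 2 ≤ ‖y‖ ^ 2 + j / m * (μ + μ') + 2 * j * ε1 ∧
      ∀ t ∈ Icc 0 T, ‖u t - v t‖ ≤ 2 * j * ε1 ∨
        PQ Λ y v0 (fun x => g x + g' x) (j / m) (‖y‖ ^ 2 + j / m * (μ + μ') + 2 * j * ε1)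
          (2 * j * (r * ε1) + B0 / m) (u t) := by
    intro j
    induction j with
    | zero =>
      refine ⟨v0, fun _ => 0, v, Sol, zero_test, fun x => ?_, fun t _ => ?_, ?_,
        fun t _ => Or.inl ?_⟩
      · simp
      · simp
      · rw [cl_zero, map_zero, add_zero]
        simp
      · simp
    | succ j ih =>
      obtain ⟨w, e, u, S1, t1, a0, a1, a2, a3⟩ := ih
      obtain ⟨w1, e1, u1, S2, t2, b0, b1, b2, b3⟩ := h m hm1 w u S1 (y + Λ (cl Ω e)) ε1 hε1p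
      obtain ⟨w2, e2, u2, S3, t3, c0, c1, c2, c3⟩ := h' m hm1 w1 u1 S2
        (y + Λ (cl Ω e) + Λ (cl Ω e1)) ε1 hε1p
      have hj0 : (0 : ℝ) ≤ j := Nat.cast_nonneg j
      have hjε : 0 ≤ 2 * (j : ℝ) * ε1 := by positivity
      have hjm : (j : ℝ) / m ≤ (j + 1) / m := by gcongr; linarith
      have hjμ : (j : ℝ) / m * (μ + μ') + μ / m + μ' / m = (j + 1) / m * (μ + μ') := by
        field_simp
        ring
      have hμm : 0 ≤ μ / m := by positivity
      have hμm' : 0 ≤ μ' / m := by positivity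
      have clw : cl Ω w = cl Ω v0 + ((j : ℝ) / m) • cl Ω (fun x => g x + g' x) + cl Ω e := by
        have t4 : IsTest Ω (fun x => ((j : ℝ) / m) • (g x + g' x)) := tg2.smul _
        have t5 : IsTest Ω (fun x => v0 x + ((j : ℝ) / m) • (g x + g' x)) := hv0.add t4
        have e0 : w = fun x => (v0 x + ((j : ℝ) / m) • (g x + g' x)) + e x := funext a0
        rw [e0, cl_add' t5 t1, cl_add' hv0 t4, cl_smul' tg2]
      have clw1 : cl Ω w1 = cl Ω w + (1 / m) • cl Ω g + cl Ω e1 := by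
        have t4 : IsTest Ω (fun x => (1 / m) • g x) := tg.smul _
        have t5 : IsTest Ω (fun x => w x + (1 / m) • g x) := S1.test.add t4
        have e0 : w1 = fun x => (w x + (1 / m) • g x) + e1 x := funext b0
        rw [e0, cl_add' t5 t2, cl_add' S1.test t4, cl_smul' tg]
      have gm : ∀ (l : ℝ) (k : E3 → E3), 0 ≤ l → l ≤ 1 →
          ‖l • Λ ((1 / m) • cl Ω k)‖ ≤ ‖Λ (cl Ω k)‖ / m := by
        intro l k l0 l1
        rw [map_smul, norm_smul, norm_smul, Real.norm_of_nonneg l0,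
          Real.norm_of_nonneg (by positivity)]
        calc l * (1 / m * ‖Λ (cl Ω k)‖) ≤ 1 * (1 / m * ‖Λ (cl Ω k)‖) := by gcongr
          _ = _ := by ring
      have hB0m : B0 / m = ‖Λ (cl Ω g)‖ / m + ‖Λ (cl Ω g')‖ / m := by
        rw [hB0, add_div]
      have pg : 0 ≤ ‖Λ (cl Ω g)‖ / m := by positivity
      have pg' : 0 ≤ ‖Λ (cl Ω g')‖ / m := by positivity
      refine ⟨w2, fun x => e x + (e1 x + e2 x), u2, S3, t1.add (t2.add t3), fun x => ?_,
        fun t ht => ?_, ?_, fun t ht => ?_⟩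
      · rw [c0, b0, a0]
        push_cast
        rw [add_div, add_smul, smul_add (1 / m)]
        beta_reduce
        abel
      · have e3 : u2 t - v t = (u2 t - u1 t) + ((u1 t - u t) + (u t - v t)) := by abel
        rw [e3]
        refine (norm_add_le _ _).trans ?_
        have := norm_add_le (u1 t - u t) (u t - v t)
        push_cast
        linarith [a1 t ht, b1 t ht, c1 t ht]
      · push_cast
        have e3 : y + Λ (cl Ω fun x => e x + (e1 x + e2 x))
            = y + Λ (cl Ω e) + Λ (cl Ω e1) + Λ (cl Ω e2) := by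
          have t6 : IsTest Ω (fun x => e1 x + e2 x) := t2.add t3
          rw [cl_add' t1 t6, cl_add' t2 t3, map_add, map_add]
          abel
        rw [e3]
        linarith
      · push_cast
        rcases c3 t ht with k1 | ⟨l, l0, l1, d1⟩
        · rcases b3 t ht with k2 | ⟨l, l0, l1, d1⟩
          · rcases a3 t ht with k3 | k3
            · left
              have e3 : u2 t - v t = (u2 t - u1 t) + ((u1 t - u t) + (u t - v t)) := by abel
              rw [e3]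
              refine (norm_add_le _ _).trans ?_
              have := norm_add_le (u1 t - u t) (u t - v t)
              linarith
            · right
              refine k3.mono hjm (by linarith) ?_
              have e3 : u2 t - u t = (u2 t - u1 t) + (u1 t - u t) := by abel
              rw [e3]
              have := norm_add_le (u2 t - u1 t) (u1 t - u t)
              have h5 : ‖Λ‖ * ‖u2 t - u1 t + (u1 t - u t)‖ ≤ r * (2 * ε1) := by
                gcongr
                linarith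
              linarith
          · right
            have h5 : ‖Λ‖ * ‖u2 t - u1 t‖ ≤ r * ε1 := by gcongr
            have h6 : 0 ≤ 2 * (j : ℝ) * (r * ε1) := by positivity
            have h7 : 0 ≤ r * ε1 := by positivity
            refine PQ.mono (x := u1 t) (L := j / m) (κ := ‖y‖ ^ 2 + (j + 1) / m * (μ + μ')
              + 2 * (j + 1) * ε1) (δ := B0 / m) ⟨j / m, Λ (cl Ω e)
                + Λ (u1 t - cl Ω w - l • cl Ω fun x => (1 / m) • g x), by positivity, le_rfl,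
                ?_, ?_⟩ hjm le_rfl (by linarith)
            · rw [← add_assoc]
              linarith
            · have e4 : Λ (u1 t - cl Ω v0 - ((j : ℝ) / m) • cl Ω fun x => g x + g' x)
                  - (Λ (cl Ω e) + Λ (u1 t - cl Ω w - l • cl Ω fun x => (1 / m) • g x))
                  = l • Λ ((1 / m) • cl Ω g) := by
                rw [clw, cl_smul' tg]
                simp only [map_sub, map_add, map_smul]
                abel
              rw [e4]
              have := gm l g l0 l1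
              linarith
        · right
          have h6 : 0 ≤ 2 * ((j : ℝ) + 1) * (r * ε1) := by positivity
          refine ⟨j / m, Λ (cl Ω e) + Λ (cl Ω e1)
            + Λ (u2 t - cl Ω w1 - l • cl Ω fun x => (1 / m) • g' x), by positivity, hjm, ?_, ?_⟩
          · have e5 : y + (Λ (cl Ω e) + Λ (cl Ω e1)
                + Λ (u2 t - cl Ω w1 - l • cl Ω fun x => (1 / m) • g' x))
                = y + Λ (cl Ω e) + Λ (cl Ω e1)
                + Λ (u2 t - cl Ω w1 - l • cl Ω fun x => (1 / m) • g' x) := by abel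
            rw [e5]
            linarith
          · have e4 : Λ (u2 t - cl Ω v0 - ((j : ℝ) / m) • cl Ω fun x => g x + g' x)
                - (Λ (cl Ω e) + Λ (cl Ω e1)
                  + Λ (u2 t - cl Ω w1 - l • cl Ω fun x => (1 / m) • g' x))
                = (1 : ℝ) • Λ ((1 / m) • cl Ω g) + l • Λ ((1 / m) • cl Ω g') := by
              rw [clw1, clw, cl_smul' tg', one_smul]
              simp only [map_sub, map_add, map_smul]
              abel
            rw [e4]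
            refine (norm_add_le _ _).trans ?_
            have q1 := gm 1 g zero_le_one le_rfl
            have q2 := gm l g' l0 l1
            linarith
  obtain ⟨w, e, u, S1, t1, a0, a1, a2, a3⟩ := key (n + 1)
  have hcast : ((n + 1 : ℕ) : ℝ) = m := by
    push_cast
    rfl
  rw [hcast, div_self hm0.ne'] at a0 a2 a3
  rw [hcast] at a1
  rw [one_mul] at a2 a3
  refine ⟨w, e, u, S1, t1, fun x => ?_, fun t ht => ?_, by linarith, fun t ht => ?_⟩
  · rw [a0, one_smul]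
  · have := a1 t ⟨h1ε.trans ht.1, ht.2⟩
    linarith
  · rcases a3 t ht with k | ⟨l, z, l0, l1, b1, b2⟩
    · left
      linarith
    · right
      refine ⟨l, l0, l1, ?_⟩
      have e1 : y + Λ (u t - cl Ω v0 - l • cl Ω fun x => g x + g' x)
          = (y + z) + (Λ (u t - cl Ω v0 - l • cl Ω fun x => g x + g' x) - z) := by abel
      rw [e1]
      have h1 : ‖y + z‖ ≤ √κ := by
        refine Real.le_sqrt_of_sq_le (b1.trans ?_)
        linarith
      have h2 : ‖Λ (u t - cl Ω v0 - l • cl Ω fun x => g x + g' x) - z‖ ≤ δ := by linarith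
      have h3 := hsq _ _ (norm_nonneg _) h1 (norm_nonneg _) h2
      have h4 := pow_le_pow_left₀ (norm_nonneg _) (norm_add_le (y + z)
        (Λ (u t - cl Ω v0 - l • cl Ω fun x => g x + g' x) - z)) 2
      linarith

/-- a field all multiples of which are available, with the cost of the unit multiple -/
def QA (Λ : L2V Ω →L[ℝ] L2M Ω) (ν T : ℝ) (F : ℝ → L2M Ω) (g : E3 → E3) (μ : ℝ) : Prop :=
  IsTest Ω g ∧ 0 ≤ μ ∧ ∀ c : ℝ, QP Λ ν T F (fun x => c • g x) (|c| * μ)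

theorem QA.zero : QA Λ ν T F (fun _ => 0) 0 :=
  ⟨zero_test, le_rfl, fun c => by
    simp only [smul_zero, mul_zero]
    exact QP.zero le_rfl⟩

theorem QA.smul (h : QA Λ ν T F g μ) (a : ℝ) : QA Λ ν T F (fun x => a • g x) (|a| * μ) := by
  refine ⟨h.1.smul a, mul_nonneg (abs_nonneg _) h.2.1, fun c => ?_⟩
  have := h.2.2 (c * a)
  simp only [smul_smul]
  rwa [abs_mul, mul_assoc] at this

theorem QA.add (h : QA Λ ν T F g μ) (h' : QA Λ ν T F g' μ') :
    QA Λ ν T F (fun x => g x + g' x) (μ + μ') := by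
  refine ⟨h.1.add h'.1, add_nonneg h.2.1 h'.2.1, fun c => ?_⟩
  have e : (fun x => c • (g x + g' x)) = fun x => c • g x + c • g' x := by
    funext x
    rw [smul_add]
  rw [e, mul_add]
  refine QP.add (h.1.smul c) (h'.1.smul c) (mul_nonneg (abs_nonneg _) h.2.1)
    (mul_nonneg (abs_nonneg _) h'.2.1) (fun m hm => ?_) fun m hm => ?_
  · have hm0 : 0 < m := by linarith
    have := h.2.2 (1 / m * c)
    simp only [smul_smul]
    have e2 : |1 / m * c| * μ = |c| * μ / m := by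
      rw [abs_mul, abs_of_pos (by positivity)]
      ring
    rwa [e2] at this
  · have hm0 : 0 < m := by linarith
    have := h'.2.2 (1 / m * c)
    simp only [smul_smul]
    have e2 : |1 / m * c| * μ' = |c| * μ' / m := by
      rw [abs_mul, abs_of_pos (by positivity)]
      ring
    rwa [e2] at this

/-- the available elements with cost at most `M` -/
def Hull (Λ : L2V Ω →L[ℝ] L2M Ω) (ν T : ℝ) (F : ℝ → L2M Ω) (M : ℝ) : Set (L2M Ω) :=
  {z | ∃ g μ, QA Λ ν T F g μ ∧ μ ≤ M ∧ Λ (cl Ω g) = z}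

theorem hull_convex (M : ℝ) : Convex ℝ (Hull Λ ν T F M) := by
  rintro z ⟨g, μ, h, hM, rfl⟩ z' ⟨g', μ', h', hM', rfl⟩ a b ha hb hab
  refine ⟨fun x => a • g x + b • g' x, |a| * μ + |b| * μ', (h.smul a).add (h'.smul b), ?_, ?_⟩
  · rw [abs_of_nonneg ha, abs_of_nonneg hb]
    calc a * μ + b * μ' ≤ a * M + b * M := by gcongr
      _ = M := by rw [← add_mul, hab, one_mul]
  · have t1 : IsTest Ω (fun x => a • g x) := h.1.smul a
    have t2 : IsTest Ω (fun x => b • g' x) := h'.1.smul b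
    rw [cl_add' t1 t2, cl_smul' h.1, cl_smul' h'.1, map_add, map_smul, map_smul]

theorem hull_zero {M : ℝ} (hM : 0 ≤ M) : (0 : L2M Ω) ∈ Hull Λ ν T F M :=
  ⟨fun _ => 0, 0, QA.zero, hM, by rw [cl_zero, map_zero]⟩

end Pool.Agent.J4H18.DN
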