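import Pool.Agent.J4H18.DN.L3

/-!
The data of the standard torus with an arbitrary radial profile.
-/

set_option autoImplicit false
set_option linter.unusedSectionVars false

open MeasureTheory Set Filter Topology
open scoped InnerProductSpace ENNReal ContDiff NNReal

namespace Pool.Agent.J4H18.DN

open H772R2.NS

/-- radial profiles -/
structure Pro (g : ℝ → ℝ) : Prop where
  cd : ContDiff ℝ ∞ g
  z : ∀ t, t ≤ 1 / 4 ∨ 1 ≤ t → g t = 0

variable {g : ℝ → ℝ}

theorem gb_pro : Pro gb := ⟨gb_cd, fun _ h => gb_zero h⟩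

noncomputable def gq (g : ℝ → ℝ) (x : E3) : ℝ := g (qq x)

theorem gq_cd (hg : Pro g) : ContDiff ℝ ∞ (gq g) := hg.cd.comp qq_cd

noncomputable def gPg (g : ℝ → ℝ) (t : ℝ) : ℝ := ∫ τ in (1 : ℝ)..t, -(g τ ^ 2 / 2)

theorem gPg_der (hg : Pro g) (t : ℝ) : HasDerivAt (gPg g) (-(g t ^ 2 / 2)) t := by
  have hc : Continuous fun τ => -(g τ ^ 2 / 2) := by
    have := hg.cd.continuous
    fun_prop
  exact intervalIntegral.integral_hasDerivAt_right (hc.intervalIntegrable _ _)
    (hc.stronglyMeasurableAtFilter _ _) hc.continuousAt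

theorem gPg_cd (hg : Pro g) : ContDiff ℝ ∞ (gPg g) := by
  rw [contDiff_infty_iff_deriv]
  refine ⟨fun t => (gPg_der hg t).differentiableAt, ?_⟩
  have : deriv (gPg g) = fun t => -(g t ^ 2 / 2) := funext fun t => (gPg_der hg t).deriv
  rw [this]
  exact ((hg.cd.pow 2).div_const 2).neg

theorem gPg_zero (hg : Pro g) {t : ℝ} (h : 1 ≤ t) : gPg g t = 0 := by
  unfold gPg
  have : ∫ τ in (1 : ℝ)..t, -(g τ ^ 2 / 2) = ∫ τ in (1 : ℝ)..t, (0 : ℝ) := by
    refine intervalIntegral.integral_congr fun τ hτ => ?_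
    rw [uIcc_of_le h] at hτ
    rw [hg.z τ (Or.inr hτ.1)]
    simp
  rw [this]
  simp

theorem pd_gq (hg : Pro g) {x : E3} (j : Fin 3) : pd j (gq g) x = deriv g (qq x) * pd j qq x :=
  pd_comp ((hg.cd.differentiable (by simp)) _).hasDerivAt qq_cd j

theorem DX_gq (hg : Pro g) {x : E3} (hx : 1 / 2 < ro x) : DX (gq g) x = 0 := by
  have h := DX_qq hx
  have h2 : DX (gq g) x = deriv g (qq x) * DX qq x := by
    unfold DX
    rw [Finset.mul_sum]
    refine Finset.sum_congr rfl fun j _ => ?_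
    rw [pd_gq hg]
    ring
  rw [h2, h, mul_zero]

theorem DY_gq (hg : Pro g) {x : E3} (hx : 1 / 2 < ro x) : DY (gq g) x = 0 := by
  have h := DY_qq hx
  have h2 : DY (gq g) x = deriv g (qq x) * DY qq x := by
    unfold DY
    rw [Finset.mul_sum]
    refine Finset.sum_congr rfl fun j _ => ?_
    rw [pd_gq hg]
    ring
  rw [h2, h, mul_zero]

noncomputable def aag (g : ℝ → ℝ) (x : E3) : ℝ := gq g x * bb x

noncomputable def dag (g : ℝ → ℝ) (x : E3) : ℝ := gq g x * ph x * ii x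

noncomputable def tAg (g : ℝ → ℝ) (β : ℝ) (i : Fin 3) (x : E3) : ℝ := aag g x * XX i x + β * (dag g x * YY i x)

noncomputable def tBg (g : ℝ → ℝ) (γ : ℝ) (i : Fin 3) (x : E3) : ℝ := γ * (dag g x * YY i x)

/-- the scalar factor of the force -/
noncomputable def ffg (g : ℝ → ℝ) (x : E3) : ℝ :=
  x 2 * (gq g x * gq g x * ph x * (2 * rr x + 3) * (ii x * ii x * ii x) * bi x)

/-- the force of the standard torus -/
noncomputable def hhg (g : ℝ → ℝ) (i : Fin 3) (x : E3) : ℝ := ffg g x * YY i x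

noncomputable def tPg (g : ℝ → ℝ) (x : E3) : ℝ := gPg g (qq x)

theorem aag_cd (hg : Pro g) : ContDiff ℝ ∞ (aag g) := (gq_cd hg).mul bb_cd

theorem dag_cd (hg : Pro g) : ContDiff ℝ ∞ (dag g) := ((gq_cd hg).mul ph_cd).mul ii_cd

theorem ffg_cd (hg : Pro g) : ContDiff ℝ ∞ (ffg g) :=
  (cdx 2).mul ((((((gq_cd hg).mul (gq_cd hg)).mul ph_cd).mul ((contDiff_const.mul rr_cd).add
    contDiff_const)).mul ((ii_cd.mul ii_cd).mul ii_cd)).mul bi_cd)

theorem gq_off (hg : Pro g) {x : E3} (hx : x ∉ S0) : gq g x = 0 := by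
  refine hg.z _ ?_
  by_contra h
  push Not at h
  exact hx ⟨h.1.le, h.2.le⟩

theorem tAg_amp (hg : Pro g) (β : ℝ) (i : Fin 3) : Amp S0 (tAg g β i) := by
  refine ⟨((aag_cd hg).mul (XX_cd i)).add (contDiff_const.mul ((dag_cd hg).mul (YY_cd i))), fun x hx => ?_⟩
  unfold tAg aag dag
  rw [gq_off hg hx]
  ring

theorem tBg_amp (hg : Pro g) (γ : ℝ) (i : Fin 3) : Amp S0 (tBg g γ i) := by
  refine ⟨contDiff_const.mul ((dag_cd hg).mul (YY_cd i)), fun x hx => ?_⟩
  unfold tBg dag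
  rw [gq_off hg hx]
  ring

theorem hhg_amp (hg : Pro g) (i : Fin 3) : Amp S0 (hhg g i) := by
  refine ⟨(ffg_cd hg).mul (YY_cd i), fun x hx => ?_⟩
  unfold hhg ffg
  rw [gq_off hg hx]
  ring

theorem tPg_amp (hg : Pro g) : Amp K0 (tPg g) := by
  refine ⟨(gPg_cd hg).comp qq_cd, fun x hx => ?_⟩
  refine gPg_zero hg ?_
  have h : ¬ qq x ≤ 1 := hx
  linarith [not_le.1 h]

variable {x : E3}

theorem DX_aag (hg : Pro g) (hx : x ∈ OO) : DX (aag g) x = gq g x * (x 2 * (ii x * ii x) * bi x) := by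
  have h : DX (aag g) x = DX (gq g) x * bb x + gq g x * DX bb x := DX_mul (gq_cd hg) bb_cd
  rw [h, DX_gq hg hx.1, DX_bb hx.1]
  ring

theorem DX_dag (hg : Pro g) (hx : x ∈ OO) : DX (dag g) x = gq g x * ph x * (x 2 * (ii x * ii x)) := by
  have h : DX (dag g) x = DX (fun x => gq g x * ph x) x * ii x + gq g x * ph x * DX ii x :=
    DX_mul ((gq_cd hg).mul ph_cd) ii_cd
  rw [h, DX_mul (gq_cd hg) ph_cd, DX_gq hg hx.1, DX_ph hx, DX_ii hx.1]
  ring

theorem DY_aag (hg : Pro g) (hx : x ∈ OO) : DY (aag g) x = 0 := by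
  have h : DY (aag g) x = DY (gq g) x * bb x + gq g x * DY bb x := DY_mul (gq_cd hg) bb_cd
  rw [h, DY_gq hg hx.1, DY_bb hx.1]
  ring

theorem DY_dag (hg : Pro g) (hx : x ∈ OO) : DY (dag g) x = 0 := by
  have h : DY (dag g) x = DY (fun x => gq g x * ph x) x * ii x + gq g x * ph x * DY ii x :=
    DY_mul ((gq_cd hg).mul ph_cd) ii_cd
  rw [h, DY_mul (gq_cd hg) ph_cd, DY_gq hg hx.1, DY_ph hx, DY_ii hx.1]
  ring

theorem DY_ffg (hg : Pro g) (hx : x ∈ OO) : DY (ffg g) x = 0 := by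
  have c1 := (gq_cd hg).mul (gq_cd hg)
  have c2 := c1.mul ph_cd
  have c3 : ContDiff ℝ ∞ (fun x => 2 * rr x + 3) := (contDiff_const.mul rr_cd).add contDiff_const
  have c4 := c2.mul c3
  have c5 := (ii_cd.mul ii_cd)
  have c6 := c5.mul ii_cd
  have c7 := c4.mul c6
  have c8 := c7.mul bi_cd
  have h3 : DY (fun x => 2 * rr x + 3) x = 0 := by
    have : DY (fun x => 2 * rr x + 3) x = 2 * DY rr x := by
      unfold DY
      rw [Finset.mul_sum]
      refine Finset.sum_congr rfl fun j _ => ?_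
      rw [pd_add (contDiff_const.mul rr_cd) contDiff_const, pd_smul rr_cd, pd_const]
      ring
    rw [this, DY_rr, mul_zero]
  unfold ffg
  rw [DY_mul (cdx 2) c8, DY_z, DY_mul c7 bi_cd, DY_bi, DY_mul c4 c6, DY_mul c5 ii_cd,
    DY_mul ii_cd ii_cd, DY_ii', DY_mul c2 c3, h3, DY_mul c1 ph_cd, DY_ph hx, DY_mul (gq_cd hg) (gq_cd hg),
    DY_gq hg hx.1]
  ring

theorem hhg_div (hg : Pro g) (x : E3) : ∑ i, pd i (hhg g i) x = 0 := by
  by_cases hx : x ∈ S0
  · have h1 : ∀ i, pd i (hhg g i) x = pd i (ffg g) x * YY i x + ffg g x * pd i (YY i) x := fun i =>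
      pd_mul (ffg_cd hg) (YY_cd i) i x
    simp only [h1]
    rw [Finset.sum_add_distrib, ← Finset.mul_sum, div_YY, mul_zero, add_zero]
    have h2 := DY_ffg hg (S0_OO hx)
    unfold DY at h2
    rw [← h2]
    exact Finset.sum_congr rfl fun j _ => by ring
  · exact Finset.sum_eq_zero fun i _ => ((hhg_amp hg i).pd S0_closed i).off x hx

theorem pd_tPg (hg : Pro g) (i : Fin 3) (x : E3) : pd i (tPg g) x = -(gq g x * gq g x / 2) * pd i qq x := by
  have h := pd_comp (gPg_der hg (qq x)) qq_cd i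
  have e : pd i (tPg g) x = pd i (fun x => gPg g (qq x)) x := rfl
  rw [e, h]
  unfold gq
  ring

theorem mean_Sg (hg : Pro g) {β γ : ℝ} (hβ : β * β + γ * γ = 1) (hx : x ∈ OO) (i : Fin 3) :
    (1 / 2) * ((∑ j, (tAg g β j x * pd j (tAg g β i) x + pd j (tAg g β j) x * tAg g β i x))
      + ∑ j, (tBg g γ j x * pd j (tBg g γ i) x + pd j (tBg g γ j) x * tBg g γ i x))
      = 2 * 1 * (-(β / 4) * hhg g i x) + pd i (tPg g) x := by
  have eA : ∀ i j, pd j (tAg g β i) x = (pd j (aag g) x * XX i x + aag g x * pd j (XX i) x)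
      + β * (pd j (dag g) x * YY i x + dag g x * pd j (YY i) x) := by
    intro i j
    have : pd j (tAg g β i) x = pd j (fun x => aag g x * XX i x + β * (dag g x * YY i x)) x := rfl
    rw [this, pd_add ((aag_cd hg).mul (XX_cd i)) (contDiff_const.mul ((dag_cd hg).mul (YY_cd i))),
      pd_mul (aag_cd hg) (XX_cd i), pd_smul ((dag_cd hg).mul (YY_cd i)), pd_mul (dag_cd hg) (YY_cd i)]
  have eB : ∀ i j, pd j (tBg g γ i) x = γ * (pd j (dag g) x * YY i x + dag g x * pd j (YY i) x) := by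
    intro i j
    have : pd j (tBg g γ i) x = pd j (fun x => γ * (dag g x * YY i x)) x := rfl
    rw [this, pd_smul ((dag_cd hg).mul (YY_cd i)), pd_mul (dag_cd hg) (YY_cd i)]
  have h1 := DX_aag hg hx
  have h2 := DX_dag hg hx
  have h3 := DY_aag hg hx
  have h4 := DY_dag hg hx
  have h5 := XX_XX hx i
  have h6 := XX_YY (x := x) i
  have h7 := YY_XX hx.1 i
  have h8 := YY_YY (x := x) i
  have h9 := div_XX hx.1
  have h10 := div_YY x
  have hr := rr_ii hx.1
  have hb := bb_sq hx.1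
  have hbi := bb_bi hx.1
  have hpp := pp_eq hx i
  have hq : pd i qq x = 2 * (ph x * pd i ph x) := by
    rw [pd_ph hx, pd_qq hx.1]
  rw [pd_tPg hg, hq]
  simp only [eA, eB]
  simp only [DX, DY, Fin.sum_univ_three] at h1 h2 h3 h4 h5 h6 h7 h8 h9 h10 ⊢
  have hA : ∀ j, tAg g β j x = aag g x * XX j x + β * (dag g x * YY j x) := fun j => rfl
  have hB : ∀ j, tBg g γ j x = γ * (dag g x * YY j x) := fun j => rfl
  simp only [hA, hB]
  have main : (1 / 2) * (2 * aag g x * (gq g x * (x 2 * (ii x * ii x) * bi x)) * XX i x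
      - aag g x * aag g x * (ph x * pd i ph x) - aag g x * aag g x * (x 2 * ii x) * XX i x
      + β * (aag g x * (gq g x * ph x * (x 2 * (ii x * ii x))) - 3 * (aag g x * dag g x * (x 2 * ii x))
        + (gq g x * (x 2 * (ii x * ii x) * bi x)) * dag g x) * YY i x
      - (β * β + γ * γ) * (dag g x * dag g x) * pp i x)
      = 2 * 1 * (-(β / 4) * hhg g i x) + -(gq g x * gq g x / 2) * (2 * (ph x * pd i ph x)) := by
    unfold aag dag hhg ffg
    linear_combination (gq g x * gq g x * x 2 * (ii x * ii x) * XX i x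
        + 1 / 2 * β * (gq g x * gq g x) * ph x * x 2 * YY i x * (2 * (ii x * ii x) * bb x)) * hbi
      + (-(1 / 2) * (gq g x * gq g x) * (ph x * pd i ph x + x 2 * ii x * XX i x)
        + 1 / 2 * β * (gq g x * gq g x) * ph x * x 2 * YY i x * (-2 * (ii x * ii x) * bi x)) * hb
      + (-(1 / 2) * (gq g x * ph x * ii x * (gq g x * ph x * ii x)) * pp i x) * hβ
      + (-(1 / 2) * (gq g x * gq g x) * (ii x * ii x)) * hpp
      + (1 / 2 * β * (gq g x * gq g x) * ph x * x 2 * YY i x * (2 * (ii x * ii x) * bi x)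
        - 1 / 2 * (gq g x * gq g x) * (-(x 2 * XX i x * ii x) + (rr x - 2) * (ph x * pd i ph x) * ii x)
        - 1 / 2 * (gq g x * gq g x) * (ph x * pd i ph x)) * hr
  rw [← main]
  linear_combination (1 / 2) * (aag g x * XX i x * h1 + aag g x * aag g x * h5 + aag g x * β * YY i x * h2
    + aag g x * β * dag g x * h6 + β * dag g x * XX i x * h3 + β * dag g x * aag g x * h7
    + β * β * dag g x * YY i x * h4 + β * β * (dag g x * dag g x) * h8
    + (aag g x * XX i x + β * (dag g x * YY i x)) * (h1 + aag g x * h9 + β * h4 + β * dag g x * h10)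
    + γ * γ * (dag g x * YY i x * h4 + dag g x * dag g x * h8)
    + γ * (γ * (dag g x * YY i x)) * (h4 + dag g x * h10))

/-- **The data of the standard torus.** -/
theorem dat0g (hg : Pro g) {β γ : ℝ} (hβ : β * β + γ * γ = 1) :
    Dat 1 ph (tAg g β) (tBg g γ) (fun i x => -(β / 4) * hhg g i x) (tPg g) S0 K0 where
  φs := ph_cd
  Sc := S0_closed
  Kc := K0_compact
  SK := fun x hx => hx.2
  unit := ⟨OO, OO_open, fun x hx => S0_OO hx, fun x hx => unit_ph hx⟩
  Aa := tAg_amp hg β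
  Ba := tBg_amp hg γ
  tA := by
    intro x
    by_cases hx : x ∈ S0
    · have h1 := tan_XX (S0_OO hx)
      have h2 := tan_YY (S0_OO hx)
      simp only [Fin.sum_univ_three, tAg] at h1 h2 ⊢
      linear_combination aag g x * h1 + β * dag g x * h2
    · exact Finset.sum_eq_zero fun i _ => by rw [(tAg_amp hg β i).off x hx, mul_zero]
  tB := by
    intro x
    by_cases hx : x ∈ S0
    · have h2 := tan_YY (S0_OO hx)
      simp only [Fin.sum_univ_three, tBg] at h2 ⊢
      linear_combination γ * dag g x * h2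
    · exact Finset.sum_eq_zero fun i _ => by rw [(tBg_amp hg γ i).off x hx, mul_zero]
  ha := fun i => (hhg_amp hg i).smul _
  hd := by
    intro x
    have h := hhg_div hg x
    have e : ∀ i, pd i (fun x => -(β / 4) * hhg g i x) x = -(β / 4) * pd i (hhg g i) x := fun i =>
      pd_smul (hhg_amp hg i).smooth _ i x
    simp only [e]
    rw [← Finset.mul_sum, h, mul_zero]
  Pa := (tPg_amp hg)
  mean := by
    intro i x
    by_cases hx : x ∈ S0
    · exact mean_Sg hg hβ (S0_OO hx) i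
    · have a1 : ∀ j, tAg g β j x = 0 := fun j => (tAg_amp hg β j).off x hx
      have a2 : ∀ j, pd j (tAg g β j) x = 0 := fun j => ((tAg_amp hg β j).pd S0_closed j).off x hx
      have b1 : ∀ j, tBg g γ j x = 0 := fun j => (tBg_amp hg γ j).off x hx
      have b2 : ∀ j, pd j (tBg g γ j) x = 0 := fun j => ((tBg_amp hg γ j).pd S0_closed j).off x hx
      rw [pd_tPg hg, gq_off hg hx, (hhg_amp hg i).off x hx]
      simp [a1, a2, b1, b2]

end Pool.Agent.J4H18.DN
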