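import Pool.Agent.J4H18.DN.L4

/-!
All torus fields with all radial profiles, with bounds of the amplitudes; the cost of a torus.
-/

set_option autoImplicit false
set_option linter.unusedSectionVars false

open MeasureTheory Set Filter Topology
open scoped InnerProductSpace ENNReal ContDiff NNReal

namespace Pool.Agent.J4H18.DN

open H772R2.NS
open Pool.Agent.W795.TQ
open Pool.Agent.Y303.LV (cl clj clj_coe)

variable {g : ℝ → ℝ} {ν s : ℝ} {φ : E3 → ℝ} {A B h : Fin 3 → E3 → ℝ} {P : E3 → ℝ}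
  {S K Ω : Set E3}

theorem hhg_gb : hhg gb = hh := rfl

/-- the sum of the squares of the amplitudes -/
noncomputable def SD (A B : Fin 3 → E3 → ℝ) : ℝ := ∫ x, ∑ i, (A i x ^ 2 + B i x ^ 2)

/-- the sum of the absolute values of the amplitudes -/
noncomputable def LD (A B : Fin 3 → E3 → ℝ) : ℝ := ∫ x, ∑ i, (|A i x| + |B i x|)

theorem SD_nonneg : 0 ≤ SD A B := integral_nonneg fun x => Finset.sum_nonneg fun i _ => by positivity

theorem LD_nonneg : 0 ≤ LD A B := integral_nonneg fun x => Finset.sum_nonneg fun i _ => by positivity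

theorem osc_sq (n a b : Fin 3 → ℝ) (c d : ℝ) (h : c ^ 2 + d ^ 2 = 1) :
    ∑ i, ∑ j, (-(n j * -b i - n i * -b j) * c + (n j * a i - n i * a j) * d) ^ 2
      ≤ 2 * (∑ j, n j * n j) * ∑ i, (a i ^ 2 + b i ^ 2) := by
  have h1 : ∀ p q : ℝ, (p * c + q * d) ^ 2 ≤ p ^ 2 + q ^ 2 := by
    intro p q
    have h2 : (p * c + q * d) ^ 2 + (p * d - q * c) ^ 2 = (p ^ 2 + q ^ 2) * (c ^ 2 + d ^ 2) := by
      ring
    rw [h, mul_one] at h2
    nlinarith [sq_nonneg (p * d - q * c)]
  refine (Finset.sum_le_sum fun i _ => Finset.sum_le_sum fun j _ => h1 _ _).trans ?_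
  have e : 2 * (∑ j, n j * n j) * ∑ i, (a i ^ 2 + b i ^ 2)
      = (∑ i, ∑ j, ((-(n j * -b i - n i * -b j)) ^ 2 + (n j * a i - n i * a j) ^ 2))
        + 2 * (∑ j, n j * a j) ^ 2 + 2 * (∑ j, n j * b j) ^ 2 := by
    simp only [Fin.sum_univ_three]
    ring
  rw [e]
  nlinarith [sq_nonneg (∑ j, n j * a j), sq_nonneg (∑ j, n j * b j)]

theorem sq_int (D : Dat ν φ A B h P S K) : Integrable fun x => ∑ i, (A i x ^ 2 + B i x ^ 2) := by
  have hSc : IsCompact S := D.Kc.of_isClosed_subset D.Sc D.SK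
  refine Continuous.integrable_of_hasCompactSupport (continuous_finsetSum _ fun i _ =>
    ((D.Aa i).smooth.continuous.pow 2).add ((D.Ba i).smooth.continuous.pow 2)) ?_
  refine HasCompactSupport.intro hSc fun x hx => Finset.sum_eq_zero fun i _ => ?_
  rw [(D.Aa i).off x hx, (D.Ba i).off x hx]
  ring

theorem abs_int (D : Dat ν φ A B h P S K) : Integrable fun x => ∑ i, (|A i x| + |B i x|) := by
  have hSc : IsCompact S := D.Kc.of_isClosed_subset D.Sc D.SK
  refine Continuous.integrable_of_hasCompactSupport (continuous_finsetSum _ fun i _ =>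
    ((D.Aa i).smooth.continuous.abs).add ((D.Ba i).smooth.continuous.abs)) ?_
  refine HasCompactSupport.intro hSc fun x hx => Finset.sum_eq_zero fun i _ => ?_
  rw [(D.Aa i).off x hx, (D.Ba i).off x hx]
  simp

theorem mD_le (D : Dat ν φ A B h P S K) (N : ℝ) : mD φ A B N ≤ 2 * SD A B := by
  have hSc : IsCompact S := D.Kc.of_isClosed_subset D.Sc D.SK
  unfold mD SD
  rw [← integral_const_mul]
  refine integral_mono ?_ ((sq_int D).const_mul _) fun x => ?_
  · refine Continuous.integrable_of_hasCompactSupport (continuous_finsetSum _ fun i _ =>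
      continuous_finsetSum _ fun j _ => (osc_aa D N i j).smooth.continuous.pow 2) ?_
    refine HasCompactSupport.intro hSc fun x hx => Finset.sum_eq_zero fun i _ =>
      Finset.sum_eq_zero fun j _ => ?_
    rw [(osc_aa D N i j).off x hx]
    ring
  · by_cases hx : x ∈ S
    · have h1 := osc_sq (fun j => pd j φ x) (fun i => A i x) (fun i => B i x)
        (Real.cos (N * φ x)) (Real.sin (N * φ x)) (Real.cos_sq_add_sin_sq _)
      rw [D.ph.u1 hx, mul_one] at h1
      exact h1
    · have h1 : ∑ i, ∑ j, osc φ A B N i j x ^ 2 = 0 := Finset.sum_eq_zero fun i _ =>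
        Finset.sum_eq_zero fun j _ => by
          rw [(osc_aa D N i j).off x hx]
          ring
      simp only
      rw [h1]
      exact mul_nonneg (by norm_num) (Finset.sum_nonneg fun i _ => by positivity)

/-- the integral of a power of the profile -/
noncomputable def ρ1 (g : ℝ → ℝ) : ℝ := ∫ w : E3, |g (qq w)|

noncomputable def ρ2 (g : ℝ → ℝ) : ℝ := ∫ w : E3, g (qq w) ^ 2

theorem ρ1_nonneg : 0 ≤ ρ1 g := integral_nonneg fun x => abs_nonneg _

theorem ρ2_nonneg : 0 ≤ ρ2 g := integral_nonneg fun x => sq_nonneg _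

/-- change of variables -/
theorem integral_TT (R : E3 ≃ₗᵢ[ℝ] E3) (y : E3) (hs : 0 < s) (f : E3 → ℝ) :
    ∫ x, f (TT R y s x) = s ^ 3 * ∫ w, f w := by
  unfold TT
  have h1 : ∫ x, f (s⁻¹ • R (x - y)) = ∫ x, f (s⁻¹ • R x) :=
    integral_sub_right_eq_self (fun x => f (s⁻¹ • R x)) y
  have h2 : ∫ x, f (s⁻¹ • R x) = ∫ x, f (s⁻¹ • x) := integral_rot R fun x => f (s⁻¹ • x)
  rw [h1, h2, Measure.integral_comp_inv_smul_of_nonneg volume f hs.le]
  simp

theorem amp_prof : ∃ M : ℝ, 0 ≤ M ∧ ∀ g, Pro g → ∀ β : ℝ, |β| ≤ 1 → ∀ i x,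
    |tAg g β i x| ≤ M * |g (qq x)| ∧ |tBg g β i x| ≤ M * |g (qq x)| := by
  have hc1 : ∀ i, Continuous fun x => bb x * XX i x := fun i =>
    bb_cd.continuous.mul (XX_cd i).continuous
  have hc2 : ∀ i, Continuous fun x => ph x * ii x * YY i x := fun i =>
    (ph_cd.continuous.mul ii_cd.continuous).mul (YY_cd i).continuous
  choose M1 hM1 using fun i => K0_compact.exists_bound_of_continuousOn (hc1 i).continuousOn
  choose M2 hM2 using fun i => K0_compact.exists_bound_of_continuousOn (hc2 i).continuousOn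
  set M : ℝ := ∑ i, (|M1 i| + |M2 i|) with hM
  have hMi : ∀ i, |M1 i| + |M2 i| ≤ M := fun i =>
    Finset.single_le_sum (f := fun i => |M1 i| + |M2 i|) (fun i _ => by positivity)
      (Finset.mem_univ i)
  refine ⟨M, Finset.sum_nonneg fun i _ => by positivity, fun g hg β hβ i x => ?_⟩
  by_cases hx : x ∈ K0
  · have h1 := hM1 i x hx
    have h2 := hM2 i x hx
    rw [Real.norm_eq_abs] at h1 h2
    have h3 := hMi i
    have h4 := le_abs_self (M1 i)
    have h5 := le_abs_self (M2 i)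
    have h6 : |β| * |ph x * ii x * YY i x| ≤ 1 * |M2 i| :=
      mul_le_mul hβ (h2.trans h5) (abs_nonneg _) zero_le_one
    constructor
    · have e : tAg g β i x = g (qq x) * (bb x * XX i x + β * (ph x * ii x * YY i x)) := by
        unfold tAg aag dag gq
        ring
      rw [e, abs_mul, mul_comm]
      have h7 := abs_add_le (bb x * XX i x) (β * (ph x * ii x * YY i x))
      rw [abs_mul β] at h7
      gcongr
      linarith
    · have e : tBg g β i x = g (qq x) * (β * (ph x * ii x * YY i x)) := by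
        unfold tBg dag gq
        ring
      rw [e, abs_mul, abs_mul β, mul_comm]
      have h8 := abs_nonneg (M1 i)
      gcongr
      linarith
  · have h0 : g (qq x) = 0 := gq_off hg fun h => hx h.2
    have e1 : tAg g β i x = 0 := (tAg_amp hg β i).off x fun h => hx h.2
    have e2 : tBg g β i x = 0 := (tBg_amp hg β i).off x fun h => hx h.2
    rw [e1, e2, h0]
    simp

theorem rot_prof (R : E3 ≃ₗᵢ[ℝ] E3) (y : E3) (s : ℝ) {F : Fin 3 → E3 → ℝ} {M : ℝ}
    (hF : ∀ i x, |F i x| ≤ M * |g (qq x)|) (i : Fin 3) (x : E3) :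
    |rot R y s F i x| ≤ 3 * M * |g (qq (TT R y s x))| := by
  unfold rot
  refine (Finset.abs_sum_le_sum_abs _ _).trans ?_
  have h1 : ∀ a, |ent R a i * F a (TT R y s x)| ≤ M * |g (qq (TT R y s x))| := by
    intro a
    rw [abs_mul]
    have h2 := ent_le R a i
    have h3 := hF a (TT R y s x)
    have h4 := abs_nonneg (F a (TT R y s x))
    calc |ent R a i| * |F a (TT R y s x)| ≤ 1 * |F a (TT R y s x)| := by gcongr
      _ ≤ _ := by rw [one_mul]; exact h3
  refine (Finset.sum_le_sum fun a _ => h1 a).trans ?_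
  simp
  linarith

theorem g_cs (hg : Pro g) : HasCompactSupport fun w : E3 => g (qq w) :=
  HasCompactSupport.intro K0_compact fun x hx => gq_off hg fun h => hx h.2

/-- **All multiples of all torus fields with all profiles**, with bounds. -/
theorem dat_g (hν : 0 < ν) : ∃ C0 : ℝ, 0 ≤ C0 ∧ ∀ g, Pro g → ∀ (R : E3 ≃ₗᵢ[ℝ] E3) (y : E3)
    (s : ℝ), 0 < s → ∀ c : ℝ, ∃ (φ : E3 → ℝ) (A B : Fin 3 → E3 → ℝ) (P : E3 → ℝ) (S K : Set E3),
      Dat ν φ A B (fun i x => c * rot R y s (hhg g) i x) P S K ∧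
      K ⊆ Metric.closedBall y (4 * s) ∧ SD A B ≤ C0 ^ 2 * |c| * s ^ 4 * ρ2 g ∧
      LD A B ≤ C0 * √(|c| * s) * s ^ 3 * ρ1 g := by
  obtain ⟨M, hM, hMg⟩ := amp_prof
  refine ⟨18 * M * √(20 / 3 * ν), by positivity, fun g hg R y s hs c => ?_⟩
  obtain ⟨β, γ, hβ, hc, hβ1, hγ1⟩ : ∃ β γ : ℝ, β * β + γ * γ = 1 ∧ -(β / 4) * (|c| * 20 / 3) = c ∧
      |β| ≤ 1 ∧ |γ| ≤ 1 := by
    rcases le_total 0 c with h | h
    · refine ⟨-3 / 5, 4 / 5, by norm_num, ?_, by rw [abs_le]; constructor <;> norm_num,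
        by rw [abs_le]; constructor <;> norm_num⟩
      rw [abs_of_nonneg h]
      ring
    · refine ⟨3 / 5, 4 / 5, by norm_num, ?_, by rw [abs_le]; constructor <;> norm_num,
        by rw [abs_le]; constructor <;> norm_num⟩
      rw [abs_of_nonpos h]
      ring
  set μ : ℝ := Real.sqrt (|c| * 20 / 3 * (s * ν)) with hμ
  have hμ0 : 0 ≤ μ := Real.sqrt_nonneg _
  have hμ2 : μ ^ 2 = |c| * 20 / 3 * (s * ν) := Real.sq_sqrt (by positivity)
  have hμe : μ = √(20 / 3 * ν) * √(|c| * s) := by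
    rw [hμ, ← Real.sqrt_mul (by positivity)]
    congr 1
    ring
  have D := (dat0g hg hβ).transport R y hs hν μ
  have key : (fun (i : Fin 3) (x : E3) => μ ^ 2 * 1 / (s * ν)
      * rot R y s (fun i x => -(β / 4) * hhg g i x) i x) = fun i x => c * rot R y s (hhg g) i x := by
    funext i x
    rw [hμ2]
    unfold rot
    have e : |c| * 20 / 3 * (s * ν) * 1 / (s * ν) = |c| * 20 / 3 := by field_simp
    rw [e]
    simp only [Fin.sum_univ_three]
    linear_combination (ent R 0 i * hhg g 0 (TT R y s x) + ent R 1 i * hhg g 1 (TT R y s x)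
      + ent R 2 i * hhg g 2 (TT R y s x)) * hc
  rw [key] at D
  have bA : ∀ i x, |μ * rot R y s (tAg g β) i x| ≤ μ * (3 * M * |g (qq (TT R y s x))|) := by
    intro i x
    rw [abs_mul, abs_of_nonneg hμ0]
    have := rot_prof (g := g) R y s (fun i x => (hMg g hg β hβ1 i x).1) i x
    gcongr
  have bB : ∀ i x, |μ * rot R y s (tBg g γ) i x| ≤ μ * (3 * M * |g (qq (TT R y s x))|) := by
    intro i x
    rw [abs_mul, abs_of_nonneg hμ0]
    have := rot_prof (g := g) R y s (fun i x => (hMg g hg γ hγ1 i x).2) i x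
    gcongr
  have hgc : Continuous fun w : E3 => g (qq w) := hg.cd.continuous.comp qq_cd.continuous
  have hcs : HasCompactSupport fun x : E3 => g (qq (TT R y s x)) :=
    HasCompactSupport.intro (pre_compact (R := R) (y := y) hs K0_compact) fun x hx =>
      gq_off hg fun h => hx h.2
  have hgcT : Continuous fun x : E3 => g (qq (TT R y s x)) :=
    hgc.comp (TT_cd R y s).continuous
  refine ⟨_, _, _, _, _, _, D, pre_K0 R y hs, ?_, ?_⟩
  · have h1 : SD (fun i x => μ * rot R y s (tAg g β) i x) (fun i x => μ * rot R y s (tBg g γ) i x)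
        ≤ ∫ x, 54 * (μ ^ 2 * M ^ 2) * g (qq (TT R y s x)) ^ 2 := by
      unfold SD
      refine integral_mono (sq_int D) ?_ fun x => ?_
      · refine (Continuous.integrable_of_hasCompactSupport (hgcT.pow 2) ?_).const_mul _
        exact hcs.comp_left (g := fun t => t ^ 2) (by simp)
      · simp only
        have h2 : ∀ i : Fin 3, (μ * rot R y s (tAg g β) i x) ^ 2 + (μ * rot R y s (tBg g γ) i x) ^ 2
            ≤ 18 * (μ ^ 2 * M ^ 2) * g (qq (TT R y s x)) ^ 2 := by
          intro i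
          have a1 := sq_le_sq' (neg_le_of_abs_le (bA i x)) (le_of_abs_le (bA i x))
          have a2 := sq_le_sq' (neg_le_of_abs_le (bB i x)) (le_of_abs_le (bB i x))
          have a3 : (μ * (3 * M * |g (qq (TT R y s x))|)) ^ 2
              = 9 * (μ ^ 2 * M ^ 2) * g (qq (TT R y s x)) ^ 2 := by
            rw [mul_pow, mul_pow, mul_pow, sq_abs]
            ring
          rw [a3] at a1 a2
          linarith
        refine (Finset.sum_le_sum fun i _ => h2 i).trans (le_of_eq ?_)
        simp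
        ring
    rw [integral_const_mul, integral_TT R y hs fun w => g (qq w) ^ 2] at h1
    refine h1.trans (le_of_eq_of_le (b := 54 * (μ ^ 2 * M ^ 2) * (s ^ 3 * ρ2 g)) rfl ?_)
    rw [hμ2]
    have h3 : (18 * M * √(20 / 3 * ν)) ^ 2 = 324 * M ^ 2 * (20 / 3 * ν) := by
      rw [mul_pow, Real.sq_sqrt (by positivity)]
      ring
    rw [h3]
    have h4 : 0 ≤ |c| * s ^ 4 * ν * M ^ 2 * ρ2 g := by
      have := ρ2_nonneg (g := g)
      positivity
    nlinarith
  · have h1 : LD (fun i x => μ * rot R y s (tAg g β) i x) (fun i x => μ * rot R y s (tBg g γ) i x)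
        ≤ ∫ x, 18 * (μ * M) * |g (qq (TT R y s x))| := by
      unfold LD
      refine integral_mono (abs_int D) ?_ fun x => ?_
      · refine (Continuous.integrable_of_hasCompactSupport hgcT.abs ?_).const_mul _
        exact hcs.comp_left (g := fun t => |t|) (by simp)
      · simp only
        have h2 : ∀ i : Fin 3, |μ * rot R y s (tAg g β) i x| + |μ * rot R y s (tBg g γ) i x|
            ≤ 6 * (μ * M) * |g (qq (TT R y s x))| := by
          intro i
          have a1 := bA i x
          have a2 := bB i x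
          have a3 : μ * (3 * M * |g (qq (TT R y s x))|) = 3 * (μ * M) * |g (qq (TT R y s x))| := by
            ring
          rw [a3] at a1 a2
          linarith
        refine (Finset.sum_le_sum fun i _ => h2 i).trans (le_of_eq ?_)
        simp
        ring
    rw [integral_const_mul, integral_TT R y hs fun w => |g (qq w)|] at h1
    refine h1.trans (le_of_eq ?_)
    rw [hμe]
    unfold ρ1
    ring

variable {Λ : L2V Ω →L[ℝ] L2M Ω} {T : ℝ} {F F1 : ℝ → L2M Ω}

/-- **The cost of a torus.** -/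
theorem QA_torus (hloc : S_loc) (hun : S_univ) (hΩ : IsOpen Ω) (hb : Bornology.IsBounded Ω)
    (hΛ : IsLam (graphW Ω) Λ) (hν : 0 < ν) (hT : 0 < T) (hF : FH T F F1) :
    ∃ Cs : ℝ, 0 < Cs ∧ ∀ (R : E3 ≃ₗᵢ[ℝ] E3) (y : E3) (s : ℝ), 0 < s →
      Metric.closedBall y (4 * s) ⊆ Ω → QA Λ ν T F (vec (rot R y s hh)) (Cs * s ^ 4) := by
  obtain ⟨C0, hC0, hD⟩ := dat_g hν
  have hρ := ρ2_nonneg (g := gb)
  refine ⟨2 * C0 ^ 2 * ρ2 gb + 1, by positivity, fun R y s hs hB => ?_⟩
  refine ⟨torus_test R y hs hB, by positivity, fun c => ?_⟩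
  obtain ⟨φ, A, B, P, S, K, D, hK, h1, -⟩ := hD gb gb_pro R y s hs c
  have e : (fun x => c • vec (rot R y s hh) x) = vec fun i x => c * rot R y s (hhg gb) i x := by
    funext x
    ext i
    rfl
  rw [e]
  refine QP.dat hloc hun hΩ hb hΛ hν hT hF D (hK.trans hB) fun N => (mD_le D N).trans ?_
  have h2 : 0 ≤ |c| * s ^ 4 := by positivity
  nlinarith

end Pool.Agent.J4H18.DN
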