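import Pool.Agent.J4H18.DN.L5

/-!
The potentials of the torus fields and their moments.
-/

set_option autoImplicit false
set_option linter.unusedSectionVars false

open MeasureTheory Set Filter Topology
open scoped InnerProductSpace ENNReal ContDiff NNReal

namespace Pool.Agent.J4H18.DN

open H772R2.NS
open Pool.Agent.Y303.LV (cl clj clj_coe)

variable {g : ℝ → ℝ} {s : ℝ} {x : E3}

theorem ct8_cd : ContDiff ℝ ∞ (ct Real.sqrt (1 / 8)) := ct_cd sqrt_cdo (by norm_num)

/-- the antiderivative of the weighted square of the profile -/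
noncomputable def Qg (g : ℝ → ℝ) (t : ℝ) : ℝ := ∫ τ in (1 : ℝ)..t, g τ ^ 2 * ct Real.sqrt (1 / 8) τ

theorem Qg_der (hg : Pro g) (t : ℝ) : HasDerivAt (Qg g) (g t ^ 2 * ct Real.sqrt (1 / 8) t) t := by
  have hc : Continuous fun τ => g τ ^ 2 * ct Real.sqrt (1 / 8) τ :=
    (hg.cd.continuous.pow 2).mul ct8_cd.continuous
  exact intervalIntegral.integral_hasDerivAt_right (hc.intervalIntegrable _ _)
    (hc.stronglyMeasurableAtFilter _ _) hc.continuousAt

theorem Qg_cd (hg : Pro g) : ContDiff ℝ ∞ (Qg g) := by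
  rw [contDiff_infty_iff_deriv]
  refine ⟨fun t => (Qg_der hg t).differentiableAt, ?_⟩
  have : deriv (Qg g) = fun t => g t ^ 2 * ct Real.sqrt (1 / 8) t :=
    funext fun t => (Qg_der hg t).deriv
  rw [this]
  exact (hg.cd.pow 2).mul ct8_cd

theorem Qg_zero (hg : Pro g) {t : ℝ} (h : 1 ≤ t) : Qg g t = 0 := by
  unfold Qg
  have : ∫ τ in (1 : ℝ)..t, g τ ^ 2 * ct Real.sqrt (1 / 8) τ = ∫ τ in (1 : ℝ)..t, (0 : ℝ) := by
    refine intervalIntegral.integral_congr fun τ hτ => ?_
    rw [uIcc_of_le h] at hτ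
    rw [hg.z τ (Or.inr hτ.1)]
    simp
  rw [this]
  simp

noncomputable def Wt (x : E3) : ℝ := (2 * rr x + 3) * (ii x * ii x * ii x) * bi x

noncomputable def Fg (g : ℝ → ℝ) (x : E3) : ℝ := 1 / 2 * (Qg g (qq x) * Wt x)

/-- the potential -/
noncomputable def Tg (g : ℝ → ℝ) (i j : Fin 3) (x : E3) : ℝ :=
  Fg g x * (YY i x * e2 j - e2 i * YY j x)

theorem Wt_cd : ContDiff ℝ ∞ Wt :=
  (((contDiff_const.mul rr_cd).add contDiff_const).mul ((ii_cd.mul ii_cd).mul ii_cd)).mul bi_cd

theorem Fg_cd (hg : Pro g) : ContDiff ℝ ∞ (Fg g) :=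
  contDiff_const.mul (((Qg_cd hg).comp qq_cd).mul Wt_cd)

theorem YE_cd (i j : Fin 3) : ContDiff ℝ ∞ fun x => YY i x * e2 j - e2 i * YY j x :=
  ((YY_cd i).mul contDiff_const).sub (contDiff_const.mul (YY_cd j))

theorem Fg_off (hg : Pro g) (hx : x ∉ K0) : Fg g x = 0 := by
  have h : ¬ qq x ≤ 1 := hx
  unfold Fg
  rw [Qg_zero hg (not_le.1 h).le]
  ring

theorem Tg_amp (hg : Pro g) (i j : Fin 3) : Amp K0 (Tg g i j) :=
  ⟨(Fg_cd hg).mul (YE_cd i j), fun x hx => by
    unfold Tg
    rw [Fg_off hg hx]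
    ring⟩

theorem pd2_ro {H : ℝ → ℝ} (hH : ContDiff ℝ ∞ H) : pd 2 (fun x => H (ro x)) x = 0 := by
  rw [pd_comp ((hH.differentiable (by simp)) _).hasDerivAt ro_cd, pd_ro]
  simp [pp]

theorem pd2_rr : pd 2 rr x = 0 := pd2_ro (ct_cd sqrt_cdo (by norm_num))

theorem pd2_ii : pd 2 ii x = 0 := pd2_ro (ct_cd inv_cdo (by norm_num))

theorem pd2_bi : pd 2 bi x = 0 := pd2_ro (ct_cd bi_cdo (by norm_num))

theorem pd_c3 (j : Fin 3) : pd j (fun x => 2 * rr x + 3) x = 2 * pd j rr x := by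
  rw [pd_add (contDiff_const.mul rr_cd) contDiff_const, pd_smul rr_cd, pd_const, add_zero]

theorem c3_cd : ContDiff ℝ ∞ (fun x => 2 * rr x + 3) :=
  (contDiff_const.mul rr_cd).add contDiff_const

theorem pd_Wt (j : Fin 3) : pd j Wt x
    = ((pd j (fun x => 2 * rr x + 3) x * (ii x * ii x * ii x) + (2 * rr x + 3)
        * ((pd j ii x * ii x + ii x * pd j ii x) * ii x + ii x * ii x * pd j ii x)) * bi x
      + (2 * rr x + 3) * (ii x * ii x * ii x) * pd j bi x) := by
  have c5 := ii_cd.mul ii_cd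
  have c6 := c5.mul ii_cd
  have c7 := c3_cd.mul c6
  have e : pd j Wt x = pd j (fun x => (2 * rr x + 3) * (ii x * ii x * ii x) * bi x) x := rfl
  rw [e, pd_mul c7 bi_cd, pd_mul c3_cd c6, pd_mul c5 ii_cd, pd_mul ii_cd ii_cd]

theorem pd2_Wt : pd 2 Wt x = 0 := by
  rw [pd_Wt, pd_c3, pd2_rr, pd2_ii, pd2_bi]
  ring

theorem DY_Wt : DY Wt x = 0 := by
  have h1 := DY_rr (x := x)
  have h2 := DY_ii' (x := x)
  have h3 := DY_bi (x := x)
  unfold DY at h1 h2 h3 ⊢
  simp only [Fin.sum_univ_three, pd_Wt, pd_c3] at h1 h2 h3 ⊢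
  linear_combination (2 * (ii x * ii x * ii x) * bi x) * h1
    + ((2 * rr x + 3) * (3 * (ii x * ii x)) * bi x) * h2
    + ((2 * rr x + 3) * (ii x * ii x * ii x)) * h3

theorem pd_qqg (j : Fin 3) : pd j qq x = 2 * (rr x - 2) * pd j rr x + 2 * x 2 * e2 j := by
  have c1 : ContDiff ℝ ∞ (fun x => rr x - 2) := rr_cd.sub contDiff_const
  have h : pd j qq x = (pd j (fun x => rr x - 2) x * (rr x - 2)
      + (rr x - 2) * pd j (fun x => rr x - 2) x)
      + (pd j (fun x : E3 => x 2) x * x 2 + x 2 * pd j (fun x : E3 => x 2) x) := by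
    unfold qq
    rw [pd_add (c1.mul c1) ((cdx 2).mul (cdx 2)), pd_mul c1 c1, pd_mul (cdx 2) (cdx 2)]
  have h2 : pd j (fun x => rr x - 2) x = pd j rr x := by
    rw [pd_sub rr_cd contDiff_const, pd_const, sub_zero]
  rw [h, h2, pd_coord]
  fin_cases j <;> simp [e2] <;> ring

theorem pd2_qq : pd 2 qq x = 2 * x 2 := by
  rw [pd_qqg, pd2_rr]
  simp [e2]

theorem DY_qqg : DY qq x = 0 := by
  have h1 := DY_rr (x := x)
  unfold DY at h1 ⊢
  simp only [Fin.sum_univ_three, pd_qqg] at h1 ⊢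
  simp [YY, e2] at h1 ⊢
  linear_combination (2 * (rr x - 2)) * h1

theorem pd_Fg (hg : Pro g) (j : Fin 3) : pd j (Fg g) x
    = 1 / 2 * (g (qq x) ^ 2 * ph x * pd j qq x * Wt x + Qg g (qq x) * pd j Wt x) := by
  have cQ : ContDiff ℝ ∞ fun x => Qg g (qq x) := (Qg_cd hg).comp qq_cd
  have e : pd j (Fg g) x = pd j (fun x => 1 / 2 * (Qg g (qq x) * Wt x)) x := rfl
  rw [e, pd_smul (cQ.mul Wt_cd), pd_mul cQ Wt_cd, pd_comp (Qg_der hg (qq x)) qq_cd]
  rfl

/-- **The potential of the torus field.** -/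
theorem div_Tg (hg : Pro g) (i : Fin 3) (x : E3) : ∑ j, pd j (Tg g i j) x = hhg g i x := by
  have h1 : ∀ j, pd j (Tg g i j) x = pd j (Fg g) x * (YY i x * e2 j - e2 i * YY j x) := by
    intro j
    have e : pd j (Tg g i j) x = pd j (fun x => Fg g x * (YY i x * e2 j - e2 i * YY j x)) x := rfl
    have e3 : pd j (fun x => YY i x * e2 j - e2 i * YY j x) x = dy i j * e2 j - e2 i * dy j j := by
      rw [pd_sub ((YY_cd i).mul contDiff_const) (contDiff_const.mul (YY_cd j)),
        pd_mul (YY_cd i) contDiff_const, pd_smul (YY_cd j), pd_YY, pd_YY, pd_const]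
      ring
    have e4 : dy i j * e2 j - e2 i * dy j j = 0 := by
      fin_cases i <;> fin_cases j <;> simp [dy, e2]
    rw [e, pd_mul (Fg_cd hg) (YE_cd i j), e3, e4, mul_zero, add_zero]
  have h2 := DY_qqg (x := x)
  have h3 := DY_Wt (x := x)
  have h4 : DY (Fg g) x = 0 := by
    unfold DY at h2 h3 ⊢
    simp only [Fin.sum_univ_three, pd_Fg hg] at h2 h3 ⊢
    linear_combination (1 / 2 * (g (qq x) ^ 2 * ph x) * Wt x) * h2
      + (1 / 2 * Qg g (qq x)) * h3
  have h5 : pd 2 (Fg g) x = ffg g x := by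
    rw [pd_Fg hg, pd2_qq, pd2_Wt]
    unfold ffg Wt gq
    ring
  rw [Finset.sum_congr rfl fun j _ => h1 j]
  have h6 : ∑ j, pd j (Fg g) x * (YY i x * e2 j - e2 i * YY j x)
      = YY i x * pd 2 (Fg g) x - e2 i * DY (Fg g) x := by
    unfold DY
    have e20 : e2 0 = 0 := by simp [e2]
    have e21 : e2 1 = 0 := by simp [e2]
    have e22 : e2 2 = 1 := by simp [e2]
    simp only [Fin.sum_univ_three, e20, e21, e22]
    ring
  rw [h6, h4, h5]
  unfold hhg
  ring

/-! ### moments -/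

theorem Fg_inv {x x' : E3} (h1 : ro x' = ro x) (h2 : x' 2 * x' 2 = x 2 * x 2) :
    Fg g x' = Fg g x := by
  have a1 : rr x' = rr x := by
    unfold rr
    rw [h1]
  have a2 : ii x' = ii x := by
    unfold ii
    rw [h1]
  have a3 : bi x' = bi x := by
    unfold bi
    rw [h1]
  have a4 : qq x' = qq x := by
    unfold qq
    rw [a1, h2]
  unfold Fg Wt
  rw [a1, a2, a3, a4]

theorem Fg_sg (a : Fin 3) (w : E3) : Fg g (sg a w) = Fg g w := by
  refine Fg_inv ?_ ?_
  · unfold ro
    rw [sg_apply, sg_apply]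
    by_cases h0 : (0 : Fin 3) = a <;> by_cases h1 : (1 : Fin 3) = a <;> simp [h0, h1]
  · rw [sg_apply]
    by_cases h0 : (2 : Fin 3) = a <;> simp [h0]

theorem Fg_sw (w : E3) : Fg g (sw w) = Fg g w := by
  obtain ⟨a0, a1, a2⟩ := sw_apply w
  exact Fg_inv (by unfold ro; rw [a0, a1]; ring) (by rw [a2])

/-- the moments of the scalar potential -/
noncomputable def MF (a c : Fin 3) : ℝ := ∫ w : E3, Fg gb w * (w a * w c)

noncomputable def MF1 (a : Fin 3) : ℝ := ∫ w : E3, Fg gb w * w a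

theorem MF_zero {a c : Fin 3} (h : a ≠ c) : MF a c = 0 := by
  have h1 : MF a c = ∫ w : E3, (fun w : E3 => Fg gb w * (w a * w c)) (sg a w) :=
    (integral_rot (sg a) _).symm
  have h2 : ∀ w : E3, (fun w : E3 => Fg gb w * (w a * w c)) (sg a w)
      = -(Fg gb w * (w a * w c)) := by
    intro w
    simp only
    rw [Fg_sg, sg_apply, sg_apply, if_pos rfl, if_neg (Ne.symm h)]
    ring
  simp only [h2] at h1
  rw [integral_neg] at h1
  have h3 : MF a c = -MF a c := h1
  linarith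

theorem MF1_zero (a : Fin 3) : MF1 a = 0 := by
  have h1 : MF1 a = ∫ w : E3, (fun w : E3 => Fg gb w * w a) (sg a w) :=
    (integral_rot (sg a) _).symm
  have h2 : ∀ w : E3, (fun w : E3 => Fg gb w * w a) (sg a w) = -(Fg gb w * w a) := by
    intro w
    simp only
    rw [Fg_sg, sg_apply, if_pos rfl]
    ring
  simp only [h2] at h1
  rw [integral_neg] at h1
  have h3 : MF1 a = -MF1 a := h1
  linarith

/-- the constant of the representation -/
noncomputable def θ0 : ℝ := MF 0 0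

theorem MF_11 : MF 1 1 = θ0 := by
  have h1 : MF 1 1 = ∫ w : E3, (fun w : E3 => Fg gb w * (w 1 * w 1)) (sw w) :=
    (integral_rot sw _).symm
  rw [h1]
  unfold θ0 MF
  congr 1
  funext w
  obtain ⟨a0, a1, a2⟩ := sw_apply w
  simp only
  rw [Fg_sw, a1]

theorem Qg_neg {t : ℝ} (h : t ≤ 1) : Qg gb t ≤ 0 := by
  unfold Qg
  rw [intervalIntegral.integral_symm]
  have : 0 ≤ ∫ τ in t..(1 : ℝ), gb τ ^ 2 * ct Real.sqrt (1 / 8) τ :=
    intervalIntegral.integral_nonneg h fun τ _ =>
      mul_nonneg (sq_nonneg _) (ct_nonneg (Real.sqrt_nonneg _))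
  linarith

theorem Qg_lt {t : ℝ} (h0 : 1 / 4 < t) (h : t < 1) : Qg gb t < 0 := by
  unfold Qg
  rw [intervalIntegral.integral_symm]
  have hc : Continuous fun τ => gb τ ^ 2 * ct Real.sqrt (1 / 8) τ :=
    (gb_cd.continuous.pow 2).mul ct8_cd.continuous
  have : 0 < ∫ τ in t..(1 : ℝ), gb τ ^ 2 * ct Real.sqrt (1 / 8) τ := by
    refine intervalIntegral.intervalIntegral_pos_of_pos_on (hc.intervalIntegrable _ _)
      (fun τ hτ => ?_) h
    have h1 := gb_pos (h0.trans hτ.1) hτ.2
    have h2 : 0 < ct Real.sqrt (1 / 8) τ := by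
      have : (1 : ℝ) / 8 ≤ τ := by linarith [hτ.1]
      rw [ct_eq (by norm_num) this]
      exact Real.sqrt_pos.2 (by linarith)
    positivity
  linarith

theorem Wt_nonneg (w : E3) : 0 ≤ Wt w := by
  unfold Wt
  have h3 : 0 ≤ rr w := ct_nonneg (Real.sqrt_nonneg _)
  have h4 : 0 ≤ ii w := ct_nonneg (F := fun t => 1 / Real.sqrt t) (by positivity)
  have h5 : 0 ≤ bi w := ct_nonneg (F := fun t => 1 / Real.sqrt (1 + 2 / Real.sqrt t))
    (by positivity)
  positivity

theorem Fg_nonpos (w : E3) : Fg gb w ≤ 0 := by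
  unfold Fg
  have h1 : Qg gb (qq w) ≤ 0 := by
    rcases le_total (qq w) 1 with h | h
    · exact Qg_neg h
    · rw [Qg_zero gb_pro h]
  have := Wt_nonneg w
  nlinarith

theorem Fg_cs : HasCompactSupport (Fg gb) :=
  HasCompactSupport.intro K0_compact fun _ hx => Fg_off gb_pro hx

theorem θ0_neg : θ0 < 0 := by
  have hc : Continuous fun w : E3 => -(Fg gb w * (w 0 * w 0)) :=
    ((Fg_cd gb_pro).continuous.mul ((cdx 0).continuous.mul (cdx 0).continuous)).neg
  have hcs : HasCompactSupport fun w : E3 => -(Fg gb w * (w 0 * w 0)) := by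
    refine HasCompactSupport.intro K0_compact fun w hw => ?_
    rw [Fg_off gb_pro hw]
    ring
  have h1 : 0 < ∫ w : E3, -(Fg gb w * (w 0 * w 0)) := by
    refine hc.integral_pos_of_hasCompactSupport_nonneg_nonzero hcs ?_ (x := ?_) ?_
    · exact (WithLp.toLp 2 ![2, 0, 3 / 4] : E3)
    · intro w
      show (0 : ℝ) ≤ -(Fg gb w * (w 0 * w 0))
      have := Fg_nonpos w
      have := mul_self_nonneg (w 0)
      nlinarith
    · set w : E3 := WithLp.toLp 2 ![2, 0, 3 / 4] with hw
      have w0 : w 0 = 2 := rfl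
      have w1 : w 1 = 0 := rfl
      have w2 : w 2 = 3 / 4 := rfl
      have r0 : ro w = 4 := by
        unfold ro
        rw [w0, w1]
        norm_num
      have hr : 1 / 2 < ro w := by
        rw [r0]
        norm_num
      have r1 : rr w = 2 := by
        have h1 := rr_sq hr
        have h2 := rr_pos hr
        rw [r0] at h1
        nlinarith
      have q0 : qq w = 9 / 16 := by
        unfold qq
        rw [r1, w2]
        norm_num
      have g3 : 0 < ii w := by
        have h1 := rr_ii hr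
        rw [r1] at h1
        linarith
      have g4 : 0 < bi w := by
        have h1 := bb_bi hr
        have h2 : 0 ≤ bb w := ct_nonneg (Real.sqrt_nonneg _)
        by_contra h3
        push Not at h3
        nlinarith
      have g5 : Qg gb (qq w) < 0 := by
        rw [q0]
        exact Qg_lt (by norm_num) (by norm_num)
      have g6 : 0 < Wt w := by
        unfold Wt
        rw [r1]
        positivity
      have : 0 < -(Fg gb w * (w 0 * w 0)) := by
        unfold Fg
        rw [w0]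
        nlinarith [mul_pos (neg_pos.2 g5) g6]
      exact this.ne'
  rw [integral_neg] at h1
  unfold θ0 MF
  linarith

theorem FY_int (i c : Fin 3) : Integrable fun w : E3 => Fg gb w * YY i w * w c :=
  Continuous.integrable_of_hasCompactSupport
    (((Fg_cd gb_pro).continuous.mul (YY_cd i).continuous).mul (cdx c).continuous)
    ((Fg_cs.mul_right).mul_right)

theorem FY_int1 (i : Fin 3) : Integrable fun w : E3 => Fg gb w * YY i w :=
  Continuous.integrable_of_hasCompactSupport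
    ((Fg_cd gb_pro).continuous.mul (YY_cd i).continuous) Fg_cs.mul_right

theorem FY_mom (i c : Fin 3) : ∫ w : E3, Fg gb w * YY i w * w c = θ0 * dy i c := by
  have h0 : ∫ w : E3, Fg gb w * YY 0 w * w c = -MF 1 c := by
    unfold MF
    rw [← integral_neg]
    congr 1
    funext w
    simp only [YY]
    simp
    ring
  have h1 : ∫ w : E3, Fg gb w * YY 1 w * w c = MF 0 c := by
    unfold MF
    congr 1
    funext w
    simp only [YY]
    simp
    ring
  have h2 : ∫ w : E3, Fg gb w * YY 2 w * w c = 0 := by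
    have : (fun w : E3 => Fg gb w * YY 2 w * w c) = fun _ => 0 := by
      funext w
      simp [YY]
    rw [this]
    simp
  fin_cases i
  · show ∫ w : E3, Fg gb w * YY 0 w * w c = θ0 * dy 0 c
    rw [h0]
    fin_cases c
    · simp [dy, MF_zero (show (1 : Fin 3) ≠ 0 by decide)]
    · simp [dy, MF_11]
    · simp [dy, MF_zero (show (1 : Fin 3) ≠ 2 by decide)]
  · show ∫ w : E3, Fg gb w * YY 1 w * w c = θ0 * dy 1 c
    rw [h1]
    fin_cases c
    · simp [dy, θ0]
    · simp [dy, MF_zero (show (0 : Fin 3) ≠ 1 by decide)]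
    · simp [dy, MF_zero (show (0 : Fin 3) ≠ 2 by decide)]
  · show ∫ w : E3, Fg gb w * YY 2 w * w c = θ0 * dy 2 c
    rw [h2]
    fin_cases c <;> simp [dy]

theorem FY_mom1 (i : Fin 3) : ∫ w : E3, Fg gb w * YY i w = 0 := by
  have h0 : ∫ w : E3, Fg gb w * YY 0 w = -MF1 1 := by
    unfold MF1
    rw [← integral_neg]
    congr 1
    funext w
    simp [YY]
  have h1 : ∫ w : E3, Fg gb w * YY 1 w = MF1 0 := rfl
  have h2 : ∫ w : E3, Fg gb w * YY 2 w = 0 := by
    have : (fun w : E3 => Fg gb w * YY 2 w) = fun _ => 0 := by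
      funext w
      simp [YY]
    rw [this]
    simp
  fin_cases i
  · show ∫ w : E3, Fg gb w * YY 0 w = 0
    rw [h0, MF1_zero, neg_zero]
  · show ∫ w : E3, Fg gb w * YY 1 w = 0
    rw [h1, MF1_zero]
  · exact h2

theorem T_mom1 (i j : Fin 3) : ∫ w : E3, Tg gb i j w = 0 := by
  have e : (fun w : E3 => Tg gb i j w) = fun w =>
      e2 j * (Fg gb w * YY i w) - e2 i * (Fg gb w * YY j w) := by
    funext w
    unfold Tg
    ring
  rw [e, integral_sub ((FY_int1 i).const_mul _) ((FY_int1 j).const_mul _), integral_const_mul,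
    integral_const_mul, FY_mom1, FY_mom1]
  ring

theorem T_mom (i j c : Fin 3) : ∫ w : E3, Tg gb i j w * w c
    = θ0 * (dy i c * e2 j - e2 i * dy j c) := by
  have e : (fun w : E3 => Tg gb i j w * w c) = fun w =>
      e2 j * (Fg gb w * YY i w * w c) - e2 i * (Fg gb w * YY j w * w c) := by
    funext w
    unfold Tg
    ring
  rw [e, integral_sub ((FY_int i c).const_mul _) ((FY_int j c).const_mul _), integral_const_mul,
    integral_const_mul, FY_mom, FY_mom]
  ring

/-! ### rotated potentials -/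

/-- the rotated potential -/
noncomputable def TR (g : ℝ → ℝ) (R : E3 ≃ₗᵢ[ℝ] E3) (i j : Fin 3) (w : E3) : ℝ :=
  ∑ a, ∑ b, ent R a i * ent R b j * Tg g a b (R w)

theorem TR_cd (hg : Pro g) (R : E3 ≃ₗᵢ[ℝ] E3) (i j : Fin 3) : ContDiff ℝ ∞ (TR g R i j) :=
  ContDiff.sum fun a _ => ContDiff.sum fun b _ =>
    contDiff_const.mul ((Tg_amp hg a b).smooth.comp R.contDiff)

theorem TR_off (hg : Pro g) (R : E3 ≃ₗᵢ[ℝ] E3) (i j : Fin 3) {w : E3} (hw : 4 < ‖w‖) :
    TR g R i j w = 0 := by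
  refine Finset.sum_eq_zero fun a _ => Finset.sum_eq_zero fun b _ => ?_
  rw [(Tg_amp hg a b).off (R w) fun h => ?_, mul_zero]
  have := K0_norm h
  rw [R.norm_map] at this
  linarith

theorem TR_cs (hg : Pro g) (R : E3 ≃ₗᵢ[ℝ] E3) (i j : Fin 3) : HasCompactSupport (TR g R i j) :=
  HasCompactSupport.intro (isCompact_closedBall (0 : E3) 4) fun w hw => TR_off hg R i j (by
    rw [mem_closedBall_zero_iff, not_le] at hw
    exact hw)

theorem Tg_cs (hg : Pro g) (a b : Fin 3) : HasCompactSupport (Tg g a b) :=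
  HasCompactSupport.intro K0_compact fun _ hx => (Tg_amp hg a b).off _ hx

theorem TR_mom1 (R : E3 ≃ₗᵢ[ℝ] E3) (i j : Fin 3) : ∫ w : E3, TR gb R i j w = 0 := by
  have hi : ∀ a b, Integrable (Tg gb a b) := fun a b =>
    (Tg_amp gb_pro a b).smooth.continuous.integrable_of_hasCompactSupport (Tg_cs gb_pro a b)
  have h1 : ∫ w : E3, TR gb R i j w
      = ∫ w : E3, ∑ a, ∑ b, ent R a i * ent R b j * Tg gb a b w :=
    integral_rot R fun w => ∑ a, ∑ b, ent R a i * ent R b j * Tg gb a b w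
  rw [h1, integral_finsetSum _ fun a _ => integrable_finsetSum _ fun b _ => (hi a b).const_mul _]
  refine Finset.sum_eq_zero fun a _ => ?_
  rw [integral_finsetSum _ fun b _ => (hi a b).const_mul _]
  refine Finset.sum_eq_zero fun b _ => ?_
  rw [integral_const_mul, T_mom1, mul_zero]

/-- the tensor of the first moments -/
noncomputable def tt (R : E3 ≃ₗᵢ[ℝ] E3) (i j l : Fin 3) : ℝ :=
  ∑ a, ∑ b, ∑ c, ent R a i * ent R b j * ent R c l * (dy a c * e2 b - e2 a * dy b c)

theorem TR_mom (R : E3 ≃ₗᵢ[ℝ] E3) (i j l : Fin 3) :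
    ∫ w : E3, TR gb R i j w * w l = θ0 * tt R i j l := by
  have hi : ∀ a b c, Integrable fun w : E3 => Tg gb a b w * w c := fun a b c =>
    Continuous.integrable_of_hasCompactSupport
      ((Tg_amp gb_pro a b).smooth.continuous.mul (cdx c).continuous) (Tg_cs gb_pro a b).mul_right
  have h1 : ∀ w : E3, TR gb R i j w * w l
      = (fun w' : E3 => ∑ a, ∑ b, ∑ c, ent R a i * ent R b j * ent R c l
        * (Tg gb a b w' * w' c)) (R w) := by
    intro w
    simp only
    conv_lhs => rw [R_coord R w l]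
    unfold TR
    simp only [Fin.sum_univ_three]
    ring
  simp only [h1]
  rw [integral_rot R (fun w' : E3 => ∑ a, ∑ b, ∑ c, ent R a i * ent R b j * ent R c l
        * (Tg gb a b w' * w' c))]
  rw [integral_finsetSum _ fun a _ => integrable_finsetSum _ fun b _ => integrable_finsetSum _
    fun c _ => (hi a b c).const_mul _]
  unfold tt
  rw [Finset.mul_sum]
  refine Finset.sum_congr rfl fun a _ => ?_
  rw [integral_finsetSum _ fun b _ => integrable_finsetSum _
    fun c _ => (hi a b c).const_mul _, Finset.mul_sum]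
  refine Finset.sum_congr rfl fun b _ => ?_
  rw [integral_finsetSum _ fun c _ => (hi a b c).const_mul _, Finset.mul_sum]
  refine Finset.sum_congr rfl fun c _ => ?_
  rw [integral_const_mul, T_mom]
  ring

/-- the potential of the transported field -/
noncomputable def TS (g : ℝ → ℝ) (R : E3 ≃ₗᵢ[ℝ] E3) (y : E3) (s : ℝ) (i j : Fin 3) (x : E3) : ℝ :=
  s * TR g R i j (s⁻¹ • (x - y))

theorem TS_eq (R : E3 ≃ₗᵢ[ℝ] E3) (y : E3) (s : ℝ) (i j : Fin 3) (x : E3) : TS g R y s i j x
    = s * ∑ a, ∑ b, ent R a i * ent R b j * Tg g a b (TT R y s x) := by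
  unfold TS TR TT
  simp only [map_smul]

theorem TS_cd (hg : Pro g) (R : E3 ≃ₗᵢ[ℝ] E3) (y : E3) (s : ℝ) (i j : Fin 3) :
    ContDiff ℝ ∞ (TS g R y s i j) :=
  contDiff_const.mul ((TR_cd hg R i j).comp ((contDiff_id.sub contDiff_const).const_smul s⁻¹))

theorem TS_off (hg : Pro g) (R : E3 ≃ₗᵢ[ℝ] E3) (y : E3) (hs : 0 < s) (i j : Fin 3) {x : E3}
    (hx : x ∉ Metric.closedBall y (4 * s)) : TS g R y s i j x = 0 := by
  unfold TS
  rw [TR_off hg, mul_zero]
  rw [mem_closedBall_iff_norm, not_le] at hx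
  rw [norm_smul, norm_inv, Real.norm_of_nonneg hs.le, inv_mul_eq_div, lt_div_iff₀ hs]
  exact hx

theorem DG_TS (hg : Pro g) (R : E3 ≃ₗᵢ[ℝ] E3) (y : E3) (hs : 0 < s) :
    DG (TS g R y s) = vec (rot R y s (hhg g)) := by
  unfold DG
  congr 1
  funext i x
  have cT : ∀ a b, ContDiff ℝ ∞ fun x => Tg g a b (TT R y s x) := fun a b =>
    (Tg_amp hg a b).smooth.comp (TT_cd R y s)
  have h1 : ∀ j, pd j (TS g R y s i j) x = ∑ a, ∑ b, ent R a i * ent R b j
      * ∑ c, ent R c j * pd c (Tg g a b) (TT R y s x) := by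
    intro j
    have e : TS g R y s i j = fun x => s * ∑ a, ∑ b, ent R a i * ent R b j
        * Tg g a b (TT R y s x) := funext fun x => TS_eq R y s i j x
    rw [e, pd_smul (ContDiff.sum fun a _ => ContDiff.sum fun b _ => contDiff_const.mul (cT a b)),
      pd_sum _ fun a _ => ContDiff.sum fun b _ => contDiff_const.mul (cT a b), Finset.mul_sum]
    refine Finset.sum_congr rfl fun a _ => ?_
    rw [pd_sum _ fun b _ => contDiff_const.mul (cT a b), Finset.mul_sum]
    refine Finset.sum_congr rfl fun b _ => ?_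
    rw [pd_smul (cT a b), pd_TT (Tg_amp hg a b).smooth]
    field_simp
  rw [Finset.sum_congr rfl fun j _ => h1 j]
  unfold rot
  have h2 : ∀ a, hhg g a (TT R y s x) = ∑ b, pd b (Tg g a b) (TT R y s x) := fun a =>
    (div_Tg hg a _).symm
  simp only [h2]
  have k := ent_rows R
  have h00 := k 0 0
  have h01 := k 0 1
  have h02 := k 0 2
  have h10 := k 1 0
  have h11 := k 1 1
  have h12 := k 1 2
  have h20 := k 2 0
  have h21 := k 2 1
  have h22 := k 2 2
  have h3 : ∑ j, ∑ a, ∑ b, ent R a i * ent R b j * ∑ c, ent R c j * pd c (Tg g a b) (TT R y s x)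
      = ∑ a, ∑ b, ∑ c, ent R a i * pd c (Tg g a b) (TT R y s x) * ∑ j, ent R b j * ent R c j := by
    simp only [Fin.sum_univ_three]
    ring
  rw [h3]
  simp only [k]
  simp only [mul_ite, mul_one, mul_zero, Finset.sum_ite_eq, Finset.mem_univ, if_true]
  refine Finset.sum_congr rfl fun a _ => ?_
  rw [Finset.mul_sum]

end Pool.Agent.J4H18.DN
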