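import Pool.Agent.J4H18.DN.L6

/-!
Convolutions of waves with small kernels with vanishing integral.
-/

set_option autoImplicit false
set_option linter.unusedSectionVars false

open MeasureTheory Set Filter Topology
open scoped InnerProductSpace ENNReal ContDiff NNReal

namespace Pool.Agent.J4H18.DN

open H772R2.NS

variable {f U V φ T : E3 → ℝ} {S : Set E3}

theorem lip_smooth (hf : ContDiff ℝ ∞ f) (hc : HasCompactSupport f) :
    ∃ L : ℝ, 0 ≤ L ∧ ∀ x y, |f x - f y| ≤ L * ‖x - y‖ := by
  obtain ⟨C, hC⟩ := ContDiff.lipschitzWith_of_hasCompactSupport hc hf (by simp)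
  refine ⟨C, C.2, fun x y => ?_⟩
  have := hC.dist_le_mul x y
  rwa [dist_eq_norm, dist_eq_norm] at this

/-- expansion of the second order -/
theorem taylor2 (hf : ContDiff ℝ ∞ f) (hc : HasCompactSupport f) :
    ∃ C, 0 ≤ C ∧ ∀ x h : E3, |f (x - h) - f x + ∑ l, h l * pd l f x| ≤ C * ‖h‖ ^ 2 := by
  choose L hL hLl using fun l => lip_smooth (cd_pd hf l) (hc.fderiv_apply ℝ (H772R2.NS.ev l))
  refine ⟨∑ l, L l, Finset.sum_nonneg fun l _ => hL l, fun x h => ?_⟩
  set G : ℝ → ℝ := fun τ => f (x - τ • h) + τ * ∑ l, h l * pd l f x with hG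
  have hder : ∀ τ, HasDerivAt G (-(∑ l, h l * pd l f (x - τ • h)) + ∑ l, h l * pd l f x) τ := by
    intro τ
    have h1 := der_line hf x h τ
    have h2 : HasDerivAt (fun τ : ℝ => τ * ∑ l, h l * pd l f x) (∑ l, h l * pd l f x) τ := by
      simpa using (hasDerivAt_id τ).mul_const (∑ l, h l * pd l f x)
    exact h1.add h2
  have hb : ∀ τ ∈ Ico (0 : ℝ) 1, ‖-(∑ l, h l * pd l f (x - τ • h)) + ∑ l, h l * pd l f x‖
      ≤ (∑ l, L l) * ‖h‖ ^ 2 := by
    intro τ hτ
    have e : -(∑ l, h l * pd l f (x - τ • h)) + ∑ l, h l * pd l f x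
        = ∑ l, h l * (pd l f x - pd l f (x - τ • h)) := by
      rw [← Finset.sum_neg_distrib, ← Finset.sum_add_distrib]
      exact Finset.sum_congr rfl fun l _ => by ring
    rw [e, Real.norm_eq_abs]
    refine (Finset.abs_sum_le_sum_abs _ _).trans ?_
    rw [Finset.sum_mul]
    refine Finset.sum_le_sum fun l _ => ?_
    rw [abs_mul]
    have h1 : |h l| ≤ ‖h‖ := PiLp.norm_apply_le h l
    have h2 := hLl l x (x - τ • h)
    have h3 : ‖x - (x - τ • h)‖ ≤ ‖h‖ := by
      rw [sub_sub_cancel, norm_smul, Real.norm_of_nonneg hτ.1]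
      have := norm_nonneg h
      nlinarith [hτ.2]
    have h4 : |pd l f x - pd l f (x - τ • h)| ≤ L l * ‖h‖ := h2.trans (by
      have := hL l
      gcongr)
    calc |h l| * |pd l f x - pd l f (x - τ • h)| ≤ ‖h‖ * (L l * ‖h‖) := by gcongr
      _ = L l * ‖h‖ ^ 2 := by ring
  have h5 := norm_image_sub_le_of_norm_deriv_le_segment_01'
    (fun τ _ => (hder τ).hasDerivWithinAt) hb
  simp only [hG, one_smul, zero_smul, sub_zero, one_mul, zero_mul, add_zero] at h5
  rw [Real.norm_eq_abs] at h5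
  have e : f (x - h) - f x + ∑ l, h l * pd l f x
      = f (x - h) + ∑ l, h l * pd l f x - f x := by ring
  rw [e]
  exact h5

theorem trig1 (a b : ℝ) : |Real.cos (a - b) - Real.cos a - b * Real.sin a| ≤ b ^ 2 := by
  set G : ℝ → ℝ := fun τ => Real.cos (a - τ * b) - τ * (b * Real.sin a) with hG
  have hder : ∀ τ, HasDerivAt G (b * Real.sin (a - τ * b) - b * Real.sin a) τ := by
    intro τ
    have h1 : HasDerivAt (fun τ : ℝ => a - τ * b) (-b) τ := by
      simpa using ((hasDerivAt_id τ).mul_const b).const_sub a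
    have h2 : HasDerivAt (fun τ : ℝ => τ * (b * Real.sin a)) (b * Real.sin a) τ := by
      simpa using (hasDerivAt_id τ).mul_const (b * Real.sin a)
    refine (h1.cos.sub h2).congr_deriv ?_
    ring
  have hb : ∀ τ ∈ Ico (0 : ℝ) 1, ‖b * Real.sin (a - τ * b) - b * Real.sin a‖ ≤ b ^ 2 := by
    intro τ hτ
    rw [← mul_sub, norm_mul, Real.norm_eq_abs, Real.norm_eq_abs]
    have h1 := Real.abs_sin_sub_sin_le (a - τ * b) a
    have h2 : |a - τ * b - a| ≤ |b| := by
      rw [sub_sub_cancel_left, abs_neg, abs_mul, abs_of_nonneg hτ.1]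
      nlinarith [hτ.2, abs_nonneg b]
    calc |b| * |Real.sin (a - τ * b) - Real.sin a| ≤ |b| * |b| :=
          mul_le_mul_of_nonneg_left (h1.trans h2) (abs_nonneg b)
      _ = b ^ 2 := by rw [← sq, sq_abs]
  have h5 := norm_image_sub_le_of_norm_deriv_le_segment_01'
    (fun τ _ => (hder τ).hasDerivWithinAt) hb
  simp only [hG, one_mul, zero_mul, sub_zero] at h5
  rw [Real.norm_eq_abs] at h5
  have e : Real.cos (a - b) - Real.cos a - b * Real.sin a
      = Real.cos (a - b) - b * Real.sin a - Real.cos a := by ring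
  rw [e]
  exact h5

theorem trig2 (a b : ℝ) : |Real.sin (a - b) - Real.sin a + b * Real.cos a| ≤ b ^ 2 := by
  have h := trig1 (a - Real.pi / 2) b
  have e1 : Real.cos (a - Real.pi / 2 - b) = Real.sin (a - b) := by
    rw [← Real.cos_sub_pi_div_two]
    congr 1
    ring
  rw [e1, Real.cos_sub_pi_div_two, Real.sin_sub_pi_div_two] at h
  have e : Real.sin (a - b) - Real.sin a + b * Real.cos a
      = Real.sin (a - b) - Real.sin a - b * -Real.cos a := by ring
  rw [e]
  exact h

/-- the wave -/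
noncomputable def wv (φ U V : E3 → ℝ) (N : ℝ) (x : E3) : ℝ :=
  U x * Real.cos (N * φ x) + V x * Real.sin (N * φ x)

theorem wv_amp (hφ : ContDiff ℝ ∞ φ) (hU : Amp S U) (hV : Amp S V) (N : ℝ) :
    Amp S (wv φ U V N) := osc_amp hφ hU hV N

theorem wv_abs (N : ℝ) (x : E3) : |wv φ U V N x| ≤ |U x| + |V x| := by
  unfold wv
  refine (abs_add_le _ _).trans ?_
  rw [abs_mul, abs_mul]
  have h1 := Real.abs_cos_le_one (N * φ x)
  have h2 := Real.abs_sin_le_one (N * φ x)
  have h3 := abs_nonneg (U x)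
  have h4 := abs_nonneg (V x)
  nlinarith

/-- **Expansion of the wave.** -/
theorem wave_exp (hS : IsCompact S) (hφ : ContDiff ℝ ∞ φ) (hU : Amp S U) (hV : Amp S V)
    (hn : ∀ x ∈ S, ∑ l, pd l φ x * pd l φ x = 1) :
    ∃ C, 0 ≤ C ∧ ∀ κ, 0 < κ → κ ≤ 1 → ∀ N, 1 ≤ N → ∀ x w : E3, ‖w‖ ≤ 4 →
      |wv φ U V N (x - (κ / N) • w) - wv φ U V N x
        - κ * (∑ l, w l * pd l φ x) * (U x * Real.sin (N * φ x) - V x * Real.cos (N * φ x))|
      ≤ 16 * κ ^ 2 * (|U x| + |V x|) + C / N := by
  obtain ⟨R0, hR0⟩ := hS.isBounded.subset_closedBall (0 : E3)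
  set R : ℝ := max R0 0 with hR
  have hSR : S ⊆ Metric.closedBall (0 : E3) R :=
    hR0.trans (Metric.closedBall_subset_closedBall (le_max_left _ _))
  have hR1 : 0 ≤ R := le_max_right _ _
  let χ : ContDiffBump (0 : E3) := ⟨R + 5, R + 6, by positivity, by linarith⟩
  have hχ : ContDiff ℝ ∞ (fun x => χ x) := χ.contDiff
  have hχ1 : ∀ x : E3, ‖x‖ ≤ R + 5 → χ x = 1 := fun x hx =>
    χ.one_of_mem_closedBall (by rwa [mem_closedBall_zero_iff])
  set ψ : E3 → ℝ := fun x => χ x * φ x with hψ
  have cψ : ContDiff ℝ ∞ ψ := hχ.mul hφ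
  have kψ : HasCompactSupport ψ := χ.hasCompactSupport.mul_right
  have eψ : ∀ x : E3, ‖x‖ ≤ R + 5 → ψ x = φ x := fun x hx => by
    rw [hψ]
    simp only
    rw [hχ1 x hx, one_mul]
  have eψ' : ∀ x ∈ S, ∀ l, pd l ψ x = pd l φ x := by
    intro x hx l
    have h1 : ψ =ᶠ[𝓝 x] φ := by
      have h2 : Metric.ball (0 : E3) (R + 5) ∈ 𝓝 x := by
        refine Metric.isOpen_ball.mem_nhds ?_
        have := hSR hx
        rw [mem_closedBall_zero_iff] at this
        rw [mem_ball_zero_iff]
        linarith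
      filter_upwards [h2] with z hz
      rw [mem_ball_zero_iff] at hz
      exact eψ z hz.le
    unfold pd
    rw [h1.fderiv_eq]
  obtain ⟨Cφ, hCφ, tφ⟩ := taylor2 cψ kψ
  obtain ⟨LU, hLU, lU⟩ := lip_smooth hU.smooth (amp_compact hS hU)
  obtain ⟨LV, hLV, lV⟩ := lip_smooth hV.smooth (amp_compact hS hV)
  obtain ⟨MU, hMU, mU⟩ := amp_bound hS hU
  obtain ⟨MV, hMV, mV⟩ := amp_bound hS hV
  refine ⟨4 * (LU + LV) + (MU + MV) * (16 * Cφ), by positivity,
    fun κ hκ hκ1 N hN x w hw => ?_⟩
  have hN0 : 0 < N := by linarith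
  set s : ℝ := κ / N with hs
  have hs0 : 0 < s := by positivity
  have hs1 : s ≤ 1 := by
    rw [hs, div_le_one hN0]
    linarith
  have hNs : N * s = κ := by
    rw [hs]
    field_simp
  have hsN : s ≤ 1 / N := by
    rw [hs]
    gcongr
  set x' : E3 := x - s • w with hx'
  have hxx : ‖x' - x‖ ≤ 4 / N := by
    rw [hx', sub_sub_cancel_left, norm_neg, norm_smul, Real.norm_of_nonneg hs0.le]
    calc s * ‖w‖ ≤ 1 / N * 4 := by gcongr
      _ = 4 / N := by ring
  have hdU : |U x' - U x| ≤ 4 * LU / N := (lU _ _).trans (by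
    calc LU * ‖x' - x‖ ≤ LU * (4 / N) := by gcongr
      _ = _ := by ring)
  have hdV : |V x' - V x| ≤ 4 * LV / N := (lV _ _).trans (by
    calc LV * ‖x' - x‖ ≤ LV * (4 / N) := by gcongr
      _ = _ := by ring)
  have hCN : (4 * (LU + LV) + (MU + MV) * (16 * Cφ)) / N
      = 4 * LU / N + 4 * LV / N + (MU * (16 * Cφ / N) + MV * (16 * Cφ / N)) := by ring
  have hrest : 0 ≤ MU * (16 * Cφ / N) + MV * (16 * Cφ / N) := by positivity
  by_cases hxS : x ∈ S
  · -- the phase
    set a : ℝ := N * φ x with ha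
    set β : ℝ := ∑ l, w l * pd l φ x with hβ
    have hx1 : ‖x‖ ≤ R := by
      have := hSR hxS
      rwa [mem_closedBall_zero_iff] at this
    have hx2 : ‖x'‖ ≤ R + 5 := by
      have h1 : ‖x'‖ ≤ ‖x‖ + ‖x' - x‖ := by
        have := norm_add_le x (x' - x)
        rwa [add_sub_cancel] at this
      have h2 : 4 / N ≤ 4 := by
        rw [div_le_iff₀ hN0]
        nlinarith
      linarith
    have hph : |N * φ x' - (a - κ * β)| ≤ 16 * Cφ / N := by
      have h1 := tφ x (s • w)
      have h2 : ∑ l, (s • w) l * pd l ψ x = s * β := by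
        rw [hβ, Finset.mul_sum]
        refine Finset.sum_congr rfl fun l _ => ?_
        rw [eψ' x hxS l, PiLp.smul_apply, smul_eq_mul]
        ring
      rw [h2, ← hx', eψ x' hx2, eψ x (by linarith)] at h1
      have h3 : N * φ x' - (a - κ * β) = N * (φ x' - φ x + s * β) := by
        rw [ha, ← hNs]
        ring
      rw [h3, abs_mul, abs_of_pos hN0]
      have h4 : ‖s • w‖ ≤ 4 / N := by
        rw [norm_smul, Real.norm_of_nonneg hs0.le]
        calc s * ‖w‖ ≤ 1 / N * 4 := by gcongr
          _ = 4 / N := by ring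
      calc N * |φ x' - φ x + s * β| ≤ N * (Cφ * (4 / N) ^ 2) := by
            gcongr
            refine h1.trans ?_
            gcongr
        _ = 16 * Cφ / N := by
            field_simp
            ring
    have hcos := (Real.abs_cos_sub_cos_le (N * φ x') (a - κ * β)).trans hph
    have hsin := (Real.abs_sin_sub_sin_le (N * φ x') (a - κ * β)).trans hph
    have t1 := trig1 a (κ * β)
    have t2 := trig2 a (κ * β)
    have hβ2 : β ^ 2 ≤ 16 := by
      have h1 : β ^ 2 ≤ (∑ l, w l ^ 2) * ∑ l, pd l φ x ^ 2 := Finset.sum_mul_sq_le_sq_mul_sq _ _ _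
      have h2 : ∑ l, pd l φ x ^ 2 = 1 := by
        rw [← hn x hxS]
        exact Finset.sum_congr rfl fun l _ => by ring
      have h3 : ∑ l, w l ^ 2 = ‖w‖ ^ 2 := by
        rw [EuclideanSpace.norm_sq_eq]
        exact Finset.sum_congr rfl fun l _ => by rw [Real.norm_eq_abs, sq_abs]
      rw [h2, h3, mul_one] at h1
      have := norm_nonneg w
      nlinarith
    have hκβ : (κ * β) ^ 2 ≤ 16 * κ ^ 2 := by
      rw [mul_pow]
      have := sq_nonneg κ
      nlinarith
    have e : wv φ U V N x' - wv φ U V N x - κ * β * (U x * Real.sin a - V x * Real.cos a)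
        = (U x' - U x) * Real.cos (N * φ x') + (V x' - V x) * Real.sin (N * φ x')
          + (U x * (Real.cos (N * φ x') - Real.cos (a - κ * β))
            + V x * (Real.sin (N * φ x') - Real.sin (a - κ * β)))
          + (U x * (Real.cos (a - κ * β) - Real.cos a - κ * β * Real.sin a)
            + V x * (Real.sin (a - κ * β) - Real.sin a + κ * β * Real.cos a)) := by
      unfold wv
      rw [← ha]
      ring
    rw [e]
    have b1 : |(U x' - U x) * Real.cos (N * φ x')| ≤ 4 * LU / N := by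
      rw [abs_mul]
      calc _ ≤ |U x' - U x| * 1 := by
            gcongr
            exact Real.abs_cos_le_one _
        _ ≤ _ := by rw [mul_one]; exact hdU
    have b2 : |(V x' - V x) * Real.sin (N * φ x')| ≤ 4 * LV / N := by
      rw [abs_mul]
      calc _ ≤ |V x' - V x| * 1 := by
            gcongr
            exact Real.abs_sin_le_one _
        _ ≤ _ := by rw [mul_one]; exact hdV
    have b3 : |U x * (Real.cos (N * φ x') - Real.cos (a - κ * β))| ≤ MU * (16 * Cφ / N) := by
      rw [abs_mul]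
      have := mU x
      gcongr
    have b4 : |V x * (Real.sin (N * φ x') - Real.sin (a - κ * β))| ≤ MV * (16 * Cφ / N) := by
      rw [abs_mul]
      have := mV x
      gcongr
    have b5 : |U x * (Real.cos (a - κ * β) - Real.cos a - κ * β * Real.sin a)|
        ≤ 16 * κ ^ 2 * |U x| := by
      rw [abs_mul, mul_comm]
      have := t1.trans hκβ
      gcongr
    have b6 : |V x * (Real.sin (a - κ * β) - Real.sin a + κ * β * Real.cos a)|
        ≤ 16 * κ ^ 2 * |V x| := by
      rw [abs_mul, mul_comm]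
      have := t2.trans hκβ
      gcongr
    rw [hCN]
    refine (abs_add_le _ _).trans ?_
    have c1 := abs_add_le ((U x' - U x) * Real.cos (N * φ x') + (V x' - V x) * Real.sin (N * φ x'))
      (U x * (Real.cos (N * φ x') - Real.cos (a - κ * β))
            + V x * (Real.sin (N * φ x') - Real.sin (a - κ * β)))
    have c2 := abs_add_le ((U x' - U x) * Real.cos (N * φ x'))
      ((V x' - V x) * Real.sin (N * φ x'))
    have c3 := abs_add_le (U x * (Real.cos (N * φ x') - Real.cos (a - κ * β)))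
      (V x * (Real.sin (N * φ x') - Real.sin (a - κ * β)))
    have c4 := abs_add_le (U x * (Real.cos (a - κ * β) - Real.cos a - κ * β * Real.sin a))
      (V x * (Real.sin (a - κ * β) - Real.sin a + κ * β * Real.cos a))
    linarith
  · have u0 : U x = 0 := hU.off x hxS
    have v0 : V x = 0 := hV.off x hxS
    have h1 : wv φ U V N x = 0 := by
      unfold wv
      rw [u0, v0]
      ring
    rw [u0, sub_zero] at hdU
    rw [v0, sub_zero] at hdV
    rw [h1, u0, v0]
    have e : wv φ U V N x' - 0 - κ * (∑ l, w l * pd l φ x)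
        * (0 * Real.sin (N * φ x) - 0 * Real.cos (N * φ x)) = wv φ U V N x' := by ring
    rw [e, hCN]
    refine (wv_abs N x').trans ?_
    simp only [abs_zero, add_zero, mul_zero, zero_add]
    linarith

/-- **Convolution of the wave** with a kernel with vanishing integral. -/
theorem wave_conv (hS : IsCompact S) (hφ : ContDiff ℝ ∞ φ) (hU : Amp S U) (hV : Amp S V)
    (hn : ∀ x ∈ S, ∑ l, pd l φ x * pd l φ x = 1) (hT : Continuous T)
    (hT4 : ∀ w : E3, 4 < ‖w‖ → T w = 0) (hT0 : ∫ w, T w = 0) :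
    ∃ C, 0 ≤ C ∧ ∀ κ, 0 < κ → κ ≤ 1 → ∀ N, 1 ≤ N → ∀ x : E3,
      |(∫ w, wv φ U V N (x - (κ / N) • w) * T w)
        - κ * (∑ l, pd l φ x * ∫ w, T w * w l)
          * (U x * Real.sin (N * φ x) - V x * Real.cos (N * φ x))|
      ≤ (16 * κ ^ 2 * (|U x| + |V x|) + C / N) * ∫ w, |T w| := by
  obtain ⟨C, hC, hexp⟩ := wave_exp hS hφ hU hV hn
  refine ⟨C, hC, fun κ hκ hκ1 N hN x => ?_⟩
  have hTs : HasCompactSupport T := HasCompactSupport.intro (isCompact_closedBall (0 : E3) 4)
    fun w hw => hT4 w (by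
      rw [mem_closedBall_zero_iff, not_le] at hw
      exact hw)
  have cw : Continuous fun w : E3 => wv φ U V N (x - (κ / N) • w) :=
    (wv_amp hφ hU hV N).smooth.continuous.comp (by fun_prop)
  have i1 : Integrable fun w : E3 => wv φ U V N (x - (κ / N) • w) * T w :=
    (cw.mul hT).integrable_of_hasCompactSupport hTs.mul_left
  have i2 : Integrable T := hT.integrable_of_hasCompactSupport hTs
  have i3 : ∀ l : Fin 3, Integrable fun w : E3 => T w * w l := fun l =>
    (hT.mul (cdx l).continuous).integrable_of_hasCompactSupport hTs.mul_right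
  set b : ℝ := U x * Real.sin (N * φ x) - V x * Real.cos (N * φ x) with hb
  have e1 : (∫ w, wv φ U V N (x - (κ / N) • w) * T w) - κ * (∑ l, pd l φ x * ∫ w, T w * w l) * b
      = ∫ w, (wv φ U V N (x - (κ / N) • w) - wv φ U V N x
        - κ * (∑ l, w l * pd l φ x) * b) * T w := by
    have e2 : ∀ w : E3, (wv φ U V N (x - (κ / N) • w) - wv φ U V N x
        - κ * (∑ l, w l * pd l φ x) * b) * T w
        = wv φ U V N (x - (κ / N) • w) * T w - (wv φ U V N x * T w
          + ∑ l, κ * b * pd l φ x * (T w * w l)) := by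
      intro w
      simp only [Fin.sum_univ_three]
      ring
    simp only [e2]
    have i4 : Integrable fun w : E3 => ∑ l, κ * b * pd l φ x * (T w * w l) :=
      integrable_finsetSum _ fun l _ => (i3 l).const_mul _
    have i5 : Integrable fun w : E3 => wv φ U V N x * T w := i2.const_mul _
    have i6 : Integrable fun w : E3 => wv φ U V N x * T w
      + ∑ l, κ * b * pd l φ x * (T w * w l) := i5.add i4
    rw [integral_sub i1 i6, integral_add i5 i4,
      integral_const_mul, hT0, integral_finsetSum _ fun l _ => (i3 l).const_mul _]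
    simp only [integral_const_mul, Fin.sum_univ_three]
    ring
  rw [e1, ← integral_const_mul]
  have h2 : ∀ w : E3, ‖(wv φ U V N (x - (κ / N) • w) - wv φ U V N x
        - κ * (∑ l, w l * pd l φ x) * b) * T w‖
      ≤ (16 * κ ^ 2 * (|U x| + |V x|) + C / N) * |T w| := by
    intro w
    rw [norm_mul, Real.norm_eq_abs, Real.norm_eq_abs]
    rcases le_or_gt ‖w‖ 4 with hw | hw
    · have := hexp κ hκ hκ1 N hN x w hw
      gcongr
    · rw [hT4 w hw]
      simp
  have h3 := norm_integral_le_of_norm_le (i2.abs.const_mul _) (Eventually.of_forall h2)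
  rwa [Real.norm_eq_abs] at h3

end Pool.Agent.J4H18.DN
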