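import Pool.Agent.J4H18.DN.L7

/-!
Six axes, and the representation of an antisymmetric potential by the tensors of the six tori.
-/

set_option autoImplicit false
set_option linter.unusedSectionVars false

open MeasureTheory Set Filter Topology
open scoped InnerProductSpace ENNReal ContDiff NNReal

namespace Pool.Agent.J4H18.DN

open H772R2.NS

noncomputable def rU : Fin 6 → Fin 3 → Fin 3 → ℝ :=
  ![![![0, 1, 0], ![0, 0, 1], ![1, 0, 0]],
    ![![0, 0, 1], ![1, 0, 0], ![0, 1, 0]],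
    ![![1, 0, 0], ![0, 1, 0], ![0, 0, 1]],
    ![![0, 0, 1], ![1, -1, 0], ![1, 1, 0]],
    ![![0, 1, 0], ![-1, 0, 1], ![1, 0, 1]],
    ![![1, 0, 0], ![0, 1, -1], ![0, 1, 1]]]

noncomputable def hk : Fin 6 → ℝ := ![1, 1, 1, 1 / 2, 1 / 2, 1 / 2]

noncomputable def cc (k : Fin 6) : ℝ := √(hk k)

theorem cc_sq (k : Fin 6) : cc k * cc k = hk k := by
  refine Real.mul_self_sqrt ?_
  fin_cases k <;> simp [hk]

noncomputable def rM (k : Fin 6) (a j : Fin 3) : ℝ := (if a = 0 then 1 else cc k) * rU k a j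

theorem rM_orth (k : Fin 6) (a b : Fin 3) :
    ∑ j, rM k a j * rM k b j = if a = b then 1 else 0 := by
  have h := cc_sq k
  fin_cases k <;> fin_cases a <;> fin_cases b <;>
    simp [rM, rU, hk, Fin.sum_univ_three] at h ⊢ <;> linarith

/-- the six rotations -/
noncomputable def RR (k : Fin 6) : E3 ≃ₗᵢ[ℝ] E3 := (exists_rot (rM k) (rM_orth k)).choose

theorem ent_RR (k : Fin 6) (a j : Fin 3) : ent (RR k) a j = rM k a j :=
  (exists_rot (rM k) (rM_orth k)).choose_spec a j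

theorem tt_eq (R : E3 ≃ₗᵢ[ℝ] E3) (n : Fin 3 → ℝ) (i j : Fin 3) : ∑ l, n l * tt R i j l
    = (ent R 1 i * (∑ l, ent R 0 l * n l) - ent R 0 i * (∑ l, ent R 1 l * n l)) * ent R 2 j
      - ent R 2 i * (ent R 1 j * (∑ l, ent R 0 l * n l) - ent R 0 j * (∑ l, ent R 1 l * n l)) := by
  unfold tt
  simp only [Fin.sum_univ_three]
  simp [dy, e2]
  ring

noncomputable def bet (n X : Fin 3 → ℝ) : Fin 3 → ℝ :=
  ![X 1 * n 2 - X 2 * n 1, X 2 * n 0 - X 0 * n 2, X 0 * n 1 - X 1 * n 0]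

noncomputable def Km (n X : Fin 3 → ℝ) (i j : Fin 3) : ℝ := -(n i * bet n X j + bet n X i * n j)

/-- the coefficients -/
noncomputable def Zc (n X : Fin 3 → ℝ) : Fin 6 → ℝ :=
  ![Km n X 0 0 - Km n X 0 1 - Km n X 0 2, Km n X 1 1 - Km n X 0 1 - Km n X 1 2,
    Km n X 2 2 - Km n X 0 2 - Km n X 1 2, 2 * Km n X 0 1, 2 * Km n X 0 2, 2 * Km n X 1 2]

/-- the tensors without the normalization -/
noncomputable def WU (k : Fin 6) (n : Fin 3 → ℝ) (i j : Fin 3) : ℝ :=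
  (rU k 1 i * (∑ l, rU k 0 l * n l) - rU k 0 i * (∑ l, rU k 1 l * n l)) * rU k 2 j
      - rU k 2 i * (rU k 1 j * (∑ l, rU k 0 l * n l) - rU k 0 j * (∑ l, rU k 1 l * n l))

theorem tt_WU (k : Fin 6) (n : Fin 3 → ℝ) (i j : Fin 3) :
    ∑ l, n l * tt (RR k) i j l = hk k * WU k n i j := by
  rw [tt_eq]
  simp only [ent_RR]
  unfold rM WU
  have h := cc_sq k
  simp only [Fin.sum_univ_three, Fin.isValue, if_true, one_ne_zero, if_false,
    show (2 : Fin 3) ≠ 0 by decide]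
  rw [← h]
  ring

theorem rep_id (n X : Fin 3 → ℝ) (i j : Fin 3) : ∑ k, Zc n X k * ∑ l, n l * tt (RR k) i j l
    = (∑ l, n l * n l) * (n j * X i - n i * X j) := by
  simp only [tt_WU]
  fin_cases i <;> fin_cases j <;>
    simp [Fin.sum_univ_succ, Zc, Km, bet, WU, rU, hk] <;> ring

theorem Zc_bound {n X : Fin 3 → ℝ} (hn : ∀ l, |n l| ≤ 1) (k : Fin 6) :
    |Zc n X k| ≤ 6 * ∑ i, |X i| := by
  have hp : ∀ i l, |X i * n l| ≤ |X i| := by
    intro i l
    rw [abs_mul]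
    have := abs_nonneg (X i)
    nlinarith [hn l]
  have hb : ∀ i, |bet n X i| ≤ ∑ i, |X i| := by
    intro i
    rw [Fin.sum_univ_three]
    have a0 := abs_nonneg (X 0)
    have a1 := abs_nonneg (X 1)
    have a2 := abs_nonneg (X 2)
    fin_cases i
    · show |X 1 * n 2 - X 2 * n 1| ≤ _
      have := abs_sub (X 1 * n 2) (X 2 * n 1)
      linarith [hp 1 2, hp 2 1]
    · show |X 2 * n 0 - X 0 * n 2| ≤ _
      have := abs_sub (X 2 * n 0) (X 0 * n 2)
      linarith [hp 2 0, hp 0 2]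
    · show |X 0 * n 1 - X 1 * n 0| ≤ _
      have := abs_sub (X 0 * n 1) (X 1 * n 0)
      linarith [hp 0 1, hp 1 0]
  have hK : ∀ i j, |Km n X i j| ≤ 2 * ∑ i, |X i| := by
    intro i j
    unfold Km
    rw [abs_neg]
    refine (abs_add_le _ _).trans ?_
    rw [abs_mul, abs_mul]
    have h1 : |n i| * |bet n X j| ≤ 1 * ∑ i, |X i| :=
      mul_le_mul (hn i) (hb j) (abs_nonneg _) zero_le_one
    have h2 : |bet n X i| * |n j| ≤ (∑ i, |X i|) * 1 :=
      mul_le_mul (hb i) (hn j) (abs_nonneg _) (Finset.sum_nonneg fun i _ => abs_nonneg _)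
    linarith
  have h3 : ∀ a b c : ℝ, |a - b - c| ≤ |a| + |b| + |c| := fun a b c =>
    (abs_sub _ _).trans (by have := abs_sub a b; linarith)
  have h4 : ∀ a : ℝ, |2 * a| = 2 * |a| := fun a => by rw [abs_mul, abs_two]
  have h5 : 0 ≤ ∑ i, |X i| := Finset.sum_nonneg fun i _ => abs_nonneg _
  fin_cases k
  · show |Km n X 0 0 - Km n X 0 1 - Km n X 0 2| ≤ _
    have := h3 (Km n X 0 0) (Km n X 0 1) (Km n X 0 2)
    linarith [hK 0 0, hK 0 1, hK 0 2]
  · show |Km n X 1 1 - Km n X 0 1 - Km n X 1 2| ≤ _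
    have := h3 (Km n X 1 1) (Km n X 0 1) (Km n X 1 2)
    linarith [hK 1 1, hK 0 1, hK 1 2]
  · show |Km n X 2 2 - Km n X 0 2 - Km n X 1 2| ≤ _
    have := h3 (Km n X 2 2) (Km n X 0 2) (Km n X 1 2)
    linarith [hK 2 2, hK 0 2, hK 1 2]
  · show |2 * Km n X 0 1| ≤ _
    rw [h4]
    linarith [hK 0 1]
  · show |2 * Km n X 0 2| ≤ _
    rw [h4]
    linarith [hK 0 2]
  · show |2 * Km n X 1 2| ≤ _
    rw [h4]
    linarith [hK 1 2]

theorem Zc_zero (n : Fin 3 → ℝ) (k : Fin 6) : Zc n (fun _ => 0) k = 0 := by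
  fin_cases k <;> simp [Zc, Km, bet]

variable {φ : E3 → ℝ} {A : Fin 3 → E3 → ℝ} {S : Set E3}

theorem Zc_amp (hφ : ContDiff ℝ ∞ φ) (hA : ∀ i, Amp S (A i)) (k : Fin 6) :
    Amp S fun x => Zc (fun l => pd l φ x) (fun i => A i x) k := by
  have a0 := (hA 0).smooth
  have a1 := (hA 1).smooth
  have a2 := (hA 2).smooth
  have n0 := cd_pd hφ 0
  have n1 := cd_pd hφ 1
  have n2 := cd_pd hφ 2
  refine ⟨?_, fun x hx => ?_⟩
  · fin_cases k <;> simp only [Zc, Km, bet, Fin.isValue, Matrix.cons_val, Fin.zero_eta,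
      Fin.mk_one, Fin.reduceFinMk] <;> fun_prop
  · have : (fun i => A i x) = fun _ => 0 := funext fun i => (hA i).off x hx
    rw [this, Zc_zero]

end Pool.Agent.J4H18.DN
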