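import Pool.Agent.J4H18.DN.L8

/-!
The oscillating field is close to a superposition of small torus fields.
-/

set_option autoImplicit false
set_option linter.unusedSectionVars false

open MeasureTheory Set Filter Topology
open scoped InnerProductSpace ENNReal ContDiff NNReal Pointwise

namespace Pool.Agent.J4H18.DN

open H772R2.NS
open Pool.Agent.W795.TQ
open Pool.Agent.Y303.LV (cl clj clj_coe)

variable {ν s : ℝ} {φ : E3 → ℝ} {A B h : Fin 3 → E3 → ℝ} {P : E3 → ℝ} {S K Ω : Set E3}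
  {γ T z c : E3 → ℝ}

theorem sqrt_add_le' {x y : ℝ} (hx : 0 ≤ x) (hy : 0 ≤ y) : √(x + y) ≤ √x + √y := by
  rw [Real.sqrt_le_left (by positivity)]
  have h1 := Real.sq_sqrt hx
  have h2 := Real.sq_sqrt hy
  have h3 : 0 ≤ √x * √y := by positivity
  nlinarith

/-- change of variables in a convolution -/
theorem conv_sub (γ T : E3 → ℝ) (hs : 0 < s) (x : E3) :
    ∫ y, γ y * (s * T (s⁻¹ • (x - y))) = s ^ 4 * ∫ w, γ (x - s • w) * T w := by
  have h1 : ∫ y, γ y * (s * T (s⁻¹ • (x - y))) = ∫ z, γ (x - z) * (s * T (s⁻¹ • z)) := by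
    rw [← integral_sub_left_eq_self (fun y => γ y * (s * T (s⁻¹ • (x - y)))) volume x]
    simp only [sub_sub_cancel]
  have h2 : ∫ z, γ (x - z) * (s * T (s⁻¹ • z))
      = ∫ z, (fun w => s * (γ (x - s • w) * T w)) (s⁻¹ • z) := by
    congr 1
    funext z
    simp only
    rw [smul_smul, mul_inv_cancel₀ hs.ne', one_smul]
    ring
  rw [h1, h2, Measure.integral_comp_inv_smul_of_nonneg volume
    (fun w : E3 => s * (γ (x - s • w) * T w)) hs.le, integral_const_mul]
  simp
  ring

/-- exchange of the integrations -/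
theorem fub (hγ : Continuous γ) (hγc : HasCompactSupport γ) (hz : IntegrableOn z Ω)
    (hT : Continuous T) (hTc : HasCompactSupport T) (hs : 0 < s) :
    ∫ y, γ y * ∫ x in Ω, z x * (s * T (s⁻¹ • (x - y)))
      = ∫ x in Ω, z x * (s ^ 4 * ∫ w, γ (x - s • w) * T w) := by
  obtain ⟨M, hM⟩ := hT.bounded_above_of_compact_support hTc
  have h1 : ∀ y, γ y * ∫ x in Ω, z x * (s * T (s⁻¹ • (x - y)))
      = ∫ x in Ω, γ y * z x * (s * T (s⁻¹ • (x - y))) := by
    intro y
    rw [← integral_const_mul]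
    congr 1
    funext x
    ring
  simp only [h1]
  have hi : Integrable (Function.uncurry fun y x => γ y * z x * (s * T (s⁻¹ • (x - y))))
      (volume.prod (volume.restrict Ω)) := by
    have h2 : Integrable (fun p : E3 × E3 => γ p.1 * z p.2) (volume.prod (volume.restrict Ω)) :=
      (hγ.integrable_of_hasCompactSupport hγc).mul_prod hz
    have h3 : Continuous fun p : E3 × E3 => s * T (s⁻¹ • (p.2 - p.1)) := by fun_prop
    refine h2.mul_bdd (c := s * M) h3.aestronglyMeasurable (Eventually.of_forall fun p => ?_)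
    rw [norm_mul, Real.norm_of_nonneg hs.le]
    gcongr
    exact hM _
  rw [integral_integral_swap hi]
  congr 1
  funext x
  rw [← conv_sub γ T hs x, ← integral_const_mul]
  congr 1
  funext y
  ring

theorem conv_cont (hc : Continuous c) (hcc : HasCompactSupport c) (hT : Continuous T)
    (hTc : HasCompactSupport T) (s : ℝ) : Continuous fun x => ∫ w, c (x - s • w) * T w := by
  obtain ⟨M, hM⟩ := hc.bounded_above_of_compact_support hcc
  refine continuous_of_dominated (bound := fun w => M * |T w|) (fun x => ?_) (fun x => ?_) ?_ ?_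
  · have : Continuous fun w => c (x - s • w) * T w := by fun_prop
    exact this.aestronglyMeasurable
  · refine Eventually.of_forall fun w => ?_
    rw [norm_mul, Real.norm_eq_abs (T w)]
    gcongr
    exact hM _
  · exact ((hT.integrable_of_hasCompactSupport hTc).abs).const_mul _
  · refine Eventually.of_forall fun w => ?_
    fun_prop

noncomputable def Uk (φ : E3 → ℝ) (A : Fin 3 → E3 → ℝ) (k : Fin 6) (x : E3) : ℝ :=
  -Zc (fun l => pd l φ x) (fun i => A i x) k

noncomputable def Vk (φ : E3 → ℝ) (B : Fin 3 → E3 → ℝ) (k : Fin 6) (x : E3) : ℝ :=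
  Zc (fun l => pd l φ x) (fun i => B i x) k

/-- the potential of the superposition -/
noncomputable def Gt (φ : E3 → ℝ) (A B : Fin 3 → E3 → ℝ) (κ N : ℝ) (i j : Fin 3) (x : E3) : ℝ :=
  (κ * θ0)⁻¹ * ∑ k, ∫ w, wv φ (Uk φ A k) (Vk φ B k) N (x - (κ / N) • w) * TR gb (RR k) i j w

theorem Uk_amp (D : Dat ν φ A B h P S K) (k : Fin 6) : Amp S (Uk φ A k) :=
  (Zc_amp D.φs D.Aa k).neg

theorem Vk_amp (D : Dat ν φ A B h P S K) (k : Fin 6) : Amp S (Vk φ B k) :=
  Zc_amp D.φs D.Ba k

theorem UV_bound (D : Dat ν φ A B h P S K) (k : Fin 6) (x : E3) :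
    |Uk φ A k x| + |Vk φ B k x| ≤ 6 * ∑ i, (|A i x| + |B i x|) := by
  rw [Finset.sum_add_distrib, mul_add]
  by_cases hx : x ∈ S
  · have hn : ∀ l, |pd l φ x| ≤ 1 := by
      intro l
      have h1 := D.ph.u1 hx
      have h2 : pd l φ x * pd l φ x ≤ ∑ j, pd j φ x * pd j φ x :=
        Finset.single_le_sum (f := fun j => pd j φ x * pd j φ x)
          (fun j _ => mul_self_nonneg _) (Finset.mem_univ l)
      rw [abs_le_one_iff_mul_self_le_one]
      linarith
    have h1 := Zc_bound (n := fun l => pd l φ x) (X := fun i => A i x) hn k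
    have h2 := Zc_bound (n := fun l => pd l φ x) (X := fun i => B i x) hn k
    unfold Uk Vk
    rw [abs_neg]
    exact add_le_add h1 h2
  · rw [(Uk_amp D k).off x hx, (Vk_amp D k).off x hx, abs_zero]
    have h1 : 0 ≤ ∑ i, |A i x| := Finset.sum_nonneg fun i _ => abs_nonneg _
    have h2 : 0 ≤ ∑ i, |B i x| := Finset.sum_nonneg fun i _ => abs_nonneg _
    linarith

theorem osc_lead (D : Dat ν φ A B h P S K) (N : ℝ) (i j : Fin 3) (x : E3) :
    osc φ A B N i j x = -∑ k, (∑ l, pd l φ x * tt (RR k) i j l)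
      * (Uk φ A k x * Real.sin (N * φ x) - Vk φ B k x * Real.cos (N * φ x)) := by
  have h1 := rep_id (fun l => pd l φ x) (fun i => A i x) i j
  have h2 := rep_id (fun l => pd l φ x) (fun i => B i x) i j
  have e : ∑ k, (∑ l, pd l φ x * tt (RR k) i j l)
      * (Uk φ A k x * Real.sin (N * φ x) - Vk φ B k x * Real.cos (N * φ x))
      = -Real.sin (N * φ x) * (∑ k, Zc (fun l => pd l φ x) (fun i => A i x) k
          * ∑ l, pd l φ x * tt (RR k) i j l)
        - Real.cos (N * φ x) * (∑ k, Zc (fun l => pd l φ x) (fun i => B i x) k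
          * ∑ l, pd l φ x * tt (RR k) i j l) := by
    rw [Finset.mul_sum, Finset.mul_sum, ← Finset.sum_sub_distrib]
    refine Finset.sum_congr rfl fun k _ => ?_
    unfold Uk Vk
    ring
  rw [e, h1, h2]
  have a1 : (∑ l, pd l φ x * pd l φ x) * A i x = A i x := D.ph.f1 (D.Aa i) x
  have a2 : (∑ l, pd l φ x * pd l φ x) * A j x = A j x := D.ph.f1 (D.Aa j) x
  have a3 : (∑ l, pd l φ x * pd l φ x) * B i x = B i x := D.ph.f1 (D.Ba i) x
  have a4 : (∑ l, pd l φ x * pd l φ x) * B j x = B j x := D.ph.f1 (D.Ba j) x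
  unfold osc
  linear_combination (-(pd j φ x * Real.sin (N * φ x))) * a1
    + (pd i φ x * Real.sin (N * φ x)) * a2 - (pd j φ x * Real.cos (N * φ x)) * a3
    + (pd i φ x * Real.cos (N * φ x)) * a4

theorem exists_τ0 : ∃ τ0 : ℝ, 0 ≤ τ0 ∧ ∀ (k : Fin 6) (i j : Fin 3),
    ∫ w, |TR gb (RR k) i j w| ≤ τ0 := by
  set f : Fin 6 × Fin 3 × Fin 3 → ℝ := fun p => ∫ w, |TR gb (RR p.1) p.2.1 p.2.2 w| with hf
  have h0 : ∀ p, 0 ≤ f p := fun p => integral_nonneg fun w => abs_nonneg _
  refine ⟨∑ p, f p, Finset.sum_nonneg fun p _ => h0 p, fun k i j => ?_⟩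
  have h1 : f (k, i, j) ≤ ∑ p, f p :=
    Finset.single_le_sum (f := f) (fun p _ => h0 p) (Finset.mem_univ (k, i, j))
  exact h1

/-- **The oscillating potential is close to the potential of the superposition.** -/
theorem gt_err {τ0 : ℝ} (hτ0 : 0 ≤ τ0)
    (hτ : ∀ (k : Fin 6) (i j : Fin 3), ∫ w, |TR gb (RR k) i j w| ≤ τ0)
    (D : Dat ν φ A B h P S K) :
    ∃ C, 0 ≤ C ∧ ∀ κ, 0 < κ → κ ≤ 1 → ∀ N, 1 ≤ N → ∀ i j x,
      |osc φ A B N i j x + Gt φ A B κ N i j x|
        ≤ 576 * τ0 / |θ0| * κ * (∑ i, (|A i x| + |B i x|)) + C / (κ * N) := by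
  have hSc : IsCompact S := D.Kc.of_isClosed_subset D.Sc D.SK
  have hθ : 0 < |θ0| := abs_pos.2 θ0_neg.ne
  choose C hC hW using fun (p : Fin 6 × Fin 3 × Fin 3) =>
    wave_conv hSc D.φs (Uk_amp D p.1) (Vk_amp D p.1) (fun x hx => D.ph.u1 hx)
      (TR_cd gb_pro (RR p.1) p.2.1 p.2.2).continuous
      (fun w hw => TR_off gb_pro (RR p.1) p.2.1 p.2.2 hw) (TR_mom1 (RR p.1) p.2.1 p.2.2)
  set M : ℝ := ∑ p, C p with hM
  have hM0 : 0 ≤ M := Finset.sum_nonneg fun p _ => hC p
  have hMp : ∀ p, C p ≤ M := fun p =>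
    Finset.single_le_sum (f := C) (fun p _ => hC p) (Finset.mem_univ p)
  refine ⟨6 * M * τ0 / |θ0|, by positivity, fun κ hκ hκ1 N hN i j x => ?_⟩
  have hN0 : 0 < N := by linarith
  have e1 : osc φ A B N i j x + Gt φ A B κ N i j x = (κ * θ0)⁻¹ * ∑ k,
      ((∫ w, wv φ (Uk φ A k) (Vk φ B k) N (x - (κ / N) • w) * TR gb (RR k) i j w)
        - κ * (∑ l, pd l φ x * ∫ w, TR gb (RR k) i j w * w l)
          * (Uk φ A k x * Real.sin (N * φ x) - Vk φ B k x * Real.cos (N * φ x))) := by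
    rw [osc_lead D]
    unfold Gt
    rw [Finset.sum_sub_distrib, mul_sub]
    have e2 : (κ * θ0)⁻¹ * ∑ k, κ * (∑ l, pd l φ x * ∫ w, TR gb (RR k) i j w * w l)
          * (Uk φ A k x * Real.sin (N * φ x) - Vk φ B k x * Real.cos (N * φ x))
        = ∑ k, (∑ l, pd l φ x * tt (RR k) i j l)
          * (Uk φ A k x * Real.sin (N * φ x) - Vk φ B k x * Real.cos (N * φ x)) := by
      rw [Finset.mul_sum]
      refine Finset.sum_congr rfl fun k _ => ?_
      simp only [TR_mom]
      have e3 : ∑ l, pd l φ x * (θ0 * tt (RR k) i j l)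
          = θ0 * ∑ l, pd l φ x * tt (RR k) i j l := by
        rw [Finset.mul_sum]
        exact Finset.sum_congr rfl fun l _ => by ring
      rw [e3]
      have := θ0_neg.ne
      field_simp
    rw [e2]
    ring
  rw [e1, abs_mul, abs_inv, abs_mul, abs_of_pos hκ]
  have h1 : ∀ k : Fin 6, |(∫ w, wv φ (Uk φ A k) (Vk φ B k) N (x - (κ / N) • w)
        * TR gb (RR k) i j w)
        - κ * (∑ l, pd l φ x * ∫ w, TR gb (RR k) i j w * w l)
          * (Uk φ A k x * Real.sin (N * φ x) - Vk φ B k x * Real.cos (N * φ x))|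
      ≤ (16 * κ ^ 2 * (6 * ∑ i, (|A i x| + |B i x|)) + M / N) * τ0 := by
    intro k
    refine (hW (k, i, j) κ hκ hκ1 N hN x).trans ?_
    have h2 := UV_bound D k x
    have h3 := hMp (k, i, j)
    have h4 := hτ k i j
    have h5 : 0 ≤ ∫ w, |TR gb (RR k) i j w| := integral_nonneg fun w => abs_nonneg _
    have h6 : 0 ≤ ∑ i, (|A i x| + |B i x|) := Finset.sum_nonneg fun i _ => by positivity
    gcongr
  have h7 := (Finset.abs_sum_le_sum_abs _ Finset.univ).trans (Finset.sum_le_sum fun k _ => h1 k)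
  rw [Finset.sum_const, Finset.card_univ, Fintype.card_fin, nsmul_eq_mul] at h7
  calc (κ * |θ0|)⁻¹ * _ ≤ (κ * |θ0|)⁻¹ * (((6 : ℕ) : ℝ)
        * ((16 * κ ^ 2 * (6 * ∑ i, (|A i x| + |B i x|)) + M / N) * τ0)) := by gcongr
    _ = _ := by
      push_cast
      field_simp
      ring

/-- the size of the difference -/
theorem gt_size {τ0 : ℝ} (hτ0 : 0 ≤ τ0)
    (hτ : ∀ (k : Fin 6) (i j : Fin 3), ∫ w, |TR gb (RR k) i j w| ≤ τ0)
    (D : Dat ν φ A B h P S K) :
    ∃ C, 0 ≤ C ∧ ∀ κ, 0 < κ → κ ≤ 1 → ∀ N, 1 ≤ N →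
      (∀ i j, Continuous fun x => osc φ A B N i j x + Gt φ A B κ N i j x) ∧
      (∀ i j, HasCompactSupport fun x => osc φ A B N i j x + Gt φ A B κ N i j x) ∧
      √(∫ x, ∑ i, ∑ j, (osc φ A B N i j x + Gt φ A B κ N i j x) ^ 2)
        ≤ 6400 * τ0 / |θ0| * κ * √(SD A B) + C / (κ * N) := by
  have hSc : IsCompact S := D.Kc.of_isClosed_subset D.Sc D.SK
  obtain ⟨C, hC, herr⟩ := gt_err hτ0 hτ D
  set K' : Set E3 := S + Metric.closedBall (0 : E3) 4 with hK'
  have hK'c : IsCompact K' := hSc.add (isCompact_closedBall _ _)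
  have hSK' : S ⊆ K' := fun x hx => ⟨x, hx, 0, by simp, by simp⟩
  set v : ℝ := (volume K').toReal with hv
  refine ⟨C * √(18 * v), by positivity, fun κ hκ hκ1 N hN => ?_⟩
  have hN0 : 0 < N := by linarith
  have hoff : ∀ i j x, x ∉ K' → osc φ A B N i j x + Gt φ A B κ N i j x = 0 := by
    intro i j x hx
    rw [(osc_aa D N i j).off x fun h => hx (hSK' h), zero_add]
    unfold Gt
    rw [Finset.sum_eq_zero, mul_zero]
    intro k _
    have : (fun w : E3 => wv φ (Uk φ A k) (Vk φ B k) N (x - (κ / N) • w) * TR gb (RR k) i j w)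
        = fun _ => 0 := by
      funext w
      rcases le_or_gt ‖w‖ 4 with hw | hw
      · have h1 : x - (κ / N) • w ∉ S := by
          intro h2
          refine hx ⟨x - (κ / N) • w, h2, (κ / N) • w, ?_, by simp⟩
          rw [mem_closedBall_zero_iff, norm_smul, Real.norm_of_nonneg (by positivity)]
          have h3 : κ / N ≤ 1 := by
            rw [div_le_one hN0]
            linarith
          have := norm_nonneg w
          have h4 : 0 ≤ κ / N := by positivity
          nlinarith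
        rw [(wv_amp D.φs (Uk_amp D k) (Vk_amp D k) N).off _ h1, zero_mul]
      · rw [TR_off gb_pro _ _ _ hw, mul_zero]
    rw [this, integral_zero]
  have hcont : ∀ i j, Continuous fun x => osc φ A B N i j x + Gt φ A B κ N i j x := by
    intro i j
    refine (osc_aa D N i j).smooth.continuous.add (continuous_const.mul
      (continuous_finsetSum _ fun k _ => ?_))
    have hw := wv_amp D.φs (Uk_amp D k) (Vk_amp D k) N
    exact conv_cont hw.smooth.continuous (amp_compact hSc hw)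
      (TR_cd gb_pro (RR k) i j).continuous (TR_cs gb_pro (RR k) i j) _
  have hcs : ∀ i j, HasCompactSupport fun x => osc φ A B N i j x + Gt φ A B κ N i j x :=
    fun i j => HasCompactSupport.intro hK'c fun x hx => hoff i j x hx
  refine ⟨hcont, hcs, ?_⟩
  set c1 : ℝ := 576 * τ0 / |θ0| * κ with hc1
  have hc10 : 0 ≤ c1 := by positivity
  set a : E3 → ℝ := fun x => ∑ i, (A i x ^ 2 + B i x ^ 2) with ha
  have hpt : ∀ x ∈ K', ∑ i, ∑ j, (osc φ A B N i j x + Gt φ A B κ N i j x) ^ 2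
      ≤ 108 * c1 ^ 2 * a x + 18 * (C / (κ * N)) ^ 2 := by
    intro x _
    have h1 : ∀ i j, (osc φ A B N i j x + Gt φ A B κ N i j x) ^ 2
        ≤ 12 * c1 ^ 2 * a x + 2 * (C / (κ * N)) ^ 2 := by
      intro i j
      have h2 := herr κ hκ hκ1 N hN i j x
      rw [← hc1] at h2
      set b : ℝ := ∑ i, (|A i x| + |B i x|) with hb
      have hb0 : 0 ≤ b := Finset.sum_nonneg fun i _ => by positivity
      have hCN : 0 ≤ C / (κ * N) := by positivity
      have h3 := sq_le_sq' (neg_le_of_abs_le h2) (le_of_abs_le h2)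
      have h4 : b ^ 2 ≤ 6 * a x := by
        rw [hb, ha]
        simp only [Fin.sum_univ_three]
        nlinarith [sq_nonneg (|A 0 x| - |A 1 x|), sq_nonneg (|A 0 x| - |A 2 x|),
          sq_nonneg (|A 1 x| - |A 2 x|), sq_nonneg (|B 0 x| - |B 1 x|),
          sq_nonneg (|B 0 x| - |B 2 x|), sq_nonneg (|B 1 x| - |B 2 x|),
          sq_nonneg (|A 0 x| - |B 0 x|), sq_nonneg (|A 0 x| - |B 1 x|),
          sq_nonneg (|A 0 x| - |B 2 x|), sq_nonneg (|A 1 x| - |B 0 x|),
          sq_nonneg (|A 1 x| - |B 1 x|), sq_nonneg (|A 1 x| - |B 2 x|),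
          sq_nonneg (|A 2 x| - |B 0 x|), sq_nonneg (|A 2 x| - |B 1 x|),
          sq_nonneg (|A 2 x| - |B 2 x|), sq_abs (A 0 x), sq_abs (A 1 x), sq_abs (A 2 x),
          sq_abs (B 0 x), sq_abs (B 1 x), sq_abs (B 2 x)]
      calc _ ≤ (c1 * b + C / (κ * N)) ^ 2 := h3
        _ ≤ 2 * (c1 * b) ^ 2 + 2 * (C / (κ * N)) ^ 2 := by
            nlinarith [sq_nonneg (c1 * b - C / (κ * N))]
        _ = 2 * c1 ^ 2 * b ^ 2 + 2 * (C / (κ * N)) ^ 2 := by ring
        _ ≤ 2 * c1 ^ 2 * (6 * a x) + 2 * (C / (κ * N)) ^ 2 := by gcongr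
        _ = _ := by ring
    refine (Finset.sum_le_sum fun i _ => Finset.sum_le_sum fun j _ => h1 i j).trans (le_of_eq ?_)
    simp
    ring
  have hint : ∫ x, ∑ i, ∑ j, (osc φ A B N i j x + Gt φ A B κ N i j x) ^ 2
      ≤ 108 * c1 ^ 2 * SD A B + 18 * (C / (κ * N)) ^ 2 * v := by
    have e1 : ∫ x, ∑ i, ∑ j, (osc φ A B N i j x + Gt φ A B κ N i j x) ^ 2
        = ∫ x in K', ∑ i, ∑ j, (osc φ A B N i j x + Gt φ A B κ N i j x) ^ 2 := by
      symm
      apply setIntegral_eq_integral_of_forall_compl_eq_zero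
      intro x hx
      exact Finset.sum_eq_zero fun i _ => Finset.sum_eq_zero fun j _ => by
        rw [hoff i j x hx]
        ring
    have e2 : SD A B = ∫ x in K', a x := by
      symm
      apply setIntegral_eq_integral_of_forall_compl_eq_zero
      intro x hx
      refine Finset.sum_eq_zero fun i _ => ?_
      rw [(D.Aa i).off x fun h => hx (hSK' h), (D.Ba i).off x fun h => hx (hSK' h)]
      ring
    have ia : Integrable a := sq_int D
    rw [e1, e2]
    have e3 : 108 * c1 ^ 2 * (∫ x in K', a x) + 18 * (C / (κ * N)) ^ 2 * v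
        = ∫ x in K', (108 * c1 ^ 2 * a x + 18 * (C / (κ * N)) ^ 2) := by
      rw [integral_add (ia.integrableOn.const_mul _) (integrableOn_const hK'c.measure_lt_top.ne),
        integral_const_mul, setIntegral_const, smul_eq_mul]
      unfold Measure.real
      ring
    rw [e3]
    refine setIntegral_mono_on ?_ ?_ hK'c.measurableSet hpt
    · exact (continuous_finsetSum _ fun i _ => continuous_finsetSum _ fun j _ =>
        (hcont i j).pow 2).continuousOn.integrableOn_compact hK'c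
    · exact (ia.integrableOn.const_mul _).add (integrableOn_const hK'c.measure_lt_top.ne)
  have hSD := SD_nonneg (A := A) (B := B)
  have hCN : 0 ≤ C / (κ * N) := by positivity
  refine (Real.sqrt_le_sqrt hint).trans ((sqrt_add_le' (by positivity)
    (by positivity)).trans ?_)
  have e4 : √(108 * c1 ^ 2 * SD A B) = √108 * c1 * √(SD A B) := by
    rw [Real.sqrt_mul (by positivity), Real.sqrt_mul (by norm_num), Real.sqrt_sq hc10]
  have e5 : √(18 * (C / (κ * N)) ^ 2 * v) = C / (κ * N) * √(18 * v) := by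
    have : 18 * (C / (κ * N)) ^ 2 * v = (C / (κ * N)) ^ 2 * (18 * v) := by ring
    rw [this, Real.sqrt_mul (by positivity), Real.sqrt_sq hCN]
  have e6 : √108 ≤ 11 := by
    rw [Real.sqrt_le_left (by norm_num)]
    norm_num
  rw [e4, e5]
  have h1 : √108 * c1 * √(SD A B) ≤ 6400 * τ0 / |θ0| * κ * √(SD A B) := by
    have : √108 * c1 ≤ 6400 * τ0 / |θ0| * κ := by
      calc √108 * c1 ≤ 11 * c1 := by gcongr
        _ = 6336 * (τ0 / |θ0| * κ) := by
            rw [hc1]
            ring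
        _ ≤ 6400 * (τ0 / |θ0| * κ) := by
            have : 0 ≤ τ0 / |θ0| * κ := by positivity
            linarith
        _ = _ := by ring
    gcongr
  have h2 : C / (κ * N) * √(18 * v) = C * √(18 * v) / (κ * N) := by ring
  linarith

end Pool.Agent.J4H18.DN
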